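import Pool.Agent.PAH.Defs

set_option autoImplicit false

/-!
# Straight-line triangle representations: all definitions used in the main statement
-/

namespace Pool.Agent.SLN

open Pool.Agent.PAH (Plane det3 ccwAngle LiesLeft dartsOf cornersOf DecisionProblem PolyReduces)

/-! ## Plane graphs with suspensions -/

/-- A graph with a combinatorial embedding and three designated vertices (the suspensions).  The
embedding is presented by its facial walks: the facial walk of the outer face and those of the
bounded faces.  A walk is the cyclic list of its vertices, traversed with the face on the left. -/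
structure PlaneMap (V : Type) where
  outer : List V
  inner : List (List V)
  s₁ : V
  s₂ : V
  s₃ : V

section
variable {V : Type}

/-- all facial walks -/
def PlaneMap.walks (G : PlaneMap V) : List (List V) := G.outer :: G.inner

/-- all directed edges -/
def PlaneMap.darts (G : PlaneMap V) : List (V × V) := G.walks.flatMap dartsOf

/-- the union of all edges, drawn as segments -/
def PlaneMap.drawn (G : PlaneMap V) (p : V → Plane) : Set Plane :=
  {x | ∃ d ∈ G.darts, x ∈ segment ℝ (p d.1) (p d.2)}

/-- `R` is a face of the drawing `p`, and it lies on the left of the whole walk `w` -/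
structure IsFace (G : PlaneMap V) (p : V → Plane) (w : List V) (R : Set Plane) : Prop where
  component : ∃ x ∈ (G.drawn p)ᶜ, R = connectedComponentIn (G.drawn p)ᶜ x
  left : ∀ d ∈ dartsOf w, LiesLeft R (p d.1) (p d.2)

/-- A crossing-free straight-line drawing of `G` with the prescribed embedding. -/
structure Drawing (G : PlaneMap V) where
  /-- positions of the vertices -/
  pos : V → Plane
  /-- each directed edge occurs once on the facial walks, and so does its reverse; no loops -/
  nodup : G.darts.Nodup
  symm : ∀ d ∈ G.darts, d.swap ∈ G.darts
  loopless : ∀ d ∈ G.darts, d.1 ≠ d.2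
  /-- different vertices are at different points -/
  inj : ∀ d ∈ G.darts, ∀ e ∈ G.darts, pos d.1 = pos e.1 → d.1 = e.1
  /-- different edges meet in common end vertices only -/
  noncrossing : ∀ d ∈ G.darts, ∀ e ∈ G.darts, e ≠ d → e ≠ d.swap →
    ∀ x ∈ segment ℝ (pos d.1) (pos d.2), x ∈ segment ℝ (pos e.1) (pos e.2) →
      ∃ v, (v = d.1 ∨ v = d.2) ∧ (v = e.1 ∨ v = e.2) ∧ x = pos v
  /-- the rotation system is the given one: for consecutive vertices `u, v, w` of a facial walk,
  `u` is the first neighbour of `v` counterclockwise after `w` -/
  rotation : ∀ f ∈ G.walks, ∀ c ∈ cornersOf f, ∀ x, (c.2.1, x) ∈ G.darts → x ≠ c.2.2 →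
    ccwAngle (pos c.2.1) (pos c.2.2) (pos c.1) ≤ ccwAngle (pos c.2.1) (pos c.2.2) (pos x)
  /-- the region of the outer face -/
  outerFace : Set Plane
  /-- the regions of the bounded faces -/
  face : Fin G.inner.length → Set Plane
  outer_isFace : IsFace G pos G.outer outerFace
  outer_unbounded : ¬ Bornology.IsBounded outerFace
  face_isFace : ∀ i, IsFace G pos (G.inner.get i) (face i)
  face_bounded : ∀ i, Bornology.IsBounded (face i)
  face_inj : Function.Injective face

/-- A straight-line triangle representation: each bounded face is (the interior of) a
non-degenerate triangle, and the outer face is the exterior of the non-degenerate triangle spanned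
by the three suspensions. -/
structure SLTR (G : PlaneMap V) extends Drawing G where
  triangle : ∀ i, ∃ A B C : Plane, det3 A B C ≠ 0 ∧
    face i = interior (convexHull ℝ {A, B, C})
  nondegenerate : det3 (pos G.s₁) (pos G.s₂) (pos G.s₃) ≠ 0
  exterior : outerFace = (convexHull ℝ {pos G.s₁, pos G.s₂, pos G.s₃})ᶜ

/-- adjacency in the graph extended by a new vertex `none` in the outer face, joined to the three
suspensions -/
def PlaneMap.Adj (G : PlaneMap V) : Option V → Option V → Prop
  | some u, some v => (u, v) ∈ G.darts
  | none, some v => v = G.s₁ ∨ v = G.s₂ ∨ v = G.s₃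
  | some v, none => v = G.s₁ ∨ v = G.s₂ ∨ v = G.s₃
  | none, none => False

/-- vertices of the extended graph -/
def PlaneMap.Vert (G : PlaneMap V) : Option V → Prop
  | some v => ∃ d ∈ G.darts, d.1 = v
  | none => True

/-- The graph extended by the new vertex is 3-connected: after the removal of any two (possibly
equal) vertices `a`, `b` any two remaining vertices are joined by a path.  (With three different
suspensions the extended graph has at least four vertices.) -/
def PlaneMap.InternallyThreeConnected (G : PlaneMap V) : Prop :=
  ∀ a b x y : Option V, G.Vert x → G.Vert y → x ≠ a → x ≠ b → y ≠ a → y ≠ b →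
    Relation.ReflTransGen (fun u v => G.Adj u v ∧ v ≠ a ∧ v ≠ b) x y

/-- relabelling the vertices -/
def PlaneMap.map {W : Type} (g : V → W) (G : PlaneMap V) : PlaneMap W :=
  ⟨G.outer.map g, G.inner.map (List.map g), g G.s₁, g G.s₂, g G.s₃⟩

end

/-! ## The recognition problem -/

/-- the alphabet used for all encodings -/
inductive Sym
  | zero | one | neg | comma | semi
  deriving DecidableEq, Fintype

/-- a bit string -/
def encBits (l : List Bool) : List Sym := l.map fun b => if b then Sym.one else Sym.zero

/-- a walk: the names (bit strings) of its vertices, each followed by a comma, and a semicolon -/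
def encWalk (w : List (List Bool)) : List Sym :=
  w.flatMap (fun v => encBits v ++ [Sym.comma]) ++ [Sym.semi]

/-- a map: the suspensions, the outer walk, the inner walks -/
def encMap (G : PlaneMap (List Bool)) : List Sym :=
  encWalk [G.s₁, G.s₂, G.s₃] ++ encWalk G.outer ++ G.inner.flatMap encWalk

/-- An instance: an internally 3-connected plane graph (its embedding is realised by some
straight-line drawing; by Fáry's theorem every plane graph has one) with three different
suspensions on the outer face.  The vertices are named by bit strings. -/
structure Instance where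
  graph : PlaneMap (List Bool)
  plane : Nonempty (Drawing graph)
  outer₁ : graph.s₁ ∈ graph.outer
  outer₂ : graph.s₂ ∈ graph.outer
  outer₃ : graph.s₃ ∈ graph.outer
  ne₁₂ : graph.s₁ ≠ graph.s₂
  ne₂₃ : graph.s₂ ≠ graph.s₃
  ne₃₁ : graph.s₃ ≠ graph.s₁
  conn : graph.InternallyThreeConnected

/-! ## Satisfiability of formulas in conjunctive normal form -/

/-- a literal: its sign and the name of its variable -/
abbrev Lit : Type := Bool × List Bool

/-- the formula (a list of clauses, each a list of literals) is satisfiable -/
def Satisfiable (φ : List (List Lit)) : Prop :=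
  ∃ τ : List Bool → Bool, ∀ c ∈ φ, ∃ l ∈ c, τ l.2 = l.1

/-- a literal: the symbol `neg` if it is negative, the name of the variable, and a comma -/
def encLit (l : Lit) : List Sym := (if l.1 then [] else [Sym.neg]) ++ encBits l.2 ++ [Sym.comma]

/-- a formula: its clauses, each a list of literals followed by a semicolon -/
def encCNF (φ : List (List Lit)) : List Sym := φ.flatMap fun c => c.flatMap encLit ++ [Sym.semi]

end Pool.Agent.SLN
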