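import Pool.Agent.SLN.Print

set_option autoImplicit false

/-!
# The two decision problems in the main theorem
-/

namespace Pool.Agent.SLN

open Pool.Agent.PAH (DecisionProblem PolyReduces)

/-- the alphabet is finite -/
theorem Sym.finite : Finite Sym := inferInstance

/-- distinct formulas have distinct encodings -/
theorem encCNF_inj : Function.Injective encCNF := tEnc.1

theorem Instance.ext_graph {I J : Instance} (h : I.graph = J.graph) : I = J := by
  cases I
  cases J
  simp only at h
  subst h
  rfl

/-- distinct instances have distinct encodings -/
theorem Instance.enc_inj : Function.Injective fun I : Instance => encMap I.graph :=
  fun _ _ h => Instance.ext_graph (tEnc.2 h)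

/-- Satisfiability of propositional formulas in conjunctive normal form. -/
def cnfSat : DecisionProblem where
  Inst := List (List Lit)
  Alphabet := Sym
  finite := Sym.finite
  enc := encCNF
  enc_inj := encCNF_inj
  Yes := Satisfiable

/-- Recognition of graphs with a straight-line triangle representation: given an internally
3-connected plane graph with three suspensions, does it have such a representation? -/
def sltrRecognition : DecisionProblem where
  Inst := Instance
  Alphabet := Sym
  finite := Sym.finite
  enc := fun I => encMap I.graph
  enc_inj := Instance.enc_inj
  Yes := fun I => Nonempty (SLTR I.graph)

end Pool.Agent.SLN
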