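import Pool.Agent.SLN.RedYes

set_option autoImplicit false

/-!
# P-ENC and P-PRINT
-/

namespace Pool.Agent.SLN

open Pool.Agent.PT (Dat PolyF PolyB D sz Core sz_pair sz_cons sz_nil sz_pos sz_reverse sz_append
  length_lt_sz sz_le_of_prefix enc)

/-! ### Parsing formulas -/

/-- digits read (reversed), sign, literals of the clause (reversed), clauses (reversed) -/
abbrev PSt : Type := List Bool × Bool × List Lit × List (List Lit)

/-- one step of the parser -/
def pstep (s : PSt) (c : Sym) : PSt :=
  cond (decide (c = Sym.zero)) (false :: s.1, s.2)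
    (cond (decide (c = Sym.one)) (true :: s.1, s.2)
      (cond (decide (c = Sym.neg)) (s.1, true, s.2.2)
        (cond (decide (c = Sym.comma)) ([], false, (!s.2.1, s.1.reverse) :: s.2.2.1, s.2.2.2)
          ([], false, [], s.2.2.1.reverse :: s.2.2.2))))

/-- the start of the parser -/
def pinit : PSt := ([], false, [], [])

/-- the parser -/
def parse (w : List Sym) : List (List Lit) := (w.foldl pstep pinit).2.2.2.reverse

theorem foldl_bits (l : List Bool) (o : List Bool) (r : Bool × List Lit × List (List Lit)) :
    (encBits l).foldl pstep (o, r) = (l.reverse ++ o, r) := by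
  unfold encBits
  induction l generalizing o with
  | nil => rfl
  | cons b l ih =>
    rw [List.map_cons, List.foldl_cons]
    have : pstep (o, r) (if b = true then Sym.one else Sym.zero) = (b :: o, r) := by
      cases b <;> simp [pstep]
    rw [this, ih]
    simp

theorem foldl_encLit (l : Lit) (cl : List Lit) (cs : List (List Lit)) :
    (encLit l).foldl pstep ([], false, cl, cs) = ([], false, l :: cl, cs) := by
  obtain ⟨b, x⟩ := l
  unfold encLit
  cases b
  · have h1 : pstep ([], false, cl, cs) Sym.neg = ([], true, cl, cs) := by simp [pstep]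
    rw [if_neg (by simp)]
    simp only [List.foldl_append, List.foldl_cons, List.foldl_nil]
    rw [h1, foldl_bits]
    simp [pstep]
  · rw [if_pos rfl, List.nil_append, List.foldl_append, foldl_bits, List.foldl_cons,
      List.foldl_nil]
    simp [pstep]

theorem foldl_lits (c : List Lit) : ∀ (cl : List Lit) (cs : List (List Lit)),
    (c.flatMap encLit).foldl pstep ([], false, cl, cs) = ([], false, c.reverse ++ cl, cs) := by
  induction c with
  | nil => intro cl cs; rfl
  | cons l c ih =>
    intro cl cs
    rw [List.flatMap_cons, List.foldl_append, foldl_encLit, ih]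
    simp

theorem foldl_clauses (φ : List (List Lit)) : ∀ cs : List (List Lit),
    (encCNF φ).foldl pstep ([], false, [], cs) = ([], false, [], φ.reverse ++ cs) := by
  induction φ with
  | nil => intro cs; rfl
  | cons c φ ih =>
    intro cs
    have e : encCNF (c :: φ) = c.flatMap encLit ++ Sym.semi :: encCNF φ := by
      unfold encCNF
      rw [List.flatMap_cons, List.append_assoc]
      rfl
    have h : pstep ([], false, c.reverse ++ [], cs) Sym.semi = ([], false, [], c :: cs) := by
      simp [pstep]
    rw [e, List.foldl_append, foldl_lits, List.foldl_cons, h, ih]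
    simp

theorem parse_encCNF (φ : List (List Lit)) : parse (encCNF φ) = φ := by
  unfold parse pinit
  rw [foldl_clauses]
  simp

theorem encCNF_injective : Function.Injective encCNF := fun a b h => by
  rw [← parse_encCNF a, h, parse_encCNF]

/-! ### Parsing maps -/

/-- digits read (reversed), names of the walk (reversed), walks (reversed) -/
abbrev MSt : Type := List Bool × List (List Bool) × List (List (List Bool))

/-- one step of the parser of maps -/
def mstep (s : MSt) (c : Sym) : MSt :=
  match c with
  | .zero => (false :: s.1, s.2)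
  | .one => (true :: s.1, s.2)
  | .neg => s
  | .comma => ([], s.1.reverse :: s.2.1, s.2.2)
  | .semi => ([], [], s.2.1.reverse :: s.2.2)

theorem mfoldl_bits (l : List Bool) (o : List Bool)
    (r : List (List Bool) × List (List (List Bool))) :
    (encBits l).foldl mstep (o, r) = (l.reverse ++ o, r) := by
  unfold encBits
  induction l generalizing o with
  | nil => rfl
  | cons b l ih =>
    rw [List.map_cons, List.foldl_cons]
    have : mstep (o, r) (if b = true then Sym.one else Sym.zero) = (b :: o, r) := by
      cases b <;> rfl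
    rw [this, ih]
    simp

theorem mfoldl_names (w : List (List Bool)) : ∀ (o : List (List Bool))
    (r : List (List (List Bool))),
    (w.flatMap (fun v => encBits v ++ [Sym.comma])).foldl mstep ([], o, r) =
      ([], w.reverse ++ o, r) := by
  induction w with
  | nil => intro o r; rfl
  | cons v w ih =>
    intro o r
    have h : mstep (v.reverse ++ [], o, r) Sym.comma = ([], v :: o, r) := by
      simp [mstep]
    rw [List.flatMap_cons, List.foldl_append, List.foldl_append, mfoldl_bits, List.foldl_cons,
      List.foldl_nil, h, ih]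
    simp

theorem mfoldl_walk (w : List (List Bool)) (r : List (List (List Bool))) :
    (encWalk w).foldl mstep ([], [], r) = ([], [], w :: r) := by
  unfold encWalk
  rw [List.foldl_append, mfoldl_names, List.foldl_cons, List.foldl_nil]
  simp [mstep]

theorem mfoldl_walks (l : List (List (List Bool))) : ∀ r : List (List (List Bool)),
    (l.flatMap encWalk).foldl mstep ([], [], r) = ([], [], l.reverse ++ r) := by
  induction l with
  | nil => intro r; rfl
  | cons w l ih =>
    intro r
    rw [List.flatMap_cons, List.foldl_append, mfoldl_walk, ih]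
    simp

theorem encMap_injective : Function.Injective encMap := by
  have key : ∀ G : PlaneMap (List Bool), (encMap G).foldl mstep ([], [], []) =
      ([], [], ([G.s₁, G.s₂, G.s₃] :: G.outer :: G.inner).reverse ++ []) := by
    intro G
    have e : encMap G = ([G.s₁, G.s₂, G.s₃] :: G.outer :: G.inner).flatMap encWalk := by
      unfold encMap
      rw [List.flatMap_cons, List.flatMap_cons, List.append_assoc]
    rw [e, mfoldl_walks]
  intro G H h
  have h1 := key G
  rw [h, key H] at h1
  simp only [List.append_nil, Prod.mk.injEq, List.reverse_inj, List.cons.injEq, true_and,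
    and_true] at h1
  obtain ⟨⟨ha, hb, hc⟩, hd, he⟩ := h1
  cases G
  cases H
  simp only at ha hb hc hd he
  rw [ha, hb, hc, hd, he]

theorem tEnc : TEnc := ⟨encCNF_injective, encMap_injective⟩

/-! ### Polynomial time -/

/-- numbers of the symbols -/
def symIdx : Sym → ℕ
  | .zero => 0
  | .one => 1
  | .neg => 2
  | .comma => 3
  | .semi => 4

instance : Dat Sym := ⟨fun c => D.un (symIdx c), fun a b h => by
  have := D.un_inj h
  cases a <;> cases b <;> simp [symIdx] at this ⊢⟩

section

variable {γ : Type} [Dat γ] [hC : Fact Core]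

@[fun_prop] theorem eq_symS {f g : γ → Sym} (hf : PolyF f) (hg : PolyF g) :
    PolyF (fun a => decide (f a = g a)) := PolyF.eq hf hg

@[fun_prop] theorem pstep_pt {s : γ → PSt} {c : γ → Sym} (hs : PolyF s) (hc : PolyF c) :
    PolyF (fun x => pstep (s x) (c x)) := by
  unfold pstep; fun_prop

omit hC [Dat γ] in
theorem sz_pstep_le (s : PSt) (c : Sym) : sz (pstep s c) ≤ sz s + 20 := by
  obtain ⟨l, b, cl, cs⟩ := s
  have h3 := sz_pos l
  have h4 := sz_pos b
  have h5 := sz_pos cl
  have h6 := sz_pos cs
  have h9 : sz true = 3 := rfl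
  have h10 : sz false = 1 := rfl
  have h12 : sz ([] : List Bool) = 1 := rfl
  have h13 : sz ([] : List Lit) = 1 := rfl
  cases c <;> (try cases b) <;> simp [pstep, sz_pair, sz_cons, sz_reverse, h9, h10, h12, h13] <;>
    omega

omit hC [Dat γ] in
theorem sz_foldl_pstep (w : List Sym) (s : PSt) : sz (w.foldl pstep s) ≤ sz s + 20 * w.length := by
  induction w generalizing s with
  | nil => simp
  | cons c w ih =>
    rw [List.foldl_cons, List.length_cons]
    have := ih (pstep s c)
    have := sz_pstep_le s c
    omega

theorem foldl_pstep_pt : PolyF (fun w : List Sym => w.foldl pstep pinit) := by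
  refine PolyF.foldl (f := fun _ => pstep) (by fun_prop) (by fun_prop) (by fun_prop)
    (fun w => sz pinit + 20 * sz w) ((PolyB.const _).add ((PolyB.const 20).mul PolyB.sz)) ?_
  intro w l₁ hl₁
  have h1 := sz_foldl_pstep l₁ pinit
  have h2 := length_lt_sz l₁
  have h3 := sz_le_of_prefix hl₁
  omega

theorem parse_pt : PolyF parse := by
  have := foldl_pstep_pt (hC := hC)
  exact this.snd.snd.snd.reverse

@[fun_prop] theorem ite_eq_nat_pt {β : Type} [Dat β] {a b : γ → ℕ} {f g : γ → β} (ha : PolyF a)
    (hb : PolyF b) (hf : PolyF f) (hg : PolyF g) :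
    PolyF (fun x => if a x = b x then f x else g x) := by
  have h : PolyF (fun x => cond (decide (a x = b x)) (f x) (g x)) := by fun_prop
  refine h.congr (fun x => ?_)
  by_cases hx : a x = b x
  · rw [if_pos hx, decide_eq_true hx, cond_true]
  · rw [if_neg hx, decide_eq_false hx, cond_false]

@[fun_prop] theorem uu_pt {r c : γ → ℕ} (hr : PolyF r) (hc : PolyF c) :
    PolyF (fun x => uu (r x) (c x)) := by unfold uu; fun_prop
@[fun_prop] theorem xx_pt {r c : γ → ℕ} (hr : PolyF r) (hc : PolyF c) :
    PolyF (fun x => xx (r x) (c x)) := by unfold xx; fun_prop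
@[fun_prop] theorem qq_pt {r c : γ → ℕ} (hr : PolyF r) (hc : PolyF c) :
    PolyF (fun x => qq (r x) (c x)) := by unfold qq; fun_prop
@[fun_prop] theorem vv_pt {r c : γ → ℕ} (hr : PolyF r) (hc : PolyF c) :
    PolyF (fun x => vv (r x) (c x)) := by unfold vv; fun_prop
@[fun_prop] theorem ww_pt {r c : γ → ℕ} (hr : PolyF r) (hc : PolyF c) :
    PolyF (fun x => ww (r x) (c x)) := by unfold ww; fun_prop
@[fun_prop] theorem nd_pt {r c i : γ → ℕ} (hr : PolyF r) (hc : PolyF c) (hi : PolyF i) :
    PolyF (fun x => nd (r x) (c x) (i x)) := by unfold nd; fun_prop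
@[fun_prop] theorem hub_pt {N i r c : γ → ℕ} (hN : PolyF N) (hi : PolyF i) (hr : PolyF r)
    (hc : PolyF c) : PolyF (fun x => hub (N x) (i x) (r x) (c x)) := by unfold hub; fun_prop
@[fun_prop] theorem hy_pt {N r c : γ → ℕ} (hN : PolyF N) (hr : PolyF r) (hc : PolyF c) :
    PolyF (fun x => hy (N x) (r x) (c x)) := by unfold hy; fun_prop
@[fun_prop] theorem hc_pt {N r c : γ → ℕ} (hN : PolyF N) (hr : PolyF r) (hc' : PolyF c) :
    PolyF (fun x => hc (N x) (r x) (c x)) := by unfold hc; fun_prop
@[fun_prop] theorem hd_pt {N r c : γ → ℕ} (hN : PolyF N) (hr : PolyF r) (hc : PolyF c) :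
    PolyF (fun x => hd (N x) (r x) (c x)) := by unfold hd; fun_prop
@[fun_prop] theorem pp_pt {N r c : γ → ℕ} (hN : PolyF N) (hr : PolyF r) (hc : PolyF c) :
    PolyF (fun x => pp (N x) (r x) (c x)) := by
  have h : PolyF (fun x => if r x = 0 then s1 else if c x = 0 then s1 else
      if r x = N x then s2 else ((r x, c x, 9) : VX)) := by fun_prop
  refine h.congr (fun x => ?_)
  unfold pp
  by_cases h1 : r x = 0
  · rw [if_pos h1, if_pos (Or.inl h1)]
  · by_cases h2 : c x = 0
    · rw [if_neg h1, if_pos h2, if_pos (Or.inr h2)]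
    · rw [if_neg h1, if_neg h2, if_neg (show ¬ (r x = 0 ∨ c x = 0) by tauto)]

@[fun_prop] theorem prism_pt {s b t n4 n5 n6 : γ → VX} (h1 : PolyF s) (h2 : PolyF b)
    (h3 : PolyF t) (h4 : PolyF n4) (h5 : PolyF n5) (h6 : PolyF n6) :
    PolyF (fun x => prism (s x) (b x) (t x) (n4 x) (n5 x) (n6 x)) := by
  unfold prism; fun_prop

@[fun_prop] theorem tile_pt {a b c d : γ → VX} {r k i : γ → ℕ} (h1 : PolyF a) (h2 : PolyF b)
    (h3 : PolyF c) (h4 : PolyF d) (h5 : PolyF r) (h6 : PolyF k) (h7 : PolyF i) :
    PolyF (fun x => tile (a x) (b x) (c x) (d x) (r x) (k x) (i x)) := by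
  unfold tile; fun_prop

@[fun_prop] theorem tileA_pt {N r c : γ → ℕ} (hN : PolyF N) (hr : PolyF r) (hc : PolyF c) :
    PolyF (fun x => tileA (N x) (r x) (c x)) := by unfold tileA; fun_prop
@[fun_prop] theorem tileB_pt {N r c : γ → ℕ} (hN : PolyF N) (hr : PolyF r) (hc : PolyF c) :
    PolyF (fun x => tileB (N x) (r x) (c x)) := by unfold tileB; fun_prop
@[fun_prop] theorem tileW_pt {N r c : γ → ℕ} (hN : PolyF N) (hr : PolyF r) (hc : PolyF c) :
    PolyF (fun x => tileW (N x) (r x) (c x)) := by unfold tileW; fun_prop
@[fun_prop] theorem thin_pt {N r c : γ → ℕ} (hN : PolyF N) (hr : PolyF r) (hc : PolyF c) :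
    PolyF (fun x => thin (N x) (r x) (c x)) := by unfold thin; fun_prop

@[fun_prop] theorem midFaces_pt {N r c : γ → ℕ} (hN : PolyF N) (hr : PolyF r) (hc : PolyF c) :
    PolyF (fun x => midFaces (N x) (r x) (c x)) := by unfold midFaces; fun_prop
@[fun_prop] theorem centre_pt {N r c : γ → ℕ} (hN : PolyF N) (hr : PolyF r) (hc : PolyF c) :
    PolyF (fun x => centre (N x) (r x) (c x)) := by unfold centre; fun_prop
@[fun_prop] theorem deadFaces_pt {N r c : γ → ℕ} (hN : PolyF N) (hr : PolyF r) (hc : PolyF c) :
    PolyF (fun x => deadFaces (N x) (r x) (c x)) := by unfold deadFaces; fun_prop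

@[fun_prop] theorem leftFaces_pt {N r c : γ → ℕ} (hN : PolyF N) (hr : PolyF r) (hc : PolyF c) :
    PolyF (fun x => leftFaces (N x) (r x) (c x)) := by
  have h : PolyF (fun x => cond (decide (c x = 0) && !decide (r x % 2 = 1))
      (tile (uu (r x) 0) s1 (uu (r x + 1) 0) (hy (N x) (r x + 1) 0) (r x) 0 18)
      [[pp (N x) (r x + 1) (c x), hy (N x) (r x + 1) (c x), uu (r x) (c x)],
        [pp (N x) (r x + 1) (c x), uu (r x + 1) (c x), hy (N x) (r x + 1) (c x)]]) := by
    fun_prop
  refine h.congr (fun x => ?_)
  unfold leftFaces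
  by_cases h1 : c x = 0 ∧ r x % 2 = 0
  · rw [if_pos h1]
    have : (decide (c x = 0) && !decide (r x % 2 = 1)) = true := by
      simp [h1.1, h1.2]
    rw [this, cond_true]
  · rw [if_neg h1]
    have : (decide (c x = 0) && !decide (r x % 2 = 1)) = false := by
      rw [Bool.eq_false_iff]
      intro h2
      simp only [Bool.and_eq_true, decide_eq_true_eq, Bool.not_eq_true', decide_eq_false_iff_not]
        at h2
      exact h1 ⟨h2.1, by omega⟩
    rw [this, cond_false]

@[fun_prop] theorem bandFaces_pt {N r c : γ → ℕ} (hN : PolyF N) (hr : PolyF r) (hc : PolyF c) :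
    PolyF (fun x => bandFaces (N x) (r x) (c x)) := by unfold bandFaces; fun_prop
@[fun_prop] theorem rightFaces_pt {N M r : γ → ℕ} (hN : PolyF N) (hM : PolyF M) (hr : PolyF r) :
    PolyF (fun x => rightFaces (N x) (M x) (r x)) := by unfold rightFaces; fun_prop

/-! #### The formula -/

theorem mem_pt {β : Type} [Dat β] [DecidableEq β] {a : γ → β} {l : γ → List β}
    [∀ x, Decidable (a x ∈ l x)] (ha : PolyF a) (hl : PolyF l) :
    PolyF (fun x => decide (a x ∈ l x)) := by
  have h : PolyF (fun x => (l x).any (fun y => decide (a x = y))) := by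
    refine PolyF.any (f := fun x y => decide (a x = y)) ?_ hl
    exact PolyF.eq (ha.comp (PolyF.fst PolyF.id)) (PolyF.snd PolyF.id)
  refine h.congr (fun x => ?_)
  rw [Bool.eq_iff_iff]
  simp

@[fun_prop] theorem mem_lit_pt {a : γ → Lit} {l : γ → List Lit} (ha : PolyF a)
    (hl : PolyF l) : PolyF (fun x => decide (a x ∈ l x)) := mem_pt ha hl

@[fun_prop] theorem mem_name_pt {a : γ → List Bool} {l : γ → List (List Bool)} (ha : PolyF a)
    (hl : PolyF l) : PolyF (fun x => decide (a x ∈ l x)) := mem_pt ha hl

@[fun_prop] theorem vars_pt {φ : γ → List (List Lit)} (hφ : PolyF φ) :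
    PolyF (fun x => vars (φ x)) := by
  have h1 : PolyF (fun l : List (List Bool) => l.foldl
      (fun (s : List (List Bool)) x => cond (decide (x ∈ s)) s (s ++ [x])) []) := by
    refine PolyF.foldl
      (f := fun _ (s : List (List Bool)) x => cond (decide (x ∈ s)) s (s ++ [x]))
      (by fun_prop) (by fun_prop) (by fun_prop) (fun l => sz l) PolyB.sz ?_
    intro l l₁ hl₁
    have key : ∀ (m s : List (List Bool)), sz (m.foldl
        (fun (s : List (List Bool)) x => cond (decide (x ∈ s)) s (s ++ [x])) s) + 1 ≤
        sz m + sz s := by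
      intro m
      induction m with
      | nil => intro s; simp [sz_nil, Nat.add_comm]
      | cons b m ih =>
        intro s
        rw [List.foldl_cons, sz_cons]
        by_cases hc : b ∈ s
        · rw [decide_eq_true hc, cond_true]
          have := ih s
          omega
        · rw [decide_eq_false hc, cond_false]
          have h5 := ih (s ++ [b])
          have h6 := sz_append s [b]
          rw [sz_cons, sz_nil] at h6
          omega
    have h3 := key l₁ []
    have h4 := sz_le_of_prefix hl₁
    rw [sz_nil] at h3
    omega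
  have h2 : PolyF (fun x => ([] : List Bool) :: (φ x).flatten.map (fun l : Lit => l.2)) := by
    fun_prop
  refine (h1.comp h2).congr (fun x => ?_)
  unfold vars
  congr 1
  funext s y
  by_cases hy : y ∈ s
  · rw [decide_eq_true hy, cond_true, if_pos hy]
  · rw [decide_eq_false hy, cond_false, if_neg hy]

@[fun_prop] theorem rails_pt {φ : γ → List (List Lit)} (hφ : PolyF φ) :
    PolyF (fun x => rails (φ x)) := by unfold rails; fun_prop

@[fun_prop] theorem clauses_pt {φ : γ → List (List Lit)} (hφ : PolyF φ) :
    PolyF (fun x => clauses (φ x)) := by unfold clauses; fun_prop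

@[fun_prop] theorem thick_pt {φ : γ → List (List Lit)} {r c : γ → ℕ} (hφ : PolyF φ)
    (hr : PolyF r) (hc : PolyF c) : PolyF (fun x => thick (φ x) (r x) (c x)) := by
  unfold thick; fun_prop

@[fun_prop] theorem railFaces_pt {φ : γ → List (List Lit)} {N r c : γ → ℕ} (hφ : PolyF φ)
    (hN : PolyF N) (hr : PolyF r) (hc : PolyF c) :
    PolyF (fun x => railFaces (N x) (thick (φ x)) (r x) (c x)) := by
  unfold railFaces; fun_prop

@[fun_prop] theorem colFaces_pt {φ : γ → List (List Lit)} {c : γ → ℕ} (hφ : PolyF φ)
    (hc : PolyF c) : PolyF (fun x => colFaces (rails (φ x)).length (thick (φ x)) (c x)) := by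
  have h : PolyF (fun x => (List.range (rails (φ x)).length).flatMap
      (fun r => railFaces (rails (φ x)).length (thick (φ x)) r (c x)) ++
      (List.range (rails (φ x)).tail.length).flatMap
      (fun r => bandFaces (rails (φ x)).length r (c x))) := by fun_prop
  refine h.congr (fun x => ?_)
  unfold colFaces
  rw [List.length_tail]

/-- the faces of the reduction -/
@[fun_prop] theorem gridFaces_pt {φ : γ → List (List Lit)} (hφ : PolyF φ) :
    PolyF (fun x => gridFaces (rails (φ x)).length (clauses (φ x)).length (thick (φ x))) := by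
  have h : PolyF (fun x => [s1, s2, uu (rails (φ x)).tail.length 0] ::
      ((List.range (clauses (φ x)).length).flatMap
        (fun c => colFaces (rails (φ x)).length (thick (φ x)) c) ++
      (List.range (rails (φ x)).length).flatMap
        (fun r => rightFaces (rails (φ x)).length (clauses (φ x)).length r))) := by fun_prop
  refine h.congr (fun x => ?_)
  unfold gridFaces
  rw [List.length_tail]

@[fun_prop] theorem sd_pt {l : γ → List Bool} (hl : PolyF l) : PolyF (fun x => sd (l x)) := by
  unfold sd; fun_prop

@[fun_prop] theorem vname_pt {z : γ → VX} (hz : PolyF z) : PolyF (fun x => vname (z x)) := by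
  unfold vname; fun_prop

@[fun_prop] theorem encBits_pt {l : γ → List Bool} (hl : PolyF l) :
    PolyF (fun x => encBits (l x)) := by
  unfold encBits; fun_prop

@[fun_prop] theorem encWalk_pt {l : γ → List (List Bool)} (hl : PolyF l) :
    PolyF (fun x => encWalk (l x)) := by
  unfold encWalk; fun_prop

theorem red_pt {φ : γ → List (List Lit)} (hφ : PolyF φ) :
    PolyF (fun x => encMap (red (φ x))) := by
  have h : PolyF (fun x => encWalk [vname s1, vname s2, vname s3] ++
      encWalk ([s1, s3, s2].map vname) ++
      ((gridFaces (rails (φ x)).length (clauses (φ x)).length (thick (φ x))).map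
        (fun f => f.map (fun z => vname z))).flatMap (fun w => encWalk w)) := by fun_prop
  exact h

theorem tPrint_aux : TPrint := by
  intro α β ea eb f g h1 h2
  refine Pool.Agent.PT.tm_of_polyF (F := fun w => encMap (red (parse w))) (red_pt parse_pt) ea eb f
    ?_
  intro a
  show encMap (red (parse (ea a))) = eb (f a)
  rw [h1, parse_encCNF, h2]

end

theorem tPrint : TPrint :=
  haveI : Fact Core := ⟨Pool.Agent.PT.core⟩
  tPrint_aux

end Pool.Agent.SLN
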