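import Pool.Agent.SLN.Lib

set_option autoImplicit false

/-!
# Arcs of the flat angle assignment of the grid
-/

namespace Pool.Agent.SLN

open Pool.Agent.PAH (Plane det3 ccwAngle LiesLeft dartsOf cornersOf DecisionProblem PolyReduces
  ChainEq FanPos)

section vals
variable (N M : ℕ) (B : ℕ → ℕ → Bool) (R : ℕ → Bool) (r c : ℕ)

theorem asg_A (i : ℕ) (hi : i < 6) : asg N M B R (nd r c i) =
    tileAsg (uu r c) (hy N (r + 1) c) (xx r c) (hy N r c) r c 0 i := by
  have h : i = 0 ∨ i = 1 ∨ i = 2 ∨ i = 3 ∨ i = 4 ∨ i = 5 := by omega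
  rcases h with rfl | rfl | rfl | rfl | rfl | rfl <;> rfl

theorem asg_B (i : ℕ) (hi : i < 6) : asg N M B R (nd r c (6 + i)) =
    tileAsg (xx r c) (hc N (r + 1) c) (qq r c) (hd N r c) r c 6 i := by
  have h : i = 0 ∨ i = 1 ∨ i = 2 ∨ i = 3 ∨ i = 4 ∨ i = 5 := by omega
  rcases h with rfl | rfl | rfl | rfl | rfl | rfl <;> rfl

theorem asg_W (i : ℕ) (hi : i < 6) : asg N M B R (nd r c (12 + i)) =
    tileAsg (qq r c) (pp N (r + 1) (c + 1)) (uu r (c + 1)) (pp N r (c + 1)) r c 12 i := by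
  have h : i = 0 ∨ i = 1 ∨ i = 2 ∨ i = 3 ∨ i = 4 ∨ i = 5 := by omega
  rcases h with rfl | rfl | rfl | rfl | rfl | rfl <;> rfl

theorem asg_V (i : ℕ) (hi : i < 6) : asg N M B R (nd r 0 (18 + i)) =
    tileAsg (uu r 0) s1 (uu (r + 1) 0) (hy N (r + 1) 0) r 0 18 i := by
  have h : i = 0 ∨ i = 1 ∨ i = 2 ∨ i = 3 ∨ i = 4 ∨ i = 5 := by omega
  rcases h with rfl | rfl | rfl | rfl | rfl | rfl <;> rfl

theorem asg_D (i : ℕ) (hi : i < 9) : asg N M B R (nd r c (24 + i)) = deadAsg N r c i := by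
  have h : i = 0 ∨ i = 1 ∨ i = 2 ∨ i = 3 ∨ i = 4 ∨ i = 5 ∨ i = 6 ∨ i = 7 ∨ i = 8 := by omega
  rcases h with rfl | rfl | rfl | rfl | rfl | rfl | rfl | rfl | rfl <;> rfl

theorem asg_p : asg N M B R (r, c + 1, 9) = some (nd r c 32, nd r c 25) := rfl
theorem asg_v : asg N M B R (vv r c) = some (nd r c 26, nd r c 28) := rfl
theorem asg_w : asg N M B R (ww r c) = some (nd r c 29, nd r c 31) := rfl

theorem asg_susp : asg N M B R s1 = none ∧ asg N M B R s2 = none ∧ asg N M B R s3 = none :=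
  ⟨rfl, rfl, rfl⟩

theorem asg_hub (i : ℕ) (hi : 6 ≤ i) (hi' : i < 9) : asg N M B R (r, c, i) = none := by
  have h : i = 6 ∨ i = 7 ∨ i = 8 := by omega
  rcases h with rfl | rfl | rfl <;> rfl

variable {R r}

theorem asg_xR (h : R r = true) : asg N M B R (xx r c) = some (nd r c 2, nd r c 3) := by
  have h0 : asg N M B R (xx r c) = (if R r then some (nd r c 2, nd r c 3)
      else some (nd r c 10, nd r c 7)) := rfl
  rw [h0, h]; rfl

theorem asg_xL (h : R r = false) : asg N M B R (xx r c) = some (nd r c 10, nd r c 7) := by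
  have h0 : asg N M B R (xx r c) = (if R r then some (nd r c 2, nd r c 3)
      else some (nd r c 10, nd r c 7)) := rfl
  rw [h0, h]; rfl

theorem asg_qR (h : R r = true) : asg N M B R (qq r c) = some (nd r c 8, nd r c 9) := by
  have h0 : asg N M B R (qq r c) = (if R r then some (nd r c 8, nd r c 9)
    else if B r c then some (nd r c 16, nd r c 13)
      else some (pp N r (c + 1), pp N (r + 1) (c + 1))) := rfl
  rw [h0, h]; rfl

theorem asg_qL (h : R r = false) (hB : B r c = false) :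
    asg N M B R (qq r c) = some (pp N r (c + 1), pp N (r + 1) (c + 1)) := by
  have h0 : asg N M B R (qq r c) = (if R r then some (nd r c 8, nd r c 9)
    else if B r c then some (nd r c 16, nd r c 13)
      else some (pp N r (c + 1), pp N (r + 1) (c + 1))) := rfl
  rw [h0, h, hB]; rfl

theorem asg_qLW (h : R r = false) (hB : B r c = true) :
    asg N M B R (qq r c) = some (nd r c 16, nd r c 13) := by
  have h0 : asg N M B R (qq r c) = (if R r then some (nd r c 8, nd r c 9)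
    else if B r c then some (nd r c 16, nd r c 13)
      else some (pp N r (c + 1), pp N (r + 1) (c + 1))) := rfl
  rw [h0, h, hB]; rfl

theorem asg_u_eq : asg N M B R (uu r c) = (if R r then
      (if c = 0 then
        (if r % 2 = 0 then some (nd r 0 22, nd r 0 19)
          else some (nd (r - 1) 0 20, nd (r - 1) 0 21))
      else if B r (c - 1) then some (nd r (c - 1) 14, nd r (c - 1) 15)
      else some (pp N (r + 1) c, pp N r c))
    else if c = M then none else some (nd r c 4, nd r c 1)) := rfl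

theorem asg_uR (h : R r = true) (hB : B r c = false) :
    asg N M B R (uu r (c + 1)) = some (pp N (r + 1) (c + 1), pp N r (c + 1)) := by
  rw [asg_u_eq, h, if_pos rfl, if_neg (Nat.succ_ne_zero c), Nat.add_sub_cancel, hB]
  rfl

theorem asg_uRW (h : R r = true) (hB : B r c = true) :
    asg N M B R (uu r (c + 1)) = some (nd r c 14, nd r c 15) := by
  rw [asg_u_eq, h, if_pos rfl, if_neg (Nat.succ_ne_zero c), Nat.add_sub_cancel, hB]
  rfl

theorem asg_u0e (h : R r = true) (he : r % 2 = 0) :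
    asg N M B R (uu r 0) = some (nd r 0 22, nd r 0 19) := by
  rw [asg_u_eq, h, if_pos rfl, if_pos rfl, if_pos he]

theorem asg_u0o (h : R (r + 1) = true) (he : r % 2 = 0) :
    asg N M B R (uu (r + 1) 0) = some (nd r 0 20, nd r 0 21) := by
  rw [asg_u_eq, h, if_pos rfl, if_pos rfl, if_neg (by omega), Nat.add_sub_cancel]

theorem asg_uL (h : R r = false) (hc : c < M) :
    asg N M B R (uu r c) = some (nd r c 4, nd r c 1) := by
  rw [asg_u_eq, h, if_neg (by decide), if_neg (by omega)]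

theorem asg_uM (h : R r = false) : asg N M B R (uu r M) = none := by
  rw [asg_u_eq, h, if_neg (by decide), if_pos rfl]

end vals

section sup
variable {V : Type} {G : PlaneMap V} {A : V → Option (V × V)}

theorem Sup.of_some {v a b : V} (h : A v = some (a, b)) : Sup G A v a ∧ Sup G A v b := by
  unfold Sup
  rw [h]
  exact ⟨Or.inl rfl, Or.inr rfl⟩

theorem Sup.of_none {v w : V} (h : A v = none) (hd : (v, w) ∈ G.darts) : Sup G A v w := by
  unfold Sup
  rw [h]
  exact hd

/-- arcs of a tile -/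
theorem tileArcs_of {S : VX → VX → Prop} {A' : VX → Option (VX × VX)} {a b c d : VX}
    {r k i : ℕ} (hs : ∀ v e, A' v = some e → S v e.1 ∧ S v e.2)
    (hA : ∀ j, j < 6 → A' (nd r k (i + j)) = tileAsg a b c d r k i j) :
    TileArcs S a b c d r k i := by
  have h0 := hs _ _ (hA 0 (by decide))
  have h1 := hs _ _ (hA 1 (by decide))
  have h2 := hs _ _ (hA 2 (by decide))
  have h3 := hs _ _ (hA 3 (by decide))
  have h4 := hs _ _ (hA 4 (by decide))
  have h5 := hs _ _ (hA 5 (by decide))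
  exact ⟨h0.1, h0.2, h1.1, h1.2, h2.1, h2.2, h5.1, h5.2, h3.1, h3.2, h4.1, h4.2⟩

end sup

section darts
variable {N M : ℕ} {B : ℕ → ℕ → Bool} {r c : ℕ}

theorem dart_rail (hr : r < N) (hc : c < M) {f : List VX} (hf : f ∈ railFaces N B r c)
    {d : VX × VX} (hd : d ∈ dartsOf f) : d ∈ (grid N M B).darts :=
  mem_gridDarts.mpr (Or.inr ⟨f, mem_gridFaces.mpr (Or.inr (Or.inl ⟨c, hc, r, hr, hf⟩)), hd⟩)

theorem dart_band (hr : r + 1 < N) (hc : c < M) {f : List VX} (hf : f ∈ bandFaces N r c)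
    {d : VX × VX} (hd : d ∈ dartsOf f) : d ∈ (grid N M B).darts :=
  mem_gridDarts.mpr (Or.inr ⟨f, mem_gridFaces.mpr (Or.inr (Or.inr (Or.inl ⟨c, hc, r, hr, hf⟩))),
    hd⟩)

theorem dart_right (hr : r < N) {f : List VX} (hf : f ∈ rightFaces N M r)
    {d : VX × VX} (hd : d ∈ dartsOf f) : d ∈ (grid N M B).darts :=
  mem_gridDarts.mpr (Or.inr ⟨f, mem_gridFaces.mpr (Or.inr (Or.inr (Or.inr ⟨r, hr, hf⟩))), hd⟩)

theorem dartsOf3 {V : Type} (a b c : V) : dartsOf [a, b, c] = [(a, b), (b, c), (c, a)] := rfl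
theorem dartsOf4 {V : Type} (a b c d : V) :
    dartsOf [a, b, c, d] = [(a, b), (b, c), (c, d), (d, a)] := rfl

/-- outer darts of a tile -/
theorem tile_darts (a b c d : VX) (r k i : ℕ) :
    (∃ f ∈ tile a b c d r k i, (a, b) ∈ dartsOf f) ∧ (∃ f ∈ tile a b c d r k i, (b, c) ∈ dartsOf f) ∧
    (∃ f ∈ tile a b c d r k i, (c, d) ∈ dartsOf f) ∧
      (∃ f ∈ tile a b c d r k i, (d, a) ∈ dartsOf f) := by
  refine ⟨⟨[a, b, nd r k i, nd r k (i + 1)], ?_, ?_⟩, ⟨[nd r k i, b, c, nd r k (i + 2)], ?_, ?_⟩,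
    ⟨[c, d, nd r k (i + 5), nd r k (i + 3)], ?_, ?_⟩,
    ⟨[nd r k (i + 5), d, a, nd r k (i + 4)], ?_, ?_⟩⟩ <;>
    simp [tile, prism, dartsOf4]

theorem rail_A (hr : r < N) (hc : c < M) :
    (uu r c, hy N (r + 1) c) ∈ (grid N M B).darts ∧ (hy N (r + 1) c, xx r c) ∈ (grid N M B).darts ∧
    (xx r c, hy N r c) ∈ (grid N M B).darts ∧ (hy N r c, uu r c) ∈ (grid N M B).darts := by
  have hm : ∀ f ∈ tileA N r c, f ∈ railFaces N B r c := fun f hf => by
    unfold railFaces
    exact List.mem_append_left _ (List.mem_append_left _ hf)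
  obtain ⟨⟨f1, h1, h1'⟩, ⟨f2, h2, h2'⟩, ⟨f3, h3, h3'⟩, ⟨f4, h4, h4'⟩⟩ :=
    tile_darts (uu r c) (hy N (r + 1) c) (xx r c) (hy N r c) r c 0
  exact ⟨dart_rail hr hc (hm _ h1) h1', dart_rail hr hc (hm _ h2) h2',
    dart_rail hr hc (hm _ h3) h3', dart_rail hr hc (hm _ h4) h4'⟩

theorem rail_B (hr : r < N) (hc : c < M) :
    (xx r c, Pool.Agent.SLN.hc N (r + 1) c) ∈ (grid N M B).darts ∧
    (Pool.Agent.SLN.hc N (r + 1) c, qq r c) ∈ (grid N M B).darts ∧
    (qq r c, hd N r c) ∈ (grid N M B).darts ∧ (hd N r c, xx r c) ∈ (grid N M B).darts := by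
  have hm : ∀ f ∈ tileB N r c, f ∈ railFaces N B r c := fun f hf => by
    unfold railFaces
    exact List.mem_append_left _ (List.mem_append_right _ hf)
  obtain ⟨⟨f1, h1, h1'⟩, ⟨f2, h2, h2'⟩, ⟨f3, h3, h3'⟩, ⟨f4, h4, h4'⟩⟩ :=
    tile_darts (xx r c) (Pool.Agent.SLN.hc N (r + 1) c) (qq r c) (hd N r c) r c 6
  exact ⟨dart_rail hr hc (hm _ h1) h1', dart_rail hr hc (hm _ h2) h2',
    dart_rail hr hc (hm _ h3) h3', dart_rail hr hc (hm _ h4) h4'⟩

theorem rail_C (hr : r < N) (hc : c < M) :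
    (qq r c, pp N (r + 1) (c + 1)) ∈ (grid N M B).darts ∧
    (pp N (r + 1) (c + 1), uu r (c + 1)) ∈ (grid N M B).darts ∧
    (uu r (c + 1), pp N r (c + 1)) ∈ (grid N M B).darts ∧
    (pp N r (c + 1), qq r c) ∈ (grid N M B).darts := by
  cases hB : B r c with
  | true =>
    have hm : ∀ f ∈ tileW N r c, f ∈ railFaces N B r c := fun f hf => by
      unfold railFaces
      rw [hB]
      exact List.mem_append_right _ hf
    obtain ⟨⟨f1, h1, h1'⟩, ⟨f2, h2, h2'⟩, ⟨f3, h3, h3'⟩, ⟨f4, h4, h4'⟩⟩ :=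
      tile_darts (qq r c) (pp N (r + 1) (c + 1)) (uu r (c + 1)) (pp N r (c + 1)) r c 12
    exact ⟨dart_rail hr hc (hm _ h1) h1', dart_rail hr hc (hm _ h2) h2',
      dart_rail hr hc (hm _ h3) h3', dart_rail hr hc (hm _ h4) h4'⟩
  | false =>
    have hm : [qq r c, pp N (r + 1) (c + 1), uu r (c + 1), pp N r (c + 1)] ∈
        railFaces N B r c := by
      unfold railFaces
      rw [hB]
      exact List.mem_append_right _ (List.mem_cons_self)
    refine ⟨dart_rail hr hc hm ?_, dart_rail hr hc hm ?_, dart_rail hr hc hm ?_,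
      dart_rail hr hc hm ?_⟩ <;> simp [dartsOf4]

theorem left_dart (hr : r + 1 < N) (hc : c < M) :
    (hy N (r + 1) c, uu r c) ∈ (grid N M B).darts := by
  by_cases h : c = 0 ∧ r % 2 = 0
  · have hm : ∀ f ∈ tile (uu r 0) s1 (uu (r + 1) 0) (hy N (r + 1) 0) r 0 18,
        f ∈ bandFaces N r c := fun f hf => by
      unfold bandFaces leftFaces
      rw [if_pos h]
      exact List.mem_append_left _ (List.mem_append_left _ hf)
    obtain ⟨-, -, -, ⟨f4, h4, h4'⟩⟩ :=
      tile_darts (uu r 0) s1 (uu (r + 1) 0) (hy N (r + 1) 0) r 0 18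
    rw [h.1]
    rw [h.1] at hm hc
    exact dart_band hr hc (hm _ h4) h4'
  · have hm : [pp N (r + 1) c, hy N (r + 1) c, uu r c] ∈ bandFaces N r c := by
      unfold bandFaces leftFaces
      rw [if_neg h]
      simp
    exact dart_band hr hc hm (by simp [dartsOf3])

theorem mid_mem {f : List VX} (hf : f ∈ midFaces N r c) : f ∈ bandFaces N r c := by
  unfold bandFaces
  exact List.mem_append_left _ (List.mem_append_right _ hf)

theorem dead_mem {f : List VX} (hf : f ∈ deadFaces N (r + 1) c) : f ∈ bandFaces N r c := by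
  unfold bandFaces
  exact List.mem_append_right _ hf

end darts

/-- E-ARCS -/
theorem tArcs : TArcs := by
  intro N M B R hN hE hM hP
  have hs : ∀ v e, asg N M B R v = some e → Sup (grid N M B) (asg N M B R) v e.1 ∧
      Sup (grid N M B) (asg N M B R) v e.2 := fun v e h => Sup.of_some h
  have hsn : ∀ {v w : VX}, asg N M B R v = none → (v, w) ∈ (grid N M B).darts →
      Sup (grid N M B) (asg N M B R) v w := fun h1 h2 => Sup.of_none h1 h2
  constructor
  · intro r c hr hc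
    exact tileArcs_of hs (fun j hj => by rw [Nat.zero_add]; exact asg_A N M B R r c j hj)
  · intro r c hr hc
    exact tileArcs_of hs (fun j hj => asg_B N M B R r c j hj)
  · intro r c hr hc hB
    exact tileArcs_of hs (fun j hj => asg_W N M B R r c j hj)
  · intro r hr hr'
    exact tileArcs_of hs (fun j hj => asg_V N M B R r j hj)
  · intro b c h1 h2 h3; exact hs _ _ (asg_D N M B R b c 0 (by decide))
  · intro b c h1 h2 h3; exact hs _ _ (asg_D N M B R b c 1 (by decide))
  · intro b c h1 h2 h3; exact hs _ _ (asg_D N M B R b c 2 (by decide))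
  · intro b c h1 h2 h3; exact (hs _ _ (asg_D N M B R b c 3 (by decide))).symm
  · intro b c h1 h2 h3; exact (hs _ _ (asg_D N M B R b c 4 (by decide))).symm
  · intro b c h1 h2 h3; exact (hs _ _ (asg_D N M B R b c 5 (by decide))).symm
  · intro b c h1 h2 h3; exact hs _ _ (asg_D N M B R b c 6 (by decide))
  · intro b c h1 h2 h3; exact hs _ _ (asg_D N M B R b c 7 (by decide))
  · intro b c h1 h2 h3; exact hs _ _ (asg_D N M B R b c 8 (by decide))
  · intro b c h1 h2 h3
    rw [pp_of h1 h2]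
    exact hs _ _ (asg_p N M B R b c)
  · intro b c h1 h2 h3; exact hs _ _ (asg_v N M B R b c)
  · intro b c h1 h2 h3; exact hs _ _ (asg_w N M B R b c)
  · intro r c hr hc h; exact hs _ _ (asg_xR N M B c h)
  · intro r c hr hc h; exact hs _ _ (asg_qR N M B c h)
  · intro r c hr hc h hB; exact hs _ _ (asg_uR N M B c h hB)
  · intro r c hr hc h hB; exact hs _ _ (asg_uRW N M B c h hB)
  · intro r hr hr' h; exact hs _ _ (asg_u0e N M B h hr)
  · intro r hr hr' h; exact hs _ _ (asg_u0o N M B h hr)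
  · intro r c hr hc h; exact hs _ _ (asg_uL N M B c h hc)
  · intro r c hr hc h; exact hs _ _ (asg_xL N M B c h)
  · intro r c hr hc h hB; exact hs _ _ (asg_qL N M B c h hB)
  · intro r c hr hc h hB; exact hs _ _ (asg_qLW N M B c h hB)
  · intro r hr h
    have h0 := asg_uM N M B h
    obtain ⟨c, rfl⟩ : ∃ c, M = c + 1 := ⟨M - 1, by omega⟩
    refine ⟨hsn h0 (dart_right hr (f := [pp N r (c + 1), uu r (c + 1), s3]) ?_ ?_),
      hsn h0 (rail_C hr (Nat.lt_succ_self c)).2.2.1,
      hsn h0 (dart_right hr (f := [uu r (c + 1), pp N (r + 1) (c + 1), s3]) ?_ ?_)⟩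
    · simp [rightFaces]
    · simp [dartsOf3]
    · simp [rightFaces]
    · simp [dartsOf3]
  · intro b c h1 h2 h3
    obtain ⟨r, rfl⟩ : ∃ r, b = r + 1 := ⟨b - 1, by omega⟩
    have h0 : asg N M B R (hy N (r + 1) c) = none := by
      rw [hy_of h1 h2]; exact asg_hub N M B R _ _ 6 (by decide) (by decide)
    have hr : r < N := by omega
    rw [Nat.add_sub_cancel]
    refine ⟨hsn h0 (left_dart h2 h3), hsn h0 (rail_A h2 h3).2.2.2, hsn h0 (rail_A hr h3).2.1,
      hsn h0 (dart_band h2 h3 (f := [hy N (r + 1) c, xx (r + 1) c, hd N (r + 1) c])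
        (mid_mem ?_) ?_),
      hsn h0 (dart_band h2 h3 (f := [hy N (r + 1) c, hc N (r + 1) c, xx r c])
        (mid_mem ?_) ?_),
      hsn h0 (dart_band h2 h3 (f := [hy N (r + 1) c, hd N (r + 1) c, ww (r + 1) c])
        (mid_mem ?_) ?_)⟩
    all_goals simp [midFaces, dartsOf3]
  · intro b c h1 h2 h3
    obtain ⟨r, rfl⟩ : ∃ r, b = r + 1 := ⟨b - 1, by omega⟩
    have h0 : asg N M B R (hc N (r + 1) c) = none := by
      rw [hc_of h1 h2]; exact asg_hub N M B R _ _ 7 (by decide) (by decide)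
    have hr : r < N := by omega
    rw [Nat.add_sub_cancel]
    refine ⟨hsn h0 (dart_band h2 h3 (f := [hc N (r + 1) c, hy N (r + 1) c, vv (r + 1) c])
        (mid_mem ?_) ?_),
      hsn h0 (dart_band h2 h3 (f := [hy N (r + 1) c, hc N (r + 1) c, xx r c])
        (mid_mem ?_) ?_), hsn h0 (rail_B hr h3).2.1,
      hsn h0 (dart_band h2 h3 (f := [qq r c, hc N (r + 1) c, pp N (r + 1) (c + 1)])
        (mid_mem ?_) ?_)⟩
    all_goals simp [midFaces, dartsOf3]
  · intro b c h1 h2 h3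
    obtain ⟨r, rfl⟩ : ∃ r, b = r + 1 := ⟨b - 1, by omega⟩
    have h0 : asg N M B R (hd N (r + 1) c) = none := by
      rw [hd_of h1 h2]; exact asg_hub N M B R _ _ 8 (by decide) (by decide)
    have hr : r < N := by omega
    refine ⟨hsn h0 (dart_band h2 h3 (f := [hy N (r + 1) c, xx (r + 1) c, hd N (r + 1) c])
        (mid_mem ?_) ?_), hsn h0 (rail_B h2 h3).2.2.2,
      hsn h0 (dart_band h2 h3 (f := [hd N (r + 1) c, qq (r + 1) c, pp N (r + 1) (c + 1)])
        (mid_mem ?_) ?_),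
      hsn h0 (dart_band h2 h3 (f := [nd (r + 1) c 30, hd N (r + 1) c, pp N (r + 1) (c + 1),
        nd (r + 1) c 32]) (dead_mem ?_) ?_)⟩
    all_goals simp [midFaces, deadFaces, prism, dartsOf3, dartsOf4]

end Pool.Agent.SLN
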