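import Pool.Agent.SLN.Targets

set_option autoImplicit false

/-!
# Common lemmas
-/

namespace Pool.Agent.SLN

open Pool.Agent.PAH (Plane det3 ccwAngle LiesLeft dartsOf cornersOf DecisionProblem PolyReduces
  ChainEq FanPos)

/-! ## Faces of the grid -/

theorem mem_gridFaces {N M : ℕ} {B : ℕ → ℕ → Bool} {f : List VX} :
    f ∈ gridFaces N M B ↔ f = [s1, s2, uu (N - 1) 0] ∨
      (∃ c, c < M ∧ ∃ r, r < N ∧ f ∈ railFaces N B r c) ∨
      (∃ c, c < M ∧ ∃ r, r + 1 < N ∧ f ∈ bandFaces N r c) ∨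
      ∃ r, r < N ∧ f ∈ rightFaces N M r := by
  unfold gridFaces colFaces
  simp only [List.mem_cons, List.mem_append, List.mem_flatMap, List.mem_range]
  constructor
  · rintro (h | ⟨c, hc, ⟨r, hr, h⟩ | ⟨r, hr, h⟩⟩ | ⟨r, hr, h⟩)
    · exact Or.inl h
    · exact Or.inr (Or.inl ⟨c, hc, r, hr, h⟩)
    · exact Or.inr (Or.inr (Or.inl ⟨c, hc, r, by omega, h⟩))
    · exact Or.inr (Or.inr (Or.inr ⟨r, hr, h⟩))
  · rintro (h | ⟨c, hc, r, hr, h⟩ | ⟨c, hc, r, hr, h⟩ | ⟨r, hr, h⟩)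
    · exact Or.inl h
    · exact Or.inr (Or.inl ⟨c, hc, Or.inl ⟨r, hr, h⟩⟩)
    · exact Or.inr (Or.inl ⟨c, hc, Or.inr ⟨r, by omega, h⟩⟩)
    · exact Or.inr (Or.inr ⟨r, hr, h⟩)

/-- directed edges of the grid -/
theorem mem_gridDarts {N M : ℕ} {B : ℕ → ℕ → Bool} {d : VX × VX} :
    d ∈ (grid N M B).darts ↔ d ∈ dartsOf [s1, s3, s2] ∨ ∃ f ∈ gridFaces N M B, d ∈ dartsOf f := by
  unfold PlaneMap.darts PlaneMap.walks grid
  simp only [List.flatMap_cons, List.mem_append, List.mem_flatMap]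

theorem hub_of {N i b c : ℕ} (h1 : 1 ≤ b) (h2 : b < N) : hub N i b c = (b, c, i) := by
  unfold hub
  rw [if_neg (by omega), if_neg (by omega)]

theorem hy_of {N b c : ℕ} (h1 : 1 ≤ b) (h2 : b < N) : hy N b c = (b, c, 6) := hub_of h1 h2
theorem hc_of {N b c : ℕ} (h1 : 1 ≤ b) (h2 : b < N) : hc N b c = (b, c, 7) := hub_of h1 h2
theorem hd_of {N b c : ℕ} (h1 : 1 ≤ b) (h2 : b < N) : hd N b c = (b, c, 8) := hub_of h1 h2

theorem hub_zero (N i c : ℕ) : hub N i 0 c = s1 := rfl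
theorem hy_zero (N c : ℕ) : hy N 0 c = s1 := rfl
theorem hd_zero (N c : ℕ) : hd N 0 c = s1 := rfl
theorem hub_last {N : ℕ} (i c : ℕ) (h : 2 ≤ N) : hub N i N c = s2 := by
  unfold hub
  rw [if_neg (by omega), if_pos rfl]
theorem hy_last {N : ℕ} (c : ℕ) (h : 2 ≤ N) : hy N N c = s2 := hub_last _ _ h
theorem hc_last {N : ℕ} (c : ℕ) (h : 2 ≤ N) : hc N N c = s2 := hub_last _ _ h

theorem pp_of {N b c : ℕ} (h1 : 1 ≤ b) (h2 : b < N) : pp N b (c + 1) = (b, c + 1, 9) := by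
  unfold pp
  rw [if_neg (by omega), if_neg (by omega)]
theorem pp_zero (N j : ℕ) : pp N 0 j = s1 := by
  unfold pp
  rw [if_pos (Or.inl rfl)]
theorem pp_border (N b : ℕ) : pp N b 0 = s1 := by
  unfold pp
  rw [if_pos (Or.inr rfl)]
theorem pp_last {N : ℕ} (c : ℕ) (h : 2 ≤ N) : pp N N (c + 1) = s2 := by
  unfold pp
  rw [if_neg (by omega), if_pos rfl]

/-! ## Escapes -/

section esc
variable {V : Type} {S S' : V → V → Prop} {Z Z' T T' : Set V}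

theorem Esc.mono (hS : ∀ v w, S v w → S' v w) (hZ : Z ⊆ Z') (hT : T ⊆ T') {v : V}
    (h : Esc S Z T v) : Esc S' Z' T' v := by
  induction h with
  | done v h1 h2 => exact Esc.done v (hZ h1) (hT h2)
  | step v w h1 h2 _ ih => exact Esc.step v w (hZ h1) (hS _ _ h2) ih

theorem Esc.mem {v : V} (h : Esc S Z T v) : v ∈ Z := by
  cases h <;> assumption

/-- an escape inside a set without exits leads to a vertex of the closed set -/
theorem Esc.follow {G : PlaneMap V} {X : Set V} {e₁ e₂ : V} (hX : Closed G S X e₁ e₂)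
    (h1 : e₁ ∉ Z) (h2 : e₂ ∉ Z) {v : V} (h : Esc S Z T v) (hv : v ∈ X) :
    ∃ w ∈ T, w ∈ X ∧ w ≠ e₁ ∧ w ≠ e₂ := by
  induction h with
  | done v hz ht =>
    exact ⟨v, ht, hv, fun h => h1 (h ▸ hz), fun h => h2 (h ▸ hz)⟩
  | step v w hz hs _ ih =>
    exact ih (hX.step v hv (fun h => h1 (h ▸ hz)) (fun h => h2 (h ▸ hz)) w hs)

/-- three disjoint escapes to vertices which are not in closed sets -/
theorem three_escapes {G : PlaneMap V} {X : Set V} {e₁ e₂ : V} (hX : Closed G S X e₁ e₂)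
    (hT : ∀ v ∈ T, v ∈ X → v = e₁ ∨ v = e₂) {Z₁ Z₂ Z₃ : Set V} (h12 : Disjoint Z₁ Z₂)
    (h13 : Disjoint Z₁ Z₃) (h23 : Disjoint Z₂ Z₃) {v₁ v₂ v₃ : V} (hv₁ : v₁ ∈ X) (hv₂ : v₂ ∈ X)
    (hv₃ : v₃ ∈ X) (h₁ : Esc S Z₁ T v₁) (h₂ : Esc S Z₂ T v₂) (h₃ : Esc S Z₃ T v₃) : False := by
  have key : ∀ {Z : Set V} {v : V}, v ∈ X → Esc S Z T v → ¬ (e₁ ∉ Z ∧ e₂ ∉ Z) := by
    rintro Z v hv h ⟨ha, hb⟩
    obtain ⟨w, hw, hwX, hw1, hw2⟩ := h.follow hX ha hb hv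
    rcases hT w hw hwX with h | h
    · exact hw1 h
    · exact hw2 h
  rw [Set.disjoint_left] at h12 h13 h23
  have k1 := key hv₁ h₁
  have k2 := key hv₂ h₂
  have k3 := key hv₃ h₃
  by_cases a1 : e₁ ∈ Z₁
  · have a2 := h12 a1
    have a3 := h13 a1
    by_cases b2 : e₂ ∈ Z₂
    · exact k3 ⟨a3, h23 b2⟩
    · exact k2 ⟨a2, b2⟩
  · have b1 : e₂ ∈ Z₁ := by
      by_contra h
      exact k1 ⟨a1, h⟩
    have b2 := h12 b1
    have b3 := h13 b1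
    by_cases a2 : e₁ ∈ Z₂
    · exact k3 ⟨h23 a2, b3⟩
    · exact k2 ⟨a2, b2⟩

end esc

end Pool.Agent.SLN
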