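import Pool.Agent.SLN.Targets
import Pool.Agent.PT.Gen

set_option autoImplicit false

/-!
# The reduction from satisfiability, and its targets
-/

namespace Pool.Agent.SLN

open Pool.Agent.PAH (Plane det3 ccwAngle LiesLeft dartsOf cornersOf DecisionProblem PolyReduces
  ChainEq FanPos)

/-- self-delimiting code -/
def sd (l : List Bool) : List Bool := l.flatMap (fun b => [true, b]) ++ [false]

/-- the name of a vertex of the grid -/
def vname (z : VX) : List Bool := sd z.1.bits ++ sd z.2.1.bits ++ z.2.2.bits

/-- the names of the variables without repetition; the empty name is always included -/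
def vars (φ : List (List Lit)) : List (List Bool) :=
  ([] :: φ.flatten.map Prod.snd).foldl (fun s x => if x ∈ s then s else s ++ [x]) []

/-- the literals of the rails -/
def rails (φ : List (List Lit)) : List Lit := (vars φ).flatMap fun x => [(true, x), (false, x)]

/-- the clauses of the columns; the first one contains all literals -/
def clauses (φ : List (List Lit)) : List (List Lit) := rails φ :: φ

/-- the crossing of rail `r` with the right border of column `c` is thick -/
def thick (φ : List (List Lit)) (r c : ℕ) : Bool :=
  decide ((rails φ).getD r (true, []) ∈ (clauses φ).getD c [])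

/-- the reduction -/
def red (φ : List (List Lit)) : PlaneMap (List Bool) :=
  (grid (rails φ).length (clauses φ).length (thick φ)).map vname

/-- P-RED -/
def TRed : Prop := ∀ φ : List (List Lit), 2 ≤ (rails φ).length ∧ (rails φ).length % 2 = 0 ∧
  1 ≤ (clauses φ).length ∧
  (Satisfiable φ ↔ ∃ R : ℕ → Bool, Paired (rails φ).length R ∧
    ∀ c, c < (clauses φ).length → ∃ r, r < (rails φ).length ∧ thick φ r c = true ∧ R r = false)

/-- P-NAME -/
def TName : Prop := Function.Injective vname

/-- P-ENC: the encodings are injective -/
def TEnc : Prop := Function.Injective encCNF ∧ Function.Injective encMap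

/-- P-PRINT: the reduction is computable in polynomial time -/
def TPrint : Prop := ∀ {α β : Type} (ea : α → List Sym) (eb : β → List Sym) (f : α → β)
  (g : α → List (List Lit)), (∀ a, ea a = encCNF (g a)) → (∀ a, eb (f a) = encMap (red (g a))) →
    Nonempty (Turing.TM2ComputableInPolyTime ea eb f)

end Pool.Agent.SLN
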