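import Pool.Agent.SLN.Stretch
import Pool.Agent.SLN.Lib
import Pool.Agent.SLN.Red

set_option autoImplicit false

/-!
# Assembly: the grid has a triangle representation iff the states exist
-/

namespace Pool.Agent.SLN

open Pool.Agent.PAH (Plane det3 ccwAngle LiesLeft dartsOf cornersOf DecisionProblem PolyReduces
  ChainEq FanPos)

/-- all targets used in the assembly -/
structure AllT : Prop where
  draw : TDraw
  rot : TRot
  euler : TEuler
  fan : TFan
  sltr : TSLTR
  facts : TFacts
  relabel : TRelabel
  chain : TChain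
  coord : TCoord
  walk : TWalk
  flats : TFlats
  fanGrid : TFanGrid
  arcs : TArcs
  right : TRight
  hubs : THubs
  faces : TFaces
  one : TOne
  conn : TConn
  no : TNo

theorem cornersOf_rotate {V : Type} (w : List V) (n : ℕ) :
    cornersOf (w.rotate n) = (cornersOf w).rotate n := by
  unfold cornersOf
  rw [List.rotate_rotate, List.rotate_rotate]
  have h1 : w.rotate (n + 1) = (w.rotate 1).rotate n := by
    rw [List.rotate_rotate, Nat.add_comm]
  have h2 : w.rotate (n + 2) = (w.rotate 2).rotate n := by
    rw [List.rotate_rotate, Nat.add_comm]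
  rw [h1, h2]
  unfold List.zip
  rw [List.zipWith_rotate_distrib _ _ _ _ (by simp), List.zipWith_rotate_distrib _ _ _ _ (by simp)]

theorem mem_cornersOf_rotate {V : Type} {w : List V} {n : ℕ} {k : V × V × V} :
    k ∈ cornersOf (w.rotate n) ↔ k ∈ cornersOf w := by
  rw [cornersOf_rotate, List.mem_rotate]

theorem ThreeCorners.rotate {V : Type} {w : List V} {Q : V × V × V → Prop}
    (h : ThreeCorners w Q) (n : ℕ) : ThreeCorners (w.rotate n) Q := by
  obtain ⟨a, b, c, h1, h2, h3, h4⟩ := h
  exact ⟨a, b, c, h1, h2, h3, fun k => by rw [mem_cornersOf_rotate]; exact h4 k⟩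

/-- a face with three vertices has no flat corner -/
theorem three_not {V : Type} {a b c : V} {Q : V × V × V → Prop}
    (h : ThreeCorners [a, b, c] Q) : ¬ Q (a, b, c) := by
  intro hQ
  obtain ⟨x, y, z, hxy, hxz, hyz, hk⟩ := h
  have hc : cornersOf [a, b, c] = [(a, b, c), (b, c, a), (c, a, b)] := rfl
  have key : ∀ k, (k = x ∨ k = y ∨ k = z) → k = (b, c, a) ∨ k = (c, a, b) := by
    intro k hk'
    obtain ⟨h1, h2⟩ := (hk k).mpr hk'
    rw [hc] at h1
    simp only [List.mem_cons, List.not_mem_nil, or_false] at h1
    rcases h1 with rfl | h1 | h1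
    · exact absurd hQ h2
    · exact Or.inl h1
    · exact Or.inr h1
  have hx := key x (Or.inl rfl)
  have hy := key y (Or.inr (Or.inl rfl))
  have hz := key z (Or.inr (Or.inr rfl))
  rcases hx with hx | hx <;> rcases hy with hy | hy <;> rcases hz with hz | hz <;>
    first
      | exact hxy (hx.trans hy.symm)
      | exact hxz (hx.trans hz.symm)
      | exact hyz (hy.trans hz.symm)

theorem s_ne : s1 ≠ s2 ∧ s2 ≠ s3 ∧ s3 ≠ s1 := by decide

section grid
variable (T : AllT) {N M : ℕ} (B : ℕ → ℕ → Bool) (hN : 2 ≤ N) (hE : N % 2 = 0) (hM : 1 ≤ M)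

include T hN hM in
theorem exists_fanned : ∃ p, Fanned (grid N M B) p := by
  obtain ⟨p, hp⟩ := T.coord N M B hN hM
  exact ⟨p, rfl, List.cons_ne_nil _ _, T.chain N M B hN hM, hp⟩

include T hN hM in
theorem exists_drawing : Nonempty (Drawing (grid N M B)) := by
  obtain ⟨p, hp⟩ := exists_fanned T B hN hM
  obtain ⟨D, -⟩ := T.draw _ p hp
  exact ⟨D⟩

include T hN hE hM in
theorem grid_reg : Reg (grid N M B) := by
  obtain ⟨p, hp⟩ := exists_fanned T B hN hM
  obtain ⟨D, -⟩ := T.draw _ p hp
  refine ⟨rfl, D.nodup, D.symm, ?_, T.rot _ D, ?_, T.euler _ p hp⟩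
  · intro f hf
    rcases List.mem_cons.mp hf with rfl | hf
    · exact ⟨show ([s1, s3, s2] : List VX).Nodup by decide,
        show 3 ≤ ([s1, s3, s2] : List VX).length by decide⟩
    · exact T.walk N M B hN hM f hf
  · rintro Q ⟨d, hd, hQ⟩ hs e he
    have hc := T.conn N M B hN hE hM none none (some d.1) (some e.1) ⟨d, hd, rfl⟩ ⟨e, he, rfl⟩
      (Option.some_ne_none _) (Option.some_ne_none _) (Option.some_ne_none _)
      (Option.some_ne_none _)
    have key : ∀ z : Option VX, Relation.ReflTransGen
        (fun u v => (grid N M B).Adj u v ∧ v ≠ none ∧ v ≠ none) (some d.1) z →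
        ∀ v, z = some v → Q v := by
      intro z hz
      induction hz with
      | refl =>
        intro v hv
        simp only [Option.some.injEq] at hv
        rw [← hv]; exact hQ
      | tail hyz hst ih =>
        rename_i y z
        intro v hv
        subst hv
        cases y with
        | none =>
          -- the vertex at infinity is not on the path
          exfalso
          cases hyz with
          | tail _ h => exact h.2.1 rfl
        | some u =>
          have hu := ih u rfl
          exact hs (u, v) hst.1 hu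
    exact key _ hc _ rfl

include T hN hE hM in
/-- vertices other than suspensions have at least three neighbours -/
theorem deg_three (v : VX) (h1 : v ≠ s1) (h2 : v ≠ s2) (h3 : v ≠ s3)
    (hv : ∃ w, (v, w) ∈ (grid N M B).darts) (a b : VX) :
    ∃ w, (v, w) ∈ (grid N M B).darts ∧ w ≠ a ∧ w ≠ b := by
  obtain ⟨D⟩ := exists_drawing T B hN hM
  obtain ⟨w₀, hw₀⟩ := hv
  have hsusp : ∀ z : VX, (z = s1 ∨ z = s2 ∨ z = s3) →
      (grid N M B).Vert (some z) := by
    intro z hz
    rcases hz with rfl | rfl | rfl
    · exact ⟨(s1, s3), mem_gridDarts.mpr (Or.inl (by decide)), rfl⟩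
    · exact ⟨(s2, s1), mem_gridDarts.mpr (Or.inl (by decide)), rfl⟩
    · exact ⟨(s3, s2), mem_gridDarts.mpr (Or.inl (by decide)), rfl⟩
  -- it is enough to find a target vertex
  have key : ∀ a' b' y : Option VX, (a' = none ∨ a' = some a) → (b' = none ∨ b' = some b) →
      (a' = none → a = v) → (b' = none → b = v) → some v ≠ a' → some v ≠ b' → y ≠ some v →
      (grid N M B).Vert y → y ≠ a' → y ≠ b' → ∃ w, (v, w) ∈ (grid N M B).darts ∧ w ≠ a ∧ w ≠ b := by
    intro a' b' y ha hb hav hbv hva hvb hyv hy hya hyb
    have hc := T.conn N M B hN hE hM a' b' (some v) y ⟨(v, w₀), hw₀, rfl⟩ hy hva hvb hya hyb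
    rcases Relation.ReflTransGen.cases_head hc with h | ⟨c, hc1, -⟩
    · exact absurd h.symm hyv
    · obtain ⟨hadj, hca, hcb⟩ := hc1
      cases c with
      | none =>
        rcases hadj with h | h | h
        · exact absurd h h1
        · exact absurd h h2
        · exact absurd h h3
      | some w =>
        have hd : (v, w) ∈ (grid N M B).darts := hadj
        have hl : v ≠ w := D.loopless _ hd
        refine ⟨w, hd, ?_, ?_⟩
        · rintro rfl
          rcases ha with h | h
          · exact hl (hav h).symm
          · exact hca h.symm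
        · rintro rfl
          rcases hb with h | h
          · exact hl (hbv h).symm
          · exact hcb h.symm
  by_cases hav : a = v
  · by_cases hbv : b = v
    · exact key none none (some s1) (Or.inl rfl) (Or.inl rfl) (fun _ => hav) (fun _ => hbv)
        (Option.some_ne_none _) (Option.some_ne_none _)
        (fun h => h1 (Option.some.inj h).symm) (hsusp s1 (Or.inl rfl)) (Option.some_ne_none _)
        (Option.some_ne_none _)
    · by_cases hb1 : b = s1
      · exact key none (some b) (some s2) (Or.inl rfl) (Or.inr rfl) (fun _ => hav)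
          (fun h => absurd h (Option.some_ne_none _)) (Option.some_ne_none _)
          (fun h => hbv (Option.some.inj h).symm)
          (fun h => h2 (Option.some.inj h).symm) (hsusp s2 (Or.inr (Or.inl rfl)))
          (Option.some_ne_none _) (fun h => s_ne.1 (by rw [← hb1]; exact (Option.some.inj h).symm))
      · exact key none (some b) (some s1) (Or.inl rfl) (Or.inr rfl) (fun _ => hav)
          (fun h => absurd h (Option.some_ne_none _)) (Option.some_ne_none _)
          (fun h => hbv (Option.some.inj h).symm)
          (fun h => h1 (Option.some.inj h).symm) (hsusp s1 (Or.inl rfl))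
          (Option.some_ne_none _) (fun h => hb1 (Option.some.inj h).symm)
  · by_cases hbv : b = v
    · by_cases ha1 : a = s1
      · exact key (some a) none (some s2) (Or.inr rfl) (Or.inl rfl)
          (fun h => absurd h (Option.some_ne_none _)) (fun _ => hbv)
          (fun h => hav (Option.some.inj h).symm) (Option.some_ne_none _)
          (fun h => h2 (Option.some.inj h).symm) (hsusp s2 (Or.inr (Or.inl rfl)))
          (fun h => s_ne.1 (by rw [← ha1]; exact (Option.some.inj h).symm))
          (Option.some_ne_none _)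
      · exact key (some a) none (some s1) (Or.inr rfl) (Or.inl rfl)
          (fun h => absurd h (Option.some_ne_none _)) (fun _ => hbv)
          (fun h => hav (Option.some.inj h).symm) (Option.some_ne_none _)
          (fun h => h1 (Option.some.inj h).symm) (hsusp s1 (Or.inl rfl))
          (fun h => ha1 (Option.some.inj h).symm)
          (Option.some_ne_none _)
    · exact key (some a) (some b) none (Or.inr rfl) (Or.inr rfl)
        (fun h => absurd h (Option.some_ne_none _)) (fun h => absurd h (Option.some_ne_none _))
        (fun h => hav (Option.some.inj h).symm) (fun h => hbv (Option.some.inj h).symm)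
        (fun h => Option.some_ne_none _ h.symm) trivial (fun h => Option.some_ne_none _ h.symm)
        (fun h => Option.some_ne_none _ h.symm)

include T hN hE hM in
/-- from representations to states -/
theorem grid_no (S : SLTR (grid N M B)) :
    ∃ R : ℕ → Bool, Paired N R ∧ ∀ c, c < M → ∃ r, r < N ∧ B r c = true ∧ R r = false := by
  have hF := T.facts _ S rfl (T.walk N M B hN hM)
    (fun v h1 h2 h3 hv a b => deg_three T B hN hE hM v h1 h2 h3 hv a b)
  exact T.no N M B _ hN hE hM hF

include T hN hE hM in
/-- from states to representations -/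
theorem grid_yes (R : ℕ → Bool) (hP : Paired N R)
    (hs : ∀ c, c < M → ∃ r, r < N ∧ B r c = true ∧ R r = false) : Nonempty (SLTR (grid N M B)) := by
  have hR := grid_reg T B hN hE hM
  have hF := T.flats N M B R hN hE hM hP
  have hA := T.arcs N M B R hN hE hM hP
  have hRE := T.right N M B R _ hN hE hM hA hs
  have hH := T.hubs N M B R _ hN hE hM hP hA hRE
  have hCut : Cut (grid N M B) (Sup (grid N M B) (asg N M B R)) := by
    constructor
    · intro X hX hXd hXs hXc
      obtain ⟨v, hv⟩ := hX
      have hcl : Closed (grid N M B) (Sup (grid N M B) (asg N M B R)) X s1 s1 :=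
        ⟨fun v hv _ _ => hXs v hv, fun v hv _ _ w hw => hXc v hv w hw⟩
      have hhub : ∀ b c, 1 ≤ b → b < N → c < M → hy N b c ∉ X ∧ hc N b c ∉ X ∧ hd N b c ∉ X := by
        intro b c h1 h2 h3
        have key : ∀ h, (h = hy N b c ∨ h = Pool.Agent.SLN.hc N b c ∨ h = hd N b c) → h ∉ X := by
          intro h hh hX
          rcases hH X s1 s1 hcl b c h1 h2 h3 h hh hX with h4 | h4
          · exact (hXs h hX).1 h4
          · exact (hXs h hX).1 h4
        exact ⟨key _ (Or.inl rfl), key _ (Or.inr (Or.inl rfl)), key _ (Or.inr (Or.inr rfl))⟩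
      exact T.one N M B R _ hN hE hM hP hA X hXs hXc hhub v hv (hXd v hv)
    · intro f hf X e₁ e₂ hfX hcl
      exact T.faces N M B R _ hN hE hM hP hA X e₁ e₂ hcl (hH X e₁ e₂ hcl) f hf hfX
  obtain ⟨p, hp⟩ := tStretch _ _ hR hF hCut
  have hwalk := T.walk N M B hN hM
  refine T.sltr _ p _ rfl (List.cons_ne_nil _ _) (T.chain N M B hN hM)
    (fun f hf => (hwalk f hf).1) hp ?_
  intro f hf
  rcases T.fanGrid N M B R hN hE hM hP f hf with h3 | ⟨k, z, l, hk, hz⟩
  · refine ⟨0, ?_⟩
    rw [List.rotate_zero]
    have hthree := hp.three f hf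
    have hcor := hp.corner f hf
    match f, h3, hthree, hcor with
    | [a, b, c], _, hthree, hcor =>
      have h5 := three_not hthree
      have h6 := hcor (a, b, c) (List.mem_cons_self) h5
      refine ⟨le_refl _, ?_⟩
      rw [List.isChain_cons_cons]
      exact ⟨h6, List.isChain_singleton _⟩
  · refine ⟨k, ?_⟩
    have hnd : (z :: l).Nodup := by
      rw [← hk]
      exact List.nodup_rotate.mpr (hwalk f hf).1
    have hlen : 3 ≤ (z :: l).length := by
      rw [← hk, List.length_rotate]
      exact (hwalk f hf).2
    have hmem : ∀ c, c ∈ cornersOf (z :: l) → c ∈ cornersOf f := by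
      intro c hc
      rw [← hk] at hc
      exact mem_cornersOf_rotate.mp hc
    have hthree : ThreeCorners (z :: l)
        fun k => asg N M B R k.2.1 = some (k.1, k.2.2) := by
      rw [← hk]
      exact (hp.three f hf).rotate k
    rw [hk]
    exact T.fan p _ z l hnd hlen hthree (fun c hc hQ => hp.flat f hf c (hmem c hc) hQ)
      (fun c hc hQ => hp.corner f hf c (hmem c hc) hQ) hz

include T hN hE hM in
theorem grid_iff : Nonempty (SLTR (grid N M B)) ↔
    ∃ R : ℕ → Bool, Paired N R ∧ ∀ c, c < M → ∃ r, r < N ∧ B r c = true ∧ R r = false := by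
  constructor
  · rintro ⟨S⟩
    exact grid_no T B hN hE hM S
  · rintro ⟨R, hP, hc⟩
    exact grid_yes T B hN hE hM R hP hc

end grid

/-! ## The reduction -/

/-- the instance computed by the reduction -/
noncomputable def inst (T : AllT) (hR : TRed) (hV : TName) (φ : List (List Lit)) : Instance where
  graph := red φ
  plane := (T.relabel _ vname hV).2.1 (exists_drawing T _ (hR φ).1 (hR φ).2.2.1)
  outer₁ := List.mem_map_of_mem (f := vname) (by simp [grid])
  outer₂ := List.mem_map_of_mem (f := vname) (by simp [grid])
  outer₃ := List.mem_map_of_mem (f := vname) (by simp [grid])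
  ne₁₂ := fun h => s_ne.1 (hV h)
  ne₂₃ := fun h => s_ne.2.1 (hV h)
  ne₃₁ := fun h => s_ne.2.2 (hV h)
  conn := (T.relabel _ vname hV).2.2 (T.conn _ _ _ (hR φ).1 (hR φ).2.1 (hR φ).2.2.1)

theorem inst_graph (T : AllT) (hR : TRed) (hV : TName) (φ : List (List Lit)) :
    (inst T hR hV φ).graph = red φ := rfl

theorem inst_iff (T : AllT) (hR : TRed) (hV : TName) (φ : List (List Lit)) :
    Satisfiable φ ↔ Nonempty (SLTR (inst T hR hV φ).graph) := by
  rw [inst_graph]
  unfold red
  rw [(T.relabel _ vname hV).1, grid_iff T _ (hR φ).1 (hR φ).2.1 (hR φ).2.2.1]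
  exact (hR φ).2.2.2

theorem instance_ext {I J : Instance} (h : I.graph = J.graph) : I = J := by
  cases I
  cases J
  simp only at h
  subst h
  rfl

end Pool.Agent.SLN
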