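import Pool.Agent.SLN.Lib

set_option autoImplicit false

/-!
# F-CHAIN: the boundary of the sum of the bounded faces of the grid
-/

namespace Pool.Agent.SLN

open Pool.Agent.PAH (wsum dartsOf ChainEq)

namespace ChG

/-- sum over a list of walks -/
noncomputable def S (φ : VX → VX → ℝ) (L : List (List VX)) : ℝ := (L.map (wsum φ)).sum

variable {φ : VX → VX → ℝ}

theorem S_nil : S φ [] = 0 := by simp [S]
theorem S_cons (f : List VX) (L : List (List VX)) : S φ (f :: L) = wsum φ f + S φ L := by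
  simp [S]
theorem S_append (L L' : List (List VX)) : S φ (L ++ L') = S φ L + S φ L' := by
  simp [S]
theorem S_range (n : ℕ) (f : ℕ → List (List VX)) :
    S φ ((List.range n).flatMap f) = ∑ i ∈ Finset.range n, S φ (f i) := by
  induction n with
  | zero => simp [S]
  | succ n ih =>
    rw [List.range_succ, List.flatMap_append, S_append, ih, Finset.sum_range_succ]
    simp

theorem w3 (a b c : VX) : wsum φ [a, b, c] = φ a b + φ b c + φ c a := by
  simp only [wsum, dartsOf, List.rotate_cons_succ, List.rotate_zero, List.cons_append,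
    List.nil_append, List.zip_cons_cons, List.zip_nil_right, List.map_cons, List.map_nil,
    List.sum_cons, List.sum_nil]
  ring
theorem w4 (a b c d : VX) : wsum φ [a, b, c, d] = φ a b + φ b c + φ c d + φ d a := by
  simp only [wsum, dartsOf, List.rotate_cons_succ, List.rotate_zero, List.cons_append,
    List.nil_append, List.zip_cons_cons, List.zip_nil_right, List.map_cons, List.map_nil,
    List.sum_cons, List.sum_nil]
  ring
theorem w6 (a b c d e f : VX) :
    wsum φ [a, b, c, d, e, f] = φ a b + φ b c + φ c d + φ d e + φ e f + φ f a := by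
  simp only [wsum, dartsOf, List.rotate_cons_succ, List.rotate_zero, List.cons_append,
    List.nil_append, List.zip_cons_cons, List.zip_nil_right, List.map_cons, List.map_nil,
    List.sum_cons, List.sum_nil]
  ring
theorem w9 (a b c d e f g h i : VX) :
    wsum φ [a, b, c, d, e, f, g, h, i] =
      φ a b + φ b c + φ c d + φ d e + φ e f + φ f g + φ g h + φ h i + φ i a := by
  simp only [wsum, dartsOf, List.rotate_cons_succ, List.rotate_zero, List.cons_append,
    List.nil_append, List.zip_cons_cons, List.zip_nil_right, List.map_cons, List.map_nil,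
    List.sum_cons, List.sum_nil]
  ring

section
variable (h : ∀ u v, φ u v = - φ v u)
include h

theorem S_prism (s b t n4 n5 n6 : VX) :
    S φ (prism s b t n4 n5 n6) = φ s b + φ b t + φ t n6 + φ n6 n5 + φ n5 s := by
  unfold prism
  simp only [S_cons, S_nil, w3, w4]
  rw [h n4 b, h n5 n4, h n4 n6]
  ring

theorem S_tile (a b c d : VX) (r k i : ℕ) :
    S φ (tile a b c d r k i) = φ a b + φ b c + φ c d + φ d a := by
  unfold tile
  simp only [S_cons, S_append, S_nil, S_prism h, w6]
  rw [h (nd r k (i + 1)) a, h (nd r k (i + 2)) (nd r k (i + 1)), h c (nd r k (i + 2)),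
    h (nd r k (i + 3)) c, h (nd r k (i + 4)) (nd r k (i + 3)), h a (nd r k (i + 4))]
  ring

theorem S_dead (N b c : ℕ) :
    S φ (deadFaces N b c) = φ (pp N b (c + 1)) (hc N b c) + φ (hc N b c) (vv b c) +
      φ (vv b c) (hy N b c) + φ (hy N b c) (ww b c) + φ (ww b c) (hd N b c) +
      φ (hd N b c) (pp N b (c + 1)) := by
  unfold deadFaces centre
  simp only [S_cons, S_append, S_nil, S_prism h, w9]
  rw [h (nd b c 25) (pp N b (c + 1)), h (nd b c 26) (nd b c 25), h (vv b c) (nd b c 26),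
    h (nd b c 28) (vv b c), h (nd b c 29) (nd b c 28), h (ww b c) (nd b c 29),
    h (nd b c 31) (ww b c), h (nd b c 32) (nd b c 31), h (pp N b (c + 1)) (nd b c 32)]
  ring

theorem S_left (N r c : ℕ) :
    S φ (leftFaces N r c) = φ (uu r c) (pp N (r + 1) c) + φ (pp N (r + 1) c) (uu (r + 1) c) +
      φ (uu (r + 1) c) (hy N (r + 1) c) + φ (hy N (r + 1) c) (uu r c) := by
  unfold leftFaces
  split_ifs with hh
  · obtain ⟨rfl, -⟩ := hh
    rw [S_tile h, pp_border]
  · simp only [S_cons, S_nil, w3]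
    rw [h (hy N (r + 1) c) (pp N (r + 1) c)]
    ring

/-- the lower side of rail `r` in column `c` -/
noncomputable def lower (φ : VX → VX → ℝ) (N r c : ℕ) : ℝ :=
  φ (uu r c) (hy N (r + 1) c) + φ (hy N (r + 1) c) (xx r c) + φ (xx r c) (hc N (r + 1) c) +
    φ (hc N (r + 1) c) (qq r c) + φ (qq r c) (pp N (r + 1) (c + 1)) +
    φ (pp N (r + 1) (c + 1)) (uu r (c + 1))

/-- the upper side of rail `r` in column `c` -/
noncomputable def upper (φ : VX → VX → ℝ) (N r c : ℕ) : ℝ :=
  φ (uu r (c + 1)) (pp N r (c + 1)) + φ (pp N r (c + 1)) (qq r c) + φ (qq r c) (hd N r c) +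
    φ (hd N r c) (xx r c) + φ (xx r c) (hy N r c) + φ (hy N r c) (uu r c)

theorem S_rail (N : ℕ) (B : ℕ → ℕ → Bool) (r c : ℕ) :
    S φ (railFaces N B r c) = lower φ N r c + upper φ N r c := by
  have hW : S φ (if B r c then tileW N r c else thin N r c) =
      φ (qq r c) (pp N (r + 1) (c + 1)) + φ (pp N (r + 1) (c + 1)) (uu r (c + 1)) +
        φ (uu r (c + 1)) (pp N r (c + 1)) + φ (pp N r (c + 1)) (qq r c) := by
    split_ifs with hh
    · unfold tileW
      rw [S_tile h]
    · unfold thin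
      rw [S_cons, S_nil, w4, add_zero]
  unfold railFaces tileA tileB
  simp only [S_append, S_tile h, hW]
  unfold lower upper
  ring

/-- the border of band `r + 1` at border `j` -/
noncomputable def E (φ : VX → VX → ℝ) (N r j : ℕ) : ℝ :=
  φ (uu r j) (pp N (r + 1) j) + φ (pp N (r + 1) j) (uu (r + 1) j)

theorem S_band (N r c : ℕ) :
    lower φ N r c + upper φ N (r + 1) c + S φ (bandFaces N r c) = E φ N r c - E φ N r (c + 1) := by
  unfold bandFaces midFaces
  simp only [S_append, S_cons, S_nil, S_left h, S_dead h, w3]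
  unfold lower upper E
  rw [h (hy N (r + 1) c) (uu r c), h (xx r c) (hy N (r + 1) c), h (hc N (r + 1) c) (xx r c),
    h (qq r c) (hc N (r + 1) c), h (pp N (r + 1) (c + 1)) (qq r c),
    h (pp N (r + 1) (c + 1)) (uu r (c + 1)), h (uu (r + 1) (c + 1)) (pp N (r + 1) (c + 1)),
    h (pp N (r + 1) (c + 1)) (qq (r + 1) c), h (qq (r + 1) c) (hd N (r + 1) c),
    h (hd N (r + 1) c) (xx (r + 1) c), h (xx (r + 1) c) (hy N (r + 1) c),
    h (hy N (r + 1) c) (uu (r + 1) c), h (hy N (r + 1) c) (hc N (r + 1) c),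
    h (hy N (r + 1) c) (hd N (r + 1) c), h (vv (r + 1) c) (hy N (r + 1) c),
    h (hc N (r + 1) c) (vv (r + 1) c), h (hy N (r + 1) c) (ww (r + 1) c),
    h (ww (r + 1) c) (hd N (r + 1) c), h (pp N (r + 1) (c + 1)) (hc N (r + 1) c),
    h (hd N (r + 1) c) (pp N (r + 1) (c + 1))]
  ring

theorem upper_zero (N c : ℕ) :
    upper φ N 0 c = φ s1 (uu 0 c) - φ s1 (uu 0 (c + 1)) := by
  unfold upper
  rw [pp_zero, hd_zero, hy_zero, h (uu 0 (c + 1)) s1, h (qq 0 c) s1, h (xx 0 c) s1]
  ring

theorem lower_last {N : ℕ} (hN : 1 ≤ N) (c : ℕ) :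
    lower φ (N + 1) N c = φ (uu N c) s2 - φ (uu N (c + 1)) s2 := by
  unfold lower
  rw [hy_last c (by omega), hc_last c (by omega), pp_last c (by omega), h s2 (xx N c),
    h s2 (qq N c), h s2 (uu N (c + 1))]
  ring

/-- the chain at border `j` -/
noncomputable def F (φ : VX → VX → ℝ) (N j : ℕ) : ℝ :=
  φ s1 (uu 0 j) + φ (uu N j) s2 + ∑ r ∈ Finset.range N, E φ (N + 1) r j

theorem S_col {N : ℕ} (hN : 1 ≤ N) (B : ℕ → ℕ → Bool) (c : ℕ) :
    S φ (colFaces (N + 1) B c) = F φ N c - F φ N (c + 1) := by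
  have h1 : ∀ r, S φ (bandFaces (N + 1) r c) = E φ (N + 1) r c - E φ (N + 1) r (c + 1) -
      lower φ (N + 1) r c - upper φ (N + 1) (r + 1) c := by
    intro r
    have := S_band h (N + 1) r c
    linarith
  unfold colFaces F
  rw [S_append, S_range, S_range]
  simp only [S_rail h, h1, Nat.add_sub_cancel, Finset.sum_sub_distrib, Finset.sum_add_distrib]
  rw [Finset.sum_range_succ (fun r => lower φ (N + 1) r c),
    Finset.sum_range_succ' (fun r => upper φ (N + 1) r c), lower_last h hN, upper_zero h]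
  ring

theorem S_cols {N : ℕ} (hN : 1 ≤ N) (B : ℕ → ℕ → Bool) (M : ℕ) :
    S φ ((List.range M).flatMap (colFaces (N + 1) B)) = F φ N 0 - F φ N M := by
  rw [S_range]
  simp only [S_col h hN]
  exact Finset.sum_range_sub' (fun c => F φ N c) M

theorem F_zero (N : ℕ) : F φ N 0 = φ s1 (uu N 0) + φ (uu N 0) s2 := by
  have key : ∀ n, ∑ r ∈ Finset.range n, E φ (N + 1) r 0 = φ s1 (uu n 0) - φ s1 (uu 0 0) := by
    intro n
    induction n with
    | zero => simp
    | succ n ih =>
      rw [Finset.sum_range_succ, ih]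
      unfold E
      rw [pp_border, h (uu n 0) s1]
      ring
  unfold F
  rw [key]
  ring

theorem S_right {N M : ℕ} (hN : 1 ≤ N) :
    S φ ((List.range (N + 1)).flatMap (rightFaces (N + 1) (M + 1))) - F φ N (M + 1) =
      φ s2 s3 + φ s3 s1 := by
  have h1 : ∀ r, S φ (rightFaces (N + 1) (M + 1) r) =
      φ (uu r (M + 1)) (pp (N + 1) (r + 1) (M + 1)) + φ (pp (N + 1) r (M + 1)) (uu r (M + 1)) +
        (φ (pp (N + 1) (r + 1) (M + 1)) s3 - φ (pp (N + 1) r (M + 1)) s3) := by
    intro r
    unfold rightFaces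
    simp only [S_cons, S_nil, w3]
    rw [h s3 (uu r (M + 1)), h s3 (pp (N + 1) r (M + 1))]
    ring
  rw [S_range]
  simp only [h1, Finset.sum_add_distrib]
  rw [Finset.sum_range_sub (fun r => φ (pp (N + 1) r (M + 1)) s3), pp_zero,
    pp_last M (by omega : 2 ≤ N + 1),
    Finset.sum_range_succ (fun r => φ (uu r (M + 1)) (pp (N + 1) (r + 1) (M + 1))),
    Finset.sum_range_succ' (fun r => φ (pp (N + 1) r (M + 1)) (uu r (M + 1))), pp_zero,
    pp_last M (by omega : 2 ≤ N + 1), h s3 s1]
  unfold F E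
  rw [Finset.sum_add_distrib]
  ring

end

end ChG

open ChG in
/-- F-CHAIN -/
theorem tChain : TChain := by
  intro N M B hN hM φ h
  obtain ⟨N, rfl⟩ : ∃ n, N = n + 1 := ⟨N - 1, by omega⟩
  obtain ⟨M, rfl⟩ : ∃ n, M = n + 1 := ⟨M - 1, by omega⟩
  have hN' : 1 ≤ N := by omega
  have key : S φ (gridFaces (N + 1) (M + 1) B) = wsum φ [s1, s2, s3] := by
    have h1 := S_right h (N := N) (M := M) hN'
    unfold gridFaces
    rw [S_cons, S_append, S_cols h hN', F_zero h, w3, w3, Nat.add_sub_cancel,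
      h s2 (uu N 0), h (uu N 0) s1]
    linarith
  exact key

end Pool.Agent.SLN
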