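import Pool.Agent.SLN.FaceTri

set_option autoImplicit false

/-!
# N-CLAUSE: each column has a thick crossing on a rail which is not pressed there
-/

namespace Pool.Agent.SLN

open Pool.Agent.PAH (Plane det3 ccwAngle LiesLeft dartsOf cornersOf DecisionProblem PolyReduces
  ChainEq FanPos)

namespace CL

/-! ### Vertices of the pieces -/

theorem mem_tile {a b c d : VX} {r k i : ℕ} {f : List VX} (hf : f ∈ tile a b c d r k i) {v : VX}
    (hv : v ∈ f) : v = a ∨ v = b ∨ v = c ∨ v = d ∨ ∃ j, j < 6 ∧ v = nd r k (i + j) := by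
  simp only [tile, prism, List.cons_append, List.nil_append, List.mem_cons, List.not_mem_nil,
    or_false] at hf
  have h : v = a ∨ v = b ∨ v = c ∨ v = d ∨ v = nd r k i ∨ v = nd r k (i + 1) ∨
      v = nd r k (i + 2) ∨ v = nd r k (i + 3) ∨ v = nd r k (i + 4) ∨ v = nd r k (i + 5) := by
    rcases hf with rfl | rfl | rfl | rfl | rfl | rfl | rfl <;>
      simp only [List.mem_cons, List.not_mem_nil, or_false] at hv <;> tauto
  rcases h with h | h | h | h | h | h | h | h | h | h
  · exact Or.inl h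
  · exact Or.inr (Or.inl h)
  · exact Or.inr (Or.inr (Or.inl h))
  · exact Or.inr (Or.inr (Or.inr (Or.inl h)))
  · exact Or.inr (Or.inr (Or.inr (Or.inr ⟨0, by norm_num, h⟩)))
  · exact Or.inr (Or.inr (Or.inr (Or.inr ⟨1, by norm_num, h⟩)))
  · exact Or.inr (Or.inr (Or.inr (Or.inr ⟨2, by norm_num, h⟩)))
  · exact Or.inr (Or.inr (Or.inr (Or.inr ⟨3, by norm_num, h⟩)))
  · exact Or.inr (Or.inr (Or.inr (Or.inr ⟨4, by norm_num, h⟩)))
  · exact Or.inr (Or.inr (Or.inr (Or.inr ⟨5, by norm_num, h⟩)))

theorem mem_dead {N b c : ℕ} {f : List VX} (hf : f ∈ deadFaces N b c) {v : VX} (hv : v ∈ f) :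
    v = pp N b (c + 1) ∨ v = hc N b c ∨ v = hd N b c ∨ v = hy N b c ∨ v = vv b c ∨ v = ww b c ∨
      ∃ j, 24 ≤ j ∧ j ≤ 32 ∧ v = nd b c j := by
  simp only [deadFaces, centre, prism, List.cons_append, List.nil_append, List.mem_cons,
    List.not_mem_nil, or_false] at hf
  have h : v = pp N b (c + 1) ∨ v = hc N b c ∨ v = hd N b c ∨ v = hy N b c ∨ v = vv b c ∨
      v = ww b c ∨ v = nd b c 24 ∨ v = nd b c 25 ∨ v = nd b c 26 ∨ v = nd b c 27 ∨
      v = nd b c 28 ∨ v = nd b c 29 ∨ v = nd b c 30 ∨ v = nd b c 31 ∨ v = nd b c 32 := by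
    rcases hf with rfl | rfl | rfl | rfl | rfl | rfl | rfl | rfl | rfl | rfl <;>
      simp only [List.mem_cons, List.not_mem_nil, or_false] at hv <;> tauto
  rcases h with h | h | h | h | h | h | h | h | h | h | h | h | h | h | h
  · exact Or.inl h
  · exact Or.inr (Or.inl h)
  · exact Or.inr (Or.inr (Or.inl h))
  · exact Or.inr (Or.inr (Or.inr (Or.inl h)))
  · exact Or.inr (Or.inr (Or.inr (Or.inr (Or.inl h))))
  · exact Or.inr (Or.inr (Or.inr (Or.inr (Or.inr (Or.inl h)))))
  all_goals exact Or.inr (Or.inr (Or.inr (Or.inr (Or.inr (Or.inr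
    ⟨_, by norm_num, by norm_num, h⟩)))))

theorem mem_mid {N r c : ℕ} {f : List VX} (hf : f ∈ midFaces N r c) {v : VX} (hv : v ∈ f) :
    v = pp N (r + 1) (c + 1) ∨ v = hc N (r + 1) c ∨ v = hd N (r + 1) c ∨ v = hy N (r + 1) c ∨
      v = vv (r + 1) c ∨ v = ww (r + 1) c ∨ v = xx r c ∨ v = xx (r + 1) c ∨ v = qq r c ∨
      v = qq (r + 1) c := by
  simp only [midFaces, List.mem_cons, List.not_mem_nil, or_false] at hf
  rcases hf with rfl | rfl | rfl | rfl | rfl | rfl <;>
    simp only [List.mem_cons, List.not_mem_nil, or_false] at hv <;> tauto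

theorem mem_left {N r c : ℕ} {f : List VX} (hf : f ∈ leftFaces N r c) {v : VX} (hv : v ∈ f) :
    v = s1 ∨ v = pp N (r + 1) c ∨ v = hy N (r + 1) c ∨ v = uu r c ∨ v = uu (r + 1) c ∨
      (c = 0 ∧ ∃ j, 18 ≤ j ∧ j < 24 ∧ v = nd r c j) := by
  unfold leftFaces at hf
  split_ifs at hf with h
  · obtain ⟨rfl, _⟩ := h
    rcases mem_tile hf hv with h | h | h | h | ⟨j, hj, h⟩
    · tauto
    · tauto
    · tauto
    · tauto
    · exact Or.inr (Or.inr (Or.inr (Or.inr (Or.inr ⟨rfl, 18 + j, by omega, by omega, h⟩))))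
  · simp only [List.mem_cons, List.not_mem_nil, or_false] at hf
    rcases hf with rfl | rfl <;>
      simp only [List.mem_cons, List.not_mem_nil, or_false] at hv <;> tauto

theorem mem_band {N r c : ℕ} {f : List VX} (hf : f ∈ bandFaces N r c) {v : VX} (hv : v ∈ f) :
    v = s1 ∨ v = pp N (r + 1) c ∨ v = pp N (r + 1) (c + 1) ∨
      v = hc N (r + 1) c ∨ v = hd N (r + 1) c ∨ v = hy N (r + 1) c ∨
      v = vv (r + 1) c ∨ v = ww (r + 1) c ∨ v = xx r c ∨ v = xx (r + 1) c ∨ v = qq r c ∨
      v = qq (r + 1) c ∨ v = uu r c ∨ v = uu (r + 1) c ∨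
      ∃ b j, v = nd b c j ∧ ((c = 0 ∧ 18 ≤ j ∧ j < 24) ∨ 24 ≤ j) := by
  unfold bandFaces at hf
  rw [List.mem_append, List.mem_append] at hf
  rcases hf with (hf | hf) | hf
  · rcases mem_left hf hv with h | h | h | h | h | ⟨h0, j, h1, h2, h⟩
    · tauto
    · tauto
    · tauto
    · tauto
    · tauto
    · iterate 14 apply Or.inr
      exact ⟨r, j, h, Or.inl ⟨h0, h1, h2⟩⟩
  · have := mem_mid hf hv
    tauto
  · rcases mem_dead hf hv with h | h | h | h | h | h | ⟨j, h1, h2, h⟩
    · tauto
    · tauto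
    · tauto
    · tauto
    · tauto
    · tauto
    · iterate 14 apply Or.inr
      exact ⟨r + 1, j, h, Or.inr h1⟩

/-! ### The two sides -/

/-- faces on the left of border `c + 1` -/
def InL (N : ℕ) (B : ℕ → ℕ → Bool) (c : ℕ) (f : List VX) : Prop :=
  f = [s1, s2, uu (N - 1) 0] ∨ (∃ k, k < c ∧ ∃ r, r < N ∧ f ∈ railFaces N B r k) ∨
    (∃ r, r < N ∧ (f ∈ tileA N r c ∨ f ∈ tileB N r c)) ∨
    (∃ k, k ≤ c ∧ ∃ r, r + 1 < N ∧ f ∈ bandFaces N r k)

/-- walks on the right of the crossings of border `c + 1` -/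
def InR (N M : ℕ) (B : ℕ → ℕ → Bool) (c : ℕ) (f : List VX) : Prop :=
  f = [s1, s3, s2] ∨ (∃ k, c < k ∧ ∃ r, r < N ∧ f ∈ railFaces N B r k) ∨
    (∃ k, c < k ∧ ∃ r, r + 1 < N ∧ f ∈ bandFaces N r k) ∨
    (∃ r, r < N ∧ f ∈ rightFaces N M r)

/-- crossings of border `c + 1` -/
def InC (N : ℕ) (B : ℕ → ℕ → Bool) (c : ℕ) (f : List VX) : Prop :=
  ∃ r, r < N ∧ f ∈ (if B r c then tileW N r c else thin N r c)

theorem trichotomy {N M : ℕ} {B : ℕ → ℕ → Bool} {c : ℕ} {f : List VX}
    (hf : f ∈ (grid N M B).walks) : InL N B c f ∨ InC N B c f ∨ InR N M B c f := by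
  unfold PlaneMap.walks grid at hf
  rw [List.mem_cons, mem_gridFaces] at hf
  rcases hf with h | h | ⟨k, _, r, hr, h⟩ | ⟨k, _, r, hr, h⟩ | ⟨r, hr, h⟩
  · exact Or.inr (Or.inr (Or.inl h))
  · exact Or.inl (Or.inl h)
  · rcases lt_trichotomy k c with h1 | h1 | h1
    · exact Or.inl (Or.inr (Or.inl ⟨k, h1, r, hr, h⟩))
    · subst h1
      unfold railFaces at h
      rw [List.mem_append, List.mem_append] at h
      rcases h with h | h
      · exact Or.inl (Or.inr (Or.inr (Or.inl ⟨r, hr, h⟩)))
      · exact Or.inr (Or.inl ⟨r, hr, h⟩)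
    · exact Or.inr (Or.inr (Or.inr (Or.inl ⟨k, h1, r, hr, h⟩)))
  · rcases Nat.lt_or_ge c k with h1 | h1
    · exact Or.inr (Or.inr (Or.inr (Or.inr (Or.inl ⟨k, h1, r, hr, h⟩))))
    · exact Or.inl (Or.inr (Or.inr (Or.inr ⟨k, h1, r, hr, h⟩)))
  · exact Or.inr (Or.inr (Or.inr (Or.inr (Or.inr ⟨r, hr, h⟩))))

theorem InL.mem_grid {N M : ℕ} {B : ℕ → ℕ → Bool} {c : ℕ} (hc : c < M) {f : List VX}
    (hf : InL N B c f) : f ∈ gridFaces N M B := by
  rw [mem_gridFaces]
  rcases hf with h | ⟨k, hk, r, hr, h⟩ | ⟨r, hr, h⟩ | ⟨k, hk, r, hr, h⟩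
  · exact Or.inl h
  · exact Or.inr (Or.inl ⟨k, by omega, r, hr, h⟩)
  · refine Or.inr (Or.inl ⟨c, hc, r, hr, ?_⟩)
    unfold railFaces
    rw [List.mem_append, List.mem_append]
    exact Or.inl h
  · exact Or.inr (Or.inr (Or.inl ⟨k, by omega, r, hr, h⟩))

/-- vertices of the left part -/
def PX (N c : ℕ) (z : VX) : Prop :=
  z = s1 ∨ z = s2 ∨ (3 ≤ z.2.2 ∧ (z.2.2 = 5 → z.1 < N) ∧
    (z.2.2 = 9 → 1 ≤ z.1 ∧ z.1 < N ∧ z.2.1 ≤ c + 1) ∧ (z.2.2 ≠ 9 → z.2.1 ≤ c) ∧
    (24 ≤ z.2.2 → z.2.2 < 30 → z.2.1 < c))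

/-- vertices of the right part -/
def PY (c : ℕ) (z : VX) : Prop :=
  z = s1 ∨ z = s2 ∨ z = s3 ∨ (3 ≤ z.2.2 ∧ c + 1 ≤ z.2.1)

/-- vertices of the crossings -/
def PC (c : ℕ) (z : VX) : Prop :=
  z = s1 ∨ z = s2 ∨ (z.2.2 = 5 ∧ z.2.1 = c) ∨ (z.2.2 = 3 ∧ z.2.1 = c + 1) ∨
    (z.2.2 = 9 ∧ z.2.1 = c + 1) ∨ (24 ≤ z.2.2 ∧ z.2.2 < 30 ∧ z.2.1 = c)

theorem PX_hub {N c b k i : ℕ} (hi : 6 ≤ i) (hi' : i < 9) (hk : k ≤ c) :
    PX N c (hub N i b k) := by
  unfold hub
  split_ifs with h1 h2
  · exact Or.inl rfl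
  · exact Or.inr (Or.inl rfl)
  · refine Or.inr (Or.inr ?_)
    simp only
    omega

theorem PX_pp {N c b k : ℕ} (hb : b ≤ N) (hk : k ≤ c + 1) : PX N c (pp N b k) := by
  unfold pp
  split_ifs with h1 h2
  · exact Or.inl rfl
  · exact Or.inr (Or.inl rfl)
  · refine Or.inr (Or.inr ?_)
    simp only
    omega

theorem PY_hub {N c b k i : ℕ} (hi : 3 ≤ i) (hk : c + 1 ≤ k) : PY c (hub N i b k) := by
  unfold hub
  split_ifs with h1 h2
  · exact Or.inl rfl
  · exact Or.inr (Or.inl rfl)
  · exact Or.inr (Or.inr (Or.inr ⟨hi, hk⟩))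

theorem PY_pp {N c b k : ℕ} (hk : c + 1 ≤ k) : PY c (pp N b k) := by
  unfold pp
  split_ifs with h1 h2
  · exact Or.inl rfl
  · exact Or.inr (Or.inl rfl)
  · exact Or.inr (Or.inr (Or.inr ⟨by norm_num, hk⟩))

theorem PC_pp {N c b : ℕ} : PC c (pp N b (c + 1)) := by
  unfold pp
  by_cases h1 : b = 0 ∨ c + 1 = 0
  · rw [if_pos h1]
    exact Or.inl rfl
  · rw [if_neg h1]
    by_cases h2 : b = N
    · rw [if_pos h2]
      exact Or.inr (Or.inl rfl)
    · rw [if_neg h2]
      exact Or.inr (Or.inr (Or.inr (Or.inr (Or.inl ⟨rfl, rfl⟩))))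

theorem pp_cases (N b j : ℕ) : pp N b j = s1 ∨ pp N b j = s2 ∨ (pp N b j).2.2 = 9 := by
  unfold pp
  split_ifs
  · exact Or.inl rfl
  · exact Or.inr (Or.inl rfl)
  · exact Or.inr (Or.inr rfl)

theorem PX_mk {N c r k i : ℕ} (h : 3 ≤ i ∧ (i = 5 → r < N) ∧
    (i = 9 → 1 ≤ r ∧ r < N ∧ k ≤ c + 1) ∧ (i ≠ 9 → k ≤ c) ∧
    (24 ≤ i → i < 30 → k < c)) : PX N c (r, k, i) := Or.inr (Or.inr h)

theorem PY_mk {c r k i : ℕ} (h : 3 ≤ i ∧ c + 1 ≤ k) : PY c (r, k, i) := Or.inr (Or.inr (Or.inr h))

theorem InL.px {N : ℕ} {B : ℕ → ℕ → Bool} {c : ℕ} {f : List VX} (hf : InL N B c f)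
    {v : VX} (hv : v ∈ f) : PX N c v := by
  have hA : ∀ r k, r < N → k ≤ c → f ∈ tileA N r k → PX N c v := by
    intro r k hr hk h
    rcases mem_tile h hv with rfl | rfl | rfl | rfl | ⟨j, hj, rfl⟩
    · exact PX_mk (by omega)
    · exact PX_hub (by omega) (by omega) hk
    · exact PX_mk (by omega)
    · exact PX_hub (by omega) (by omega) hk
    · exact PX_mk (by omega)
  have hB : ∀ r k, r < N → k ≤ c → f ∈ tileB N r k → PX N c v := by
    intro r k hr hk h
    rcases mem_tile h hv with rfl | rfl | rfl | rfl | ⟨j, hj, rfl⟩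
    · exact PX_mk (by omega)
    · exact PX_hub (by omega) (by omega) hk
    · exact PX_mk (by omega)
    · exact PX_hub (by omega) (by omega) hk
    · exact PX_mk (by omega)
  rcases hf with rfl | ⟨k, hk, r, hr, h⟩ | ⟨r, hr, h | h⟩ | ⟨k, hk, r, hr, h⟩
  · simp only [List.mem_cons, List.not_mem_nil, or_false] at hv
    rcases hv with rfl | rfl | rfl
    · exact Or.inl rfl
    · exact Or.inr (Or.inl rfl)
    · exact PX_mk (by omega)
  · unfold railFaces at h
    rw [List.mem_append, List.mem_append] at h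
    rcases h with (h | h) | h
    · exact hA r k hr (by omega) h
    · exact hB r k hr (by omega) h
    · split_ifs at h with h1
      · rcases mem_tile h hv with rfl | rfl | rfl | rfl | ⟨j, hj, rfl⟩
        · exact PX_mk (by omega)
        · exact PX_pp (by omega) (by omega)
        · exact PX_mk (by omega)
        · exact PX_pp (by omega) (by omega)
        · exact PX_mk (by omega)
      · simp only [thin, List.mem_cons, List.not_mem_nil, or_false] at h
        subst h
        simp only [List.mem_cons, List.not_mem_nil, or_false] at hv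
        rcases hv with rfl | rfl | rfl | rfl
        · exact PX_mk (by omega)
        · exact PX_pp (by omega) (by omega)
        · exact PX_mk (by omega)
        · exact PX_pp (by omega) (by omega)
  · exact hA r c hr le_rfl h
  · exact hB r c hr le_rfl h
  · rcases mem_band h hv with rfl | rfl | rfl | rfl | rfl | rfl | rfl | rfl | rfl | rfl | rfl |
      rfl | rfl | rfl | ⟨b, j, rfl, h1⟩
    · exact Or.inl rfl
    · exact PX_pp (by omega) (by omega)
    · exact PX_pp (by omega) (by omega)
    · exact PX_hub (by omega) (by omega) hk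
    · exact PX_hub (by omega) (by omega) hk
    · exact PX_hub (by omega) (by omega) hk
    · exact PX_mk (by omega)
    · exact PX_mk (by omega)
    · exact PX_mk (by omega)
    · exact PX_mk (by omega)
    · exact PX_mk (by omega)
    · exact PX_mk (by omega)
    · exact PX_mk (by omega)
    · exact PX_mk (by omega)
    · exact PX_mk (by omega)

theorem InR.py {N M : ℕ} {B : ℕ → ℕ → Bool} {c : ℕ} (hcM : c < M) {f : List VX}
    (hf : InR N M B c f) {v : VX} (hv : v ∈ f) : PY c v := by
  rcases hf with rfl | ⟨k, hk, r, hr, h⟩ | ⟨k, hk, r, hr, h⟩ | ⟨r, hr, h⟩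
  · simp only [List.mem_cons, List.not_mem_nil, or_false] at hv
    rcases hv with rfl | rfl | rfl
    · exact Or.inl rfl
    · exact Or.inr (Or.inr (Or.inl rfl))
    · exact Or.inr (Or.inl rfl)
  · unfold railFaces at h
    rw [List.mem_append, List.mem_append] at h
    rcases h with (h | h) | h
    · rcases mem_tile h hv with rfl | rfl | rfl | rfl | ⟨j, hj, rfl⟩
      · exact PY_mk (by omega)
      · exact PY_hub (by omega) (by omega)
      · exact PY_mk (by omega)
      · exact PY_hub (by omega) (by omega)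
      · exact PY_mk (by omega)
    · rcases mem_tile h hv with rfl | rfl | rfl | rfl | ⟨j, hj, rfl⟩
      · exact PY_mk (by omega)
      · exact PY_hub (by omega) (by omega)
      · exact PY_mk (by omega)
      · exact PY_hub (by omega) (by omega)
      · exact PY_mk (by omega)
    · split_ifs at h with h1
      · rcases mem_tile h hv with rfl | rfl | rfl | rfl | ⟨j, hj, rfl⟩
        · exact PY_mk (by omega)
        · exact PY_pp (by omega)
        · exact PY_mk (by omega)
        · exact PY_pp (by omega)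
        · exact PY_mk (by omega)
      · simp only [thin, List.mem_cons, List.not_mem_nil, or_false] at h
        subst h
        simp only [List.mem_cons, List.not_mem_nil, or_false] at hv
        rcases hv with rfl | rfl | rfl | rfl
        · exact PY_mk (by omega)
        · exact PY_pp (by omega)
        · exact PY_mk (by omega)
        · exact PY_pp (by omega)
  · rcases mem_band h hv with rfl | rfl | rfl | rfl | rfl | rfl | rfl | rfl | rfl | rfl | rfl |
      rfl | rfl | rfl | ⟨b, j, rfl, h1⟩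
    · exact Or.inl rfl
    · exact PY_pp (by omega)
    · exact PY_pp (by omega)
    · exact PY_hub (by omega) (by omega)
    · exact PY_hub (by omega) (by omega)
    · exact PY_hub (by omega) (by omega)
    · exact PY_mk (by omega)
    · exact PY_mk (by omega)
    · exact PY_mk (by omega)
    · exact PY_mk (by omega)
    · exact PY_mk (by omega)
    · exact PY_mk (by omega)
    · exact PY_mk (by omega)
    · exact PY_mk (by omega)
    · exact PY_mk (by omega)
  · simp only [rightFaces, List.mem_cons, List.not_mem_nil, or_false] at h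
    rcases h with rfl | rfl <;>
      simp only [List.mem_cons, List.not_mem_nil, or_false] at hv
    · rcases hv with rfl | rfl | rfl
      · exact PY_mk (by omega)
      · exact PY_pp (by omega)
      · exact Or.inr (Or.inr (Or.inl rfl))
    · rcases hv with rfl | rfl | rfl
      · exact PY_pp (by omega)
      · exact PY_mk (by omega)
      · exact Or.inr (Or.inr (Or.inl rfl))

theorem InC.pc {N : ℕ} {B : ℕ → ℕ → Bool} {c : ℕ} {f : List VX} (hf : InC N B c f)
    {v : VX} (hv : v ∈ f) : PC c v := by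
  obtain ⟨r, hr, h⟩ := hf
  have h5 : PC c (qq r c) := Or.inr (Or.inr (Or.inl ⟨rfl, rfl⟩))
  have h3 : PC c (uu r (c + 1)) := Or.inr (Or.inr (Or.inr (Or.inl ⟨rfl, rfl⟩)))
  split_ifs at h with h1
  · rcases mem_tile h hv with rfl | rfl | rfl | rfl | ⟨j, hj, rfl⟩
    · exact h5
    · exact PC_pp
    · exact h3
    · exact PC_pp
    · exact Or.inr (Or.inr (Or.inr (Or.inr (Or.inr
        ⟨show 24 ≤ 12 + (12 + j) by omega, show 12 + (12 + j) < 30 by omega, rfl⟩))))
  · simp only [thin, List.mem_cons, List.not_mem_nil, or_false] at h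
    subst h
    simp only [List.mem_cons, List.not_mem_nil, or_false] at hv
    rcases hv with rfl | rfl | rfl | rfl
    · exact h5
    · exact PC_pp
    · exact h3
    · exact PC_pp

/-- vertices on both sides of the boundary -/
theorem boundary {N c : ℕ} {v : VX} (hX : PX N c v) (h1 : v ≠ s1) (h2 : v ≠ s2)
    (hY : PY c v ∨ PC c v) :
    (∃ b, 1 ≤ b ∧ b < N ∧ v = pp N b (c + 1)) ∨ ((∃ r, r < N ∧ v = qq r c) ∧ ¬ PY c v) := by
  rcases hX with h | h | ⟨a1, a2, a3, a4, a5⟩
  · exact absurd h h1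
  · exact absurd h h2
  obtain ⟨r, k, i⟩ := v
  simp only at a1 a2 a3 a4 a5
  have hns3 : (r, k, i) ≠ s3 := by
    intro h
    have : i = 2 := congrArg (fun z : VX => z.2.2) h
    omega
  have hpp : i = 9 → k = c + 1 → (∃ b, 1 ≤ b ∧ b < N ∧ (r, k, i) = pp N b (c + 1)) := by
    rintro rfl rfl
    refine ⟨r, (a3 rfl).1, (a3 rfl).2.1, ?_⟩
    rw [pp_of (a3 rfl).1 (a3 rfl).2.1]
  have hqq : i = 5 → k = c → ((∃ r', r' < N ∧ (r, k, i) = qq r' c) ∧ ¬ PY c (r, k, i)) := by
    rintro rfl rfl
    refine ⟨⟨r, a2 rfl, rfl⟩, ?_⟩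
    rintro (h | h | h | h)
    · exact h1 h
    · exact h2 h
    · exact hns3 h
    · simp only at h
      omega
  rcases hY with (h | h | h | ⟨b1, b2⟩) | (h | h | h | h | h | h)
  · exact absurd h h1
  · exact absurd h h2
  · exact absurd h hns3
  · simp only at b1 b2
    left
    apply hpp
    · by_contra hne
      have := a4 hne
      omega
    · by_contra hne
      by_cases h9 : i = 9
      · have := a3 h9
        omega
      · have := a4 h9
        omega
  · exact absurd h h1
  · exact absurd h h2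
  · exact Or.inr (hqq h.1 h.2)
  · exfalso
    simp only at h
    have := a4 (by omega)
    omega
  · exact Or.inl (hpp h.1 h.2)
  · exfalso
    simp only at h
    have := a5 (by omega) (by omega)
    omega

end CL

open CL in
/-- N-CLAUSE -/
theorem tClause : TClause := by
  intro N M B Fl hN hN2 hM hFl hdead c hc
  by_contra hcon
  push Not at hcon
  -- the set
  set X : Set VX := {v | ∃ f, InL N B c f ∧ v ∈ f} with hX
  have hfin : X.Finite := by
    apply (List.finite_toSet (gridFaces N M B).flatten).subset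
    rintro v ⟨f, hf, hv⟩
    exact List.mem_flatten.2 ⟨f, hf.mem_grid hc, hv⟩
  have hf₀ : InL N B c [s1, s2, uu (N - 1) 0] := Or.inl rfl
  have hs2X : s2 ∈ X := ⟨_, hf₀, by simp⟩
  have hs1X : s1 ∈ X := ⟨_, hf₀, by simp⟩
  have hband : ∀ r k, k ≤ c → r + 1 < N → ∀ f ∈ bandFaces N r k, InL N B c f :=
    fun r k hk hr f hf => Or.inr (Or.inr (Or.inr ⟨k, hk, r, hr, hf⟩))
  have hcen : ∀ b, 1 ≤ b → b < N → InL N B c (centre N b c) := by
    intro b h1 h2
    obtain ⟨r, rfl⟩ : ∃ r, b = r + 1 := ⟨b - 1, by omega⟩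
    apply hband r c le_rfl h2
    unfold bandFaces deadFaces
    simp
  have hppX : ∀ r, r < N → pp N (r + 1) (c + 1) ∈ X := by
    intro r hr
    rcases Nat.lt_or_ge (r + 1) N with h | h
    · exact ⟨_, hcen (r + 1) (by omega) h, by simp [centre]⟩
    · have : r + 1 = N := by omega
      rw [this, pp_last c hN]
      exact hs2X
  apply hFl.hull [s1, s2, uu (N - 1) 0] (hf₀.mem_grid hc) X s1 s2 hfin (fun v hv => ⟨_, hf₀, hv⟩)
  rintro v ⟨f, hf, hvf⟩ hv1 hv2
  have hPX := hf.px hvf
  refine ⟨⟨hv1, hv2, ?_⟩, ?_, ?_⟩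
  · rcases hPX with h | h | h
    · exact absurd h hv1
    · exact absurd h hv2
    · rintro rfl
      have h3 : (3 : ℕ) ≤ 2 := h.1
      omega
  · -- a dart
    have hpos : 0 < f.length := List.length_pos_of_mem hvf
    obtain ⟨i, hi, rfl⟩ := List.getElem_of_mem hvf
    refine ⟨FT.gv f hpos (i + 1), mem_gridDarts.2 (Or.inr ⟨f, hf.mem_grid hc, ?_⟩)⟩
    refine (FT.mem_dartsOf hpos).2 ⟨i, ?_⟩
    congr 1
    unfold FT.gv
    congr 1
    rw [Nat.mod_eq_of_lt hi]
  · -- no exit
    have hgen : (∀ g ∈ (grid N M B).walks, v ∈ g → ¬ InL N B c g → ∀ w, (v, w) ∈ dartsOf g →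
        w ∈ X) → ∀ w, (v, w) ∈ (grid N M B).darts → w ∈ X := by
      intro h w hw
      unfold PlaneMap.darts at hw
      obtain ⟨g, hg, hd⟩ := List.mem_flatMap.1 hw
      have hpos : 0 < g.length := by
        rcases g with _ | ⟨x, g⟩
        · simp [dartsOf] at hd
        · simp
      obtain ⟨i, hi⟩ := (FT.mem_dartsOf hpos).1 hd
      rw [Prod.mk.injEq] at hi
      have hvg : v ∈ g := by
        rw [hi.1]; exact List.getElem_mem _
      have hwg : w ∈ g := by
        rw [hi.2]; exact List.getElem_mem _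
      by_cases hL : InL N B c g
      · exact ⟨g, hL, hwg⟩
      · exact h g hg hvg hL w hd
    by_cases hbd : PY c v ∨ PC c v
    · rcases boundary hPX hv1 hv2 hbd with ⟨b, hb1, hb2, rfl⟩ | ⟨⟨r, hr, rfl⟩, hnY⟩
      · -- a dead vertex
        left
        refine ⟨centre N b c, (hcen b hb1 hb2).mem_grid hc, (nd b c 32, pp N b (c + 1), nd b c 25),
          ?_, rfl, hdead b c hb1 hb2 hc, ⟨_, hcen b hb1 hb2, ?_⟩, ⟨_, hcen b hb1 hb2, ?_⟩⟩
        · simp [centre, cornersOf, List.rotate]
        · simp [centre]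
        · simp [centre]
      · cases hB : B r c with
        | true =>
          left
          have hL : InL N B c [xx r c, nd r c 7, nd r c 8, qq r c, nd r c 9, nd r c 10] := by
            refine Or.inr (Or.inr (Or.inl ⟨r, hr, Or.inr ?_⟩))
            simp [tileB, tile]
          refine ⟨_, hL.mem_grid hc, (nd r c 8, qq r c, nd r c 9), ?_, rfl, hcon r hr hB,
            ⟨_, hL, ?_⟩, ⟨_, hL, ?_⟩⟩
          · simp [cornersOf, List.rotate]
          · simp
          · simp
        | false =>
          right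
          apply hgen
          intro g hg hvg hL w hw
          rcases trichotomy hg with h | h | h
          · exact absurd h hL
          · obtain ⟨r', hr', h⟩ := h
            cases hB' : B r' c with
            | true =>
              rw [hB', if_pos rfl] at h
              exfalso
              have hpp : ∀ b, qq r c ≠ pp N b (c + 1) := by
                intro b hb
                rcases pp_cases N b (c + 1) with h | h | h
                · exact hv1 (hb.trans h)
                · exact hv2 (hb.trans h)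
                · rw [← hb] at h
                  have : (5 : ℕ) = 9 := h
                  omega
              rcases mem_tile h hvg with h | h | h | h | ⟨j, hj, h⟩
              · have : r = r' := congrArg (fun z : VX => z.1) h
                subst this
                rw [hB] at hB'
                exact Bool.noConfusion hB'
              · exact hpp _ h
              · have : (5 : ℕ) = 3 := congrArg (fun z : VX => z.2.2) h
                omega
              · exact hpp _ h
              · have : (5 : ℕ) = 12 + (12 + j) := congrArg (fun z : VX => z.2.2) h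
                omega
            | false =>
              rw [hB', if_neg (by simp)] at h
              simp only [thin, List.mem_cons, List.not_mem_nil, or_false] at h
              subst h
              have hpp : ∀ b, qq r c ≠ pp N b (c + 1) := by
                intro b hb
                rcases pp_cases N b (c + 1) with h | h | h
                · exact hv1 (hb.trans h)
                · exact hv2 (hb.trans h)
                · rw [← hb] at h
                  have : (5 : ℕ) = 9 := h
                  omega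
              have hw' : (qq r c, w) ∈ [(qq r' c, pp N (r' + 1) (c + 1)),
                  (pp N (r' + 1) (c + 1), uu r' (c + 1)), (uu r' (c + 1), pp N r' (c + 1)),
                  (pp N r' (c + 1), qq r' c)] := hw
              simp only [List.mem_cons, List.not_mem_nil, or_false, Prod.mk.injEq] at hw'
              rcases hw' with h | h | h | h
              · rw [h.2]
                exact hppX r' hr'
              · exact absurd h.1 (hpp _)
              · have : (5 : ℕ) = 3 := congrArg (fun z : VX => z.2.2) h.1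
                omega
              · exact absurd h.1 (hpp _)
          · exact absurd (h.py hc hvg) hnY
    · right
      apply hgen
      intro g hg hvg hL w hw
      exfalso
      apply hbd
      rcases trichotomy hg with h | h | h
      · exact absurd h hL
      · exact Or.inr (h.pc hvg)
      · exact Or.inl (h.py hc hvg)

end Pool.Agent.SLN
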