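import Pool.Agent.SLN.Targets

set_option autoImplicit false

/-!
# Closed walks: darts and corners by indices
-/

namespace Pool.Agent.SLN

open Pool.Agent.PAH (Plane det3 ccwAngle LiesLeft dartsOf cornersOf DecisionProblem PolyReduces
  ChainEq FanPos)

section lists
variable {V : Type}

/-- cyclic successor of an index -/
def cs {w : List V} (i : Fin w.length) : Fin w.length :=
  ⟨(i.1 + 1) % w.length, Nat.mod_lt _ (by have := i.2; omega)⟩

theorem cs_inj {w : List V} (i j : Fin w.length) (h : cs i = cs j) : i = j := by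
  have h1 := congrArg Fin.val h
  simp only [cs] at h1
  have hi := i.2
  have hj := j.2
  apply Fin.ext
  by_cases h2 : i.1 + 1 = w.length
  · by_cases h3 : j.1 + 1 = w.length
    · omega
    · rw [h2, Nat.mod_self, Nat.mod_eq_of_lt (by omega)] at h1
      omega
  · by_cases h3 : j.1 + 1 = w.length
    · rw [h3, Nat.mod_self, Nat.mod_eq_of_lt (by omega)] at h1
      omega
    · rw [Nat.mod_eq_of_lt (by omega), Nat.mod_eq_of_lt (by omega)] at h1
      omega

theorem mem_dartsOf_iff {w : List V} {d : V × V} :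
    d ∈ dartsOf w ↔ ∃ i : Fin w.length, d = (w.get i, w.get (cs i)) := by
  unfold dartsOf
  rw [List.mem_iff_get]
  constructor
  · rintro ⟨n, rfl⟩
    have hn : n.1 < w.length := lt_of_lt_of_le n.2 (by rw [List.length_zip]; exact min_le_left _ _)
    refine ⟨⟨n.1, hn⟩, ?_⟩
    simp only [List.get_eq_getElem, List.getElem_zip, List.getElem_rotate, cs]
  · rintro ⟨i, rfl⟩
    refine ⟨⟨i.1, by rw [List.length_zip, List.length_rotate]; exact lt_min i.2 i.2⟩, ?_⟩
    simp only [List.get_eq_getElem, List.getElem_zip, List.getElem_rotate, cs]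

theorem mem_cornersOf_iff {w : List V} {k : V × V × V} :
    k ∈ cornersOf w ↔ ∃ i : Fin w.length, k = (w.get i, w.get (cs i), w.get (cs (cs i))) := by
  unfold cornersOf
  rw [List.mem_iff_get]
  constructor
  · rintro ⟨n, rfl⟩
    have hn : n.1 < w.length := lt_of_lt_of_le n.2 (by rw [List.length_zip]; exact min_le_left _ _)
    refine ⟨⟨n.1, hn⟩, ?_⟩
    simp only [List.get_eq_getElem, List.getElem_zip, List.getElem_rotate, cs, Nat.mod_add_mod]
  · rintro ⟨i, rfl⟩
    refine ⟨⟨i.1, by
      rw [List.length_zip, List.length_zip, List.length_rotate, List.length_rotate]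
      exact lt_min i.2 (lt_min i.2 i.2)⟩, ?_⟩
    simp only [List.get_eq_getElem, List.getElem_zip, List.getElem_rotate, cs, Nat.mod_add_mod]

/-- the two darts of a corner -/
theorem corner_darts {w : List V} {k : V × V × V} (hk : k ∈ cornersOf w) :
    (k.1, k.2.1) ∈ dartsOf w ∧ (k.2.1, k.2.2) ∈ dartsOf w := by
  obtain ⟨i, rfl⟩ := mem_cornersOf_iff.mp hk
  exact ⟨mem_dartsOf_iff.mpr ⟨i, rfl⟩, mem_dartsOf_iff.mpr ⟨cs i, rfl⟩⟩

theorem dart_mem {w : List V} {d : V × V} (hd : d ∈ dartsOf w) : d.1 ∈ w ∧ d.2 ∈ w := by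
  obtain ⟨i, rfl⟩ := mem_dartsOf_iff.mp hd
  exact ⟨List.get_mem _ _, List.get_mem _ _⟩

theorem exists_corner_of_dart {w : List V} {u v : V} (h : (u, v) ∈ dartsOf w) :
    ∃ x, (u, v, x) ∈ cornersOf w := by
  obtain ⟨i, hi⟩ := mem_dartsOf_iff.mp h
  simp only [Prod.mk.injEq] at hi
  exact ⟨_, mem_cornersOf_iff.mpr ⟨i, by rw [hi.1, hi.2]⟩⟩

theorem exists_dart_at {w : List V} {v : V} (h : v ∈ w) : ∃ x, (v, x) ∈ dartsOf w := by
  obtain ⟨i, hi⟩ := List.mem_iff_get.mp h
  exact ⟨_, mem_dartsOf_iff.mpr ⟨i, by rw [hi]⟩⟩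

theorem get_inj {w : List V} (hw : w.Nodup) {i j : Fin w.length} (h : w.get i = w.get j) :
    i = j := (List.nodup_iff_injective_get.mp hw) h

theorem dart_snd_unique {w : List V} (hw : w.Nodup) {u v v' : V} (h : (u, v) ∈ dartsOf w)
    (h' : (u, v') ∈ dartsOf w) : v = v' := by
  obtain ⟨i, hi⟩ := mem_dartsOf_iff.mp h
  obtain ⟨j, hj⟩ := mem_dartsOf_iff.mp h'
  simp only [Prod.mk.injEq] at hi hj
  have : i = j := get_inj hw (hi.1.symm.trans hj.1)
  rw [hi.2, hj.2, this]

theorem dart_fst_unique {w : List V} (hw : w.Nodup) {u u' v : V} (h : (u, v) ∈ dartsOf w)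
    (h' : (u', v) ∈ dartsOf w) : u = u' := by
  obtain ⟨i, hi⟩ := mem_dartsOf_iff.mp h
  obtain ⟨j, hj⟩ := mem_dartsOf_iff.mp h'
  simp only [Prod.mk.injEq] at hi hj
  have : i = j := cs_inj _ _ (get_inj hw (hi.2.symm.trans hj.2))
  rw [hi.1, hj.1, this]

/-- a corner of a walk without repetitions is determined by its middle vertex -/
theorem corner_unique {w : List V} (hw : w.Nodup) {k l : V × V × V} (hk : k ∈ cornersOf w)
    (hl : l ∈ cornersOf w) (h : k.2.1 = l.2.1) : k = l := by
  obtain ⟨i, rfl⟩ := mem_cornersOf_iff.mp hk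
  obtain ⟨j, rfl⟩ := mem_cornersOf_iff.mp hl
  have : i = j := cs_inj _ _ (get_inj hw h)
  rw [this]

/-- the corner between two consecutive darts -/
theorem corner_of_darts {w : List V} (hw : w.Nodup) {u v x : V} (h : (u, v) ∈ dartsOf w)
    (h' : (v, x) ∈ dartsOf w) : (u, v, x) ∈ cornersOf w := by
  obtain ⟨y, hy⟩ := exists_corner_of_dart h
  have := dart_snd_unique hw h' (corner_darts hy).2
  rw [this]
  exact hy

theorem exists_corner_at {w : List V} {v : V} (h : v ∈ w) : ∃ k ∈ cornersOf w, k.2.1 = v := by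
  obtain ⟨i, hi⟩ := List.mem_iff_get.mp h
  have hpos : 0 < w.length := by have := i.2; omega
  -- the cyclic successor is surjective
  have hsurj : Function.Surjective (cs (w := w)) :=
    Finite.injective_iff_surjective.mp (fun a b h => cs_inj a b h)
  obtain ⟨j, hj⟩ := hsurj i
  exact ⟨_, mem_cornersOf_iff.mpr ⟨j, rfl⟩, by rw [← hi, ← hj]⟩

/-- each dart is the second dart of a corner -/
theorem exists_corner_of_dart' {w : List V} {v x : V} (h : (v, x) ∈ dartsOf w) :
    ∃ u, (u, v, x) ∈ cornersOf w := by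
  obtain ⟨i, hi⟩ := mem_dartsOf_iff.mp h
  simp only [Prod.mk.injEq] at hi
  have hsurj : Function.Surjective (cs (w := w)) :=
    Finite.injective_iff_surjective.mp (fun a b h => cs_inj a b h)
  obtain ⟨j, hj⟩ := hsurj i
  exact ⟨_, mem_cornersOf_iff.mpr ⟨j, by rw [hj, hi.1, hi.2]⟩⟩

/-- induction along a closed walk -/
theorem cyc_induction {w : List V} (P : Fin w.length → Prop) (i j : Fin w.length) (hi : P i)
    (hs : ∀ k, P k → P (cs k)) : P j := by
  have key : ∀ n : ℕ, P ⟨(i.1 + n) % w.length, Nat.mod_lt _ (by have := i.2; omega)⟩ := by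
    intro n
    induction n with
    | zero =>
      have : (⟨(i.1 + 0) % w.length, Nat.mod_lt _ (by have := i.2; omega)⟩ : Fin w.length) = i := by
        apply Fin.ext
        simp only [add_zero]
        exact Nat.mod_eq_of_lt i.2
      rw [this]; exact hi
    | succ n ih =>
      have := hs _ ih
      have he : cs (⟨(i.1 + n) % w.length, Nat.mod_lt _ (by have := i.2; omega)⟩ : Fin w.length) =
          ⟨(i.1 + (n + 1)) % w.length, Nat.mod_lt _ (by have := i.2; omega)⟩ := by
        apply Fin.ext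
        simp only [cs, Nat.mod_add_mod]
        rfl
      rw [he] at this
      exact this
  have h2 := key (j.1 + w.length - i.1)
  have he : (⟨(i.1 + (j.1 + w.length - i.1)) % w.length, Nat.mod_lt _ (by have := i.2; omega)⟩ :
      Fin w.length) = j := by
    apply Fin.ext
    have hi := i.2
    have hj := j.2
    have : i.1 + (j.1 + w.length - i.1) = j.1 + w.length := by omega
    simp only [this, Nat.add_mod_right]
    exact Nat.mod_eq_of_lt hj
  rw [he] at h2
  exact h2

end lists

/-! ## Faces of darts -/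

section maps
variable {V : Type} {G : PlaneMap V}

theorem mem_darts_iff {d : V × V} : d ∈ G.darts ↔ ∃ i : Fin G.walks.length,
    d ∈ dartsOf (G.walks.get i) := by
  unfold PlaneMap.darts
  rw [List.mem_flatMap]
  constructor
  · rintro ⟨f, hf, hd⟩
    obtain ⟨i, hi⟩ := List.mem_iff_get.mp hf
    exact ⟨i, by rw [hi]; exact hd⟩
  · rintro ⟨i, hi⟩
    exact ⟨_, List.get_mem _ _, hi⟩

theorem face_unique (hn : G.darts.Nodup) {d : V × V} {i j : Fin G.walks.length}
    (hi : d ∈ dartsOf (G.walks.get i)) (hj : d ∈ dartsOf (G.walks.get j)) : i = j := by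
  unfold PlaneMap.darts at hn
  rw [List.nodup_flatMap] at hn
  by_contra hne
  rcases lt_or_gt_of_ne hne with h | h
  · exact (List.pairwise_iff_get.mp hn.2 i j h) hi hj
  · exact (List.pairwise_iff_get.mp hn.2 j i h) hj hi

end maps

end Pool.Agent.SLN
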