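import Pool.Agent.SLN.Lib

set_option autoImplicit false

/-!
# Escapes to the right
-/

namespace Pool.Agent.SLN

namespace Rt

theorem chain_all {P : ℕ → Prop} {N b0 : ℕ} (h0 : 1 ≤ b0) (h1 : b0 < N) (hP : P b0)
    (hs : ∀ b, 1 ≤ b → b + 1 < N → (P b ↔ P (b + 1))) : ∀ b, 1 ≤ b → b < N → P b := by
  have key : ∀ b, 1 ≤ b → b < N → (P 1 ↔ P b) := by
    intro b hb
    induction b, hb using Nat.le_induction with
    | base => intro _; exact Iff.rfl
    | succ n hn ih =>
      intro hlt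
      exact (ih (by omega)).trans (hs n hn hlt)
  intro b hb hbN
  exact (key b hb hbN).mp ((key b0 h0 h1).mpr hP)

/-! ### Membership in the right region -/

theorem zr_gt {R : ℕ → Bool} {c : ℕ} {z : VX} (h3 : 3 ≤ z.2.2) (h9 : z.2.2 ≠ 9) (hc : c < z.2.1) :
    z ∈ ZR R c := by
  refine Or.inr ⟨h3, Or.inl ?_⟩
  unfold col
  rw [if_neg h9]
  exact hc

theorem zr_s3 {R : ℕ → Bool} {c : ℕ} : s3 ∈ ZR R c := Or.inl rfl

theorem zr_kind {R : ℕ → Bool} {b c k : ℕ} (h : k = 5 ∨ k = 7 ∨ k = 8 ∨ 18 ≤ k) :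
    ((b, c, k) : VX) ∈ ZR R c := by
  refine Or.inr ⟨?_, Or.inr ⟨?_, ?_⟩⟩
  · show 3 ≤ k
    omega
  · unfold col
    rw [if_neg]
    show k ≠ 9
    omega
  · unfold LeftLane
    rintro (h1 | h1 | ⟨h1, _⟩ | ⟨h1, h2⟩)
    · change k = 3 at h1
      omega
    · change k = 6 at h1
      omega
    · change k = 4 at h1
      omega
    · change 12 ≤ k at h1
      change k < 18 at h2
      omega

theorem zr_xx {R : ℕ → Bool} {r c : ℕ} (h : R r = false) : xx r c ∈ ZR R c := by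
  refine Or.inr ⟨?_, Or.inr ⟨?_, ?_⟩⟩
  · show 3 ≤ 4
    omega
  · rfl
  · unfold LeftLane xx
    rintro (h1 | h1 | ⟨_, h2⟩ | ⟨h1, _⟩)
    · change 4 = 3 at h1
      omega
    · change 4 = 6 at h1
      omega
    · change R r = true at h2
      rw [h] at h2
      exact absurd h2 (by decide)
    · change 12 ≤ 4 at h1
      omega

theorem zr_pp {R : ℕ → Bool} {b c : ℕ} : ((b, c + 1, 9) : VX) ∈ ZR R c := by
  refine Or.inr ⟨?_, Or.inr ⟨?_, ?_⟩⟩
  · show 3 ≤ 9
    omega
  · unfold col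
    rw [if_pos rfl]
    show c + 1 - 1 = c
    omega
  · unfold LeftLane
    rintro (h1 | h1 | ⟨h1, _⟩ | ⟨h1, _⟩)
    · change 9 = 3 at h1
      omega
    · change 9 = 6 at h1
      omega
    · change 9 = 4 at h1
      omega
    · change 12 ≤ 9 at h1
      omega

theorem zr_nd {R : ℕ → Bool} {r c i : ℕ} (h : 6 ≤ i) : nd r c i ∈ ZR R c :=
  zr_kind (by omega)

theorem zr_qq {R : ℕ → Bool} {r c : ℕ} : qq r c ∈ ZR R c := zr_kind (by omega)

theorem zr_hc {R : ℕ → Bool} {N b c : ℕ} (h1 : 1 ≤ b) (h2 : b < N) : hc N b c ∈ ZR R c := by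
  rw [hc_of h1 h2]
  exact zr_kind (by omega)

theorem zr_hd {R : ℕ → Bool} {N b c : ℕ} (h1 : 1 ≤ b) (h2 : b < N) : hd N b c ∈ ZR R c := by
  rw [hd_of h1 h2]
  exact zr_kind (by omega)

theorem zr_ppN {R : ℕ → Bool} {N b c : ℕ} (h1 : 1 ≤ b) (h2 : b < N) :
    pp N b (c + 1) ∈ ZR R c := by
  rw [pp_of h1 h2]
  exact zr_pp

theorem zr_succ {R : ℕ → Bool} {c : ℕ} : ZR R (c + 1) ⊆ ZR R c := by
  rintro z (h | ⟨h3, h | ⟨h, _⟩⟩)
  · exact Or.inl h
  · exact Or.inr ⟨h3, Or.inl (by omega)⟩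
  · exact Or.inr ⟨h3, Or.inl (by omega)⟩

section main

variable {N M : ℕ} {B : ℕ → ℕ → Bool} {R : ℕ → Bool} {S : VX → VX → Prop}

/-- abbreviation for the escapes of column `c` -/
abbrev E (R : ℕ → Bool) (S : VX → VX → Prop) (c : ℕ) (v : VX) : Prop := Esc S (ZR R c) {s3} v

theorem c_of_d (A : Arcs N M B R S) {b c : ℕ} (h1 : 1 ≤ b) (h2 : b < N) (hc' : c < M)
    (h : E R S c (hd N b c)) : E R S c (hc N b c) :=
  Esc.step _ _ (zr_hc h1 h2) (A.c b c h1 h2 hc').2.2.2
    (Esc.step _ _ (zr_ppN h1 h2) (A.p b c h1 h2 hc').1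
      (Esc.step _ _ (zr_nd (by omega)) (A.d32 b c h1 h2 hc').2
        (Esc.step _ _ (zr_nd (by omega)) (A.d30 b c h1 h2 hc').1 h)))

theorem d_of_c (A : Arcs N M B R S) {b c : ℕ} (h1 : 1 ≤ b) (h2 : b < N) (hc' : c < M)
    (h : E R S c (hc N b c)) : E R S c (hd N b c) :=
  Esc.step _ _ (zr_hd h1 h2) (A.d b c h1 h2 hc').2.2.2
    (Esc.step _ _ (zr_ppN h1 h2) (A.p b c h1 h2 hc').2
      (Esc.step _ _ (zr_nd (by omega)) (A.d25 b c h1 h2 hc').2
        (Esc.step _ _ (zr_nd (by omega)) (A.d26 b c h1 h2 hc').2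
          (Esc.step _ _ (zr_nd (by omega)) (A.d24 b c h1 h2 hc').1 h))))

/-- up over rail `r` -/
theorem up (A : Arcs N M B R S) {r c : ℕ} (h1 : 1 ≤ r) (h2 : r + 1 < N) (hc' : c < M)
    (h : E R S c (hd N r c)) : E R S c (hc N (r + 1) c) := by
  have hr : r < N := by omega
  have t := A.tB r c hr hc'
  have e11 : E R S c (nd r c 11) := Esc.step _ _ (zr_nd (by omega)) t.a6 h
  have e10 : E R S c (nd r c 10) := Esc.step _ _ (zr_nd (by omega)) t.a11 e11
  have ac := A.c (r + 1) c (by omega) h2 hc'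
  rw [Nat.add_sub_cancel] at ac
  cases hR : R r with
  | false =>
    exact Esc.step _ _ (zr_hc (by omega) h2) ac.2.1
      (Esc.step _ _ (zr_xx hR) (A.xL r c hr hc' hR).1 e10)
  | true =>
    have e9 : E R S c (nd r c 9) := Esc.step _ _ (zr_nd (by omega)) t.a9 e10
    exact Esc.step _ _ (zr_hc (by omega) h2) ac.2.2.1
      (Esc.step _ _ zr_qq (A.qR r c hr hc' hR).2 e9)

/-- down over rail `r` -/
theorem down (A : Arcs N M B R S) {r c : ℕ} (h1 : 1 ≤ r) (h2 : r + 1 < N) (hc' : c < M)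
    (h : E R S c (hc N (r + 1) c)) : E R S c (hd N r c) := by
  have hr : r < N := by omega
  have t := A.tB r c hr hc'
  have e6 : E R S c (nd r c 6) := Esc.step _ _ (zr_nd (by omega)) t.a0 h
  have e8 : E R S c (nd r c 8) := Esc.step _ _ (zr_nd (by omega)) t.a5 e6
  have ad := A.d r c h1 hr hc'
  cases hR : R r with
  | false =>
    have e7 : E R S c (nd r c 7) := Esc.step _ _ (zr_nd (by omega)) t.a3 e8
    exact Esc.step _ _ (zr_hd h1 hr) ad.2.1
      (Esc.step _ _ (zr_xx hR) (A.xL r c hr hc' hR).2 e7)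
  | true =>
    exact Esc.step _ _ (zr_hd h1 hr) ad.2.2.1
      (Esc.step _ _ zr_qq (A.qR r c hr hc' hR).1 e8)

/-- one thick unpressed rail suffices -/
theorem column (A : Arcs N M B R S) {r c : ℕ} (hN : 2 ≤ N) (hr : r < N) (hc' : c < M)
    (h : E R S c (qq r c)) : ∀ b, 1 ≤ b → b < N →
      E R S c (hc N b c) ∧ E R S c (hd N b c) := by
  have step : ∀ b, 1 ≤ b → b + 1 < N → (E R S c (hd N b c) ↔ E R S c (hd N (b + 1) c)) := by
    intro b h1 h2
    constructor
    · intro h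
      exact d_of_c A (by omega) h2 hc' (up A h1 h2 hc' h)
    · intro h
      exact down A h1 h2 hc' (c_of_d A (by omega) h2 hc' h)
  have start : ∃ b0, 1 ≤ b0 ∧ b0 < N ∧ E R S c (hd N b0 c) := by
    by_cases h1 : r + 1 < N
    · refine ⟨r + 1, by omega, h1, d_of_c A (by omega) h1 hc' ?_⟩
      have ac := A.c (r + 1) c (by omega) h1 hc'
      rw [Nat.add_sub_cancel] at ac
      exact Esc.step _ _ (zr_hc (by omega) h1) ac.2.2.1 h
    · exact ⟨r, by omega, hr, Esc.step _ _ (zr_hd (by omega) hr)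
        (A.d r c (by omega) hr hc').2.2.1 h⟩
  obtain ⟨b0, h1, h2, h3⟩ := start
  intro b hb hbN
  have := chain_all (P := fun b => E R S c (hd N b c)) h1 h2 h3 step b hb hbN
  exact ⟨c_of_d A hb hbN hc' this, this⟩

theorem main (A : Arcs N M B R S) (hN : 2 ≤ N)
    (hT : ∀ c, c < M → ∃ r, r < N ∧ B r c = true ∧ R r = false) :
    ∀ n c, c < M → M - c = n → ∀ b, 1 ≤ b → b < N →
      E R S c (hc N b c) ∧ E R S c (hd N b c) := by
  intro n
  induction n with
  | zero =>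
    intro c hc' hn
    omega
  | succ n ih =>
    intro c hc' hn
    obtain ⟨r, hr, hB, hR⟩ := hT c hc'
    apply column A hN hr hc'
    have t := A.tW r c hr hc' hB
    refine Esc.step _ _ zr_qq (A.qLW r c hr hc' hR hB).2 ?_
    refine Esc.step _ _ (zr_nd (by omega)) t.a3 ?_
    refine Esc.step _ _ (zr_nd (by omega)) t.a4 ?_
    have hu : uu r (c + 1) ∈ ZR R c := by
      apply zr_gt
      · show 3 ≤ 3
        omega
      · show (3 : ℕ) ≠ 9
        omega
      · show c < c + 1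
        omega
    by_cases hM : c + 1 = M
    · have aM := (A.uM r hr hR).1
      rw [← hM] at aM
      exact Esc.step _ _ hu aM (Esc.done _ zr_s3 rfl)
    · have hc1 : c + 1 < M := by omega
      have hnd : ∀ i, nd r (c + 1) i ∈ ZR R c := by
        intro i
        apply zr_gt
        · show 3 ≤ 12 + i
          omega
        · show 12 + i ≠ 9
          omega
        · show c < c + 1
          omega
      have hy' : ∀ b, 1 ≤ b → b < N → hy N b (c + 1) ∈ ZR R c := by
        intro b h1 h2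
        rw [hy_of h1 h2]
        apply zr_gt
        · show 3 ≤ 6
          omega
        · show (6 : ℕ) ≠ 9
          omega
        · show c < c + 1
          omega
      have hind : ∀ b, 1 ≤ b → b < N → E R S c (hy N b (c + 1)) := by
        intro b h1 h2
        exact Esc.step _ _ (hy' b h1 h2) (A.y b (c + 1) h1 h2 hc1).2.2.2.2.1
          (Esc.mono (fun _ _ h => h) zr_succ (le_refl _)
            (ih (c + 1) hc1 (by omega) b h1 h2).1)
      have tA := A.tA r (c + 1) hr hc1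
      have aL := A.uL r (c + 1) hr hc1 hR
      by_cases h1 : r + 1 < N
      · exact Esc.step _ _ hu aL.2 (Esc.step _ _ (hnd _) tA.a3 (Esc.step _ _ (hnd _) tA.a5
          (Esc.step _ _ (hnd _) tA.a0 (hind (r + 1) (by omega) h1))))
      · exact Esc.step _ _ hu aL.1 (Esc.step _ _ (hnd _) tA.a11
          (Esc.step _ _ (hnd _) tA.a6 (hind r (by omega) hr)))

end main

end Rt

/-- E-RIGHT -/
theorem tRight : TRight := by
  intro N M B R S hN _ _ A hT b c h1 h2 hc'
  exact Rt.main A hN hT _ c hc' rfl b h1 h2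

end Pool.Agent.SLN
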