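import Pool.Agent.SLN.Lib
import Pool.Agent.SLN.Right
import Pool.Agent.SLN.Cyc

set_option autoImplicit false

/-!
# The grid is internally 3-connected
-/

namespace Pool.Agent.SLN

open Pool.Agent.PAH (Plane det3 ccwAngle LiesLeft dartsOf cornersOf DecisionProblem PolyReduces
  ChainEq FanPos)

namespace Cn

/-! ### Connectivity from closed sets -/

section general
variable {V : Type} {G : PlaneMap V}

/-- adjacency as a relation on vertices -/
abbrev Dt (G : PlaneMap V) : V → V → Prop := fun v w => (v, w) ∈ G.darts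

/-- steps avoiding `a` and `b` -/
abbrev Rel (G : PlaneMap V) (a b : Option V) : Option V → Option V → Prop :=
  fun u v => G.Adj u v ∧ v ≠ a ∧ v ≠ b

theorem adj_symm (hs : ∀ d ∈ G.darts, d.swap ∈ G.darts) :
    ∀ {u v : Option V}, G.Adj u v → G.Adj v u
  | some u, some v, h => hs (u, v) h
  | none, some _, h => h
  | some _, none, h => h
  | none, none, h => h

theorem reach_ne {a b x z : Option V} (h : Relation.ReflTransGen (Rel G a b) x z) (ha : x ≠ a)
    (hb : x ≠ b) : z ≠ a ∧ z ≠ b := by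
  cases h with
  | refl => exact ⟨ha, hb⟩
  | tail _ h => exact ⟨h.2.1, h.2.2⟩

theorem reach_rev (hs : ∀ d ∈ G.darts, d.swap ∈ G.darts) {a b x z : Option V}
    (h : Relation.ReflTransGen (Rel G a b) x z) (ha : x ≠ a) (hb : x ≠ b) :
    Relation.ReflTransGen (Rel G a b) z x := by
  induction h with
  | refl => exact Relation.ReflTransGen.refl
  | tail h1 h2 ih =>
    have := reach_ne h1 ha hb
    exact Relation.ReflTransGen.head ⟨adj_symm hs h2.1, this.1, this.2⟩ ih

/-- no closed set has a vertex which is not an exit -/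
def NoClosed (G : PlaneMap V) : Prop := ∀ (X : Set V) (e₁ e₂ : V), Closed G (Dt G) X e₁ e₂ →
  ∀ v ∈ X, v ≠ e₁ → v ≠ e₂ → ¬ ∃ w, (v, w) ∈ G.darts

theorem reach_none (hno : NoClosed G) (a b x : V)
    (hx : ∃ w, (x, w) ∈ G.darts) (hxa : x ≠ a) (hxb : x ≠ b) :
    Relation.ReflTransGen (Rel G (some a) (some b)) (some x) none := by
  by_contra hcon
  have hn : ∀ v, Relation.ReflTransGen (Rel G (some a) (some b)) (some x) (some v) →
      v ≠ G.s₁ ∧ v ≠ G.s₂ ∧ v ≠ G.s₃ := by
    intro v hv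
    by_contra h
    apply hcon
    refine Relation.ReflTransGen.tail hv ⟨?_, by simp, by simp⟩
    show v = G.s₁ ∨ v = G.s₂ ∨ v = G.s₃
    tauto
  refine hno {v | Relation.ReflTransGen (Rel G (some a) (some b)) (some x) (some v) ∨ v = a ∨ v = b}
    a b ⟨?_, ?_⟩ x (Or.inl Relation.ReflTransGen.refl) hxa hxb hx
  · rintro v (hv | hv | hv) h1 h2
    · exact hn v hv
    · exact absurd hv h1
    · exact absurd hv h2
  · rintro v (hv | hv | hv) h1 h2 w hw
    · by_cases hwa : w = a
      · exact Or.inr (Or.inl hwa)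
      · by_cases hwb : w = b
        · exact Or.inr (Or.inr hwb)
        · refine Or.inl (Relation.ReflTransGen.tail hv ⟨hw, ?_, ?_⟩)
          · intro h
            exact hwa (Option.some.inj h)
          · intro h
            exact hwb (Option.some.inj h)
    · exact absurd hv h1
    · exact absurd hv h2

theorem reach_susp (hno : NoClosed G) (b : Option V) (x : V)
    (hx : ∃ w, (x, w) ∈ G.darts) (hxb : some x ≠ b) :
    ∃ s, (s = G.s₁ ∨ s = G.s₂ ∨ s = G.s₃) ∧
      Relation.ReflTransGen (Rel G none b) (some x) (some s) := by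
  by_contra hcon
  have hn : ∀ v, Relation.ReflTransGen (Rel G none b) (some x) (some v) →
      v ≠ G.s₁ ∧ v ≠ G.s₂ ∧ v ≠ G.s₃ := by
    intro v hv
    by_contra h
    exact hcon ⟨v, by tauto, hv⟩
  have hx1 := (hn x Relation.ReflTransGen.refl).1
  obtain ⟨e, he, hxe⟩ : ∃ e : V, (∀ v, some v = b → v = e) ∧ x ≠ e := by
    cases b with
    | none => exact ⟨G.s₁, by intro v hv; exact absurd hv (by simp), hx1⟩
    | some b => exact ⟨b, fun v hv => Option.some.inj hv, fun h => hxb (by rw [h])⟩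
  refine hno {v | Relation.ReflTransGen (Rel G none b) (some x) (some v) ∨ some v = b}
    e e ⟨?_, ?_⟩ x (Or.inl Relation.ReflTransGen.refl) hxe hxe hx
  · rintro v (hv | hv) h1 _
    · exact hn v hv
    · exact absurd (he v hv) h1
  · rintro v (hv | hv) h1 _ w hw
    · by_cases hwb : some w = b
      · exact Or.inr hwb
      · exact Or.inl (Relation.ReflTransGen.tail hv ⟨hw, by simp, hwb⟩)
    · exact absurd (he v hv) h1

theorem conn_aux (hs : ∀ d ∈ G.darts, d.swap ∈ G.darts) (h12 : (G.s₁, G.s₂) ∈ G.darts)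
    (h23 : (G.s₂, G.s₃) ∈ G.darts) (h31 : (G.s₃, G.s₁) ∈ G.darts) (hno : NoClosed G)
    (b : Option V) (x y : V) (hx : ∃ w, (x, w) ∈ G.darts) (hy' : ∃ w, (y, w) ∈ G.darts)
    (hxb : some x ≠ b) (hyb : some y ≠ b) :
    Relation.ReflTransGen (Rel G none b) (some x) (some y) := by
  obtain ⟨s, hs1, hxs⟩ := reach_susp hno b x hx hxb
  obtain ⟨t, ht1, hyt⟩ := reach_susp hno b y hy' hyb
  have hty := reach_rev hs hyt (by simp) hyb
  have htb := (reach_ne hyt (by simp) hyb).2
  by_cases hst : s = t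
  · rw [hst] at hxs
    exact hxs.trans hty
  · have hd : (s, t) ∈ G.darts := by
      have h21 := hs _ h12
      have h32 := hs _ h23
      have h13 := hs _ h31
      rcases hs1 with rfl | rfl | rfl <;> rcases ht1 with rfl | rfl | rfl
      · exact absurd rfl hst
      · exact h12
      · exact h13
      · exact h21
      · exact absurd rfl hst
      · exact h23
      · exact h31
      · exact h32
      · exact absurd rfl hst
    have hr : Rel G none b (some s) (some t) := ⟨hd, by simp, htb⟩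
    exact (Relation.ReflTransGen.tail hxs hr).trans hty

theorem vert_some {v : V} (h : G.Vert (some v)) : ∃ w, (v, w) ∈ G.darts := by
  obtain ⟨d, hd, hd'⟩ := h
  exact ⟨d.2, by rw [← hd']; exact hd⟩

theorem conn_of (hs : ∀ d ∈ G.darts, d.swap ∈ G.darts) (h12 : (G.s₁, G.s₂) ∈ G.darts)
    (h23 : (G.s₂, G.s₃) ∈ G.darts) (h31 : (G.s₃, G.s₁) ∈ G.darts) (hno : NoClosed G) :
    G.InternallyThreeConnected := by
  intro a b x y hx hy' hxa hxb hya hyb
  by_cases ha : a = none
  · subst ha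
    cases x with
    | none => exact absurd rfl hxa
    | some x =>
      cases y with
      | none => exact absurd rfl hya
      | some y =>
        exact conn_aux hs h12 h23 h31 hno b x y (vert_some hx) (vert_some hy') hxb hyb
  · by_cases hb : b = none
    · subst hb
      cases x with
      | none => exact absurd rfl hxb
      | some x =>
        cases y with
        | none => exact absurd rfl hyb
        | some y =>
          have := conn_aux hs h12 h23 h31 hno a x y (vert_some hx) (vert_some hy') hxa hya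
          have hle : Rel G none a ≤ Rel G a none := fun u v h => ⟨h.1, h.2.2, h.2.1⟩
          exact Relation.ReflTransGen.mono hle _ _ this
    · obtain ⟨a, rfl⟩ := Option.ne_none_iff_exists'.mp ha
      obtain ⟨b, rfl⟩ := Option.ne_none_iff_exists'.mp hb
      have key : ∀ x, G.Vert x → x ≠ some a → x ≠ some b →
          Relation.ReflTransGen (Rel G (some a) (some b)) x none := by
        intro x hx h1 h2
        cases x with
        | none => exact Relation.ReflTransGen.refl
        | some x =>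
          exact reach_none hno a b x (vert_some hx) (fun h => h1 (by rw [h]))
            (fun h => h2 (by rw [h]))
      exact (key x hx hxa hxb).trans (reach_rev hs (key y hy' hya hyb) hya hyb)

end general

/-! ### Vertices of the grid -/

variable {N M : ℕ} {B : ℕ → ℕ → Bool}

/-- on a triangular face -/
def OnTri (N M : ℕ) (B : ℕ → ℕ → Bool) (v : VX) : Prop :=
  ∃ f ∈ gridFaces N M B, f.length = 3 ∧ v ∈ f

theorem mem_rail {r c : ℕ} {f : List VX} (hr : r < N) (hc' : c < M)
    (h : f ∈ railFaces N B r c) : f ∈ gridFaces N M B :=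
  mem_gridFaces.mpr (Or.inr (Or.inl ⟨c, hc', r, hr, h⟩))

theorem mem_band {r c : ℕ} {f : List VX} (hr : r + 1 < N) (hc' : c < M)
    (h : f ∈ bandFaces N r c) : f ∈ gridFaces N M B :=
  mem_gridFaces.mpr (Or.inr (Or.inr (Or.inl ⟨c, hc', r, hr, h⟩)))

theorem mem_right {r : ℕ} {f : List VX} (hr : r < N) (h : f ∈ rightFaces N M r) :
    f ∈ gridFaces N M B :=
  mem_gridFaces.mpr (Or.inr (Or.inr (Or.inr ⟨r, hr, h⟩)))

theorem mem_leftF {r c : ℕ} {f : List VX} (hr : r + 1 < N) (hc' : c < M)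
    (h : f ∈ leftFaces N r c) : f ∈ gridFaces N M B :=
  mem_band hr hc' (by
    unfold bandFaces
    exact List.mem_append_left _ (List.mem_append_left _ h))

theorem mem_midF {r c : ℕ} {f : List VX} (hr : r + 1 < N) (hc' : c < M)
    (h : f ∈ midFaces N r c) : f ∈ gridFaces N M B :=
  mem_band hr hc' (by
    unfold bandFaces
    exact List.mem_append_left _ (List.mem_append_right _ h))

theorem mem_deadF {r c : ℕ} {f : List VX} (hr : r + 1 < N) (hc' : c < M)
    (h : f ∈ deadFaces N (r + 1) c) : f ∈ gridFaces N M B :=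
  mem_band hr hc' (by
    unfold bandFaces
    exact List.mem_append_right _ h)

theorem tile_tri {a b c d : VX} {r k i j : ℕ} (hj : j < 6) :
    ∃ f ∈ tile a b c d r k i, f.length = 3 ∧ nd r k (i + j) ∈ f := by
  have h1 : [nd r k (i + 1), nd r k i, nd r k (i + 2)] ∈ tile a b c d r k i := by
    simp [tile, prism]
  have h2 : [nd r k (i + 3), nd r k (i + 5), nd r k (i + 4)] ∈ tile a b c d r k i := by
    simp [tile, prism]
  interval_cases j
  · exact ⟨_, h1, rfl, by simp⟩
  · exact ⟨_, h1, rfl, by simp⟩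
  · exact ⟨_, h1, rfl, by simp⟩
  · exact ⟨_, h2, rfl, by simp⟩
  · exact ⟨_, h2, rfl, by simp⟩
  · exact ⟨_, h2, rfl, by simp⟩

theorem tri_tA {r c j : ℕ} (hr : r < N) (hc' : c < M) (hj : j < 6) :
    OnTri N M B (nd r c (0 + j)) := by
  obtain ⟨f, hf, h3, hm⟩ := tile_tri (a := uu r c) (b := hy N (r + 1) c) (c := xx r c)
    (d := hy N r c) (r := r) (k := c) (i := 0) hj
  refine ⟨f, mem_rail hr hc' ?_, h3, hm⟩
  unfold railFaces
  exact List.mem_append_left _ (List.mem_append_left _ hf)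

theorem tri_tB {r c j : ℕ} (hr : r < N) (hc' : c < M) (hj : j < 6) :
    OnTri N M B (nd r c (6 + j)) := by
  obtain ⟨f, hf, h3, hm⟩ := tile_tri (a := xx r c) (b := hc N (r + 1) c) (c := qq r c)
    (d := hd N r c) (r := r) (k := c) (i := 6) hj
  refine ⟨f, mem_rail hr hc' ?_, h3, hm⟩
  unfold railFaces
  exact List.mem_append_left _ (List.mem_append_right _ hf)

theorem tri_tW {r c j : ℕ} (hr : r < N) (hc' : c < M) (hB : B r c = true) (hj : j < 6) :
    OnTri N M B (nd r c (12 + j)) := by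
  obtain ⟨f, hf, h3, hm⟩ := tile_tri (a := qq r c) (b := pp N (r + 1) (c + 1))
    (c := uu r (c + 1)) (d := pp N r (c + 1)) (r := r) (k := c) (i := 12) hj
  refine ⟨f, mem_rail hr hc' ?_, h3, hm⟩
  unfold railFaces
  rw [if_pos hB]
  exact List.mem_append_right _ hf

theorem tri_tV {r j : ℕ} (h2 : r % 2 = 0) (hr : r + 1 < N) (hM : 1 ≤ M) (hj : j < 6) :
    OnTri N M B (nd r 0 (18 + j)) := by
  obtain ⟨f, hf, h3, hm⟩ := tile_tri (a := uu r 0) (b := s1)
    (c := uu (r + 1) 0) (d := hy N (r + 1) 0) (r := r) (k := 0) (i := 18) hj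
  refine ⟨f, mem_leftF hr hM ?_, h3, hm⟩
  unfold leftFaces
  rw [if_pos ⟨rfl, h2⟩]
  exact hf

theorem tri_dead {r c j : ℕ} (hr : r + 1 < N) (hc' : c < M) (hj : j < 9) :
    OnTri N M B (nd (r + 1) c (24 + j)) := by
  have h1 : [nd (r + 1) c 25, nd (r + 1) c 24, nd (r + 1) c 26] ∈ deadFaces N (r + 1) c := by
    simp [deadFaces, prism]
  have h2 : [nd (r + 1) c 28, nd (r + 1) c 27, nd (r + 1) c 29] ∈ deadFaces N (r + 1) c := by
    simp [deadFaces, prism]
  have h3 : [nd (r + 1) c 31, nd (r + 1) c 30, nd (r + 1) c 32] ∈ deadFaces N (r + 1) c := by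
    simp [deadFaces, prism]
  interval_cases j
  · exact ⟨_, mem_deadF hr hc' h1, rfl, by simp⟩
  · exact ⟨_, mem_deadF hr hc' h1, rfl, by simp⟩
  · exact ⟨_, mem_deadF hr hc' h1, rfl, by simp⟩
  · exact ⟨_, mem_deadF hr hc' h2, rfl, by simp⟩
  · exact ⟨_, mem_deadF hr hc' h2, rfl, by simp⟩
  · exact ⟨_, mem_deadF hr hc' h2, rfl, by simp⟩
  · exact ⟨_, mem_deadF hr hc' h3, rfl, by simp⟩
  · exact ⟨_, mem_deadF hr hc' h3, rfl, by simp⟩
  · exact ⟨_, mem_deadF hr hc' h3, rfl, by simp⟩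

theorem tri_mid {r c : ℕ} (hr : r + 1 < N) (hc' : c < M) {v : VX} (f : List VX)
    (hf : f ∈ midFaces N r c) (h3 : f.length = 3) (hv : v ∈ f) : OnTri N M B v :=
  ⟨f, mem_midF hr hc' hf, h3, hv⟩

theorem tri_y {r c : ℕ} (hr : r + 1 < N) (hc' : c < M) : OnTri N M B (hy N (r + 1) c) :=
  tri_mid hr hc' [hy N (r + 1) c, hc N (r + 1) c, xx r c] (by simp [midFaces]) rfl (by simp)

theorem tri_c {r c : ℕ} (hr : r + 1 < N) (hc' : c < M) : OnTri N M B (hc N (r + 1) c) :=
  tri_mid hr hc' [hy N (r + 1) c, hc N (r + 1) c, xx r c] (by simp [midFaces]) rfl (by simp)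

theorem tri_x1 {r c : ℕ} (hr : r + 1 < N) (hc' : c < M) : OnTri N M B (xx r c) :=
  tri_mid hr hc' [hy N (r + 1) c, hc N (r + 1) c, xx r c] (by simp [midFaces]) rfl (by simp)

theorem tri_d {r c : ℕ} (hr : r + 1 < N) (hc' : c < M) : OnTri N M B (hd N (r + 1) c) :=
  tri_mid hr hc' [hy N (r + 1) c, xx (r + 1) c, hd N (r + 1) c] (by simp [midFaces]) rfl
    (by simp)

theorem tri_x2 {r c : ℕ} (hr : r + 1 < N) (hc' : c < M) : OnTri N M B (xx (r + 1) c) :=
  tri_mid hr hc' [hy N (r + 1) c, xx (r + 1) c, hd N (r + 1) c] (by simp [midFaces]) rfl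
    (by simp)

theorem tri_v {r c : ℕ} (hr : r + 1 < N) (hc' : c < M) : OnTri N M B (vv (r + 1) c) :=
  tri_mid hr hc' [hc N (r + 1) c, hy N (r + 1) c, vv (r + 1) c] (by simp [midFaces]) rfl
    (by simp)

theorem tri_w {r c : ℕ} (hr : r + 1 < N) (hc' : c < M) : OnTri N M B (ww (r + 1) c) :=
  tri_mid hr hc' [hy N (r + 1) c, hd N (r + 1) c, ww (r + 1) c] (by simp [midFaces]) rfl
    (by simp)

theorem tri_q1 {r c : ℕ} (hr : r + 1 < N) (hc' : c < M) : OnTri N M B (qq r c) :=
  tri_mid hr hc' [qq r c, hc N (r + 1) c, pp N (r + 1) (c + 1)] (by simp [midFaces]) rfl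
    (by simp)

theorem tri_p {r c : ℕ} (hr : r + 1 < N) (hc' : c < M) : OnTri N M B (pp N (r + 1) (c + 1)) :=
  tri_mid hr hc' [qq r c, hc N (r + 1) c, pp N (r + 1) (c + 1)] (by simp [midFaces]) rfl
    (by simp)

theorem tri_q2 {r c : ℕ} (hr : r + 1 < N) (hc' : c < M) : OnTri N M B (qq (r + 1) c) :=
  tri_mid hr hc' [hd N (r + 1) c, qq (r + 1) c, pp N (r + 1) (c + 1)] (by simp [midFaces]) rfl
    (by simp)

theorem tri_x (hN : 2 ≤ N) {r c : ℕ} (hr : r < N) (hc' : c < M) : OnTri N M B (xx r c) := by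
  by_cases h : r + 1 < N
  · exact tri_x1 h hc'
  · obtain ⟨r', rfl⟩ : ∃ r', r = r' + 1 := ⟨r - 1, by omega⟩
    exact tri_x2 hr hc'

theorem tri_q (hN : 2 ≤ N) {r c : ℕ} (hr : r < N) (hc' : c < M) : OnTri N M B (qq r c) := by
  by_cases h : r + 1 < N
  · exact tri_q1 h hc'
  · obtain ⟨r', rfl⟩ : ∃ r', r = r' + 1 := ⟨r - 1, by omega⟩
    exact tri_q2 hr hc'

/-- suspensions, `uu 0 0`, and vertices of triangular faces -/
def Good (N M : ℕ) (B : ℕ → ℕ → Bool) (v : VX) : Prop :=
  (v = s1 ∨ v = s2 ∨ v = s3) ∨ v = uu 0 0 ∨ OnTri N M B v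

theorem Good.tri {v : VX} (h : OnTri N M B v) : Good N M B v := Or.inr (Or.inr h)

theorem good_s1 : Good N M B s1 := Or.inl (Or.inl rfl)
theorem good_s2 : Good N M B s2 := Or.inl (Or.inr (Or.inl rfl))
theorem good_s3 : Good N M B s3 := Or.inl (Or.inr (Or.inr rfl))

theorem good_uu (hN : 2 ≤ N) {r c : ℕ} (hr : r < N) (hc' : c ≤ M) : Good N M B (uu r c) := by
  by_cases hcM : c = M
  · subst hcM
    exact Good.tri ⟨[uu r c, pp N (r + 1) c, s3], mem_right hr (by simp [rightFaces]), rfl,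
      by simp⟩
  · have hc1 : c < M := by omega
    by_cases h1 : r + 1 < N ∧ ¬ (c = 0 ∧ r % 2 = 0)
    · refine Good.tri ⟨[pp N (r + 1) c, hy N (r + 1) c, uu r c], mem_leftF h1.1 hc1 ?_, rfl,
        by simp⟩
      unfold leftFaces
      rw [if_neg h1.2]
      simp
    · by_cases h2 : 1 ≤ r ∧ ¬ (c = 0 ∧ (r - 1) % 2 = 0)
      · obtain ⟨r', rfl⟩ : ∃ r', r = r' + 1 := ⟨r - 1, by omega⟩
        rw [Nat.add_sub_cancel] at h2
        refine Good.tri ⟨[pp N (r' + 1) c, uu (r' + 1) c, hy N (r' + 1) c],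
          mem_leftF hr hc1 ?_, rfl, by simp⟩
        unfold leftFaces
        rw [if_neg h2.2]
        simp
      · by_cases h3 : r = 0 ∧ c = 0
        · rw [h3.1, h3.2]
          exact Or.inr (Or.inl rfl)
        · have h4 : r = N - 1 ∧ c = 0 := by omega
          rw [h4.1, h4.2]
          exact Good.tri ⟨[s1, s2, uu (N - 1) 0], mem_gridFaces.mpr (Or.inl rfl), rfl, by simp⟩

theorem good_y (hN : 2 ≤ N) {b c : ℕ} (hb : b ≤ N) (hc' : c < M) : Good N M B (hy N b c) := by
  by_cases h0 : b = 0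
  · subst h0; exact good_s1
  · by_cases hbN : b = N
    · rw [hbN, hy_last c hN]; exact good_s2
    · obtain ⟨r', rfl⟩ : ∃ r', b = r' + 1 := ⟨b - 1, by omega⟩
      exact Good.tri (tri_y (by omega) hc')

theorem good_c (hN : 2 ≤ N) {b c : ℕ} (hb : b ≤ N) (hc' : c < M) : Good N M B (hc N b c) := by
  by_cases h0 : b = 0
  · subst h0; exact good_s1
  · by_cases hbN : b = N
    · rw [hbN, hc_last c hN]; exact good_s2
    · obtain ⟨r', rfl⟩ : ∃ r', b = r' + 1 := ⟨b - 1, by omega⟩
      exact Good.tri (tri_c (by omega) hc')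

theorem good_d (hN : 2 ≤ N) {b c : ℕ} (hb : b ≤ N) (hc' : c < M) : Good N M B (hd N b c) := by
  by_cases h0 : b = 0
  · subst h0; exact good_s1
  · by_cases hbN : b = N
    · have : hd N N c = s2 := hub_last _ _ hN
      rw [hbN, this]; exact good_s2
    · obtain ⟨r', rfl⟩ : ∃ r', b = r' + 1 := ⟨b - 1, by omega⟩
      exact Good.tri (tri_d (by omega) hc')

theorem good_p (hN : 2 ≤ N) {b j : ℕ} (hb : b ≤ N) (hj : j ≤ M) : Good N M B (pp N b j) := by
  by_cases h0 : b = 0
  · subst h0; rw [pp_zero]; exact good_s1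
  · by_cases hj0 : j = 0
    · subst hj0; rw [pp_border]; exact good_s1
    · obtain ⟨c, rfl⟩ : ∃ c, j = c + 1 := ⟨j - 1, by omega⟩
      by_cases hbN : b = N
      · rw [hbN, pp_last c hN]; exact good_s2
      · obtain ⟨r', rfl⟩ : ∃ r', b = r' + 1 := ⟨b - 1, by omega⟩
        exact Good.tri (tri_p (by omega) (by omega))

theorem all_tile {P : VX → Prop} {a b c d : VX} {r k i : ℕ} (ha : P a) (hb : P b) (hc' : P c)
    (hd' : P d) (hn : ∀ j, j < 6 → P (nd r k (i + j))) :
    ∀ f ∈ tile a b c d r k i, ∀ v ∈ f, P v := by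
  have h0 : P (nd r k i) := hn 0 (by omega)
  have h1 := hn 1 (by omega)
  have h2 := hn 2 (by omega)
  have h3 := hn 3 (by omega)
  have h4 := hn 4 (by omega)
  have h5 := hn 5 (by omega)
  simp only [tile, prism, List.cons_append, List.nil_append, List.forall_mem_cons,
    List.not_mem_nil, false_imp_iff, implies_true, ha, hb, hc', hd', h0, h1, h2, h3, h4, h5,
    and_true]

theorem good_rail (hN : 2 ≤ N) {r c : ℕ} (hr : r < N) (hc' : c < M) :
    ∀ f ∈ railFaces N B r c, ∀ v ∈ f, Good N M B v := by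
  intro f hf
  unfold railFaces at hf
  rw [List.mem_append, List.mem_append] at hf
  rcases hf with (hf | hf) | hf
  · exact all_tile (good_uu hN hr (by omega)) (good_y hN (by omega) hc')
      (Good.tri (tri_x hN hr hc')) (good_y hN (by omega) hc')
      (fun j hj => Good.tri (tri_tA hr hc' hj)) f hf
  · exact all_tile (Good.tri (tri_x hN hr hc')) (good_c hN (by omega) hc')
      (Good.tri (tri_q hN hr hc')) (good_d hN (by omega) hc')
      (fun j hj => Good.tri (tri_tB hr hc' hj)) f hf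
  · by_cases hB : B r c = true
    · rw [if_pos hB] at hf
      exact all_tile (Good.tri (tri_q hN hr hc')) (good_p hN (by omega) (by omega))
        (good_uu hN hr (by omega)) (good_p hN (by omega) (by omega))
        (fun j hj => Good.tri (tri_tW hr hc' hB hj)) f hf
    · rw [if_neg hB] at hf
      have h1 : Good N M B (qq r c) := Good.tri (tri_q hN hr hc')
      have h2 : Good N M B (pp N (r + 1) (c + 1)) := good_p hN (by omega) (by omega)
      have h3 : Good N M B (uu r (c + 1)) := good_uu hN hr (by omega)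
      have h4 : Good N M B (pp N r (c + 1)) := good_p hN (by omega) (by omega)
      revert f
      simp only [thin, List.forall_mem_cons, List.not_mem_nil, false_imp_iff, implies_true,
        h1, h2, h3, h4, and_true]

theorem good_band (hN : 2 ≤ N) {r c : ℕ} (hr : r + 1 < N) (hc' : c < M) :
    ∀ f ∈ bandFaces N r c, ∀ v ∈ f, Good N M B v := by
  intro f hf
  have p1 : Good N M B (pp N (r + 1) (c + 1)) := good_p hN (by omega) (by omega)
  have p0 : Good N M B (pp N (r + 1) c) := good_p hN (by omega) (by omega)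
  have y1 : Good N M B (hy N (r + 1) c) := good_y hN (by omega) hc'
  have c1 : Good N M B (hc N (r + 1) c) := good_c hN (by omega) hc'
  have d1 : Good N M B (hd N (r + 1) c) := good_d hN (by omega) hc'
  have u0 : Good N M B (uu r c) := good_uu hN (by omega) (by omega)
  have u1 : Good N M B (uu (r + 1) c) := good_uu hN hr (by omega)
  have x0 : Good N M B (xx r c) := Good.tri (tri_x hN (by omega) hc')
  have x1 : Good N M B (xx (r + 1) c) := Good.tri (tri_x hN hr hc')
  have q0 : Good N M B (qq r c) := Good.tri (tri_q hN (by omega) hc')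
  have q1 : Good N M B (qq (r + 1) c) := Good.tri (tri_q hN hr hc')
  have v1 : Good N M B (vv (r + 1) c) := Good.tri (tri_v hr hc')
  have w1 : Good N M B (ww (r + 1) c) := Good.tri (tri_w hr hc')
  have hn : ∀ j, j < 9 → Good N M B (nd (r + 1) c (24 + j)) :=
    fun j hj => Good.tri (tri_dead hr hc' hj)
  have n0 := hn 0 (by omega)
  have n1 := hn 1 (by omega)
  have n2 := hn 2 (by omega)
  have n3 := hn 3 (by omega)
  have n4 := hn 4 (by omega)
  have n5 := hn 5 (by omega)
  have n6 := hn 6 (by omega)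
  have n7 := hn 7 (by omega)
  have n8 := hn 8 (by omega)
  norm_num at n0 n1 n2 n3 n4 n5 n6 n7 n8
  unfold bandFaces at hf
  rw [List.mem_append, List.mem_append] at hf
  rcases hf with (hf | hf) | hf
  · unfold leftFaces at hf
    by_cases h : c = 0 ∧ r % 2 = 0
    · rw [if_pos h] at hf
      have hc0 := h.1
      subst hc0
      exact all_tile u0 good_s1 u1 y1 (fun j hj => Good.tri (tri_tV h.2 hr hc' hj)) f hf
    · rw [if_neg h] at hf
      revert f
      simp only [List.forall_mem_cons, List.not_mem_nil, false_imp_iff, implies_true,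
        p0, y1, u0, u1, and_true]
  · revert f
    simp only [midFaces, List.forall_mem_cons, List.not_mem_nil, false_imp_iff, implies_true,
        p1, y1, c1, d1, x0, x1, q0, q1, v1, w1, and_true]
  · revert f
    simp only [deadFaces, centre, prism, List.cons_append, List.nil_append, List.forall_mem_cons,
      List.not_mem_nil, false_imp_iff, implies_true,
      p1, y1, c1, d1, v1, w1, n0, n1, n2, n3, n4, n5, n6, n7, n8, and_true]

theorem good_face (hN : 2 ≤ N) (hM : 1 ≤ M) :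
    ∀ f ∈ gridFaces N M B, ∀ v ∈ f, Good N M B v := by
  intro f hf
  rcases mem_gridFaces.mp hf with rfl | ⟨c, hc', r, hr, h⟩ | ⟨c, hc', r, hr, h⟩ | ⟨r, hr, h⟩
  · have h3 : Good N M B (uu (N - 1) 0) := good_uu hN (by omega) (by omega)
    simp only [List.forall_mem_cons, List.not_mem_nil, false_imp_iff, implies_true,
      good_s1, good_s2, h3, and_true]
  · exact good_rail hN hr hc' f h
  · exact good_band hN hr hc' f h
  · have h1 : Good N M B (pp N (r + 1) M) := good_p hN (by omega) (by omega)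
    have h2 : Good N M B (pp N r M) := good_p hN (by omega) (by omega)
    have h3 : Good N M B (uu r M) := good_uu hN hr (by omega)
    revert h
    revert f
    simp only [rightFaces]
    intro f _ h
    simp only [List.mem_cons, List.not_mem_nil, or_false] at h
    rcases h with rfl | rfl
    · simp only [List.forall_mem_cons, List.not_mem_nil, false_imp_iff, implies_true,
        good_s3, h1, h3, and_true]
    · simp only [List.forall_mem_cons, List.not_mem_nil, false_imp_iff, implies_true,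
        good_s3, h2, h3, and_true]

/-! ### Darts -/

theorem mem_dart {f : List VX} (hf : f ∈ gridFaces N M B) {d : VX × VX} (hd' : d ∈ dartsOf f) :
    d ∈ (grid N M B).darts := mem_gridDarts.mpr (Or.inr ⟨f, hf, hd'⟩)

theorem isV_of_tri {v : VX} (h : OnTri N M B v) : ∃ w, (v, w) ∈ (grid N M B).darts := by
  obtain ⟨f, hf, _, hv⟩ := h
  obtain ⟨w, hw⟩ := exists_dart_at hv
  exact ⟨w, mem_dart hf hw⟩

theorem isV_uu (hN : 2 ≤ N) (hM : 1 ≤ M) {r c : ℕ} (hr : r < N) (hc' : c ≤ M) :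
    ∃ w, (uu r c, w) ∈ (grid N M B).darts := by
  rcases good_uu (B := B) hN hr hc' with h | h | h
  · rcases h with h | h | h
    · exact absurd h (by simp [uu, s1])
    · exact absurd h (by simp [uu, s2])
    · exact absurd h (by simp [uu, s3])
  · rw [h]
    have hm : [uu 0 0, nd 0 0 1, nd 0 0 2, xx 0 0, nd 0 0 3, nd 0 0 4] ∈ gridFaces N M B := by
      apply mem_rail (r := 0) (c := 0) (by omega) (by omega)
      simp [railFaces, tileA, tile]
    obtain ⟨w, hw⟩ := exists_dart_at (w := [uu 0 0, nd 0 0 1, nd 0 0 2, xx 0 0, nd 0 0 3,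
      nd 0 0 4]) (v := uu 0 0) (by simp)
    exact ⟨w, mem_dart hm hw⟩
  · exact isV_of_tri h

theorem sup_dart (hs : ∀ d ∈ (grid N M B).darts, d.swap ∈ (grid N M B).darts)
    {A : VX → Option (VX × VX)} (F : Flats (grid N M B) A) {v w : VX}
    (hv : ∃ w, (v, w) ∈ (grid N M B).darts) (h : Sup (grid N M B) A v w) :
    (v, w) ∈ (grid N M B).darts := by
  unfold Sup at h
  cases hA : A v with
  | none => rw [hA] at h; exact h
  | some e =>
    rw [hA] at h
    obtain ⟨f, hf, hk⟩ := F.corner v e hv hA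
    obtain ⟨h1, h2⟩ := corner_darts hk
    rcases h with h | h
    · rw [h]
      exact hs _ (mem_dart hf h1)
    · rw [h]
      exact mem_dart hf h2

theorem tile_conv {S S' : VX → VX → Prop} {a b c d : VX} {r k i : ℕ}
    (t : TileArcs S a b c d r k i)
    (hS : ∀ j w, j < 6 → S (nd r k (i + j)) w → S' (nd r k (i + j)) w) :
    TileArcs S' a b c d r k i :=
  ⟨hS 0 _ (by omega) t.a0, hS 0 _ (by omega) t.a1, hS 1 _ (by omega) t.a2,
    hS 1 _ (by omega) t.a3, hS 2 _ (by omega) t.a4, hS 2 _ (by omega) t.a5,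
    hS 5 _ (by omega) t.a6, hS 5 _ (by omega) t.a7, hS 3 _ (by omega) t.a8,
    hS 3 _ (by omega) t.a9, hS 4 _ (by omega) t.a10, hS 4 _ (by omega) t.a11⟩

theorem arcs_conv {R : ℕ → Bool} {S S' : VX → VX → Prop} (hN : 2 ≤ N) (hM : 1 ≤ M)
    (A : Arcs N M B R S)
    (hS : ∀ v w, (∃ w, (v, w) ∈ (grid N M B).darts) → S v w → S' v w) :
    Arcs N M B R S' := by
  have hd1 : ∀ {b c i : ℕ}, 1 ≤ b → b < N → c < M → 24 ≤ i → i < 33 →
      ∃ w, (nd b c i, w) ∈ (grid N M B).darts := by
    intro b c i h1 h2 h3 h4 h5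
    obtain ⟨r', rfl⟩ : ∃ r', b = r' + 1 := ⟨b - 1, by omega⟩
    obtain ⟨j, rfl⟩ : ∃ j, i = 24 + j := ⟨i - 24, by omega⟩
    exact isV_of_tri (tri_dead h2 h3 (by omega))
  have hp1 : ∀ {b c : ℕ}, 1 ≤ b → b < N → c < M →
      ∃ w, (pp N b (c + 1), w) ∈ (grid N M B).darts := by
    intro b c h1 h2 h3
    obtain ⟨r', rfl⟩ : ∃ r', b = r' + 1 := ⟨b - 1, by omega⟩
    exact isV_of_tri (tri_p h2 h3)
  have hv1 : ∀ {b c : ℕ}, 1 ≤ b → b < N → c < M →
      ∃ w, (vv b c, w) ∈ (grid N M B).darts := by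
    intro b c h1 h2 h3
    obtain ⟨r', rfl⟩ : ∃ r', b = r' + 1 := ⟨b - 1, by omega⟩
    exact isV_of_tri (tri_v h2 h3)
  have hw1 : ∀ {b c : ℕ}, 1 ≤ b → b < N → c < M →
      ∃ w, (ww b c, w) ∈ (grid N M B).darts := by
    intro b c h1 h2 h3
    obtain ⟨r', rfl⟩ : ∃ r', b = r' + 1 := ⟨b - 1, by omega⟩
    exact isV_of_tri (tri_w h2 h3)
  have hy1 : ∀ {b c : ℕ}, 1 ≤ b → b < N → c < M →
      ∃ w, (hy N b c, w) ∈ (grid N M B).darts := by
    intro b c h1 h2 h3
    obtain ⟨r', rfl⟩ : ∃ r', b = r' + 1 := ⟨b - 1, by omega⟩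
    exact isV_of_tri (tri_y h2 h3)
  have hc1 : ∀ {b c : ℕ}, 1 ≤ b → b < N → c < M →
      ∃ w, (hc N b c, w) ∈ (grid N M B).darts := by
    intro b c h1 h2 h3
    obtain ⟨r', rfl⟩ : ∃ r', b = r' + 1 := ⟨b - 1, by omega⟩
    exact isV_of_tri (tri_c h2 h3)
  have hdd1 : ∀ {b c : ℕ}, 1 ≤ b → b < N → c < M →
      ∃ w, (hd N b c, w) ∈ (grid N M B).darts := by
    intro b c h1 h2 h3
    obtain ⟨r', rfl⟩ : ∃ r', b = r' + 1 := ⟨b - 1, by omega⟩
    exact isV_of_tri (tri_d h2 h3)
  have hx1 : ∀ {r c : ℕ}, r < N → c < M → ∃ w, (xx r c, w) ∈ (grid N M B).darts :=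
    fun h1 h2 => isV_of_tri (tri_x hN h1 h2)
  have hq1 : ∀ {r c : ℕ}, r < N → c < M → ∃ w, (qq r c, w) ∈ (grid N M B).darts :=
    fun h1 h2 => isV_of_tri (tri_q hN h1 h2)
  have hu1 : ∀ {r c : ℕ}, r < N → c ≤ M → ∃ w, (uu r c, w) ∈ (grid N M B).darts :=
    fun h1 h2 => isV_uu hN hM h1 h2
  constructor
  · intro r c hr hc'
    exact tile_conv (A.tA r c hr hc') fun j w hj h => hS _ _ (isV_of_tri (tri_tA hr hc' hj)) h
  · intro r c hr hc'
    exact tile_conv (A.tB r c hr hc') fun j w hj h => hS _ _ (isV_of_tri (tri_tB hr hc' hj)) h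
  · intro r c hr hc' hB
    exact tile_conv (A.tW r c hr hc' hB) fun j w hj h =>
      hS _ _ (isV_of_tri (tri_tW hr hc' hB hj)) h
  · intro r h2 hr
    exact tile_conv (A.tV r h2 hr) fun j w hj h =>
      hS _ _ (isV_of_tri (tri_tV h2 hr hM hj)) h
  · intro b c h1 h2 h3
    have h := A.d24 b c h1 h2 h3
    have k := hd1 (i := 24) h1 h2 h3 (by omega) (by omega)
    exact ⟨hS _ _ k h.1, hS _ _ k h.2⟩
  · intro b c h1 h2 h3
    have h := A.d25 b c h1 h2 h3
    have k := hd1 (i := 25) h1 h2 h3 (by omega) (by omega)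
    exact ⟨hS _ _ k h.1, hS _ _ k h.2⟩
  · intro b c h1 h2 h3
    have h := A.d26 b c h1 h2 h3
    have k := hd1 (i := 26) h1 h2 h3 (by omega) (by omega)
    exact ⟨hS _ _ k h.1, hS _ _ k h.2⟩
  · intro b c h1 h2 h3
    have h := A.d27 b c h1 h2 h3
    have k := hd1 (i := 27) h1 h2 h3 (by omega) (by omega)
    exact ⟨hS _ _ k h.1, hS _ _ k h.2⟩
  · intro b c h1 h2 h3
    have h := A.d28 b c h1 h2 h3
    have k := hd1 (i := 28) h1 h2 h3 (by omega) (by omega)
    exact ⟨hS _ _ k h.1, hS _ _ k h.2⟩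
  · intro b c h1 h2 h3
    have h := A.d29 b c h1 h2 h3
    have k := hd1 (i := 29) h1 h2 h3 (by omega) (by omega)
    exact ⟨hS _ _ k h.1, hS _ _ k h.2⟩
  · intro b c h1 h2 h3
    have h := A.d30 b c h1 h2 h3
    have k := hd1 (i := 30) h1 h2 h3 (by omega) (by omega)
    exact ⟨hS _ _ k h.1, hS _ _ k h.2⟩
  · intro b c h1 h2 h3
    have h := A.d31 b c h1 h2 h3
    have k := hd1 (i := 31) h1 h2 h3 (by omega) (by omega)
    exact ⟨hS _ _ k h.1, hS _ _ k h.2⟩
  · intro b c h1 h2 h3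
    have h := A.d32 b c h1 h2 h3
    have k := hd1 (i := 32) h1 h2 h3 (by omega) (by omega)
    exact ⟨hS _ _ k h.1, hS _ _ k h.2⟩
  · intro b c h1 h2 h3
    have h := A.p b c h1 h2 h3
    exact ⟨hS _ _ (hp1 h1 h2 h3) h.1, hS _ _ (hp1 h1 h2 h3) h.2⟩
  · intro b c h1 h2 h3
    have h := A.v b c h1 h2 h3
    exact ⟨hS _ _ (hv1 h1 h2 h3) h.1, hS _ _ (hv1 h1 h2 h3) h.2⟩
  · intro b c h1 h2 h3
    have h := A.w b c h1 h2 h3
    exact ⟨hS _ _ (hw1 h1 h2 h3) h.1, hS _ _ (hw1 h1 h2 h3) h.2⟩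
  · intro r c h1 h2 h3
    have h := A.xR r c h1 h2 h3
    exact ⟨hS _ _ (hx1 h1 h2) h.1, hS _ _ (hx1 h1 h2) h.2⟩
  · intro r c h1 h2 h3
    have h := A.qR r c h1 h2 h3
    exact ⟨hS _ _ (hq1 h1 h2) h.1, hS _ _ (hq1 h1 h2) h.2⟩
  · intro r c h1 h2 h3 h4
    have h := A.uR r c h1 h2 h3 h4
    have k := hu1 (r := r) (c := c + 1) h1 (by omega)
    exact ⟨hS _ _ k h.1, hS _ _ k h.2⟩
  · intro r c h1 h2 h3 h4
    have h := A.uRW r c h1 h2 h3 h4
    have k := hu1 (r := r) (c := c + 1) h1 (by omega)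
    exact ⟨hS _ _ k h.1, hS _ _ k h.2⟩
  · intro r h1 h2 h3
    have h := A.u0e r h1 h2 h3
    have k := hu1 (r := r) (c := 0) (by omega) (by omega)
    exact ⟨hS _ _ k h.1, hS _ _ k h.2⟩
  · intro r h1 h2 h3
    have h := A.u0o r h1 h2 h3
    have k := hu1 (r := r + 1) (c := 0) (by omega) (by omega)
    exact ⟨hS _ _ k h.1, hS _ _ k h.2⟩
  · intro r c h1 h2 h3
    have h := A.uL r c h1 h2 h3
    have k := hu1 (r := r) (c := c) (by omega) (by omega)
    exact ⟨hS _ _ k h.1, hS _ _ k h.2⟩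
  · intro r c h1 h2 h3
    have h := A.xL r c h1 h2 h3
    exact ⟨hS _ _ (hx1 h1 h2) h.1, hS _ _ (hx1 h1 h2) h.2⟩
  · intro r c h1 h2 h3 h4
    have h := A.qL r c h1 h2 h3 h4
    exact ⟨hS _ _ (hq1 h1 h2) h.1, hS _ _ (hq1 h1 h2) h.2⟩
  · intro r c h1 h2 h3 h4
    have h := A.qLW r c h1 h2 h3 h4
    exact ⟨hS _ _ (hq1 h1 h2) h.1, hS _ _ (hq1 h1 h2) h.2⟩
  · intro r h1 h2
    have h := A.uM r h1 h2
    have k := hu1 (r := r) (c := M) (by omega) (by omega)
    exact ⟨hS _ _ k h.1, hS _ _ k h.2.1, hS _ _ k h.2.2⟩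
  · intro b c h1 h2 h3
    have h := A.y b c h1 h2 h3
    have k := hy1 h1 h2 h3
    exact ⟨hS _ _ k h.1, hS _ _ k h.2.1, hS _ _ k h.2.2.1, hS _ _ k h.2.2.2.1,
      hS _ _ k h.2.2.2.2.1, hS _ _ k h.2.2.2.2.2⟩
  · intro b c h1 h2 h3
    have h := A.c b c h1 h2 h3
    have k := hc1 h1 h2 h3
    exact ⟨hS _ _ k h.1, hS _ _ k h.2.1, hS _ _ k h.2.2.1, hS _ _ k h.2.2.2⟩
  · intro b c h1 h2 h3
    have h := A.d b c h1 h2 h3
    have k := hdd1 h1 h2 h3
    exact ⟨hS _ _ k h.1, hS _ _ k h.2.1, hS _ _ k h.2.2.1, hS _ _ k h.2.2.2⟩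

/-! ### Escapes to the right in the graph -/

theorem rightEsc_darts {R : ℕ → Bool} (A : Arcs N M B R (Dt (grid N M B))) :
    RightEsc N M R (Dt (grid N M B)) := by
  have key : ∀ n c, M - c = n → c < M → ∀ b, 1 ≤ b → b < N →
      Esc (Dt (grid N M B)) (ZR R c) {s3} (pp N b (c + 1)) := by
    intro n
    induction n with
    | zero => intro c h0 h1; omega
    | succ n ih =>
      intro c h0 h1 b hb1 hb2
      obtain ⟨r', rfl⟩ : ∃ r', b = r' + 1 := ⟨b - 1, by omega⟩
      have hpz := Rt.zr_ppN (R := R) (c := c) hb1 hb2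
      by_cases hcM : c + 1 = M
      · refine Esc.step _ s3 hpz ?_ (Esc.done _ Rt.zr_s3 rfl)
        apply mem_dart (f := [uu r' M, pp N (r' + 1) M, s3]) (mem_right (r := r') (by omega) (by
          simp [rightFaces]))
        rw [hcM]
        simp [dartsOf, List.rotate]
      · have hc1 : c + 1 < M := by omega
        have hyz : hy N (r' + 1) (c + 1) ∈ ZR R c := by
          rw [hy_of hb1 hb2]
          apply Rt.zr_gt
          · show 3 ≤ 6
            omega
          · show (6 : ℕ) ≠ 9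
            omega
          · show c < c + 1
            omega
        have hcz : hc N (r' + 1) (c + 1) ∈ ZR R c := by
          rw [hc_of hb1 hb2]
          apply Rt.zr_gt
          · show 3 ≤ 7
            omega
          · show (7 : ℕ) ≠ 9
            omega
          · show c < c + 1
            omega
        refine Esc.step _ (hy N (r' + 1) (c + 1)) hpz ?_ ?_
        · apply mem_dart (f := [pp N (r' + 1) (c + 1), hy N (r' + 1) (c + 1), uu r' (c + 1)])
            (mem_leftF (r := r') (c := c + 1) hb2 hc1 (by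
              unfold leftFaces
              rw [if_neg (by omega)]
              simp))
          simp [dartsOf, List.rotate]
        · refine Esc.step _ _ hyz (A.y (r' + 1) (c + 1) hb1 hb2 hc1).2.2.2.2.1 ?_
          refine Esc.step _ _ hcz (A.c (r' + 1) (c + 1) hb1 hb2 hc1).2.2.2 ?_
          exact Esc.mono (fun _ _ h => h) Rt.zr_succ (le_refl _)
            (ih (c + 1) (by omega) hc1 (r' + 1) hb1 hb2)
  intro b c h1 h2 h3
  exact ⟨Esc.step _ _ (Rt.zr_hc h1 h2) (A.c b c h1 h2 h3).2.2.2 (key _ c rfl h3 b h1 h2),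
    Esc.step _ _ (Rt.zr_hd h1 h2) (A.d b c h1 h2 h3).2.2.2 (key _ c rfl h3 b h1 h2)⟩

/-! ### Closed sets -/

theorem noClosed (hN : 2 ≤ N) (hM : 1 ≤ M)
    (hs : ∀ d ∈ (grid N M B).darts, d.swap ∈ (grid N M B).darts)
    (hF : ∀ (X : Set VX) (e₁ e₂ : VX), Closed (grid N M B) (Dt (grid N M B)) X e₁ e₂ →
      ∀ f ∈ gridFaces N M B, ¬ ∀ v ∈ f, v ∈ X) : NoClosed (grid N M B) := by
  intro X e₁ e₂ hX v hv h1 h2 hV
  have hstep := hX.step v hv h1 h2
  have hsus := hX.susp v hv h1 h2
  have tri : ∀ v, v ∈ X → v ≠ e₁ → v ≠ e₂ → OnTri N M B v → False := by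
    intro v hv h1 h2 hT
    have hstep := hX.step v hv h1 h2
    obtain ⟨f, hf, h3, hvf⟩ := hT
    obtain ⟨x, y, z, rfl⟩ := List.length_eq_three.mp h3
    have dxy : (x, y) ∈ (grid N M B).darts := mem_dart hf (by simp [dartsOf, List.rotate])
    have dyz : (y, z) ∈ (grid N M B).darts := mem_dart hf (by simp [dartsOf, List.rotate])
    have dzx : (z, x) ∈ (grid N M B).darts := mem_dart hf (by simp [dartsOf, List.rotate])
    apply hF X e₁ e₂ hX _ hf
    simp only [List.mem_cons, List.not_mem_nil, or_false] at hvf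
    rcases hvf with rfl | rfl | rfl
    · intro u hu
      simp only [List.mem_cons, List.not_mem_nil, or_false] at hu
      rcases hu with rfl | rfl | rfl
      · exact hv
      · exact hstep _ dxy
      · exact hstep _ (hs _ dzx)
    · intro u hu
      simp only [List.mem_cons, List.not_mem_nil, or_false] at hu
      rcases hu with rfl | rfl | rfl
      · exact hstep _ (hs _ dxy)
      · exact hv
      · exact hstep _ dyz
    · intro u hu
      simp only [List.mem_cons, List.not_mem_nil, or_false] at hu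
      rcases hu with rfl | rfl | rfl
      · exact hstep _ dzx
      · exact hstep _ (hs _ dyz)
      · exact hv
  obtain ⟨w, hw⟩ := hV
  have hgood : Good N M B v := by
    rcases mem_gridDarts.mp hw with h | ⟨f, hf, h⟩
    · have := (dart_mem h).1
      simp only [List.mem_cons, List.not_mem_nil, or_false] at this
      exact Or.inl (by tauto)
    · exact good_face hN hM f hf v (dart_mem h).1
  rcases hgood with h | h | h
  · rcases h with h | h | h
    · exact hsus.1 h
    · exact hsus.2.1 h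
    · exact hsus.2.2 h
  · -- the corner vertex
    subst h
    have hm : [uu 0 0, nd 0 0 1, nd 0 0 2, xx 0 0, nd 0 0 3, nd 0 0 4] ∈ gridFaces N M B := by
      apply mem_rail (r := 0) (c := 0) (by omega) (by omega)
      simp [railFaces, tileA, tile]
    have hm' : [uu 0 0, nd 0 0 19, nd 0 0 20, uu 1 0, nd 0 0 21, nd 0 0 22] ∈
        gridFaces N M B := by
      apply mem_leftF (r := 0) (c := 0) (by omega) (by omega)
      simp [leftFaces, tile]
    have d1 : (uu 0 0, nd 0 0 1) ∈ (grid N M B).darts :=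
      mem_dart hm (by simp [dartsOf, List.rotate])
    have d4 : (nd 0 0 4, uu 0 0) ∈ (grid N M B).darts :=
      mem_dart hm (by simp [dartsOf, List.rotate])
    have d19 : (uu 0 0, nd 0 0 19) ∈ (grid N M B).darts :=
      mem_dart hm' (by simp [dartsOf, List.rotate])
    have m1 := hstep _ d1
    have m4 := hstep _ (hs _ d4)
    have m19 := hstep _ d19
    have t1 : OnTri N M B (nd 0 0 1) := tri_tA (j := 1) (by omega) (by omega) (by omega)
    have t4 : OnTri N M B (nd 0 0 4) := tri_tA (j := 4) (by omega) (by omega) (by omega)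
    have t19 : OnTri N M B (nd 0 0 19) := tri_tV (j := 1) rfl (by omega) hM (by omega)
    have n14 : nd 0 0 1 ≠ nd 0 0 4 := by simp [nd]
    have n119 : nd 0 0 1 ≠ nd 0 0 19 := by simp [nd]
    have n419 : nd 0 0 4 ≠ nd 0 0 19 := by simp [nd]
    by_cases a1 : nd 0 0 1 = e₁
    · by_cases a4 : nd 0 0 4 = e₂
      · exact tri _ m19 (fun h => n119 (a1.trans h.symm)) (fun h => n419 (a4.trans h.symm)) t19
      · exact tri _ m4 (fun h => n14 (a1.trans h.symm)) a4 t4
    · by_cases a2 : nd 0 0 1 = e₂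
      · by_cases a4 : nd 0 0 4 = e₁
        · exact tri _ m19 (fun h => n419 (a4.trans h.symm)) (fun h => n119 (a2.trans h.symm)) t19
        · exact tri _ m4 a4 (fun h => n14 (a2.trans h.symm)) t4
      · exact tri _ m1 a1 a2 t1
  · exact tri v hv h1 h2 h

end Cn

open Cn in
/-- E-CONN -/
theorem tConn (hF : TFlats) (hA : TArcs) (hH : THubs) (hFa : TFaces) (_hW : TWalk) (hC : TCoord)
    (hCh : TChain) (hD : TDraw) : TConn := by
  intro N M B hN hev hM
  obtain ⟨R, hP⟩ : ∃ R : ℕ → Bool, Paired N R := by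
    refine ⟨fun r => decide (r % 2 = 0), ?_⟩
    intro r h1 _
    have h2 : ¬ ((r + 1) % 2 = 0) := by omega
    simp [h1, h2]
  obtain ⟨p, hp⟩ := hC N M B hN hM
  obtain ⟨D, _⟩ := hD (grid N M B) p ⟨rfl, by simp [grid, gridFaces], hCh N M B hN hM, hp⟩
  have hs := D.symm
  have F := hF N M B R hN hev hM hP
  have A : Arcs N M B R (Dt (grid N M B)) :=
    arcs_conv hN hM (hA N M B R hN hev hM hP) fun v w hv h => sup_dart hs F hv h
  have hE := rightEsc_darts A
  have o1 : (s1, s3) ∈ (grid N M B).darts :=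
    mem_gridDarts.mpr (Or.inl (by simp [dartsOf, List.rotate]))
  have o2 : (s3, s2) ∈ (grid N M B).darts :=
    mem_gridDarts.mpr (Or.inl (by simp [dartsOf, List.rotate]))
  have o3 : (s2, s1) ∈ (grid N M B).darts :=
    mem_gridDarts.mpr (Or.inl (by simp [dartsOf, List.rotate]))
  refine conn_of hs (hs _ o3) (hs _ o2) (hs _ o1) (noClosed hN hM hs ?_)
  intro X e₁ e₂ hX
  exact hFa N M B R _ hN hev hM hP A X e₁ e₂ hX
    (hH N M B R _ hN hev hM hP A hE X e₁ e₂ hX)

end Pool.Agent.SLN
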