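import Pool.Agent.SLN.Lib

set_option autoImplicit false

/-!
# F-COORD: coordinates of the grid
-/

namespace Pool.Agent.SLN

open Pool.Agent.PAH (Plane det3 FanPos)

namespace Crd

/-- horizontal offsets -/
def ox : ℕ → ℝ
  | 3 => 0 | 4 => 36 | 5 => 72 | 6 => 20 | 7 => 60 | 8 => 60 | 9 => -24 | 10 => 48 | 11 => 48
  | 12 => 18 | 13 => 12 | 14 => 24 | 15 => 24 | 16 => 12 | 17 => 18
  | 18 => 54 | 19 => 48 | 20 => 60 | 21 => 60 | 22 => 48 | 23 => 54
  | 24 => 96 | 25 => 88 | 26 => 104 | 27 => 104 | 28 => 88 | 29 => 96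
  | 30 => -2 | 31 => -1 | 32 => -1 | 33 => 1 | 34 => 1 | 35 => 2
  | 36 => 68 | 37 => 79 | 38 => 63 | 39 => 40 | 40 => 45 | 41 => 45
  | 42 => 68 | 43 => 63 | 44 => 79
  | _ => 0

/-- vertical offsets -/
def oy : ℕ → ℝ
  | 3 => 0 | 4 => 0 | 5 => 0 | 6 => 24 | 7 => 36 | 8 => 12 | 9 => 24 | 10 => 28 | 11 => 20
  | 12 => -2 | 13 => -1 | 14 => -1 | 15 => 1 | 16 => 1 | 17 => 2
  | 18 => -2 | 19 => -1 | 20 => -1 | 21 => 1 | 22 => 1 | 23 => 2
  | 24 => -2 | 25 => -1 | 26 => -1 | 27 => 1 | 28 => 1 | 29 => 2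
  | 30 => -24 | 31 => -16 | 32 => -32 | 33 => -32 | 34 => -16 | 35 => -24
  | 36 => 29 | 37 => 27 | 38 => 28 | 39 => 24 | 40 => 26 | 41 => 22
  | 42 => 19 | 43 => 20 | 44 => 21
  | _ => 0

/-- positions -/
noncomputable def pos (L : ℝ) (v : VX) : Plane :=
  if v.2.2 = 0 then (-L, L) else if v.2.2 = 1 then (-L, -L) else if v.2.2 = 2 then (3 * L, 0)
  else (120 * (v.2.1 : ℝ) + ox v.2.2, -48 * (v.1 : ℝ) + oy v.2.2)

variable {L : ℝ}

theorem pos_s1 : pos L s1 = (-L, L) := by simp [pos, s1]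
theorem pos_s2 : pos L s2 = (-L, -L) := by simp [pos, s2]
theorem pos_s3 : pos L s3 = (3 * L, 0) := by simp [pos, s3]
theorem pos_uu (r j : ℕ) : pos L (uu r j) = (120 * (j : ℝ), -48 * (r : ℝ)) := by
  simp [pos, uu, ox, oy]
theorem pos_xx (r j : ℕ) : pos L (xx r j) = (120 * (j : ℝ) + 36, -48 * (r : ℝ)) := by
  simp [pos, xx, ox, oy]
theorem pos_qq (r j : ℕ) : pos L (qq r j) = (120 * (j : ℝ) + 72, -48 * (r : ℝ)) := by
  simp [pos, qq, ox, oy]
theorem pos_vv (r j : ℕ) : pos L (vv r j) = (120 * (j : ℝ) + 48, -48 * (r : ℝ) + 28) := by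
  simp [pos, vv, ox, oy]
theorem pos_ww (r j : ℕ) : pos L (ww r j) = (120 * (j : ℝ) + 48, -48 * (r : ℝ) + 20) := by
  simp [pos, ww, ox, oy]
theorem pos_6 (r j : ℕ) : pos L (r, j, 6) = (120 * (j : ℝ) + 20, -48 * (r : ℝ) + 24) := by
  simp [pos, ox, oy]
theorem pos_7 (r j : ℕ) : pos L (r, j, 7) = (120 * (j : ℝ) + 60, -48 * (r : ℝ) + 36) := by
  simp [pos, ox, oy]
theorem pos_8 (r j : ℕ) : pos L (r, j, 8) = (120 * (j : ℝ) + 60, -48 * (r : ℝ) + 12) := by
  simp [pos, ox, oy]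
theorem pos_9 (r j : ℕ) : pos L (r, j, 9) = (120 * (j : ℝ) - 24, -48 * (r : ℝ) + 24) := by
  simp [pos, ox, oy]; ring
theorem pos_nd (r j i : ℕ) :
    pos L (nd r j i) = (120 * (j : ℝ) + ox (12 + i), -48 * (r : ℝ) + oy (12 + i)) := by
  unfold pos nd
  dsimp only
  rw [if_neg (by omega), if_neg (by omega), if_neg (by omega)]

section fans
variable {p : VX → Plane}

theorem fan3 (a b c : VX) : FanPos p [a, b, c] ↔ 0 < det3 (p a) (p b) (p c) := by
  simp [FanPos]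
theorem fan4 (a b c d : VX) : FanPos p [a, b, c, d] ↔
    0 < det3 (p a) (p b) (p c) ∧ 0 < det3 (p a) (p c) (p d) := by
  simp [FanPos]
theorem fan6 (a b c d e f : VX) : FanPos p [a, b, c, d, e, f] ↔
    0 < det3 (p a) (p b) (p c) ∧ 0 < det3 (p a) (p c) (p d) ∧ 0 < det3 (p a) (p d) (p e) ∧
      0 < det3 (p a) (p e) (p f) := by
  simp [FanPos]
theorem fan9 (a b c d e f g h i : VX) : FanPos p [a, b, c, d, e, f, g, h, i] ↔
    0 < det3 (p a) (p b) (p c) ∧ 0 < det3 (p a) (p c) (p d) ∧ 0 < det3 (p a) (p d) (p e) ∧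
      0 < det3 (p a) (p e) (p f) ∧ 0 < det3 (p a) (p f) (p g) ∧ 0 < det3 (p a) (p g) (p h) ∧
      0 < det3 (p a) (p h) (p i) := by
  simp [FanPos]

/-- the determinants of a prism -/
def PrismPos (p : VX → Plane) (s b t n4 n5 n6 : VX) : Prop :=
  0 < det3 (p s) (p b) (p n4) ∧ 0 < det3 (p s) (p n4) (p n5) ∧ 0 < det3 (p n4) (p b) (p t) ∧
    0 < det3 (p n4) (p t) (p n6) ∧ 0 < det3 (p n5) (p n4) (p n6)

theorem prism_fan {s b t n4 n5 n6 : VX} (h : PrismPos p s b t n4 n5 n6) :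
    ∀ f ∈ prism s b t n4 n5 n6, FanPos p f := by
  obtain ⟨h1, h2, h3, h4, h5⟩ := h
  intro f hf
  simp only [prism, List.mem_cons, List.not_mem_nil, or_false] at hf
  rcases hf with rfl | rfl | rfl
  · exact (fan4 _ _ _ _).2 ⟨h1, h2⟩
  · exact (fan4 _ _ _ _).2 ⟨h3, h4⟩
  · exact (fan3 _ _ _).2 h5

theorem tile_fan {a b c d : VX} {r k i : ℕ}
    (h1 : PrismPos p a b c (nd r k i) (nd r k (i + 1)) (nd r k (i + 2)))
    (h2 : PrismPos p c d a (nd r k (i + 5)) (nd r k (i + 3)) (nd r k (i + 4)))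
    (h3 : 0 < det3 (p a) (p (nd r k (i + 1))) (p (nd r k (i + 2))))
    (h4 : 0 < det3 (p a) (p (nd r k (i + 2))) (p c))
    (h5 : 0 < det3 (p a) (p c) (p (nd r k (i + 3))))
    (h6 : 0 < det3 (p a) (p (nd r k (i + 3))) (p (nd r k (i + 4)))) :
    ∀ f ∈ tile a b c d r k i, FanPos p f := by
  intro f hf
  simp only [tile, List.mem_append, List.mem_cons, List.not_mem_nil, or_false] at hf
  rcases hf with (hf | hf) | rfl
  · exact prism_fan h1 f hf
  · exact prism_fan h2 f hf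
  · exact (fan6 _ _ _ _ _ _).2 ⟨h3, h4, h5, h6⟩

end fans

section tiles
variable {N M : ℕ}

theorem tileA_pos (hN : 2 ≤ N) (hL : 10 * (120 * (M : ℝ) + 48 * N) + 1000 ≤ L) {r c : ℕ}
    (hr : r < N) (hc : c < M) : ∀ f ∈ tileA N r c, FanPos (pos L) f := by
  have h1 : (r : ℝ) + 1 ≤ N := by exact_mod_cast hr
  have h2 : (c : ℝ) + 1 ≤ M := by exact_mod_cast hc
  have h3 : (0 : ℝ) ≤ r := Nat.cast_nonneg r
  have h4 : (0 : ℝ) ≤ c := Nat.cast_nonneg c
  have e1 : hy N (r + 1) c = s2 ∨ hy N (r + 1) c = (r + 1, c, 6) := by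
    rcases Nat.lt_or_ge (r + 1) N with h | h
    · exact Or.inr (hy_of (by omega) h)
    · obtain rfl : N = r + 1 := by omega
      exact Or.inl (hy_last c hN)
  have e2 : hy N r c = s1 ∨ hy N r c = (r, c, 6) := by
    rcases Nat.eq_zero_or_pos r with rfl | h
    · exact Or.inl (hy_zero N c)
    · exact Or.inr (hy_of h hr)
  unfold tileA
  apply tile_fan
  · rcases e1 with e | e <;> rw [e] <;>
    simp only [PrismPos, det3, pos_s1, pos_s2, pos_s3, pos_uu, pos_xx, pos_qq, pos_6, pos_7, pos_8,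
      pos_9, pos_nd, ox, oy, Nat.cast_add, Nat.cast_one] <;>
    refine ⟨?_, ?_, ?_, ?_, ?_⟩ <;> linarith
  · rcases e2 with e | e <;> rw [e] <;>
    simp only [PrismPos, det3, pos_s1, pos_s2, pos_s3, pos_uu, pos_xx, pos_qq, pos_6, pos_7, pos_8,
      pos_9, pos_nd, ox, oy, Nat.cast_add, Nat.cast_one] <;>
    refine ⟨?_, ?_, ?_, ?_, ?_⟩ <;> linarith
  all_goals
    simp only [det3, pos_uu, pos_xx, pos_qq, pos_nd, ox, oy]
    linarith

theorem hc_cases (hN : 2 ≤ N) {r : ℕ} (hr : r < N) (c : ℕ) :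
    hc N (r + 1) c = s2 ∨ hc N (r + 1) c = (r + 1, c, 7) := by
  rcases Nat.lt_or_ge (r + 1) N with h | h
  · exact Or.inr (hc_of (by omega) h)
  · obtain rfl : N = r + 1 := by omega
    exact Or.inl (hc_last c hN)

theorem hd_cases {r : ℕ} (hr : r < N) (c : ℕ) : hd N r c = s1 ∨ hd N r c = (r, c, 8) := by
  rcases Nat.eq_zero_or_pos r with rfl | h
  · exact Or.inl (hd_zero N c)
  · exact Or.inr (hd_of h hr)

theorem pp_cases_low (hN : 2 ≤ N) {r : ℕ} (hr : r < N) (c : ℕ) :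
    pp N (r + 1) (c + 1) = s2 ∨ pp N (r + 1) (c + 1) = (r + 1, c + 1, 9) := by
  rcases Nat.lt_or_ge (r + 1) N with h | h
  · exact Or.inr (pp_of (by omega) h)
  · obtain rfl : N = r + 1 := by omega
    exact Or.inl (pp_last c hN)

theorem pp_cases_up {r : ℕ} (hr : r < N) (c : ℕ) :
    pp N r (c + 1) = s1 ∨ pp N r (c + 1) = (r, c + 1, 9) := by
  rcases Nat.eq_zero_or_pos r with rfl | h
  · exact Or.inl (pp_zero N _)
  · exact Or.inr (pp_of h hr)

theorem tileB_pos (hN : 2 ≤ N) (hL : 10 * (120 * (M : ℝ) + 48 * N) + 1000 ≤ L) {r c : ℕ}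
    (hr : r < N) (hc : c < M) : ∀ f ∈ tileB N r c, FanPos (pos L) f := by
  have h1 : (r : ℝ) + 1 ≤ N := by exact_mod_cast hr
  have h2 : (c : ℝ) + 1 ≤ M := by exact_mod_cast hc
  have h3 : (0 : ℝ) ≤ r := Nat.cast_nonneg r
  have h4 : (0 : ℝ) ≤ c := Nat.cast_nonneg c
  unfold tileB
  apply tile_fan
  · rcases hc_cases hN hr c with e | e <;> rw [e] <;>
    simp only [PrismPos, det3, pos_s1, pos_s2, pos_s3, pos_uu, pos_xx, pos_qq, pos_6, pos_7, pos_8,
      pos_9, pos_nd, ox, oy, Nat.cast_add, Nat.cast_one] <;>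
    refine ⟨?_, ?_, ?_, ?_, ?_⟩ <;> linarith
  · rcases hd_cases hr c with e | e <;> rw [e] <;>
    simp only [PrismPos, det3, pos_s1, pos_s2, pos_s3, pos_uu, pos_xx, pos_qq, pos_6, pos_7, pos_8,
      pos_9, pos_nd, ox, oy, Nat.cast_add, Nat.cast_one] <;>
    refine ⟨?_, ?_, ?_, ?_, ?_⟩ <;> linarith
  all_goals
    simp only [det3, pos_uu, pos_xx, pos_qq, pos_nd, ox, oy]
    linarith

theorem tileW_pos (hN : 2 ≤ N) (hL : 10 * (120 * (M : ℝ) + 48 * N) + 1000 ≤ L) {r c : ℕ}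
    (hr : r < N) (hc : c < M) : ∀ f ∈ tileW N r c, FanPos (pos L) f := by
  have h1 : (r : ℝ) + 1 ≤ N := by exact_mod_cast hr
  have h2 : (c : ℝ) + 1 ≤ M := by exact_mod_cast hc
  have h3 : (0 : ℝ) ≤ r := Nat.cast_nonneg r
  have h4 : (0 : ℝ) ≤ c := Nat.cast_nonneg c
  unfold tileW
  apply tile_fan
  · rcases pp_cases_low hN hr c with e | e <;> rw [e] <;>
    simp only [PrismPos, det3, pos_s1, pos_s2, pos_s3, pos_uu, pos_xx, pos_qq, pos_6, pos_7, pos_8,
      pos_9, pos_nd, ox, oy, Nat.cast_add, Nat.cast_one] <;>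
    refine ⟨?_, ?_, ?_, ?_, ?_⟩ <;> linarith
  · rcases pp_cases_up hr c with e | e <;> rw [e] <;>
    simp only [PrismPos, det3, pos_s1, pos_s2, pos_s3, pos_uu, pos_xx, pos_qq, pos_6, pos_7, pos_8,
      pos_9, pos_nd, ox, oy, Nat.cast_add, Nat.cast_one] <;>
    refine ⟨?_, ?_, ?_, ?_, ?_⟩ <;> linarith
  all_goals
    simp only [det3, pos_uu, pos_xx, pos_qq, pos_nd, ox, oy, Nat.cast_add, Nat.cast_one]
    linarith

theorem thin_pos (hN : 2 ≤ N) (hL : 10 * (120 * (M : ℝ) + 48 * N) + 1000 ≤ L) {r c : ℕ}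
    (hr : r < N) (hc : c < M) : ∀ f ∈ thin N r c, FanPos (pos L) f := by
  have h1 : (r : ℝ) + 1 ≤ N := by exact_mod_cast hr
  have h2 : (c : ℝ) + 1 ≤ M := by exact_mod_cast hc
  have h3 : (0 : ℝ) ≤ r := Nat.cast_nonneg r
  have h4 : (0 : ℝ) ≤ c := Nat.cast_nonneg c
  intro f hf
  simp only [thin, List.mem_cons, List.not_mem_nil, or_false] at hf
  subst hf
  rw [fan4]
  constructor
  · rcases pp_cases_low hN hr c with e | e <;> rw [e] <;>
    simp only [det3, pos_s2, pos_uu, pos_qq, pos_9, Nat.cast_add, Nat.cast_one] <;>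
    linarith
  · rcases pp_cases_up hr c with e | e <;> rw [e] <;>
    simp only [det3, pos_s1, pos_uu, pos_qq, pos_9, Nat.cast_add, Nat.cast_one] <;>
    linarith

theorem left_pos (hN : 2 ≤ N) (hL : 10 * (120 * (M : ℝ) + 48 * N) + 1000 ≤ L) {r c : ℕ}
    (hr : r + 1 < N) (hc : c < M) : ∀ f ∈ leftFaces N r c, FanPos (pos L) f := by
  have h1 : (r : ℝ) + 2 ≤ N := by exact_mod_cast hr
  have h2 : (c : ℝ) + 1 ≤ M := by exact_mod_cast hc
  have h3 : (0 : ℝ) ≤ r := Nat.cast_nonneg r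
  have h4 : (0 : ℝ) ≤ c := Nat.cast_nonneg c
  unfold leftFaces
  split_ifs with hh
  · obtain ⟨rfl, -⟩ := hh
    rw [hy_of (by omega) hr]
    apply tile_fan
    · simp only [PrismPos, det3, pos_s1, pos_s2, pos_s3, pos_uu, pos_xx, pos_qq, pos_6, pos_7,
        pos_8, pos_9, pos_nd, ox, oy, Nat.cast_add, Nat.cast_one, Nat.cast_zero]
      refine ⟨?_, ?_, ?_, ?_, ?_⟩ <;> linarith
    · simp only [PrismPos, det3, pos_s1, pos_s2, pos_s3, pos_uu, pos_xx, pos_qq, pos_6, pos_7,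
        pos_8, pos_9, pos_nd, ox, oy, Nat.cast_add, Nat.cast_one, Nat.cast_zero]
      refine ⟨?_, ?_, ?_, ?_, ?_⟩ <;> linarith
    all_goals
      simp only [det3, pos_uu, pos_xx, pos_qq, pos_nd, ox, oy, Nat.cast_add, Nat.cast_one]
      linarith
  · have e : pp N (r + 1) c = s1 ∨ pp N (r + 1) c = (r + 1, c, 9) := by
      rcases c with _ | c
      · exact Or.inl (pp_border N _)
      · exact Or.inr (pp_of (by omega) hr)
    rw [hy_of (by omega) hr]
    intro f hf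
    simp only [List.mem_cons, List.not_mem_nil, or_false] at hf
    rcases hf with rfl | rfl <;> rw [fan3] <;> rcases e with e | e <;> rw [e] <;>
      simp only [det3, pos_s1, pos_uu, pos_6, pos_9, Nat.cast_add, Nat.cast_one] <;> linarith

theorem mid_pos (L : ℝ) {r : ℕ} (hr : r + 1 < N) (c : ℕ) :
    ∀ f ∈ midFaces N r c, FanPos (pos L) f := by
  unfold midFaces
  rw [hy_of (by omega) hr, hc_of (by omega) hr, hd_of (by omega) hr, pp_of (by omega) hr]
  intro f hf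
  simp only [List.mem_cons, List.not_mem_nil, or_false] at hf
  rcases hf with rfl | rfl | rfl | rfl | rfl | rfl <;> rw [fan3] <;>
    simp only [det3, pos_uu, pos_xx, pos_qq, pos_vv, pos_ww, pos_6, pos_7, pos_8, pos_9,
      Nat.cast_add, Nat.cast_one] <;> linarith

theorem dead_pos (L : ℝ) {b : ℕ} (hb : 1 ≤ b) (hb' : b < N) (c : ℕ) :
    ∀ f ∈ deadFaces N b c, FanPos (pos L) f := by
  unfold deadFaces centre
  rw [hy_of hb hb', hc_of hb hb', hd_of hb hb', pp_of hb hb']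
  intro f hf
  simp only [List.mem_append, List.mem_cons, List.not_mem_nil, or_false] at hf
  rcases hf with ((hf | hf) | hf) | rfl
  · refine prism_fan ?_ f hf
    simp only [PrismPos, det3, pos_vv, pos_ww, pos_6, pos_7, pos_8, pos_9, pos_nd, ox, oy,
      Nat.cast_add, Nat.cast_one]
    refine ⟨?_, ?_, ?_, ?_, ?_⟩ <;> linarith
  · refine prism_fan ?_ f hf
    simp only [PrismPos, det3, pos_vv, pos_ww, pos_6, pos_7, pos_8, pos_9, pos_nd, ox, oy,
      Nat.cast_add, Nat.cast_one]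
    refine ⟨?_, ?_, ?_, ?_, ?_⟩ <;> linarith
  · refine prism_fan ?_ f hf
    simp only [PrismPos, det3, pos_vv, pos_ww, pos_6, pos_7, pos_8, pos_9, pos_nd, ox, oy,
      Nat.cast_add, Nat.cast_one]
    refine ⟨?_, ?_, ?_, ?_, ?_⟩ <;> linarith
  · rw [fan9]
    simp only [det3, pos_vv, pos_ww, pos_6, pos_7, pos_8, pos_9, pos_nd, ox, oy,
      Nat.cast_add, Nat.cast_one]
    refine ⟨?_, ?_, ?_, ?_, ?_, ?_, ?_⟩ <;> linarith

theorem right_pos (hN : 2 ≤ N) (hM : 1 ≤ M) (hL : 10 * (120 * (M : ℝ) + 48 * N) + 1000 ≤ L)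
    {r : ℕ} (hr : r < N) : ∀ f ∈ rightFaces N M r, FanPos (pos L) f := by
  obtain ⟨m, rfl⟩ : ∃ m, M = m + 1 := ⟨M - 1, by omega⟩
  have h1 : (r : ℝ) + 1 ≤ N := by exact_mod_cast hr
  have h3 : (0 : ℝ) ≤ r := Nat.cast_nonneg r
  have h4 : (0 : ℝ) ≤ m := Nat.cast_nonneg m
  rw [Nat.cast_add, Nat.cast_one] at hL
  have hL0 : 0 < L := by linarith
  intro f hf
  simp only [rightFaces, List.mem_cons, List.not_mem_nil, or_false] at hf
  rcases hf with rfl | rfl
  · rw [fan3]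
    rcases pp_cases_low hN hr m with e | e <;> rw [e]
    · simp only [det3, pos_s2, pos_s3, pos_uu, Nat.cast_add, Nat.cast_one]
      have := mul_pos hL0 (show 0 < 3 * L - 120 * (m + 1) - 192 * (r : ℝ) by linarith)
      linarith
    · simp only [det3, pos_s3, pos_uu, pos_9, Nat.cast_add, Nat.cast_one]
      linarith
  · rw [fan3]
    rcases pp_cases_up hr m with e | e <;> rw [e]
    · simp only [det3, pos_s1, pos_s3, pos_uu, Nat.cast_add, Nat.cast_one]
      have := mul_pos hL0 (show 0 < 3 * L - 120 * (m + 1) + 192 * (r : ℝ) by linarith)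
      linarith
    · simp only [det3, pos_s3, pos_uu, pos_9, Nat.cast_add, Nat.cast_one]
      linarith

end tiles

end Crd

open Crd in
/-- F-COORD -/
theorem tCoord : TCoord := by
  intro N M B hN hM
  refine ⟨pos (10 * (120 * (M : ℝ) + 48 * N) + 1000), ?_⟩
  set L : ℝ := 10 * (120 * (M : ℝ) + 48 * N) + 1000 with hLdef
  have hL : 10 * (120 * (M : ℝ) + 48 * N) + 1000 ≤ L := le_of_eq hLdef.symm
  intro f hf
  rcases mem_gridFaces.1 hf with rfl | ⟨c, hc, r, hr, hf⟩ | ⟨c, hc, r, hr, hf⟩ | ⟨r, hr, hf⟩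
  · rw [fan3]
    simp only [det3, pos_s1, pos_s2, pos_uu, Nat.cast_zero]
    have h0 : 0 < L := by
      rw [hLdef]; positivity
    have := mul_pos h0 h0
    linarith
  · unfold railFaces at hf
    rw [List.mem_append, List.mem_append] at hf
    rcases hf with (hf | hf) | hf
    · exact tileA_pos hN hL hr hc f hf
    · exact tileB_pos hN hL hr hc f hf
    · split_ifs at hf
      · exact tileW_pos hN hL hr hc f hf
      · exact thin_pos hN hL hr hc f hf
  · unfold bandFaces at hf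
    rw [List.mem_append, List.mem_append] at hf
    rcases hf with (hf | hf) | hf
    · exact left_pos hN hL hr hc f hf
    · exact mid_pos L hr c f hf
    · exact dead_pos L (by omega) hr c f hf
  · exact right_pos hN hM hL hr f hf

end Pool.Agent.SLN
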