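import Pool.Agent.SLN.Targets
import Pool.Agent.PAH.Final

set_option autoImplicit false

/-!
# G-DRAW: positively oriented fans give a drawing
-/

namespace Pool.Agent.SLN

open Pool.Agent.PAH (Plane det3 ccwAngle LiesLeft dartsOf cornersOf ChainEq FanPos)

namespace DRAW_

variable {V : Type}

/-- the corresponding face map, with all areas one -/
def toFM (G : PlaneMap V) : PAH.FaceMap V := ⟨G.outer, G.inner.map fun f => (f, 1)⟩

theorem toFM_inner_fst (G : PlaneMap V) : (toFM G).inner.map Prod.fst = G.inner := by
  unfold toFM
  simp [List.map_map, Function.comp_def]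

theorem toFM_walks (G : PlaneMap V) : (toFM G).walks = G.walks := by
  unfold PAH.FaceMap.walks PlaneMap.walks
  rw [toFM_inner_fst]
  rfl

theorem toFM_darts (G : PlaneMap V) : (toFM G).darts = G.darts := by
  unfold PAH.FaceMap.darts PlaneMap.darts
  rw [toFM_walks]

theorem toFM_drawn (G : PlaneMap V) (p : V → Plane) : (toFM G).drawn p = G.drawn p := by
  unfold PAH.FaceMap.drawn PlaneMap.drawn
  rw [toFM_darts]

theorem isFace_of {G : PlaneMap V} {p : V → Plane} {w : List V} {R : Set Plane}
    (h : PAH.IsFace (toFM G) p w R) : IsFace G p w R := by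
  refine ⟨?_, h.left⟩
  have h1 := h.component
  rwa [toFM_drawn] at h1

theorem toFM_length (G : PlaneMap V) : (toFM G).inner.length = G.inner.length := by
  unfold toFM
  simp

theorem toFM_get (G : PlaneMap V) (i : Fin G.inner.length) :
    ((toFM G).inner.get (Fin.cast (toFM_length G).symm i)).1 = G.inner.get i := by
  unfold toFM
  simp

/-- a drawing of the face map is a drawing of the plane map -/
def ofFM {G : PlaneMap V} (D : PAH.Drawing (toFM G)) : Drawing G where
  pos := D.pos
  nodup := by
    have h := D.nodup
    rwa [toFM_darts] at h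
  symm := by
    have h := D.symm
    rwa [toFM_darts] at h
  loopless := by
    have h := D.loopless
    rwa [toFM_darts] at h
  inj := by
    have h := D.inj
    rwa [toFM_darts] at h
  noncrossing := by
    have h := D.noncrossing
    rwa [toFM_darts] at h
  rotation := by
    have h := D.rotation
    rwa [toFM_darts, toFM_walks] at h
  outerFace := D.outerFace
  face := fun i => D.face (Fin.cast (toFM_length G).symm i)
  outer_isFace := isFace_of D.outer_isFace
  outer_unbounded := D.outer_unbounded
  face_isFace := by
    intro i
    have h := isFace_of (D.face_isFace (Fin.cast (toFM_length G).symm i))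
    rwa [toFM_get] at h
  face_bounded := fun i => D.face_bounded _
  face_inj := fun i j h => (Fin.cast_injective _) (D.face_inj h)

/-- the face of the drawing with index `i` -/
theorem ofFM_face {G : PlaneMap V} (D : PAH.Drawing (toFM G)) (i : Fin G.inner.length) :
    (ofFM D).face i = D.face (Fin.cast (toFM_length G).symm i) := rfl

end DRAW_

open DRAW_ in
/-- G-DRAW -/
theorem tDraw : TDraw := by
  intro V G p h
  obtain ⟨D, hD⟩ := PAH.tDrawing (toFM G) p G.s₁ G.s₂ G.s₃ h.outer_eq
    (by
      have h1 := h.ne
      unfold toFM
      simpa using h1)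
    (by
      rw [toFM_inner_fst]
      exact h.chain)
    (by
      intro f hf
      have h1 : f.1 ∈ G.inner := by
        rw [← toFM_inner_fst G]
        exact List.mem_map_of_mem hf
      exact h.fan _ h1)
  exact ⟨ofFM D, hD⟩

end Pool.Agent.SLN
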