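import Pool.Agent.SLN.Cyc
import Pool.Agent.PAH.Cover
import Pool.Agent.PAH.Planarity
import Pool.Agent.PAH.YDarts
import Pool.Agent.PAH.Rot

set_option autoImplicit false

/-!
# G-EULER: Euler's formula for maps with positively oriented fans
-/

namespace Pool.Agent.SLN

open Pool.Agent.PAH (Plane det3 ccwAngle LiesLeft dartsOf cornersOf ChainEq FanPos fanTris triDarts)

namespace EUL_

variable {V : Type}

/-- the corresponding face map, with all areas one -/
def toFM (G : PlaneMap V) : PAH.FaceMap V := ⟨G.outer, G.inner.map fun f => (f, 1)⟩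

theorem toFM_inner_fst (G : PlaneMap V) : (toFM G).inner.map Prod.fst = G.inner := by
  unfold toFM
  simp [List.map_map, Function.comp_def]

theorem mem_toFM {G : PlaneMap V} {f : List V} (hf : f ∈ G.inner) : (f, 1) ∈ (toFM G).inner :=
  List.mem_map.2 ⟨f, hf, rfl⟩

theorem toFM_mem {G : PlaneMap V} {f : List V × ℚ} (hf : f ∈ (toFM G).inner) : f.1 ∈ G.inner := by
  rw [← toFM_inner_fst G]
  exact List.mem_map_of_mem hf

theorem toFM_tris (G : PlaneMap V) : (toFM G).tris = G.inner.flatMap fanTris := by
  unfold PAH.FaceMap.tris toFM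
  simp [List.flatMap_map]

theorem dartsOf_length (f : List V) : (dartsOf f).length = f.length := by
  unfold dartsOf
  rw [List.length_zip, List.length_rotate, min_self]

theorem fan_len {p : V → Plane} {f : List V} (h : FanPos p f) :
    (fanTris f).length + 2 = f.length := by
  cases f with
  | nil => exact absurd h (by simp [FanPos])
  | cons v l =>
    have h2 : 2 ≤ l.length := h.1
    rw [PAH.Rot.fan_length, List.length_cons]
    omega

theorem sum_len {p : V → Plane} (L : List (List V)) (h : ∀ f ∈ L, FanPos p f) :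
    (L.flatMap fanTris).length + 2 * L.length = (L.flatMap dartsOf).length := by
  induction L with
  | nil => rfl
  | cons f L ih =>
    have h1 := ih fun g hg => h g (List.mem_cons_of_mem _ hg)
    have h2 := fan_len (h f List.mem_cons_self)
    simp only [List.flatMap_cons, List.length_append, List.length_cons, dartsOf_length]
    omega

theorem mem_fan {f : List V} {t : V × V × V} (h : t ∈ fanTris f) :
    t.1 ∈ f ∧ t.2.1 ∈ f ∧ t.2.2 ∈ f := by
  cases f with
  | nil => exact absurd h (by simp [fanTris])
  | cons v l =>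
    unfold fanTris at h
    obtain ⟨e, he, rfl⟩ := List.mem_map.1 h
    have h2 := List.of_mem_zip he
    exact ⟨List.mem_cons_self, List.mem_cons_of_mem _ h2.1,
      List.mem_cons_of_mem _ (List.mem_of_mem_tail h2.2)⟩

theorem triDarts_fst {t : V × V × V} {d : V × V} (h : d ∈ triDarts t) :
    d.1 = t.1 ∨ d.1 = t.2.1 ∨ d.1 = t.2.2 := by
  unfold triDarts at h
  simp only [List.mem_cons, List.not_mem_nil, or_false] at h
  rcases h with rfl | rfl | rfl
  · exact Or.inl rfl
  · exact Or.inr (Or.inl rfl)
  · exact Or.inr (Or.inr rfl)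

end EUL_

open EUL_ in
/-- G-EULER -/
theorem tEuler (hE : TEulerTri) : TEuler := by
  intro V G p hF inst
  have hfan : ∀ f ∈ (toFM G).inner, FanPos p f.1 := fun f hf => hF.fan _ (toFM_mem hf)
  obtain ⟨hT, hTame⟩ := PAH.yDarts (toFM G) p G.s₁ G.s₂ G.s₃ hF.outer_eq
    (by
      have h1 := hF.ne
      unfold toFM
      simpa using h1)
    (by
      rw [toFM_inner_fst]
      exact hF.chain) hfan
  have hN := PAH.cover p (toFM G).tris G.s₁ G.s₂ G.s₃ hT
  have hP := PAH.planar_main p (toFM G).tris G.s₁ G.s₂ G.s₃ hN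
  have ht := hTame hN hP
  have h1 := hE p (toFM G).tris G.s₁ G.s₂ G.s₃ hN hP inst
  have hset : (G.darts.map Prod.fst).toFinset =
      (((toFM G).tris.flatMap triDarts).map Prod.fst).toFinset := by
    ext x
    rw [List.mem_toFinset, List.mem_toFinset, List.mem_map, List.mem_map]
    constructor
    · rintro ⟨d, hd, rfl⟩
      unfold PlaneMap.darts PlaneMap.walks at hd
      rw [List.flatMap_cons, List.mem_append] at hd
      rcases hd with hd | hd
      · rw [hF.outer_eq] at hd
        have h2 := (dart_mem hd).1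
        simp only [List.mem_cons, List.not_mem_nil, or_false] at h2
        rcases h2 with h2 | h2 | h2
        · exact ⟨_, (hN.out_mem (G.s₁, G.s₂) (by simp)).1, h2.symm⟩
        · exact ⟨_, (hN.out_mem (G.s₃, G.s₁) (by simp)).1, h2.symm⟩
        · exact ⟨_, (hN.out_mem (G.s₂, G.s₃) (by simp)).1, h2.symm⟩
      · obtain ⟨f, hf, hdf⟩ := List.mem_flatMap.1 hd
        exact ⟨d, ht.sub (f, 1) (mem_toFM hf) d hdf, rfl⟩
    · rintro ⟨d, hd, rfl⟩
      rw [toFM_tris] at hd
      obtain ⟨t, htm, hdt⟩ := List.mem_flatMap.1 hd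
      obtain ⟨f, hf, htf⟩ := List.mem_flatMap.1 htm
      have h2 := mem_fan htf
      have h3 : d.1 ∈ f := by
        rcases triDarts_fst hdt with h | h | h
        · rw [h]; exact h2.1
        · rw [h]; exact h2.2.1
        · rw [h]; exact h2.2.2
      obtain ⟨y, hy⟩ := exists_dart_at h3
      refine ⟨(d.1, y), ?_, rfl⟩
      unfold PlaneMap.darts PlaneMap.walks
      rw [List.flatMap_cons, List.mem_append]
      exact Or.inr (List.mem_flatMap.2 ⟨f, hf, hy⟩)
  have hlen := sum_len G.inner hF.fan
  have hd : G.darts.length = 3 + (G.inner.flatMap dartsOf).length := by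
    unfold PlaneMap.darts PlaneMap.walks
    rw [List.flatMap_cons, List.length_append, dartsOf_length, hF.outer_eq]
    rfl
  rw [hset]
  rw [toFM_tris] at h1
  rw [toFM_tris]
  omega

end Pool.Agent.SLN
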