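import Pool.Agent.SLN.Targets
import Pool.Agent.PAH.Planarity

set_option autoImplicit false

/-!
# Euler's formula for triangulations, by counting middle vertices
-/

namespace Pool.Agent.SLN

open Pool.Agent.PAH (Plane det3 Nice Planar triDarts tOpen openTri)
open Pool.Agent.PAH.Plan (IsRot mem_triDarts mem_darts rot_mem rot_pos eq_of_meet star_cover
  cover cC enter det3_sub det3_rot openTri_rot)
open Filter Topology

namespace EulerAux

variable {V : Type}

/-- cross product -/
def cr (A B : Plane) : ℝ := A.1 * B.2 - A.2 * B.1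

/-- `x` or `-x` -/
def sg (s : Bool) (x : Plane) : Plane := if s then x else -x

/-- the direction `sg s x` is in the open cone of `t` at its vertex `q.1` -/
def RR (p : V → Plane) (x : Plane) (t : V × V × V) (q : V × Bool) : Prop :=
  ∃ u w, IsRot t q.1 u w ∧ 0 < cr (p u - p q.1) (sg q.2 x) ∧ 0 < cr (sg q.2 x) (p w - p q.1)

theorem cone_iff (p : V → Plane) (x : Plane) (v u w : V) (s : Bool) :
    (0 < cr (p u - p v) (sg s x) ∧ 0 < cr (sg s x) (p w - p v)) ↔
      ((s = true ∧ cr (p v) x < cr (p u) x ∧ cr (p w) x < cr (p v) x) ∨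
        (s = false ∧ cr (p u) x < cr (p v) x ∧ cr (p v) x < cr (p w) x)) := by
  cases s
  · have e1 : cr (p u - p v) (sg false x) = cr (p v) x - cr (p u) x := by
      simp only [cr, sg, Prod.fst_sub, Prod.snd_sub, Bool.false_eq_true, if_false, Prod.fst_neg,
        Prod.snd_neg]
      ring
    have e2 : cr (sg false x) (p w - p v) = cr (p w) x - cr (p v) x := by
      simp only [cr, sg, Prod.fst_sub, Prod.snd_sub, Bool.false_eq_true, if_false, Prod.fst_neg,
        Prod.snd_neg]
      ring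
    rw [e1, e2]
    simp
  · have e1 : cr (p u - p v) (sg true x) = cr (p u) x - cr (p v) x := by
      simp only [cr, sg, Prod.fst_sub, Prod.snd_sub, if_true]
      ring
    have e2 : cr (sg true x) (p w - p v) = cr (p v) x - cr (p w) x := by
      simp only [cr, sg, Prod.fst_sub, Prod.snd_sub, if_true]
      ring
    rw [e1, e2]
    simp

theorem isRot_mk {x y z v u w : V} (h : IsRot (x, y, z) v u w) :
    (v = x ∧ u = y ∧ w = z) ∨ (v = z ∧ u = x ∧ w = y) ∨ (v = y ∧ u = z ∧ w = x) := by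
  rcases h with h | h | h <;> simp only [Prod.mk.injEq] at h <;> obtain ⟨h1, h2, h3⟩ := h
  · exact Or.inl ⟨h1.symm, h2.symm, h3.symm⟩
  · exact Or.inr (Or.inl ⟨h3.symm, h1.symm, h2.symm⟩)
  · exact Or.inr (Or.inr ⟨h2.symm, h3.symm, h1.symm⟩)

/-- every triangle has exactly one middle vertex -/
theorem tri_mid (p : V → Plane) (d : Plane) (x y z : V) (hxy : cr (p x) d ≠ cr (p y) d)
    (hyz : cr (p y) d ≠ cr (p z) d) (hzx : cr (p z) d ≠ cr (p x) d) :
    ∃ q, RR p d (x, y, z) q ∧ ∀ q', RR p d (x, y, z) q' → q' = q := by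
  have uniq : ∀ q q', RR p d (x, y, z) q → RR p d (x, y, z) q' → q' = q := by
    rintro ⟨v, s⟩ ⟨v', s'⟩ ⟨u, w, h1, h2⟩ ⟨u', w', h1', h2'⟩
    rw [cone_iff] at h2 h2'
    simp only at h1 h1' h2 h2'
    rcases isRot_mk h1 with ⟨rfl, rfl, rfl⟩ | ⟨rfl, rfl, rfl⟩ | ⟨rfl, rfl, rfl⟩ <;>
    rcases isRot_mk h1' with ⟨rfl, rfl, rfl⟩ | ⟨rfl, rfl, rfl⟩ | ⟨rfl, rfl, rfl⟩ <;>
    rcases h2 with ⟨rfl, h3, h4⟩ | ⟨rfl, h3, h4⟩ <;>
    rcases h2' with ⟨rfl, h3', h4'⟩ | ⟨rfl, h3', h4'⟩ <;>
    first | rfl | (exfalso; linarith)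
  have ex : ∃ q, RR p d (x, y, z) q := by
    have r1 : IsRot (x, y, z) x y z := Or.inl rfl
    have r2 : IsRot (x, y, z) y z x := r1.next
    have r3 : IsRot (x, y, z) z x y := r2.next
    rcases lt_or_gt_of_ne hxy with h1 | h1 <;> rcases lt_or_gt_of_ne hyz with h2 | h2 <;>
      rcases lt_or_gt_of_ne hzx with h3 | h3
    · exfalso; linarith
    · -- x < y < z
      exact ⟨(y, true), z, x, r2, (cone_iff p d y z x true).2 (Or.inl ⟨rfl, h2, h1⟩)⟩
    · -- z < x < y
      exact ⟨(x, true), y, z, r1, (cone_iff p d x y z true).2 (Or.inl ⟨rfl, h1, h3⟩)⟩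
    · -- x < z < y
      exact ⟨(z, false), x, y, r3, (cone_iff p d z x y false).2 (Or.inr ⟨rfl, h3, h2⟩)⟩
    · -- y < z < x
      exact ⟨(z, true), x, y, r3, (cone_iff p d z x y true).2 (Or.inl ⟨rfl, h3, h2⟩)⟩
    · -- y < x < z
      exact ⟨(x, false), y, z, r1, (cone_iff p d x y z false).2 (Or.inr ⟨rfl, h1, h3⟩)⟩
    · -- z < y < x
      exact ⟨(y, false), z, x, r2, (cone_iff p d y z x false).2 (Or.inr ⟨rfl, h2, h1⟩)⟩
    · exfalso; linarith
  obtain ⟨q, hq⟩ := ex
  exact ⟨q, hq, fun q' hq' => uniq q q' hq hq'⟩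

/-- a direction which is parallel to none of the edges -/
theorem generic (p : V → Plane) (L : List (V × V)) (hL : ∀ d ∈ L, p d.1 ≠ p d.2) :
    ∃ x : Plane, ∀ d ∈ L, cr (p d.1) x ≠ cr (p d.2) x := by
  have hfin : {s : ℝ | ∃ d ∈ L, cr (p d.1) (1, s) = cr (p d.2) (1, s)}.Finite := by
    have e : {s : ℝ | ∃ d ∈ L, cr (p d.1) (1, s) = cr (p d.2) (1, s)} =
        ⋃ d ∈ {d | d ∈ L}, {s : ℝ | cr (p d.1) (1, s) = cr (p d.2) (1, s)} := by
      ext s
      simp
    rw [e]
    refine Set.Finite.biUnion (List.finite_toSet L) fun d hd => ?_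
    apply Set.Subsingleton.finite
    intro s hs t ht
    simp only [Set.mem_setOf_eq, cr] at hs ht
    by_contra hst
    apply hL d hd
    have h1 : ((p d.1).1 - (p d.2).1) * (s - t) = 0 := by linarith
    have h2 : (p d.1).1 = (p d.2).1 := by
      rcases mul_eq_zero.1 h1 with h | h
      · linarith
      · exact absurd (by linarith) hst
    have h3 : (p d.1).2 = (p d.2).2 := by
      rw [h2] at hs
      linarith
    exact Prod.ext h2 h3
  obtain ⟨s, hs⟩ := hfin.infinite_compl.nonempty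
  refine ⟨(1, s), fun d hd h => hs ⟨d, hd, h⟩⟩

theorem nice_rot {p : V → Plane} {T : List (V × V × V)} {a b c : V} (h : Nice p T a b c) :
    Nice p T b c a where
  pos := h.pos
  chain := fun φ hφ => by rw [h.chain φ hφ]; ring
  ne := h.ne
  outer_pos := by rw [det3_rot]; exact h.outer_pos
  disj := h.disj
  sub := fun t ht => by rw [openTri_rot]; exact h.sub t ht
  darts_nodup := h.darts_nodup
  rev := fun d hd => by
    rcases h.rev d hd with h1 | h1
    · exact Or.inl h1
    · right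
      simp only [List.mem_cons, List.not_mem_nil, or_false] at h1 ⊢
      tauto
  out_mem := fun d hd => h.out_mem d (by
    simp only [List.mem_cons, List.not_mem_nil, or_false] at hd ⊢
    tauto)

theorem nice_isRot {p : V → Plane} {T : List (V × V × V)} {a b c : V} (h : Nice p T a b c)
    {v u w : V} (hr : IsRot (a, b, c) v u w) : Nice p T v u w := by
  rcases isRot_mk hr with ⟨rfl, rfl, rfl⟩ | ⟨rfl, rfl, rfl⟩ | ⟨rfl, rfl, rfl⟩
  · exact h
  · exact nice_rot (nice_rot h)
  · exact nice_rot h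

theorem ne_of_nice {p : V → Plane} {T : List (V × V × V)} {a b c : V} (h : Nice p T a b c) :
    a ≠ b := by
  rintro rfl
  have h0 := h.outer_pos
  unfold det3 at h0
  linarith

/-- the star of an outer vertex covers the cone of the outer triangle -/
theorem outer_cover {p : V → Plane} {T : List (V × V × V)} {a b c : V} (hN : Nice p T a b c)
    (x : Plane) (h1 : 0 < cr (p b - p a) x) (h2 : 0 < cr x (p c - p a)) :
    ∃ t ∈ T, ∃ u w, IsRot t a u w ∧ x ∈ cC (p u - p a) (p w - p a) := by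
  have hab : a ≠ b := ne_of_nice hN
  have hbc : b ≠ c := ne_of_nice (nice_rot hN)
  have hca : c ≠ a := ne_of_nice (nice_rot (nice_rot hN))
  set B : Plane := p b - p a with hB
  set C : Plane := p c - p a with hC
  set E : Plane := -(B + C) with hE
  have hBC : 0 < B.1 * C.2 - B.2 * C.1 := by
    rw [hB, hC, det3_sub]
    exact hN.outer_pos
  set S : Set (Plane × Plane) :=
    {e | (∃ t ∈ T, ∃ u w, IsRot t a u w ∧ e = (p u - p a, p w - p a)) ∨ e = (C, E) ∨
      e = (E, B)} with hS
  have hfin : S.Finite := by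
    have h3 : ((fun d : V × V => (p d.1 - p a, p d.2 - p a)) ''
        {d | d ∈ T.flatMap triDarts} ∪ {(C, E), (E, B)}).Finite :=
      ((List.finite_toSet (T.flatMap triDarts)).image _).union (by simp)
    apply h3.subset
    rintro e (⟨t, ht, u, w, hr, rfl⟩ | rfl | rfl)
    · exact Or.inl ⟨(u, w), rot_mem ht hr.next, rfl⟩
    · exact Or.inr (Or.inl rfl)
    · exact Or.inr (Or.inr rfl)
  have hoab := (hN.out_mem (a, b) (by simp)).1
  have hoca := (hN.out_mem (c, a) (by simp)).1
  obtain ⟨d, hd, hx⟩ := cover hfin ⟨(C, E), Or.inr (Or.inl rfl)⟩ (by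
    rintro d (⟨t, ht, u, w, hr, rfl⟩ | rfl | rfl)
    · rw [det3_sub]
      exact rot_pos hN ht hr
    · simp only [hE, Prod.fst_neg, Prod.snd_neg, Prod.fst_add, Prod.snd_add]
      linarith
    · simp only [hE, Prod.fst_neg, Prod.snd_neg, Prod.fst_add, Prod.snd_add]
      linarith) (by
    rintro d (⟨t, ht, u, w, hr, rfl⟩ | rfl | rfl)
    · rcases hN.rev (w, a) (rot_mem ht hr.next.next) with h | h
      · obtain ⟨t', ht', z, hr'⟩ := mem_darts.1 h
        exact ⟨_, Or.inl ⟨t', ht', w, z, hr', rfl⟩, rfl⟩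
      · simp only [List.mem_cons, Prod.mk.injEq, List.not_mem_nil, or_false] at h
        rcases h with ⟨_, h⟩ | ⟨_, h⟩ | ⟨h, _⟩
        · exact absurd h hab
        · exact absurd h.symm hca
        · subst h
          exact ⟨(C, E), Or.inr (Or.inl rfl), rfl⟩
    · exact ⟨(E, B), Or.inr (Or.inr rfl), rfl⟩
    · obtain ⟨t', ht', z, hr'⟩ := mem_darts.1 hoab
      exact ⟨_, Or.inl ⟨t', ht', b, z, hr', rfl⟩, rfl⟩) (by
    rintro d (⟨t, ht, u, w, hr, rfl⟩ | rfl | rfl)
    · rcases hN.rev (a, u) (rot_mem ht hr) with h | h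
      · obtain ⟨t', ht', z, hr'⟩ := mem_darts.1 h
        exact ⟨_, Or.inl ⟨t', ht', z, u, hr'.next, rfl⟩, rfl⟩
      · simp only [List.mem_cons, Prod.mk.injEq, List.not_mem_nil, or_false] at h
        rcases h with ⟨_, h⟩ | ⟨h, _⟩ | ⟨h, _⟩
        · subst h
          exact ⟨(E, B), Or.inr (Or.inr rfl), rfl⟩
        · exact absurd h hab
        · exact absurd h.symm hca
    · obtain ⟨t', ht', z, hr'⟩ := mem_darts.1 hoca
      exact ⟨_, Or.inl ⟨t', ht', z, c, hr'.next, rfl⟩, rfl⟩
    · exact ⟨(C, E), Or.inr (Or.inl rfl), rfl⟩) x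
  rcases hd with ⟨t, ht, u, w, hr, rfl⟩ | rfl | rfl
  · exact ⟨t, ht, u, w, hr, hx⟩
  · exfalso
    obtain ⟨h3, h4⟩ := hx
    simp only [cr, hE, Prod.fst_neg, Prod.snd_neg, Prod.fst_add, Prod.snd_add] at h1 h2 h3 h4
    linarith
  · exfalso
    obtain ⟨h3, h4⟩ := hx
    simp only [cr, hE, Prod.fst_neg, Prod.snd_neg, Prod.fst_add, Prod.snd_add] at h1 h2 h3 h4
    linarith

theorem cr_sg (A x : Plane) (s : Bool) : cr A (sg s x) = if s then cr A x else - cr A x := by
  cases s
  · simp only [cr, sg, Bool.false_eq_true, if_false, Prod.fst_neg, Prod.snd_neg]; ring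
  · simp only [sg, if_true]

theorem cr_sub (A B x : Plane) : cr (A - B) x = cr A x - cr B x := by
  simp only [cr, Prod.fst_sub, Prod.snd_sub]; ring

theorem cr_swap (A B : Plane) : cr A B = - cr B A := by
  simp only [cr]; ring

/-- for a generic direction closed cones may be replaced by open cones -/
theorem open_of_closed {p : V → Plane} {x : Plane} {v u w : V} {s : Bool}
    (hu : cr (p u) x ≠ cr (p v) x) (hw : cr (p w) x ≠ cr (p v) x)
    (h : sg s x ∈ cC (p u - p v) (p w - p v)) :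
    0 < cr (p u - p v) (sg s x) ∧ 0 < cr (sg s x) (p w - p v) := by
  obtain ⟨h1, h2⟩ := h
  have h1' : 0 ≤ cr (p u - p v) (sg s x) := h1
  have h2' : 0 ≤ cr (sg s x) (p w - p v) := h2
  have n1 : cr (p u - p v) (sg s x) ≠ 0 := by
    rw [cr_sg, cr_sub]
    cases s
    · simp only [Bool.false_eq_true, if_false]
      intro h; apply hu; linarith
    · simp only [if_true]
      intro h; apply hu; linarith
  have n2 : cr (sg s x) (p w - p v) ≠ 0 := by
    rw [cr_swap, cr_sg, cr_sub]
    cases s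
    · simp only [Bool.false_eq_true, if_false]
      intro h; apply hw; linarith
    · simp only [if_true]
      intro h; apply hw; linarith
  exact ⟨lt_of_le_of_ne h1' n1.symm, lt_of_le_of_ne h2' n2.symm⟩

/-- two triangles with the same middle vertex, on the same side, are equal -/
theorem eq_of_RR {p : V → Plane} {T : List (V × V × V)} {a b c : V} (hN : Nice p T a b c)
    {x : Plane} {s t : V × V × V} (hs : s ∈ T) (ht : t ∈ T) {q : V × Bool} (h : RR p x s q)
    (h' : RR p x t q) : s = t := by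
  obtain ⟨u, w, hr, h1, h2⟩ := h
  obtain ⟨u', w', hr', h1', h2'⟩ := h'
  obtain ⟨e, h3, h4⟩ := ((enter (rot_pos hN hs hr) h1 h2).and
    (enter (rot_pos hN ht hr') h1' h2')).exists
  apply eq_of_meet hN hs ht
  exact ⟨_, by rw [hr.tOpen]; exact h3, by rw [hr'.tOpen]; exact h4⟩

/-- at an outer vertex the cones of the triangles are in the cone of the outer triangle -/
theorem outer_sub {p : V → Plane} {T : List (V × V × V)} {a b c : V} (hN : Nice p T a b c)
    {x : Plane} {t : V × V × V} (ht : t ∈ T) {s : Bool} (h : RR p x t (a, s)) :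
    0 < cr (p b - p a) (sg s x) ∧ 0 < cr (sg s x) (p c - p a) := by
  obtain ⟨u, w, hr, h1, h2⟩ := h
  simp only at hr h1 h2
  obtain ⟨e, h3, h4⟩ := ((enter (rot_pos hN ht hr) h1 h2).and self_mem_nhdsWithin).exists
  have he : 0 < e := h4
  have h5 : p a + e • sg s x ∈ tOpen p t := by rw [hr.tOpen]; exact h3
  obtain ⟨h6, -, h7⟩ := hN.sub t ht h5
  have e1 : det3 (p a) (p b) (p a + e • sg s x) = e * cr (p b - p a) (sg s x) := by
    simp only [det3, cr, Prod.fst_add, Prod.snd_add, Prod.smul_fst, Prod.smul_snd, smul_eq_mul,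
      Prod.fst_sub, Prod.snd_sub]
    ring
  have e2 : det3 (p c) (p a) (p a + e • sg s x) = e * cr (sg s x) (p c - p a) := by
    simp only [det3, cr, Prod.fst_add, Prod.snd_add, Prod.smul_fst, Prod.smul_snd, smul_eq_mul,
      Prod.fst_sub, Prod.snd_sub]
    ring
  rw [e1] at h6
  rw [e2] at h7
  exact ⟨(pos_iff_pos_of_mul_pos h6).1 he, (pos_iff_pos_of_mul_pos h7).1 he⟩

end EulerAux

open EulerAux

/-- G-EULERTRI: Euler's formula for triangulations -/
theorem tEulerTri : TEulerTri := by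
  intro V p T a b c hN _ hdec
  classical
  -- the darts are not degenerate
  have hdne : ∀ d ∈ T.flatMap triDarts, p d.1 ≠ p d.2 := by
    intro d hd h
    obtain ⟨t, ht, w, hr⟩ := mem_darts.1 hd
    have h0 := rot_pos hN ht hr
    rw [h] at h0
    unfold det3 at h0
    linarith
  obtain ⟨x, hx⟩ := generic p _ hdne
  have hgen : ∀ t ∈ T, ∀ v u w, IsRot t v u w → cr (p u) x ≠ cr (p v) x ∧
      cr (p w) x ≠ cr (p v) x := fun t ht v u w hr =>
    ⟨(hx (v, u) (rot_mem ht hr)).symm, hx (w, v) (rot_mem ht hr.next.next)⟩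
  -- middle vertices
  have hA : ∀ t, t ∈ T → ∃ q, RR p x t q ∧ ∀ q', RR p x t q' → q' = q := by
    rintro ⟨t1, t2, t3⟩ ht
    have r1 : IsRot (t1, t2, t3) t1 t2 t3 := Or.inl rfl
    exact tri_mid p x t1 t2 t3 (hgen _ ht _ _ _ r1).1.symm (hgen _ ht _ _ _ r1.next).1.symm
      (hgen _ ht _ _ _ r1).2
  have : Nonempty (V × Bool) := ⟨(a, true)⟩
  choose! f hf using hA
  -- the outer triangle
  have hout : ∀ d ∈ [(a, b), (b, c), (c, a)], cr (p d.1) x ≠ cr (p d.2) x := fun d hd =>
    hx d (hN.out_mem d hd).1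
  obtain ⟨q0, hq0, hq0'⟩ := tri_mid p x a b c (hout (a, b) (by simp)) (hout (b, c) (by simp))
    (hout (c, a) (by simp))
  set Vs := ((T.flatMap triDarts).map Prod.fst).toFinset with hVs
  have memVs : ∀ v, v ∈ Vs ↔ ∃ t ∈ T, ∃ u w, IsRot t v u w := by
    intro v
    rw [hVs, List.mem_toFinset, List.mem_map]
    constructor
    · rintro ⟨d, hd, rfl⟩
      obtain ⟨t, ht, w, hr⟩ := mem_darts.1 hd
      exact ⟨t, ht, _, w, hr⟩
    · rintro ⟨t, ht, u, w, hr⟩
      exact ⟨(v, u), rot_mem ht hr, rfl⟩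
  have hab : a ≠ b := ne_of_nice hN
  have hbc : b ≠ c := ne_of_nice (nice_rot hN)
  have hca : c ≠ a := ne_of_nice (nice_rot (nice_rot hN))
  have haV : a ∈ Vs := by
    obtain ⟨t, ht, w, hr⟩ := mem_darts.1 (hN.out_mem (a, b) (by simp)).1
    exact (memVs a).2 ⟨t, ht, _, _, hr⟩
  have hbV : b ∈ Vs := by
    obtain ⟨t, ht, w, hr⟩ := mem_darts.1 (hN.out_mem (b, c) (by simp)).1
    exact (memVs b).2 ⟨t, ht, _, _, hr⟩
  have hcV : c ∈ Vs := by
    obtain ⟨t, ht, w, hr⟩ := mem_darts.1 (hN.out_mem (c, a) (by simp)).1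
    exact (memVs c).2 ⟨t, ht, _, _, hr⟩
  set In := Vs \ {a, b, c} with hIn
  have hsubset : ({a, b, c} : Finset V) ⊆ Vs := by
    intro v hv
    simp only [Finset.mem_insert, Finset.mem_singleton] at hv
    rcases hv with rfl | rfl | rfl <;> assumption
  have hcard3 : ({a, b, c} : Finset V).card = 3 := by
    rw [Finset.card_eq_three]
    exact ⟨a, b, c, hab, hca.symm, hbc, rfl⟩
  have hInc : In.card + 3 = Vs.card := by
    rw [hIn, ← hcard3, Finset.card_sdiff_add_card_eq_card hsubset]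
  -- nodup
  have hTn : T.Nodup := by
    have h1 : T.Pairwise fun s t => Disjoint (tOpen p s) (tOpen p t) := hN.disj
    refine List.Pairwise.imp_of_mem ?_ h1
    intro s t hs ht hd hst
    subst hst
    obtain ⟨q, hq⟩ : ∃ q, RR p x s q := ⟨f s, (hf s hs).1⟩
    obtain ⟨u, w, hr, h1, h2⟩ := hq
    obtain ⟨e, he⟩ := (enter (rot_pos hN hs hr) h1 h2).exists
    have h3 : p q.1 + e • sg q.2 x ∈ tOpen p s := by rw [hr.tOpen]; exact he
    exact Set.disjoint_left.1 hd h3 h3
  -- the image
  have himg : T.toFinset.image f = (In ×ˢ (Finset.univ : Finset Bool)) ∪ {q0} := by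
    ext q
    rw [Finset.mem_image, Finset.mem_union, Finset.mem_product, Finset.mem_singleton]
    constructor
    · rintro ⟨t, ht, rfl⟩
      rw [List.mem_toFinset] at ht
      have hR := (hf t ht).1
      by_cases hv : IsRot (a, b, c) (f t).1 b c ∨ IsRot (a, b, c) (f t).1 c a ∨
          IsRot (a, b, c) (f t).1 a b
      · right
        apply hq0'
        have key : ∀ u w, IsRot (a, b, c) (f t).1 u w → RR p x (a, b, c) (f t) := by
          intro u w hr
          exact ⟨u, w, hr, outer_sub (nice_isRot hN hr) ht hR⟩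
        rcases hv with h | h | h
        · exact key _ _ h
        · exact key _ _ h
        · exact key _ _ h
      · left
        refine ⟨?_, Finset.mem_univ _⟩
        rw [hIn, Finset.mem_sdiff]
        constructor
        · obtain ⟨u, w, hr, _⟩ := hR
          exact (memVs _).2 ⟨t, ht, u, w, hr⟩
        · intro h
          simp only [Finset.mem_insert, Finset.mem_singleton] at h
          apply hv
          rcases h with h | h | h
          · left; rw [h]; exact Or.inl rfl
          · right; left; rw [h]; exact (show IsRot (a, b, c) a b c from Or.inl rfl).next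
          · right; right; rw [h]
            exact (show IsRot (a, b, c) a b c from Or.inl rfl).next.next
    · rintro (⟨h1, _⟩ | rfl)
      · obtain ⟨v, s⟩ := q
        simp only [hIn, Finset.mem_sdiff, Finset.mem_insert, Finset.mem_singleton, not_or] at h1
        obtain ⟨h1, h2, h3, h4⟩ := h1
        obtain ⟨t, ht, u, w, hr, hc⟩ := star_cover hN h2 h3 h4 ((memVs v).1 h1) (sg s x)
        obtain ⟨g1, g2⟩ := hgen t ht v u w hr
        refine ⟨t, List.mem_toFinset.2 ht, ?_⟩
        exact ((hf t ht).2 (v, s) ⟨u, w, hr, open_of_closed g1 g2 hc⟩).symm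
      · obtain ⟨u, w, hr, h1, h2⟩ := hq0
        obtain ⟨t, ht, u', w', hr', hc⟩ := outer_cover (nice_isRot hN hr) (sg q.2 x) h1 h2
        obtain ⟨g1, g2⟩ := hgen t ht _ u' w' hr'
        refine ⟨t, List.mem_toFinset.2 ht, ?_⟩
        exact ((hf t ht).2 q ⟨u', w', hr', open_of_closed g1 g2 hc⟩).symm
  have hinj : Set.InjOn f (T.toFinset : Set (V × V × V)) := by
    intro s hs t ht hst
    rw [Finset.mem_coe, List.mem_toFinset] at hs ht
    apply eq_of_RR hN hs ht (hf s hs).1
    rw [hst]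
    exact (hf t ht).1
  have hc1 : (T.toFinset.image f).card = T.length := by
    rw [Finset.card_image_of_injOn hinj, List.toFinset_card_of_nodup hTn]
  have hc2 : ((In ×ˢ (Finset.univ : Finset Bool)) ∪ {q0}).card = 2 * In.card + 1 := by
    rw [Finset.card_union_of_disjoint, Finset.card_product, Finset.card_singleton]
    · simp [mul_comm]
    · rw [Finset.disjoint_singleton_right, Finset.mem_product, not_and_or]
      left
      rw [hIn, Finset.mem_sdiff, not_and_or]
      right
      rw [not_not]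
      obtain ⟨u, w, hr, _⟩ := hq0
      rcases isRot_mk hr with ⟨h, _⟩ | ⟨h, _⟩ | ⟨h, _⟩ <;> rw [h] <;> simp
  rw [himg, hc2] at hc1
  omega

end Pool.Agent.SLN
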