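import Pool.Agent.SLN.Lib

set_option autoImplicit false

/-!
# G-FACETRI: corners of the triangular faces
-/

namespace Pool.Agent.SLN

open Pool.Agent.PAH (Plane det3 ccwAngle LiesLeft dartsOf cornersOf openTri closedTri)

namespace FT

/-! ### Closed walks by indices -/

section walk
variable {V : Type}

/-- the `i`-th vertex of the closed walk -/
def gv (f : List V) (hf : 0 < f.length) (i : ℕ) : V := f[i % f.length]'(Nat.mod_lt _ hf)

theorem gv_congr (f : List V) (hf : 0 < f.length) {i j : ℕ} (h : i % f.length = j % f.length) :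
    gv f hf i = gv f hf j := by
  unfold gv
  congr 1

theorem gv_add (f : List V) (hf : 0 < f.length) (i : ℕ) : gv f hf (i + f.length) = gv f hf i :=
  gv_congr f hf (by simp)

theorem gv_inj {f : List V} (hf : 0 < f.length) (hn : f.Nodup) {i j : ℕ}
    (h : gv f hf i = gv f hf j) : i % f.length = j % f.length := by
  unfold gv at h
  exact (List.Nodup.getElem_inj_iff hn).1 h

theorem mem_dartsOf {f : List V} (hf : 0 < f.length) {d : V × V} :
    d ∈ dartsOf f ↔ ∃ i, d = (gv f hf i, gv f hf (i + 1)) := by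
  unfold dartsOf
  rw [List.mem_iff_getElem]
  constructor
  · rintro ⟨i, hi, rfl⟩
    have hi' : i < f.length := by simpa using hi
    refine ⟨i, ?_⟩
    rw [List.getElem_zip, List.getElem_rotate]
    unfold gv
    congr 1
    congr 1
    rw [Nat.mod_eq_of_lt hi']
  · rintro ⟨i, rfl⟩
    have hi' := Nat.mod_lt i hf
    refine ⟨i % f.length, by simpa using hi', ?_⟩
    rw [List.getElem_zip, List.getElem_rotate]
    unfold gv
    congr 1
    congr 1
    rw [Nat.mod_add_mod]

theorem mem_cornersOf {f : List V} (hf : 0 < f.length) {k : V × V × V} :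
    k ∈ cornersOf f ↔ ∃ i, k = (gv f hf i, gv f hf (i + 1), gv f hf (i + 2)) := by
  unfold cornersOf
  rw [List.mem_iff_getElem]
  constructor
  · rintro ⟨i, hi, rfl⟩
    have hi' : i < f.length := by simpa using hi
    refine ⟨i, ?_⟩
    rw [List.getElem_zip, List.getElem_zip, List.getElem_rotate, List.getElem_rotate]
    unfold gv
    congr 1
    congr 1
    rw [Nat.mod_eq_of_lt hi']
  · rintro ⟨i, rfl⟩
    have hi' := Nat.mod_lt i hf
    refine ⟨i % f.length, by simpa using hi', ?_⟩
    rw [List.getElem_zip, List.getElem_zip, List.getElem_rotate, List.getElem_rotate]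
    unfold gv
    congr 1
    congr 1
    · congr 1
      rw [Nat.mod_add_mod]
    · congr 1
      rw [Nat.mod_add_mod]

end walk

/-! ### The triangle -/

/-- affine function of the side `s` -/
def hh (P : Fin 3 → Plane) (s : Fin 3) (x : Plane) : ℝ := det3 (P s) (P (s + 1)) x

/-- the cross product of the side `s` with a vector -/
def ll (P : Fin 3 → Plane) (s : Fin 3) (e : Plane) : ℝ :=
  ((P (s + 1)).1 - (P s).1) * e.2 - ((P (s + 1)).2 - (P s).2) * e.1

theorem hh_add (P : Fin 3 → Plane) (s : Fin 3) (x : Plane) (t : ℝ) (e : Plane) :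
    hh P s (x + t • e) = hh P s x + t * ll P s e := by
  simp only [hh, ll, det3, Prod.fst_add, Prod.snd_add, Prod.smul_fst, Prod.smul_snd, smul_eq_mul]
  ring

/-- the size of the triangle -/
def dd (P : Fin 3 → Plane) : ℝ := det3 (P 0) (P 1) (P 2)

theorem dd_rot (P : Fin 3 → Plane) (s : Fin 3) : det3 (P s) (P (s + 1)) (P (s + 2)) = dd P := by
  fin_cases s
  · rfl
  · change det3 (P 1) (P 2) (P 0) = dd P
    simp only [dd, det3]; ring
  · change det3 (P 2) (P 0) (P 1) = dd P
    simp only [dd, det3]; ring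

theorem hh_sum (P : Fin 3 → Plane) (s : Fin 3) (x : Plane) :
    hh P s x + hh P (s + 1) x + hh P (s + 2) x = dd P := by
  fin_cases s
  · change det3 (P 0) (P 1) x + det3 (P 1) (P 2) x + det3 (P 2) (P 0) x = _
    simp only [dd, det3]; ring
  · change det3 (P 1) (P 2) x + det3 (P 2) (P 0) x + det3 (P 0) (P 1) x = _
    simp only [dd, det3]; ring
  · change det3 (P 2) (P 0) x + det3 (P 0) (P 1) x + det3 (P 1) (P 2) x = _
    simp only [dd, det3]; ring

/-- the vector of the side `s` -/
def ev (P : Fin 3 → Plane) (s : Fin 3) : Plane := P (s + 1) - P s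

theorem ll_self (P : Fin 3 → Plane) (s : Fin 3) : ll P s (ev P s) = 0 := by
  simp only [ll, ev, Prod.fst_sub, Prod.snd_sub]; ring

theorem ll_next (P : Fin 3 → Plane) (s : Fin 3) : ll P s (ev P (s + 1)) = dd P := by
  rw [← dd_rot P s]
  have h : s + 1 + 1 = s + 2 := by rw [add_assoc]; rfl
  simp only [ll, ev, Prod.fst_sub, Prod.snd_sub, h, det3]; ring

theorem ll_prev (P : Fin 3 → Plane) (s : Fin 3) : ll P (s + 2) (ev P s) = dd P := by
  rw [← dd_rot P s]
  have h : s + 2 + 1 = s := by fin_cases s <;> rfl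
  simp only [ll, ev, Prod.fst_sub, Prod.snd_sub, h, det3]; ring

/-- the open triangle -/
def ot (P : Fin 3 → Plane) : Set Plane := {x | ∀ s, 0 < hh P s x}

/-- the closed triangle -/
def ct (P : Fin 3 → Plane) : Set Plane := {x | ∀ s, 0 ≤ hh P s x}

theorem continuous_hh (P : Fin 3 → Plane) (s : Fin 3) : Continuous (hh P s) := by
  unfold hh det3
  fun_prop

theorem isOpen_ot (P : Fin 3 → Plane) : IsOpen (ot P) := by
  unfold ot
  simp only [Set.ofPred_forall]
  exact isOpen_iInter_of_finite fun s => isOpen_lt continuous_const (continuous_hh P s)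

theorem convex_ct (P : Fin 3 → Plane) : Convex ℝ (ct P) := by
  intro x hx y hy a b ha hb hab s
  have h : hh P s (a • x + b • y) = a * hh P s x + b * hh P s y := by
    have h1 : hh P s (a • x + b • y) = a * hh P s x + b * hh P s y +
      (1 - a - b) * (((P s).1) * (-((P (s + 1)).2 - (P s).2)) * (-1)
        - ((P (s + 1)).1 - (P s).1) * (P s).2) := by
      simp only [hh, det3, Prod.fst_add, Prod.snd_add, Prod.smul_fst, Prod.smul_snd, smul_eq_mul]
      ring
    rw [h1, show 1 - a - b = 0 by linarith]; ring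
  rw [h]
  have := hx s
  have := hy s
  positivity

theorem hull_eq (P : Fin 3 → Plane) (hP : 0 < dd P) :
    convexHull ℝ ({P 0, P 1, P 2} : Set Plane) = ct P := by
  apply Set.Subset.antisymm
  · apply convexHull_min _ (convex_ct P)
    intro x hx
    simp only [Set.mem_insert_iff, Set.mem_singleton_iff] at hx
    have key : ∀ r : Fin 3, P r ∈ ct P := by
      intro r s
      have h0 : ∀ a b c : Plane, det3 a b a = 0 := by intro a b c; simp only [det3]; ring
      have h1 : ∀ a b : Plane, det3 a b b = 0 := by intro a b; simp only [det3]; ring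
      have h3 := dd_rot P s
      have hr : ∀ r s : Fin 3, r = s ∨ r = s + 1 ∨ r = s + 2 := by decide
      rcases hr r s with rfl | rfl | rfl
      · unfold hh; rw [h0 _ _ (P 0)]
      · unfold hh; rw [h1]
      · unfold hh; rw [h3]; exact hP.le
    rcases hx with rfl | rfl | rfl <;> exact key _
  · intro x hx
    have hs := hh_sum P 0 x
    simp only [Fin.isValue, zero_add] at hs
    have e : x = ∑ i : Fin 3, (![hh P 1 x / dd P, hh P 2 x / dd P, hh P 0 x / dd P] i) •
        (![P 0, P 1, P 2] i) := by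
      rw [Fin.sum_univ_three]
      simp only [Fin.isValue, Matrix.cons_val_zero, Matrix.cons_val_one, Matrix.cons_val]
      have hne := hP.ne'
      apply Prod.ext
      · simp only [Prod.fst_add, Prod.smul_fst, smul_eq_mul]
        field_simp
        simp only [hh, dd, det3, Fin.isValue, zero_add, show (1 : Fin 3) + 1 = 2 from rfl,
          show (2 : Fin 3) + 1 = 0 from rfl]
        ring
      · simp only [Prod.snd_add, Prod.smul_snd, smul_eq_mul]
        field_simp
        simp only [hh, dd, det3, Fin.isValue, zero_add, show (1 : Fin 3) + 1 = 2 from rfl,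
          show (2 : Fin 3) + 1 = 0 from rfl]
        ring
    rw [e]
    apply (convex_convexHull ℝ _).sum_mem
    · intro i _
      fin_cases i
      · exact div_nonneg (hx 1) hP.le
      · exact div_nonneg (hx 2) hP.le
      · exact div_nonneg (hx 0) hP.le
    · rw [Fin.sum_univ_three]
      simp only [Fin.isValue, Matrix.cons_val_zero, Matrix.cons_val_one, Matrix.cons_val]
      rw [← add_div, ← add_div, div_eq_one_iff_eq hP.ne', ← hs]
      ring
    · intro i _
      apply subset_convexHull
      fin_cases i <;> simp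

theorem interior_ct (P : Fin 3 → Plane) (hP : 0 < dd P) : interior (ct P) = ot P := by
  apply Set.Subset.antisymm
  · intro x hx s
    have hx0 : 0 ≤ hh P s x := interior_subset hx s
    rcases hx0.lt_or_eq with h | h
    · exact h
    exfalso
    have hc : Filter.Tendsto (fun t : ℝ => x + t • (x - P (s + 2))) (nhds 0) (nhds x) := by
      have : Continuous (fun t : ℝ => x + t • (x - P (s + 2))) := by fun_prop
      have h2 := this.tendsto 0
      simpa using h2
    have h1 := hc.eventually (mem_interior_iff_mem_nhds.1 hx)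
    have h2 := (h1.filter_mono nhdsWithin_le_nhds : ∀ᶠ t : ℝ in nhdsWithin 0 (Set.Ioi 0),
      x + t • (x - P (s + 2)) ∈ ct P)
    obtain ⟨t, ht, ht0⟩ := (h2.and self_mem_nhdsWithin).exists
    have h3 := ht s
    rw [hh_add, ← h, zero_add] at h3
    have h4 : ll P s (x - P (s + 2)) = hh P s x - hh P s (P (s + 2)) := by
      simp only [ll, hh, det3, Prod.fst_sub, Prod.snd_sub]; ring
    have h5 : hh P s (P (s + 2)) = dd P := dd_rot P s
    rw [h4, h5, ← h] at h3
    have ht0' : (0 : ℝ) < t := ht0
    nlinarith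
  · apply interior_maximal _ (isOpen_ot P)
    intro x hx s
    exact (hx s).le

/-! ### Darts on the sides -/

/-- the directed segment from `u` to `v` is on the side `s` -/
structure OnSide (P : Fin 3 → Plane) (s : Fin 3) (u v : Plane) : Prop where
  zero : hh P s u = 0
  dir : ∃ μ : ℝ, 0 < μ ∧ v = u + μ • ev P s
  cu : u ∈ ct P
  cv : v ∈ ct P

theorem side_of_left {P : Fin 3 → Plane} {u v : Plane} (huv : u ≠ v)
    (hl : LiesLeft (ot P) u v) (hx : ∀ x ∈ openSegment ℝ u v, x ∉ ot P) : ∃ s, OnSide P s u v := by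
  -- the direction
  set e : Plane := v - u with he
  have he0 : 0 < e.1 ^ 2 + e.2 ^ 2 := by
    by_contra hcon
    have h1 : e.1 = 0 := by nlinarith [sq_nonneg e.1, sq_nonneg e.2]
    have h2 : e.2 = 0 := by nlinarith [sq_nonneg e.1, sq_nonneg e.2]
    apply huv
    rw [he] at h1 h2
    simp only [Prod.fst_sub, Prod.snd_sub] at h1 h2
    apply Prod.ext <;> linarith
  have hv : v = u + e := by rw [he]; abel
  have hmem : ∀ t : ℝ, 0 < t → t < 1 → u + t • e ∈ openSegment ℝ u v := by
    intro t h0 h1
    refine ⟨1 - t, t, by linarith, h0, by ring, ?_⟩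
    rw [hv, smul_add, ← add_assoc, ← add_smul]
    simp
  have hdet : ∀ (t τ σ : ℝ), det3 u v (u + t • e + σ • ((-e.2, e.1) + τ • e : Plane)) =
      σ * (e.1 ^ 2 + e.2 ^ 2) := by
    intro t τ σ
    rw [hv]
    simp only [det3, Prod.fst_add, Prod.snd_add, Prod.smul_fst, Prod.smul_snd, smul_eq_mul]
    ring
  -- half discs
  have hhalf : ∀ t : ℝ, 0 < t → t < 1 → ∀ τ : ℝ, ∀ᶠ σ : ℝ in nhdsWithin 0 (Set.Ioi 0),
      u + t • e + σ • ((-e.2, e.1) + τ • e : Plane) ∈ ot P := by
    intro t h0 h1 τ
    obtain ⟨ε, hε, hb⟩ := hl _ (hmem t h0 h1)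
    have hc : Filter.Tendsto (fun σ : ℝ => u + t • e + σ • ((-e.2, e.1) + τ • e : Plane)) (nhds 0)
        (nhds (u + t • e)) := by
      have : Continuous (fun σ : ℝ => u + t • e + σ • ((-e.2, e.1) + τ • e : Plane)) := by fun_prop
      have h2 := this.tendsto 0
      simpa using h2
    have h2 := (hc.eventually (Metric.ball_mem_nhds _ hε)).filter_mono
      (nhdsWithin_le_nhds (s := Set.Ioi (0 : ℝ)))
    filter_upwards [h2, self_mem_nhdsWithin] with σ hσ hσ0
    apply hb _ hσ
    rw [hdet]
    exact mul_pos hσ0 he0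
  have hcl : ∀ t : ℝ, 0 < t → t < 1 → ∀ s, 0 ≤ hh P s (u + t • e) := by
    intro t h0 h1 s
    have hc : Filter.Tendsto (fun σ : ℝ => hh P s (u + t • e + σ • ((-e.2, e.1) + (0 : ℝ) • e : Plane)))
        (nhdsWithin 0 (Set.Ioi 0)) (nhds (hh P s (u + t • e))) := by
      have : Continuous (fun σ : ℝ => hh P s (u + t • e + σ • ((-e.2, e.1) + (0 : ℝ) • e : Plane))) :=
        (continuous_hh P s).comp (by fun_prop)
      have h2 := this.tendsto 0
      simp only [zero_smul, add_zero] at h2
      simpa using h2.mono_left nhdsWithin_le_nhds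
    apply ge_of_tendsto hc
    filter_upwards [hhalf t h0 h1 0] with σ hσ
    exact (hσ s).le
  have hcu : u ∈ ct P := by
    intro s
    have hc : Filter.Tendsto (fun t : ℝ => hh P s (u + t • e))
        (nhdsWithin 0 (Set.Ioi 0)) (nhds (hh P s u)) := by
      have : Continuous (fun t : ℝ => hh P s (u + t • e)) :=
        (continuous_hh P s).comp (by fun_prop)
      have h2 := this.tendsto 0
      simp only [zero_smul, add_zero] at h2
      exact h2.mono_left nhdsWithin_le_nhds
    apply ge_of_tendsto hc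
    filter_upwards [Ioo_mem_nhdsGT (zero_lt_one' ℝ)] with t ht
    exact hcl t ht.1 ht.2 s
  have hcv : v ∈ ct P := by
    intro s
    have hc : Filter.Tendsto (fun t : ℝ => hh P s (u + t • e))
        (nhdsWithin 1 (Set.Iio 1)) (nhds (hh P s v)) := by
      have : Continuous (fun t : ℝ => hh P s (u + t • e)) :=
        (continuous_hh P s).comp (by fun_prop)
      have h2 := this.tendsto 1
      simp only [one_smul] at h2
      rw [← hv] at h2
      exact h2.mono_left nhdsWithin_le_nhds
    apply ge_of_tendsto hc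
    filter_upwards [Ioo_mem_nhdsLT (zero_lt_one' ℝ)] with t ht
    exact hcl t ht.1 ht.2 s
  -- the midpoint
  have hm := hx _ (hmem (1 / 2) (by norm_num) (by norm_num))
  obtain ⟨s, hs⟩ : ∃ s, hh P s (u + (1 / 2 : ℝ) • e) ≤ 0 := by
    by_contra hcon
    push Not at hcon
    exact hm hcon
  have hs0 : hh P s (u + (1 / 2 : ℝ) • e) = 0 :=
    le_antisymm hs (hcl _ (by norm_num) (by norm_num) s)
  have hlin : ∀ τ : ℝ, 0 < ll P s ((-e.2, e.1) + τ • e : Plane) := by
    intro τ
    obtain ⟨σ, hσ, hσ0⟩ := ((hhalf (1 / 2) (by norm_num) (by norm_num) τ).and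
      self_mem_nhdsWithin).exists
    have h1 := hσ s
    rw [hh_add, hs0, zero_add] at h1
    exact (pos_iff_pos_of_mul_pos h1).1 hσ0
  have hlin2 : ∀ τ : ℝ, 0 < ll P s (-e.2, e.1) + τ * ll P s e := by
    intro τ
    have h1 := hlin τ
    have h2 : ll P s ((-e.2, e.1) + τ • e : Plane) = ll P s (-e.2, e.1) + τ * ll P s e := by
      simp only [ll, Prod.fst_add, Prod.snd_add, Prod.smul_fst, Prod.smul_snd, smul_eq_mul]
      ring
    rwa [h2] at h1
  have hle : ll P s e = 0 := by
    by_contra hcon
    have h1 := hlin2 (-(ll P s (-e.2, e.1)) / ll P s e)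
    rw [div_mul_cancel₀ _ hcon] at h1
    linarith
  have hln : 0 < ll P s (-e.2, e.1) := by simpa using hlin2 0
  refine ⟨s, ?_, ?_, hcu, hcv⟩
  · rw [hh_add, hle, mul_zero, add_zero] at hs0
    exact hs0
  · -- `e` is a positive multiple of the side
    set E : Plane := ev P s with hE
    have h1 : E.1 * e.2 - E.2 * e.1 = 0 := by
      have := hle
      simp only [ll] at this
      rw [hE]
      simp only [ev, Prod.fst_sub, Prod.snd_sub]
      linarith
    have h2 : 0 < E.1 * e.1 + E.2 * e.2 := by
      have := hln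
      simp only [ll] at this
      rw [hE]
      simp only [ev, Prod.fst_sub, Prod.snd_sub]
      linarith
    have h3 : 0 < E.1 ^ 2 + E.2 ^ 2 := by
      by_contra hcon
      have h4 : E.1 = 0 := by nlinarith [sq_nonneg E.1, sq_nonneg E.2]
      have h5 : E.2 = 0 := by nlinarith [sq_nonneg E.1, sq_nonneg E.2]
      rw [h4, h5] at h2
      linarith
    refine ⟨(E.1 * e.1 + E.2 * e.2) / (E.1 ^ 2 + E.2 ^ 2), div_pos h2 h3, ?_⟩
    rw [hv]
    congr 1
    apply Prod.ext
    · simp only [Prod.smul_fst, smul_eq_mul]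
      field_simp
      linear_combination (-E.2) * h1
    · simp only [Prod.smul_snd, smul_eq_mul]
      field_simp
      linear_combination (E.1) * h1

theorem OnSide.zero_right {P : Fin 3 → Plane} {s : Fin 3} {u v : Plane} (h : OnSide P s u v) :
    hh P s v = 0 := by
  obtain ⟨μ, hμ, hv⟩ := h.dir
  rw [hv, hh_add, ll_self, h.zero]; ring

/-- progress along a side -/
theorem OnSide.lt {P : Fin 3 → Plane} (hP : 0 < dd P) {s : Fin 3} {u v : Plane}
    (h : OnSide P s u v) : hh P (s + 2) u < hh P (s + 2) v := by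
  obtain ⟨μ, hμ, hv⟩ := h.dir
  rw [hv, hh_add, ll_prev]
  have := mul_pos hμ hP
  linarith

theorem add_three (s : Fin 3) : s + 2 + 1 = s := by fin_cases s <;> rfl

theorem three_cases : ∀ r s : Fin 3, r = s ∨ r = s + 1 ∨ r = s + 2 := by decide

theorem OnSide.turn {P : Fin 3 → Plane} (hP : 0 < dd P) {s s' : Fin 3} {u v w : Plane}
    (h : OnSide P s u v) (h' : OnSide P s' v w) : s' = s ∨ s' = s + 1 := by
  rcases three_cases s' s with r | r | r
  · exact Or.inl r
  · exact Or.inr r
  · exfalso
    subst r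
    have h1 := h'.zero
    have h2 := h.lt hP
    have h3 := h.cu (s + 2)
    linarith

theorem det3_of_dir (u v w : Plane) (x y : Plane) (a b : ℝ) (hv : v = u + a • x)
    (hw : w = v + b • y) : det3 u v w = a * b * (x.1 * y.2 - x.2 * y.1) := by
  rw [hw, hv]
  simp only [det3, Prod.fst_add, Prod.snd_add, Prod.smul_fst, Prod.smul_snd, smul_eq_mul]
  ring

theorem OnSide.left_turn {P : Fin 3 → Plane} (hP : 0 < dd P) {s : Fin 3} {u v w : Plane}
    (h : OnSide P s u v) (h' : OnSide P (s + 1) v w) : 0 < det3 u v w := by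
  obtain ⟨μ, hμ, hv⟩ := h.dir
  obtain ⟨ν, hν, hw⟩ := h'.dir
  rw [det3_of_dir u v w _ _ _ _ hv hw]
  have h1 : (ev P s).1 * (ev P (s + 1)).2 - (ev P s).2 * (ev P (s + 1)).1 = dd P := by
    rw [← ll_next P s]
    simp only [ll, ev, Prod.fst_sub, Prod.snd_sub]
  rw [h1]
  positivity

theorem det3_openSegment {u v w : Plane} (h : v ∈ openSegment ℝ u w) : det3 u v w = 0 := by
  obtain ⟨a, b, ha, hb, hab, rfl⟩ := h
  have ha' : a = 1 - b := by linarith
  subst ha'
  simp only [det3, Prod.fst_add, Prod.snd_add, Prod.smul_fst, Prod.smul_snd, smul_eq_mul]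
  ring

theorem ev_ne {P : Fin 3 → Plane} (hP : 0 < dd P) (s : Fin 3) : ev P s ≠ 0 := by
  intro h
  have h1 := ll_prev P s
  rw [h] at h1
  simp only [ll, Prod.fst_zero, Prod.snd_zero, mul_zero, sub_zero] at h1
  linarith

theorem OnSide.straight {P : Fin 3 → Plane} (hP : 0 < dd P) {s : Fin 3} {u v w : Plane}
    (h : OnSide P s u v) (h' : OnSide P s v w) :
    v ∈ openSegment ℝ u w ∧ u ≠ w ∧ Half (ot P) u v w := by
  obtain ⟨μ, hμ, hv⟩ := h.dir
  obtain ⟨ν, hν, hw⟩ := h'.dir
  have hw2 : w = u + (μ + ν) • ev P s := by rw [hw, hv, add_smul]; abel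
  refine ⟨?_, ?_, ?_⟩
  · refine ⟨ν / (μ + ν), μ / (μ + ν), by positivity, by positivity, by field_simp; ring, ?_⟩
    have hne : μ + ν ≠ 0 := by positivity
    rw [hw2, hv, smul_add, ← add_assoc, ← add_smul, smul_smul]
    have e1 : ν / (μ + ν) + μ / (μ + ν) = 1 := by field_simp; ring
    have e2 : μ / (μ + ν) * (μ + ν) = μ := by field_simp
    rw [e1, e2, one_smul]
  · intro he
    rw [hw2] at he
    have h1 : (μ + ν) • ev P s = 0 := by
      have := he.symm
      simpa using this
    rcases smul_eq_zero.1 h1 with h2 | h2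
    · linarith
    · exact ev_ne hP s h2
  · -- the other two functions are positive at `v`
    have a2 : 0 < hh P (s + 2) v := lt_of_le_of_lt (h.cu (s + 2)) (h.lt hP)
    have a1 : 0 < hh P (s + 1) v := by
      have h1 := h'.lt hP
      have h2 := hh_sum P s v
      have h3 := hh_sum P s w
      have h4 := h'.zero
      have h5 := h'.zero_right
      have h6 := h'.cv (s + 1)
      linarith
    have o1 : ∀ᶠ y in nhds v, 0 < hh P (s + 1) y ∧ 0 < hh P (s + 2) y :=
      ((continuous_hh P (s + 1)).continuousAt.eventually (lt_mem_nhds a1)).and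
        ((continuous_hh P (s + 2)).continuousAt.eventually (lt_mem_nhds a2))
    obtain ⟨ε, hε, hb⟩ := Metric.eventually_nhds_iff_ball.1 o1
    refine ⟨ε, hε, fun y hy hdet r => ?_⟩
    rcases three_cases r s with rfl | rfl | rfl
    · have h1 : det3 u w y = (μ + ν) * (hh P r y - hh P r u) := by
        rw [hw2]
        simp only [det3, hh, ev, Prod.fst_add, Prod.snd_add, Prod.smul_fst, Prod.smul_snd,
          smul_eq_mul, Prod.fst_sub, Prod.snd_sub]
        ring
      rw [h1, h.zero, sub_zero] at hdet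
      exact (pos_iff_pos_of_mul_pos hdet).1 (by positivity)
    · exact (hb y hy).1
    · exact (hb y hy).2

/-- the common vertex of two consecutive sides is unique -/
theorem vertex_unique {P : Fin 3 → Plane} (hP : 0 < dd P) {s : Fin 3} {x y : Plane}
    (h1 : hh P s x = 0) (h2 : hh P (s + 1) x = 0) (h3 : hh P s y = 0) (h4 : hh P (s + 1) y = 0) :
    x = y := by
  have h5 := dd_rot P s
  have e1 : s + 1 + 1 = s + 2 := by rw [add_assoc]; rfl
  simp only [hh, e1] at h1 h2 h3 h4
  set A := P s
  set B := P (s + 1)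
  set C := P (s + 2)
  simp only [det3] at h1 h2 h3 h4 h5
  have k1 : (B.1 - A.1) * (x.2 - y.2) - (B.2 - A.2) * (x.1 - y.1) = 0 := by linarith
  have k2 : (C.1 - B.1) * (x.2 - y.2) - (C.2 - B.2) * (x.1 - y.1) = 0 := by linarith
  have k3 : dd P * (x.1 - y.1) = 0 := by
    rw [← h5]
    linear_combination (C.1 - B.1) * k1 - (B.1 - A.1) * k2
  have k4 : dd P * (x.2 - y.2) = 0 := by
    rw [← h5]
    linear_combination (C.2 - B.2) * k1 - (B.2 - A.2) * k2
  apply Prod.ext
  · have := (mul_eq_zero.1 k3).resolve_left hP.ne'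
    linarith
  · have := (mul_eq_zero.1 k4).resolve_left hP.ne'
    linarith

/-! ### Closed polygons along the sides -/

section poly
variable {P : Fin 3 → Plane} {g : ℕ → Plane} {n : ℕ}

theorem not_all_side (hP : 0 < dd P) (hn : 0 < n) (hper : ∀ i, g (i + n) = g i)
    (side : ℕ → Fin 3) (hs : ∀ i, OnSide P (side i) (g i) (g (i + 1))) (s : Fin 3) (i₀ : ℕ) :
    ¬ ∀ i, i₀ ≤ i → side i = s := by
  intro hall
  have h1 : ∀ k, hh P (s + 2) (g i₀) + 0 ≤ hh P (s + 2) (g (i₀ + k)) ∧
      (0 < k → hh P (s + 2) (g i₀) < hh P (s + 2) (g (i₀ + k))) := by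
    intro k
    induction k with
    | zero => simp
    | succ k ih =>
      have h2 := hs (i₀ + k)
      rw [hall _ (by omega)] at h2
      have h3 := h2.lt hP
      have h4 := ih.1
      rw [← add_assoc]
      constructor
      · linarith
      · intro _; linarith
  have h2 := (h1 n).2 hn
  rw [hper] at h2
  exact lt_irrefl _ h2

theorem no_side (hP : 0 < dd P) (hn : 0 < n) (hper : ∀ i, g (i + n) = g i)
    (side : ℕ → Fin 3) (hs : ∀ i, OnSide P (side i) (g i) (g (i + 1))) (s : Fin 3)
    (h : ¬ ∃ i, side i = s ∧ side (i + 1) = s + 1) (i : ℕ) : side i ≠ s := by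
  intro hi
  apply not_all_side hP hn hper side hs s i
  intro j hj
  obtain ⟨k, rfl⟩ := Nat.exists_eq_add_of_le hj
  clear hj
  induction k with
  | zero => exact hi
  | succ k ih =>
    rw [← add_assoc]
    rcases (hs (i + k)).turn hP (hs (i + k + 1)) with h1 | h1
    · rw [h1, ih]
    · exact absurd ⟨i + k, ih, by rw [h1, ih]⟩ h

theorem exists_turn (hP : 0 < dd P) (hn : 0 < n) (hper : ∀ i, g (i + n) = g i)
    (side : ℕ → Fin 3) (hs : ∀ i, OnSide P (side i) (g i) (g (i + 1))) (s : Fin 3) :
    ∃ i, side i = s ∧ side (i + 1) = s + 1 := by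
  by_contra hcon
  have h1 := no_side hP hn hper side hs s hcon
  have h2 : ¬ ∃ i, side i = s + 2 ∧ side (i + 1) = s + 2 + 1 := by
    rintro ⟨i, _, hi⟩
    rw [add_three] at hi
    exact h1 _ hi
  have h3 := no_side hP hn hper side hs (s + 2) h2
  apply not_all_side hP hn hper side hs (s + 1) 0
  intro i _
  rcases three_cases (side i) s with h | h | h
  · exact absurd h (h1 i)
  · exact h
  · exact absurd h (h3 i)

end poly

/-- The corners of a closed walk around an open triangle. -/
theorem main {V : Type} (f : List V) (hf : f.Nodup) (h3 : 3 ≤ f.length) (p : V → Plane)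
    (P : Fin 3 → Plane) (hP : 0 < dd P)
    (hinj : ∀ d ∈ dartsOf f, ∀ e ∈ dartsOf f, p d.1 = p e.1 → d.1 = e.1)
    (hne : ∀ d ∈ dartsOf f, p d.1 ≠ p d.2)
    (hl : ∀ d ∈ dartsOf f, LiesLeft (ot P) (p d.1) (p d.2))
    (hx : ∀ d ∈ dartsOf f, ∀ x ∈ openSegment ℝ (p d.1) (p d.2), x ∉ ot P) :
    (∀ k ∈ cornersOf f, 0 < det3 (p k.1) (p k.2.1) (p k.2.2) ∨
      (p k.2.1 ∈ openSegment ℝ (p k.1) (p k.2.2) ∧ p k.1 ≠ p k.2.2 ∧
        Half (ot P) (p k.1) (p k.2.1) (p k.2.2))) ∧
    ThreeCorners f fun k => p k.2.1 ∈ openSegment ℝ (p k.1) (p k.2.2) := by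
  have hpos : 0 < f.length := by omega
  set g : ℕ → V := gv f hpos with hg
  have hd : ∀ i, (g i, g (i + 1)) ∈ dartsOf f := fun i => (mem_dartsOf hpos).2 ⟨i, rfl⟩
  have hside : ∀ i, ∃ s, OnSide P s (p (g i)) (p (g (i + 1))) := fun i =>
    side_of_left (hne _ (hd i)) (hl _ (hd i)) (hx _ (hd i))
  choose side hs using hside
  have hper : ∀ i, p (g (i + f.length)) = p (g i) := fun i => by rw [hg, gv_add]
  -- description of the corners
  have hcor : ∀ i, (side (i + 1) = side i ∧
      p (g (i + 1)) ∈ openSegment ℝ (p (g i)) (p (g (i + 2))) ∧ p (g i) ≠ p (g (i + 2)) ∧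
        Half (ot P) (p (g i)) (p (g (i + 1))) (p (g (i + 2)))) ∨
      (side (i + 1) = side i + 1 ∧ 0 < det3 (p (g i)) (p (g (i + 1))) (p (g (i + 2)))) := by
    intro i
    have a := hs i
    have b := hs (i + 1)
    rcases a.turn hP b with h | h
    · left
      rw [h] at b
      exact ⟨h, a.straight hP b⟩
    · right
      rw [h] at b
      exact ⟨h, a.left_turn hP b⟩
  refine ⟨?_, ?_⟩
  · intro k hk
    obtain ⟨i, rfl⟩ := (mem_cornersOf hpos).1 hk
    rcases hcor i with h | h
    · exact Or.inr h.2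
    · exact Or.inl h.2
  · have ht := exists_turn (g := fun i => p (g i)) hP hpos hper side hs
    choose j hj1 hj2 using ht
    have hz : ∀ s, hh P s (p (g (j s + 1))) = 0 ∧ hh P (s + 1) (p (g (j s + 1))) = 0 := by
      intro s
      have a := hs (j s)
      have b := hs (j s + 1)
      rw [hj1] at a
      rw [hj2] at b
      exact ⟨a.zero_right, b.zero⟩
    have hne' : ∀ s, (g (j s), g (j s + 1), g (j s + 2)) ≠
        (g (j (s + 1)), g (j (s + 1) + 1), g (j (s + 1) + 2)) := by
      intro s h
      have h1 : g (j s + 1) = g (j (s + 1) + 1) := congrArg (fun k => k.2.1) h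
      have a := hz s
      have b := hz (s + 1)
      rw [← h1] at b
      have c := hh_sum P s (p (g (j s + 1)))
      have e1 : s + 1 + 1 = s + 2 := by rw [add_assoc]; rfl
      rw [e1] at b
      linarith [a.1, a.2, b.1, b.2]
    refine ⟨_, _, _, hne' 0, fun h => hne' 2 h.symm, hne' 1, ?_⟩
    intro k
    constructor
    · rintro ⟨hk, hQ⟩
      obtain ⟨i, rfl⟩ := (mem_cornersOf hpos).1 hk
      rcases hcor i with h | h
      · exact absurd h.2.1 hQ
      · have a := hs i
        have b := hs (i + 1)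
        rw [h.1] at b
        have h1 : p (g (i + 1)) = p (g (j (side i) + 1)) :=
          vertex_unique hP a.zero_right b.zero (hz _).1 (hz _).2
        have h2 : g (i + 1) = g (j (side i) + 1) := hinj _ (hd (i + 1)) _ (hd (j (side i) + 1)) h1
        have h3 := gv_inj hpos hf h2
        have h4 : i % f.length = j (side i) % f.length := Nat.ModEq.add_right_cancel' 1 h3
        have h5 : (i + 2) % f.length = (j (side i) + 2) % f.length := Nat.ModEq.add_right 2 h4
        have e : (g i, g (i + 1), g (i + 2)) =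
            (g (j (side i)), g (j (side i) + 1), g (j (side i) + 2)) := by
          rw [hg, gv_congr f hpos h4, gv_congr f hpos h3, gv_congr f hpos h5]
        rw [← hg, e]
        rcases three_cases (side i) 0 with r | r | r
        · left; rw [r]
        · right; left; rw [r]
        · right; right; rw [r]; rfl
    · have key : ∀ s, (g (j s), g (j s + 1), g (j s + 2)) ∈ cornersOf f ∧
          ¬ p (g (j s + 1)) ∈ openSegment ℝ (p (g (j s))) (p (g (j s + 2))) := by
        intro s
        refine ⟨(mem_cornersOf hpos).2 ⟨_, rfl⟩, fun hQ => ?_⟩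
        have a := hs (j s)
        have b := hs (j s + 1)
        rw [hj1] at a
        rw [hj2] at b
        have := a.left_turn hP b
        rw [det3_openSegment hQ] at this
        exact lt_irrefl _ this
      rintro (rfl | rfl | rfl)
      · exact key 0
      · exact key (0 + 1)
      · exact key (1 + 1)

end FT

open FT in
/-- G-FACETRI -/
theorem tFaceTri : TFaceTri := by
  intro V G S hw i
  obtain ⟨A, B, C, hABC, hface⟩ := S.triangle i
  obtain ⟨P, hP, hT⟩ : ∃ P : Fin 3 → Plane, 0 < dd P ∧ S.face i = ot P := by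
    rcases lt_or_gt_of_ne hABC with h | h
    · refine ⟨![A, C, B], ?_, ?_⟩
      · have e : dd ![A, C, B] = - det3 A B C := by
          simp only [dd, det3, Matrix.cons_val_zero, Matrix.cons_val_one, Matrix.cons_val]
          ring
        rw [e]; linarith
      · have e : dd ![A, C, B] = - det3 A B C := by
          simp only [dd, det3, Matrix.cons_val_zero, Matrix.cons_val_one, Matrix.cons_val]
          ring
        have hP : 0 < dd ![A, C, B] := by rw [e]; linarith
        rw [hface, ← interior_ct _ hP, ← hull_eq _ hP]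
        congr 2
        ext x
        simp only [Set.mem_insert_iff, Set.mem_singleton_iff, Matrix.cons_val_zero,
          Matrix.cons_val_one, Matrix.cons_val]
        tauto
    · have hP : 0 < dd ![A, B, C] := h
      refine ⟨![A, B, C], hP, ?_⟩
      rw [hface, ← interior_ct _ hP, ← hull_eq _ hP]
      rfl
  have hmem : G.inner.get i ∈ G.inner := List.get_mem _ _
  have hdG : ∀ d ∈ dartsOf (G.inner.get i), d ∈ G.darts := by
    intro d hd
    unfold PlaneMap.darts PlaneMap.walks
    exact List.mem_flatMap.2 ⟨_, List.mem_cons_of_mem _ hmem, hd⟩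
  have h := main (G.inner.get i) (hw _ hmem).1 (hw _ hmem).2 S.pos P hP
    (fun d hd e he => S.inj d (hdG d hd) e (hdG e he))
    (fun d hd h => by
      have h1 := S.loopless d (hdG d hd)
      exact h1 (S.inj d (hdG d hd) d.swap (S.symm d (hdG d hd)) h))
    (fun d hd => by
      rw [← hT]
      exact (S.face_isFace i).left d hd)
    (fun d hd x hx hx' => by
      rw [← hT] at hx'
      obtain ⟨y, hy, hcomp⟩ := (S.face_isFace i).component
      rw [hcomp] at hx'
      have h1 := connectedComponentIn_subset _ _ hx'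
      apply h1
      exact ⟨d, hdG d hd, openSegment_subset_segment ℝ _ _ hx⟩)
  rw [← hT] at h
  exact h

end Pool.Agent.SLN
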