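import Pool.Agent.SLN.Lib

set_option autoImplicit false
set_option linter.unusedSimpArgs false

/-!
# Faces of the tiles are in no closed set
-/

namespace Pool.Agent.SLN

open Pool.Agent.PAH (Plane det3 ccwAngle LiesLeft dartsOf cornersOf DecisionProblem PolyReduces
  ChainEq FanPos)

/-! ## The tile lemma -/

theorem Esc.cons {V : Type} {S : V → V → Prop} {Z T : Set V} {v w : V} (h : S v w)
    (hw : Esc S Z T w) : Esc S (insert v Z) T v :=
  Esc.step v w (Set.mem_insert _ _) h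
    (Esc.mono (fun _ _ h => h) (Set.subset_insert _ _) (fun _ h => h) hw)

theorem tile_lemma {S : VX → VX → Prop} {T : Set VX} {G : PlaneMap VX} {X : Set VX}
    {e₁ e₂ : VX} (hX : Closed G S X e₁ e₂) (hT : ∀ v ∈ T, v ∈ X → v = e₁ ∨ v = e₂)
    {a b c d n0 n1 n2 n3 n4 n5 : VX}
    (a0 : S n0 b) (a1 : S n0 n1) (a2 : S n1 a) (a3 : S n1 n2) (a4 : S n2 c) (a5 : S n2 n0)
    (a6 : S n5 d) (a7 : S n5 n3) (a8 : S n3 c) (a9 : S n3 n4) (a10 : S n4 a) (a11 : S n4 n5)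
    (c2 : S c n2) (c3 : S c n3) {Zb Zd Ze : Set VX} (hb : Esc S Zb T b) (hd : Esc S Zd T d)
    (he : Esc S Ze T a) (hbd : Disjoint Zb Zd) (hbe : Disjoint Zb Ze) (hde : Disjoint Zd Ze)
    (hn : [c, n0, n1, n2, n3, n4, n5].Nodup)
    (hZ : ∀ z ∈ [c, n0, n1, n2, n3, n4, n5], z ∉ Zb ∧ z ∉ Zd ∧ z ∉ Ze) :
    ∀ f ∈ prism a b c n0 n1 n2 ++ prism c d a n5 n3 n4 ++ [[a, n1, n2, c, n3, n4]],
      ¬ ∀ v ∈ f, v ∈ X := by
  simp only [List.nodup_cons, List.mem_cons, not_or, List.not_mem_nil, not_false_eq_true,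
    List.nodup_nil, and_true] at hn
  obtain ⟨⟨c0, c1, c22, c33, c4, c5⟩, ⟨m01, m02, m03, m04, m05⟩, ⟨m12, m13, m14, m15⟩,
    ⟨m23, m24, m25⟩, ⟨m34, m35⟩, m45⟩ := hn
  simp only [List.mem_cons, List.not_mem_nil, or_false, forall_eq_or_imp, forall_eq] at hZ
  obtain ⟨⟨zcb, zcd, zce⟩, ⟨z0b, z0d, z0e⟩, ⟨z1b, z1d, z1e⟩, ⟨z2b, z2d, z2e⟩, ⟨z3b, z3d, z3e⟩,
    ⟨z4b, z4d, z4e⟩, ⟨z5b, z5d, z5e⟩⟩ := hZ
  have c0' := Ne.symm c0
  have c1' := Ne.symm c1
  have c2' := Ne.symm c22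
  have c3' := Ne.symm c33
  have c4' := Ne.symm c4
  have c5' := Ne.symm c5
  have m01' := Ne.symm m01
  have m02' := Ne.symm m02
  have m03' := Ne.symm m03
  have m04' := Ne.symm m04
  have m05' := Ne.symm m05
  have m12' := Ne.symm m12
  have m13' := Ne.symm m13
  have m14' := Ne.symm m14
  have m15' := Ne.symm m15
  have m23' := Ne.symm m23
  have m24' := Ne.symm m24
  have m25' := Ne.symm m25
  have m34' := Ne.symm m34
  have m35' := Ne.symm m35
  have m45' := Ne.symm m45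
  have hbd' := hbd.symm
  have hbe' := hbe.symm
  have hde' := hde.symm
  intro f hf hv
  simp only [prism, List.cons_append, List.nil_append, List.mem_cons, List.not_mem_nil,
    or_false] at hf
  rcases hf with rfl | rfl | rfl | rfl | rfl | rfl | rfl
  · -- [a, b, n0, n1]
    refine three_escapes hX hT (v₁ := a) (v₂ := b) (v₃ := n1) (Z₁ := Ze) (Z₂ := Zb)
      ?_ ?_ ?_ (hv _ (by simp)) (hv _ (by simp)) (hv _ (by simp)) he hb
      (((((((hd.cons a6).cons a11).cons a9).cons c3).cons a4).cons a3))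
    all_goals simp only [Set.disjoint_insert_left, Set.disjoint_insert_right, Set.mem_insert_iff,
      not_or, *]
    all_goals simp
  · -- [n0, b, c, n2]
    refine three_escapes hX hT (v₁ := n0) (v₂ := b) (v₃ := c) (Z₂ := Zb)
      ?_ ?_ ?_ (hv _ (by simp)) (hv _ (by simp)) (hv _ (by simp)) ((he.cons a2).cons a1) hb
      (((((hd.cons a6).cons a11).cons a9).cons c3))
    all_goals simp only [Set.disjoint_insert_left, Set.disjoint_insert_right, Set.mem_insert_iff,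
      not_or, *]
    all_goals simp
  · -- [n1, n0, n2]
    refine three_escapes hX hT (v₁ := n0) (v₂ := n1) (v₃ := n2)
      ?_ ?_ ?_ (hv _ (by simp)) (hv _ (by simp)) (hv _ (by simp)) (hb.cons a0) (he.cons a2)
      (((((hd.cons a6).cons a11).cons a9).cons c3).cons a4)
    all_goals simp only [Set.disjoint_insert_left, Set.disjoint_insert_right, Set.mem_insert_iff,
      not_or, *]
    all_goals simp
  · -- [c, d, n5, n3]
    refine three_escapes hX hT (v₁ := d) (v₂ := c) (v₃ := n3) (Z₁ := Zd)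
      ?_ ?_ ?_ (hv _ (by simp)) (hv _ (by simp)) (hv _ (by simp)) hd
      (((hb.cons a0).cons a5).cons c2) ((he.cons a10).cons a9)
    all_goals simp only [Set.disjoint_insert_left, Set.disjoint_insert_right, Set.mem_insert_iff,
      not_or, *]
    all_goals simp
  · -- [n5, d, a, n4]
    refine three_escapes hX hT (v₁ := a) (v₂ := d) (v₃ := n5) (Z₁ := Ze) (Z₂ := Zd)
      ?_ ?_ ?_ (hv _ (by simp)) (hv _ (by simp)) (hv _ (by simp)) he hd
      (((((hb.cons a0).cons a5).cons c2).cons a8).cons a7)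
    all_goals simp only [Set.disjoint_insert_left, Set.disjoint_insert_right, Set.mem_insert_iff,
      not_or, *]
    all_goals simp
  · -- [n3, n5, n4]
    refine three_escapes hX hT (v₁ := n5) (v₂ := n4) (v₃ := n3)
      ?_ ?_ ?_ (hv _ (by simp)) (hv _ (by simp)) (hv _ (by simp)) (hd.cons a6) (he.cons a10)
      (((((hb.cons a0).cons a5).cons c2).cons a8))
    all_goals simp only [Set.disjoint_insert_left, Set.disjoint_insert_right, Set.mem_insert_iff,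
      not_or, *]
    all_goals simp
  · -- [a, n1, n2, c, n3, n4]
    refine three_escapes hX hT (v₁ := a) (v₂ := n2) (v₃ := n4) (Z₁ := Ze)
      ?_ ?_ ?_ (hv _ (by simp)) (hv _ (by simp)) (hv _ (by simp)) he
      ((hb.cons a0).cons a5) ((hd.cons a6).cons a11)
    all_goals simp only [Set.disjoint_insert_left, Set.disjoint_insert_right, Set.mem_insert_iff,
      not_or, *]
    all_goals simp

/-! ## Regions and suspended targets -/

/-- a set of vertices given by a predicate on row, column and kind -/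
def RG (P : ℕ → ℕ → ℕ → Prop) : Set VX := {z | P z.1 z.2.1 z.2.2}

/-- suspensions and hubs -/
def Tm (N M : ℕ) : Set VX :=
  {v | v = s1 ∨ v = s2 ∨ v = s3 ∨ ∃ b c, 1 ≤ b ∧ b < N ∧ c < M ∧
    (v = hy N b c ∨ v = hc N b c ∨ v = hd N b c)}

theorem mem_nd {P : ℕ → ℕ → ℕ → Prop} {r c i : ℕ} : nd r c i ∈ RG P ↔ P r c (12 + i) := Iff.rfl
theorem mem_uu {P : ℕ → ℕ → ℕ → Prop} {r c : ℕ} : uu r c ∈ RG P ↔ P r c 3 := Iff.rfl
theorem mem_xx {P : ℕ → ℕ → ℕ → Prop} {r c : ℕ} : xx r c ∈ RG P ↔ P r c 4 := Iff.rfl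
theorem mem_qq {P : ℕ → ℕ → ℕ → Prop} {r c : ℕ} : qq r c ∈ RG P ↔ P r c 5 := Iff.rfl
theorem mem_vv {P : ℕ → ℕ → ℕ → Prop} {r c : ℕ} : vv r c ∈ RG P ↔ P r c 10 := Iff.rfl
theorem mem_ww {P : ℕ → ℕ → ℕ → Prop} {r c : ℕ} : ww r c ∈ RG P ↔ P r c 11 := Iff.rfl

theorem mem_hub {P : ℕ → ℕ → ℕ → Prop} {N i b c : ℕ} (h : b ≤ N) (h0 : b = 0 → P 0 0 0)
    (hN : b = N → P 0 0 1) (hb : 1 ≤ b → b < N → P b c i) : hub N i b c ∈ RG P := by
  unfold hub
  split_ifs with h1 h2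
  · exact h0 h1
  · exact hN h2
  · exact hb (by omega) (by omega)

theorem mem_pp {P : ℕ → ℕ → ℕ → Prop} {N b j : ℕ} (h : b ≤ N) (h0 : b = 0 ∨ j = 0 → P 0 0 0)
    (hN : b = N → P 0 0 1) (hb : 1 ≤ b → b < N → 1 ≤ j → P b j 9) : pp N b j ∈ RG P := by
  unfold pp
  split_ifs with h1 h2
  · exact h0 h1
  · exact hN h2
  · exact hb (by omega) (by omega) (by omega)

theorem s1_Tm (N M : ℕ) : s1 ∈ Tm N M := Or.inl rfl
theorem s2_Tm (N M : ℕ) : s2 ∈ Tm N M := Or.inr (Or.inl rfl)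
theorem s3_Tm (N M : ℕ) : s3 ∈ Tm N M := Or.inr (Or.inr (Or.inl rfl))

theorem hub_Tm {N M b c i : ℕ} (hb : b ≤ N) (hc : c < M) (hi : i = 6 ∨ i = 7 ∨ i = 8) :
    hub N i b c ∈ Tm N M := by
  by_cases h0 : b = 0
  · subst h0
    exact s1_Tm N M
  by_cases h1 : b = N
  · have : hub N i b c = s2 := by
      unfold hub
      rw [if_neg h0, if_pos h1]
    rw [this]
    exact s2_Tm N M
  · refine Or.inr (Or.inr (Or.inr ⟨b, c, by omega, by omega, hc, ?_⟩))
    rcases hi with rfl | rfl | rfl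
    · exact Or.inl rfl
    · exact Or.inr (Or.inl rfl)
    · exact Or.inr (Or.inr rfl)

theorem hy_Tm {N M b c : ℕ} (hb : b ≤ N) (hc : c < M) : hy N b c ∈ Tm N M :=
  hub_Tm hb hc (Or.inl rfl)
theorem hc_Tm {N M b c : ℕ} (hb : b ≤ N) (hc : c < M) : Pool.Agent.SLN.hc N b c ∈ Tm N M :=
  hub_Tm hb hc (Or.inr (Or.inl rfl))
theorem hd_Tm {N M b c : ℕ} (hb : b ≤ N) (hc : c < M) : Pool.Agent.SLN.hd N b c ∈ Tm N M :=
  hub_Tm hb hc (Or.inr (Or.inr rfl))

/-- vertices of `Tm` in a closed set are exits -/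
theorem Tm_exit {N M : ℕ} {B : ℕ → ℕ → Bool} {S : VX → VX → Prop} {X : Set VX} {e₁ e₂ : VX}
    (hX : Closed (grid N M B) S X e₁ e₂)
    (hH : ∀ b c, 1 ≤ b → b < N → c < M →
      ∀ h, (h = hy N b c ∨ h = hc N b c ∨ h = hd N b c) → h ∈ X → h = e₁ ∨ h = e₂) :
    ∀ v ∈ Tm N M, v ∈ X → v = e₁ ∨ v = e₂ := by
  intro v hv hvX
  by_contra hcon
  rw [not_or] at hcon
  obtain ⟨h1, h2, h3⟩ := hX.susp v hvX hcon.1 hcon.2
  rcases hv with h | h | h | ⟨b, c, hb1, hb2, hc, h⟩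
  · exact h1 h
  · exact h2 h
  · exact h3 h
  · rcases hH b c hb1 hb2 hc v h hvX with h | h
    · exact hcon.1 h
    · exact hcon.2 h

/-- three escapes with regions -/
theorem core3 {S : VX → VX → Prop} {T : Set VX} {G : PlaneMap VX} {X : Set VX}
    {e₁ e₂ : VX} (hX : Closed G S X e₁ e₂) (hT : ∀ v ∈ T, v ∈ X → v = e₁ ∨ v = e₂)
    {P₁ P₂ P₃ : ℕ → ℕ → ℕ → Prop} {v₁ v₂ v₃ : VX} (h₁ : Esc S (RG P₁) T v₁)
    (h₂ : Esc S (RG P₂) T v₂) (h₃ : Esc S (RG P₃) T v₃)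
    (h12 : ∀ i j k, P₁ i j k → P₂ i j k → False) (h13 : ∀ i j k, P₁ i j k → P₃ i j k → False)
    (h23 : ∀ i j k, P₂ i j k → P₃ i j k → False) {f : List VX} (m₁ : v₁ ∈ f) (m₂ : v₂ ∈ f)
    (m₃ : v₃ ∈ f) : ¬ ∀ v ∈ f, v ∈ X := fun hv =>
  three_escapes hX hT (Set.disjoint_left.2 fun _ h h' => h12 _ _ _ h h')
    (Set.disjoint_left.2 fun _ h h' => h13 _ _ _ h h')
    (Set.disjoint_left.2 fun _ h h' => h23 _ _ _ h h') (hv _ m₁) (hv _ m₂) (hv _ m₃) h₁ h₂ h₃

/-- the tile lemma with regions, the end `c` is taken -/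
theorem tile_c {S : VX → VX → Prop} {T : Set VX} {G : PlaneMap VX} {X : Set VX}
    {e₁ e₂ : VX} (hX : Closed G S X e₁ e₂) (hT : ∀ v ∈ T, v ∈ X → v = e₁ ∨ v = e₂)
    {a b c d : VX} {r k i : ℕ} (t : TileArcs S a b c d r k i) (c2 : S c (nd r k (i + 2)))
    (c3 : S c (nd r k (i + 3))) {Pb Pd Pe : ℕ → ℕ → ℕ → Prop} (hb : Esc S (RG Pb) T b)
    (hd : Esc S (RG Pd) T d) (he : Esc S (RG Pe) T a) (hbd : ∀ x y z, Pb x y z → Pd x y z → False)
    (hbe : ∀ x y z, Pb x y z → Pe x y z → False) (hde : ∀ x y z, Pd x y z → Pe x y z → False)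
    (hc : c.2.2 < 12)
    (hZ : ∀ x y z, (x = c.1 ∧ y = c.2.1 ∧ z = c.2.2) ∨ (x = r ∧ y = k ∧ 12 + i ≤ z ∧ z < 18 + i) →
      ¬ Pb x y z ∧ ¬ Pd x y z ∧ ¬ Pe x y z) :
    ∀ f ∈ tile a b c d r k i, ¬ ∀ v ∈ f, v ∈ X := by
  have hcn : ∀ j, c ≠ nd r k j := by
    intro j h
    rw [h] at hc
    simp only [nd] at hc
    omega
  refine tile_lemma hX hT t.a0 t.a1 t.a2 t.a3 t.a4 t.a5 t.a6 t.a7 t.a8 t.a9 t.a10 t.a11 c2 c3
    hb hd he (Set.disjoint_left.2 fun _ h h' => hbd _ _ _ h h')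
    (Set.disjoint_left.2 fun _ h h' => hbe _ _ _ h h')
    (Set.disjoint_left.2 fun _ h h' => hde _ _ _ h h') ?_ ?_
  · simp only [List.nodup_cons, List.mem_cons, not_or, List.not_mem_nil, not_false_eq_true,
      List.nodup_nil, and_true, hcn, true_and]
    simp only [nd, Prod.mk.injEq, true_and]
    omega
  · intro z hz
    simp only [List.mem_cons, List.not_mem_nil, or_false] at hz
    have key : (z.1 = c.1 ∧ z.2.1 = c.2.1 ∧ z.2.2 = c.2.2) ∨
        (z.1 = r ∧ z.2.1 = k ∧ 12 + i ≤ z.2.2 ∧ z.2.2 < 18 + i) := by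
      rcases hz with rfl | rfl | rfl | rfl | rfl | rfl | rfl
      · exact Or.inl ⟨rfl, rfl, rfl⟩
      all_goals
        right
        simp only [nd, true_and]
        omega
    exact hZ z.1 z.2.1 z.2.2 key

/-- the tile lemma with regions, the end `a` is taken -/
theorem tile_a {S : VX → VX → Prop} {T : Set VX} {G : PlaneMap VX} {X : Set VX}
    {e₁ e₂ : VX} (hX : Closed G S X e₁ e₂) (hT : ∀ v ∈ T, v ∈ X → v = e₁ ∨ v = e₂)
    {a b c d : VX} {r k i : ℕ} (t : TileArcs S a b c d r k i) (a4 : S a (nd r k (i + 4)))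
    (a1 : S a (nd r k (i + 1))) {Pb Pd Pe : ℕ → ℕ → ℕ → Prop} (hb : Esc S (RG Pb) T b)
    (hd : Esc S (RG Pd) T d) (he : Esc S (RG Pe) T c) (hbd : ∀ x y z, Pb x y z → Pd x y z → False)
    (hbe : ∀ x y z, Pb x y z → Pe x y z → False) (hde : ∀ x y z, Pd x y z → Pe x y z → False)
    (ha : a.2.2 < 12)
    (hZ : ∀ x y z, (x = a.1 ∧ y = a.2.1 ∧ z = a.2.2) ∨ (x = r ∧ y = k ∧ 12 + i ≤ z ∧ z < 18 + i) →
      ¬ Pb x y z ∧ ¬ Pd x y z ∧ ¬ Pe x y z) :
    ∀ f ∈ tile a b c d r k i, ¬ ∀ v ∈ f, v ∈ X := by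
  have hcn : ∀ j, a ≠ nd r k j := by
    intro j h
    rw [h] at ha
    simp only [nd] at ha
    omega
  have key := tile_lemma hX hT t.a6 t.a7 t.a8 t.a9 t.a10 t.a11 t.a0 t.a1 t.a2 t.a3 t.a4 t.a5 a4 a1
    hd hb he (Set.disjoint_left.2 fun _ h h' => hbd _ _ _ h' h)
    (Set.disjoint_left.2 fun _ h h' => hde _ _ _ h h')
    (Set.disjoint_left.2 fun _ h h' => hbe _ _ _ h h') ?_ ?_
  · intro f hf hv
    simp only [tile, prism, List.cons_append, List.nil_append, List.mem_cons, List.not_mem_nil,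
      or_false] at hf
    rcases hf with rfl | rfl | rfl | rfl | rfl | rfl | rfl
    · exact key _ (by simp [prism]) hv
    · exact key _ (by simp [prism]) hv
    · exact key _ (by simp [prism]) hv
    · exact key _ (by simp [prism]) hv
    · exact key _ (by simp [prism]) hv
    · exact key _ (by simp [prism]) hv
    · refine key [c, nd r k (i + 3), nd r k (i + 4), a, nd r k (i + 1), nd r k (i + 2)]
        (by simp [prism]) fun v hv' => hv v ?_
      simp only [List.mem_cons, List.not_mem_nil, or_false] at hv' ⊢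
      tauto
  · simp only [List.nodup_cons, List.mem_cons, not_or, List.not_mem_nil, not_false_eq_true,
      List.nodup_nil, and_true, hcn, true_and]
    simp only [nd, Prod.mk.injEq, true_and]
    omega
  · intro z hz
    simp only [List.mem_cons, List.not_mem_nil, or_false] at hz
    have key : (z.1 = a.1 ∧ z.2.1 = a.2.1 ∧ z.2.2 = a.2.2) ∨
        (z.1 = r ∧ z.2.1 = k ∧ 12 + i ≤ z.2.2 ∧ z.2.2 < 18 + i) := by
      rcases hz with rfl | rfl | rfl | rfl | rfl | rfl | rfl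
      · exact Or.inl ⟨rfl, rfl, rfl⟩
      all_goals
        right
        simp only [nd, true_and]
        omega
    have h := hZ z.1 z.2.1 z.2.2 key
    exact ⟨h.2.1, h.1, h.2.2⟩

/-! ## Elementary escapes -/

/-- the place of a hub of band `b` -/
def H (N t b c : ℕ) : ℕ → ℕ → ℕ → Prop := fun i j k =>
  (b = 0 ∧ k = 0) ∨ (b = N ∧ k = 1) ∨ (1 ≤ b ∧ b < N ∧ i = b ∧ j = c ∧ k = t)

/-- the escape from `pp N b (c + 1)` to the lower right hub -/
def P32 (N b c : ℕ) : ℕ → ℕ → ℕ → Prop := fun i j k =>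
  (b = 0 ∧ k = 0) ∨ (b = N ∧ k = 1) ∨ (1 ≤ b ∧ b < N ∧ i = b ∧
    ((j = c + 1 ∧ k = 9) ∨ (j = c ∧ (k = 44 ∨ k = 42 ∨ k = 8))))

/-- the escape from `pp N b (c + 1)` to the upper right hub -/
def P25 (N b c : ℕ) : ℕ → ℕ → ℕ → Prop := fun i j k =>
  (b = 0 ∧ k = 0) ∨ (b = N ∧ k = 1) ∨ (1 ≤ b ∧ b < N ∧ i = b ∧
    ((j = c + 1 ∧ k = 9) ∨ (j = c ∧ (k = 37 ∨ k = 38 ∨ k = 36 ∨ k = 7))))

theorem eH {S : VX → VX → Prop} {N M b c i : ℕ} (hb : b ≤ N) (hc : c < M)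
    (hi : i = 6 ∨ i = 7 ∨ i = 8) {P : ℕ → ℕ → ℕ → Prop} (h : ∀ x y z, H N i b c x y z → P x y z) :
    Esc S (RG P) (Tm N M) (hub N i b c) := by
  refine Esc.done _ (mem_hub hb (fun h' => h _ _ _ ?_) (fun h' => h _ _ _ ?_)
    fun h1 h2 => h _ _ _ ?_) (hub_Tm hb hc hi)
  · exact Or.inl ⟨h', rfl⟩
  · exact Or.inr (Or.inl ⟨h', rfl⟩)
  · exact Or.inr (Or.inr ⟨h1, h2, rfl, rfl, rfl⟩)

theorem Esc.st {S : VX → VX → Prop} {T : Set VX} {P : ℕ → ℕ → ℕ → Prop} {v w : VX}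
    (h : v ∈ RG P) (hs : S v w) (hw : Esc S (RG P) T w) : Esc S (RG P) T v :=
  Esc.step v w h hs hw

theorem Esc.wd {S : VX → VX → Prop} {T : Set VX} {P P' : ℕ → ℕ → ℕ → Prop} {v : VX}
    (h : Esc S (RG P') T v) (hP : ∀ x y z, P' x y z → P x y z) : Esc S (RG P) T v :=
  h.mono (fun _ _ h => h) (fun _ h => hP _ _ _ h) (fun _ h => h)

section arcs
variable {N M : ℕ} {B : ℕ → ℕ → Bool} {R : ℕ → Bool} {S : VX → VX → Prop}

theorem e32 (hA : Arcs N M B R S) {b c : ℕ} (hb : b ≤ N) (hc : c < M) :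
    Esc S (RG (P32 N b c)) (Tm N M) (pp N b (c + 1)) := by
  by_cases h0 : b = 0
  · rw [h0, pp_zero]
    exact Esc.done _ (Or.inl ⟨rfl, rfl⟩) (s1_Tm N M)
  by_cases h1 : b = N
  · have : pp N b (c + 1) = s2 := by
      unfold pp
      rw [if_neg (by omega), if_pos h1]
    rw [this]
    exact Esc.done _ (Or.inr (Or.inl ⟨h1, rfl⟩)) (s2_Tm N M)
  have hb1 : 1 ≤ b := by omega
  have hb2 : b < N := by omega
  refine Esc.st (mem_pp hb ?_ ?_ ?_) (hA.p b c hb1 hb2 hc).1 (Esc.st (mem_nd.2 ?_)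
    (hA.d32 b c hb1 hb2 hc).2 (Esc.st (mem_nd.2 ?_) (hA.d30 b c hb1 hb2 hc).1
    (eH hb hc (Or.inr (Or.inr rfl)) ?_)))
  all_goals simp [P32, H]
  all_goals omega

theorem e25 (hA : Arcs N M B R S) {b c : ℕ} (hb : b ≤ N) (hc : c < M) :
    Esc S (RG (P25 N b c)) (Tm N M) (pp N b (c + 1)) := by
  by_cases h0 : b = 0
  · rw [h0, pp_zero]
    exact Esc.done _ (Or.inl ⟨rfl, rfl⟩) (s1_Tm N M)
  by_cases h1 : b = N
  · have : pp N b (c + 1) = s2 := by
      unfold pp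
      rw [if_neg (by omega), if_pos h1]
    rw [this]
    exact Esc.done _ (Or.inr (Or.inl ⟨h1, rfl⟩)) (s2_Tm N M)
  have hb1 : 1 ≤ b := by omega
  have hb2 : b < N := by omega
  refine Esc.st (mem_pp hb ?_ ?_ ?_) (hA.p b c hb1 hb2 hc).2 (Esc.st (mem_nd.2 ?_)
    (hA.d25 b c hb1 hb2 hc).2 (Esc.st (mem_nd.2 ?_) (hA.d26 b c hb1 hb2 hc).2
    (Esc.st (mem_nd.2 ?_) (hA.d24 b c hb1 hb2 hc).1 (eH hb hc (Or.inr (Or.inl rfl)) ?_))))
  all_goals simp [P25, H]
  all_goals omega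

theorem xu3 (hA : Arcs N M B R S) {r c : ℕ} (hr : r < N) (hc : c < M) (hR : R r = true) :
    Esc S (RG fun i j k => (i = r ∧ j = c ∧ (k = 4 ∨ k = 15 ∨ k = 16 ∨ k = 17)) ∨
    H N 6 r c i j k) (Tm N M) (xx r c) := by
  refine Esc.st (mem_xx.2 ?_) (hA.xR r c hr hc hR).2
    (Esc.st (mem_nd.2 ?_) (hA.tA r c hr hc).a9
    (Esc.st (mem_nd.2 ?_) (hA.tA r c hr hc).a11
    (Esc.st (mem_nd.2 ?_) (hA.tA r c hr hc).a6
    (eH (by omega) hc (Or.inl rfl) ?_))))
  all_goals simp [H]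
  all_goals omega

theorem xd2 (hA : Arcs N M B R S) {r c : ℕ} (hr : r < N) (hc : c < M) (hR : R r = true) :
    Esc S (RG fun i j k => (i = r ∧ j = c ∧ (k = 4 ∨ k = 14 ∨ k = 12)) ∨
    H N 6 (r + 1) c i j k) (Tm N M) (xx r c) := by
  refine Esc.st (mem_xx.2 ?_) (hA.xR r c hr hc hR).1
    (Esc.st (mem_nd.2 ?_) (hA.tA r c hr hc).a5
    (Esc.st (mem_nd.2 ?_) (hA.tA r c hr hc).a0
    (eH (by omega) hc (Or.inl rfl) ?_)))
  all_goals simp [H]
  all_goals omega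

theorem xu10 (hA : Arcs N M B R S) {r c : ℕ} (hr : r < N) (hc : c < M) (hR : R r = false) :
    Esc S (RG fun i j k => (i = r ∧ j = c ∧ (k = 4 ∨ k = 22 ∨ k = 23)) ∨
    H N 8 r c i j k) (Tm N M) (xx r c) := by
  refine Esc.st (mem_xx.2 ?_) (hA.xL r c hr hc hR).1
    (Esc.st (mem_nd.2 ?_) (hA.tB r c hr hc).a11
    (Esc.st (mem_nd.2 ?_) (hA.tB r c hr hc).a6
    (eH (by omega) hc (Or.inr (Or.inr rfl)) ?_)))
  all_goals simp [H]
  all_goals omega

theorem xd7 (hA : Arcs N M B R S) {r c : ℕ} (hr : r < N) (hc : c < M) (hR : R r = false) :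
    Esc S (RG fun i j k => (i = r ∧ j = c ∧ (k = 4 ∨ k = 19 ∨ k = 20 ∨ k = 18)) ∨
    H N 7 (r + 1) c i j k) (Tm N M) (xx r c) := by
  refine Esc.st (mem_xx.2 ?_) (hA.xL r c hr hc hR).2
    (Esc.st (mem_nd.2 ?_) (hA.tB r c hr hc).a3
    (Esc.st (mem_nd.2 ?_) (hA.tB r c hr hc).a5
    (Esc.st (mem_nd.2 ?_) (hA.tB r c hr hc).a0
    (eH (by omega) hc (Or.inr (Or.inl rfl)) ?_))))
  all_goals simp [H]
  all_goals omega

theorem qd8 (hA : Arcs N M B R S) {r c : ℕ} (hr : r < N) (hc : c < M) (hR : R r = true) :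
    Esc S (RG fun i j k => (i = r ∧ j = c ∧ (k = 5 ∨ k = 20 ∨ k = 18)) ∨
    H N 7 (r + 1) c i j k) (Tm N M) (qq r c) := by
  refine Esc.st (mem_qq.2 ?_) (hA.qR r c hr hc hR).1
    (Esc.st (mem_nd.2 ?_) (hA.tB r c hr hc).a5
    (Esc.st (mem_nd.2 ?_) (hA.tB r c hr hc).a0
    (eH (by omega) hc (Or.inr (Or.inl rfl)) ?_)))
  all_goals simp [H]
  all_goals omega

theorem qu9 (hA : Arcs N M B R S) {r c : ℕ} (hr : r < N) (hc : c < M) (hR : R r = true) :
    Esc S (RG fun i j k => (i = r ∧ j = c ∧ (k = 5 ∨ k = 21 ∨ k = 22 ∨ k = 23)) ∨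
    H N 8 r c i j k) (Tm N M) (qq r c) := by
  refine Esc.st (mem_qq.2 ?_) (hA.qR r c hr hc hR).2
    (Esc.st (mem_nd.2 ?_) (hA.tB r c hr hc).a9
    (Esc.st (mem_nd.2 ?_) (hA.tB r c hr hc).a11
    (Esc.st (mem_nd.2 ?_) (hA.tB r c hr hc).a6
    (eH (by omega) hc (Or.inr (Or.inr rfl)) ?_))))
  all_goals simp [H]
  all_goals omega

theorem uu4 (hA : Arcs N M B R S) {r c : ℕ} (hr : r < N) (hc : c < M) (hR : R r = false) :
    Esc S (RG fun i j k => (i = r ∧ j = c ∧ (k = 3 ∨ k = 16 ∨ k = 17)) ∨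
    H N 6 r c i j k) (Tm N M) (uu r c) := by
  refine Esc.st (mem_uu.2 ?_) (hA.uL r c hr hc hR).1
    (Esc.st (mem_nd.2 ?_) (hA.tA r c hr hc).a11
    (Esc.st (mem_nd.2 ?_) (hA.tA r c hr hc).a6
    (eH (by omega) hc (Or.inl rfl) ?_)))
  all_goals simp [H]
  all_goals omega

theorem uu1 (hA : Arcs N M B R S) {r c : ℕ} (hr : r < N) (hc : c < M) (hR : R r = false) :
    Esc S (RG fun i j k => (i = r ∧ j = c ∧ (k = 3 ∨ k = 13 ∨ k = 14 ∨ k = 12)) ∨
    H N 6 (r + 1) c i j k) (Tm N M) (uu r c) := by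
  refine Esc.st (mem_uu.2 ?_) (hA.uL r c hr hc hR).2
    (Esc.st (mem_nd.2 ?_) (hA.tA r c hr hc).a3
    (Esc.st (mem_nd.2 ?_) (hA.tA r c hr hc).a5
    (Esc.st (mem_nd.2 ?_) (hA.tA r c hr hc).a0
    (eH (by omega) hc (Or.inl rfl) ?_))))
  all_goals simp [H]
  all_goals omega

/-- from `qq`, unpressed, to the band below -/
theorem qdP (hA : Arcs N M B R S) {r c : ℕ} (hr : r < N) (hc : c < M) (hR : R r = false)
    {P P' : ℕ → ℕ → ℕ → Prop} (h : Esc S (RG P') (Tm N M) (pp N (r + 1) (c + 1)))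
    (hP : ∀ x y z, P' x y z → P x y z) (h5 : P r c 5) (h25 : P r c 25) (h26 : P r c 26)
    (h24 : P r c 24) : Esc S (RG P) (Tm N M) (qq r c) := by
  have h' := Esc.wd h hP
  cases hB : B r c with
  | false => exact Esc.st h5 (hA.qL r c hr hc hR hB).2 h'
  | true =>
    have t := hA.tW r c hr hc hB
    exact Esc.st h5 (hA.qLW r c hr hc hR hB).2 (Esc.st h25 t.a3 (Esc.st h26 t.a5
      (Esc.st h24 t.a0 h')))

/-- from `qq`, unpressed, to the band above -/
theorem quP (hA : Arcs N M B R S) {r c : ℕ} (hr : r < N) (hc : c < M) (hR : R r = false)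
    {P P' : ℕ → ℕ → ℕ → Prop} (h : Esc S (RG P') (Tm N M) (pp N r (c + 1)))
    (hP : ∀ x y z, P' x y z → P x y z) (h5 : P r c 5) (h28 : P r c 28) (h29 : P r c 29) :
    Esc S (RG P) (Tm N M) (qq r c) := by
  have h' := Esc.wd h hP
  cases hB : B r c with
  | false => exact Esc.st h5 (hA.qL r c hr hc hR hB).1 h'
  | true =>
    have t := hA.tW r c hr hc hB
    exact Esc.st h5 (hA.qLW r c hr hc hR hB).1 (Esc.st h28 t.a11 (Esc.st h29 t.a6 h'))

/-- from `uu`, pressed, to the band below -/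
theorem udP (hA : Arcs N M B R S) {r c : ℕ} (hr : r < N) (hc : c < M) (hR : R r = true)
    {P P' : ℕ → ℕ → ℕ → Prop} (h : Esc S (RG P') (Tm N M) (pp N (r + 1) (c + 1)))
    (hP : ∀ x y z, P' x y z → P x y z) (h3 : P r (c + 1) 3) (h26 : P r c 26)
    (h24 : P r c 24) : Esc S (RG P) (Tm N M) (uu r (c + 1)) := by
  have h' := Esc.wd h hP
  cases hB : B r c with
  | false => exact Esc.st h3 (hA.uR r c hr hc hR hB).1 h'
  | true =>
    have t := hA.tW r c hr hc hB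
    exact Esc.st h3 (hA.uRW r c hr hc hR hB).1 (Esc.st h26 t.a5 (Esc.st h24 t.a0 h'))

/-- from `uu`, pressed, to the band above -/
theorem uuP (hA : Arcs N M B R S) {r c : ℕ} (hr : r < N) (hc : c < M) (hR : R r = true)
    {P P' : ℕ → ℕ → ℕ → Prop} (h : Esc S (RG P') (Tm N M) (pp N r (c + 1)))
    (hP : ∀ x y z, P' x y z → P x y z) (h3 : P r (c + 1) 3) (h27 : P r c 27) (h28 : P r c 28)
    (h29 : P r c 29) : Esc S (RG P) (Tm N M) (uu r (c + 1)) := by
  have h' := Esc.wd h hP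
  cases hB : B r c with
  | false => exact Esc.st h3 (hA.uR r c hr hc hR hB).2 h'
  | true =>
    have t := hA.tW r c hr hc hB
    exact Esc.st h3 (hA.uRW r c hr hc hR hB).2 (Esc.st h27 t.a9 (Esc.st h28 t.a11
      (Esc.st h29 t.a6 h')))

/-- from the end of a pressed tile (first tile of the rail) -/
theorem escA (hN : 2 ≤ N) (hN2 : N % 2 = 0) (hP : Paired N R) (hA : Arcs N M B R S) {r c : ℕ}
    (hr : r < N) (hc : c < M) (hR : R r = true) : ∃ P : ℕ → ℕ → ℕ → Prop,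
      Esc S (RG P) (Tm N M) (uu r c) ∧
      (∀ x y z, H N 6 (r + 1) c x y z → P x y z → False) ∧
      (∀ x y z, H N 6 r c x y z → P x y z → False) ∧
      (∀ x y z, P x y z → ¬ (x = r ∧ y = c ∧ (z = 4 ∨ (12 ≤ z ∧ z < 18)))) := by
  rcases Nat.eq_zero_or_pos c with rfl | hc0
  · rcases Nat.mod_two_eq_zero_or_one r with h2 | h2
    · rcases Nat.eq_zero_or_pos r with rfl | hr0
      · have h1 : R 1 = false := by
          have := hP 0 rfl (by omega)
          rw [hR] at this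
          simpa using this
        refine ⟨fun i j k => (i = 0 ∧ j = 0 ∧ (k = 3 ∨ k = 31 ∨ k = 32)) ∨
          (i = 1 ∧ j = 0 ∧ (k = 3 ∨ k = 13 ∨ k = 14 ∨ k = 12)) ∨ H N 6 2 0 i j k, ?_, ?_, ?_, ?_⟩
        · have t := hA.tV 0 rfl (by omega)
          have k := (uu1 hA (r := 1) (c := 0) (by omega) hc h1)
          refine Esc.st (mem_uu.2 ?_) (hA.u0e 0 rfl (by omega) hR).2 (Esc.st (mem_nd.2 ?_)
            t.a3 (Esc.st (mem_nd.2 ?_) t.a4 (k.wd ?_)))
          all_goals simp [H]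
          all_goals omega
        all_goals simp only [H]
        all_goals intro x y z
        all_goals omega
      · refine ⟨fun i j k => (i = r ∧ j = 0 ∧ (k = 3 ∨ k = 31 ∨ k = 32 ∨ k = 30)) ∨ k = 0,
          ?_, ?_, ?_, ?_⟩
        · have t := hA.tV r h2 (by omega)
          refine Esc.st (mem_uu.2 ?_) (hA.u0e r h2 (by omega) hR).2 (Esc.st (mem_nd.2 ?_)
            t.a3 (Esc.st (mem_nd.2 ?_) t.a5 (Esc.st (mem_nd.2 ?_) t.a0
            (Esc.done _ (Or.inr rfl) (s1_Tm N M)))))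
          all_goals simp
        all_goals simp only [H]
        all_goals intro x y z
        all_goals omega
    · obtain ⟨q, rfl⟩ : ∃ q, r = q + 1 := ⟨r - 1, by omega⟩
      refine ⟨fun i j k => (i = q + 1 ∧ j = 0 ∧ k = 3) ∨ (i = q ∧ j = 0 ∧ (k = 32 ∨ k = 30)) ∨
        k = 0, ?_, ?_, ?_, ?_⟩
      · have t := hA.tV q (by omega) (by omega)
        refine Esc.st (mem_uu.2 ?_) (hA.u0o q (by omega) (by omega) hR).1 (Esc.st (mem_nd.2 ?_)
          t.a5 (Esc.st (mem_nd.2 ?_) t.a0 (Esc.done _ (Or.inr (Or.inr rfl)) (s1_Tm N M))))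
        all_goals simp
      all_goals simp only [H]
      all_goals intro x y z
      all_goals omega
  · obtain ⟨m, rfl⟩ : ∃ m, c = m + 1 := ⟨c - 1, by omega⟩
    by_cases hrN : r + 1 < N
    · refine ⟨fun i j k => (i = r ∧ j = m + 1 ∧ k = 3) ∨ (i = r ∧ j = m ∧ (k = 26 ∨ k = 24)) ∨
        P25 N (r + 1) m i j k, ?_, ?_, ?_, ?_⟩
      · refine udP hA hr (by omega) hR (e25 hA (by omega) (by omega))
          (fun x y z h => Or.inr (Or.inr h)) ?_ ?_ ?_
        all_goals simp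
      all_goals simp only [H, P25]
      all_goals intro x y z
      all_goals omega
    · refine ⟨fun i j k => (i = r ∧ j = m + 1 ∧ k = 3) ∨
        (i = r ∧ j = m ∧ (k = 27 ∨ k = 28 ∨ k = 29)) ∨ P32 N r m i j k, ?_, ?_, ?_, ?_⟩
      · refine uuP hA hr (by omega) hR (e32 hA (by omega) (by omega))
          (fun x y z h => Or.inr (Or.inr h)) ?_ ?_ ?_ ?_
        all_goals simp
      all_goals simp only [H, P32]
      all_goals intro x y z
      all_goals omega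

/-- from the exit of an unpressed rail -/
theorem escQ (hN : 2 ≤ N) (hA : Arcs N M B R S) {r c : ℕ} (hr : r < N) (hc : c < M)
    (hR : R r = true) : ∃ P : ℕ → ℕ → ℕ → Prop,
      Esc S (RG P) (Tm N M) (qq r c) ∧
      (∀ x y z, P32 N (r + 1) c x y z → P x y z → False) ∧
      (∀ x y z, P25 N r c x y z → P x y z → False) ∧
      (∀ x y z, P x y z → ¬ (x = r ∧ y = c ∧ 24 ≤ z ∧ z < 30) ∧ ¬ (z = 3)) := by
  by_cases hrN : r + 1 < N
  · refine ⟨_, qd8 hA hr hc hR, ?_, ?_, ?_⟩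
    all_goals simp only [H, P32, P25]
    all_goals intro x y z
    all_goals omega
  · refine ⟨_, qu9 hA hr hc hR, ?_, ?_, ?_⟩
    all_goals simp only [H, P32, P25]
    all_goals intro x y z
    all_goals omega

/-- from the border end of an unpressed rail -/
theorem escU (hN : 2 ≤ N) (hA : Arcs N M B R S) {r c : ℕ} (hr : r < N) (hc : c < M)
    (hR : R r = false) : ∃ P : ℕ → ℕ → ℕ → Prop,
      Esc S (RG P) (Tm N M) (uu r (c + 1)) ∧
      (∀ x y z, P32 N (r + 1) c x y z → P x y z → False) ∧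
      (∀ x y z, P25 N r c x y z → P x y z → False) ∧
      (∀ x y z, P x y z → ¬ (x = r ∧ y = c ∧ 24 ≤ z ∧ z < 30) ∧ ¬ (z = 5)) := by
  by_cases hcM : c + 1 < M
  · by_cases hrN : r + 1 < N
    · refine ⟨_, uu1 hA hr hcM hR, ?_, ?_, ?_⟩
      all_goals simp only [H, P32, P25]
      all_goals intro x y z
      all_goals omega
    · refine ⟨_, uu4 hA hr hcM hR, ?_, ?_, ?_⟩
      all_goals simp only [H, P32, P25]
      all_goals intro x y z
      all_goals omega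
  · have hcM' : c + 1 = M := by omega
    refine ⟨fun i j k => k = 2 ∨ (i = r ∧ j = c + 1 ∧ k = 3), ?_, ?_, ?_, ?_⟩
    · rw [hcM']
      exact Esc.st (Or.inr ⟨rfl, rfl, rfl⟩) (hA.uM r hr hR).1
        (Esc.done _ (Or.inl rfl) (s3_Tm N M))
    all_goals simp only [P32, P25]
    all_goals intro x y z
    all_goals omega

variable {X : Set VX} {e₁ e₂ : VX}

theorem faces_A (hN : 2 ≤ N) (hN2 : N % 2 = 0) (hP : Paired N R) (hA : Arcs N M B R S)
    (hX : Closed (grid N M B) S X e₁ e₂) (hT : ∀ v ∈ Tm N M, v ∈ X → v = e₁ ∨ v = e₂)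
    {r c : ℕ} (hr : r < N) (hc : c < M) : ∀ f ∈ tileA N r c, ¬ ∀ v ∈ f, v ∈ X := by
  have t := hA.tA r c hr hc
  have hb : Esc S (RG (H N 6 (r + 1) c)) (Tm N M) (hy N (r + 1) c) :=
    eH (by omega) hc (Or.inl rfl) fun _ _ _ h => h
  have hd' : Esc S (RG (H N 6 r c)) (Tm N M) (hy N r c) :=
    eH (by omega) hc (Or.inl rfl) fun _ _ _ h => h
  cases hR : R r with
  | true =>
    obtain ⟨P, he, h1, h2, h3⟩ := escA hN hN2 hP hA hr hc hR
    refine tile_c hX hT t (hA.xR r c hr hc hR).1 (hA.xR r c hr hc hR).2 hb hd' he ?_ h1 h2 ?_ ?_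
    · simp only [H]
      intro x y z
      omega
    · show 4 < 12
      omega
    · intro x y z h
      have h3' := h3 x y z
      simp only [H, xx] at h ⊢
      refine ⟨by omega, by omega, fun h4 => h3' h4 ?_⟩
      omega
  | false =>
    by_cases hrN : r + 1 < N
    · refine tile_a hX hT t (hA.uL r c hr hc hR).1 (hA.uL r c hr hc hR).2 hb hd'
        (xd7 hA hr hc hR) ?_ ?_ ?_ ?_ ?_
      all_goals simp only [H, uu]
      all_goals try intro x y z
      all_goals omega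
    · refine tile_a hX hT t (hA.uL r c hr hc hR).1 (hA.uL r c hr hc hR).2 hb hd'
        (xu10 hA hr hc hR) ?_ ?_ ?_ ?_ ?_
      all_goals simp only [H, uu]
      all_goals try intro x y z
      all_goals omega

theorem faces_B (hN : 2 ≤ N) (hA : Arcs N M B R S)
    (hX : Closed (grid N M B) S X e₁ e₂) (hT : ∀ v ∈ Tm N M, v ∈ X → v = e₁ ∨ v = e₂)
    {r c : ℕ} (hr : r < N) (hc : c < M) : ∀ f ∈ tileB N r c, ¬ ∀ v ∈ f, v ∈ X := by
  have t := hA.tB r c hr hc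
  have hb : Esc S (RG (H N 7 (r + 1) c)) (Tm N M) (Pool.Agent.SLN.hc N (r + 1) c) :=
    eH (by omega) hc (Or.inr (Or.inl rfl)) fun _ _ _ h => h
  have hd' : Esc S (RG (H N 8 r c)) (Tm N M) (hd N r c) :=
    eH (by omega) hc (Or.inr (Or.inr rfl)) fun _ _ _ h => h
  cases hR : R r with
  | true =>
    by_cases hrN : r + 1 < N
    · refine tile_c hX hT t (hA.qR r c hr hc hR).1 (hA.qR r c hr hc hR).2 hb hd'
        (xd2 hA hr hc hR) ?_ ?_ ?_ ?_ ?_
      all_goals simp only [H, qq]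
      all_goals try intro x y z
      all_goals omega
    · refine tile_c hX hT t (hA.qR r c hr hc hR).1 (hA.qR r c hr hc hR).2 hb hd'
        (xu3 hA hr hc hR) ?_ ?_ ?_ ?_ ?_
      all_goals simp only [H, qq]
      all_goals try intro x y z
      all_goals omega
  | false =>
    by_cases hrN : r + 1 < N
    · refine tile_a hX hT t (hA.xL r c hr hc hR).1 (hA.xL r c hr hc hR).2 hb hd'
        (qdP hA hr hc hR (P := fun i j k => (i = r ∧ j = c ∧ (k = 5 ∨ k = 25 ∨ k = 26 ∨ k = 24)) ∨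
          P32 N (r + 1) c i j k) (e32 hA (by omega) hc) (fun x y z h => Or.inr h) ?_ ?_ ?_ ?_)
        ?_ ?_ ?_ ?_ ?_
      · simp
      · simp
      · simp
      · simp
      all_goals simp only [H, xx, P32]
      all_goals try intro x y z
      all_goals omega
    · refine tile_a hX hT t (hA.xL r c hr hc hR).1 (hA.xL r c hr hc hR).2 hb hd'
        (quP hA hr hc hR (P := fun i j k => (i = r ∧ j = c ∧ (k = 5 ∨ k = 28 ∨ k = 29)) ∨
          P25 N r c i j k) (e25 hA (by omega) hc) (fun x y z h => Or.inr h) ?_ ?_ ?_)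
        ?_ ?_ ?_ ?_ ?_
      · simp
      · simp
      · simp
      all_goals simp only [H, xx, P25]
      all_goals try intro x y z
      all_goals omega

theorem faces_W (hN : 2 ≤ N) (hA : Arcs N M B R S)
    (hX : Closed (grid N M B) S X e₁ e₂) (hT : ∀ v ∈ Tm N M, v ∈ X → v = e₁ ∨ v = e₂)
    {r c : ℕ} (hr : r < N) (hc : c < M) (hB : B r c = true) :
    ∀ f ∈ tileW N r c, ¬ ∀ v ∈ f, v ∈ X := by
  have t := hA.tW r c hr hc hB
  have hb := e32 hA (b := r + 1) (c := c) (by omega) hc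
  have hd' := e25 hA (b := r) (c := c) (by omega) hc
  cases hR : R r with
  | true =>
    obtain ⟨P, he, h1, h2, h3⟩ := escQ hN hA hr hc hR
    refine tile_c hX hT t (hA.uRW r c hr hc hR hB).1 (hA.uRW r c hr hc hR hB).2 hb hd' he
      ?_ h1 h2 ?_ ?_
    · simp only [P32, P25]
      intro x y z
      omega
    · show 3 < 12
      omega
    · intro x y z h
      have h3' := h3 x y z
      simp only [P32, P25, uu] at h ⊢
      refine ⟨by omega, by omega, fun h4 => ?_⟩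
      have h3'' := h3' h4
      omega
  | false =>
    obtain ⟨P, he, h1, h2, h3⟩ := escU hN hA hr hc hR
    refine tile_a hX hT t (hA.qLW r c hr hc hR hB).1 (hA.qLW r c hr hc hR hB).2 hb hd' he
      ?_ h1 h2 ?_ ?_
    · simp only [P32, P25]
      intro x y z
      omega
    · show 5 < 12
      omega
    · intro x y z h
      have h3' := h3 x y z
      simp only [P32, P25, qq] at h ⊢
      refine ⟨by omega, by omega, fun h4 => ?_⟩
      have h3'' := h3' h4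
      omega

theorem faces_thin (hN : 2 ≤ N) (hA : Arcs N M B R S)
    (hX : Closed (grid N M B) S X e₁ e₂) (hT : ∀ v ∈ Tm N M, v ∈ X → v = e₁ ∨ v = e₂)
    {r c : ℕ} (hr : r < N) (hc : c < M) : ∀ f ∈ thin N r c, ¬ ∀ v ∈ f, v ∈ X := by
  have hb := e32 hA (b := r + 1) (c := c) (by omega) hc
  have hd' := e25 hA (b := r) (c := c) (by omega) hc
  intro f hf
  simp only [thin, List.mem_singleton] at hf
  subst hf
  have hbd : ∀ x y z, P32 N (r + 1) c x y z → P25 N r c x y z → False := by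
    simp only [P32, P25]
    intro x y z
    omega
  cases hR : R r with
  | true =>
    obtain ⟨P, he, h1, h2, h3⟩ := escQ hN hA hr hc hR
    exact core3 hX hT hb hd' he hbd h1 h2 (by simp) (by simp) (by simp)
  | false =>
    obtain ⟨P, he, h1, h2, h3⟩ := escU hN hA hr hc hR
    exact core3 hX hT hb hd' he hbd h1 h2 (by simp) (by simp) (by simp)

theorem faces_V (hN : 2 ≤ N) (hP : Paired N R) (hA : Arcs N M B R S) (hM : 1 ≤ M)
    (hX : Closed (grid N M B) S X e₁ e₂) (hT : ∀ v ∈ Tm N M, v ∈ X → v = e₁ ∨ v = e₂)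
    {r : ℕ} (hr : r + 1 < N) (h2 : r % 2 = 0) :
    ∀ f ∈ tile (uu r 0) s1 (uu (r + 1) 0) (hy N (r + 1) 0) r 0 18, ¬ ∀ v ∈ f, v ∈ X := by
  have t := hA.tV r h2 hr
  have hb : Esc S (RG fun _ _ k => k = 0) (Tm N M) s1 := Esc.done _ rfl (s1_Tm N M)
  have hd' : Esc S (RG (H N 6 (r + 1) 0)) (Tm N M) (hy N (r + 1) 0) :=
    eH (by omega) hM (Or.inl rfl) fun _ _ _ h => h
  cases hR : R r with
  | true =>
    have hR1 : R (r + 1) = false := by
      have := hP r h2 hr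
      rw [hR] at this
      simpa using this
    refine tile_a hX hT t (hA.u0e r h2 hr hR).1 (hA.u0e r h2 hr hR).2 hb hd'
      (uu1 hA (r := r + 1) (c := 0) hr hM hR1) ?_ ?_ ?_ ?_ ?_
    all_goals simp only [H, uu]
    all_goals try intro x y z
    all_goals omega
  | false =>
    have hR1 : R (r + 1) = true := by
      have := hP r h2 hr
      rw [hR] at this
      simpa using this
    rcases Nat.eq_zero_or_pos r with rfl | hr0
    · have t0 := hA.tA 0 0 (by omega) hM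
      refine tile_c hX hT t (hA.u0o 0 h2 hr hR1).1 (hA.u0o 0 h2 hr hR1).2 hb hd'
        (Pe := fun i j k => (i = 0 ∧ j = 0 ∧ (k = 3 ∨ k = 13 ∨ k = 14)) ∨
          (i = 0 ∧ j = 0 ∧ (k = 4 ∨ k = 19 ∨ k = 20 ∨ k = 18)) ∨ H N 7 1 0 i j k)
        (Esc.st (mem_uu.2 ?_) (hA.uL 0 0 (by omega) hM hR).2 (Esc.st (mem_nd.2 ?_) t0.a3
          (Esc.st (mem_nd.2 ?_) t0.a4 ((xd7 hA (r := 0) (c := 0) (by omega) hM hR).wd
            fun x y z h => Or.inr h)))) ?_ ?_ ?_ ?_ ?_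
      · simp
      · simp
      · simp
      all_goals simp only [H, uu]
      all_goals try intro x y z
      all_goals omega
    · refine tile_c hX hT t (hA.u0o r h2 hr hR1).1 (hA.u0o r h2 hr hR1).2 hb hd'
        (uu4 hA (r := r) (c := 0) (by omega) hM hR) ?_ ?_ ?_ ?_ ?_
      all_goals simp only [H, uu]
      all_goals try intro x y z
      all_goals omega

end arcs

/-- E-FACES for the faces of the rails -/
theorem faces_rail (N M : ℕ) (B : ℕ → ℕ → Bool) (R : ℕ → Bool) (S : VX → VX → Prop)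
    (hN : 2 ≤ N) (hN2 : N % 2 = 0) (_ : 1 ≤ M) (hP : Paired N R) (hA : Arcs N M B R S)
    (X : Set VX) (e₁ e₂ : VX) (hX : Closed (grid N M B) S X e₁ e₂)
    (hH : ∀ b c, 1 ≤ b → b < N → c < M →
      ∀ h, (h = hy N b c ∨ h = hc N b c ∨ h = hd N b c) → h ∈ X → h = e₁ ∨ h = e₂)
    {r c : ℕ} (hr : r < N) (hc : c < M) : ∀ f ∈ railFaces N B r c, ¬ ∀ v ∈ f, v ∈ X := by
  have hT := Tm_exit hX hH
  intro f hf
  simp only [railFaces, List.mem_append] at hf
  rcases hf with (hf | hf) | hf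
  · exact faces_A hN hN2 hP hA hX hT hr hc f hf
  · exact faces_B hN hA hX hT hr hc f hf
  · split_ifs at hf with hB
    · exact faces_W hN hA hX hT hr hc hB f hf
    · exact faces_thin hN hA hX hT hr hc f hf

/-- E-FACES for the variable tiles -/
theorem faces_var (N M : ℕ) (B : ℕ → ℕ → Bool) (R : ℕ → Bool) (S : VX → VX → Prop)
    (hN : 2 ≤ N) (_ : N % 2 = 0) (hM : 1 ≤ M) (hP : Paired N R) (hA : Arcs N M B R S)
    (X : Set VX) (e₁ e₂ : VX) (hX : Closed (grid N M B) S X e₁ e₂)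
    (hH : ∀ b c, 1 ≤ b → b < N → c < M →
      ∀ h, (h = hy N b c ∨ h = hc N b c ∨ h = hd N b c) → h ∈ X → h = e₁ ∨ h = e₂)
    {r : ℕ} (hr : r + 1 < N) (h2 : r % 2 = 0) :
    ∀ f ∈ tile (uu r 0) s1 (uu (r + 1) 0) (hy N (r + 1) 0) r 0 18, ¬ ∀ v ∈ f, v ∈ X :=
  faces_V hN hP hA hM hX (Tm_exit hX hH) hr h2

end Pool.Agent.SLN
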