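import Pool.Agent.SLN.Faces1

set_option autoImplicit false
set_option linter.unusedSimpArgs false

/-!
# The remaining faces are in no closed set
-/

namespace Pool.Agent.SLN

open Pool.Agent.PAH (Plane det3 ccwAngle LiesLeft dartsOf cornersOf DecisionProblem PolyReduces
  ChainEq FanPos)

section arcs
variable {N M : ℕ} {B : ℕ → ℕ → Bool} {R : ℕ → Bool} {S : VX → VX → Prop}

/-- from the left end of a pressed rail of even number to the band below -/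
theorem u0eh (hA : Arcs N M B R S) {r : ℕ} (h2 : r % 2 = 0) (hr : r + 1 < N) (hM : 1 ≤ M)
    (hR : R r = true) : Esc S (RG fun i j k => (i = r ∧ j = 0 ∧ (k = 3 ∨ k = 34 ∨ k = 35)) ∨
      H N 6 (r + 1) 0 i j k) (Tm N M) (uu r 0) := by
  have t := hA.tV r h2 hr
  refine Esc.st (mem_uu.2 ?_) (hA.u0e r h2 hr hR).1 (Esc.st (mem_nd.2 ?_) t.a11
    (Esc.st (mem_nd.2 ?_) t.a6 (eH (by omega) hM (Or.inl rfl) ?_)))
  all_goals simp [H]
  all_goals omega

/-- from the left end of a pressed rail of odd number to the band above -/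
theorem u0oh (hA : Arcs N M B R S) {r : ℕ} (h2 : r % 2 = 0) (hr : r + 1 < N) (hM : 1 ≤ M)
    (hR : R (r + 1) = true) : Esc S (RG fun i j k => (i = r + 1 ∧ j = 0 ∧ k = 3) ∨
      (i = r ∧ j = 0 ∧ (k = 33 ∨ k = 34 ∨ k = 35)) ∨
      H N 6 (r + 1) 0 i j k) (Tm N M) (uu (r + 1) 0) := by
  have t := hA.tV r h2 hr
  refine Esc.st (mem_uu.2 ?_) (hA.u0o r h2 hr hR).2 (Esc.st (mem_nd.2 ?_) t.a9
    (Esc.st (mem_nd.2 ?_) t.a11 (Esc.st (mem_nd.2 ?_) t.a6 (eH (by omega) hM (Or.inl rfl) ?_))))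
  all_goals simp [H]
  all_goals omega

/-- from `uu r c` upwards -/
theorem escUp (hA : Arcs N M B R S) {r c : ℕ} (hr : r < N) (hc : c < M)
    (h0 : c = 0 → r % 2 = 1) : ∃ P : ℕ → ℕ → ℕ → Prop,
      Esc S (RG P) (Tm N M) (uu r c) ∧
      (∀ x y z, P x y z → (r = 0 ∧ z = 0) ∨ (x ≤ r ∧ z ≠ 0 ∧ z ≠ 1 ∧ z ≠ 2)) := by
  cases hR : R r with
  | false =>
    refine ⟨_, uu4 hA hr hc hR, ?_⟩
    simp only [H]
    intro x y z
    omega
  | true =>
    rcases Nat.eq_zero_or_pos c with rfl | hc0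
    · obtain ⟨q, rfl⟩ : ∃ q, r = q + 1 := ⟨r - 1, by omega⟩
      refine ⟨_, u0oh hA (by omega) hr hc hR, ?_⟩
      simp only [H]
      intro x y z
      omega
    · obtain ⟨m, rfl⟩ : ∃ m, c = m + 1 := ⟨c - 1, by omega⟩
      refine ⟨fun i j k => (i = r ∧ ((j = m + 1 ∧ k = 3) ∨
        (j = m ∧ (k = 27 ∨ k = 28 ∨ k = 29)))) ∨ P25 N r m i j k, uuP hA hr (by omega) hR
        (e25 hA (by omega) (by omega)) (fun x y z h => Or.inr h) ?_ ?_ ?_ ?_, ?_⟩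
      · simp
      · simp
      · simp
      · simp
      simp only [P25]
      intro x y z
      omega

/-- from `uu r c` downwards -/
theorem escDown (hN2 : N % 2 = 0) (hA : Arcs N M B R S) {r c : ℕ} (hr : r < N)
    (hc : c < M) (h0 : c = 0 → r % 2 = 0) : ∃ P : ℕ → ℕ → ℕ → Prop,
      Esc S (RG P) (Tm N M) (uu r c) ∧
      (∀ x y z, P x y z → z = 1 ∨ (r ≤ x ∧ z ≠ 0 ∧ z ≠ 1 ∧ z ≠ 2 ∧
        (x = r → z = 3 ∨ (12 ≤ z ∧ z < 36)))) := by
  cases hR : R r with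
  | false =>
    refine ⟨_, uu1 hA hr hc hR, ?_⟩
    simp only [H]
    intro x y z
    omega
  | true =>
    rcases Nat.eq_zero_or_pos c with rfl | hc0
    · refine ⟨_, u0eh hA (h0 rfl) (by omega) hc hR, ?_⟩
      simp only [H]
      intro x y z
      omega
    · obtain ⟨m, rfl⟩ : ∃ m, c = m + 1 := ⟨c - 1, by omega⟩
      refine ⟨fun i j k => (i = r ∧ ((j = m + 1 ∧ k = 3) ∨
        (j = m ∧ (k = 26 ∨ k = 24)))) ∨ P32 N (r + 1) m i j k, udP hA hr (by omega) hR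
        (e32 hA (by omega) (by omega)) (fun x y z h => Or.inr h) ?_ ?_ ?_, ?_⟩
      · simp
      · simp
      · simp
      simp only [P32]
      intro x y z
      omega

variable {X : Set VX} {e₁ e₂ : VX}

theorem faces_L (hN2 : N % 2 = 0) (hA : Arcs N M B R S)
    (hX : Closed (grid N M B) S X e₁ e₂) (hT : ∀ v ∈ Tm N M, v ∈ X → v = e₁ ∨ v = e₂)
    {r c : ℕ} (hr : r + 1 < N) (hc : c < M) (h0 : ¬ (c = 0 ∧ r % 2 = 0)) :
    ∀ f ∈ [[pp N (r + 1) c, hy N (r + 1) c, uu r c], [pp N (r + 1) c, uu (r + 1) c,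
      hy N (r + 1) c]], ¬ ∀ v ∈ f, v ∈ X := by
  have hh : Esc S (RG (H N 6 (r + 1) c)) (Tm N M) (hy N (r + 1) c) :=
    eH (by omega) hc (Or.inl rfl) fun _ _ _ h => h
  obtain ⟨Q, hQ, q1⟩ : ∃ P : ℕ → ℕ → ℕ → Prop,
      Esc S (RG P) (Tm N M) (pp N (r + 1) c) ∧
      (∀ x y z, P x y z → (z = 0 ∧ c = 0) ∨
        (x = r + 1 ∧ z ≠ 0 ∧ z ≠ 1 ∧ z ≠ 3 ∧ z ≠ 6 ∧ (z < 12 ∨ 36 ≤ z))) := by
    rcases Nat.eq_zero_or_pos c with rfl | hc0
    · rw [pp_border]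
      refine ⟨fun _ _ k => k = 0, Esc.done _ rfl (s1_Tm N M), ?_⟩
      intro x y z
      omega
    · obtain ⟨m, rfl⟩ : ∃ m, c = m + 1 := ⟨c - 1, by omega⟩
      refine ⟨_, e25 hA (b := r + 1) (c := m) (by omega) (by omega), ?_⟩
      simp only [P25]
      intro x y z
      omega
  intro f hf
  simp only [List.mem_cons, List.not_mem_nil, or_false] at hf
  rcases hf with rfl | rfl
  · obtain ⟨P, hP, p1⟩ := escUp hA (r := r) (c := c) (by omega) hc (by omega)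
    refine core3 hX hT hQ hh hP ?_ ?_ ?_ (by simp) (by simp) (by simp)
    · simp only [H]
      intro x y z h1 h2
      have := q1 x y z h1
      omega
    · intro x y z h1 h2
      have := q1 x y z h1
      have := p1 x y z h2
      omega
    · simp only [H]
      intro x y z h1 h2
      have := p1 x y z h2
      omega
  · obtain ⟨P, hP, p1⟩ := escDown hN2 hA (r := r + 1) (c := c) (by omega) hc
      (by omega)
    refine core3 hX hT hQ hh hP ?_ ?_ ?_ (by simp) (by simp) (by simp)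
    · simp only [H]
      intro x y z h1 h2
      have := q1 x y z h1
      omega
    · intro x y z h1 h2
      have := q1 x y z h1
      have := p1 x y z h2
      omega
    · simp only [H]
      intro x y z h1 h2
      have := p1 x y z h2
      omega

theorem faces_M (hN : 2 ≤ N) (hA : Arcs N M B R S)
    (hX : Closed (grid N M B) S X e₁ e₂) (hT : ∀ v ∈ Tm N M, v ∈ X → v = e₁ ∨ v = e₂)
    {r c : ℕ} (hr : r + 1 < N) (hc : c < M) : ∀ f ∈ midFaces N r c, ¬ ∀ v ∈ f, v ∈ X := by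
  have h6 : Esc S (RG (H N 6 (r + 1) c)) (Tm N M) (hy N (r + 1) c) :=
    eH (by omega) hc (Or.inl rfl) fun _ _ _ h => h
  have h7 : Esc S (RG (H N 7 (r + 1) c)) (Tm N M) (Pool.Agent.SLN.hc N (r + 1) c) :=
    eH (by omega) hc (Or.inr (Or.inl rfl)) fun _ _ _ h => h
  have h8 : Esc S (RG (H N 8 (r + 1) c)) (Tm N M) (hd N (r + 1) c) :=
    eH (by omega) hc (Or.inr (Or.inr rfl)) fun _ _ _ h => h
  have hb1 : 1 ≤ r + 1 := by omega
  intro f hf
  simp only [midFaces, List.mem_cons, List.not_mem_nil, or_false] at hf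
  rcases hf with rfl | rfl | rfl | rfl | rfl | rfl
  · cases hR : R r with
    | true =>
      refine core3 hX hT h6 h7 (xu3 hA (by omega) hc hR) ?_ ?_ ?_ (by simp) (by simp) (by simp)
      all_goals simp only [H]
      all_goals intro x y z
      all_goals omega
    | false =>
      refine core3 hX hT h6 h7 (xu10 hA (by omega) hc hR) ?_ ?_ ?_ (by simp) (by simp) (by simp)
      all_goals simp only [H]
      all_goals intro x y z
      all_goals omega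
  · cases hR : R (r + 1) with
    | true =>
      refine core3 hX hT h6 h8 (xd2 hA hr hc hR) ?_ ?_ ?_ (by simp) (by simp) (by simp)
      all_goals simp only [H]
      all_goals intro x y z
      all_goals omega
    | false =>
      refine core3 hX hT h6 h8 (xd7 hA hr hc hR) ?_ ?_ ?_ (by simp) (by simp) (by simp)
      all_goals simp only [H]
      all_goals intro x y z
      all_goals omega
  · refine core3 hX hT h6 h7 (v₃ := vv (r + 1) c)
      (P₃ := fun _ _ k => k = 10 ∨ k = 40 ∨ k = 39 ∨ k = 41 ∨ k = 11 ∨ k = 43 ∨ k = 44 ∨ k = 42 ∨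
        k = 8)
      (Esc.st (mem_vv.2 ?_) (hA.v _ c hb1 hr hc).2 (Esc.st (mem_nd.2 ?_) (hA.d28 _ c hb1 hr hc).2
      (Esc.st (mem_nd.2 ?_) (hA.d27 _ c hb1 hr hc).2 (Esc.st (mem_nd.2 ?_)
      (hA.d29 _ c hb1 hr hc).1 (Esc.st (mem_ww.2 ?_) (hA.w _ c hb1 hr hc).2
      (Esc.st (mem_nd.2 ?_) (hA.d31 _ c hb1 hr hc).2 (Esc.st (mem_nd.2 ?_)
      (hA.d32 _ c hb1 hr hc).2 (Esc.st (mem_nd.2 ?_) (hA.d30 _ c hb1 hr hc).1
      (eH (by omega) hc (Or.inr (Or.inr rfl)) ?_)))))))))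
      ?_ ?_ ?_ (by simp) (by simp) (by simp)
    · simp
    · simp
    · simp
    · simp
    · simp
    · simp
    · simp
    · simp
    all_goals simp only [H]
    all_goals intro x y z
    all_goals omega
  · refine core3 hX hT h6 h8 (v₃ := ww (r + 1) c)
      (P₃ := fun _ _ k => k = 10 ∨ k = 40 ∨ k = 38 ∨ k = 41 ∨ k = 11 ∨ k = 36 ∨ k = 7)
      (Esc.st (mem_ww.2 ?_) (hA.w _ c hb1 hr hc).1 (Esc.st (mem_nd.2 ?_) (hA.d29 _ c hb1 hr hc).2
      (Esc.st (mem_nd.2 ?_) (hA.d28 _ c hb1 hr hc).1 (Esc.st (mem_vv.2 ?_)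
      (hA.v _ c hb1 hr hc).1 (Esc.st (mem_nd.2 ?_) (hA.d26 _ c hb1 hr hc).2
      (Esc.st (mem_nd.2 ?_) (hA.d24 _ c hb1 hr hc).1
      (eH (by omega) hc (Or.inr (Or.inl rfl)) ?_)))))))
      ?_ ?_ ?_ (by simp) (by simp) (by simp)
    · simp
    · simp
    · simp
    · simp
    · simp
    · simp
    all_goals simp only [H]
    all_goals intro x y z
    all_goals omega
  · have h32 := e32 hA (b := r + 1) (c := c) (by omega) hc
    cases hR : R r with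
    | true =>
      refine core3 hX hT h7 h32 (qu9 hA (by omega) hc hR) ?_ ?_ ?_ (by simp) (by simp) (by simp)
      all_goals simp only [H, P32]
      all_goals intro x y z
      all_goals omega
    | false =>
      refine core3 hX hT h7 h32 (quP hA (by omega) hc hR (P := fun i j k =>
        (i = r ∧ j = c ∧ (k = 5 ∨ k = 28 ∨ k = 29)) ∨ P25 N r c i j k)
        (e25 hA (by omega) hc) (fun x y z h => Or.inr h) ?_ ?_ ?_)
        ?_ ?_ ?_ (by simp) (by simp) (by simp)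
      · simp
      · simp
      · simp
      all_goals simp only [H, P32, P25]
      all_goals intro x y z
      all_goals omega
  · have h25 := e25 hA (b := r + 1) (c := c) (by omega) hc
    cases hR : R (r + 1) with
    | true =>
      refine core3 hX hT h8 h25 (qd8 hA hr hc hR) ?_ ?_ ?_ (by simp) (by simp) (by simp)
      all_goals simp only [H, P25]
      all_goals intro x y z
      all_goals omega
    | false =>
      refine core3 hX hT h8 h25 (qdP hA hr hc hR (P := fun i j k =>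
        (i = r + 1 ∧ j = c ∧ (k = 5 ∨ k = 25 ∨ k = 26 ∨ k = 24)) ∨ P32 N (r + 1 + 1) c i j k)
        (e32 hA (by omega) hc) (fun x y z h => Or.inr h) ?_ ?_ ?_ ?_)
        ?_ ?_ ?_ (by simp) (by simp) (by simp)
      · simp
      · simp
      · simp
      · simp
      all_goals simp only [H, P32, P25]
      all_goals intro x y z
      all_goals omega

theorem faces_D (hA : Arcs N M B R S)
    (hX : Closed (grid N M B) S X e₁ e₂) (hT : ∀ v ∈ Tm N M, v ∈ X → v = e₁ ∨ v = e₂)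
    {b c : ℕ} (hb1 : 1 ≤ b) (hb2 : b < N) (hc : c < M) :
    ∀ f ∈ deadFaces N b c, ¬ ∀ v ∈ f, v ∈ X := by
  intro f hf
  simp only [deadFaces, prism, centre, List.cons_append, List.nil_append, List.mem_cons,
    List.not_mem_nil, or_false] at hf
  rcases hf with rfl | rfl | rfl | rfl | rfl | rfl | rfl | rfl | rfl | rfl
  · refine core3 hX hT
      (v₁ := Pool.Agent.SLN.hc N b c) (P₁ := fun _ _ k => k = 7)
      (v₂ := pp N b (c + 1)) (P₂ := fun _ _ k => k = 9 ∨ k = 44 ∨ k = 42 ∨ k = 8)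
      (v₃ := nd b c 25) (P₃ := fun _ _ k => k = 37 ∨ k = 38 ∨ k = 10 ∨ k = 40 ∨ k = 39 ∨ k = 6)
      (eH (by omega) hc (Or.inr (Or.inl rfl)) ?_)
      (Esc.st (mem_pp (by omega) ?_ ?_ ?_) (hA.p b c hb1 hb2 hc).1
        (Esc.st (mem_nd.2 ?_) (hA.d32 b c hb1 hb2 hc).2
        (Esc.st (mem_nd.2 ?_) (hA.d30 b c hb1 hb2 hc).1
        (eH (by omega) hc (Or.inr (Or.inr rfl)) ?_))))
      (Esc.st (mem_nd.2 ?_) (hA.d25 b c hb1 hb2 hc).2
        (Esc.st (mem_nd.2 ?_) (hA.d26 b c hb1 hb2 hc).1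
        (Esc.st (mem_vv.2 ?_) (hA.v b c hb1 hb2 hc).2
        (Esc.st (mem_nd.2 ?_) (hA.d28 b c hb1 hb2 hc).2
        (Esc.st (mem_nd.2 ?_) (hA.d27 b c hb1 hb2 hc).1
        (eH (by omega) hc (Or.inl rfl) ?_))))))
      ?_ ?_ ?_ (by simp) (by simp) (by simp)
    all_goals simp [H]
    all_goals omega
  · refine core3 hX hT
      (v₁ := Pool.Agent.SLN.hc N b c) (P₁ := fun _ _ k => k = 7)
      (v₂ := vv b c) (P₂ := fun _ _ k => k = 10 ∨ k = 40 ∨ k = 39 ∨ k = 6)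
      (v₃ := nd b c 24) (P₃ := fun _ _ k => k = 36 ∨ k = 37 ∨ k = 9 ∨ k = 44 ∨ k = 42 ∨ k = 8)
      (eH (by omega) hc (Or.inr (Or.inl rfl)) ?_)
      (Esc.st (mem_vv.2 ?_) (hA.v b c hb1 hb2 hc).2
        (Esc.st (mem_nd.2 ?_) (hA.d28 b c hb1 hb2 hc).2
        (Esc.st (mem_nd.2 ?_) (hA.d27 b c hb1 hb2 hc).1
        (eH (by omega) hc (Or.inl rfl) ?_))))
      (Esc.st (mem_nd.2 ?_) (hA.d24 b c hb1 hb2 hc).2
        (Esc.st (mem_nd.2 ?_) (hA.d25 b c hb1 hb2 hc).1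
        (Esc.st (mem_pp (by omega) ?_ ?_ ?_) (hA.p b c hb1 hb2 hc).1
        (Esc.st (mem_nd.2 ?_) (hA.d32 b c hb1 hb2 hc).2
        (Esc.st (mem_nd.2 ?_) (hA.d30 b c hb1 hb2 hc).1
        (eH (by omega) hc (Or.inr (Or.inr rfl)) ?_))))))
      ?_ ?_ ?_ (by simp) (by simp) (by simp)
    all_goals simp [H]
    all_goals omega
  · refine core3 hX hT
      (v₁ := nd b c 24) (P₁ := fun _ _ k => k = 36 ∨ k = 7)
      (v₂ := nd b c 25) (P₂ := fun _ _ k => k = 37 ∨ k = 9 ∨ k = 44 ∨ k = 42 ∨ k = 8)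
      (v₃ := nd b c 26) (P₃ := fun _ _ k => k = 38 ∨ k = 10 ∨ k = 40 ∨ k = 39 ∨ k = 6)
      (Esc.st (mem_nd.2 ?_) (hA.d24 b c hb1 hb2 hc).1
        (eH (by omega) hc (Or.inr (Or.inl rfl)) ?_))
      (Esc.st (mem_nd.2 ?_) (hA.d25 b c hb1 hb2 hc).1
        (Esc.st (mem_pp (by omega) ?_ ?_ ?_) (hA.p b c hb1 hb2 hc).1
        (Esc.st (mem_nd.2 ?_) (hA.d32 b c hb1 hb2 hc).2
        (Esc.st (mem_nd.2 ?_) (hA.d30 b c hb1 hb2 hc).1
        (eH (by omega) hc (Or.inr (Or.inr rfl)) ?_)))))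
      (Esc.st (mem_nd.2 ?_) (hA.d26 b c hb1 hb2 hc).1
        (Esc.st (mem_vv.2 ?_) (hA.v b c hb1 hb2 hc).2
        (Esc.st (mem_nd.2 ?_) (hA.d28 b c hb1 hb2 hc).2
        (Esc.st (mem_nd.2 ?_) (hA.d27 b c hb1 hb2 hc).1
        (eH (by omega) hc (Or.inl rfl) ?_)))))
      ?_ ?_ ?_ (by simp) (by simp) (by simp)
    all_goals simp [H]
    all_goals omega
  · refine core3 hX hT
      (v₁ := hy N b c) (P₁ := fun _ _ k => k = 6)
      (v₂ := vv b c) (P₂ := fun _ _ k => k = 10 ∨ k = 38 ∨ k = 36 ∨ k = 7)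
      (v₃ := nd b c 28) (P₃ := fun _ _ k => k = 40 ∨ k = 39 ∨ k = 41 ∨ k = 11 ∨ k = 43 ∨ k = 44 ∨ k = 42 ∨ k = 8)
      (eH (by omega) hc (Or.inl rfl) ?_)
      (Esc.st (mem_vv.2 ?_) (hA.v b c hb1 hb2 hc).1
        (Esc.st (mem_nd.2 ?_) (hA.d26 b c hb1 hb2 hc).2
        (Esc.st (mem_nd.2 ?_) (hA.d24 b c hb1 hb2 hc).1
        (eH (by omega) hc (Or.inr (Or.inl rfl)) ?_))))
      (Esc.st (mem_nd.2 ?_) (hA.d28 b c hb1 hb2 hc).2
        (Esc.st (mem_nd.2 ?_) (hA.d27 b c hb1 hb2 hc).2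
        (Esc.st (mem_nd.2 ?_) (hA.d29 b c hb1 hb2 hc).1
        (Esc.st (mem_ww.2 ?_) (hA.w b c hb1 hb2 hc).2
        (Esc.st (mem_nd.2 ?_) (hA.d31 b c hb1 hb2 hc).2
        (Esc.st (mem_nd.2 ?_) (hA.d32 b c hb1 hb2 hc).2
        (Esc.st (mem_nd.2 ?_) (hA.d30 b c hb1 hb2 hc).1
        (eH (by omega) hc (Or.inr (Or.inr rfl)) ?_))))))))
      ?_ ?_ ?_ (by simp) (by simp) (by simp)
    all_goals simp [H]
    all_goals omega
  · refine core3 hX hT
      (v₁ := hy N b c) (P₁ := fun _ _ k => k = 6)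
      (v₂ := ww b c) (P₂ := fun _ _ k => k = 11 ∨ k = 43 ∨ k = 44 ∨ k = 42 ∨ k = 8)
      (v₃ := nd b c 29) (P₃ := fun _ _ k => k = 41 ∨ k = 40 ∨ k = 10 ∨ k = 38 ∨ k = 36 ∨ k = 7)
      (eH (by omega) hc (Or.inl rfl) ?_)
      (Esc.st (mem_ww.2 ?_) (hA.w b c hb1 hb2 hc).2
        (Esc.st (mem_nd.2 ?_) (hA.d31 b c hb1 hb2 hc).2
        (Esc.st (mem_nd.2 ?_) (hA.d32 b c hb1 hb2 hc).2
        (Esc.st (mem_nd.2 ?_) (hA.d30 b c hb1 hb2 hc).1
        (eH (by omega) hc (Or.inr (Or.inr rfl)) ?_)))))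
      (Esc.st (mem_nd.2 ?_) (hA.d29 b c hb1 hb2 hc).2
        (Esc.st (mem_nd.2 ?_) (hA.d28 b c hb1 hb2 hc).1
        (Esc.st (mem_vv.2 ?_) (hA.v b c hb1 hb2 hc).1
        (Esc.st (mem_nd.2 ?_) (hA.d26 b c hb1 hb2 hc).2
        (Esc.st (mem_nd.2 ?_) (hA.d24 b c hb1 hb2 hc).1
        (eH (by omega) hc (Or.inr (Or.inl rfl)) ?_))))))
      ?_ ?_ ?_ (by simp) (by simp) (by simp)
    all_goals simp [H]
    all_goals omega
  · refine core3 hX hT
      (v₁ := nd b c 27) (P₁ := fun _ _ k => k = 39 ∨ k = 6)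
      (v₂ := nd b c 28) (P₂ := fun _ _ k => k = 40 ∨ k = 10 ∨ k = 38 ∨ k = 36 ∨ k = 7)
      (v₃ := nd b c 29) (P₃ := fun _ _ k => k = 41 ∨ k = 11 ∨ k = 43 ∨ k = 44 ∨ k = 42 ∨ k = 8)
      (Esc.st (mem_nd.2 ?_) (hA.d27 b c hb1 hb2 hc).1
        (eH (by omega) hc (Or.inl rfl) ?_))
      (Esc.st (mem_nd.2 ?_) (hA.d28 b c hb1 hb2 hc).1
        (Esc.st (mem_vv.2 ?_) (hA.v b c hb1 hb2 hc).1
        (Esc.st (mem_nd.2 ?_) (hA.d26 b c hb1 hb2 hc).2
        (Esc.st (mem_nd.2 ?_) (hA.d24 b c hb1 hb2 hc).1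
        (eH (by omega) hc (Or.inr (Or.inl rfl)) ?_)))))
      (Esc.st (mem_nd.2 ?_) (hA.d29 b c hb1 hb2 hc).1
        (Esc.st (mem_ww.2 ?_) (hA.w b c hb1 hb2 hc).2
        (Esc.st (mem_nd.2 ?_) (hA.d31 b c hb1 hb2 hc).2
        (Esc.st (mem_nd.2 ?_) (hA.d32 b c hb1 hb2 hc).2
        (Esc.st (mem_nd.2 ?_) (hA.d30 b c hb1 hb2 hc).1
        (eH (by omega) hc (Or.inr (Or.inr rfl)) ?_))))))
      ?_ ?_ ?_ (by simp) (by simp) (by simp)
    all_goals simp [H]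
    all_goals omega
  · refine core3 hX hT
      (v₁ := hd N b c) (P₁ := fun _ _ k => k = 8)
      (v₂ := ww b c) (P₂ := fun _ _ k => k = 11 ∨ k = 41 ∨ k = 40 ∨ k = 39 ∨ k = 6)
      (v₃ := nd b c 31) (P₃ := fun _ _ k => k = 43 ∨ k = 44 ∨ k = 9 ∨ k = 37 ∨ k = 38 ∨ k = 36 ∨ k = 7)
      (eH (by omega) hc (Or.inr (Or.inr rfl)) ?_)
      (Esc.st (mem_ww.2 ?_) (hA.w b c hb1 hb2 hc).1
        (Esc.st (mem_nd.2 ?_) (hA.d29 b c hb1 hb2 hc).2
        (Esc.st (mem_nd.2 ?_) (hA.d28 b c hb1 hb2 hc).2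
        (Esc.st (mem_nd.2 ?_) (hA.d27 b c hb1 hb2 hc).1
        (eH (by omega) hc (Or.inl rfl) ?_)))))
      (Esc.st (mem_nd.2 ?_) (hA.d31 b c hb1 hb2 hc).2
        (Esc.st (mem_nd.2 ?_) (hA.d32 b c hb1 hb2 hc).1
        (Esc.st (mem_pp (by omega) ?_ ?_ ?_) (hA.p b c hb1 hb2 hc).2
        (Esc.st (mem_nd.2 ?_) (hA.d25 b c hb1 hb2 hc).2
        (Esc.st (mem_nd.2 ?_) (hA.d26 b c hb1 hb2 hc).2
        (Esc.st (mem_nd.2 ?_) (hA.d24 b c hb1 hb2 hc).1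
        (eH (by omega) hc (Or.inr (Or.inl rfl)) ?_)))))))
      ?_ ?_ ?_ (by simp) (by simp) (by simp)
    all_goals simp [H]
    all_goals omega
  · refine core3 hX hT
      (v₁ := hd N b c) (P₁ := fun _ _ k => k = 8)
      (v₂ := pp N b (c + 1)) (P₂ := fun _ _ k => k = 9 ∨ k = 37 ∨ k = 38 ∨ k = 36 ∨ k = 7)
      (v₃ := nd b c 32) (P₃ := fun _ _ k => k = 44 ∨ k = 42 ∨ k = 43 ∨ k = 11 ∨ k = 41 ∨ k = 40 ∨ k = 39 ∨ k = 6)
      (eH (by omega) hc (Or.inr (Or.inr rfl)) ?_)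
      (Esc.st (mem_pp (by omega) ?_ ?_ ?_) (hA.p b c hb1 hb2 hc).2
        (Esc.st (mem_nd.2 ?_) (hA.d25 b c hb1 hb2 hc).2
        (Esc.st (mem_nd.2 ?_) (hA.d26 b c hb1 hb2 hc).2
        (Esc.st (mem_nd.2 ?_) (hA.d24 b c hb1 hb2 hc).1
        (eH (by omega) hc (Or.inr (Or.inl rfl)) ?_)))))
      (Esc.st (mem_nd.2 ?_) (hA.d32 b c hb1 hb2 hc).2
        (Esc.st (mem_nd.2 ?_) (hA.d30 b c hb1 hb2 hc).2
        (Esc.st (mem_nd.2 ?_) (hA.d31 b c hb1 hb2 hc).1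
        (Esc.st (mem_ww.2 ?_) (hA.w b c hb1 hb2 hc).1
        (Esc.st (mem_nd.2 ?_) (hA.d29 b c hb1 hb2 hc).2
        (Esc.st (mem_nd.2 ?_) (hA.d28 b c hb1 hb2 hc).2
        (Esc.st (mem_nd.2 ?_) (hA.d27 b c hb1 hb2 hc).1
        (eH (by omega) hc (Or.inl rfl) ?_))))))))
      ?_ ?_ ?_ (by simp) (by simp) (by simp)
    all_goals simp [H]
    all_goals omega
  · refine core3 hX hT
      (v₁ := nd b c 30) (P₁ := fun _ _ k => k = 42 ∨ k = 8)
      (v₂ := nd b c 31) (P₂ := fun _ _ k => k = 43 ∨ k = 11 ∨ k = 41 ∨ k = 40 ∨ k = 39 ∨ k = 6)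
      (v₃ := nd b c 32) (P₃ := fun _ _ k => k = 44 ∨ k = 9 ∨ k = 37 ∨ k = 38 ∨ k = 36 ∨ k = 7)
      (Esc.st (mem_nd.2 ?_) (hA.d30 b c hb1 hb2 hc).1
        (eH (by omega) hc (Or.inr (Or.inr rfl)) ?_))
      (Esc.st (mem_nd.2 ?_) (hA.d31 b c hb1 hb2 hc).1
        (Esc.st (mem_ww.2 ?_) (hA.w b c hb1 hb2 hc).1
        (Esc.st (mem_nd.2 ?_) (hA.d29 b c hb1 hb2 hc).2
        (Esc.st (mem_nd.2 ?_) (hA.d28 b c hb1 hb2 hc).2
        (Esc.st (mem_nd.2 ?_) (hA.d27 b c hb1 hb2 hc).1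
        (eH (by omega) hc (Or.inl rfl) ?_))))))
      (Esc.st (mem_nd.2 ?_) (hA.d32 b c hb1 hb2 hc).1
        (Esc.st (mem_pp (by omega) ?_ ?_ ?_) (hA.p b c hb1 hb2 hc).2
        (Esc.st (mem_nd.2 ?_) (hA.d25 b c hb1 hb2 hc).2
        (Esc.st (mem_nd.2 ?_) (hA.d26 b c hb1 hb2 hc).2
        (Esc.st (mem_nd.2 ?_) (hA.d24 b c hb1 hb2 hc).1
        (eH (by omega) hc (Or.inr (Or.inl rfl)) ?_))))))
      ?_ ?_ ?_ (by simp) (by simp) (by simp)
    all_goals simp [H]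
    all_goals omega
  · refine core3 hX hT
      (v₁ := nd b c 26) (P₁ := fun _ _ k => k = 38 ∨ k = 36 ∨ k = 7)
      (v₂ := nd b c 28) (P₂ := fun _ _ k => k = 40 ∨ k = 39 ∨ k = 6)
      (v₃ := nd b c 32) (P₃ := fun _ _ k => k = 44 ∨ k = 42 ∨ k = 8)
      (Esc.st (mem_nd.2 ?_) (hA.d26 b c hb1 hb2 hc).2
        (Esc.st (mem_nd.2 ?_) (hA.d24 b c hb1 hb2 hc).1
        (eH (by omega) hc (Or.inr (Or.inl rfl)) ?_)))
      (Esc.st (mem_nd.2 ?_) (hA.d28 b c hb1 hb2 hc).2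
        (Esc.st (mem_nd.2 ?_) (hA.d27 b c hb1 hb2 hc).1
        (eH (by omega) hc (Or.inl rfl) ?_)))
      (Esc.st (mem_nd.2 ?_) (hA.d32 b c hb1 hb2 hc).2
        (Esc.st (mem_nd.2 ?_) (hA.d30 b c hb1 hb2 hc).1
        (eH (by omega) hc (Or.inr (Or.inr rfl)) ?_)))
      ?_ ?_ ?_ (by simp) (by simp) (by simp)
    all_goals simp [H]
    all_goals omega

theorem faces_R (hN : 2 ≤ N) (hA : Arcs N M B R S)
    (hX : Closed (grid N M B) S X e₁ e₂) (hT : ∀ v ∈ Tm N M, v ∈ X → v = e₁ ∨ v = e₂)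
    {r : ℕ} (hr : r < N) (hM : 1 ≤ M) : ∀ f ∈ rightFaces N M r, ¬ ∀ v ∈ f, v ∈ X := by
  obtain ⟨m, rfl⟩ : ∃ m, M = m + 1 := ⟨M - 1, by omega⟩
  have h3 : Esc S (RG fun _ _ k => k = 2) (Tm N (m + 1)) s3 := Esc.done _ rfl (s3_Tm _ _)
  intro f hf
  simp only [rightFaces, List.mem_cons, List.not_mem_nil, or_false] at hf
  rcases hf with rfl | rfl
  · have hp := e32 hA (b := r + 1) (c := m) (by omega) (by omega)
    have hu : Esc S (RG fun i j k => (i = r ∧ ((j = m + 1 ∧ k = 3) ∨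
        (j = m ∧ (k = 27 ∨ k = 28 ∨ k = 29)))) ∨ P25 N r m i j k) (Tm N (m + 1))
        (uu r (m + 1)) := by
      have hq := e25 hA (b := r) (c := m) (by omega) (by omega)
      cases hR : R r with
      | true =>
        refine uuP hA hr (by omega) hR hq (fun x y z h => Or.inr h) ?_ ?_ ?_ ?_
        all_goals simp
      | false =>
        refine Esc.st (mem_uu.2 ?_) (hA.uM r hr hR).2.1 (hq.wd fun x y z h => Or.inr h)
        simp
    refine core3 hX hT h3 hp hu ?_ ?_ ?_ (by simp) (by simp) (by simp)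
    all_goals simp only [P32, P25]
    all_goals intro x y z
    all_goals omega
  · have hp := e25 hA (b := r) (c := m) (by omega) (by omega)
    have hu : Esc S (RG fun i j k => (i = r ∧ ((j = m + 1 ∧ k = 3) ∨
        (j = m ∧ (k = 26 ∨ k = 24)))) ∨ P32 N (r + 1) m i j k) (Tm N (m + 1))
        (uu r (m + 1)) := by
      have hq := e32 hA (b := r + 1) (c := m) (by omega) (by omega)
      cases hR : R r with
      | true =>
        refine udP hA hr (by omega) hR hq (fun x y z h => Or.inr h) ?_ ?_ ?_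
        all_goals simp
      | false =>
        refine Esc.st (mem_uu.2 ?_) (hA.uM r hr hR).2.2 (hq.wd fun x y z h => Or.inr h)
        simp
    refine core3 hX hT h3 hp hu ?_ ?_ ?_ (by simp) (by simp) (by simp)
    all_goals simp only [P32, P25]
    all_goals intro x y z
    all_goals omega

theorem faces_BL (hN : 2 ≤ N) (hN2 : N % 2 = 0) (hM : 1 ≤ M) (hA : Arcs N M B R S)
    (hX : Closed (grid N M B) S X e₁ e₂) (hT : ∀ v ∈ Tm N M, v ∈ X → v = e₁ ∨ v = e₂) :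
    ¬ ∀ v ∈ [s1, s2, uu (N - 1) 0], v ∈ X := by
  obtain ⟨P, hP, p1⟩ := escUp hA (r := N - 1) (c := 0) (by omega) hM (by omega)
  have h1 : Esc S (RG fun _ _ k => k = 0) (Tm N M) s1 := Esc.done _ rfl (s1_Tm _ _)
  have h2 : Esc S (RG fun _ _ k => k = 1) (Tm N M) s2 := Esc.done _ rfl (s2_Tm _ _)
  refine core3 hX hT h1 h2 hP ?_ ?_ ?_ (by simp) (by simp) (by simp)
  · intro x y z
    omega
  · intro x y z h1 h2
    have := p1 x y z h2
    omega
  · intro x y z h1 h2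
    have := p1 x y z h2
    omega

end arcs

/-- E-FACES -/
theorem tFaces : TFaces := by
  intro N M B R S hN hN2 hM hP hA X e₁ e₂ hX hH f hf
  have hT := Tm_exit hX hH
  rcases mem_gridFaces.1 hf with rfl | ⟨c, hc, r, hr, h⟩ | ⟨c, hc, r, hr, h⟩ | ⟨r, hr, h⟩
  · exact faces_BL hN hN2 hM hA hX hT
  · exact faces_rail N M B R S hN hN2 hM hP hA X e₁ e₂ hX hH hr hc f h
  · simp only [bandFaces, List.mem_append] at h
    rcases h with (h | h) | h
    · unfold leftFaces at h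
      split_ifs at h with h0
      · exact faces_V hN hP hA hM hX hT hr h0.2 f h
      · exact faces_L hN2 hA hX hT hr hc h0 f h
    · exact faces_M hN hA hX hT hr hc f h
    · exact faces_D hA hX hT (by omega) hr hc f h
  · exact faces_R hN hA hX hT hr hM f h

end Pool.Agent.SLN
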