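import Pool.Agent.SLN.Lib

set_option autoImplicit false

/-!
# G-FACTS: the flat corners of a triangle representation
-/

namespace Pool.Agent.SLN

open Pool.Agent.PAH (Plane det3 ccwAngle LiesLeft dartsOf cornersOf ChainEq FanPos)

namespace FACTS_

variable {V : Type}

/-- both directed edges of a corner are on the walk -/
theorem corner_darts {w : List V} {k : V × V × V} (hk : k ∈ cornersOf w) :
    (k.1, k.2.1) ∈ dartsOf w ∧ (k.2.1, k.2.2) ∈ dartsOf w := by
  unfold cornersOf at hk
  obtain ⟨i, hi, rfl⟩ := List.mem_iff_getElem.mp hk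
  have hl : i < w.length := by
    rw [List.length_zip, List.length_zip, List.length_rotate, List.length_rotate] at hi
    omega
  have hl2 : (i + 1) % w.length < w.length := Nat.mod_lt _ (by omega)
  rw [List.getElem_zip, List.getElem_zip, List.getElem_rotate, List.getElem_rotate]
  constructor
  · rw [dartsOf, List.mem_iff_getElem]
    refine ⟨i, by rw [List.length_zip, List.length_rotate]; omega, ?_⟩
    rw [List.getElem_zip, List.getElem_rotate]
  · rw [dartsOf, List.mem_iff_getElem]
    refine ⟨(i + 1) % w.length, by rw [List.length_zip, List.length_rotate]; omega, ?_⟩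
    rw [List.getElem_zip, List.getElem_rotate]
    have e : ((i + 1) % w.length + 1) % w.length = (i + 2) % w.length := by
      rw [Nat.mod_add_mod]
    simp only [e]

theorem inner_dart {G : PlaneMap V} {f : List V} (hf : f ∈ G.inner) {d : V × V}
    (hd : d ∈ dartsOf f) : d ∈ G.darts := by
  unfold PlaneMap.darts PlaneMap.walks
  exact List.mem_flatMap.mpr ⟨f, List.mem_cons_of_mem _ hf, hd⟩

/-- end points of directed edges are in the triangle spanned by the suspensions -/
theorem mem_hull {G : PlaneMap V} (S : SLTR G) {d : V × V} (hd : d ∈ G.darts) :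
    S.pos d.1 ∈ convexHull ℝ ({S.pos G.s₁, S.pos G.s₂, S.pos G.s₃} : Set Plane) ∧
    S.pos d.2 ∈ convexHull ℝ ({S.pos G.s₁, S.pos G.s₂, S.pos G.s₃} : Set Plane) := by
  have key : ∀ x ∈ segment ℝ (S.pos d.1) (S.pos d.2),
      x ∈ convexHull ℝ ({S.pos G.s₁, S.pos G.s₂, S.pos G.s₃} : Set Plane) := by
    intro x hx
    by_contra hcon
    have h1 : x ∈ S.outerFace := by
      rw [S.exterior]
      exact hcon
    obtain ⟨x0, _, h2⟩ := S.outer_isFace.component
    rw [h2] at h1
    exact connectedComponentIn_subset _ _ h1 ⟨d, hd, hx⟩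
  exact ⟨key _ (left_mem_segment ℝ _ _), key _ (right_mem_segment ℝ _ _)⟩

theorem det3_rot (a b c : Plane) : det3 b c a = det3 a b c := by
  unfold det3
  ring

/-- on the hull of three points the function given by two of them has the sign of the triangle -/
theorem hull_side (A B C X : Plane) (hX : X ∈ convexHull ℝ ({A, B, C} : Set Plane)) :
    0 ≤ det3 A B C * det3 A B X := by
  have hconv : Convex ℝ {x : Plane | 0 ≤ det3 A B C * det3 A B x} := by
    intro x hx y hy s t hs ht hst
    have e : det3 A B C * det3 A B (s • x + t • y) =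
        s * (det3 A B C * det3 A B x) + t * (det3 A B C * det3 A B y) := by
      have e1 : det3 A B (s • x + t • y) = s * det3 A B x + t * det3 A B y := by
        unfold det3
        simp only [Prod.fst_add, Prod.snd_add, Prod.smul_fst, Prod.smul_snd, smul_eq_mul]
        have e2 : t = 1 - s := by linarith
        rw [e2]
        ring
      rw [e1]
      ring
    change 0 ≤ det3 A B C * det3 A B (s • x + t • y)
    rw [e]
    exact add_nonneg (mul_nonneg hs hx) (mul_nonneg ht hy)
  refine convexHull_min ?_ hconv hX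
  intro y hy
  simp only [Set.mem_insert_iff, Set.mem_singleton_iff] at hy
  change 0 ≤ det3 A B C * det3 A B y
  rcases hy with rfl | rfl | rfl
  · have : det3 y B y = 0 := by unfold det3; ring
    rw [this, mul_zero]
  · have : det3 A y y = 0 := by unfold det3; ring
    rw [this, mul_zero]
  · exact mul_self_nonneg _

/-- a corner of a triangle is not between two different points of the triangle -/
theorem corner_extreme {A B C U W : Plane} (h : det3 A B C ≠ 0)
    (hU : U ∈ convexHull ℝ ({A, B, C} : Set Plane))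
    (hW : W ∈ convexHull ℝ ({A, B, C} : Set Plane)) (hA : A ∈ openSegment ℝ U W) : U = W := by
  obtain ⟨s, t, hs, ht, hst, e⟩ := hA
  have hperm : ({A, B, C} : Set Plane) = {C, A, B} := by
    ext x
    simp only [Set.mem_insert_iff, Set.mem_singleton_iff]
    tauto
  -- the two sides through `A`
  have u1 := hull_side A B C U hU
  have w1 := hull_side A B C W hW
  have u2 := hull_side C A B U (by rw [← hperm]; exact hU)
  have w2 := hull_side C A B W (by rw [← hperm]; exact hW)
  have eC : det3 C A B = det3 A B C := by rw [det3_rot, det3_rot]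
  rw [eC] at u2 w2
  have e1 : s * det3 A B U + t * det3 A B W = 0 := by
    have h1 : det3 A B (s • U + t • W) = s * det3 A B U + t * det3 A B W := by
      unfold det3
      simp only [Prod.fst_add, Prod.snd_add, Prod.smul_fst, Prod.smul_snd, smul_eq_mul]
      have e2 : t = 1 - s := by linarith
      rw [e2]
      ring
    rw [← h1, e]
    unfold det3
    ring
  have e2 : s * det3 C A U + t * det3 C A W = 0 := by
    have h1 : det3 C A (s • U + t • W) = s * det3 C A U + t * det3 C A W := by
      unfold det3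
      simp only [Prod.fst_add, Prod.snd_add, Prod.smul_fst, Prod.smul_snd, smul_eq_mul]
      have e2 : t = 1 - s := by linarith
      rw [e2]
      ring
    rw [← h1, e]
    unfold det3
    ring
  have zero : ∀ x y : ℝ, 0 ≤ det3 A B C * x → 0 ≤ det3 A B C * y → s * x + t * y = 0 →
      x = 0 ∧ y = 0 := by
    intro x y hx hy hxy
    have h1 : s * (det3 A B C * x) + t * (det3 A B C * y) = 0 := by
      have : s * (det3 A B C * x) + t * (det3 A B C * y) = det3 A B C * (s * x + t * y) := by
        ring
      rw [this, hxy, mul_zero]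
    have h2 : 0 ≤ s * (det3 A B C * x) := mul_nonneg hs.le hx
    have h3 : 0 ≤ t * (det3 A B C * y) := mul_nonneg ht.le hy
    have h4 : s * (det3 A B C * x) = 0 := by linarith
    have h5 : t * (det3 A B C * y) = 0 := by linarith
    constructor
    · rcases mul_eq_zero.mp h4 with h6 | h6
      · exact absurd h6 hs.ne'
      · exact (mul_eq_zero.mp h6).resolve_left h
    · rcases mul_eq_zero.mp h5 with h6 | h6
      · exact absurd h6 ht.ne'
      · exact (mul_eq_zero.mp h6).resolve_left h
  obtain ⟨a1, b1⟩ := zero _ _ u1 w1 e1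
  obtain ⟨a2, b2⟩ := zero _ _ u2 w2 e2
  have fin : ∀ X : Plane, det3 A B X = 0 → det3 C A X = 0 → X = A := by
    intro X h1 h2
    apply Prod.ext
    · apply mul_left_cancel₀ h
      unfold det3 at h1 h2 ⊢
      linear_combination (C.1 - A.1) * h1 + (B.1 - A.1) * h2
    · apply mul_left_cancel₀ h
      unfold det3 at h1 h2 ⊢
      linear_combination (C.2 - A.2) * h1 + (B.2 - A.2) * h2
  rw [fin U a1 a2, fin W b1 b2]

/-- flat corners are not suspensions -/
theorem flat_ne {G : PlaneMap V} (S : SLTR G) {k : V × V × V} (h1 : (k.1, k.2.1) ∈ G.darts)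
    (h2 : (k.2.1, k.2.2) ∈ G.darts)
    (hk : S.pos k.2.1 ∈ openSegment ℝ (S.pos k.1) (S.pos k.2.2))
    (hne : S.pos k.1 ≠ S.pos k.2.2) : k.2.1 ≠ G.s₁ ∧ k.2.1 ≠ G.s₂ ∧ k.2.1 ≠ G.s₃ := by
  have hu := (mem_hull S h1).1
  have hw := (mem_hull S h2).2
  have hnd := S.nondegenerate
  refine ⟨?_, ?_, ?_⟩
  · intro h
    rw [h] at hk
    exact hne (corner_extreme hnd hu hw hk)
  · intro h
    rw [h] at hk
    have hperm : ({S.pos G.s₁, S.pos G.s₂, S.pos G.s₃} : Set Plane) =
        {S.pos G.s₂, S.pos G.s₃, S.pos G.s₁} := by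
      ext x
      simp only [Set.mem_insert_iff, Set.mem_singleton_iff]
      tauto
    rw [hperm] at hu hw
    refine hne (corner_extreme ?_ hu hw hk)
    rw [det3_rot]
    exact hnd
  · intro h
    rw [h] at hk
    have hperm : ({S.pos G.s₁, S.pos G.s₂, S.pos G.s₃} : Set Plane) =
        {S.pos G.s₃, S.pos G.s₁, S.pos G.s₂} := by
      ext x
      simp only [Set.mem_insert_iff, Set.mem_singleton_iff]
      tauto
    rw [hperm] at hu hw
    refine hne (corner_extreme ?_ hu hw hk)
    rw [← det3_rot]
    exact hnd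

/-- a point of the open segment gives a vanishing determinant -/
theorem det3_of_openSegment {U X W : Plane} (h : X ∈ openSegment ℝ U W) : det3 U X W = 0 := by
  obtain ⟨s, t, _, _, hst, rfl⟩ := h
  unfold det3
  simp only [Prod.fst_add, Prod.snd_add, Prod.smul_fst, Prod.smul_snd, smul_eq_mul]
  have e2 : t = 1 - s := by linarith
  rw [e2]
  ring

end FACTS_

open FACTS_

/-- G-FACTS -/
theorem tFacts (h1 : TFaceTri) (h2 : TUniq) (h3 : THull) : TFacts := by
  intro V G S hout hwalk hdeg
  have hF : FaceTri S := h1 G S hwalk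
  have hidx : ∀ f ∈ G.inner, ∃ i : Fin G.inner.length, G.inner.get i = f := by
    intro f hf
    obtain ⟨i, hi, e⟩ := List.mem_iff_getElem.mp hf
    exact ⟨⟨i, hi⟩, e⟩
  have hsusp : ∀ f ∈ G.inner, ∀ k ∈ cornersOf f,
      S.pos k.2.1 ∈ openSegment ℝ (S.pos k.1) (S.pos k.2.2) →
      k.2.1 ≠ G.s₁ ∧ k.2.1 ≠ G.s₂ ∧ k.2.1 ≠ G.s₃ := by
    intro f hf k hk hflat
    obtain ⟨i, rfl⟩ := hidx f hf
    have hd := corner_darts hk
    have hne : S.pos k.1 ≠ S.pos k.2.2 := by
      rcases (hF i).1 k hk with h | h
      · rw [det3_of_openSegment hflat] at h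
        exact absurd h (lt_irrefl 0)
      · exact h.2.1
    exact flat_ne S (inner_dart hf hd.1) (inner_dart hf hd.2) hflat hne
  refine ⟨?_, hsusp, ?_, ?_⟩
  · intro f hf
    obtain ⟨i, rfl⟩ := hidx f hf
    exact (hF i).2
  · intro f hf g hg k hk l hl hfk hfl hkl
    obtain ⟨n1, n2, n3⟩ := hsusp f hf k hk hfk
    exact h2 G S hwalk hF hdeg f hf g hg k hk l hl n1 n2 n3 hfk hfl hkl
  · exact h3 G S hout hwalk hF

end Pool.Agent.SLN
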