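import Pool.Agent.SLN.Cyc

set_option autoImplicit false

/-!
# G-FAN: triangular walks are fans from suitable vertices
-/

namespace Pool.Agent.SLN

open Pool.Agent.PAH (Plane det3 dartsOf cornersOf FanPos)

namespace FanAux

variable {V : Type}

theorem det_flat {z u v w : Plane} (h : v ∈ openSegment ℝ u w) :
    0 < det3 z u v ↔ 0 < det3 z v w := by
  obtain ⟨s, t, hs, ht, hst, rfl⟩ := h
  have hs' : s = 1 - t := by linarith
  subst hs'
  have e1 : det3 z u ((1 - t) • u + t • w) = t * det3 z u w := by
    unfold det3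
    simp only [Prod.fst_add, Prod.snd_add, Prod.smul_fst, Prod.smul_snd, smul_eq_mul]
    ring
  have e2 : det3 z ((1 - t) • u + t • w) w = (1 - t) * det3 z u w := by
    unfold det3
    simp only [Prod.fst_add, Prod.snd_add, Prod.smul_fst, Prod.smul_snd, smul_eq_mul]
    ring
  rw [e1, e2, mul_pos_iff_of_pos_left ht, mul_pos_iff_of_pos_left hs]

theorem det_rot (a b c : Plane) : det3 b c a = det3 a b c := by unfold det3; ring

/-- a corner which does not wrap around -/
theorem corner_mid {w : List V} (i : ℕ) (h : i + 2 < w.length) :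
    (w[i], w[i + 1], w[i + 2]) ∈ cornersOf w := by
  rw [mem_cornersOf_iff]
  refine ⟨⟨i, by omega⟩, ?_⟩
  simp only [List.get_eq_getElem, cs, Nat.mod_eq_of_lt (show i + 1 < w.length by omega),
    Nat.mod_eq_of_lt h]

/-- the corner which wraps around at its last vertex -/
theorem corner_last {w : List V} (i : ℕ) (h : i + 2 = w.length) :
    (w[i], w[i + 1], w[0]) ∈ cornersOf w := by
  rw [mem_cornersOf_iff]
  refine ⟨⟨i, by omega⟩, ?_⟩
  have h2 : (i + 1 + 1) % w.length = 0 := by
    rw [show i + 1 + 1 = w.length from h, Nat.mod_self]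
  simp only [List.get_eq_getElem, cs, Nat.mod_eq_of_lt (show i + 1 < w.length by omega), h2]

end FanAux

open FanAux

/-- G-FAN -/
theorem tFan : TFan := by
  intro V p Q z l hnd hlen ⟨a, b, c, _, _, _, habc⟩ hflat hcor hz
  have hlen' : 2 ≤ l.length := by simpa using hlen
  refine ⟨hlen', ?_⟩
  obtain ⟨m, hm⟩ : ∃ m, l.length = m + 2 := ⟨l.length - 2, by omega⟩
  -- elements of the walk
  obtain ⟨g, hg⟩ : ∃ g : ℕ → V, ∀ (i : ℕ) (h : i < l.length), l[i] = g i :=
    ⟨fun i => l.getD i z, fun i h => (List.getD_eq_getElem l z h).symm⟩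
  have hzl : ∀ i, i < l.length → g i ≠ z := by
    intro i h he
    rw [← hg i h] at he
    exact (List.nodup_cons.1 hnd).1 (he ▸ List.getElem_mem h)
  have hinj : ∀ i j, i < l.length → j < l.length → g i = g j → i = j := by
    intro i j h h' he
    rw [← hg i h, ← hg j h'] at he
    exact (List.Nodup.getElem_inj_iff (List.nodup_cons.1 hnd).2).1 he
  -- the first corner
  have hkA : (z, g 0, g 1) ∈ cornersOf (z :: l) := by
    have h := corner_mid (w := z :: l) 0 (by simp only [List.length_cons]; omega)
    simp only [List.getElem_cons_zero, List.getElem_cons_succ] at h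
    rw [hg, hg] at h
    exact h
  -- the last corner
  have hkB : (g m, g (m + 1), z) ∈ cornersOf (z :: l) := by
    have h := corner_last (w := z :: l) (m + 1) (by simp only [List.length_cons]; omega)
    simp only [List.getElem_cons_zero, List.getElem_cons_succ] at h
    rw [hg, hg] at h
    exact h
  -- the middle corners
  have hkM : ∀ i, i < m → (g i, g (i + 1), g (i + 2)) ∈ cornersOf (z :: l) := by
    intro i hi
    have h := corner_mid (w := z :: l) (i + 1) (by simp only [List.length_cons]; omega)
    simp only [List.getElem_cons_succ] at h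
    rw [hg, hg, hg] at h
    exact h
  have hnA : ¬ Q (z, g 0, g 1) := hz _ hkA (Or.inl rfl)
  have hdA : 0 < det3 (p z) (p (g 0)) (p (g 1)) := hcor _ hkA hnA
  have hnB : ¬ Q (g m, g (m + 1), z) := hz _ hkB (Or.inr rfl)
  have hdB : 0 < det3 (p z) (p (g m)) (p (g (m + 1))) := by
    have := hcor _ hkB hnB
    simp only at this
    rwa [det_rot] at this
  have hstep : ∀ i, i < m → Q (g i, g (i + 1), g (i + 2)) →
      (0 < det3 (p z) (p (g i)) (p (g (i + 1))) ↔
        0 < det3 (p z) (p (g (i + 1))) (p (g (i + 2)))) :=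
    fun i h hQ => det_flat (hflat _ (hkM i h) hQ).1
  -- at most one middle corner is not flat
  have huniq : ∀ i j, i < m → j < m → ¬ Q (g i, g (i + 1), g (i + 2)) →
      ¬ Q (g j, g (j + 1), g (j + 2)) → i = j := by
    intro i j hi hj h1 h2
    by_contra hne
    have cA := (habc _).1 ⟨hkA, hnA⟩
    have cB := (habc _).1 ⟨hkB, hnB⟩
    have cI := (habc _).1 ⟨hkM i hi, h1⟩
    have cJ := (habc _).1 ⟨hkM j hj, h2⟩
    have n1 : ((z, g 0, g 1) : V × V × V) ≠ (g m, g (m + 1), z) := by
      intro h
      exact hzl m (by omega) (congrArg Prod.fst h).symm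
    have n2 : ((z, g 0, g 1) : V × V × V) ≠ (g i, g (i + 1), g (i + 2)) := by
      intro h
      exact hzl i (by omega) (congrArg Prod.fst h).symm
    have n3 : ((z, g 0, g 1) : V × V × V) ≠ (g j, g (j + 1), g (j + 2)) := by
      intro h
      exact hzl j (by omega) (congrArg Prod.fst h).symm
    have n4 : ((g m, g (m + 1), z) : V × V × V) ≠ (g i, g (i + 1), g (i + 2)) := by
      intro h
      exact hzl (i + 2) (by omega) (congrArg (fun x => x.2.2) h).symm
    have n5 : ((g m, g (m + 1), z) : V × V × V) ≠ (g j, g (j + 1), g (j + 2)) := by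
      intro h
      exact hzl (j + 2) (by omega) (congrArg (fun x => x.2.2) h).symm
    have n6 : ((g i, g (i + 1), g (i + 2)) : V × V × V) ≠ (g j, g (j + 1), g (j + 2)) := by
      intro h
      exact hne (hinj i j (by omega) (by omega) (congrArg Prod.fst h))
    generalize ((z, g 0, g 1) : V × V × V) = A at *
    generalize ((g m, g (m + 1), z) : V × V × V) = B at *
    generalize ((g i, g (i + 1), g (i + 2)) : V × V × V) = C at *
    generalize ((g j, g (j + 1), g (j + 2)) : V × V × V) = E at *
    clear habc hflat hcor hz hstep hkA hkB hkM hg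
    rcases cA with h | h | h <;> rcases cB with h' | h' | h' <;>
      rcases cI with h'' | h'' | h'' <;> rcases cJ with h''' | h''' | h''' <;>
      first
      | exact n1 (h.trans h'.symm)
      | exact n2 (h.trans h''.symm)
      | exact n3 (h.trans h'''.symm)
      | exact n4 (h'.trans h''.symm)
      | exact n5 (h'.trans h'''.symm)
      | exact n6 (h''.trans h'''.symm)
  -- propagation
  have hfwd : ∀ i, i ≤ m → (∀ j, j < i → Q (g j, g (j + 1), g (j + 2))) →
      0 < det3 (p z) (p (g i)) (p (g (i + 1))) := by
    intro i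
    induction i with
    | zero => intro _ _; exact hdA
    | succ i ih =>
      intro h hQ
      exact (hstep i (by omega) (hQ i (by omega))).1
        (ih (by omega) fun j hj => hQ j (by omega))
  have hbwd : ∀ k i, i + k = m → (∀ j, i ≤ j → j < m → Q (g j, g (j + 1), g (j + 2))) →
      0 < det3 (p z) (p (g i)) (p (g (i + 1))) := by
    intro k
    induction k with
    | zero =>
      intro i h _
      have : i = m := by omega
      subst this
      exact hdB
    | succ k ih =>
      intro i h hQ
      exact (hstep i (by omega) (hQ i le_rfl (by omega))).2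
        (ih (i + 1) (by omega) fun j hj hj' => hQ j (by omega) hj')
  rw [List.isChain_iff_getElem]
  intro i hi
  rw [hg, hg]
  by_contra hneg
  have h1 : ∃ j, j < i ∧ ¬ Q (g j, g (j + 1), g (j + 2)) := by
    by_contra h
    push Not at h
    exact hneg (hfwd i (by omega) h)
  have h2 : ∃ j, i ≤ j ∧ j < m ∧ ¬ Q (g j, g (j + 1), g (j + 2)) := by
    by_contra h
    push Not at h
    exact hneg (hbwd (m - i) i (by omega) h)
  obtain ⟨j, hj, hj'⟩ := h1
  obtain ⟨k, hk, hk', hk''⟩ := h2
  have := huniq j k (by omega) hk' hj' hk''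
  omega

end Pool.Agent.SLN
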