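import Pool.Agent.SLN.Arcs
import Pool.Agent.SLN.Cyc

set_option autoImplicit false

/-!
# The flat angle assignment of the grid
-/

namespace Pool.Agent.SLN

open Pool.Agent.PAH (Plane det3 ccwAngle LiesLeft dartsOf cornersOf DecisionProblem PolyReduces
  ChainEq FanPos)

section count
variable {V : Type}

theorem corners_nodup {f : List V} (hf : f.Nodup) : (cornersOf f).Nodup := by
  apply List.Nodup.of_map Prod.fst
  have : (cornersOf f).map Prod.fst = f := by
    unfold cornersOf
    rw [List.map_fst_zip]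
    simp
  rw [this]
  exact hf

open Classical in
theorem three_of_count {f : List V} {Q : V × V × V → Prop} (hf : f.Nodup)
    (h : (cornersOf f).countP (fun k => decide (¬ Q k)) = 3) : ThreeCorners f Q := by
  rw [List.countP_eq_length_filter] at h
  have hn := (corners_nodup hf).filter (fun k => decide (¬ Q k))
  have hm : ∀ k, k ∈ (cornersOf f).filter (fun k => decide (¬ Q k)) ↔ k ∈ cornersOf f ∧ ¬ Q k := by
    intro k
    rw [List.mem_filter, decide_eq_true_iff]
  generalize (cornersOf f).filter (fun k => decide (¬ Q k)) = L at h hn hm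
  match L, h with
  | [a, b, c], _ =>
    simp only [List.nodup_cons, List.mem_cons, List.not_mem_nil, or_false, not_or,
      not_false_eq_true, and_true, List.nodup_nil] at hn
    refine ⟨a, b, c, hn.1.1, hn.1.2, hn.2, fun k => ?_⟩
    rw [← hm]
    simp

theorem corners3 (a b c : V) : cornersOf [a, b, c] = [(a, b, c), (b, c, a), (c, a, b)] := rfl
theorem corners4 (a b c d : V) :
    cornersOf [a, b, c, d] = [(a, b, c), (b, c, d), (c, d, a), (d, a, b)] := rfl
theorem corners6 (a b c d e f : V) : cornersOf [a, b, c, d, e, f] =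
    [(a, b, c), (b, c, d), (c, d, e), (d, e, f), (e, f, a), (f, a, b)] := rfl
theorem corners9 (a b c d e f g h i : V) : cornersOf [a, b, c, d, e, f, g, h, i] =
    [(a, b, c), (b, c, d), (c, d, e), (d, e, f), (e, f, g), (f, g, h), (g, h, i), (h, i, a),
      (i, a, b)] := rfl

variable {a b c d e f : V} {Q : V × V × V → Prop}

theorem tc3 (hn : [a, b, c].Nodup) (h1 : ¬ Q (a, b, c)) (h2 : ¬ Q (b, c, a))
    (h3 : ¬ Q (c, a, b)) : ThreeCorners [a, b, c] Q := by
  apply three_of_count hn
  simp [corners3, h1, h2, h3]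

/-- flat at the first vertex -/
theorem tc4_1 (hn : [a, b, c, d].Nodup) (h1 : ¬ Q (a, b, c)) (h2 : ¬ Q (b, c, d))
    (h3 : ¬ Q (c, d, a)) (h4 : Q (d, a, b)) : ThreeCorners [a, b, c, d] Q := by
  apply three_of_count hn
  simp [corners4, h1, h2, h3, h4]

/-- flat at the third vertex -/
theorem tc4_3 (hn : [a, b, c, d].Nodup) (h1 : ¬ Q (a, b, c)) (h2 : Q (b, c, d))
    (h3 : ¬ Q (c, d, a)) (h4 : ¬ Q (d, a, b)) : ThreeCorners [a, b, c, d] Q := by
  apply three_of_count hn
  simp [corners4, h1, h2, h3, h4]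

/-- flat at the fourth vertex -/
theorem tc4_4 (hn : [a, b, c, d].Nodup) (h1 : ¬ Q (a, b, c)) (h2 : ¬ Q (b, c, d))
    (h3 : Q (c, d, a)) (h4 : ¬ Q (d, a, b)) : ThreeCorners [a, b, c, d] Q := by
  apply three_of_count hn
  simp [corners4, h1, h2, h3, h4]

end count

/-- the pair `e` is not `(x, y)` since the kinds differ -/
theorem ne_fst {A : Option (VX × VX)} {e e' x y : VX} (hA : A = some (e, e'))
    (h : e ≠ x) : ¬ A = some (x, y) := by
  rw [hA]
  intro h'
  exact h (congrArg Prod.fst (Option.some.inj h'))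

theorem ne_snd {A : Option (VX × VX)} {e e' x y : VX} (hA : A = some (e, e'))
    (h : e' ≠ y) : ¬ A = some (x, y) := by
  rw [hA]
  intro h'
  exact h (congrArg Prod.snd (Option.some.inj h'))

theorem ne_none {A : Option (VX × VX)} {e : VX × VX} (hA : A = none) : ¬ A = some e := by
  rw [hA]
  exact fun h => Option.some_ne_none _ h.symm

theorem nd_ne {r k i : ℕ} {z : VX} (h : z.2.2 < 12) : z ≠ nd r k i := by
  rintro rfl
  simp only [nd] at h
  omega

theorem nd_ne' {r k i j : ℕ} (h : i ≠ j) : nd r k i ≠ nd r k j := by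
  intro h'
  simp only [nd, Prod.mk.injEq, true_and] at h'
  omega

/-- tiles -/
theorem tile_three {A : VX → Option (VX × VX)} {a b c d : VX} {r k i : ℕ}
    (hn : ∀ f ∈ tile a b c d r k i, f.Nodup)
    (ha : a.2.2 < 12) (hb : b.2.2 < 12) (hc : c.2.2 < 12) (hd : d.2.2 < 12)
    (hA : ∀ j, j < 6 → A (nd r k (i + j)) = tileAsg a b c d r k i j)
    (hb1 : ¬ A b = some (a, nd r k i)) (hb2 : ¬ A b = some (nd r k i, c))
    (hd1 : ¬ A d = some (c, nd r k (i + 5))) (hd2 : ¬ A d = some (nd r k (i + 5), a))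
    (ha1 : ¬ A a = some (nd r k (i + 1), b)) (ha2 : ¬ A a = some (d, nd r k (i + 4)))
    (hc1 : ¬ A c = some (b, nd r k (i + 2))) (hc2 : ¬ A c = some (nd r k (i + 3), d))
    (hac : (A a = some (nd r k (i + 4), nd r k (i + 1)) ∧
        ¬ A c = some (nd r k (i + 2), nd r k (i + 3))) ∨
      (¬ A a = some (nd r k (i + 4), nd r k (i + 1)) ∧
        A c = some (nd r k (i + 2), nd r k (i + 3)))) :
    ∀ f ∈ tile a b c d r k i, ThreeCorners f fun k => A k.2.1 = some (k.1, k.2.2) := by
  have A0 : A (nd r k i) = some (b, nd r k (i + 1)) := hA 0 (by decide)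
  have A1 : A (nd r k (i + 1)) = some (a, nd r k (i + 2)) := hA 1 (by decide)
  have A2 : A (nd r k (i + 2)) = some (c, nd r k i) := hA 2 (by decide)
  have A3 : A (nd r k (i + 3)) = some (c, nd r k (i + 4)) := hA 3 (by decide)
  have A4 : A (nd r k (i + 4)) = some (a, nd r k (i + 5)) := hA 4 (by decide)
  have A5 : A (nd r k (i + 5)) = some (d, nd r k (i + 3)) := hA 5 (by decide)
  intro f hf
  have hfn := hn f hf
  simp only [tile, prism, List.cons_append, List.nil_append, List.mem_cons, List.not_mem_nil,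
    or_false] at hf
  rcases hf with rfl | rfl | rfl | rfl | rfl | rfl | rfl
  · exact tc4_3 hfn hb1 A0 (ne_fst A1 (nd_ne ha)) ha1
  · exact tc4_4 hfn hb2 hc1 A2 (ne_fst A0 (nd_ne hb))
  · exact tc3 hfn (ne_fst A0 (nd_ne hb)) (ne_fst A2 (nd_ne hc)) (ne_fst A1 (nd_ne ha))
  · exact tc4_3 hfn hd1 A5 (ne_fst A3 (nd_ne hc)) hc2
  · exact tc4_4 hfn hd2 ha2 A4 (ne_fst A5 (nd_ne hd))
  · exact tc3 hfn (ne_fst A5 (nd_ne hd)) (ne_fst A4 (nd_ne ha)) (ne_fst A3 (nd_ne hc))
  · apply three_of_count hfn
    have e2 : ¬ A (nd r k (i + 2)) = some (nd r k (i + 1), c) := ne_fst A2 (nd_ne hc)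
    have e4 : ¬ A (nd r k (i + 4)) = some (nd r k (i + 3), a) := ne_fst A4 (nd_ne ha)
    rcases hac with ⟨h1, h2⟩ | ⟨h1, h2⟩
    · simp only [corners6, List.countP_cons, List.countP_nil, A1, A3, e2, e4, h1, h2]
      decide
    · simp only [corners6, List.countP_cons, List.countP_nil, A1, A3, e2, e4, h1, h2]
      decide

section kinds
variable (N M : ℕ) (B : ℕ → ℕ → Bool) (R : ℕ → Bool)

theorem hub_k (i b c : ℕ) : (hub N i b c).2.2 = 0 ∨ (hub N i b c).2.2 = 1 ∨
    (hub N i b c).2.2 = i := by
  unfold hub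
  split_ifs
  · exact Or.inl rfl
  · exact Or.inr (Or.inl rfl)
  · exact Or.inr (Or.inr rfl)

theorem hy_k (b c : ℕ) : (hy N b c).2.2 = 0 ∨ (hy N b c).2.2 = 1 ∨ (hy N b c).2.2 = 6 :=
  hub_k N 6 b c
theorem hc_k (b c : ℕ) : (hc N b c).2.2 = 0 ∨ (hc N b c).2.2 = 1 ∨ (hc N b c).2.2 = 7 :=
  hub_k N 7 b c
theorem hd_k (b c : ℕ) : (hd N b c).2.2 = 0 ∨ (hd N b c).2.2 = 1 ∨ (hd N b c).2.2 = 8 :=
  hub_k N 8 b c

theorem pp_k (b c : ℕ) : (pp N b c).2.2 = 0 ∨ (pp N b c).2.2 = 1 ∨ (pp N b c).2.2 = 9 := by
  unfold pp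
  split_ifs
  · exact Or.inl rfl
  · exact Or.inr (Or.inl rfl)
  · exact Or.inr (Or.inr rfl)

theorem uu_k (r c : ℕ) : (uu r c).2.2 = 3 := rfl
theorem xx_k (r c : ℕ) : (xx r c).2.2 = 4 := rfl
theorem qq_k (r c : ℕ) : (qq r c).2.2 = 5 := rfl
theorem vv_k (r c : ℕ) : (vv r c).2.2 = 10 := rfl
theorem ww_k (r c : ℕ) : (ww r c).2.2 = 11 := rfl
theorem nd_k (r c i : ℕ) : (nd r c i).2.2 = 12 + i := rfl
theorem uu_lt (r c : ℕ) : (uu r c).2.2 < 12 := by rw [uu_k]; decide
theorem xx_lt (r c : ℕ) : (xx r c).2.2 < 12 := by rw [xx_k]; decide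
theorem qq_lt (r c : ℕ) : (qq r c).2.2 < 12 := by rw [qq_k]; decide
theorem vv_lt (r c : ℕ) : (vv r c).2.2 < 12 := by rw [vv_k]; decide
theorem ww_lt (r c : ℕ) : (ww r c).2.2 < 12 := by rw [ww_k]; decide
theorem s1_k : s1.2.2 = 0 := rfl
theorem s2_k : s2.2.2 = 1 := rfl
theorem s3_k : s3.2.2 = 2 := rfl

theorem hy_lt (b c : ℕ) : (hy N b c).2.2 < 12 := by
  have := hy_k N b c
  omega
theorem hc_lt (b c : ℕ) : (hc N b c).2.2 < 12 := by
  have := hc_k N b c
  omega
theorem hd_lt (b c : ℕ) : (hd N b c).2.2 < 12 := by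
  have := hd_k N b c
  omega
theorem pp_lt (b c : ℕ) : (pp N b c).2.2 < 12 := by
  have := pp_k N b c
  omega

theorem asg_hub' (i b c : ℕ) (hi : 6 ≤ i) (hi' : i < 9) : asg N M B R (hub N i b c) = none := by
  unfold hub
  split_ifs
  · rfl
  · rfl
  · exact asg_hub N M B R b c i hi hi'

theorem asg_hy (b c : ℕ) : asg N M B R (hy N b c) = none :=
  asg_hub' N M B R 6 b c (by decide) (by decide)
theorem asg_hc (b c : ℕ) : asg N M B R (hc N b c) = none :=
  asg_hub' N M B R 7 b c (by decide) (by decide)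
theorem asg_hd (b c : ℕ) : asg N M B R (hd N b c) = none :=
  asg_hub' N M B R 8 b c (by decide) (by decide)

variable {N M B R}

theorem pp_kind {b j : ℕ} {x y : VX} (h : asg N M B R (pp N b j) = some (x, y)) :
    x.2.2 = 44 ∧ y.2.2 = 37 := by
  unfold pp at h
  split_ifs at h with h1 h2
  · exact absurd h (ne_none (asg_susp N M B R).1)
  · exact absurd h (ne_none (asg_susp N M B R).2.1)
  · obtain ⟨c, rfl⟩ : ∃ c, j = c + 1 := ⟨j - 1, by omega⟩
    rw [asg_p] at h
    simp only [Option.some.injEq, Prod.mk.injEq] at h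
    rw [← h.1, ← h.2]
    exact ⟨rfl, rfl⟩

theorem uu_kind {r c : ℕ} {x y : VX} (h : asg N M B R (uu r c) = some (x, y)) :
    (R r = true ∧ ((x.2.2 = 34 ∧ y.2.2 = 31) ∨ (x.2.2 = 32 ∧ y.2.2 = 33) ∨
      (x.2.2 = 26 ∧ y.2.2 = 27) ∨ (0 < c ∧ (x.2.2 = 0 ∨ x.2.2 = 1 ∨ x.2.2 = 9) ∧
        (y.2.2 = 0 ∨ y.2.2 = 1 ∨ y.2.2 = 9)))) ∨
    (R r = false ∧ x.2.2 = 16 ∧ y.2.2 = 13) := by
  rw [asg_u_eq] at h
  cases hR : R r with
  | true =>
    left
    refine ⟨rfl, ?_⟩
    rw [hR, if_pos rfl] at h
    split_ifs at h with h1 h2 h3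
    all_goals
      simp only [Option.some.injEq, Prod.mk.injEq] at h
      obtain ⟨rfl, rfl⟩ := h
    · exact Or.inl ⟨rfl, rfl⟩
    · exact Or.inr (Or.inl ⟨rfl, rfl⟩)
    · exact Or.inr (Or.inr (Or.inl ⟨rfl, rfl⟩))
    · exact Or.inr (Or.inr (Or.inr ⟨by omega, pp_k N _ _, pp_k N _ _⟩))
  | false =>
    right
    refine ⟨rfl, ?_⟩
    rw [hR, if_neg (by decide)] at h
    split_ifs at h with h1
    simp only [Option.some.injEq, Prod.mk.injEq] at h
    obtain ⟨rfl, rfl⟩ := h
    exact ⟨rfl, rfl⟩

theorem xx_kind {r c : ℕ} {x y : VX} (h : asg N M B R (xx r c) = some (x, y)) :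
    (R r = true ∧ x.2.2 = 14 ∧ y.2.2 = 15) ∨ (R r = false ∧ x.2.2 = 22 ∧ y.2.2 = 19) := by
  cases hR : R r with
  | true =>
    rw [asg_xR N M B c hR] at h
    simp only [Option.some.injEq, Prod.mk.injEq] at h
    obtain ⟨rfl, rfl⟩ := h
    exact Or.inl ⟨rfl, rfl, rfl⟩
  | false =>
    rw [asg_xL N M B c hR] at h
    simp only [Option.some.injEq, Prod.mk.injEq] at h
    obtain ⟨rfl, rfl⟩ := h
    exact Or.inr ⟨rfl, rfl, rfl⟩

theorem qq_kind {r c : ℕ} {x y : VX} (h : asg N M B R (qq r c) = some (x, y)) :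
    (R r = true ∧ x.2.2 = 20 ∧ y.2.2 = 21) ∨
    (R r = false ∧ ((x.2.2 = 28 ∧ y.2.2 = 25) ∨ ((x.2.2 = 0 ∨ x.2.2 = 1 ∨ x.2.2 = 9) ∧
        (y.2.2 = 0 ∨ y.2.2 = 1 ∨ y.2.2 = 9)))) := by
  cases hR : R r with
  | true =>
    rw [asg_qR N M B c hR] at h
    simp only [Option.some.injEq, Prod.mk.injEq] at h
    obtain ⟨rfl, rfl⟩ := h
    exact Or.inl ⟨rfl, rfl, rfl⟩
  | false =>
    right
    refine ⟨rfl, ?_⟩
    cases hB : B r c with
    | true =>
      rw [asg_qLW N M B c hR hB] at h
      simp only [Option.some.injEq, Prod.mk.injEq] at h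
      obtain ⟨rfl, rfl⟩ := h
      exact Or.inl ⟨rfl, rfl⟩
    | false =>
      rw [asg_qL N M B c hR hB] at h
      simp only [Option.some.injEq, Prod.mk.injEq] at h
      obtain ⟨rfl, rfl⟩ := h
      exact Or.inr ⟨pp_k N _ _, pp_k N _ _⟩

theorem tileA_three {r c : ℕ} (hc : c < M) (hn : ∀ f ∈ tileA N r c, f.Nodup) :
    ∀ f ∈ tileA N r c, ThreeCorners f fun k => asg N M B R k.2.1 = some (k.1, k.2.2) := by
  refine tile_three hn (uu_lt ..) (hy_lt ..) (xx_lt ..) (hy_lt ..)
    (fun j hj => by rw [Nat.zero_add]; exact asg_A N M B R r c j hj)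
    (ne_none (asg_hy ..)) (ne_none (asg_hy ..)) (ne_none (asg_hy ..)) (ne_none (asg_hy ..))
    ?_ ?_ ?_ ?_ ?_
  · intro h
    have := uu_kind h
    rw [nd_k] at this
    omega
  · intro h
    have := uu_kind h
    rw [nd_k] at this
    omega
  · intro h
    have := xx_kind h
    rw [nd_k] at this
    omega
  · intro h
    have := xx_kind h
    rw [nd_k] at this
    omega
  · cases hR : R r with
    | true =>
      right
      refine ⟨?_, asg_xR N M B c hR⟩
      intro h
      have := uu_kind h
      rw [hR] at this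
      simp only [nd_k, eq_self, true_and, reduceCtorEq, false_and, or_false, false_or] at this
      omega
    | false =>
      left
      refine ⟨asg_uL N M B c hR hc, ?_⟩
      intro h
      have := xx_kind h
      rw [hR] at this
      simp only [nd_k, eq_self, true_and, reduceCtorEq, false_and, false_or] at this
      omega

theorem tileB_three {r c : ℕ} (hn : ∀ f ∈ tileB N r c, f.Nodup) :
    ∀ f ∈ tileB N r c, ThreeCorners f fun k => asg N M B R k.2.1 = some (k.1, k.2.2) := by
  refine tile_three hn (xx_lt ..) (hc_lt ..) (qq_lt ..) (hd_lt ..)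
    (fun j hj => asg_B N M B R r c j hj)
    (ne_none (asg_hc ..)) (ne_none (asg_hc ..)) (ne_none (asg_hd ..)) (ne_none (asg_hd ..))
    ?_ ?_ ?_ ?_ ?_
  · intro h
    have := xx_kind h
    rw [nd_k] at this
    omega
  · intro h
    have := xx_kind h
    rw [nd_k] at this
    omega
  · intro h
    have := qq_kind h
    rw [nd_k] at this
    omega
  · intro h
    have := qq_kind h
    rw [nd_k] at this
    omega
  · cases hR : R r with
    | true =>
      right
      refine ⟨?_, asg_qR N M B c hR⟩
      intro h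
      have := xx_kind h
      rw [hR] at this
      simp only [nd_k, eq_self, true_and, reduceCtorEq, false_and, or_false, false_or] at this
      omega
    | false =>
      left
      refine ⟨asg_xL N M B c hR, ?_⟩
      intro h
      have := qq_kind h
      rw [hR] at this
      simp only [nd_k, eq_self, true_and, reduceCtorEq, false_and, false_or] at this
      omega

theorem tileW_three {r c : ℕ} (hB : B r c = true) (hn : ∀ f ∈ tileW N r c, f.Nodup) :
    ∀ f ∈ tileW N r c, ThreeCorners f fun k => asg N M B R k.2.1 = some (k.1, k.2.2) := by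
  have k1 := pp_k N (r + 1) (c + 1)
  have k2 := pp_k N r (c + 1)
  refine tile_three hn (qq_lt ..) (pp_lt ..) (uu_lt ..) (pp_lt ..)
    (fun j hj => asg_W N M B R r c j hj) ?_ ?_ ?_ ?_ ?_ ?_ ?_ ?_ ?_
  · intro h
    have := pp_kind h
    rw [nd_k, qq_k] at this
    omega
  · intro h
    have := pp_kind h
    rw [nd_k, uu_k] at this
    omega
  · intro h
    have := pp_kind h
    rw [nd_k, uu_k] at this
    omega
  · intro h
    have := pp_kind h
    rw [nd_k, qq_k] at this
    omega
  · intro h
    have := qq_kind h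
    rw [nd_k] at this
    omega
  · intro h
    have := qq_kind h
    rw [nd_k] at this
    omega
  · intro h
    have := uu_kind h
    rw [nd_k] at this
    omega
  · intro h
    have := uu_kind h
    rw [nd_k] at this
    omega
  · cases hR : R r with
    | true =>
      right
      refine ⟨?_, asg_uRW N M B c hR hB⟩
      intro h
      have := qq_kind h
      rw [hR] at this
      simp only [nd_k, eq_self, true_and, reduceCtorEq, false_and, or_false, false_or] at this
      omega
    | false =>
      left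
      refine ⟨asg_qLW N M B c hR hB, ?_⟩
      intro h
      have := uu_kind h
      rw [hR] at this
      simp only [nd_k, eq_self, true_and, reduceCtorEq, false_and, false_or] at this
      omega

theorem thin_three {r c : ℕ} (hB : B r c = false) (hn : ∀ f ∈ thin N r c, f.Nodup) :
    ∀ f ∈ thin N r c, ThreeCorners f fun k => asg N M B R k.2.1 = some (k.1, k.2.2) := by
  intro f hf
  have hfn := hn f hf
  unfold thin at hf
  rw [List.mem_singleton] at hf
  subst hf
  have p1 : ∀ {b x y}, x.2.2 < 12 → ¬ asg N M B R (pp N b (c + 1)) = some (x, y) := by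
    intro b x y hx h
    have := pp_kind h
    omega
  cases hR : R r with
  | true =>
    refine tc4_3 hfn (p1 (qq_lt ..)) (asg_uR N M B c hR hB) (p1 (uu_lt ..)) ?_
    intro h
    have := qq_kind h
    rw [hR] at this
    have k2 := pp_k N r (c + 1)
    simp only [eq_self, true_and, reduceCtorEq, false_and, or_false, false_or] at this
    omega
  | false =>
    refine tc4_1 hfn (p1 (qq_lt ..)) ?_ (p1 (uu_lt ..)) (asg_qL N M B c hR hB)
    intro h
    have := uu_kind h
    rw [hR] at this
    have k2 := pp_k N (r + 1) (c + 1)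
    simp only [eq_self, true_and, reduceCtorEq, false_and, false_or] at this
    omega

theorem tileV_three {r : ℕ} (hr : r % 2 = 0) (hP : R r = !R (r + 1))
    (hn : ∀ f ∈ tile (uu r 0) s1 (uu (r + 1) 0) (hy N (r + 1) 0) r 0 18, f.Nodup) :
    ∀ f ∈ tile (uu r 0) s1 (uu (r + 1) 0) (hy N (r + 1) 0) r 0 18,
      ThreeCorners f fun k => asg N M B R k.2.1 = some (k.1, k.2.2) := by
  refine tile_three hn (uu_lt ..) (by decide) (uu_lt ..) (hy_lt ..)
    (fun j hj => asg_V N M B R r j hj)
    (ne_none (asg_susp ..).1) (ne_none (asg_susp ..).1) (ne_none (asg_hy ..))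
    (ne_none (asg_hy ..)) ?_ ?_ ?_ ?_ ?_
  · intro h
    have := uu_kind h
    rw [nd_k] at this
    omega
  · intro h
    have := uu_kind h
    rw [nd_k] at this
    omega
  · intro h
    have := uu_kind h
    rw [nd_k] at this
    omega
  · intro h
    have := uu_kind h
    rw [nd_k] at this
    omega
  · cases hR : R r with
    | true =>
      left
      refine ⟨asg_u0e N M B hR hr, ?_⟩
      have hR' : R (r + 1) = false := by
        rw [hR] at hP
        simpa using hP.symm
      intro h
      have := uu_kind h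
      rw [hR'] at this
      simp only [nd_k, eq_self, true_and, reduceCtorEq, false_and, false_or] at this
      omega
    | false =>
      right
      have hR' : R (r + 1) = true := by
        rw [hR] at hP
        simpa using hP.symm
      refine ⟨?_, asg_u0o N M B hR' hr⟩
      intro h
      have := uu_kind h
      rw [hR] at this
      simp only [nd_k, eq_self, true_and, reduceCtorEq, false_and, false_or] at this
      omega

theorem mid_three {r c : ℕ} (hr : r + 1 < N) (hn : ∀ f ∈ midFaces N r c, f.Nodup) :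
    ∀ f ∈ midFaces N r c, ThreeCorners f fun k => asg N M B R k.2.1 = some (k.1, k.2.2) := by
  intro f hf
  have hfn := hn f hf
  have e1 := hy_of (N := N) (c := c) (Nat.succ_pos r) hr
  have e2 := hc_of (N := N) (c := c) (Nat.succ_pos r) hr
  have e3 := hd_of (N := N) (c := c) (Nat.succ_pos r) hr
  have k1 : (hy N (r + 1) c).2.2 = 6 := by rw [e1]
  have k2 : (hc N (r + 1) c).2.2 = 7 := by rw [e2]
  have k3 : (hd N (r + 1) c).2.2 = 8 := by rw [e3]
  have ny : ∀ {e}, ¬ asg N M B R (hy N (r + 1) c) = some e := ne_none (asg_hy ..)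
  have nc : ∀ {e}, ¬ asg N M B R (hc N (r + 1) c) = some e := ne_none (asg_hc ..)
  have nd' : ∀ {e}, ¬ asg N M B R (hd N (r + 1) c) = some e := ne_none (asg_hd ..)
  have np : ∀ {x y : VX}, x.2.2 < 12 → ¬ asg N M B R (pp N (r + 1) (c + 1)) = some (x, y) := by
    intro x y hx h
    have := pp_kind h
    omega
  simp only [midFaces, List.mem_cons, List.not_mem_nil, or_false] at hf
  rcases hf with rfl | rfl | rfl | rfl | rfl | rfl
  · refine tc3 hfn nc ?_ ny
    intro h
    have := xx_kind h
    dsimp only at this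
    omega
  · refine tc3 hfn ?_ nd' ny
    intro h
    have := xx_kind h
    dsimp only at this
    omega
  · refine tc3 hfn ny ?_ nc
    refine ne_fst (asg_v N M B R (r + 1) c) ?_
    rw [e1]
    simp [nd]
  · refine tc3 hfn nd' ?_ ny
    refine ne_fst (asg_w N M B R (r + 1) c) ?_
    rw [e3]
    simp [nd]
  · refine tc3 hfn nc (np (hc_lt ..)) ?_
    intro h
    have := qq_kind h
    dsimp only at this
    omega
  · refine tc3 hfn ?_ (np (qq_lt ..)) nd'
    intro h
    have := qq_kind h
    dsimp only at this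
    omega

theorem dead_three {b c : ℕ} (h1 : 1 ≤ b) (h2 : b < N) (hn : ∀ f ∈ deadFaces N b c, f.Nodup) :
    ∀ f ∈ deadFaces N b c, ThreeCorners f fun k => asg N M B R k.2.1 = some (k.1, k.2.2) := by
  have a0 : asg N M B R (nd b c 24) = some (hc N b c, nd b c 25) :=
    asg_D N M B R b c 0 (by decide)
  have a1 : asg N M B R (nd b c 25) = some (pp N b (c + 1), nd b c 26) :=
    asg_D N M B R b c 1 (by decide)
  have a2 : asg N M B R (nd b c 26) = some (vv b c, nd b c 24) :=
    asg_D N M B R b c 2 (by decide)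
  have a3 : asg N M B R (nd b c 27) = some (nd b c 29, hy N b c) :=
    asg_D N M B R b c 3 (by decide)
  have a4 : asg N M B R (nd b c 28) = some (nd b c 27, vv b c) :=
    asg_D N M B R b c 4 (by decide)
  have a5 : asg N M B R (nd b c 29) = some (nd b c 28, ww b c) :=
    asg_D N M B R b c 5 (by decide)
  have a6 : asg N M B R (nd b c 30) = some (hd N b c, nd b c 31) :=
    asg_D N M B R b c 6 (by decide)
  have a7 : asg N M B R (nd b c 31) = some (ww b c, nd b c 32) :=
    asg_D N M B R b c 7 (by decide)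
  have a8 : asg N M B R (nd b c 32) = some (pp N b (c + 1), nd b c 30) :=
    asg_D N M B R b c 8 (by decide)
  have ap : asg N M B R (pp N b (c + 1)) = some (nd b c 32, nd b c 25) := by
    rw [pp_of h1 h2]; exact asg_p N M B R b c
  have av := asg_v N M B R b c
  have aw := asg_w N M B R b c
  have ny : ∀ {e}, ¬ asg N M B R (hy N b c) = some e := ne_none (asg_hy ..)
  have nc : ∀ {e}, ¬ asg N M B R (hc N b c) = some e := ne_none (asg_hc ..)
  have nd' : ∀ {e}, ¬ asg N M B R (hd N b c) = some e := ne_none (asg_hd ..)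
  have ky := hy_k N b c
  have kc := hc_k N b c
  have kd := hd_k N b c
  have kp := pp_k N b (c + 1)
  -- different kinds
  have nk : ∀ {x y : VX}, x.2.2 ≠ y.2.2 → x ≠ y := fun h h' => h (by rw [h'])
  intro f hf
  have hfn := hn f hf
  simp only [deadFaces, prism, centre, List.cons_append, List.nil_append, List.mem_cons,
    List.not_mem_nil, or_false] at hf
  rcases hf with rfl | rfl | rfl | rfl | rfl | rfl | rfl | rfl | rfl | rfl
  · exact tc4_3 hfn nc a0 (ne_fst a1 (nd_ne (pp_lt ..))) (ne_snd ap (nd_ne (hc_lt ..)).symm)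
  · exact tc4_4 hfn nc (ne_fst av (nd_ne (hc_lt ..)).symm) a2
      (ne_fst a0 (nd_ne (hc_lt ..)))
  · exact tc3 hfn (ne_fst a0 (nd_ne (hc_lt ..))) (ne_fst a2 (nd_ne (vv_lt ..)))
      (ne_fst a1 (nd_ne (pp_lt ..)))
  · exact tc4_4 hfn ny (ne_snd a3 (nk (by rw [nd_k]; omega))) a4
      (ne_snd av (nd_ne (hy_lt ..)).symm)
  · exact tc4_1 hfn ny (ne_fst aw (nd_ne (hy_lt ..)).symm)
      (ne_snd a5 (nd_ne (ww_lt ..))) a3
  · exact tc3 hfn (ne_snd a3 (nd_ne (hy_lt ..))) (ne_fst a5 (nd_ne' (by decide)))
      (ne_snd a4 (nd_ne (vv_lt ..)))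
  · exact tc4_3 hfn nd' a6 (ne_fst a7 (nd_ne (ww_lt ..))) (ne_snd aw (nd_ne (hd_lt ..)).symm)
  · exact tc4_4 hfn nd' (ne_fst ap (nd_ne (hd_lt ..)).symm) a8
      (ne_fst a6 (nd_ne (hd_lt ..)))
  · exact tc3 hfn (ne_fst a6 (nd_ne (hd_lt ..))) (ne_fst a8 (nd_ne (pp_lt ..)))
      (ne_fst a7 (nd_ne (ww_lt ..)))
  · apply three_of_count hfn
    have b2 : ¬ asg N M B R (nd b c 26) = some (nd b c 25, vv b c) :=
      ne_fst a2 (nd_ne (vv_lt ..))
    have b4 : ¬ asg N M B R (nd b c 28) = some (vv b c, nd b c 29) :=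
      ne_snd a4 (nd_ne (vv_lt ..))
    have b8 : ¬ asg N M B R (nd b c 32) = some (nd b c 31, pp N b (c + 1)) :=
      ne_fst a8 (nd_ne (pp_lt ..))
    simp only [corners9, List.countP_cons, List.countP_nil, a1, b2, av, b4, a5, aw, a7, b8, ap]
    decide

theorem left_three {r c : ℕ} (hr : r + 1 < N) (hP : Paired N R)
    (hn : ∀ f ∈ leftFaces N r c, f.Nodup) :
    ∀ f ∈ leftFaces N r c, ThreeCorners f fun k => asg N M B R k.2.1 = some (k.1, k.2.2) := by
  intro f hf
  unfold leftFaces at hf hn
  by_cases h : c = 0 ∧ r % 2 = 0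
  · rw [if_pos h] at hf hn
    exact tileV_three h.2 (hP r h.2 hr) hn f hf
  · rw [if_neg h] at hf hn
    have hfn := hn f hf
    have e1 := hy_of (N := N) (c := c) (Nat.succ_pos r) hr
    have k1 : (hy N (r + 1) c).2.2 = 6 := by rw [e1]
    have ny : ∀ {e}, ¬ asg N M B R (hy N (r + 1) c) = some e := ne_none (asg_hy ..)
    simp only [List.mem_cons, List.not_mem_nil, or_false] at hf
    rcases hf with rfl | rfl
    · refine tc3 hfn ny ?_ ?_
      · intro h
        have := uu_kind h
        dsimp only at this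
        omega
      · intro h
        have := pp_kind h
        dsimp only [uu] at this
        omega
    · refine tc3 hfn ?_ ny ?_
      · intro h
        have := uu_kind h
        dsimp only at this
        omega
      · intro h
        have := pp_kind h
        dsimp only at this
        omega

theorem right_three {r : ℕ} (hn : ∀ f ∈ rightFaces N M r, f.Nodup) :
    ∀ f ∈ rightFaces N M r, ThreeCorners f fun k => asg N M B R k.2.1 = some (k.1, k.2.2) := by
  intro f hf
  have hfn := hn f hf
  have ns : ∀ {e}, ¬ asg N M B R s3 = some e := ne_none (asg_susp ..).2.2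
  simp only [rightFaces, List.mem_cons, List.not_mem_nil, or_false] at hf
  rcases hf with rfl | rfl
  · refine tc3 hfn ?_ ns ?_
    · intro h
      have := pp_kind h
      dsimp only [uu] at this
      omega
    · intro h
      have := uu_kind h
      dsimp only [s3] at this
      omega
  · refine tc3 hfn ?_ ns ?_
    · intro h
      have := uu_kind h
      dsimp only [s3] at this
      omega
    · intro h
      have := pp_kind h
      dsimp only [s3] at this
      omega

theorem first_three (hn : [s1, s2, uu (N - 1) 0].Nodup) :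
    ThreeCorners [s1, s2, uu (N - 1) 0] fun k => asg N M B R k.2.1 = some (k.1, k.2.2) := by
  refine tc3 hn (ne_none (asg_susp ..).2.1) ?_ (ne_none (asg_susp ..).1)
  intro h
  have := uu_kind h
  dsimp only [s1, s2] at this
  omega

theorem all_three (hW : TWalk) (hN : 2 ≤ N) (hM : 1 ≤ M) (hP : Paired N R) :
    ∀ f ∈ gridFaces N M B, ThreeCorners f fun k => asg N M B R k.2.1 = some (k.1, k.2.2) := by
  have hw := fun f hf => (hW N M B hN hM f hf).1
  intro f hf
  rcases mem_gridFaces.mp hf with rfl | ⟨c, hc, r, hr, h⟩ | ⟨c, hc, r, hr, h⟩ | ⟨r, hr, h⟩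
  · exact first_three (hw _ hf)
  · have hw' : ∀ f ∈ railFaces N B r c, f.Nodup := fun f h =>
      hw f (mem_gridFaces.mpr (Or.inr (Or.inl ⟨c, hc, r, hr, h⟩)))
    unfold railFaces at h hw'
    rw [List.mem_append, List.mem_append] at h
    rcases h with (h | h) | h
    · exact tileA_three hc (fun f hf => hw' f (List.mem_append_left _
        (List.mem_append_left _ hf))) f h
    · exact tileB_three (fun f hf => hw' f (List.mem_append_left _
        (List.mem_append_right _ hf))) f h
    · cases hB : B r c with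
      | true =>
        rw [hB] at h hw'
        exact tileW_three hB (fun f hf => hw' f (List.mem_append_right _ hf)) f h
      | false =>
        rw [hB] at h hw'
        exact thin_three hB (fun f hf => hw' f (List.mem_append_right _ hf)) f h
  · have hw' : ∀ f ∈ bandFaces N r c, f.Nodup := fun f h =>
      hw f (mem_gridFaces.mpr (Or.inr (Or.inr (Or.inl ⟨c, hc, r, hr, h⟩))))
    unfold bandFaces at h hw'
    rw [List.mem_append, List.mem_append] at h
    rcases h with (h | h) | h
    · exact left_three hr hP (fun f hf => hw' f (List.mem_append_left _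
        (List.mem_append_left _ hf))) f h
    · exact mid_three hr (fun f hf => hw' f (List.mem_append_left _
        (List.mem_append_right _ hf))) f h
    · exact dead_three (Nat.succ_pos r) hr (fun f hf => hw' f (List.mem_append_right _ hf)) f h
  · exact right_three (fun f h => hw f (mem_gridFaces.mpr (Or.inr (Or.inr (Or.inr
      ⟨r, hr, h⟩))))) f h

end kinds

/-! ## The flat corners exist -/

section corner
variable {N M : ℕ} {B : ℕ → ℕ → Bool} {R : ℕ → Bool}

/-- `(e.1, v, e.2)` is a corner of an inner face -/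
def Cor (N M : ℕ) (B : ℕ → ℕ → Bool) (v : VX) (e : VX × VX) : Prop :=
  ∃ f ∈ gridFaces N M B, (e.1, v, e.2) ∈ cornersOf f

theorem cor_rail {r c : ℕ} (hr : r < N) (hc : c < M) {f : List VX} (hf : f ∈ railFaces N B r c)
    {v : VX} {e : VX × VX} (h : (e.1, v, e.2) ∈ cornersOf f) : Cor N M B v e :=
  ⟨f, mem_gridFaces.mpr (Or.inr (Or.inl ⟨c, hc, r, hr, hf⟩)), h⟩

theorem cor_band {r c : ℕ} (hr : r + 1 < N) (hc : c < M) {f : List VX}
    (hf : f ∈ bandFaces N r c) {v : VX} {e : VX × VX} (h : (e.1, v, e.2) ∈ cornersOf f) :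
    Cor N M B v e :=
  ⟨f, mem_gridFaces.mpr (Or.inr (Or.inr (Or.inl ⟨c, hc, r, hr, hf⟩))), h⟩

/-- corners of a tile -/
theorem tile_cor {a b c d : VX} {r k i : ℕ} {P : VX → VX × VX → Prop}
    (hP : ∀ f ∈ tile a b c d r k i, ∀ v e, (e.1, v, e.2) ∈ cornersOf f → P v e) :
    (∀ j, j < 6 → ∀ e, tileAsg a b c d r k i j = some e → P (nd r k (i + j)) e) ∧
      P a (nd r k (i + 4), nd r k (i + 1)) ∧ P c (nd r k (i + 2), nd r k (i + 3)) := by
  refine ⟨?_, ?_, ?_⟩
  · intro j hj e he
    have h : j = 0 ∨ j = 1 ∨ j = 2 ∨ j = 3 ∨ j = 4 ∨ j = 5 := by omega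
    rcases h with rfl | rfl | rfl | rfl | rfl | rfl <;> simp only [tileAsg, Option.some.injEq] at he <;>
      subst he
    · exact hP [a, b, nd r k i, nd r k (i + 1)] (by simp [tile, prism]) _ _
        (by simp [corners4])
    · exact hP [a, nd r k (i + 1), nd r k (i + 2), c, nd r k (i + 3), nd r k (i + 4)]
        (by simp [tile, prism]) _ _ (by simp [corners6])
    · exact hP [nd r k i, b, c, nd r k (i + 2)] (by simp [tile, prism]) _ _
        (by simp [corners4])
    · exact hP [a, nd r k (i + 1), nd r k (i + 2), c, nd r k (i + 3), nd r k (i + 4)]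
        (by simp [tile, prism]) _ _ (by simp [corners6])
    · exact hP [nd r k (i + 5), d, a, nd r k (i + 4)] (by simp [tile, prism]) _ _
        (by simp [corners4])
    · exact hP [c, d, nd r k (i + 5), nd r k (i + 3)] (by simp [tile, prism]) _ _
        (by simp [corners4])
  · exact hP [a, nd r k (i + 1), nd r k (i + 2), c, nd r k (i + 3), nd r k (i + 4)]
        (by simp [tile, prism]) _ _ (by simp [corners6])
  · exact hP [a, nd r k (i + 1), nd r k (i + 2), c, nd r k (i + 3), nd r k (i + 4)]
        (by simp [tile, prism]) _ _ (by simp [corners6])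

theorem rail_tiles {r c : ℕ} : (∀ f ∈ tileA N r c, f ∈ railFaces N B r c) ∧
    (∀ f ∈ tileB N r c, f ∈ railFaces N B r c) ∧
    (B r c = true → ∀ f ∈ tileW N r c, f ∈ railFaces N B r c) ∧
    (B r c = false → ∀ f ∈ thin N r c, f ∈ railFaces N B r c) := by
  refine ⟨?_, ?_, ?_, ?_⟩
  · intro f hf
    unfold railFaces
    exact List.mem_append_left _ (List.mem_append_left _ hf)
  · intro f hf
    unfold railFaces
    exact List.mem_append_left _ (List.mem_append_right _ hf)
  · intro h f hf
    unfold railFaces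
    rw [h]
    exact List.mem_append_right _ hf
  · intro h f hf
    unfold railFaces
    rw [h]
    exact List.mem_append_right _ hf

theorem band_V {r : ℕ} (hr : r % 2 = 0) :
    ∀ f ∈ tile (uu r 0) s1 (uu (r + 1) 0) (hy N (r + 1) 0) r 0 18, f ∈ bandFaces N r 0 := by
  intro f hf
  unfold bandFaces leftFaces
  rw [if_pos ⟨rfl, hr⟩]
  exact List.mem_append_left _ (List.mem_append_left _ hf)

end corner

/-- the vertices of the grid -/
inductive IsV (N M : ℕ) (B : ℕ → ℕ → Bool) : VX → Prop
  | s1 : IsV N M B s1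
  | s2 : IsV N M B s2
  | s3 : IsV N M B s3
  | y (b c : ℕ) : b ≤ N → c < M → IsV N M B (hy N b c)
  | c (b c : ℕ) : b ≤ N → c < M → IsV N M B (hc N b c)
  | d (b c : ℕ) : b ≤ N → c < M → IsV N M B (hd N b c)
  | u (r j : ℕ) : r < N → j ≤ M → IsV N M B (uu r j)
  | x (r c : ℕ) : r < N → c < M → IsV N M B (xx r c)
  | q (r c : ℕ) : r < N → c < M → IsV N M B (qq r c)
  | p (b c : ℕ) : b ≤ N → c < M → IsV N M B (pp N b (c + 1))
  | v (b c : ℕ) : 1 ≤ b → b < N → c < M → IsV N M B (vv b c)
  | w (b c : ℕ) : 1 ≤ b → b < N → c < M → IsV N M B (ww b c)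
  | tA (r c j : ℕ) : r < N → c < M → j < 6 → IsV N M B (nd r c j)
  | tB (r c j : ℕ) : r < N → c < M → j < 6 → IsV N M B (nd r c (6 + j))
  | tW (r c j : ℕ) : r < N → c < M → j < 6 → B r c = true → IsV N M B (nd r c (12 + j))
  | tV (r j : ℕ) : r % 2 = 0 → r + 1 < N → j < 6 → IsV N M B (nd r 0 (18 + j))
  | dd (b c j : ℕ) : 1 ≤ b → b < N → c < M → j < 9 → IsV N M B (nd b c (24 + j))

section isv
variable {N M : ℕ} {B : ℕ → ℕ → Bool}

theorem mem_tile {P : VX → Prop} {a b c d : VX} {r k i : ℕ} (ha : P a) (hb : P b) (hc : P c)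
    (hd : P d) (hn : ∀ j, j < 6 → P (nd r k (i + j))) :
    ∀ f ∈ tile a b c d r k i, ∀ v ∈ f, P v := by
  intro f hf v hv
  have h0 : P (nd r k i) := hn 0 (by decide)
  have h1 := hn 1 (by decide)
  have h2 := hn 2 (by decide)
  have h3 := hn 3 (by decide)
  have h4 := hn 4 (by decide)
  have h5 := hn 5 (by decide)
  simp only [tile, prism, List.cons_append, List.nil_append, List.mem_cons, List.not_mem_nil,
    or_false] at hf
  rcases hf with rfl | rfl | rfl | rfl | rfl | rfl | rfl <;>
    simp only [List.mem_cons, List.not_mem_nil, or_false] at hv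
  · rcases hv with rfl | rfl | rfl | rfl <;> assumption
  · rcases hv with rfl | rfl | rfl | rfl <;> assumption
  · rcases hv with rfl | rfl | rfl <;> assumption
  · rcases hv with rfl | rfl | rfl | rfl <;> assumption
  · rcases hv with rfl | rfl | rfl | rfl <;> assumption
  · rcases hv with rfl | rfl | rfl <;> assumption
  · rcases hv with rfl | rfl | rfl | rfl | rfl | rfl <;> assumption

theorem isV_rail {r c : ℕ} (hr : r < N) (hc : c < M) : ∀ f ∈ railFaces N B r c, ∀ v ∈ f,
    IsV N M B v := by
  intro f h v hv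
  unfold railFaces at h
  rw [List.mem_append, List.mem_append] at h
  rcases h with (h | h) | h
  · exact mem_tile (P := IsV N M B) (.u r c hr hc.le) (.y _ _ (by omega) hc) (.x r c hr hc)
      (.y _ _ (by omega) hc) (fun j hj => by rw [Nat.zero_add]; exact .tA r c j hr hc hj) f h v hv
  · exact mem_tile (P := IsV N M B) (.x r c hr hc) (.c _ _ (by omega) hc) (.q r c hr hc)
      (.d _ _ (by omega) hc) (fun j hj => .tB r c j hr hc hj) f h v hv
  · cases hB : B r c with
    | true =>
      rw [hB] at h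
      exact mem_tile (P := IsV N M B) (.q r c hr hc) (.p _ _ (by omega) hc)
        (.u r (c + 1) hr hc) (.p _ _ (by omega) hc) (fun j hj => .tW r c j hr hc hj hB) f h v hv
    | false =>
      rw [hB] at h
      have h' : f = [qq r c, pp N (r + 1) (c + 1), uu r (c + 1), pp N r (c + 1)] :=
        List.mem_singleton.mp h
      subst h'
      simp only [List.mem_cons, List.not_mem_nil, or_false] at hv
      rcases hv with rfl | rfl | rfl | rfl
      · exact .q r c hr hc
      · exact .p _ _ (by omega) hc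
      · exact .u r (c + 1) hr hc
      · exact .p _ _ (by omega) hc

theorem isV_pp {b j : ℕ} (hb : b ≤ N) (hj : j ≤ M) : IsV N M B (pp N b j) := by
  cases j with
  | zero => rw [pp_border]; exact .s1
  | succ c => exact .p b c hb hj

theorem isV_band {r c : ℕ} (hr : r + 1 < N) (hc : c < M) : ∀ f ∈ bandFaces N r c, ∀ v ∈ f,
    IsV N M B v := by
  intro f h v hv
  have hy' : IsV N M B (hy N (r + 1) c) := .y _ _ hr.le hc
  have hc' : IsV N M B (Pool.Agent.SLN.hc N (r + 1) c) := .c _ _ hr.le hc
  have hd' : IsV N M B (hd N (r + 1) c) := .d _ _ hr.le hc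
  have hp' : IsV N M B (pp N (r + 1) (c + 1)) := .p _ _ hr.le hc
  have hv' : IsV N M B (vv (r + 1) c) := .v _ _ (by omega) hr hc
  have hw' : IsV N M B (ww (r + 1) c) := .w _ _ (by omega) hr hc
  have hu1 : IsV N M B (uu r c) := .u _ _ (by omega) hc.le
  have hu2 : IsV N M B (uu (r + 1) c) := .u _ _ (by omega) hc.le
  have hx1 : IsV N M B (xx r c) := .x _ _ (by omega) hc
  have hx2 : IsV N M B (xx (r + 1) c) := .x _ _ (by omega) hc
  have hq1 : IsV N M B (qq r c) := .q _ _ (by omega) hc
  have hq2 : IsV N M B (qq (r + 1) c) := .q _ _ (by omega) hc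
  have hp0 : IsV N M B (pp N (r + 1) c) := isV_pp hr.le hc.le
  have hD : ∀ j, j < 9 → IsV N M B (nd (r + 1) c (24 + j)) := fun j hj =>
    .dd (r + 1) c j (by omega) hr hc hj
  have d0 := hD 0 (by decide)
  have d1 := hD 1 (by decide)
  have d2 := hD 2 (by decide)
  have d3 := hD 3 (by decide)
  have d4 := hD 4 (by decide)
  have d5 := hD 5 (by decide)
  have d6 := hD 6 (by decide)
  have d7 := hD 7 (by decide)
  have d8 := hD 8 (by decide)
  unfold bandFaces at h
  rw [List.mem_append, List.mem_append] at h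
  rcases h with (h | h) | h
  · unfold leftFaces at h
    by_cases hcr : c = 0 ∧ r % 2 = 0
    · rw [if_pos hcr] at h
      obtain ⟨rfl, hr2⟩ := hcr
      exact mem_tile (P := IsV N M B) hu1 .s1 hu2 hy' (fun j hj => .tV r j hr2 hr hj) f h v hv
    · rw [if_neg hcr] at h
      simp only [List.mem_cons, List.not_mem_nil, or_false] at h
      rcases h with rfl | rfl <;> simp only [List.mem_cons, List.not_mem_nil, or_false] at hv <;>
        rcases hv with rfl | rfl | rfl <;> assumption
  · simp only [midFaces, List.mem_cons, List.not_mem_nil, or_false] at h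
    rcases h with rfl | rfl | rfl | rfl | rfl | rfl <;>
      simp only [List.mem_cons, List.not_mem_nil, or_false] at hv <;>
        rcases hv with rfl | rfl | rfl <;> assumption
  · simp only [deadFaces, prism, centre, List.cons_append, List.nil_append, List.mem_cons,
      List.not_mem_nil, or_false] at h
    rcases h with rfl | rfl | rfl | rfl | rfl | rfl | rfl | rfl | rfl | rfl <;>
      simp only [List.mem_cons, List.not_mem_nil, or_false] at hv
    · rcases hv with rfl | rfl | rfl | rfl <;> assumption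
    · rcases hv with rfl | rfl | rfl | rfl <;> assumption
    · rcases hv with rfl | rfl | rfl <;> assumption
    · rcases hv with rfl | rfl | rfl | rfl <;> assumption
    · rcases hv with rfl | rfl | rfl | rfl <;> assumption
    · rcases hv with rfl | rfl | rfl <;> assumption
    · rcases hv with rfl | rfl | rfl | rfl <;> assumption
    · rcases hv with rfl | rfl | rfl | rfl <;> assumption
    · rcases hv with rfl | rfl | rfl <;> assumption
    · rcases hv with rfl | rfl | rfl | rfl | rfl | rfl | rfl | rfl | rfl <;> assumption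

theorem isV_right {r : ℕ} (hr : r < N) : ∀ f ∈ rightFaces N M r, ∀ v ∈ f, IsV N M B v := by
  intro f h v hv
  have hu : IsV N M B (uu r M) := .u _ _ hr le_rfl
  have hp1 : IsV N M B (pp N (r + 1) M) := isV_pp hr le_rfl
  have hp2 : IsV N M B (pp N r M) := isV_pp hr.le le_rfl
  have hs : IsV N M B Pool.Agent.SLN.s3 := .s3
  simp only [rightFaces, List.mem_cons, List.not_mem_nil, or_false] at h
  rcases h with rfl | rfl <;> simp only [List.mem_cons, List.not_mem_nil, or_false] at hv <;>
    rcases hv with rfl | rfl | rfl <;> assumption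

theorem isV_face (hN : 2 ≤ N) : ∀ f ∈ gridFaces N M B, ∀ v ∈ f, IsV N M B v := by
  intro f hf v hv
  rcases mem_gridFaces.mp hf with rfl | ⟨c, hc, r, hr, h⟩ | ⟨c, hc, r, hr, h⟩ | ⟨r, hr, h⟩
  · simp only [List.mem_cons, List.not_mem_nil, or_false] at hv
    rcases hv with rfl | rfl | rfl
    · exact .s1
    · exact .s2
    · exact .u _ _ (by omega) (Nat.zero_le _)
  · exact isV_rail hr hc f h v hv
  · exact isV_band hr hc f h v hv
  · exact isV_right hr f h v hv

/-- every vertex with a dart is one of the listed vertices -/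
theorem isV_of_dart (hN : 2 ≤ N) {v w : VX} (h : (v, w) ∈ (grid N M B).darts) :
    IsV N M B v := by
  rcases mem_gridDarts.mp h with h | ⟨f, hf, h⟩
  · have h1 : dartsOf [Pool.Agent.SLN.s1, Pool.Agent.SLN.s3, Pool.Agent.SLN.s2] =
      [(Pool.Agent.SLN.s1, Pool.Agent.SLN.s3), (Pool.Agent.SLN.s3, Pool.Agent.SLN.s2),
        (Pool.Agent.SLN.s2, Pool.Agent.SLN.s1)] := rfl
    rw [h1] at h
    simp only [List.mem_cons, Prod.mk.injEq, List.not_mem_nil, or_false] at h
    rcases h with ⟨rfl, -⟩ | ⟨rfl, -⟩ | ⟨rfl, -⟩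
    · exact .s1
    · exact .s3
    · exact .s2
  · exact isV_face hN f hf v (dart_mem h).1

/-- the flat corner of a vertex exists -/
theorem cor_of_isV {R : ℕ → Bool} (hE : N % 2 = 0) (hM : 1 ≤ M) {v : VX} (hv : IsV N M B v) :
    ∀ e, asg N M B R v = some e → Cor N M B v e := by
  -- tiles
  have tA : ∀ {r c : ℕ}, r < N → c < M → ∀ f ∈ tileA N r c, ∀ v e,
      (e.1, v, e.2) ∈ cornersOf f → Cor N M B v e :=
    fun hr hc f hf v e h => cor_rail hr hc (rail_tiles.1 f hf) h
  have tB : ∀ {r c : ℕ}, r < N → c < M → ∀ f ∈ tileB N r c, ∀ v e,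
      (e.1, v, e.2) ∈ cornersOf f → Cor N M B v e :=
    fun hr hc f hf v e h => cor_rail hr hc (rail_tiles.2.1 f hf) h
  have tW : ∀ {r c : ℕ}, r < N → c < M → B r c = true → ∀ f ∈ tileW N r c, ∀ v e,
      (e.1, v, e.2) ∈ cornersOf f → Cor N M B v e :=
    fun hr hc hB f hf v e h => cor_rail hr hc (rail_tiles.2.2.1 hB f hf) h
  have tV : ∀ {r : ℕ}, r % 2 = 0 → r + 1 < N →
      ∀ f ∈ tile (uu r 0) Pool.Agent.SLN.s1 (uu (r + 1) 0) (hy N (r + 1) 0) r 0 18, ∀ v e,
      (e.1, v, e.2) ∈ cornersOf f → Cor N M B v e :=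
    fun hr hr' f hf v e h => cor_band hr' hM (band_V hr f hf) h
  intro e he
  cases hv with
  | s1 => exact absurd he (ne_none (asg_susp ..).1)
  | s2 => exact absurd he (ne_none (asg_susp ..).2.1)
  | s3 => exact absurd he (ne_none (asg_susp ..).2.2)
  | y b c _ _ => exact absurd he (ne_none (asg_hy ..))
  | c b c _ _ => exact absurd he (ne_none (asg_hc ..))
  | d b c _ _ => exact absurd he (ne_none (asg_hd ..))
  | u r j hr hj =>
    cases hR : R r with
    | true =>
      cases j with
      | zero =>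
        rcases Nat.even_or_odd' r with ⟨k, hk | hk⟩
        · rw [asg_u0e N M B hR (by omega)] at he
          obtain rfl := Option.some.inj he
          exact (tile_cor (tV (r := r) (by omega) (by omega))).2.1
        · obtain ⟨r', rfl⟩ : ∃ r', r = r' + 1 := ⟨r - 1, by omega⟩
          rw [asg_u0o N M B hR (by omega)] at he
          obtain rfl := Option.some.inj he
          exact (tile_cor (tV (r := r') (by omega) (by omega))).2.2
      | succ c =>
        cases hB : B r c with
        | true =>
          rw [asg_uRW N M B c hR hB] at he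
          obtain rfl := Option.some.inj he
          exact (tile_cor (tW hr hj hB)).2.2
        | false =>
          rw [asg_uR N M B c hR hB] at he
          obtain rfl := Option.some.inj he
          exact cor_rail hr hj (rail_tiles.2.2.2 hB _ (List.mem_singleton.mpr rfl))
            (by simp [corners4])
    | false =>
      by_cases hjM : j = M
      · subst hjM
        exact absurd he (ne_none (asg_uM N j B hR))
      · have hjM' : j < M := by omega
        rw [asg_uL N M B j hR hjM'] at he
        obtain rfl := Option.some.inj he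
        exact (tile_cor (tA hr hjM')).2.1
  | x r c hr hc =>
    cases hR : R r with
    | true =>
      rw [asg_xR N M B c hR] at he
      obtain rfl := Option.some.inj he
      exact (tile_cor (tA hr hc)).2.2
    | false =>
      rw [asg_xL N M B c hR] at he
      obtain rfl := Option.some.inj he
      exact (tile_cor (tB hr hc)).2.1
  | q r c hr hc =>
    cases hR : R r with
    | true =>
      rw [asg_qR N M B c hR] at he
      obtain rfl := Option.some.inj he
      exact (tile_cor (tB hr hc)).2.2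
    | false =>
      cases hB : B r c with
      | true =>
        rw [asg_qLW N M B c hR hB] at he
        obtain rfl := Option.some.inj he
        exact (tile_cor (tW hr hc hB)).2.1
      | false =>
        rw [asg_qL N M B c hR hB] at he
        obtain rfl := Option.some.inj he
        exact cor_rail hr hc (rail_tiles.2.2.2 hB _ (List.mem_singleton.mpr rfl))
          (by simp [corners4])
  | p b c hb hc =>
    by_cases h0 : b = 0
    · subst h0
      rw [pp_zero] at he
      exact absurd he (ne_none (asg_susp ..).1)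
    · by_cases h1 : b = N
      · subst h1
        have h2 : pp b b (c + 1) = Pool.Agent.SLN.s2 := by
          unfold pp
          rw [if_neg (by omega), if_pos rfl]
        rw [h2] at he
        exact absurd he (ne_none (asg_susp ..).2.1)
      · obtain ⟨r, rfl⟩ : ∃ r, b = r + 1 := ⟨b - 1, by omega⟩
        have hr : r + 1 < N := by omega
        rw [pp_of (by omega) hr, asg_p] at he
        obtain rfl := Option.some.inj he
        refine cor_band hr hc (dead_mem (f := centre N (r + 1) c) (by simp [deadFaces])) ?_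
        simp [centre, corners9, pp_of (Nat.succ_pos r) hr]
  | v b c h1 h2 hc =>
    obtain ⟨r, rfl⟩ : ∃ r, b = r + 1 := ⟨b - 1, by omega⟩
    rw [asg_v] at he
    obtain rfl := Option.some.inj he
    refine cor_band h2 hc (dead_mem (f := centre N (r + 1) c) (by simp [deadFaces])) ?_
    simp [centre, corners9]
  | w b c h1 h2 hc =>
    obtain ⟨r, rfl⟩ : ∃ r, b = r + 1 := ⟨b - 1, by omega⟩
    rw [asg_w] at he
    obtain rfl := Option.some.inj he
    refine cor_band h2 hc (dead_mem (f := centre N (r + 1) c) (by simp [deadFaces])) ?_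
    simp [centre, corners9]
  | tA r c j hr hc hj =>
    rw [asg_A N M B R r c j hj] at he
    have := (tile_cor (tA hr hc)).1 j hj e he
    rwa [Nat.zero_add] at this
  | tB r c j hr hc hj =>
    rw [asg_B N M B R r c j hj] at he
    exact (tile_cor (tB hr hc)).1 j hj e he
  | tW r c j hr hc hj hB =>
    rw [asg_W N M B R r c j hj] at he
    exact (tile_cor (tW hr hc hB)).1 j hj e he
  | tV r j hr hr' hj =>
    rw [asg_V N M B R r j hj] at he
    exact (tile_cor (tV hr hr')).1 j hj e he
  | dd b c j h1 h2 hc hj =>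
    obtain ⟨r, rfl⟩ : ∃ r, b = r + 1 := ⟨b - 1, by omega⟩
    rw [asg_D N M B R (r + 1) c j hj] at he
    have hcen : centre N (r + 1) c ∈ deadFaces N (r + 1) c := by simp [deadFaces]
    have h : j = 0 ∨ j = 1 ∨ j = 2 ∨ j = 3 ∨ j = 4 ∨ j = 5 ∨ j = 6 ∨ j = 7 ∨ j = 8 := by omega
    rcases h with rfl | rfl | rfl | rfl | rfl | rfl | rfl | rfl | rfl <;>
      simp only [deadAsg, Option.some.injEq] at he <;> subst he
    · exact cor_band h2 hc (dead_mem (f := [pp N (r + 1) (c + 1), Pool.Agent.SLN.hc N (r + 1) c,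
        nd (r + 1) c 24, nd (r + 1) c 25]) (by simp [deadFaces, prism])) (by simp [corners4])
    · exact cor_band h2 hc (dead_mem hcen) (by simp [centre, corners9])
    · exact cor_band h2 hc (dead_mem (f := [nd (r + 1) c 24, Pool.Agent.SLN.hc N (r + 1) c,
        vv (r + 1) c, nd (r + 1) c 26]) (by simp [deadFaces, prism])) (by simp [corners4])
    · exact cor_band h2 hc (dead_mem (f := [nd (r + 1) c 27, hy N (r + 1) c,
        ww (r + 1) c, nd (r + 1) c 29]) (by simp [deadFaces, prism])) (by simp [corners4])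
    · exact cor_band h2 hc (dead_mem (f := [vv (r + 1) c, hy N (r + 1) c,
        nd (r + 1) c 27, nd (r + 1) c 28]) (by simp [deadFaces, prism])) (by simp [corners4])
    · exact cor_band h2 hc (dead_mem hcen) (by simp [centre, corners9])
    · exact cor_band h2 hc (dead_mem (f := [ww (r + 1) c, hd N (r + 1) c,
        nd (r + 1) c 30, nd (r + 1) c 31]) (by simp [deadFaces, prism])) (by simp [corners4])
    · exact cor_band h2 hc (dead_mem hcen) (by simp [centre, corners9])
    · exact cor_band h2 hc (dead_mem (f := [nd (r + 1) c 30, hd N (r + 1) c,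
        pp N (r + 1) (c + 1), nd (r + 1) c 32]) (by simp [deadFaces, prism])) (by simp [corners4])

end isv

/-- F-FLATS -/
theorem tFlats (hW : TWalk) : TFlats := by
  intro N M B R hN hE hM hP
  refine ⟨?_, asg_susp N M B R, all_three hW hN hM hP⟩
  rintro v e ⟨w, hw⟩ he
  exact cor_of_isV hE hM (isV_of_dart hN hw) e he

end Pool.Agent.SLN
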