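import Pool.Agent.SLN.Lib

set_option autoImplicit false

/-!
# Hubs are not in closed sets
-/

namespace Pool.Agent.SLN

namespace Hb

variable {N M : ℕ} {B : ℕ → ℕ → Bool} {R : ℕ → Bool} {S : VX → VX → Prop}

/-- the suspensions -/
def T3 : Set VX := {z | z = s1 ∨ z = s2 ∨ z = s3}

/-- left lane, above band `b` -/
def Z1 (R : ℕ → Bool) (b c : ℕ) : Set VX :=
  {z | z = s1 ∨ (3 ≤ z.2.2 ∧ z.2.1 = c ∧ LeftLane R z ∧ z.1 < b)}

/-- left lane, below band `b` -/
def Z2 (R : ℕ → Bool) (b c : ℕ) : Set VX :=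
  {z | z = s2 ∨ (3 ≤ z.2.2 ∧ z.2.1 = c ∧ LeftLane R z ∧ b ≤ z.1)}

theorem col_of {z : VX} (h : z.2.2 ≠ 9) : col z = z.2.1 := by
  unfold col
  rw [if_neg h]

theorem lane_kind {R : ℕ → Bool} {z : VX} (h : LeftLane R z) : z.2.2 ≠ 9 := by
  unfold LeftLane at h
  omega

theorem disj12 (R : ℕ → Bool) (b c : ℕ) : Disjoint (Z1 R b c) (Z2 R b c) := by
  rw [Set.disjoint_left]
  rintro z (h | ⟨h3, _, _, h⟩) (h' | ⟨h3', _, _, h'⟩)
  · rw [h] at h'
    exact absurd h' (by decide)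
  · rw [h] at h3'
    exact absurd h3' (by decide)
  · rw [h'] at h3
    exact absurd h3 (by decide)
  · omega

theorem disj13 (R : ℕ → Bool) (b c : ℕ) : Disjoint (Z1 R b c) (ZR R c) := by
  rw [Set.disjoint_left]
  rintro z (h | ⟨h3, hc', hl, h⟩) (h' | ⟨h3', h'⟩)
  · rw [h] at h'
    exact absurd h' (by decide)
  · rw [h] at h3'
    exact absurd h3' (by decide)
  · rw [h'] at h3
    exact absurd h3 (by decide)
  · rw [col_of (lane_kind hl)] at h'
    rcases h' with h' | ⟨_, h'⟩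
    · omega
    · exact h' hl

theorem disj23 (R : ℕ → Bool) (b c : ℕ) : Disjoint (Z2 R b c) (ZR R c) := by
  rw [Set.disjoint_left]
  rintro z (h | ⟨h3, hc', hl, h⟩) (h' | ⟨h3', h'⟩)
  · rw [h] at h'
    exact absurd h' (by decide)
  · rw [h] at h3'
    exact absurd h3' (by decide)
  · rw [h'] at h3
    exact absurd h3 (by decide)
  · rw [col_of (lane_kind hl)] at h'
    rcases h' with h' | ⟨_, h'⟩
    · omega
    · exact h' hl

/-! ### Membership -/

theorem lane_uu (R : ℕ → Bool) (r c : ℕ) : LeftLane R (uu r c) := Or.inl rfl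

theorem lane_xx {R : ℕ → Bool} {r : ℕ} (c : ℕ) (h : R r = true) : LeftLane R (xx r c) :=
  Or.inr (Or.inr (Or.inl ⟨rfl, h⟩))

theorem lane_nd (R : ℕ → Bool) (r c : ℕ) {i : ℕ} (h : i < 6) : LeftLane R (nd r c i) := by
  refine Or.inr (Or.inr (Or.inr ⟨?_, ?_⟩))
  · show 12 ≤ 12 + i
    omega
  · show 12 + i < 18
    omega

theorem lane_y (R : ℕ → Bool) (b c : ℕ) : LeftLane R ((b, c, 6) : VX) := Or.inr (Or.inl rfl)

theorem m1 {b r c k : ℕ} (hk : 3 ≤ k) (hl : LeftLane R (r, c, k)) (h : r < b) :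
    ((r, c, k) : VX) ∈ Z1 R b c := Or.inr ⟨hk, rfl, hl, h⟩

theorem m2 {b r c k : ℕ} (hk : 3 ≤ k) (hl : LeftLane R (r, c, k)) (h : b ≤ r) :
    ((r, c, k) : VX) ∈ Z2 R b c := Or.inr ⟨hk, rfl, hl, h⟩

/-- the first vertex of the way across the left lane of rail `r` -/
def start (R : ℕ → Bool) (r c : ℕ) : VX := if R r = true then xx r c else uu r c

/-- from rail `r` up to `s1` -/
theorem up1 (A : Arcs N M B R S) {b c : ℕ} (hc' : c < M) :
    ∀ r, r < b → r < N → Esc S (Z1 R b c) T3 (start R r c) := by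
  intro r
  induction r with
  | zero =>
    intro h1 h2
    have t := A.tA 0 c h2 hc'
    have e0 : Esc S (Z1 R b c) T3 (hy N 0 c) := Esc.done _ (Or.inl rfl) (Or.inl rfl)
    have e5 : Esc S (Z1 R b c) T3 (nd 0 c 5) :=
      Esc.step _ _ (m1 (by omega) (lane_nd R 0 c (by omega)) h1) t.a6 e0
    have e4 : Esc S (Z1 R b c) T3 (nd 0 c 4) :=
      Esc.step _ _ (m1 (by omega) (lane_nd R 0 c (by omega)) h1) t.a11 e5
    unfold start
    by_cases hR : R 0 = true
    · rw [if_pos hR]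
      have e3 : Esc S (Z1 R b c) T3 (nd 0 c 3) :=
        Esc.step _ _ (m1 (by omega) (lane_nd R 0 c (by omega)) h1) t.a9 e4
      exact Esc.step _ _ (m1 (by omega) (lane_xx c hR) h1) (A.xR 0 c h2 hc' hR).2 e3
    · rw [if_neg hR]
      have hR' : R 0 = false := by simpa using hR
      exact Esc.step _ _ (m1 (by omega) (lane_uu R 0 c) h1) (A.uL 0 c h2 hc' hR').1 e4
  | succ r ih =>
    intro h1 h2
    have t := A.tA (r + 1) c h2 hc'
    have i1 := ih (by omega) (by omega)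
    have ay := A.y (r + 1) c (by omega) h2 hc'
    rw [Nat.add_sub_cancel] at ay
    have e0 : Esc S (Z1 R b c) T3 (hy N (r + 1) c) := by
      have hm : hy N (r + 1) c ∈ Z1 R b c := by
        rw [hy_of (by omega) h2]
        exact m1 (by omega) (lane_y R _ _) h1
      unfold start at i1
      by_cases hR : R r = true
      · rw [if_pos hR] at i1
        exact Esc.step _ _ hm ay.2.2.1 i1
      · rw [if_neg hR] at i1
        exact Esc.step _ _ hm ay.1 i1
    have e5 : Esc S (Z1 R b c) T3 (nd (r + 1) c 5) :=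
      Esc.step _ _ (m1 (by omega) (lane_nd R _ c (by omega)) h1) t.a6 e0
    have e4 : Esc S (Z1 R b c) T3 (nd (r + 1) c 4) :=
      Esc.step _ _ (m1 (by omega) (lane_nd R _ c (by omega)) h1) t.a11 e5
    unfold start
    by_cases hR : R (r + 1) = true
    · rw [if_pos hR]
      have e3 : Esc S (Z1 R b c) T3 (nd (r + 1) c 3) :=
        Esc.step _ _ (m1 (by omega) (lane_nd R _ c (by omega)) h1) t.a9 e4
      exact Esc.step _ _ (m1 (by omega) (lane_xx c hR) h1) (A.xR (r + 1) c h2 hc' hR).2 e3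
    · rw [if_neg hR]
      have hR' : R (r + 1) = false := by simpa using hR
      exact Esc.step _ _ (m1 (by omega) (lane_uu R _ c) h1) (A.uL (r + 1) c h2 hc' hR').1 e4

/-- from rail `r` down to `s2` -/
theorem down1 (A : Arcs N M B R S) (hN : 2 ≤ N) {b c : ℕ} (hc' : c < M) :
    ∀ n r, N - r = n → b ≤ r → r < N → Esc S (Z2 R b c) T3 (start R r c) := by
  intro n
  induction n with
  | zero =>
    intro r h0 h1 h2
    omega
  | succ n ih =>
    intro r h0 h1 h2
    have t := A.tA r c h2 hc'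
    have e : Esc S (Z2 R b c) T3 (hy N (r + 1) c) := by
      by_cases h3 : r + 1 < N
      · have ay := A.y (r + 1) c (by omega) h3 hc'
        have i1 := ih (r + 1) (by omega) (by omega) h3
        have hm : hy N (r + 1) c ∈ Z2 R b c := by
          rw [hy_of (by omega) h3]
          exact m2 (by omega) (lane_y R _ _) (by omega)
        unfold start at i1
        by_cases hR : R (r + 1) = true
        · rw [if_pos hR] at i1
          exact Esc.step _ _ hm ay.2.2.2.1 i1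
        · rw [if_neg hR] at i1
          exact Esc.step _ _ hm ay.2.1 i1
      · have : r + 1 = N := by omega
        rw [this, hy_last c hN]
        exact Esc.done _ (Or.inl rfl) (Or.inr (Or.inl rfl))
    have e0 : Esc S (Z2 R b c) T3 (nd r c 0) :=
      Esc.step _ _ (m2 (by omega) (lane_nd R _ c (by omega)) h1) t.a0 e
    have e2 : Esc S (Z2 R b c) T3 (nd r c 2) :=
      Esc.step _ _ (m2 (by omega) (lane_nd R _ c (by omega)) h1) t.a5 e0
    unfold start
    by_cases hR : R r = true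
    · rw [if_pos hR]
      exact Esc.step _ _ (m2 (by omega) (lane_xx c hR) h1) (A.xR r c h2 hc' hR).1 e2
    · rw [if_neg hR]
      have hR' : R r = false := by simpa using hR
      have e1 : Esc S (Z2 R b c) T3 (nd r c 1) :=
        Esc.step _ _ (m2 (by omega) (lane_nd R _ c (by omega)) h1) t.a3 e2
      exact Esc.step _ _ (m2 (by omega) (lane_uu R _ c) h1) (A.uL r c h2 hc' hR').2 e1

/-- suspensions are not in closed sets, except as exits -/
theorem susp_exit {X : Set VX} {e₁ e₂ : VX} (hX : Closed (grid N M B) S X e₁ e₂) :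
    ∀ v ∈ T3, v ∈ X → v = e₁ ∨ v = e₂ := by
  intro v hv hvX
  by_contra hcon
  rw [not_or] at hcon
  obtain ⟨h1, h2, h3⟩ := hX.susp v hvX hcon.1 hcon.2
  rcases hv with h | h | h
  · exact h1 h
  · exact h2 h
  · exact h3 h

/-- the left hubs -/
theorem hub_y (A : Arcs N M B R S) (hN : 2 ≤ N) (hE : RightEsc N M R S) {X : Set VX} {e₁ e₂ : VX}
    (hX : Closed (grid N M B) S X e₁ e₂) {b c : ℕ} (h1 : 1 ≤ b) (h2 : b < N) (hc' : c < M)
    (hh : hy N b c ∈ X) : hy N b c = e₁ ∨ hy N b c = e₂ := by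
  by_contra hcon
  rw [not_or] at hcon
  have hs := hX.step _ hh hcon.1 hcon.2
  have ay := A.y b c h1 h2 hc'
  have v1 : start R (b - 1) c ∈ X := by
    unfold start
    by_cases hR : R (b - 1) = true
    · rw [if_pos hR]; exact hs _ ay.2.2.1
    · rw [if_neg hR]; exact hs _ ay.1
  have v2 : start R b c ∈ X := by
    unfold start
    by_cases hR : R b = true
    · rw [if_pos hR]; exact hs _ ay.2.2.2.1
    · rw [if_neg hR]; exact hs _ ay.2.1
  have v3 : hc N b c ∈ X := hs _ ay.2.2.2.2.1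
  refine three_escapes hX (susp_exit hX) (disj12 R b c) (disj13 R b c) (disj23 R b c) v1 v2 v3
    (up1 A hc' (b - 1) (by omega) (by omega)) (down1 A hN hc' _ b rfl (le_refl _) h2) ?_
  refine Esc.mono (fun _ _ h => h) (le_refl _) ?_ (hE b c h1 h2 hc').1
  intro z hz
  exact Or.inr (Or.inr hz)

/-! ### The right hubs -/

/-- targets for the right hubs -/
def TH (N M : ℕ) : Set VX :=
  {z | z ∈ T3 ∨ ∃ b c, 1 ≤ b ∧ b < N ∧ c < M ∧ z = hy N b c}

/-- above band `b` -/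
def UpSet (b c : ℕ) : Set VX := {z | z = s1 ∨ (z.1 = b - 1 ∧ z.2.1 = c ∧ 3 ≤ z.2.2)}

/-- below band `b` -/
def DownSet (b c : ℕ) : Set VX :=
  {z | z = s2 ∨ (z.2.1 = c ∧ z.1 = b ∧ (z.2.2 = 4 ∨ (12 ≤ z.2.2 ∧ z.2.2 < 36))) ∨
    (z.1 = b + 1 ∧ 3 ≤ z.2.2)}

/-- inside band `b` -/
def MidSet (b : ℕ) : Set VX :=
  {z | z.1 = b ∧ (z.2.2 = 9 ∨ z.2.2 = 7 ∨ z.2.2 = 8 ∨ 36 ≤ z.2.2)}

theorem up2 (A : Arcs N M B R S) {b c : ℕ} (h1 : 1 ≤ b) (h2 : b < N) (hc' : c < M) :
    Esc S (UpSet b c) (TH N M) (xx (b - 1) c) := by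
  have hr : b - 1 < N := by omega
  have m : ∀ k, 3 ≤ k → ((b - 1, c, k) : VX) ∈ UpSet b c := fun k hk => Or.inr ⟨rfl, rfl, hk⟩
  have ey : Esc S (UpSet b c) (TH N M) (hy N (b - 1) c) := by
    by_cases h0 : b - 1 = 0
    · rw [h0]
      exact Esc.done _ (Or.inl rfl) (Or.inl (Or.inl rfl))
    · refine Esc.done _ ?_ (Or.inr ⟨b - 1, c, by omega, hr, hc', rfl⟩)
      rw [hy_of (by omega) hr]
      exact m 6 (by omega)
  cases hR : R (b - 1) with
  | true =>
    have t := A.tA (b - 1) c hr hc'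
    exact Esc.step _ _ (m 4 (by omega)) (A.xR _ c hr hc' hR).2
      (Esc.step _ _ (m 15 (by omega)) t.a9 (Esc.step _ _ (m 16 (by omega)) t.a11
        (Esc.step _ _ (m 17 (by omega)) t.a6 ey)))
  | false =>
    have t := A.tB (b - 1) c hr hc'
    have ed : Esc S (UpSet b c) (TH N M) (hd N (b - 1) c) := by
      by_cases h0 : b - 1 = 0
      · rw [h0]
        exact Esc.done _ (Or.inl rfl) (Or.inl (Or.inl rfl))
      · refine Esc.step _ _ ?_ (A.d (b - 1) c (by omega) hr hc').1 ey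
        rw [hd_of (by omega) hr]
        exact m 8 (by omega)
    exact Esc.step _ _ (m 4 (by omega)) (A.xL _ c hr hc' hR).1
      (Esc.step _ _ (m 22 (by omega)) t.a11 (Esc.step _ _ (m 23 (by omega)) t.a6 ed))

theorem down2 (A : Arcs N M B R S) (hN : 2 ≤ N) {b c : ℕ} (h2 : b < N) (hc' : c < M) :
    Esc S (DownSet b c) (TH N M) (xx b c) := by
  have m4 : xx b c ∈ DownSet b c := Or.inr (Or.inl ⟨rfl, rfl, Or.inl rfl⟩)
  have m : ∀ i, i < 24 → nd b c i ∈ DownSet b c := fun i hi => Or.inr (Or.inl ⟨rfl, rfl, Or.inr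
    ⟨by show 12 ≤ 12 + i; omega, by show 12 + i < 36; omega⟩⟩)
  have m' : ∀ k, 3 ≤ k → ((b + 1, c, k) : VX) ∈ DownSet b c := fun k hk =>
    Or.inr (Or.inr ⟨rfl, hk⟩)
  have ey : Esc S (DownSet b c) (TH N M) (hy N (b + 1) c) := by
    by_cases h0 : b + 1 < N
    · refine Esc.done _ ?_ (Or.inr ⟨b + 1, c, by omega, h0, hc', rfl⟩)
      rw [hy_of (by omega) h0]
      exact m' 6 (by omega)
    · have : b + 1 = N := by omega
      rw [this, hy_last c hN]
      exact Esc.done _ (Or.inl rfl) (Or.inl (Or.inr (Or.inl rfl)))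
  cases hR : R b with
  | true =>
    have t := A.tA b c h2 hc'
    exact Esc.step _ _ m4 (A.xR _ c h2 hc' hR).1
      (Esc.step _ _ (m 2 (by omega)) t.a5 (Esc.step _ _ (m 0 (by omega)) t.a0 ey))
  | false =>
    have t := A.tB b c h2 hc'
    have ec : Esc S (DownSet b c) (TH N M) (hc N (b + 1) c) := by
      by_cases h0 : b + 1 < N
      · refine Esc.step _ _ ?_ (A.c (b + 1) c (by omega) h0 hc').1 ey
        rw [hc_of (by omega) h0]
        exact m' 7 (by omega)
      · have : b + 1 = N := by omega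
        rw [this, hc_last c hN]
        exact Esc.done _ (Or.inl rfl) (Or.inl (Or.inr (Or.inl rfl)))
    exact Esc.step _ _ m4 (A.xL _ c h2 hc' hR).2
      (Esc.step _ _ (m 7 (by omega)) t.a3 (Esc.step _ _ (m 8 (by omega)) t.a5
        (Esc.step _ _ (m 6 (by omega)) t.a0 ec)))

theorem mid_d (A : Arcs N M B R S) {b c : ℕ} (h1 : 1 ≤ b) (h2 : b < N) (hc' : c < M) {Z : Set VX}
    (hZ : MidSet b ⊆ Z) (h : Esc S Z (TH N M) (xx b c)) : Esc S Z (TH N M) (pp N b (c + 1)) := by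
  have mp : pp N b (c + 1) ∈ Z := by
    rw [pp_of h1 h2]
    exact hZ ⟨rfl, Or.inl rfl⟩
  have m : ∀ i, 24 ≤ i → nd b c i ∈ Z := fun i hi =>
    hZ ⟨rfl, Or.inr (Or.inr (Or.inr (by show 36 ≤ 12 + i; omega)))⟩
  have md : hd N b c ∈ Z := by
    rw [hd_of h1 h2]
    exact hZ ⟨rfl, Or.inr (Or.inr (Or.inl rfl))⟩
  exact Esc.step _ _ mp (A.p b c h1 h2 hc').1 (Esc.step _ _ (m _ (by omega))
    (A.d32 b c h1 h2 hc').2 (Esc.step _ _ (m _ (by omega)) (A.d30 b c h1 h2 hc').1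
      (Esc.step _ _ md (A.d b c h1 h2 hc').2.1 h)))

theorem mid_c (A : Arcs N M B R S) {b c : ℕ} (h1 : 1 ≤ b) (h2 : b < N) (hc' : c < M) {Z : Set VX}
    (hZ : MidSet b ⊆ Z) (h : Esc S Z (TH N M) (xx (b - 1) c)) :
    Esc S Z (TH N M) (pp N b (c + 1)) := by
  have mp : pp N b (c + 1) ∈ Z := by
    rw [pp_of h1 h2]
    exact hZ ⟨rfl, Or.inl rfl⟩
  have m : ∀ i, 24 ≤ i → nd b c i ∈ Z := fun i hi =>
    hZ ⟨rfl, Or.inr (Or.inr (Or.inr (by show 36 ≤ 12 + i; omega)))⟩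
  have md : hc N b c ∈ Z := by
    rw [hc_of h1 h2]
    exact hZ ⟨rfl, Or.inr (Or.inl rfl)⟩
  exact Esc.step _ _ mp (A.p b c h1 h2 hc').2 (Esc.step _ _ (m _ (by omega))
    (A.d25 b c h1 h2 hc').2 (Esc.step _ _ (m _ (by omega)) (A.d26 b c h1 h2 hc').2
      (Esc.step _ _ (m _ (by omega)) (A.d24 b c h1 h2 hc').1
        (Esc.step _ _ md (A.c b c h1 h2 hc').2.1 h))))

theorem s1_def : s1 = ((0, 0, 0) : VX) := rfl
theorem s2_def : s2 = ((0, 0, 1) : VX) := rfl

theorem disjUD (b c : ℕ) (h1 : 1 ≤ b) : Disjoint (UpSet b c) (DownSet b c) := by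
  rw [Set.disjoint_left]
  rintro ⟨x, y, k⟩ h h'
  simp only [UpSet, DownSet, Set.mem_ofPred_eq, s1_def, s2_def, Prod.mk.injEq] at h h'
  omega

theorem disjUM (b c : ℕ) (h1 : 1 ≤ b) : Disjoint (UpSet b c) (MidSet b) := by
  rw [Set.disjoint_left]
  rintro ⟨x, y, k⟩ h h'
  simp only [UpSet, MidSet, Set.mem_ofPred_eq, s1_def, Prod.mk.injEq] at h h'
  omega

theorem disjDM (b c : ℕ) : Disjoint (DownSet b c) (MidSet b) := by
  rw [Set.disjoint_left]
  rintro ⟨x, y, k⟩ h h'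
  simp only [DownSet, MidSet, Set.mem_ofPred_eq, s2_def, Prod.mk.injEq] at h h'
  omega

theorem y_notU (b c : ℕ) (h1 : 1 ≤ b) : Disjoint ({(b, c, 6)} : Set VX) (UpSet b c) := by
  rw [Set.disjoint_left]
  rintro ⟨x, y, k⟩ h h'
  simp only [UpSet, Set.mem_ofPred_eq, Set.mem_singleton_iff, s1_def, Prod.mk.injEq] at h h'
  omega

theorem y_notD (b c : ℕ) : Disjoint ({(b, c, 6)} : Set VX) (DownSet b c) := by
  rw [Set.disjoint_left]
  rintro ⟨x, y, k⟩ h h'
  simp only [DownSet, Set.mem_ofPred_eq, Set.mem_singleton_iff, s2_def, Prod.mk.injEq] at h h'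
  omega

theorem y_notM (b c : ℕ) : Disjoint ({(b, c, 6)} : Set VX) (MidSet b) := by
  rw [Set.disjoint_left]
  rintro ⟨x, y, k⟩ h h'
  simp only [MidSet, Set.mem_ofPred_eq, Set.mem_singleton_iff, Prod.mk.injEq] at h h'
  omega

end Hb

open Hb in
/-- E-HUBS -/
theorem tHubs : THubs := by
  intro N M B R S hN _ _ _ A hE X e₁ e₂ hX b c h1 h2 hc' h hh hhX
  have hT : ∀ v ∈ TH N M, v ∈ X → v = e₁ ∨ v = e₂ := by
    rintro v (hv | ⟨b', c', hb1, hb2, hc1, rfl⟩) hvX
    · exact susp_exit hX v hv hvX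
    · exact hub_y A hN hE hX hb1 hb2 hc1 hvX
  rcases hh with rfl | rfl | rfl
  · exact hub_y A hN hE hX h1 h2 hc' hhX
  · by_contra hcon
    rw [not_or] at hcon
    have hs := hX.step _ hhX hcon.1 hcon.2
    have ac := A.c b c h1 h2 hc'
    have ey : Esc S {((b, c, 6) : VX)} (TH N M) (hy N b c) := by
      refine Esc.done _ ?_ (Or.inr ⟨b, c, h1, h2, hc', rfl⟩)
      rw [hy_of h1 h2]
      exact rfl
    refine three_escapes hX hT (Z₃ := DownSet b c ∪ MidSet b) (y_notU b c h1) ?_ ?_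
      (hs _ ac.1) (hs _ ac.2.1) (hs _ ac.2.2.2) ey (up2 A h1 h2 hc') ?_
    · rw [Set.disjoint_union_right]
      exact ⟨y_notD b c, y_notM b c⟩
    · rw [Set.disjoint_union_right]
      exact ⟨disjUD b c h1, disjUM b c h1⟩
    · apply mid_d A h1 h2 hc' Set.subset_union_right
      exact Esc.mono (fun _ _ h => h) Set.subset_union_left (le_refl _) (down2 A hN h2 hc')
  · by_contra hcon
    rw [not_or] at hcon
    have hs := hX.step _ hhX hcon.1 hcon.2
    have ad := A.d b c h1 h2 hc'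
    have ey : Esc S {((b, c, 6) : VX)} (TH N M) (hy N b c) := by
      refine Esc.done _ ?_ (Or.inr ⟨b, c, h1, h2, hc', rfl⟩)
      rw [hy_of h1 h2]
      exact rfl
    refine three_escapes hX hT (Z₃ := UpSet b c ∪ MidSet b) (y_notD b c) ?_ ?_
      (hs _ ad.1) (hs _ ad.2.1) (hs _ ad.2.2.2) ey (down2 A hN h2 hc') ?_
    · rw [Set.disjoint_union_right]
      exact ⟨y_notU b c h1, y_notM b c⟩
    · rw [Set.disjoint_union_right]
      exact ⟨(disjUD b c h1).symm, disjDM b c⟩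
    · apply mid_c A h1 h2 hc' Set.subset_union_right
      exact Esc.mono (fun _ _ h => h) Set.subset_union_left (le_refl _) (up2 A h1 h2 hc')

end Pool.Agent.SLN
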