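import Pool.Agent.SLN.FaceTri

set_option autoImplicit false

/-!
# G-HULL: a set of vertices which contains a face has at least three exits
-/

namespace Pool.Agent.SLN

open Pool.Agent.PAH (Plane det3 ccwAngle LiesLeft dartsOf cornersOf openTri closedTri)

namespace HU

/-- scalar product -/
def dp (n x : Plane) : ℝ := n.1 * x.1 + n.2 * x.2

/-- A finite set of points which are not on a line has an exposed point different from two given
points. -/
theorem pick {V : Type} (p : V → Plane) (X : Set V) (hX : X.Finite) (e₁ e₂ : V)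
    (h : ∃ u ∈ X, ∃ v ∈ X, ∃ w ∈ X, det3 (p u) (p v) (p w) ≠ 0) :
    ∃ n : Plane, ∃ v ∈ X, v ≠ e₁ ∧ v ≠ e₂ ∧ ∀ x ∈ X, p x ≠ p v → dp n (p x) < dp n (p v) := by
  -- a functional which separates a point of `X` from `e₁` and `e₂`
  obtain ⟨n, hn0, hn12, x₀, hx₀, hn⟩ : ∃ n : Plane, 0 < dp n n ∧ dp n (p e₁) = dp n (p e₂) ∧
      ∃ x ∈ X, dp n (p e₁) < dp n (p x) := by
    obtain ⟨n, hn0, hn12⟩ : ∃ n : Plane, 0 < dp n n ∧ dp n (p e₁) = dp n (p e₂) := by
      by_cases he : p e₁ = p e₂
      · exact ⟨(1, 0), by simp [dp], by rw [he]⟩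
      · refine ⟨(-((p e₂).2 - (p e₁).2), (p e₂).1 - (p e₁).1), ?_, ?_⟩
        · by_contra hcon
          simp only [dp] at hcon
          apply he
          have h1 : (p e₂).1 - (p e₁).1 = 0 := by
            nlinarith [sq_nonneg ((p e₂).1 - (p e₁).1), sq_nonneg ((p e₂).2 - (p e₁).2)]
          have h2 : (p e₂).2 - (p e₁).2 = 0 := by
            nlinarith [sq_nonneg ((p e₂).1 - (p e₁).1), sq_nonneg ((p e₂).2 - (p e₁).2)]
          apply Prod.ext <;> linarith
        · simp only [dp]; ring
    obtain ⟨x, hx, hne⟩ : ∃ x ∈ X, dp n (p x) ≠ dp n (p e₁) := by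
      by_contra hcon
      push Not at hcon
      obtain ⟨u, hu, v, hv, w, hw, hdet⟩ := h
      apply hdet
      have hu' := hcon u hu
      have hv' := hcon v hv
      have hw' := hcon w hw
      simp only [dp] at hu' hv' hw' hn0
      have k1 : n.1 * ((p v).1 - (p u).1) + n.2 * ((p v).2 - (p u).2) = 0 := by linarith
      have k2 : n.1 * ((p w).1 - (p u).1) + n.2 * ((p w).2 - (p u).2) = 0 := by linarith
      have k3 : n.1 * det3 (p u) (p v) (p w) = 0 := by
        simp only [det3]
        linear_combination ((p w).2 - (p u).2) * k1 - ((p v).2 - (p u).2) * k2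
      have k4 : n.2 * det3 (p u) (p v) (p w) = 0 := by
        simp only [det3]
        linear_combination (-((p w).1 - (p u).1)) * k1 + ((p v).1 - (p u).1) * k2
      have k5 : (n.1 * n.1 + n.2 * n.2) * det3 (p u) (p v) (p w) = 0 := by
        linear_combination n.1 * k3 + n.2 * k4
      exact (mul_eq_zero.1 k5).resolve_left hn0.ne'
    rcases lt_or_gt_of_ne hne with h1 | h1
    · refine ⟨-n, ?_, ?_, x, hx, ?_⟩
      · simp only [dp, Prod.fst_neg, Prod.snd_neg] at *; linarith
      · simp only [dp, Prod.fst_neg, Prod.snd_neg] at *; linarith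
      · simp only [dp, Prod.fst_neg, Prod.snd_neg] at *; linarith
    · exact ⟨n, hn0, hn12, x, hx, h1⟩
  -- lexicographic maximum
  obtain ⟨v₁, hv₁, hmax₁⟩ := Set.exists_max_image X (fun x => dp n (p x)) hX ⟨x₀, hx₀⟩
  set m : Plane := (-n.2, n.1) with hm
  obtain ⟨v, hv, hmax⟩ := Set.exists_max_image {x ∈ X | dp n (p x) = dp n (p v₁)}
    (fun x => dp m (p x)) (hX.subset fun x hx => hx.1) ⟨v₁, hv₁, rfl⟩
  have hlt : dp n (p e₁) < dp n (p v) := by
    rw [hv.2]
    exact lt_of_lt_of_le hn (hmax₁ x₀ hx₀)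
  -- perturbation
  have hev : ∀ᶠ ε : ℝ in nhdsWithin 0 (Set.Ioi 0), ∀ x ∈ X, p x ≠ p v →
      dp (n + ε • m) (p x) < dp (n + ε • m) (p v) := by
    rw [Filter.eventually_all_finite hX]
    intro x hx
    have hsplit : ∀ ε : ℝ, ∀ y : Plane, dp (n + ε • m) y = dp n y + ε * dp m y := by
      intro ε y
      simp only [dp, Prod.fst_add, Prod.snd_add, Prod.smul_fst, Prod.smul_snd, smul_eq_mul]
      ring
    have hle : dp n (p x) ≤ dp n (p v) := by
      rw [hv.2]
      exact hmax₁ x hx
    rcases hle.lt_or_eq with h1 | h1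
    · have hc : Filter.Tendsto (fun ε : ℝ => dp n (p v) + ε * dp m (p v) -
          (dp n (p x) + ε * dp m (p x))) (nhds 0) (nhds (dp n (p v) - dp n (p x))) := by
        have : Continuous (fun ε : ℝ => dp n (p v) + ε * dp m (p v) -
          (dp n (p x) + ε * dp m (p x))) := by fun_prop
        have h2 := this.tendsto 0
        simpa using h2
      have h2 := (hc.eventually (lt_mem_nhds (sub_pos.2 h1))).filter_mono
        (nhdsWithin_le_nhds (s := Set.Ioi (0 : ℝ)))
      filter_upwards [h2] with ε hε _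
      rw [hsplit, hsplit]
      linarith
    · filter_upwards [self_mem_nhdsWithin] with ε hε hne
      rw [hsplit, hsplit, h1]
      have hε' : (0 : ℝ) < ε := hε
      have h2 : dp m (p x) ≤ dp m (p v) := hmax x ⟨hx, h1.trans hv.2⟩
      rcases h2.lt_or_eq with h3 | h3
      · have := mul_pos hε' (sub_pos.2 h3)
        linarith
      · exfalso
        apply hne
        simp only [dp, hm] at h1 h3 hn0
        have k1 : (n.1 * n.1 + n.2 * n.2) * ((p x).1 - (p v).1) = 0 := by
          linear_combination n.1 * h1 - n.2 * h3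
        have k2 : (n.1 * n.1 + n.2 * n.2) * ((p x).2 - (p v).2) = 0 := by
          linear_combination n.2 * h1 + n.1 * h3
        have k3 := (mul_eq_zero.1 k1).resolve_left hn0.ne'
        have k4 := (mul_eq_zero.1 k2).resolve_left hn0.ne'
        apply Prod.ext <;> linarith
  obtain ⟨ε, hε⟩ := hev.exists
  refine ⟨n + ε • m, v, hv.1, ?_, ?_, hε⟩
  · rintro rfl
    exact lt_irrefl _ hlt
  · rintro rfl
    rw [hn12] at hlt
    exact lt_irrefl _ hlt

end HU

open HU FT in
/-- G-HULL -/
theorem tHull : THull := by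
  intro V G S houter hw hFT f hf X e₁ e₂ hX hfX hall
  -- three vertices of `f` are not on a line
  have hncol : ∃ u ∈ X, ∃ v ∈ X, ∃ w ∈ X, det3 (S.pos u) (S.pos v) (S.pos w) ≠ 0 := by
    obtain ⟨i, rfl⟩ := List.get_of_mem hf
    obtain ⟨hc, a, _, _, _, _, _, habc⟩ := hFT i
    have ha := (habc a).2 (Or.inl rfl)
    have h3 := hw _ hf
    have hpos : 0 < (G.inner.get i).length := by omega
    rcases hc a ha.1 with h1 | h1
    · obtain ⟨j, rfl⟩ := (mem_cornersOf hpos).1 ha.1
      have hm : ∀ j, gv (G.inner.get i) hpos j ∈ X := fun j => hfX _ (by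
        unfold gv
        exact List.getElem_mem _)
      exact ⟨_, hm _, _, hm _, _, hm _, h1.ne'⟩
    · exact absurd h1.1 ha.2
  obtain ⟨n, v, hv, hv1, hv2, hmax⟩ := pick S.pos X hX e₁ e₂ hncol
  obtain ⟨hs, ⟨w₀, hw₀⟩, hcase⟩ := hall v hv hv1 hv2
  -- neighbours have different positions
  have hnb : ∀ w, (v, w) ∈ G.darts → S.pos w ≠ S.pos v := by
    intro w hw h
    exact S.loopless _ hw (S.inj (v, w) hw (w, v) (S.symm _ hw) h.symm)
  have hinner : ∀ g ∈ G.inner, ∀ d ∈ dartsOf g, d ∈ G.darts := by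
    intro g hg d hd
    unfold PlaneMap.darts PlaneMap.walks
    exact List.mem_flatMap.2 ⟨_, List.mem_cons_of_mem _ hg, hd⟩
  have hopen : ∀ u w, (v, u) ∈ G.darts → (v, w) ∈ G.darts → u ∈ X → w ∈ X →
      S.pos v ∉ openSegment ℝ (S.pos u) (S.pos w) := by
    intro u w hu hw huX hwX hmem
    have h1 := hmax u huX (hnb u hu)
    have h2 := hmax w hwX (hnb w hw)
    obtain ⟨a, b, ha, hb, hab, he⟩ := hmem
    rw [← he] at h1 h2
    simp only [dp, Prod.fst_add, Prod.snd_add, Prod.smul_fst, Prod.smul_snd, smul_eq_mul] at h1 h2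
    have hb' : b = 1 - a := by linarith
    subst hb'
    nlinarith [mul_pos ha hb]
  rcases hcase with ⟨g, hg, k, hk, hkv, hop, hk1, hk2⟩ | hnX
  · have hpos : 0 < g.length := by have := (hw g hg).2; omega
    obtain ⟨i, rfl⟩ := (mem_cornersOf hpos).1 hk
    have d1 : (gv g hpos i, gv g hpos (i + 1)) ∈ G.darts :=
      hinner g hg _ ((mem_dartsOf hpos).2 ⟨i, rfl⟩)
    have d2 : (gv g hpos (i + 1), gv g hpos (i + 2)) ∈ G.darts :=
      hinner g hg _ ((mem_dartsOf hpos).2 ⟨i + 1, rfl⟩)
    simp only at hkv hop hk1 hk2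
    rw [hkv] at d1 d2 hop
    exact hopen _ _ (S.symm _ d1) d2 hk1 hk2 hop
  · -- each neighbour has a neighbour strictly counterclockwise after it
    have hnext : ∀ z, (v, z) ∈ G.darts → ∃ u, (v, u) ∈ G.darts ∧
        0 < det3 (S.pos u) (S.pos v) (S.pos z) := by
      intro z hz
      have hz' := hz
      unfold PlaneMap.darts PlaneMap.walks at hz'
      rw [List.flatMap_cons, List.mem_append, List.mem_flatMap] at hz'
      rcases hz' with h1 | ⟨g, hg, h1⟩
      · exfalso
        rw [houter] at h1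
        have h2 : (v, z) ∈ [(G.s₁, G.s₃), (G.s₃, G.s₂), (G.s₂, G.s₁)] := h1
        simp only [List.mem_cons, Prod.mk.injEq, List.not_mem_nil, or_false] at h2
        rcases h2 with h2 | h2 | h2
        · exact hs.1 h2.1
        · exact hs.2.2 h2.1
        · exact hs.2.1 h2.1
      · have hpos : 0 < g.length := by have := (hw g hg).2; omega
        obtain ⟨i, hi⟩ := (mem_dartsOf hpos).1 h1
        rw [Prod.mk.injEq] at hi
        have e1 : gv g hpos (i + g.length - 1 + 1) = v := by
          rw [hi.1, ← gv_add g hpos i]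
          congr 1
          omega
        have e2 : gv g hpos (i + g.length - 1 + 2) = z := by
          rw [hi.2, ← gv_add g hpos (i + 1)]
          congr 1
          omega
        have hd : (gv g hpos (i + g.length - 1), gv g hpos (i + g.length - 1 + 1)) ∈ G.darts :=
          hinner g hg _ ((mem_dartsOf hpos).2 ⟨_, rfl⟩)
        have hc : (gv g hpos (i + g.length - 1), gv g hpos (i + g.length - 1 + 1),
            gv g hpos (i + g.length - 1 + 2)) ∈ cornersOf g := (mem_cornersOf hpos).2 ⟨_, rfl⟩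
        rw [e1] at hd hc
        rw [e2] at hc
        refine ⟨_, S.symm _ hd, ?_⟩
        obtain ⟨j, rfl⟩ := List.get_of_mem hg
        rcases (hFT j).1 _ hc with h2 | h2
        · exact h2
        · exact absurd h2.1 (hopen _ _ (S.symm _ hd) hz (hnX _ (S.symm _ hd)) (hnX _ hz))
    -- the neighbour with the largest slope
    set slope : V → ℝ := fun z => dp (-n.2, n.1) (S.pos z - S.pos v) / dp n (S.pos z - S.pos v)
      with hslope
    have hfin : {z | (v, z) ∈ G.darts}.Finite := by
      apply (List.finite_toSet (G.darts.map Prod.snd)).subset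
      intro z hz
      exact List.mem_map.2 ⟨_, hz, rfl⟩
    obtain ⟨z, hz, hzmax⟩ := Set.exists_max_image _ slope hfin ⟨w₀, hw₀⟩
    obtain ⟨u, hu, hdet⟩ := hnext z hz
    have h1 := hzmax u hu
    have hneg : ∀ w, (v, w) ∈ G.darts → dp n (S.pos w - S.pos v) < 0 := by
      intro w hw
      have := hmax w (hnX w hw) (hnb w hw)
      simp only [dp, Prod.fst_sub, Prod.snd_sub] at this ⊢
      linarith
    have hn1 := hneg z hz
    have hn2 := hneg u hu
    simp only [hslope] at h1
    rw [div_le_iff_of_neg hn2, div_mul_eq_mul_div, div_le_iff_of_neg hn1] at h1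
    have hnn : 0 < n.1 ^ 2 + n.2 ^ 2 := by
      by_contra hcon
      have a1 : n.1 = 0 := by nlinarith [sq_nonneg n.1, sq_nonneg n.2]
      have a2 : n.2 = 0 := by nlinarith [sq_nonneg n.1, sq_nonneg n.2]
      simp only [dp, a1, a2] at hn1
      linarith
    have key : (n.1 ^ 2 + n.2 ^ 2) * det3 (S.pos u) (S.pos v) (S.pos z) =
        dp n (S.pos z - S.pos v) * dp (-n.2, n.1) (S.pos u - S.pos v) -
        dp (-n.2, n.1) (S.pos z - S.pos v) * dp n (S.pos u - S.pos v) := by
      simp only [dp, det3, Prod.fst_sub, Prod.snd_sub]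
      ring
    have := mul_pos hnn hdet
    rw [key] at this
    linarith

end Pool.Agent.SLN
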