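import Pool.Agent.SLN.Lib

set_option autoImplicit false

/-!
# N-LOCAL: local consequences of the facts
-/

namespace Pool.Agent.SLN

open Pool.Agent.PAH (Plane det3 ccwAngle LiesLeft dartsOf cornersOf DecisionProblem PolyReduces
  ChainEq FanPos)

namespace LocalG_

section gen
variable {V : Type}

theorem corners3 (a b c : V) : cornersOf [a, b, c] = [(a, b, c), (b, c, a), (c, a, b)] := rfl
theorem corners4 (a b c d : V) :
    cornersOf [a, b, c, d] = [(a, b, c), (b, c, d), (c, d, a), (d, a, b)] := rfl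
theorem corners6 (a b c d e f : V) : cornersOf [a, b, c, d, e, f] =
    [(a, b, c), (b, c, d), (c, d, e), (d, e, f), (e, f, a), (f, a, b)] := rfl
theorem corners9 (a b c d e f g h i : V) : cornersOf [a, b, c, d, e, f, g, h, i] =
    [(a, b, c), (b, c, d), (c, d, e), (d, e, f), (e, f, g), (f, g, h), (g, h, i), (h, i, a),
      (i, a, b)] := rfl
theorem darts3 (a b c : V) : dartsOf [a, b, c] = [(a, b), (b, c), (c, a)] := rfl
theorem darts4 (a b c d : V) : dartsOf [a, b, c, d] = [(a, b), (b, c), (c, d), (d, a)] := rfl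
theorem darts6 (a b c d e f : V) : dartsOf [a, b, c, d, e, f] =
    [(a, b), (b, c), (c, d), (d, e), (e, f), (f, a)] := rfl
theorem darts9 (a b c d e f g h i : V) : dartsOf [a, b, c, d, e, f, g, h, i] =
    [(a, b), (b, c), (c, d), (d, e), (e, f), (f, g), (g, h), (h, i), (i, a)] := rfl

theorem not_four {f : List V} {Q : V × V × V → Prop} (h : ThreeCorners f Q)
    {k₁ k₂ k₃ k₄ : V × V × V} (m₁ : k₁ ∈ cornersOf f) (m₂ : k₂ ∈ cornersOf f)
    (m₃ : k₃ ∈ cornersOf f) (m₄ : k₄ ∈ cornersOf f) (h12 : k₁ ≠ k₂) (h13 : k₁ ≠ k₃)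
    (h14 : k₁ ≠ k₄) (h23 : k₂ ≠ k₃) (h24 : k₂ ≠ k₄) (h34 : k₃ ≠ k₄) :
    Q k₁ ∨ Q k₂ ∨ Q k₃ ∨ Q k₄ := by
  obtain ⟨a, b, c, _, _, _, H⟩ := h
  by_contra hn
  simp only [not_or] at hn
  obtain ⟨n1, n2, n3, n4⟩ := hn
  have e1 := (H k₁).1 ⟨m₁, n1⟩
  have e2 := (H k₂).1 ⟨m₂, n2⟩
  have e3 := (H k₃).1 ⟨m₃, n3⟩
  have e4 := (H k₄).1 ⟨m₄, n4⟩
  rcases e1 with e1 | e1 | e1 <;> rcases e2 with e2 | e2 | e2 <;> rcases e3 with e3 | e3 | e3 <;>
    rcases e4 with e4 | e4 | e4 <;> simp_all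

/-- the darts of inner faces are darts -/
theorem dart_of {G : PlaneMap V} {f : List V} (hf : f ∈ G.inner) {d : V × V}
    (hd : d ∈ dartsOf f) : d ∈ G.darts := by
  unfold PlaneMap.darts PlaneMap.walks
  rw [List.mem_flatMap]
  exact ⟨f, List.mem_cons_of_mem _ hf, hd⟩

/-- the hypotheses on a prism -/
structure Prism (G : PlaneMap V) (s b t n4 n5 n6 : V) : Prop where
  h1 : [s, b, n4, n5] ∈ G.inner
  h2 : [n4, b, t, n6] ∈ G.inner
  h3 : [n5, n4, n6] ∈ G.inner
  g4 : ∀ w, (n4, w) ∈ G.darts → w = b ∨ w = n5 ∨ w = n6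
  g5 : ∀ w, (n5, w) ∈ G.darts → w = s ∨ w = n4 ∨ w = n6
  g6 : ∀ w, (n6, w) ∈ G.darts → w = t ∨ w = n4 ∨ w = n5
  u4 : n4 ≠ G.s₁ ∧ n4 ≠ G.s₂ ∧ n4 ≠ G.s₃
  u5 : n5 ≠ G.s₁ ∧ n5 ≠ G.s₂ ∧ n5 ≠ G.s₃
  u6 : n6 ≠ G.s₁ ∧ n6 ≠ G.s₂ ∧ n6 ≠ G.s₃
  sb : s ≠ b
  bt : b ≠ t
  s4 : s ≠ n4
  s5 : s ≠ n5
  b4 : b ≠ n4
  b5 : b ≠ n5
  b6 : b ≠ n6
  t4 : t ≠ n4
  t5 : t ≠ n5
  t6 : t ≠ n6
  n45 : n4 ≠ n5
  n46 : n4 ≠ n6
  n56 : n5 ≠ n6

/-- PRISM LEMMA -/
theorem prism_lemma {G : PlaneMap V} {Fl : V × V × V → Prop} (hF : Facts G Fl)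
    {s b t n4 n5 n6 : V} (P : Prism G s b t n4 n5 n6) {f : List V} (hf : f ∈ G.inner)
    (c1 : (s, n5, n6) ∈ cornersOf f) (c2 : (n5, n6, t) ∈ cornersOf f) :
    ¬ (Fl (s, n5, n6) ∧ Fl (n5, n6, t)) := by
  have c4 := corners4 s b n4 n5
  have c4' := corners4 n4 b t n6
  -- the common part of the three applications of the hull property
  have key : ∀ (z e₁ e₂ : V), z ∈ ({s, b, t} : Set V) → e₁ ∈ ({s, b, t} : Set V) →
      e₂ ∈ ({s, b, t} : Set V) → (∀ y ∈ ({s, b, t} : Set V), y ≠ e₁ → y ≠ e₂ → y = z) →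
      (z ≠ G.s₁ ∧ z ≠ G.s₂ ∧ z ≠ G.s₃) → (∃ w, (z, w) ∈ G.darts) →
      (∃ g ∈ G.inner, ∃ k ∈ cornersOf g, k.2.1 = z ∧ Fl k ∧
        k.1 ∈ ({s, b, t, n4, n5, n6} : Set V) ∧ k.2.2 ∈ ({s, b, t, n4, n5, n6} : Set V)) →
      False := by
    intro z e₁ e₂ hz h1 h2 hy hs hd hk
    refine hF.hull [n5, n4, n6] P.h3 {s, b, t, n4, n5, n6} e₁ e₂ (by simp) ?_ ?_
    · intro v hv
      simp only [List.mem_cons, List.not_mem_nil, or_false] at hv
      simp only [Set.mem_insert_iff, Set.mem_singleton_iff]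
      tauto
    · intro v hv ne1 ne2
      simp only [Set.mem_insert_iff, Set.mem_singleton_iff] at hv
      by_cases hin : v ∈ ({s, b, t} : Set V)
      · have := hy v hin ne1 ne2
        subst this
        exact ⟨hs, hd, Or.inl hk⟩
      · have hv' : v = n4 ∨ v = n5 ∨ v = n6 := by
          simp only [Set.mem_insert_iff, Set.mem_singleton_iff] at hin
          tauto
        rcases hv' with h | h | h
        · subst h
          refine ⟨P.u4, ⟨n5, dart_of P.h1 (by simp [darts4])⟩, Or.inr fun w hw => ?_⟩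
          rcases P.g4 w hw with h | h | h <;> subst h <;> simp
        · subst h
          refine ⟨P.u5, ⟨s, dart_of P.h1 (by simp [darts4])⟩, Or.inr fun w hw => ?_⟩
          rcases P.g5 w hw with h | h | h <;> subst h <;> simp
        · subst h
          refine ⟨P.u6, ⟨n4, dart_of P.h2 (by simp [darts4])⟩, Or.inr fun w hw => ?_⟩
          rcases P.g6 w hw with h | h | h <;> subst h <;> simp
  -- `s` is not flat in the first quadrangle
  have ks : ¬ Fl (n5, s, b) := by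
    intro h
    have hm : (n5, s, b) ∈ cornersOf [s, b, n4, n5] := by rw [c4]; simp
    refine key s b t (by simp) (by simp) (by simp) (by
      intro y hy; simp only [Set.mem_insert_iff, Set.mem_singleton_iff] at hy; tauto)
      (hF.susp _ P.h1 _ hm h) ⟨b, dart_of P.h1 (by simp [darts4])⟩
      ⟨_, P.h1, _, hm, rfl, h, by simp, by simp⟩
  have kb : ¬ Fl (s, b, n4) := by
    intro h
    have hm : (s, b, n4) ∈ cornersOf [s, b, n4, n5] := by rw [c4]; simp
    refine key b s t (by simp) (by simp) (by simp) (by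
      intro y hy; simp only [Set.mem_insert_iff, Set.mem_singleton_iff] at hy; tauto)
      (hF.susp _ P.h1 _ hm h) ⟨n4, dart_of P.h1 (by simp [darts4])⟩
      ⟨_, P.h1, _, hm, rfl, h, by simp, by simp⟩
  have kb' : ¬ Fl (n4, b, t) := by
    intro h
    have hm : (n4, b, t) ∈ cornersOf [n4, b, t, n6] := by rw [c4']; simp
    refine key b s t (by simp) (by simp) (by simp) (by
      intro y hy; simp only [Set.mem_insert_iff, Set.mem_singleton_iff] at hy; tauto)
      (hF.susp _ P.h2 _ hm h) ⟨t, dart_of P.h2 (by simp [darts4])⟩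
      ⟨_, P.h2, _, hm, rfl, h, by simp, by simp⟩
  have kt : ¬ Fl (b, t, n6) := by
    intro h
    have hm : (b, t, n6) ∈ cornersOf [n4, b, t, n6] := by rw [c4']; simp
    refine key t s b (by simp) (by simp) (by simp) (by
      intro y hy; simp only [Set.mem_insert_iff, Set.mem_singleton_iff] at hy; tauto)
      (hF.susp _ P.h2 _ hm h) ⟨n6, dart_of P.h2 (by simp [darts4])⟩
      ⟨_, P.h2, _, hm, rfl, h, by simp, by simp⟩
  rintro ⟨f5, f6⟩
  -- the first quadrangle
  have q1 : Fl (b, n4, n5) := by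
    have m1 : (s, b, n4) ∈ cornersOf [s, b, n4, n5] := by rw [c4]; simp
    have m2 : (b, n4, n5) ∈ cornersOf [s, b, n4, n5] := by rw [c4]; simp
    have m3 : (n4, n5, s) ∈ cornersOf [s, b, n4, n5] := by rw [c4]; simp
    have m4 : (n5, s, b) ∈ cornersOf [s, b, n4, n5] := by rw [c4]; simp
    rcases not_four (hF.three _ P.h1) m1 m2 m3 m4
      (fun e => P.b4 (congrArg (fun k : V × V × V => k.2.1) e))
      (fun e => P.b5 (congrArg (fun k : V × V × V => k.2.1) e))
      (fun e => P.sb (congrArg (fun k : V × V × V => k.2.1) e).symm)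
      (fun e => P.n45 (congrArg (fun k : V × V × V => k.2.1) e))
      (fun e => P.s4 (congrArg (fun k : V × V × V => k.2.1) e).symm)
      (fun e => P.s5 (congrArg (fun k : V × V × V => k.2.1) e).symm) with h | h | h | h
    · exact absurd h kb
    · exact h
    · have := hF.uniq _ P.h1 _ hf _ m3 _ c1 h f5 rfl
      exact absurd (congrArg (fun k : V × V × V => k.1) this).symm P.s4
    · exact absurd h ks
  have q2 : Fl (n6, n4, b) := by
    have m1 : (n4, b, t) ∈ cornersOf [n4, b, t, n6] := by rw [c4']; simp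
    have m2 : (b, t, n6) ∈ cornersOf [n4, b, t, n6] := by rw [c4']; simp
    have m3 : (t, n6, n4) ∈ cornersOf [n4, b, t, n6] := by rw [c4']; simp
    have m4 : (n6, n4, b) ∈ cornersOf [n4, b, t, n6] := by rw [c4']; simp
    rcases not_four (hF.three _ P.h2) m1 m2 m3 m4
      (fun e => P.bt (congrArg (fun k : V × V × V => k.2.1) e))
      (fun e => P.b6 (congrArg (fun k : V × V × V => k.2.1) e))
      (fun e => P.b4 (congrArg (fun k : V × V × V => k.2.1) e))
      (fun e => P.t6 (congrArg (fun k : V × V × V => k.2.1) e))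
      (fun e => P.t4 (congrArg (fun k : V × V × V => k.2.1) e))
      (fun e => P.n46 (congrArg (fun k : V × V × V => k.2.1) e).symm) with h | h | h | h
    · exact absurd h kb'
    · exact absurd h kt
    · have := hF.uniq _ P.h2 _ hf _ m3 _ c2 h f6 rfl
      exact absurd (congrArg (fun k : V × V × V => k.1) this) P.t5
    · exact h
  have m1 : (b, n4, n5) ∈ cornersOf [s, b, n4, n5] := by rw [c4]; simp
  have m2 : (n6, n4, b) ∈ cornersOf [n4, b, t, n6] := by rw [c4']; simp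
  have := hF.uniq _ P.h1 _ P.h2 _ m1 _ m2 q1 q2 rfl
  exact P.b6 (congrArg (fun k : V × V × V => k.1) this)

end gen

/-! ## Kinds of vertices -/

theorem hub_kind (N i b c : ℕ) (hi : i < 12) : (hub N i b c).2.2 < 12 := by
  unfold hub s1 s2
  split_ifs <;> simp [hi]
theorem hy_kind (N b c : ℕ) : (hy N b c).2.2 < 12 := hub_kind _ _ _ _ (by norm_num)
theorem hc_kind (N b c : ℕ) : (hc N b c).2.2 < 12 := hub_kind _ _ _ _ (by norm_num)
theorem hd_kind (N b c : ℕ) : (hd N b c).2.2 < 12 := hub_kind _ _ _ _ (by norm_num)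
theorem pp_kind (N b c : ℕ) : (pp N b c).2.2 < 12 := by
  unfold pp s1 s2
  split_ifs <;> simp

/-- the kind of a hub or of `pp` is not that of a vertex on a rail -/
theorem hub_kind' (N i b c : ℕ) (hi : 6 ≤ i) : (hub N i b c).2.2 < 2 ∨ 6 ≤ (hub N i b c).2.2 := by
  unfold hub s1 s2
  split_ifs <;> simp [hi]
theorem hy_kind' (N b c : ℕ) : (hy N b c).2.2 < 2 ∨ 6 ≤ (hy N b c).2.2 :=
  hub_kind' _ _ _ _ (by norm_num)
theorem hc_kind' (N b c : ℕ) : (hc N b c).2.2 < 2 ∨ 6 ≤ (hc N b c).2.2 :=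
  hub_kind' _ _ _ _ (by norm_num)
theorem hd_kind' (N b c : ℕ) : (hd N b c).2.2 < 2 ∨ 6 ≤ (hd N b c).2.2 :=
  hub_kind' _ _ _ _ (by norm_num)
theorem pp_kind' (N b c : ℕ) : (pp N b c).2.2 < 2 ∨ 6 ≤ (pp N b c).2.2 := by
  unfold pp s1 s2
  split_ifs <;> simp

theorem nd_ne {v : VX} (h : v.2.2 < 12) (r c i : ℕ) : nd r c i ≠ v := by
  intro e
  have : (nd r c i).2.2 = v.2.2 := by rw [e]
  unfold nd at this
  simp only at this
  omega

theorem nd_eq {r c i r' c' i' : ℕ} : nd r c i = nd r' c' i' ↔ r = r' ∧ c = c' ∧ i = i' := by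
  unfold nd
  simp only [Prod.mk.injEq]
  omega

/-- the inner vertices on the faces of a tile -/
theorem nd_mem_tile {a b c d : VX} {r k i r' k' j : ℕ} {f : List VX} (ha : a.2.2 < 12)
    (hb : b.2.2 < 12) (hc : c.2.2 < 12) (hd : d.2.2 < 12) (hf : f ∈ tile a b c d r k i)
    (hm : nd r' k' j ∈ f) : r' = r ∧ k' = k ∧ i ≤ j ∧ j < i + 6 := by
  have na := nd_ne ha r' k' j
  have nb := nd_ne hb r' k' j
  have nc := nd_ne hc r' k' j
  have nd' := nd_ne hd r' k' j
  simp only [tile, prism, List.mem_append, List.mem_cons, List.not_mem_nil, or_false] at hf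
  rcases hf with ((rfl | rfl | rfl) | (rfl | rfl | rfl)) | rfl <;>
  · simp only [List.mem_cons, List.not_mem_nil, or_false, na, nb, nc, nd', false_or, nd_eq] at hm
    omega

theorem nd_mem_dead {N b c r' k' j : ℕ} {f : List VX} (hf : f ∈ deadFaces N b c)
    (hm : nd r' k' j ∈ f) : r' = b ∧ k' = c ∧ 24 ≤ j := by
  have n1 := nd_ne (pp_kind N b (c + 1)) r' k' j
  have n2 := nd_ne (hc_kind N b c) r' k' j
  have n3 := nd_ne (hd_kind N b c) r' k' j
  have n4 := nd_ne (hy_kind N b c) r' k' j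
  have n5 : nd r' k' j ≠ vv b c := nd_ne (by simp [vv]) r' k' j
  have n6 : nd r' k' j ≠ ww b c := nd_ne (by simp [ww]) r' k' j
  simp only [deadFaces, prism, centre, List.mem_append, List.mem_cons, List.not_mem_nil,
    or_false] at hf
  rcases hf with (((rfl | rfl | rfl) | (rfl | rfl | rfl)) | (rfl | rfl | rfl)) | rfl <;>
  · simp only [List.mem_cons, List.not_mem_nil, or_false, n1, n2, n3, n4, n5, n6, false_or,
      nd_eq] at hm
    omega

/-- which gadget contains a face with a given inner vertex -/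
theorem nd_face {N M : ℕ} {B : ℕ → ℕ → Bool} {f : List VX} (hf : f ∈ gridFaces N M B)
    {r k j : ℕ} (hm : nd r k j ∈ f) :
    (j < 6 ∧ f ∈ tileA N r k) ∨ (6 ≤ j ∧ j < 12 ∧ f ∈ tileB N r k) ∨
    (12 ≤ j ∧ j < 18 ∧ f ∈ tileW N r k) ∨
    (18 ≤ j ∧ j < 24 ∧ f ∈ tile (uu r 0) s1 (uu (r + 1) 0) (hy N (r + 1) 0) r 0 18 ∧ k = 0) ∨
    (24 ≤ j ∧ f ∈ deadFaces N r k) := by
  have nu : ∀ a b, nd r k j ≠ uu a b := fun a b => nd_ne (by simp [uu]) _ _ _
  have nx : ∀ a b, nd r k j ≠ xx a b := fun a b => nd_ne (by simp [xx]) _ _ _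
  have nq : ∀ a b, nd r k j ≠ qq a b := fun a b => nd_ne (by simp [qq]) _ _ _
  have nv : ∀ a b, nd r k j ≠ vv a b := fun a b => nd_ne (by simp [vv]) _ _ _
  have nw : ∀ a b, nd r k j ≠ ww a b := fun a b => nd_ne (by simp [ww]) _ _ _
  have np : ∀ a b, nd r k j ≠ pp N a b := fun a b => nd_ne (pp_kind _ _ _) _ _ _
  have ny : ∀ a b, nd r k j ≠ hy N a b := fun a b => nd_ne (hy_kind _ _ _) _ _ _
  have nc : ∀ a b, nd r k j ≠ hc N a b := fun a b => nd_ne (hc_kind _ _ _) _ _ _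
  have ndd : ∀ a b, nd r k j ≠ hd N a b := fun a b => nd_ne (hd_kind _ _ _) _ _ _
  have n1 : nd r k j ≠ s1 := nd_ne (by simp [s1]) _ _ _
  have n2 : nd r k j ≠ s2 := nd_ne (by simp [s2]) _ _ _
  have n3 : nd r k j ≠ s3 := nd_ne (by simp [s3]) _ _ _
  rcases mem_gridFaces.1 hf with rfl | ⟨c, hc, r', hr, h⟩ | ⟨c, hc, r', hr, h⟩ | ⟨r', hr, h⟩
  · simp [n1, n2, nu] at hm
  · simp only [railFaces, List.mem_append] at h
    rcases h with (h | h) | h
    · obtain ⟨rfl, rfl, h1, h2⟩ := nd_mem_tile (by simp [uu]) (hy_kind _ _ _) (by simp [xx])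
        (hy_kind _ _ _) h hm
      exact Or.inl ⟨by omega, h⟩
    · obtain ⟨rfl, rfl, h1, h2⟩ := nd_mem_tile (by simp [xx]) (hc_kind _ _ _) (by simp [qq])
        (hd_kind _ _ _) h hm
      exact Or.inr (Or.inl ⟨by omega, by omega, h⟩)
    · split_ifs at h
      · obtain ⟨rfl, rfl, h1, h2⟩ := nd_mem_tile (by simp [qq]) (pp_kind _ _ _) (by simp [uu])
          (pp_kind _ _ _) h hm
        exact Or.inr (Or.inr (Or.inl ⟨by omega, by omega, h⟩))
      · simp only [thin, List.mem_cons, List.not_mem_nil, or_false] at h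
        subst h
        simp [nq, np, nu] at hm
  · simp only [bandFaces, List.mem_append] at h
    rcases h with (h | h) | h
    · unfold leftFaces at h
      split_ifs at h
      · obtain ⟨rfl, rfl, h1, h2⟩ := nd_mem_tile (by simp [uu]) (by simp [s1]) (by simp [uu])
          (hy_kind _ _ _) h hm
        exact Or.inr (Or.inr (Or.inr (Or.inl ⟨by omega, by omega, h, rfl⟩)))
      · simp only [List.mem_cons, List.not_mem_nil, or_false] at h
        rcases h with rfl | rfl <;> simp [ny, np, nu] at hm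
    · simp only [midFaces, List.mem_cons, List.not_mem_nil, or_false] at h
      rcases h with rfl | rfl | rfl | rfl | rfl | rfl <;>
        simp [ny, np, nx, nq, nv, nw, nc, ndd] at hm
    · obtain ⟨rfl, rfl, h1⟩ := nd_mem_dead h hm
      exact Or.inr (Or.inr (Or.inr (Or.inr ⟨h1, h⟩)))
  · simp only [rightFaces, List.mem_cons, List.not_mem_nil, or_false] at h
    rcases h with rfl | rfl <;> simp [n3, np, nu] at hm

theorem fst_mem_of_dart {V : Type} {f : List V} {d : V × V} (h : d ∈ dartsOf f) : d.1 ∈ f :=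
  (List.of_mem_zip (by simpa [dartsOf] using h : (d.1, d.2) ∈ f.zip (f.rotate 1))).1

/-- darts starting at inner vertices -/
theorem nd_dart {N M : ℕ} {B : ℕ → ℕ → Bool} {r k j : ℕ} {w : VX}
    (h : (nd r k j, w) ∈ (grid N M B).darts) : ∃ f ∈ gridFaces N M B, (nd r k j, w) ∈ dartsOf f ∧
    nd r k j ∈ f := by
  rcases mem_gridDarts.1 h with h | ⟨f, hf, h⟩
  · exfalso
    have := fst_mem_of_dart h
    have n1 : nd r k j ≠ s1 := nd_ne (by simp [s1]) _ _ _
    have n2 : nd r k j ≠ s2 := nd_ne (by simp [s2]) _ _ _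
    have n3 : nd r k j ≠ s3 := nd_ne (by simp [s3]) _ _ _
    simp [n1, n2, n3] at this
  · exact ⟨f, hf, h, fst_mem_of_dart h⟩

/-- darts inside a tile -/
theorem tile_darts {a b c d : VX} {r k i : ℕ} (ha : a.2.2 < 12)
    (hb : b.2.2 < 12) (hc : c.2.2 < 12) (hd : d.2.2 < 12) {f : List VX}
    (hf : f ∈ tile a b c d r k i) (w : VX) :
    ((nd r k i, w) ∈ dartsOf f → w = b ∨ w = nd r k (i + 1) ∨ w = nd r k (i + 2)) ∧
    ((nd r k (i + 1), w) ∈ dartsOf f → w = a ∨ w = nd r k i ∨ w = nd r k (i + 2)) ∧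
    ((nd r k (i + 2), w) ∈ dartsOf f → w = c ∨ w = nd r k i ∨ w = nd r k (i + 1)) ∧
    ((nd r k (i + 5), w) ∈ dartsOf f → w = d ∨ w = nd r k (i + 3) ∨ w = nd r k (i + 4)) ∧
    ((nd r k (i + 3), w) ∈ dartsOf f → w = c ∨ w = nd r k (i + 5) ∨ w = nd r k (i + 4)) ∧
    ((nd r k (i + 4), w) ∈ dartsOf f → w = a ∨ w = nd r k (i + 5) ∨ w = nd r k (i + 3)) := by
  have na := fun j => nd_ne ha r k j
  have nb := fun j => nd_ne hb r k j
  have nc := fun j => nd_ne hc r k j
  have nd' := fun j => nd_ne hd r k j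
  simp only [tile, prism, List.mem_append, List.mem_cons, List.not_mem_nil, or_false] at hf
  rcases hf with ((rfl | rfl | rfl) | (rfl | rfl | rfl)) | rfl <;>
    simp only [darts3, darts4, darts6, List.mem_cons, List.not_mem_nil, or_false,
      Prod.mk.injEq, na, nb, nc, nd', false_and, false_or, nd_eq, true_and] <;>
    refine ⟨?_, ?_, ?_, ?_, ?_, ?_⟩ <;> intro h <;>
    first
      | (exfalso; omega)
      | grind

/-- darts inside a dead gadget -/
theorem dead_darts {N b c : ℕ} {f : List VX} (hf : f ∈ deadFaces N b c) (w : VX) :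
    ((nd b c 24, w) ∈ dartsOf f → w = hc N b c ∨ w = nd b c 25 ∨ w = nd b c 26) ∧
    ((nd b c 25, w) ∈ dartsOf f → w = pp N b (c + 1) ∨ w = nd b c 24 ∨ w = nd b c 26) ∧
    ((nd b c 26, w) ∈ dartsOf f → w = vv b c ∨ w = nd b c 24 ∨ w = nd b c 25) ∧
    ((nd b c 27, w) ∈ dartsOf f → w = hy N b c ∨ w = nd b c 28 ∨ w = nd b c 29) ∧
    ((nd b c 28, w) ∈ dartsOf f → w = vv b c ∨ w = nd b c 27 ∨ w = nd b c 29) ∧
    ((nd b c 29, w) ∈ dartsOf f → w = ww b c ∨ w = nd b c 27 ∨ w = nd b c 28) ∧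
    ((nd b c 30, w) ∈ dartsOf f → w = hd N b c ∨ w = nd b c 31 ∨ w = nd b c 32) ∧
    ((nd b c 31, w) ∈ dartsOf f → w = ww b c ∨ w = nd b c 30 ∨ w = nd b c 32) ∧
    ((nd b c 32, w) ∈ dartsOf f → w = pp N b (c + 1) ∨ w = nd b c 30 ∨ w = nd b c 31) := by
  have n1 := fun j => nd_ne (pp_kind N b (c + 1)) b c j
  have n2 := fun j => nd_ne (hc_kind N b c) b c j
  have n3 := fun j => nd_ne (hd_kind N b c) b c j
  have n4 := fun j => nd_ne (hy_kind N b c) b c j
  have n5 : ∀ j, nd b c j ≠ vv b c := fun j => nd_ne (by simp [vv]) b c j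
  have n6 : ∀ j, nd b c j ≠ ww b c := fun j => nd_ne (by simp [ww]) b c j
  simp only [deadFaces, prism, centre, List.mem_append, List.mem_cons, List.not_mem_nil,
    or_false] at hf
  rcases hf with (((rfl | rfl | rfl) | (rfl | rfl | rfl)) | (rfl | rfl | rfl)) | rfl <;>
    simp only [darts3, darts4, darts9, List.mem_cons, List.not_mem_nil, or_false,
      Prod.mk.injEq, n1, n2, n3, n4, n5, n6, false_and, false_or, nd_eq, true_and] <;>
    refine ⟨?_, ?_, ?_, ?_, ?_, ?_, ?_, ?_, ?_⟩ <;> intro h <;>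
    first
      | (exfalso; omega)
      | grind

theorem nd_susp {N M : ℕ} {B : ℕ → ℕ → Bool} (r k j : ℕ) : nd r k j ≠ (grid N M B).s₁ ∧
    nd r k j ≠ (grid N M B).s₂ ∧ nd r k j ≠ (grid N M B).s₃ :=
  ⟨nd_ne (v := s1) (by simp [s1]) _ _ _, nd_ne (v := s2) (by simp [s2]) _ _ _,
    nd_ne (v := s3) (by simp [s3]) _ _ _⟩

/-- prisms of the grid -/
theorem mk_prism {N M : ℕ} {B : ℕ → ℕ → Bool} {s b t : VX} {r k i₄ i₅ i₆ : ℕ}
    (hs : s.2.2 < 12) (hb : b.2.2 < 12) (ht : t.2.2 < 12) (sb : s ≠ b) (bt : b ≠ t)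
    (n45 : i₄ ≠ i₅) (n46 : i₄ ≠ i₆) (n56 : i₅ ≠ i₆)
    (hin : ∀ f ∈ prism s b t (nd r k i₄) (nd r k i₅) (nd r k i₆), f ∈ gridFaces N M B)
    (g4 : ∀ w, (nd r k i₄, w) ∈ (grid N M B).darts → w = b ∨ w = nd r k i₅ ∨ w = nd r k i₆)
    (g5 : ∀ w, (nd r k i₅, w) ∈ (grid N M B).darts → w = s ∨ w = nd r k i₄ ∨ w = nd r k i₆)
    (g6 : ∀ w, (nd r k i₆, w) ∈ (grid N M B).darts → w = t ∨ w = nd r k i₄ ∨ w = nd r k i₅) :
    Prism (grid N M B) s b t (nd r k i₄) (nd r k i₅) (nd r k i₆) where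
  h1 := hin _ (by simp [prism])
  h2 := hin _ (by simp [prism])
  h3 := hin _ (by simp [prism])
  g4 := g4
  g5 := g5
  g6 := g6
  u4 := nd_susp _ _ _
  u5 := nd_susp _ _ _
  u6 := nd_susp _ _ _
  sb := sb
  bt := bt
  s4 := (nd_ne hs _ _ _).symm
  s5 := (nd_ne hs _ _ _).symm
  b4 := (nd_ne hb _ _ _).symm
  b5 := (nd_ne hb _ _ _).symm
  b6 := (nd_ne hb _ _ _).symm
  t4 := (nd_ne ht _ _ _).symm
  t5 := (nd_ne ht _ _ _).symm
  t6 := (nd_ne ht _ _ _).symm
  n45 := fun h => n45 (nd_eq.1 h).2.2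
  n46 := fun h => n46 (nd_eq.1 h).2.2
  n56 := fun h => n56 (nd_eq.1 h).2.2

/-- a tile takes one of its two ends -/
theorem tile_flat {N M : ℕ} {B : ℕ → ℕ → Bool} {Fl : VX × VX × VX → Prop}
    (hF : Facts (grid N M B) Fl) {a b c d : VX} {r k i : ℕ} (ha : a.2.2 < 12)
    (hb : b.2.2 < 12) (hc : c.2.2 < 12) (hd : d.2.2 < 12) (ab : a ≠ b) (bc : b ≠ c) (cd : c ≠ d)
    (da : d ≠ a) (ac : a ≠ c) (hin : ∀ f ∈ tile a b c d r k i, f ∈ gridFaces N M B)
    (hdd : ∀ j, i ≤ j → j < i + 6 → ∀ w, (nd r k j, w) ∈ (grid N M B).darts →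
      ∃ f ∈ tile a b c d r k i, (nd r k j, w) ∈ dartsOf f) :
    Fl (nd r k (i + 4), a, nd r k (i + 1)) ∨ Fl (nd r k (i + 2), c, nd r k (i + 3)) := by
  have P1 : Prism (grid N M B) a b c (nd r k i) (nd r k (i + 1)) (nd r k (i + 2)) := by
    refine mk_prism ha hb hc ab bc (by omega) (by omega) (by omega) (fun f hf => hin f ?_) ?_ ?_ ?_
    · unfold tile
      exact List.mem_append_left _ (List.mem_append_left _ hf)
    · intro w hw
      obtain ⟨f, hf, h⟩ := hdd i (by omega) (by omega) w hw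
      exact (tile_darts ha hb hc hd hf w).1 h
    · intro w hw
      obtain ⟨f, hf, h⟩ := hdd (i + 1) (by omega) (by omega) w hw
      exact (tile_darts ha hb hc hd hf w).2.1 h
    · intro w hw
      obtain ⟨f, hf, h⟩ := hdd (i + 2) (by omega) (by omega) w hw
      exact (tile_darts ha hb hc hd hf w).2.2.1 h
  have P2 : Prism (grid N M B) c d a (nd r k (i + 5)) (nd r k (i + 3)) (nd r k (i + 4)) := by
    refine mk_prism hc hd ha cd da (by omega) (by omega) (by omega) (fun f hf => hin f ?_) ?_ ?_ ?_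
    · unfold tile
      exact List.mem_append_left _ (List.mem_append_right _ hf)
    · intro w hw
      obtain ⟨f, hf, h⟩ := hdd (i + 5) (by omega) (by omega) w hw
      exact (tile_darts ha hb hc hd hf w).2.2.2.1 h
    · intro w hw
      obtain ⟨f, hf, h⟩ := hdd (i + 3) (by omega) (by omega) w hw
      exact (tile_darts ha hb hc hd hf w).2.2.2.2.1 h
    · intro w hw
      obtain ⟨f, hf, h⟩ := hdd (i + 4) (by omega) (by omega) w hw
      exact (tile_darts ha hb hc hd hf w).2.2.2.2.2 h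
  have hH : [a, nd r k (i + 1), nd r k (i + 2), c, nd r k (i + 3), nd r k (i + 4)] ∈
      (grid N M B).inner := hin _ (by unfold tile; simp)
  have hc6 := corners6 a (nd r k (i + 1)) (nd r k (i + 2)) c (nd r k (i + 3)) (nd r k (i + 4))
  have m1 : (a, nd r k (i + 1), nd r k (i + 2)) ∈
      cornersOf [a, nd r k (i + 1), nd r k (i + 2), c, nd r k (i + 3), nd r k (i + 4)] := by
    rw [hc6]; simp
  have m2 : (nd r k (i + 1), nd r k (i + 2), c) ∈
      cornersOf [a, nd r k (i + 1), nd r k (i + 2), c, nd r k (i + 3), nd r k (i + 4)] := by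
    rw [hc6]; simp
  have m3 : (nd r k (i + 2), c, nd r k (i + 3)) ∈
      cornersOf [a, nd r k (i + 1), nd r k (i + 2), c, nd r k (i + 3), nd r k (i + 4)] := by
    rw [hc6]; simp
  have m4 : (c, nd r k (i + 3), nd r k (i + 4)) ∈
      cornersOf [a, nd r k (i + 1), nd r k (i + 2), c, nd r k (i + 3), nd r k (i + 4)] := by
    rw [hc6]; simp
  have m5 : (nd r k (i + 3), nd r k (i + 4), a) ∈
      cornersOf [a, nd r k (i + 1), nd r k (i + 2), c, nd r k (i + 3), nd r k (i + 4)] := by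
    rw [hc6]; simp
  have m6 : (nd r k (i + 4), a, nd r k (i + 1)) ∈
      cornersOf [a, nd r k (i + 1), nd r k (i + 2), c, nd r k (i + 3), nd r k (i + 4)] := by
    rw [hc6]; simp
  have p1 := prism_lemma hF P1 hH m1 m2
  have p2 := prism_lemma hF P2 hH m4 m5
  by_contra hn
  simp only [not_or] at hn
  obtain ⟨na, nc⟩ := hn
  have mid : ∀ {k l : VX × VX × VX}, k.2.1 ≠ l.2.1 → k ≠ l := fun h e => h (by rw [e])
  have x1 : ∀ j, a ≠ nd r k j := fun j => (nd_ne ha r k j).symm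
  have x3 : ∀ j, c ≠ nd r k j := fun j => (nd_ne hc r k j).symm
  have x4 : ∀ j l, j ≠ l → nd r k j ≠ nd r k l := fun j l h e => h (nd_eq.1 e).2.2
  have q1 : ∃ k₁ ∈ cornersOf [a, nd r k (i + 1), nd r k (i + 2), c, nd r k (i + 3),
      nd r k (i + 4)], ¬ Fl k₁ ∧ (k₁.2.1 = nd r k (i + 1) ∨ k₁.2.1 = nd r k (i + 2)) := by
    by_cases h : Fl (a, nd r k (i + 1), nd r k (i + 2))
    · exact ⟨_, m2, fun h' => p1 ⟨h, h'⟩, Or.inr rfl⟩
    · exact ⟨_, m1, h, Or.inl rfl⟩
  have q2 : ∃ k₂ ∈ cornersOf [a, nd r k (i + 1), nd r k (i + 2), c, nd r k (i + 3),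
      nd r k (i + 4)], ¬ Fl k₂ ∧ (k₂.2.1 = nd r k (i + 3) ∨ k₂.2.1 = nd r k (i + 4)) := by
    by_cases h : Fl (c, nd r k (i + 3), nd r k (i + 4))
    · exact ⟨_, m5, fun h' => p2 ⟨h, h'⟩, Or.inr rfl⟩
    · exact ⟨_, m4, h, Or.inl rfl⟩
  obtain ⟨k₁, mk1, nk1, e1⟩ := q1
  obtain ⟨k₂, mk2, nk2, e2⟩ := q2
  have d1 : a ≠ k₁.2.1 := by rcases e1 with e | e <;> rw [e] <;> exact x1 _
  have d2 : c ≠ k₁.2.1 := by rcases e1 with e | e <;> rw [e] <;> exact x3 _
  have d3 : a ≠ k₂.2.1 := by rcases e2 with e | e <;> rw [e] <;> exact x1 _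
  have d4 : c ≠ k₂.2.1 := by rcases e2 with e | e <;> rw [e] <;> exact x3 _
  have d5 : k₁.2.1 ≠ k₂.2.1 := by
    rcases e1 with e | e <;> rcases e2 with e' | e' <;> rw [e, e'] <;> exact x4 _ _ (by omega)
  rcases not_four (hF.three _ hH) m6 m3 mk1 mk2 (mid ac) (mid d1) (mid d3) (mid d2) (mid d4)
    (mid d5) with h | h | h | h
  · exact na h
  · exact nc h
  · exact nk1 h
  · exact nk2 h

/-- the dead gadget takes its three corners -/
theorem dead_flat {N M : ℕ} {B : ℕ → ℕ → Bool} {Fl : VX × VX × VX → Prop}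
    (hF : Facts (grid N M B) Fl) {b c : ℕ} (h1 : 1 ≤ b) (h2 : b < N) (h3 : c < M) :
    Fl (nd b c 32, pp N b (c + 1), nd b c 25) := by
  have hin : ∀ f ∈ deadFaces N b c, f ∈ gridFaces N M B := by
    intro f hf
    refine mem_gridFaces.2 (Or.inr (Or.inr (Or.inl ⟨c, h3, b - 1, by omega, ?_⟩)))
    have e : b - 1 + 1 = b := by omega
    unfold bandFaces
    rw [e]
    exact List.mem_append_right _ hf
  have hdd : ∀ j, 24 ≤ j → ∀ w, (nd b c j, w) ∈ (grid N M B).darts →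
      ∃ f ∈ deadFaces N b c, (nd b c j, w) ∈ dartsOf f := by
    intro j hj w hw
    obtain ⟨f, hf, hd, hm⟩ := nd_dart hw
    rcases nd_face hf hm with h | h | h | h | h
    · omega
    · omega
    · omega
    · omega
    · exact ⟨f, h.2, hd⟩
  have kp := pp_kind N b (c + 1)
  have kc := hc_kind N b c
  have kd := hd_kind N b c
  have ky := hy_kind N b c
  have kv : (vv b c).2.2 < 12 := by simp [vv]
  have kw : (ww b c).2.2 < 12 := by simp [ww]
  have ep := pp_of (c := c) h1 h2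
  have ey := hy_of (c := c) h1 h2
  have ec := hc_of (c := c) h1 h2
  have ed := hd_of (c := c) h1 h2
  have P1 : Prism (grid N M B) (pp N b (c + 1)) (hc N b c) (vv b c) (nd b c 24) (nd b c 25)
      (nd b c 26) := by
    refine mk_prism kp kc kv ?_ ?_ (by omega) (by omega) (by omega) (fun f hf => hin f ?_) ?_ ?_ ?_
    · rw [ep, ec]; simp
    · rw [ec]; simp [vv]
    · unfold deadFaces
      exact List.mem_append_left _ (List.mem_append_left _ (List.mem_append_left _ hf))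
    · intro w hw
      obtain ⟨f, hf, h⟩ := hdd 24 (by omega) w hw
      exact (dead_darts hf w).1 h
    · intro w hw
      obtain ⟨f, hf, h⟩ := hdd 25 (by omega) w hw
      exact (dead_darts hf w).2.1 h
    · intro w hw
      obtain ⟨f, hf, h⟩ := hdd 26 (by omega) w hw
      exact (dead_darts hf w).2.2.1 h
  have P2 : Prism (grid N M B) (vv b c) (hy N b c) (ww b c) (nd b c 27) (nd b c 28)
      (nd b c 29) := by
    refine mk_prism kv ky kw ?_ ?_ (by omega) (by omega) (by omega) (fun f hf => hin f ?_) ?_ ?_ ?_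
    · rw [ey]; simp [vv]
    · rw [ey]; simp [ww]
    · unfold deadFaces
      exact List.mem_append_left _ (List.mem_append_left _ (List.mem_append_right _ hf))
    · intro w hw
      obtain ⟨f, hf, h⟩ := hdd 27 (by omega) w hw
      exact (dead_darts hf w).2.2.2.1 h
    · intro w hw
      obtain ⟨f, hf, h⟩ := hdd 28 (by omega) w hw
      exact (dead_darts hf w).2.2.2.2.1 h
    · intro w hw
      obtain ⟨f, hf, h⟩ := hdd 29 (by omega) w hw
      exact (dead_darts hf w).2.2.2.2.2.1 h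
  have P3 : Prism (grid N M B) (ww b c) (hd N b c) (pp N b (c + 1)) (nd b c 30) (nd b c 31)
      (nd b c 32) := by
    refine mk_prism kw kd kp ?_ ?_ (by omega) (by omega) (by omega) (fun f hf => hin f ?_) ?_ ?_ ?_
    · rw [ed]; simp [ww]
    · rw [ed, ep]; simp
    · unfold deadFaces
      exact List.mem_append_left _ (List.mem_append_right _ hf)
    · intro w hw
      obtain ⟨f, hf, h⟩ := hdd 30 (by omega) w hw
      exact (dead_darts hf w).2.2.2.2.2.2.1 h
    · intro w hw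
      obtain ⟨f, hf, h⟩ := hdd 31 (by omega) w hw
      exact (dead_darts hf w).2.2.2.2.2.2.2.1 h
    · intro w hw
      obtain ⟨f, hf, h⟩ := hdd 32 (by omega) w hw
      exact (dead_darts hf w).2.2.2.2.2.2.2.2 h
  have hH : centre N b c ∈ (grid N M B).inner := hin _ (by unfold deadFaces; simp)
  have hc9 : cornersOf (centre N b c) = _ := corners9 (pp N b (c + 1)) (nd b c 25) (nd b c 26)
    (vv b c) (nd b c 28) (nd b c 29) (ww b c) (nd b c 31) (nd b c 32)
  have m1 : (pp N b (c + 1), nd b c 25, nd b c 26) ∈ cornersOf (centre N b c) := by rw [hc9]; simp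
  have m2 : (nd b c 25, nd b c 26, vv b c) ∈ cornersOf (centre N b c) := by rw [hc9]; simp
  have m4 : (vv b c, nd b c 28, nd b c 29) ∈ cornersOf (centre N b c) := by rw [hc9]; simp
  have m5 : (nd b c 28, nd b c 29, ww b c) ∈ cornersOf (centre N b c) := by rw [hc9]; simp
  have m7 : (ww b c, nd b c 31, nd b c 32) ∈ cornersOf (centre N b c) := by rw [hc9]; simp
  have m8 : (nd b c 31, nd b c 32, pp N b (c + 1)) ∈ cornersOf (centre N b c) := by rw [hc9]; simp
  have m9 : (nd b c 32, pp N b (c + 1), nd b c 25) ∈ cornersOf (centre N b c) := by rw [hc9]; simp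
  have p1 := prism_lemma hF P1 hH m1 m2
  have p2 := prism_lemma hF P2 hH m4 m5
  have p3 := prism_lemma hF P3 hH m7 m8
  by_contra hn
  have mid : ∀ {k l : VX × VX × VX}, k.2.1 ≠ l.2.1 → k ≠ l := fun h e => h (by rw [e])
  have x1 : ∀ j, pp N b (c + 1) ≠ nd b c j := fun j => (nd_ne kp b c j).symm
  have x4 : ∀ j l, j ≠ l → nd b c j ≠ nd b c l := fun j l h e => h (nd_eq.1 e).2.2
  have q1 : ∃ k₁ ∈ cornersOf (centre N b c), ¬ Fl k₁ ∧
      (k₁.2.1 = nd b c 25 ∨ k₁.2.1 = nd b c 26) := by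
    by_cases h : Fl (pp N b (c + 1), nd b c 25, nd b c 26)
    · exact ⟨_, m2, fun h' => p1 ⟨h, h'⟩, Or.inr rfl⟩
    · exact ⟨_, m1, h, Or.inl rfl⟩
  have q2 : ∃ k₁ ∈ cornersOf (centre N b c), ¬ Fl k₁ ∧
      (k₁.2.1 = nd b c 28 ∨ k₁.2.1 = nd b c 29) := by
    by_cases h : Fl (vv b c, nd b c 28, nd b c 29)
    · exact ⟨_, m5, fun h' => p2 ⟨h, h'⟩, Or.inr rfl⟩
    · exact ⟨_, m4, h, Or.inl rfl⟩
  have q3 : ∃ k₁ ∈ cornersOf (centre N b c), ¬ Fl k₁ ∧
      (k₁.2.1 = nd b c 31 ∨ k₁.2.1 = nd b c 32) := by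
    by_cases h : Fl (ww b c, nd b c 31, nd b c 32)
    · exact ⟨_, m8, fun h' => p3 ⟨h, h'⟩, Or.inr rfl⟩
    · exact ⟨_, m7, h, Or.inl rfl⟩
  obtain ⟨k₁, mk1, nk1, e1⟩ := q1
  obtain ⟨k₂, mk2, nk2, e2⟩ := q2
  obtain ⟨k₃, mk3, nk3, e3⟩ := q3
  have d1 : pp N b (c + 1) ≠ k₁.2.1 := by rcases e1 with e | e <;> rw [e] <;> exact x1 _
  have d2 : pp N b (c + 1) ≠ k₂.2.1 := by rcases e2 with e | e <;> rw [e] <;> exact x1 _
  have d3 : pp N b (c + 1) ≠ k₃.2.1 := by rcases e3 with e | e <;> rw [e] <;> exact x1 _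
  have d4 : k₁.2.1 ≠ k₂.2.1 := by
    rcases e1 with e | e <;> rcases e2 with e' | e' <;> rw [e, e'] <;> exact x4 _ _ (by omega)
  have d5 : k₁.2.1 ≠ k₃.2.1 := by
    rcases e1 with e | e <;> rcases e3 with e' | e' <;> rw [e, e'] <;> exact x4 _ _ (by omega)
  have d6 : k₂.2.1 ≠ k₃.2.1 := by
    rcases e2 with e | e <;> rcases e3 with e' | e' <;> rw [e, e'] <;> exact x4 _ _ (by omega)
  rcases not_four (hF.three _ hH) m9 mk1 mk2 mk3 (mid d1) (mid d2) (mid d3) (mid d4) (mid d5)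
    (mid d6) with h | h | h | h
  · exact hn h
  · exact nk1 h
  · exact nk2 h
  · exact nk3 h

/-- a vertex on a rail is not a hub -/
theorem kind_ne {v w : VX} (h1 : 2 ≤ v.2.2) (h2 : v.2.2 < 6) (h : w.2.2 < 2 ∨ 6 ≤ w.2.2) :
    v ≠ w := by
  rintro rfl
  omega

end LocalG_

open LocalG_

/-- N-LOCAL -/
theorem tLocal : TLocal := by
  intro N M B Fl hN _ hM hF
  have hdead : ∀ b c, 1 ≤ b → b < N → c < M → Fl (nd b c 32, pp N b (c + 1), nd b c 25) :=
    fun b c h1 h2 h3 => dead_flat hF h1 h2 h3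
  have nopp : ∀ b c, b ≤ N → c < M → ∀ (f : List VX), f ∈ gridFaces N M B → ∀ x y : VX,
      (x, pp N b (c + 1), y) ∈ cornersOf f → x.2.2 < 12 → ¬ Fl (x, pp N b (c + 1), y) := by
    intro b c hb hc f hf x y hk hx h
    by_cases hb0 : b = 0
    · subst hb0
      exact (hF.susp f hf _ hk h).1 (pp_zero N (c + 1))
    by_cases hbN : b = N
    · subst hbN
      exact (hF.susp f hf _ hk h).2.1 (pp_last c hN)
    have h1 : 1 ≤ b := by omega
    have h2 : b < N := by omega
    have hin : centre N b c ∈ gridFaces N M B := by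
      refine mem_gridFaces.2 (Or.inr (Or.inr (Or.inl ⟨c, hc, b - 1, by omega, ?_⟩)))
      have e : b - 1 + 1 = b := by omega
      unfold bandFaces deadFaces
      rw [e]
      simp
    have hc9 : cornersOf (centre N b c) = _ := corners9 (pp N b (c + 1)) (nd b c 25) (nd b c 26)
      (vv b c) (nd b c 28) (nd b c 29) (ww b c) (nd b c 31) (nd b c 32)
    have m9 : (nd b c 32, pp N b (c + 1), nd b c 25) ∈ cornersOf (centre N b c) := by
      rw [hc9]; simp
    have := hF.uniq f hf _ hin _ hk _ m9 h (hdead b c h1 h2 hc) rfl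
    exact nd_ne hx b c 32 (congrArg (fun k : VX × VX × VX => k.1) this).symm
  refine ⟨?_, ?_, ?_, ?_, ?_, hdead⟩
  · intro r c hr hc
    refine tile_flat (i := 0) hF (by simp [uu]) (hy_kind N (r + 1) c) (by simp [xx])
      (hy_kind N r c) (kind_ne (by simp [uu]) (by simp [uu]) (hy_kind' _ _ _))
      (kind_ne (by simp [xx]) (by simp [xx]) (hy_kind' _ _ _)).symm
      (kind_ne (by simp [xx]) (by simp [xx]) (hy_kind' _ _ _))
      (kind_ne (by simp [uu]) (by simp [uu]) (hy_kind' _ _ _)).symm (by simp [uu, xx]) ?_ ?_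
    · intro f hf
      refine mem_gridFaces.2 (Or.inr (Or.inl ⟨c, hc, r, hr, ?_⟩))
      unfold railFaces tileA
      exact List.mem_append_left _ (List.mem_append_left _ hf)
    · intro j h1 h2 w hw
      obtain ⟨f, hf, hd, hm⟩ := nd_dart hw
      rcases nd_face hf hm with h | h | h | h | h
      · exact ⟨f, h.2, hd⟩
      all_goals omega
  · intro r c hr hc
    refine tile_flat (i := 6) hF (by simp [xx]) (hc_kind N (r + 1) c) (by simp [qq])
      (hd_kind N r c) (kind_ne (by simp [xx]) (by simp [xx]) (hc_kind' _ _ _))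
      (kind_ne (by simp [qq]) (by simp [qq]) (hc_kind' _ _ _)).symm
      (kind_ne (by simp [qq]) (by simp [qq]) (hd_kind' _ _ _))
      (kind_ne (by simp [xx]) (by simp [xx]) (hd_kind' _ _ _)).symm (by simp [qq, xx]) ?_ ?_
    · intro f hf
      refine mem_gridFaces.2 (Or.inr (Or.inl ⟨c, hc, r, hr, ?_⟩))
      unfold railFaces tileB
      exact List.mem_append_left _ (List.mem_append_right _ hf)
    · intro j h1 h2 w hw
      obtain ⟨f, hf, hd, hm⟩ := nd_dart hw
      rcases nd_face hf hm with h | h | h | h | h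
      · omega
      · exact ⟨f, h.2.2, hd⟩
      all_goals omega
  · intro r c hr hc hB
    refine tile_flat (i := 12) hF (by simp [qq]) (pp_kind N (r + 1) (c + 1)) (by simp [uu])
      (pp_kind N r (c + 1)) (kind_ne (by simp [qq]) (by simp [qq]) (pp_kind' _ _ _))
      (kind_ne (by simp [uu]) (by simp [uu]) (pp_kind' _ _ _)).symm
      (kind_ne (by simp [uu]) (by simp [uu]) (pp_kind' _ _ _))
      (kind_ne (by simp [qq]) (by simp [qq]) (pp_kind' _ _ _)).symm (by simp [qq, uu]) ?_ ?_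
    · intro f hf
      refine mem_gridFaces.2 (Or.inr (Or.inl ⟨c, hc, r, hr, ?_⟩))
      unfold railFaces
      rw [if_pos hB]
      exact List.mem_append_right _ hf
    · intro j h1 h2 w hw
      obtain ⟨f, hf, hd, hm⟩ := nd_dart hw
      rcases nd_face hf hm with h | h | h | h | h
      · omega
      · omega
      · exact ⟨f, h.2.2, hd⟩
      all_goals omega
  · intro r c hr hc hB
    have hf : [qq r c, pp N (r + 1) (c + 1), uu r (c + 1), pp N r (c + 1)] ∈
        gridFaces N M B := by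
      refine mem_gridFaces.2 (Or.inr (Or.inl ⟨c, hc, r, hr, ?_⟩))
      unfold railFaces thin
      rw [if_neg (by simp [hB])]
      simp
    have hc4 := corners4 (qq r c) (pp N (r + 1) (c + 1)) (uu r (c + 1)) (pp N r (c + 1))
    have m1 : (qq r c, pp N (r + 1) (c + 1), uu r (c + 1)) ∈
        cornersOf [qq r c, pp N (r + 1) (c + 1), uu r (c + 1), pp N r (c + 1)] := by
      rw [hc4]; simp
    have m2 : (pp N (r + 1) (c + 1), uu r (c + 1), pp N r (c + 1)) ∈
        cornersOf [qq r c, pp N (r + 1) (c + 1), uu r (c + 1), pp N r (c + 1)] := by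
      rw [hc4]; simp
    have m3 : (uu r (c + 1), pp N r (c + 1), qq r c) ∈
        cornersOf [qq r c, pp N (r + 1) (c + 1), uu r (c + 1), pp N r (c + 1)] := by
      rw [hc4]; simp
    have m4 : (pp N r (c + 1), qq r c, pp N (r + 1) (c + 1)) ∈
        cornersOf [qq r c, pp N (r + 1) (c + 1), uu r (c + 1), pp N r (c + 1)] := by
      rw [hc4]; simp
    have n1 := nopp (r + 1) c (by omega) hc _ hf _ _ m1 (by simp [qq])
    have n3 := nopp r c (by omega) hc _ hf _ _ m3 (by simp [uu])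
    have mid : ∀ {k l : VX × VX × VX}, k.2.1 ≠ l.2.1 → k ≠ l := fun h e => h (by rw [e])
    have hqp : ∀ b, qq r c ≠ pp N b (c + 1) := fun b =>
      kind_ne (by simp [qq]) (by simp [qq]) (pp_kind' _ _ _)
    have hup : ∀ b, uu r (c + 1) ≠ pp N b (c + 1) := fun b =>
      kind_ne (by simp [uu]) (by simp [uu]) (pp_kind' _ _ _)
    have hpp : pp N (r + 1) (c + 1) ≠ pp N r (c + 1) := by
      by_cases h0 : r = 0
      · subst h0
        rw [pp_zero, pp_of (by omega) (by omega)]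
        simp [s1]
      · rw [pp_of (b := r) (by omega) hr]
        by_cases h1 : r + 1 = N
        · rw [h1, pp_last c hN]
          simp [s2]
        · rw [pp_of (by omega) (by omega)]
          simp
    rcases not_four (hF.three _ hf) m1 m2 m3 m4 (mid (hup (r + 1)).symm) (mid hpp)
      (mid (hqp (r + 1)).symm) (mid (hup r)) (mid (by simp [uu, qq])) (mid (hqp r).symm)
      with h | h | h | h
    · exact absurd h n1
    · exact Or.inr h
    · exact absurd h n3
    · exact Or.inl h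
  · intro r hr hr1
    refine tile_flat (i := 18) (b := s1) hF (by simp [uu]) (by simp [s1]) (by simp [uu])
      (hy_kind N (r + 1) 0) (by simp [uu, s1]) (by simp [uu, s1])
      (kind_ne (by simp [uu]) (by simp [uu]) (hy_kind' _ _ _))
      (kind_ne (by simp [uu]) (by simp [uu]) (hy_kind' _ _ _)).symm (by simp [uu]) ?_ ?_
    · intro f hf
      refine mem_gridFaces.2 (Or.inr (Or.inr (Or.inl ⟨0, by omega, r, hr1, ?_⟩)))
      unfold bandFaces leftFaces
      rw [if_pos ⟨rfl, hr⟩]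
      exact List.mem_append_left _ (List.mem_append_left _ hf)
    · intro j h1 h2 w hw
      obtain ⟨f, hf, hd, hm⟩ := nd_dart hw
      rcases nd_face hf hm with h | h | h | h | h
      · omega
      · omega
      · omega
      · exact ⟨f, h.2.2.1, hd⟩
      · omega

end Pool.Agent.SLN
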