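import Pool.Agent.SLN.Lib

set_option autoImplicit false

/-!
# E-ONE: a closed set without exits is empty
-/

namespace Pool.Agent.SLN

open Pool.Agent.PAH (Plane det3 ccwAngle LiesLeft dartsOf cornersOf ChainEq FanPos)

namespace ONE_

variable {N M : ℕ} {B : ℕ → ℕ → Bool} {R : ℕ → Bool} {S : VX → VX → Prop} {X : Set VX}

/-- inner vertices of a tile -/
lemma tile_out {a b c d : VX} {r k i : ℕ} (hX : ∀ v ∈ X, ∀ w, S v w → w ∈ X)
    (h : TileArcs S a b c d r k i) (hb : b ∉ X) (hd : d ∉ X) :
    ∀ j, j < 6 → nd r k (i + j) ∉ X := by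
  have step : ∀ v w, S v w → w ∉ X → v ∉ X := fun v w h1 h2 h3 => h2 (hX v h3 w h1)
  have h0 := step _ _ h.a0 hb
  have h2 := step _ _ h.a5 h0
  have h1 := step _ _ h.a3 h2
  have h5 := step _ _ h.a6 hd
  have h4 := step _ _ h.a11 h5
  have h3 := step _ _ h.a9 h4
  intro j hj
  have : j = 0 ∨ j = 1 ∨ j = 2 ∨ j = 3 ∨ j = 4 ∨ j = 5 := by omega
  rcases this with rfl | rfl | rfl | rfl | rfl | rfl
  · exact h0
  · exact h1
  · exact h2
  · exact h3
  · exact h4
  · exact h5

/-- vertices of the faces of a tile -/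
lemma tile_mem {a b c d : VX} {r k i : ℕ} {f : List VX} (hf : f ∈ tile a b c d r k i) {v : VX}
    (hv : v ∈ f) : v = a ∨ v = b ∨ v = c ∨ v = d ∨ ∃ j, j < 6 ∧ v = nd r k (i + j) := by
  unfold tile prism at hf
  simp only [List.cons_append, List.nil_append, List.mem_cons, List.not_mem_nil, or_false] at hf
  rcases hf with rfl | rfl | rfl | rfl | rfl | rfl | rfl <;>
    simp only [List.mem_cons, List.not_mem_nil, or_false] at hv
  · rcases hv with rfl | rfl | rfl | rfl
    · exact Or.inl rfl
    · exact Or.inr (Or.inl rfl)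
    · exact Or.inr (Or.inr (Or.inr (Or.inr ⟨0, by omega, rfl⟩)))
    · exact Or.inr (Or.inr (Or.inr (Or.inr ⟨1, by omega, rfl⟩)))
  · rcases hv with rfl | rfl | rfl | rfl
    · exact Or.inr (Or.inr (Or.inr (Or.inr ⟨0, by omega, rfl⟩)))
    · exact Or.inr (Or.inl rfl)
    · exact Or.inr (Or.inr (Or.inl rfl))
    · exact Or.inr (Or.inr (Or.inr (Or.inr ⟨2, by omega, rfl⟩)))
  · rcases hv with rfl | rfl | rfl
    · exact Or.inr (Or.inr (Or.inr (Or.inr ⟨1, by omega, rfl⟩)))
    · exact Or.inr (Or.inr (Or.inr (Or.inr ⟨0, by omega, rfl⟩)))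
    · exact Or.inr (Or.inr (Or.inr (Or.inr ⟨2, by omega, rfl⟩)))
  · rcases hv with rfl | rfl | rfl | rfl
    · exact Or.inr (Or.inr (Or.inl rfl))
    · exact Or.inr (Or.inr (Or.inr (Or.inl rfl)))
    · exact Or.inr (Or.inr (Or.inr (Or.inr ⟨5, by omega, rfl⟩)))
    · exact Or.inr (Or.inr (Or.inr (Or.inr ⟨3, by omega, rfl⟩)))
  · rcases hv with rfl | rfl | rfl | rfl
    · exact Or.inr (Or.inr (Or.inr (Or.inr ⟨5, by omega, rfl⟩)))
    · exact Or.inr (Or.inr (Or.inr (Or.inl rfl)))
    · exact Or.inl rfl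
    · exact Or.inr (Or.inr (Or.inr (Or.inr ⟨4, by omega, rfl⟩)))
  · rcases hv with rfl | rfl | rfl
    · exact Or.inr (Or.inr (Or.inr (Or.inr ⟨3, by omega, rfl⟩)))
    · exact Or.inr (Or.inr (Or.inr (Or.inr ⟨5, by omega, rfl⟩)))
    · exact Or.inr (Or.inr (Or.inr (Or.inr ⟨4, by omega, rfl⟩)))
  · rcases hv with rfl | rfl | rfl | rfl | rfl | rfl
    · exact Or.inl rfl
    · exact Or.inr (Or.inr (Or.inr (Or.inr ⟨1, by omega, rfl⟩)))
    · exact Or.inr (Or.inr (Or.inr (Or.inr ⟨2, by omega, rfl⟩)))
    · exact Or.inr (Or.inr (Or.inl rfl))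
    · exact Or.inr (Or.inr (Or.inr (Or.inr ⟨3, by omega, rfl⟩)))
    · exact Or.inr (Or.inr (Or.inr (Or.inr ⟨4, by omega, rfl⟩)))

lemma tile_faces_out {a b c d : VX} {r k i : ℕ} (hX : ∀ v ∈ X, ∀ w, S v w → w ∈ X)
    (h : TileArcs S a b c d r k i) (ha : a ∉ X) (hb : b ∉ X) (hc : c ∉ X) (hd : d ∉ X)
    {f : List VX} (hf : f ∈ tile a b c d r k i) {v : VX} (hv : v ∈ f) : v ∉ X := by
  rcases tile_mem hf hv with rfl | rfl | rfl | rfl | ⟨j, hj, rfl⟩
  · exact ha
  · exact hb
  · exact hc
  · exact hd
  · exact tile_out hX h hb hd j hj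

end ONE_

open ONE_ in
/-- E-ONE -/
theorem tOne : TOne := by
  intro N M B R S hN hNe hM hP hA X hs hX hhub v hv hw
  have h1 : s1 ∉ X := fun h => (hs _ h).1 rfl
  have h2 : s2 ∉ X := fun h => (hs _ h).2.1 rfl
  have h3 : s3 ∉ X := fun h => (hs _ h).2.2 rfl
  have step : ∀ v w, S v w → w ∉ X → v ∉ X := fun v w h1 h2 h3 => h2 (hX v h3 w h1)
  have hub' : ∀ i b c, (i = 6 ∨ i = 7 ∨ i = 8) → b ≤ N → c < M → hub N i b c ∉ X := by
    intro i b c hi hb hc
    rcases Nat.eq_zero_or_pos b with rfl | hb0
    · exact h1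
    rcases Nat.eq_or_lt_of_le hb with rfl | hb1
    · rw [hub_last _ _ hN]; exact h2
    · have := hhub b c hb0 hb1 hc
      rcases hi with rfl | rfl | rfl
      · exact this.1
      · exact this.2.1
      · exact this.2.2
  have hY : ∀ b c, b ≤ N → c < M → hy N b c ∉ X := fun b c hb hc => hub' 6 b c (by simp) hb hc
  have hC : ∀ b c, b ≤ N → c < M → hc N b c ∉ X := fun b c hb hc => hub' 7 b c (by simp) hb hc
  have hD : ∀ b c, b ≤ N → c < M → hd N b c ∉ X := fun b c hb hc => hub' 8 b c (by simp) hb hc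
  -- dead gadgets
  have n30 : ∀ b c, 1 ≤ b → b < N → c < M → nd b c 30 ∉ X := fun b c h1 h2 h3 =>
    step _ _ (hA.d30 b c h1 h2 h3).1 (hD b c h2.le h3)
  have n32 : ∀ b c, 1 ≤ b → b < N → c < M → nd b c 32 ∉ X := fun b c h1 h2 h3 =>
    step _ _ (hA.d32 b c h1 h2 h3).2 (n30 b c h1 h2 h3)
  have n31 : ∀ b c, 1 ≤ b → b < N → c < M → nd b c 31 ∉ X := fun b c h1 h2 h3 =>
    step _ _ (hA.d31 b c h1 h2 h3).2 (n32 b c h1 h2 h3)
  have n24 : ∀ b c, 1 ≤ b → b < N → c < M → nd b c 24 ∉ X := fun b c h1 h2 h3 =>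
    step _ _ (hA.d24 b c h1 h2 h3).1 (hC b c h2.le h3)
  have n26 : ∀ b c, 1 ≤ b → b < N → c < M → nd b c 26 ∉ X := fun b c h1 h2 h3 =>
    step _ _ (hA.d26 b c h1 h2 h3).2 (n24 b c h1 h2 h3)
  have n25 : ∀ b c, 1 ≤ b → b < N → c < M → nd b c 25 ∉ X := fun b c h1 h2 h3 =>
    step _ _ (hA.d25 b c h1 h2 h3).2 (n26 b c h1 h2 h3)
  have n27 : ∀ b c, 1 ≤ b → b < N → c < M → nd b c 27 ∉ X := fun b c h1 h2 h3 =>
    step _ _ (hA.d27 b c h1 h2 h3).1 (hY b c h2.le h3)
  have n28 : ∀ b c, 1 ≤ b → b < N → c < M → nd b c 28 ∉ X := fun b c h1 h2 h3 =>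
    step _ _ (hA.d28 b c h1 h2 h3).2 (n27 b c h1 h2 h3)
  have n29 : ∀ b c, 1 ≤ b → b < N → c < M → nd b c 29 ∉ X := fun b c h1 h2 h3 =>
    step _ _ (hA.d29 b c h1 h2 h3).2 (n28 b c h1 h2 h3)
  have nv : ∀ b c, 1 ≤ b → b < N → c < M → vv b c ∉ X := fun b c h1 h2 h3 =>
    step _ _ (hA.v b c h1 h2 h3).1 (n26 b c h1 h2 h3)
  have nw : ∀ b c, 1 ≤ b → b < N → c < M → ww b c ∉ X := fun b c h1 h2 h3 =>
    step _ _ (hA.w b c h1 h2 h3).1 (n29 b c h1 h2 h3)
  have hPp : ∀ b c, b ≤ N → c < M → pp N b (c + 1) ∉ X := by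
    intro b c hb hc
    rcases Nat.eq_zero_or_pos b with rfl | hb0
    · rw [pp_zero]; exact h1
    rcases Nat.eq_or_lt_of_le hb with rfl | hb1
    · rw [pp_last _ hN]; exact h2
    · exact step _ _ (hA.p b c hb0 hb1 hc).1 (n32 b c hb0 hb1 hc)
  have hPp' : ∀ b c, b ≤ N → c ≤ M → pp N b c ∉ X := by
    intro b c hb hc
    rcases Nat.eq_zero_or_pos c with rfl | hc0
    · rw [pp_border]; exact h1
    · obtain ⟨k, rfl⟩ : ∃ k, c = k + 1 := ⟨c - 1, by omega⟩
      exact hPp b k hb (by omega)
  -- tiles
  have tA : ∀ r c, r < N → c < M → ∀ j, j < 6 → nd r c (0 + j) ∉ X := fun r c hr hc =>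
    tile_out hX (hA.tA r c hr hc) (hY _ _ (by omega) hc) (hY _ _ (by omega) hc)
  have tB : ∀ r c, r < N → c < M → ∀ j, j < 6 → nd r c (6 + j) ∉ X := fun r c hr hc =>
    tile_out hX (hA.tB r c hr hc) (hC _ _ (by omega) hc) (hD _ _ (by omega) hc)
  have tW : ∀ r c, r < N → c < M → B r c = true → ∀ j, j < 6 → nd r c (12 + j) ∉ X :=
    fun r c hr hc hB =>
    tile_out hX (hA.tW r c hr hc hB) (hPp _ _ (by omega) hc) (hPp _ _ (by omega) hc)
  have tV : ∀ r, r % 2 = 0 → r + 1 < N → ∀ j, j < 6 → nd r 0 (18 + j) ∉ X := fun r hr hr1 =>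
    tile_out hX (hA.tV r hr hr1) h1 (hY _ _ (by omega) (by omega))
  -- rails
  have hx : ∀ r c, r < N → c < M → xx r c ∉ X := by
    intro r c hr hc
    rcases hR : R r with _ | _
    · exact step _ _ (hA.xL r c hr hc hR).1 (tB r c hr hc 4 (by omega))
    · exact step _ _ (hA.xR r c hr hc hR).1 (tA r c hr hc 2 (by omega))
  have hq : ∀ r c, r < N → c < M → qq r c ∉ X := by
    intro r c hr hc
    rcases hR : R r with _ | _
    · rcases hB : B r c with _ | _
      · exact step _ _ (hA.qL r c hr hc hR hB).1 (hPp _ _ (by omega) hc)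
      · exact step _ _ (hA.qLW r c hr hc hR hB).1 (tW r c hr hc hB 4 (by omega))
    · exact step _ _ (hA.qR r c hr hc hR).1 (tB r c hr hc 2 (by omega))
  have hu : ∀ r c, r < N → c ≤ M → uu r c ∉ X := by
    intro r c hr hc
    rcases hR : R r with _ | _
    · rcases Nat.eq_or_lt_of_le hc with rfl | hc'
      · exact step _ _ (hA.uM r hr hR).1 h3
      · exact step _ _ (hA.uL r c hr hc' hR).1 (tA r c hr hc' 4 (by omega))
    · rcases Nat.eq_zero_or_pos c with rfl | hc0
      · rcases Nat.mod_two_eq_zero_or_one r with h | h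
        · exact step _ _ (hA.u0e r h (by omega) hR).1 (tV r h (by omega) 4 (by omega))
        · obtain ⟨k, rfl⟩ : ∃ k, r = k + 1 := ⟨r - 1, by omega⟩
          exact step _ _ (hA.u0o k (by omega) (by omega) hR).1
            (tV k (by omega) (by omega) 2 (by omega))
      · obtain ⟨k, rfl⟩ : ∃ k, c = k + 1 := ⟨c - 1, by omega⟩
        rcases hB : B r k with _ | _
        · exact step _ _ (hA.uR r k hr (by omega) hR hB).1 (hPp _ _ (by omega) (by omega))
        · exact step _ _ (hA.uRW r k hr (by omega) hR hB).1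
            (tW r k hr (by omega) hB 2 (by omega))
  -- all vertices of faces
  have hall : ∀ f ∈ gridFaces N M B, ∀ v ∈ f, v ∉ X := by
    intro f hf v hv
    rcases mem_gridFaces.1 hf with rfl | ⟨c, hc, r, hr, hf⟩ | ⟨c, hc, r, hr, hf⟩ | ⟨r, hr, hf⟩
    · simp only [List.mem_cons, List.not_mem_nil, or_false] at hv
      rcases hv with rfl | rfl | rfl
      · exact h1
      · exact h2
      · exact hu _ _ (by omega) (by omega)
    · unfold railFaces at hf
      rw [List.mem_append, List.mem_append] at hf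
      rcases hf with (hf | hf) | hf
      · exact tile_faces_out hX (hA.tA r c hr hc) (hu _ _ hr hc.le) (hY _ _ (by omega) hc)
          (hx _ _ hr hc) (hY _ _ (by omega) hc) hf hv
      · exact tile_faces_out hX (hA.tB r c hr hc) (hx _ _ hr hc) (hC _ _ (by omega) hc)
          (hq _ _ hr hc) (hD _ _ (by omega) hc) hf hv
      · rcases hB : B r c with _ | _
        · rw [hB] at hf
          simp only [Bool.false_eq_true, if_false, thin, List.mem_singleton] at hf
          subst hf
          simp only [List.mem_cons, List.not_mem_nil, or_false] at hv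
          rcases hv with rfl | rfl | rfl | rfl
          · exact hq _ _ hr hc
          · exact hPp _ _ (by omega) hc
          · exact hu _ _ hr (by omega)
          · exact hPp _ _ (by omega) hc
        · rw [hB] at hf
          simp only [if_true] at hf
          exact tile_faces_out hX (hA.tW r c hr hc hB) (hq _ _ hr hc) (hPp _ _ (by omega) hc)
            (hu _ _ hr (by omega)) (hPp _ _ (by omega) hc) hf hv
    · unfold bandFaces at hf
      rw [List.mem_append, List.mem_append] at hf
      rcases hf with (hf | hf) | hf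
      · unfold leftFaces at hf
        split_ifs at hf with hcr
        · obtain ⟨rfl, hr2⟩ := hcr
          exact tile_faces_out hX (hA.tV r hr2 hr) (hu _ _ (by omega) (by omega)) h1
            (hu _ _ (by omega) (by omega)) (hY _ _ (by omega) hc) hf hv
        · simp only [List.mem_cons, List.not_mem_nil, or_false] at hf
          rcases hf with rfl | rfl <;> simp only [List.mem_cons, List.not_mem_nil, or_false] at hv
          · rcases hv with rfl | rfl | rfl
            · exact hPp' _ _ (by omega) hc.le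
            · exact hY _ _ (by omega) hc
            · exact hu _ _ (by omega) hc.le
          · rcases hv with rfl | rfl | rfl
            · exact hPp' _ _ (by omega) hc.le
            · exact hu _ _ (by omega) hc.le
            · exact hY _ _ (by omega) hc
      · unfold midFaces at hf
        simp only [List.mem_cons, List.not_mem_nil, or_false] at hf
        rcases hf with rfl | rfl | rfl | rfl | rfl | rfl <;>
          simp only [List.mem_cons, List.not_mem_nil, or_false] at hv
        · rcases hv with rfl | rfl | rfl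
          · exact hY _ _ (by omega) hc
          · exact hC _ _ (by omega) hc
          · exact hx _ _ (by omega) hc
        · rcases hv with rfl | rfl | rfl
          · exact hY _ _ (by omega) hc
          · exact hx _ _ (by omega) hc
          · exact hD _ _ (by omega) hc
        · rcases hv with rfl | rfl | rfl
          · exact hC _ _ (by omega) hc
          · exact hY _ _ (by omega) hc
          · exact nv _ _ (by omega) (by omega) hc
        · rcases hv with rfl | rfl | rfl
          · exact hY _ _ (by omega) hc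
          · exact hD _ _ (by omega) hc
          · exact nw _ _ (by omega) (by omega) hc
        · rcases hv with rfl | rfl | rfl
          · exact hq _ _ (by omega) hc
          · exact hC _ _ (by omega) hc
          · exact hPp _ _ (by omega) hc
        · rcases hv with rfl | rfl | rfl
          · exact hD _ _ (by omega) hc
          · exact hq _ _ (by omega) hc
          · exact hPp _ _ (by omega) hc
      · have a1 : 1 ≤ r + 1 := by omega
        have k24 := n24 (r + 1) c a1 hr hc
        have k25 := n25 (r + 1) c a1 hr hc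
        have k26 := n26 (r + 1) c a1 hr hc
        have k27 := n27 (r + 1) c a1 hr hc
        have k28 := n28 (r + 1) c a1 hr hc
        have k29 := n29 (r + 1) c a1 hr hc
        have k30 := n30 (r + 1) c a1 hr hc
        have k31 := n31 (r + 1) c a1 hr hc
        have k32 := n32 (r + 1) c a1 hr hc
        have kv := nv (r + 1) c a1 hr hc
        have kw := nw (r + 1) c a1 hr hc
        have kp := hPp (r + 1) c hr.le hc
        have ky := hY (r + 1) c hr.le hc
        have kc := hC (r + 1) c hr.le hc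
        have kd := hD (r + 1) c hr.le hc
        unfold deadFaces prism centre at hf
        simp only [List.cons_append, List.nil_append, List.mem_cons, List.not_mem_nil,
          or_false] at hf
        rcases hf with rfl | rfl | rfl | rfl | rfl | rfl | rfl | rfl | rfl | rfl <;>
          simp only [List.mem_cons, List.not_mem_nil, or_false] at hv
        · rcases hv with rfl | rfl | rfl | rfl <;> assumption
        · rcases hv with rfl | rfl | rfl | rfl <;> assumption
        · rcases hv with rfl | rfl | rfl <;> assumption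
        · rcases hv with rfl | rfl | rfl | rfl <;> assumption
        · rcases hv with rfl | rfl | rfl | rfl <;> assumption
        · rcases hv with rfl | rfl | rfl <;> assumption
        · rcases hv with rfl | rfl | rfl | rfl <;> assumption
        · rcases hv with rfl | rfl | rfl | rfl <;> assumption
        · rcases hv with rfl | rfl | rfl <;> assumption
        · rcases hv with rfl | rfl | rfl | rfl | rfl | rfl | rfl | rfl | rfl <;> assumption
    · unfold rightFaces at hf
      simp only [List.mem_cons, List.not_mem_nil, or_false] at hf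
      rcases hf with rfl | rfl <;> simp only [List.mem_cons, List.not_mem_nil, or_false] at hv
      · rcases hv with rfl | rfl | rfl
        · exact hu _ _ hr le_rfl
        · exact hPp' _ _ (by omega) le_rfl
        · exact h3
      · rcases hv with rfl | rfl | rfl
        · exact hPp' _ _ (by omega) le_rfl
        · exact hu _ _ hr le_rfl
        · exact h3
  obtain ⟨w, hw⟩ := hw
  have hfst : ∀ (f : List VX) (d : VX × VX), d ∈ dartsOf f → d.1 ∈ f := by
    intro f d hd
    exact (List.of_mem_zip hd).1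
  rcases mem_gridDarts.1 hw with hd | ⟨f, hf, hd⟩
  · have := hfst _ _ hd
    simp only [List.mem_cons, List.not_mem_nil, or_false] at this
    rcases this with h | h | h
    · exact (hs v hv).1 h
    · exact (hs v hv).2.2 h
    · exact (hs v hv).2.1 h
  · exact hall f hf v (hfst _ _ hd) hv

end Pool.Agent.SLN
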