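import Pool.Agent.SLN.Targets

set_option autoImplicit false

/-!
# G-RELABEL: relabelling the vertices
-/

namespace Pool.Agent.SLN

open Pool.Agent.PAH (Plane det3 ccwAngle LiesLeft dartsOf cornersOf)

namespace Relabel

variable {V W : Type}

lemma dartsOf_map (g : V → W) (w : List V) :
    dartsOf (w.map g) = (dartsOf w).map (Prod.map g g) := by
  unfold dartsOf
  rw [← List.map_rotate, List.zip_map]

lemma cornersOf_map (g : V → W) (w : List V) :
    cornersOf (w.map g) = (cornersOf w).map (Prod.map g (Prod.map g g)) := by
  unfold cornersOf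
  rw [← List.map_rotate, ← List.map_rotate, List.zip_map, List.zip_map]

lemma walks_map (g : V → W) (G : PlaneMap V) :
    (G.map g).walks = G.walks.map (List.map g) := by
  simp [PlaneMap.walks, PlaneMap.map]

lemma darts_map (g : V → W) (G : PlaneMap V) :
    (G.map g).darts = G.darts.map (Prod.map g g) := by
  unfold PlaneMap.darts
  rw [walks_map, List.flatMap_map, List.map_flatMap]
  simp only [dartsOf_map]

lemma drawn_map (g : V → W) (G : PlaneMap V) (p' : W → Plane) (p : V → Plane)
    (h : ∀ v, p' (g v) = p v) : (G.map g).drawn p' = G.drawn p := by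
  unfold PlaneMap.drawn
  rw [darts_map]
  ext x
  constructor
  · rintro ⟨d, hd, hx⟩
    obtain ⟨e, he, rfl⟩ := List.mem_map.1 hd
    refine ⟨e, he, ?_⟩
    simpa [h] using hx
  · rintro ⟨e, he, hx⟩
    refine ⟨_, List.mem_map_of_mem he, ?_⟩
    simpa [h] using hx

lemma isFace_map (g : V → W) (G : PlaneMap V) (p' : W → Plane) (p : V → Plane)
    (h : ∀ v, p' (g v) = p v) (w : List V) (R : Set Plane) :
    IsFace (G.map g) p' (w.map g) R ↔ IsFace G p w R := by
  constructor
  · rintro ⟨h1, h2⟩
    refine ⟨?_, ?_⟩
    · rw [drawn_map g G p' p h] at h1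
      exact h1
    · intro d hd
      have := h2 (Prod.map g g d) (by
        rw [dartsOf_map]
        exact List.mem_map_of_mem hd)
      simpa [h] using this
  · rintro ⟨h1, h2⟩
    refine ⟨?_, ?_⟩
    · rw [drawn_map g G p' p h]
      exact h1
    · intro d hd
      rw [dartsOf_map] at hd
      obtain ⟨e, he, rfl⟩ := List.mem_map.1 hd
      simpa [h] using h2 e he

lemma inner_length (g : V → W) (G : PlaneMap V) : (G.map g).inner.length = G.inner.length := by
  simp [PlaneMap.map]

lemma inner_get (g : V → W) (G : PlaneMap V) (i : Fin (G.map g).inner.length) :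
    (G.map g).inner.get i = (G.inner.get (Fin.cast (inner_length g G) i)).map g := by
  have key : ∀ (l : List (List V)) (j : ℕ)
      (h1 : j < (l.map (List.map g)).length) (h2 : j < l.length),
      (l.map (List.map g))[j] = (l[j]).map g := by
    intro l j h1 h2
    rw [List.getElem_map]
  exact key G.inner i.1 i.2 _

/-- a drawing of `G` gives a drawing of the relabelled map -/
def toMap (g : V → W) (hg : Function.Injective g) (G : PlaneMap V) (D : Drawing G)
    (p' : W → Plane) (h : ∀ v, p' (g v) = D.pos v) : Drawing (G.map g) where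
  pos := p'
  nodup := by
    rw [darts_map]
    exact D.nodup.map (hg.prodMap hg)
  symm := by
    intro d hd
    rw [darts_map] at hd ⊢
    obtain ⟨e, he, rfl⟩ := List.mem_map.1 hd
    exact List.mem_map.2 ⟨e.swap, D.symm e he, rfl⟩
  loopless := by
    intro d hd
    rw [darts_map] at hd
    obtain ⟨e, he, rfl⟩ := List.mem_map.1 hd
    intro h1
    exact D.loopless e he (hg h1)
  inj := by
    intro d hd e he h1
    rw [darts_map] at hd he
    obtain ⟨d', hd', rfl⟩ := List.mem_map.1 hd
    obtain ⟨e', he', rfl⟩ := List.mem_map.1 he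
    simp only [Prod.map_fst, h] at h1 ⊢
    rw [D.inj d' hd' e' he' h1]
  noncrossing := by
    intro d hd e he h1 h2 x hx1 hx2
    rw [darts_map] at hd he
    obtain ⟨d', hd', rfl⟩ := List.mem_map.1 hd
    obtain ⟨e', he', rfl⟩ := List.mem_map.1 he
    simp only [Prod.map_fst, Prod.map_snd, h] at hx1 hx2
    obtain ⟨v, hv1, hv2, hv3⟩ := D.noncrossing d' hd' e' he' (fun hc => h1 (by rw [hc]))
      (fun hc => h2 (by rw [hc]; rfl)) x hx1 hx2
    refine ⟨g v, ?_, ?_, by rw [h]; exact hv3⟩
    · rcases hv1 with rfl | rfl
      · exact Or.inl rfl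
      · exact Or.inr rfl
    · rcases hv2 with hv | hv
      · exact Or.inl (by rw [hv]; rfl)
      · exact Or.inr (by rw [hv]; rfl)
  rotation := by
    intro f hf c hc x hx hne
    rw [walks_map] at hf
    obtain ⟨f', hf', rfl⟩ := List.mem_map.1 hf
    rw [cornersOf_map] at hc
    obtain ⟨c', hc', rfl⟩ := List.mem_map.1 hc
    rw [darts_map] at hx
    obtain ⟨e, he, hex⟩ := List.mem_map.1 hx
    have h1 : g e.1 = g c'.2.1 := congrArg Prod.fst hex
    have h2 : g e.2 = x := congrArg Prod.snd hex
    have h3 : e.1 = c'.2.1 := hg h1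
    subst h2
    simp only [Prod.map_fst, Prod.map_snd, h] at hne ⊢
    refine D.rotation f' hf' c' hc' e.2 ?_ (fun hc => hne (by rw [hc]))
    rw [← h3]
    exact he
  outerFace := D.outerFace
  face := fun i => D.face (Fin.cast (inner_length g G) i)
  outer_isFace := (isFace_map g G p' D.pos h _ _).2 D.outer_isFace
  outer_unbounded := D.outer_unbounded
  face_isFace := by
    intro i
    rw [inner_get]
    exact (isFace_map g G p' D.pos h _ _).2 (D.face_isFace _)
  face_bounded := fun i => D.face_bounded _
  face_inj := D.face_inj.comp (Fin.cast_injective _)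

/-- a drawing of the relabelled map gives a drawing of `G` -/
def ofMap (g : V → W) (hg : Function.Injective g) (G : PlaneMap V) (D : Drawing (G.map g)) :
    Drawing G where
  pos := fun v => D.pos (g v)
  nodup := by
    have h := D.nodup
    rw [darts_map] at h
    exact h.of_map _
  symm := by
    intro d hd
    have h := D.symm (Prod.map g g d) (by
      rw [darts_map]
      exact List.mem_map_of_mem hd)
    rw [darts_map] at h
    obtain ⟨e, he, hes⟩ := List.mem_map.1 h
    have h1 : e = d.swap := hg.prodMap hg hes
    rw [← h1]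
    exact he
  loopless := by
    intro d hd h1
    exact D.loopless (Prod.map g g d) (by
      rw [darts_map]
      exact List.mem_map_of_mem hd) (congrArg g h1)
  inj := by
    intro d hd e he h1
    have h := D.inj (Prod.map g g d) (by
      rw [darts_map]
      exact List.mem_map_of_mem hd) (Prod.map g g e) (by
      rw [darts_map]
      exact List.mem_map_of_mem he) h1
    exact hg h
  noncrossing := by
    intro d hd e he h1 h2 x hx1 hx2
    obtain ⟨v, hv1, hv2, hv3⟩ := D.noncrossing (Prod.map g g d) (by
      rw [darts_map]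
      exact List.mem_map_of_mem hd) (Prod.map g g e) (by
      rw [darts_map]
      exact List.mem_map_of_mem he) (fun hc => h1 (hg.prodMap hg hc))
      (fun hc => h2 (hg.prodMap hg hc)) x hx1 hx2
    rcases hv1 with rfl | rfl
    · refine ⟨d.1, Or.inl rfl, ?_, hv3⟩
      rcases hv2 with hv | hv
      · exact Or.inl (hg hv)
      · exact Or.inr (hg hv)
    · refine ⟨d.2, Or.inr rfl, ?_, hv3⟩
      rcases hv2 with hv | hv
      · exact Or.inl (hg hv)
      · exact Or.inr (hg hv)
  rotation := by
    intro f hf c hc x hx hne
    exact D.rotation (f.map g) (by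
      rw [walks_map]
      exact List.mem_map_of_mem hf) (Prod.map g (Prod.map g g) c) (by
      rw [cornersOf_map]
      exact List.mem_map_of_mem hc) (g x) (by
      rw [darts_map]
      exact List.mem_map_of_mem (f := Prod.map g g) hx) (fun hcc => hne (hg hcc))
  outerFace := D.outerFace
  face := fun i => D.face (Fin.cast (inner_length g G).symm i)
  outer_isFace := (isFace_map g G D.pos (fun v => D.pos (g v)) (fun _ => rfl) _ _).1
    D.outer_isFace
  outer_unbounded := D.outer_unbounded
  face_isFace := by
    intro i
    have h := D.face_isFace (Fin.cast (inner_length g G).symm i)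
    rw [inner_get] at h
    exact (isFace_map g G D.pos (fun v => D.pos (g v)) (fun _ => rfl) _ _).1 h
  face_bounded := fun i => D.face_bounded _
  face_inj := D.face_inj.comp (Fin.cast_injective _)

/-- a representation of `G` gives a representation of the relabelled map -/
def toMapS (g : V → W) (hg : Function.Injective g) (G : PlaneMap V) (S : SLTR G)
    (p' : W → Plane) (h : ∀ v, p' (g v) = S.pos v) : SLTR (G.map g) where
  toDrawing := toMap g hg G S.toDrawing p' h
  triangle := fun i => S.triangle (Fin.cast (inner_length g G) i)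
  nondegenerate := by
    change det3 (p' (g G.s₁)) (p' (g G.s₂)) (p' (g G.s₃)) ≠ 0
    rw [h, h, h]
    exact S.nondegenerate
  exterior := by
    change S.outerFace = (convexHull ℝ {p' (g G.s₁), p' (g G.s₂), p' (g G.s₃)})ᶜ
    rw [h, h, h]
    exact S.exterior

/-- a representation of the relabelled map gives a representation of `G` -/
def ofMapS (g : V → W) (hg : Function.Injective g) (G : PlaneMap V) (S : SLTR (G.map g)) :
    SLTR G where
  toDrawing := ofMap g hg G S.toDrawing
  triangle := fun i => S.triangle (Fin.cast (inner_length g G).symm i)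
  nondegenerate := S.nondegenerate
  exterior := S.exterior

lemma adj_map (g : V → W) (G : PlaneMap V) (x y : Option V) (h : G.Adj x y) :
    (G.map g).Adj (x.map g) (y.map g) := by
  have key : ∀ v : V, (v = G.s₁ ∨ v = G.s₂ ∨ v = G.s₃) →
      (g v = (G.map g).s₁ ∨ g v = (G.map g).s₂ ∨ g v = (G.map g).s₃) := by
    rintro v (rfl | rfl | rfl)
    · exact Or.inl rfl
    · exact Or.inr (Or.inl rfl)
    · exact Or.inr (Or.inr rfl)
  cases x with
  | none =>
    cases y with
    | none => exact h
    | some v => exact key v h
  | some u =>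
    cases y with
    | none => exact key u h
    | some v =>
      change (g u, g v) ∈ (G.map g).darts
      rw [darts_map]
      exact List.mem_map_of_mem (f := Prod.map g g) h

lemma vert_map (g : V → W) (G : PlaneMap V) (y : Option W) (h : (G.map g).Vert y) :
    ∃ x : Option V, G.Vert x ∧ x.map g = y := by
  cases y with
  | none => exact ⟨none, trivial, rfl⟩
  | some w =>
    obtain ⟨d, hd, hdw⟩ := h
    rw [darts_map] at hd
    obtain ⟨e, he, rfl⟩ := List.mem_map.1 hd
    exact ⟨some e.1, ⟨e, he, rfl⟩, by rw [← hdw]; rfl⟩

lemma path_map (g : V → W) (G : PlaneMap V) (a b : Option W)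
    (a' b' : Option V) (ha : ∀ y : Option V, y ≠ a' → y ≠ b' → y.map g ≠ a)
    (hb : ∀ y : Option V, y ≠ a' → y ≠ b' → y.map g ≠ b) (x y : Option V)
    (h : Relation.ReflTransGen (fun u v => G.Adj u v ∧ v ≠ a' ∧ v ≠ b') x y) :
    Relation.ReflTransGen (fun u v => (G.map g).Adj u v ∧ v ≠ a ∧ v ≠ b)
      (x.map g) (y.map g) := by
  induction h with
  | refl => exact Relation.ReflTransGen.refl
  | tail _ h2 ih =>
    exact ih.tail ⟨adj_map g G _ _ h2.1, ha _ h2.2.1 h2.2.2, hb _ h2.2.1 h2.2.2⟩

lemma conn_map (g : V → W) (hg : Function.Injective g) (G : PlaneMap V)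
    (hG : G.InternallyThreeConnected) : (G.map g).InternallyThreeConnected := by
  intro a b x y hx hy hxa hxb hya hyb
  obtain ⟨x, hx', rfl⟩ := vert_map g G x hx
  obtain ⟨y, hy', rfl⟩ := vert_map g G y hy
  by_cases ha : ∃ a' : Option V, a'.map g = a
  · obtain ⟨a', rfl⟩ := ha
    by_cases hb : ∃ b' : Option V, b'.map g = b
    · obtain ⟨b', rfl⟩ := hb
      refine path_map g G _ _ a' b' ?_ ?_ x y (hG a' b' x y hx' hy' ?_ ?_ ?_ ?_)
      · exact fun z h1 _ h => h1 (Option.map_injective hg h)
      · exact fun z _ h1 h => h1 (Option.map_injective hg h)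
      · exact fun h => hxa (by rw [h])
      · exact fun h => hxb (by rw [h])
      · exact fun h => hya (by rw [h])
      · exact fun h => hyb (by rw [h])
    · refine path_map g G _ _ a' a' ?_ ?_ x y (hG a' a' x y hx' hy' ?_ ?_ ?_ ?_)
      · exact fun z h1 _ h => h1 (Option.map_injective hg h)
      · exact fun z _ h1 h => hb ⟨z, h⟩
      · exact fun h => hxa (by rw [h])
      · exact fun h => hxa (by rw [h])
      · exact fun h => hya (by rw [h])
      · exact fun h => hya (by rw [h])
  · by_cases hb : ∃ b' : Option V, b'.map g = b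
    · obtain ⟨b', rfl⟩ := hb
      refine path_map g G _ _ b' b' ?_ ?_ x y (hG b' b' x y hx' hy' ?_ ?_ ?_ ?_)
      · exact fun z _ h1 h => ha ⟨z, h⟩
      · exact fun z h1 _ h => h1 (Option.map_injective hg h)
      · exact fun h => hxb (by rw [h])
      · exact fun h => hxb (by rw [h])
      · exact fun h => hyb (by rw [h])
      · exact fun h => hyb (by rw [h])
    · by_cases hc : ∃ c : Option V, x ≠ c ∧ y ≠ c
      · obtain ⟨c, hxc, hyc⟩ := hc
        refine path_map g G _ _ c c ?_ ?_ x y (hG c c x y hx' hy' hxc hxc hyc hyc)
        · exact fun z _ _ h => ha ⟨z, h⟩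
        · exact fun z _ _ h => hb ⟨z, h⟩
      · push Not at hc
        by_cases hxy : x = y
        · subst hxy
          exact Relation.ReflTransGen.refl
        · refine Relation.ReflTransGen.single ⟨adj_map g G _ _ ?_, hya, hyb⟩
          have key : ∀ v : V, x ≠ some v → y = some v := by
            intro v hv
            exact hc (some v) hv
          cases x with
          | none =>
            cases y with
            | none => exact absurd rfl hxy
            | some v =>
              have h1 := key G.s₁ (by simp)
              exact Or.inl (Option.some_injective _ h1)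
          | some u =>
            cases y with
            | none =>
              refine Or.inl ?_
              by_contra hne
              have h1 := key G.s₁ (fun h => hne (Option.some_injective _ h))
              exact absurd h1 (by simp)
            | some v =>
              have h1 := hc none (by simp)
              exact absurd h1 (by simp)

end Relabel

open Relabel in
/-- G-RELABEL -/
theorem tRelabel : TRelabel := by
  intro V W G g hg
  have hpos : ∀ p : V → Plane, ∃ p' : W → Plane, ∀ v, p' (g v) = p v := fun p =>
    ⟨Function.extend g p (fun _ => 0), fun v => hg.extend_apply p _ v⟩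
  refine ⟨⟨?_, ?_⟩, ?_, ?_⟩
  · rintro ⟨S⟩
    exact ⟨ofMapS g hg G S⟩
  · rintro ⟨S⟩
    obtain ⟨p', hp'⟩ := hpos S.pos
    exact ⟨toMapS g hg G S p' hp'⟩
  · rintro ⟨D⟩
    obtain ⟨p', hp'⟩ := hpos D.pos
    exact ⟨toMap g hg G D p' hp'⟩
  · exact conn_map g hg G

end Pool.Agent.SLN
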