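import Pool.Agent.SLN.Cyc
import Pool.Agent.PAH.Rot

set_option autoImplicit false

/-!
# G-ROT: the corners at a vertex of a drawing form one cycle
-/

namespace Pool.Agent.SLN

open Pool.Agent.PAH (Plane det3 ccwAngle LiesLeft dartsOf cornersOf)
open Pool.Agent.PAH.Rot (th vec)

namespace ROT_

variable {V : Type} {G : PlaneMap V}

theorem pos_ne (D : Drawing G) {v z : V} (h : (v, z) ∈ G.darts) : D.pos v ≠ D.pos z := by
  intro he
  have h2 : (z, v) ∈ G.darts := D.symm _ h
  exact D.loopless _ h (D.inj _ h _ h2 he)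

/-- a point on a ray, not farther than the end point -/
theorem mem_segment_of_ray {a b c : Plane} {r : ℝ} (h0 : 0 < r) (h1 : r ≤ 1)
    (h : vec a c = r * vec a b) : c ∈ segment ℝ a b := by
  have hre := congrArg Complex.re h
  have him := congrArg Complex.im h
  simp only [vec, Complex.re_ofReal_mul, Complex.im_ofReal_mul] at hre him
  refine ⟨1 - r, r, by linarith, h0.le, by ring, ?_⟩
  apply Prod.ext
  · simp only [Prod.fst_add, Prod.smul_fst, smul_eq_mul]
    linarith
  · simp only [Prod.snd_add, Prod.smul_snd, smul_eq_mul]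
    linarith

theorem dir_core (D : Drawing G) {v z z' : V} (h : (v, z) ∈ G.darts) (h' : (v, z') ∈ G.darts)
    (hne : z ≠ z') {r : ℝ} (h0 : 0 < r) (h1 : r ≤ 1)
    (hr : vec (D.pos v) (D.pos z') = r * vec (D.pos v) (D.pos z)) : False := by
  have hm : D.pos z' ∈ segment ℝ (D.pos v) (D.pos z) := mem_segment_of_ray h0 h1 hr
  have hvz : v ≠ z := D.loopless _ h
  obtain ⟨u, hu1, hu2, hu3⟩ := D.noncrossing (v, z) h (v, z') h'
    (by
      intro he
      simp only [Prod.mk.injEq] at he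
      exact hne he.2.symm)
    (by
      intro he
      simp only [Prod.swap_prod_mk, Prod.mk.injEq] at he
      exact hvz he.1)
    (D.pos z') hm (right_mem_segment ℝ _ _)
  have huv : u = v := by
    rcases hu1 with hu1 | hu1
    · exact hu1
    · rcases hu2 with hu2 | hu2
      · exact hu2
      · exact absurd (hu1.symm.trans hu2) hne
  rw [huv] at hu3
  exact pos_ne D h' hu3.symm

/-- different neighbours of a vertex are in different directions -/
theorem th_lt (D : Drawing G) {v z z' : V} (h : (v, z) ∈ G.darts) (h' : (v, z') ∈ G.darts)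
    (hne : z ≠ z') : th (vec (D.pos v) (D.pos z)) (vec (D.pos v) (D.pos z')) < 2 * Real.pi := by
  rcases lt_or_eq_of_le (PAH.Rot.th_le (vec (D.pos v) (D.pos z)) (vec (D.pos v) (D.pos z')))
    with hlt | heq
  · exact hlt
  · exfalso
    obtain ⟨r, hr0, hr⟩ := PAH.Rot.ray_of_th (PAH.Rot.vec_ne (pos_ne D h))
      (PAH.Rot.vec_ne (pos_ne D h')) heq
    rcases le_total r 1 with hr1 | hr1
    · exact dir_core D h h' hne hr0 hr1 hr
    · refine dir_core D h' h (Ne.symm hne) (inv_pos.mpr hr0) (inv_le_one_of_one_le₀ hr1) ?_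
      rw [hr, ← mul_assoc]
      have hrc : ((r⁻¹ : ℝ) : ℂ) * (r : ℂ) = 1 := by
        rw [← Complex.ofReal_mul, inv_mul_cancel₀ hr0.ne', Complex.ofReal_one]
      rw [hrc, one_mul]

theorem finite_nbrs (G : PlaneMap V) (v : V) : {x : V | (v, x) ∈ G.darts}.Finite := by
  refine ((List.finite_toSet G.darts).image Prod.snd).subset ?_
  intro x hx
  exact ⟨(v, x), hx, rfl⟩

end ROT_

open ROT_ in
/-- G-ROT -/
theorem tRot : TRot := by
  intro V G D v Q a b ha hb hQa hstep
  by_contra hQb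
  have hfin : {e : V × V | ((v, e.1) ∈ G.darts ∧ (v, e.2) ∈ G.darts) ∧ ¬ Q e.1 ∧ Q e.2}.Finite := by
    refine ((finite_nbrs G v).prod (finite_nbrs G v)).subset ?_
    intro e he
    exact ⟨he.1.1, he.1.2⟩
  obtain ⟨⟨z, w⟩, ⟨⟨hz, hw⟩, hQz, hQw⟩, hmin⟩ := Set.exists_min_image _
    (fun e : V × V => th (vec (D.pos v) (D.pos e.1)) (vec (D.pos v) (D.pos e.2))) hfin
    ⟨(b, a), ⟨hb, ha⟩, hQb, hQa⟩
  simp only at hz hw hQz hQw
  have hwv : (w, v) ∈ G.darts := D.symm _ hw
  obtain ⟨i, hi⟩ := mem_darts_iff.mp hwv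
  obtain ⟨z', hz'⟩ := exists_corner_of_dart hi
  have hfm : G.walks.get i ∈ G.walks := List.get_mem _ _
  have hz'd : (v, z') ∈ G.darts := mem_darts_iff.mpr ⟨i, (corner_darts hz').2⟩
  have hQz' : Q z' := hstep _ hfm _ hz' rfl hQw
  have hne : z ≠ z' := by
    rintro rfl
    exact hQz hQz'
  have hrot : th (vec (D.pos v) (D.pos z')) (vec (D.pos v) (D.pos w)) ≤
      th (vec (D.pos v) (D.pos z')) (vec (D.pos v) (D.pos z)) :=
    D.rotation _ hfm _ hz' z hz hne
  have hvz := PAH.Rot.vec_ne (pos_ne D hz)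
  have hvz' := PAH.Rot.vec_ne (pos_ne D hz'd)
  have hvw := PAH.Rot.vec_ne (pos_ne D hw)
  have hsym := PAH.Rot.th_symm hvz hvz' (th_lt D hz hz'd hne)
  have hadd := PAH.Rot.th_add hvz hvz' hvw
  have hp1 := PAH.Rot.th_pos (vec (D.pos v) (D.pos z')) (vec (D.pos v) (D.pos w))
  have hp2 := PAH.Rot.th_pos (vec (D.pos v) (D.pos z)) (vec (D.pos v) (D.pos w))
  have hm := hmin (z, z') ⟨⟨hz, hz'd⟩, hQz, hQz'⟩
  simp only at hm
  rcases hadd with hadd | hadd <;> linarith

end Pool.Agent.SLN
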