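import Pool.Agent.SLN.Draw

set_option autoImplicit false

/-!
# G-SLTR: triangular inner walks give a triangle representation
-/

namespace Pool.Agent.SLN

open Pool.Agent.PAH (Plane det3 ccwAngle LiesLeft dartsOf cornersOf ChainEq FanPos)

namespace SLTR_

variable {V : Type}

lemma zip_rotate {α β : Type} (l : List α) (m : List β) (n : ℕ) (h : l.length = m.length) :
    (l.zip m).rotate n = (l.rotate n).zip (m.rotate n) := by
  have h1 := List.zipWith_rotate_distrib Prod.mk l m n h
  simpa only [List.zip_eq_zipWith] using h1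

lemma dartsOf_rotate (w : List V) (n : ℕ) : dartsOf (w.rotate n) = (dartsOf w).rotate n := by
  unfold dartsOf
  rw [zip_rotate _ _ _ (by simp), List.rotate_rotate, List.rotate_rotate, Nat.add_comm]

lemma cornersOf_rotate (w : List V) (n : ℕ) : cornersOf (w.rotate n) = (cornersOf w).rotate n := by
  unfold cornersOf
  rw [zip_rotate _ _ _ (by simp), zip_rotate _ _ _ (by simp), List.rotate_rotate,
    List.rotate_rotate, List.rotate_rotate, List.rotate_rotate, Nat.add_comm n 1, Nat.add_comm n 2]

lemma mem_dartsOf_rotate (w : List V) (n : ℕ) (d : V × V) :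
    d ∈ dartsOf (w.rotate n) ↔ d ∈ dartsOf w := by
  rw [dartsOf_rotate, List.mem_rotate]

lemma mem_cornersOf_rotate (w : List V) (n : ℕ) (k : V × V × V) :
    k ∈ cornersOf (w.rotate n) ↔ k ∈ cornersOf w := by
  rw [cornersOf_rotate, List.mem_rotate]

lemma threeCorners_rotate {w : List V} {Q : V × V × V → Prop} (n : ℕ) (h : ThreeCorners w Q) :
    ThreeCorners (w.rotate n) Q := by
  obtain ⟨a, b, c, h1, h2, h3, h4⟩ := h
  refine ⟨a, b, c, h1, h2, h3, fun k => ?_⟩
  rw [mem_cornersOf_rotate]
  exact h4 k

lemma wsum_rotate (φ : V → V → ℝ) (w : List V) (n : ℕ) :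
    PAH.wsum φ (w.rotate n) = PAH.wsum φ w := by
  unfold PAH.wsum
  rw [dartsOf_rotate]
  exact ((List.rotate_perm _ n).map _).sum_eq

lemma closedTri_eq {a b c : Plane} (h : 0 < det3 a b c) :
    PAH.closedTri a b c = convexHull ℝ ({a, b, c} : Set Plane) := by
  apply Set.Subset.antisymm (PAH.Rg.closedTri_subset_convexHull h)
  apply convexHull_min
  · intro x hx
    simp only [Set.mem_insert_iff, Set.mem_singleton_iff] at hx
    rcases hx with rfl | rfl | rfl
    · refine ⟨?_, ?_, ?_⟩ <;> unfold det3 at * <;> nlinarith [h]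
    · refine ⟨?_, ?_, ?_⟩ <;> unfold det3 at * <;> nlinarith [h]
    · refine ⟨?_, ?_, ?_⟩ <;> unfold det3 at * <;> nlinarith [h]
  · rintro x ⟨hx1, hx2, hx3⟩ y ⟨hy1, hy2, hy3⟩ s t hs ht hst
    have key : ∀ u v : Plane, 0 ≤ det3 u v x → 0 ≤ det3 u v y → 0 ≤ det3 u v (s • x + t • y) := by
      intro u v h1 h2
      have h3 : det3 u v (s • x + t • y) = s * det3 u v x + t * det3 u v y := by
        obtain rfl : t = 1 - s := by linarith
        unfold det3
        simp only [Prod.fst_add, Prod.snd_add, Prod.smul_fst, Prod.smul_snd, smul_eq_mul]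
        ring
      rw [h3]
      positivity
    exact ⟨key _ _ hx1 hy1, key _ _ hx2 hy2, key _ _ hx3 hy3⟩

/-- the rotation used for a walk -/
noncomputable def rot (p : V → Plane) (f : List V) : List V :=
  open Classical in
  f.rotate (if h : ∃ k, FanPos p (f.rotate k) then h.choose else 0)

lemma rot_fan {p : V → Plane} {f : List V} (h : ∃ k, FanPos p (f.rotate k)) :
    FanPos p (rot p f) := by
  unfold rot
  rw [dif_pos h]
  exact h.choose_spec

lemma mem_rot_darts (p : V → Plane) (f : List V) (d : V × V) :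
    d ∈ dartsOf (rot p f) ↔ d ∈ dartsOf f := mem_dartsOf_rotate _ _ _

/-- the map with rotated inner walks -/
noncomputable def rotG (p : V → Plane) (G : PlaneMap V) : PlaneMap V :=
  ⟨G.outer, G.inner.map (rot p), G.s₁, G.s₂, G.s₃⟩

lemma rotG_darts (p : V → Plane) (G : PlaneMap V) : (rotG p G).darts.Perm G.darts := by
  unfold PlaneMap.darts PlaneMap.walks rotG
  simp only [List.flatMap_cons]
  apply List.Perm.append_left
  rw [List.flatMap_map]
  apply List.Perm.flatMap_left
  intro f _
  unfold rot
  rw [dartsOf_rotate]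
  exact List.rotate_perm _ _

lemma rotG_drawn (p : V → Plane) (G : PlaneMap V) : (rotG p G).drawn p = G.drawn p := by
  unfold PlaneMap.drawn
  ext x
  simp only [Set.mem_ofPred_eq, (rotG_darts p G).mem_iff]

end SLTR_

open SLTR_ DRAW_ in
/-- G-SLTR -/
theorem tSLTR (_hD : TDraw) (hT : TTri) : TSLTR := by
  intro V G p Q hout hne hch hnd hTP hfan
  set G' := rotG p G with hG'
  have hout' : (toFM G').outer = [G.s₁, G.s₃, G.s₂] := hout
  have hne' : (toFM G').inner ≠ [] := by
    have h1 := hne
    unfold toFM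
    rw [hG']
    unfold rotG
    simpa using h1
  have hch' : ChainEq ((toFM G').inner.map Prod.fst) [G.s₁, G.s₂, G.s₃] := by
    rw [toFM_inner_fst]
    intro φ hφ
    have h1 := hch φ hφ
    rw [← h1]
    rw [hG']
    unfold rotG
    simp only [List.map_map]
    congr 1
    apply List.map_congr_left
    intro f _
    exact wsum_rotate _ _ _
  have hfan' : ∀ f ∈ (toFM G').inner, FanPos p f.1 := by
    intro f hf
    have h1 : f.1 ∈ G'.inner := by
      rw [← toFM_inner_fst G']
      exact List.mem_map_of_mem hf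
    rw [hG'] at h1
    unfold rotG at h1
    simp only [List.mem_map] at h1
    obtain ⟨g, hg, h2⟩ := h1
    rw [← h2]
    exact rot_fan (hfan g hg)
  obtain ⟨hTH, hTame⟩ := PAH.yDarts (toFM G') p G.s₁ G.s₂ G.s₃ hout' hne' hch' hfan'
  have hN := PAH.cover p (toFM G').tris G.s₁ G.s₂ G.s₃ hTH
  have hPl := PAH.planar_main p (toFM G').tris G.s₁ G.s₂ G.s₃ hN
  have ht := hTame hN hPl
  obtain ⟨D, hDp⟩ := tDraw G' p ⟨hout, by rw [hG']; unfold rotG; simpa using hne, by
    have h1 := hch'
    rwa [toFM_inner_fst] at h1, by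
    intro f hf
    have h1 : (f, (1 : ℚ)) ∈ (toFM G').inner := List.mem_map.2 ⟨f, hf, rfl⟩
    exact hfan' _ h1⟩
  have hmem : ∀ d, d ∈ G'.darts ↔ d ∈ G.darts := fun d => (rotG_darts p G).mem_iff
  have hmemI : ∀ i : Fin G.inner.length, (rot p (G.inner.get i), (1 : ℚ)) ∈ (toFM G').inner := by
    intro i
    refine List.mem_map.2 ⟨rot p (G.inner.get i), ?_, rfl⟩
    exact List.mem_map.2 ⟨_, List.get_mem _ i, rfl⟩
  have hfaceI : ∀ i : Fin G.inner.length,
      IsFace G p (G.inner.get i) (PAH.fanRegion p (rot p (G.inner.get i))) ∧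
        Bornology.IsBounded (PAH.fanRegion p (rot p (G.inner.get i))) := by
    intro i
    obtain ⟨h1, h2⟩ := PAH.targetRegion (toFM G') p _ _ _ ht _ (hmemI i)
    have h3 := isFace_of h1
    refine ⟨⟨?_, ?_⟩, h2⟩
    · have h4 := h3.component
      rwa [hG', rotG_drawn] at h4
    · intro d hd
      exact h3.left d ((mem_rot_darts p _ d).2 hd)
  obtain ⟨hO1, hO2⟩ := PAH.targetOuter (toFM G') p _ _ _ ht
  have hO3 := isFace_of hO1
  have hO : IsFace G p G.outer (PAH.closedTri (p G.s₁) (p G.s₂) (p G.s₃))ᶜ := by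
    refine ⟨?_, fun d hd => hO3.left d hd⟩
    have h4 := hO3.component
    rwa [hG', rotG_drawn] at h4
  have hinj : ∀ i j : Fin G.inner.length, i ≠ j →
      PAH.fanRegion p (rot p (G.inner.get i)) ≠ PAH.fanRegion p (rot p (G.inner.get j)) := by
    have hdis : ∀ i j : Fin G.inner.length, i < j →
        PAH.fanRegion p (rot p (G.inner.get i)) ≠ PAH.fanRegion p (rot p (G.inner.get j)) := by
      intro i j hij heq
      have hfi := hfan' _ (hmemI i)
      have htri : ∃ t, t ∈ PAH.fanTris (rot p (G.inner.get i)) := by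
        rcases hw : rot p (G.inner.get i) with _ | ⟨v, l⟩
        · simp only [hw] at hfi; exact absurd hfi (by simp [FanPos])
        · simp only [hw] at hfi
          rcases l with _ | ⟨u, _ | ⟨w, l⟩⟩
          · exact absurd hfi.1 (by simp)
          · exact absurd hfi.1 (by simp)
          · exact ⟨(v, u, w), by simp [PAH.fanTris]⟩
      obtain ⟨t, hti⟩ := htri
      have htT : t ∈ (toFM G').tris := List.mem_flatMap.2 ⟨_, hmemI i, hti⟩
      obtain ⟨x, hx⟩ := PAH.tOpen_nonempty (hN.pos t htT)
      have hxi : x ∈ PAH.fanRegion p (rot p (G.inner.get i)) := Or.inl ⟨t, hti, hx⟩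
      rw [heq] at hxi
      rcases hxi with ⟨s, hs, hxs⟩ | ⟨s, hs, d, hd, _, hxs⟩
      · have hpw := hN.disj
        have htr : (toFM G').tris = G.inner.flatMap fun f => PAH.fanTris (rot p f) := by
          unfold PAH.FaceMap.tris toFM
          rw [hG']
          unfold rotG
          simp only [List.flatMap_map]
        rw [htr, List.pairwise_flatMap] at hpw
        have h2 := hpw.2
        rw [List.pairwise_iff_get] at h2
        have h3 := h2 i j hij t hti s hs
        exact Set.disjoint_left.1 h3 hx hxs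
      · have hsT : s ∈ (toFM G').tris := List.mem_flatMap.2 ⟨_, hmemI j, hs⟩
        exact hPl.openDisj t htT d (List.mem_flatMap.2 ⟨s, hsT, hd⟩) x
          (openSegment_subset_segment ℝ _ _ hxs) hx
    intro i j hij h
    rcases lt_or_gt_of_ne hij with h' | h'
    · exact hdis i j h' h
    · exact hdis j i h' h.symm
  refine ⟨{ pos := p
            nodup := (rotG_darts p G).nodup_iff.1 D.nodup
            symm := ?_
            loopless := ?_
            inj := ?_
            noncrossing := ?_
            rotation := ?_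
            outerFace := (PAH.closedTri (p G.s₁) (p G.s₂) (p G.s₃))ᶜ
            face := fun i => PAH.fanRegion p (rot p (G.inner.get i))
            outer_isFace := hO
            outer_unbounded := hO2
            face_isFace := fun i => (hfaceI i).1
            face_bounded := fun i => (hfaceI i).2
            face_inj := ?_
            triangle := ?_
            nondegenerate := hN.outer_pos.ne'
            exterior := by rw [closedTri_eq hN.outer_pos] }⟩
  · intro d hd
    exact (hmem _).1 (D.symm d ((hmem d).2 hd))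
  · intro d hd
    exact D.loopless d ((hmem d).2 hd)
  · intro d hd e he h
    have h1 := D.inj d ((hmem d).2 hd) e ((hmem e).2 he)
    rw [hDp] at h1
    exact h1 h
  · intro d hd e he hn1 hn2 x hx1 hx2
    have h1 := D.noncrossing d ((hmem d).2 hd) e ((hmem e).2 he) hn1 hn2 x
    rw [hDp] at h1
    exact h1 hx1 hx2
  · intro f hf c hc x hx hne3
    have hrot := D.rotation
    rw [hDp] at hrot
    have hfw : ∃ n, f.rotate n ∈ G'.walks := by
      unfold PlaneMap.walks at hf ⊢
      rcases List.mem_cons.1 hf with h | h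
      · exact ⟨0, by rw [h, List.rotate_zero]; exact List.mem_cons.2 (Or.inl rfl)⟩
      · exact ⟨_, List.mem_cons.2 (Or.inr (List.mem_map.2 ⟨f, h, rfl⟩))⟩
    obtain ⟨n, hn⟩ := hfw
    exact hrot _ hn c ((mem_cornersOf_rotate _ _ _).2 hc) x ((hmem _).2 hx) hne3
  · intro i j hij
    by_contra hne2
    exact hinj i j hne2 hij
  · intro i
    have hmi := List.get_mem G.inner i
    obtain ⟨A, B, C, h1, h2⟩ := hT p Q (rot p (G.inner.get i))
      (List.nodup_rotate.2 (hnd _ hmi))
      (threeCorners_rotate _ (hTP.three _ hmi))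
      (fun k hk => hTP.flat _ hmi k ((mem_cornersOf_rotate _ _ _).1 hk))
      (fun k hk => hTP.corner _ hmi k ((mem_cornersOf_rotate _ _ _).1 hk))
      (rot_fan (hfan _ hmi))
    exact ⟨A, B, C, h1.ne', h2⟩

end Pool.Agent.SLN
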