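import Pool.Agent.SLN.FaceTri

set_option autoImplicit false

/-!
# G-TRI: the region of a triangular walk
-/

namespace Pool.Agent.SLN

open Pool.Agent.PAH (Plane det3 dartsOf cornersOf openTri closedTri FanPos fanRegion fanTris
  tOpen triDarts)

namespace TR

open FT

/-! ### Planar identities -/

theorem det3_dart {a u x : Plane} {s c : ℝ} :
    det3 (a + s • u) (a + s • u + c • u) x = c * det3 a (a + u) x := by
  simp only [det3, Prod.fst_add, Prod.snd_add, Prod.smul_fst, Prod.smul_snd, smul_eq_mul]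
  ring

theorem det3_side {a u x : Plane} {s : ℝ} :
    det3 a (a + s • u) x = s * det3 a (a + u) x := by
  simp only [det3, Prod.fst_add, Prod.snd_add, Prod.smul_fst, Prod.smul_snd, smul_eq_mul]
  ring

/-- barycentric interpolation of an affine function -/
theorem bary (U W a b c x : Plane) : det3 a b c * det3 U W x =
    det3 b c x * det3 U W a + det3 c a x * det3 U W b + det3 a b x * det3 U W c := by
  simp only [det3]; ring

theorem det3_sum (a b c x : Plane) : det3 a b x + det3 b c x + det3 c a x = det3 a b c := by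
  simp only [det3]; ring

theorem det_hh (P : Fin 3 → Plane) (s : Fin 3) (a b c : Plane) : det3 a b c * dd P =
    (hh P s b - hh P s a) * (hh P (s + 1) c - hh P (s + 1) a) -
      (hh P (s + 1) b - hh P (s + 1) a) * (hh P s c - hh P s a) := by
  fin_cases s
  · change det3 a b c * dd P = (det3 (P 0) (P 1) b - det3 (P 0) (P 1) a) *
      (det3 (P 1) (P 2) c - det3 (P 1) (P 2) a) -
      (det3 (P 1) (P 2) b - det3 (P 1) (P 2) a) * (det3 (P 0) (P 1) c - det3 (P 0) (P 1) a)
    simp only [dd, det3]; ring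
  · change det3 a b c * dd P = (det3 (P 1) (P 2) b - det3 (P 1) (P 2) a) *
      (det3 (P 2) (P 0) c - det3 (P 2) (P 0) a) -
      (det3 (P 2) (P 0) b - det3 (P 2) (P 0) a) * (det3 (P 1) (P 2) c - det3 (P 1) (P 2) a)
    simp only [dd, det3]; ring
  · change det3 a b c * dd P = (det3 (P 2) (P 0) b - det3 (P 2) (P 0) a) *
      (det3 (P 0) (P 1) c - det3 (P 0) (P 1) a) -
      (det3 (P 0) (P 1) b - det3 (P 0) (P 1) a) * (det3 (P 2) (P 0) c - det3 (P 2) (P 0) a)
    simp only [dd, det3]; ring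

theorem flat_step {a b c : Plane} (h : b ∈ openSegment ℝ a c) :
    ∃ μ : ℝ, 0 < μ ∧ c - b = μ • (b - a) := by
  obtain ⟨α, β, hα, hβ, hab, rfl⟩ := h
  refine ⟨α / β, div_pos hα hβ, ?_⟩
  have hβ' : β = 1 - α := by linarith
  have hne : β ≠ 0 := hβ.ne'
  apply Prod.ext
  · simp only [Prod.fst_sub, Prod.fst_add, Prod.smul_fst, smul_eq_mul]
    rw [div_mul_eq_mul_div, eq_div_iff hne]
    rw [hβ']; ring
  · simp only [Prod.snd_sub, Prod.snd_add, Prod.smul_snd, smul_eq_mul]
    rw [div_mul_eq_mul_div, eq_div_iff hne]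
    rw [hβ']; ring

/-! ### A straight part of the walk -/

section seg
variable (g : ℕ → Plane)

theorem seg_dir {a b : ℕ} (hfl : ∀ i, a ≤ i → i + 1 < b → g (i + 1) ∈ openSegment ℝ (g i) (g (i + 2))) :
    ∀ j, a ≤ j → j < b → ∃ c : ℝ, 0 < c ∧ g (j + 1) = g j + c • (g (a + 1) - g a) := by
  intro j hj
  induction j, hj using Nat.le_induction with
  | base => intro _; exact ⟨1, one_pos, by rw [one_smul]; abel⟩
  | succ j hj ih =>
    intro hb
    obtain ⟨c, hc, h1⟩ := ih (by omega)
    obtain ⟨μ, hμ, h2⟩ := flat_step (hfl j hj (by omega))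
    refine ⟨μ * c, mul_pos hμ hc, ?_⟩
    have h3 : g (j + 1) - g j = c • (g (a + 1) - g a) := by rw [h1]; abel
    rw [h3, smul_smul] at h2
    have h4 : g (j + 1 + 1) = (g (j + 2) - g (j + 1)) + g (j + 1) := (sub_add_cancel _ _).symm
    rw [h4, h2]; abel

theorem seg_pos {a b : ℕ} (hfl : ∀ i, a ≤ i → i + 1 < b → g (i + 1) ∈ openSegment ℝ (g i) (g (i + 2)))
    (k : ℕ) (hk : a ≤ k) : ∀ j, k ≤ j → j ≤ b → ∃ s : ℝ, (k = j → s = 0) ∧ (k < j → 0 < s) ∧
      g j = g k + s • (g (a + 1) - g a) := by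
  intro j hj
  induction j, hj using Nat.le_induction with
  | base => intro _; exact ⟨0, fun _ => rfl, fun h => absurd h (lt_irrefl _), by simp⟩
  | succ j hj ih =>
    intro hb
    obtain ⟨s, h1, h2, h3⟩ := ih (by omega)
    obtain ⟨c, hc, h4⟩ := seg_dir g hfl j (by omega) (by omega)
    have hs : 0 ≤ s := by
      rcases hj.lt_or_eq with h | h
      · exact (h2 h).le
      · exact (h1 h).ge
    refine ⟨s + c, fun h => by omega, fun _ => by linarith, ?_⟩
    rw [h4, h3, add_smul]; abel

/-- a dart of the straight part -/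
theorem seg_dart {a b : ℕ}
    (hfl : ∀ i, a ≤ i → i + 1 < b → g (i + 1) ∈ openSegment ℝ (g i) (g (i + 2)))
    {j : ℕ} (hj : a ≤ j) (hjb : j < b) :
    ∃ κ : ℝ, 0 < κ ∧ ∀ x, det3 (g j) (g (j + 1)) x = κ * det3 (g a) (g b) x := by
  obtain ⟨s, h1, h2, h3⟩ := seg_pos g hfl a le_rfl j hj hjb.le
  obtain ⟨r, _, h5, h6⟩ := seg_pos g hfl j hj b hjb.le le_rfl
  obtain ⟨c, hc, h7⟩ := seg_dir g hfl j hj hjb
  have hs : 0 ≤ s := by
    rcases hj.lt_or_eq with h | h
    · exact (h2 h).le
    · exact (h1 h).ge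
  have hr := h5 hjb
  have hsr : 0 < s + r := by linarith
  refine ⟨c / (s + r), div_pos hc hsr, ?_⟩
  intro x
  rw [h7, h6, h3]
  have e1 : g a + s • (g (a + 1) - g a) + r • (g (a + 1) - g a) =
      g a + (s + r) • (g (a + 1) - g a) := by rw [add_smul]; abel
  rw [e1, det3_dart, det3_side, ← mul_assoc, div_mul_cancel₀ _ hsr.ne']

/-- a vertex of the straight part -/
theorem seg_vert {a b : ℕ}
    (hfl : ∀ i, a ≤ i → i + 1 < b → g (i + 1) ∈ openSegment ℝ (g i) (g (i + 2)))
    {j : ℕ} (hj : a ≤ j) (hjb : j ≤ b) : g j ∈ segment ℝ (g a) (g b) := by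
  obtain ⟨s, h1, h2, h3⟩ := seg_pos g hfl a le_rfl j hj hjb
  obtain ⟨r, h4, h5, h6⟩ := seg_pos g hfl j hj b hjb le_rfl
  have hs : 0 ≤ s := by
    rcases hj.lt_or_eq with h | h
    · exact (h2 h).le
    · exact (h1 h).ge
  have hr : 0 ≤ r := by
    rcases hjb.lt_or_eq with h | h
    · exact (h5 h).le
    · exact (h4 h).ge
  by_cases hz : s = 0
  · rw [hz, zero_smul, add_zero] at h3
    rw [h3]
    exact left_mem_segment ℝ _ _
  · have hs' : 0 < s := lt_of_le_of_ne hs (Ne.symm hz)
    have hsr : 0 < s + r := by linarith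
    refine ⟨r / (s + r), s / (s + r), by positivity, by positivity, ?_, ?_⟩
    · rw [← add_div, add_comm, div_self hsr.ne']
    · rw [h6, h3]
      apply Prod.ext
      · simp only [Prod.fst_sub, Prod.fst_add, Prod.smul_fst, smul_eq_mul]
        field_simp
        ring
      · simp only [Prod.snd_sub, Prod.snd_add, Prod.smul_snd, smul_eq_mul]
        field_simp
        ring

end seg

/-! ### The whole walk -/

/-- what is used about the walk in the computation of the region -/
structure Wk (P : Fin 3 → Plane) (g : ℕ → Plane) (n : ℕ) : Prop where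
  pos : 0 < dd P
  three : 3 ≤ n
  per : ∀ i, g (i + n) = g i
  vert : ∀ i, g i ∈ ct P
  dart : ∀ i, ∃ κ : ℝ, 0 < κ ∧ ∃ s, ∀ x, det3 (g i) (g (i + 1)) x = κ * hh P s x
  fan : ∀ i, 1 ≤ i → i + 1 < n → 0 < det3 (g 0) (g i) (g (i + 1))

theorem Wk.fan_sub {P : Fin 3 → Plane} {g : ℕ → Plane} {n : ℕ} (h : Wk P g n) {i : ℕ}
    (h1 : 1 ≤ i) (h2 : i + 1 < n) {x : Plane} (hx : x ∈ openTri (g 0) (g i) (g (i + 1))) :
    x ∈ ot P := by
  intro s
  obtain ⟨hx1, hx2, hx3⟩ := hx
  have hf := h.fan i h1 h2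
  have hb := bary (P s) (P (s + 1)) (g 0) (g i) (g (i + 1)) x
  change det3 (g 0) (g i) (g (i + 1)) * hh P s x = det3 (g i) (g (i + 1)) x * hh P s (g 0) +
    det3 (g (i + 1)) (g 0) x * hh P s (g i) + det3 (g 0) (g i) x * hh P s (g (i + 1)) at hb
  have a1 := h.vert 0 s
  have a2 := h.vert i s
  have a3 := h.vert (i + 1) s
  have b1 := mul_nonneg hx2.le a1
  have b2 := mul_nonneg hx3.le a2
  have b3 := mul_nonneg hx1.le a3
  by_contra hcon
  have hle : hh P s x ≤ 0 := not_lt.mp hcon
  have h4 : det3 (g 0) (g i) (g (i + 1)) * hh P s x ≤ 0 := mul_nonpos_of_nonneg_of_nonpos hf.le hle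
  have c1 : hh P s (g 0) = 0 := by
    by_contra hne
    have : 0 < det3 (g i) (g (i + 1)) x * hh P s (g 0) :=
      mul_pos hx2 (lt_of_le_of_ne a1 (Ne.symm hne))
    linarith
  have c2 : hh P s (g i) = 0 := by
    by_contra hne
    have : 0 < det3 (g (i + 1)) (g 0) x * hh P s (g i) :=
      mul_pos hx3 (lt_of_le_of_ne a2 (Ne.symm hne))
    linarith
  have c3 : hh P s (g (i + 1)) = 0 := by
    by_contra hne
    have : 0 < det3 (g 0) (g i) x * hh P s (g (i + 1)) :=
      mul_pos hx1 (lt_of_le_of_ne a3 (Ne.symm hne))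
    linarith
  have hd := det_hh P s (g 0) (g i) (g (i + 1))
  rw [c1, c2, c3] at hd
  have : 0 < det3 (g 0) (g i) (g (i + 1)) * dd P := mul_pos hf h.pos
  rw [hd] at this
  simp at this

theorem Wk.diag_sub {P : Fin 3 → Plane} {g : ℕ → Plane} {n : ℕ} (h : Wk P g n) {i : ℕ}
    (h1 : 2 ≤ i) (h2 : i + 1 < n) {x : Plane} (hx : x ∈ openSegment ℝ (g 0) (g i)) :
    x ∈ ot P := by
  intro s
  obtain ⟨α, β, hα, hβ, hab, rfl⟩ := hx
  have he : hh P s (α • g 0 + β • g i) = α * hh P s (g 0) + β * hh P s (g i) := by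
    have : β = 1 - α := by linarith
    rw [this]
    simp only [hh, det3, Prod.fst_add, Prod.snd_add, Prod.smul_fst, Prod.smul_snd, smul_eq_mul]
    ring
  rw [he]
  have a1 := h.vert 0 s
  have a2 := h.vert i s
  have b1 := mul_nonneg hα.le a1
  have b2 := mul_nonneg hβ.le a2
  by_contra hcon
  have c1 : hh P s (g 0) = 0 := by
    by_contra hne
    have : 0 < α * hh P s (g 0) := mul_pos hα (lt_of_le_of_ne a1 (Ne.symm hne))
    linarith
  have c2 : hh P s (g i) = 0 := by
    by_contra hne
    have : 0 < β * hh P s (g i) := mul_pos hβ (lt_of_le_of_ne a2 (Ne.symm hne))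
    linarith
  obtain ⟨j, rfl⟩ : ∃ j, i = j + 1 := ⟨i - 1, by omega⟩
  have f1 := mul_pos (h.fan j (by omega) (by omega)) h.pos
  have f2 := mul_pos (h.fan (j + 1) (by omega) h2) h.pos
  rw [det_hh P s] at f1 f2
  rw [c1, c2] at f1 f2
  have v1 := h.vert j s
  have v2 := h.vert (j + 1 + 1) s
  have hδ : 0 < hh P (s + 1) (g (j + 1)) - hh P (s + 1) (g 0) := by
    by_contra hneg
    have := mul_nonpos_of_nonneg_of_nonpos v1 (not_lt.mp hneg)
    linarith
  have := mul_nonneg hδ.le v2
  linarith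

theorem Wk.sup {P : Fin 3 → Plane} {g : ℕ → Plane} {n : ℕ} (h : Wk P g n) {x : Plane}
    (hx : x ∈ ot P) :
    ∃ i, 1 ≤ i ∧ i + 1 < n ∧ (x ∈ openTri (g 0) (g i) (g (i + 1)) ∨
      (i + 2 < n ∧ x ∈ openSegment ℝ (g (i + 1)) (g 0))) := by
  have hd : ∀ j, 0 < det3 (g j) (g (j + 1)) x := by
    intro j
    obtain ⟨κ, hκ, s, hs⟩ := h.dart j
    rw [hs]
    exact mul_pos hκ (hx s)
  have h3 := h.three
  have hanti : ∀ a b : Plane, det3 b a x = - det3 a b x := by
    intro a b; simp only [det3]; ring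
  have hlast : det3 (g 0) (g (n - 1)) x < 0 := by
    have h1 := hd (n - 1)
    have h2 : g (n - 1 + 1) = g 0 := by
      have : n - 1 + 1 = 0 + n := by omega
      rw [this, h.per]
    rw [h2] at h1
    rw [hanti]
    linarith
  have hex : ∃ i, 1 ≤ i ∧ det3 (g 0) (g (i + 1)) x ≤ 0 := by
    refine ⟨n - 2, by omega, ?_⟩
    have : n - 2 + 1 = n - 1 := by omega
    rw [this]
    exact hlast.le
  classical
  have hsp := Nat.find_spec hex
  have hmin := fun i => Nat.find_min hex (m := i)
  have hle : Nat.find hex ≤ n - 2 := by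
    apply Nat.find_min' hex
    refine ⟨by omega, ?_⟩
    have : n - 2 + 1 = n - 1 := by omega
    rw [this]
    exact hlast.le
  set i := Nat.find hex with hi
  have hpos : 0 < det3 (g 0) (g i) x := by
    by_cases h1 : i = 1
    · rw [h1]; exact hd 0
    · have h2 := hmin (i - 1) (by omega)
      have h4 := hsp.1
      by_contra hcon
      apply h2
      refine ⟨by omega, ?_⟩
      have : i - 1 + 1 = i := by omega
      rw [this]
      exact not_lt.mp hcon
  refine ⟨i, hsp.1, by omega, ?_⟩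
  rcases hsp.2.lt_or_eq with hlt | heq
  · left
    refine ⟨hpos, hd i, ?_⟩
    rw [hanti (g 0) (g (i + 1))]
    linarith
  · right
    have hin : i + 2 < n := by
      by_contra hcon
      have : i + 1 = n - 1 := by omega
      rw [this] at heq
      linarith
    refine ⟨hin, ?_⟩
    have hf := h.fan i hsp.1 (by omega)
    have hsum := det3_sum (g 0) (g i) (g (i + 1)) x
    have hz : det3 (g (i + 1)) (g 0) x = 0 := by rw [hanti (g 0) (g (i + 1)), heq, neg_zero]
    have hdi := hd i
    rw [hz, add_zero] at hsum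
    set D := det3 (g 0) (g i) (g (i + 1)) with hD
    set t := det3 (g 0) (g i) x with ht
    set r := det3 (g i) (g (i + 1)) x with hr
    have hne : D ≠ 0 := hf.ne'
    refine ⟨t / D, r / D, div_pos hpos hf, div_pos hdi hf, ?_, ?_⟩
    · rw [← add_div, hsum, div_self hne]
    · have e1 : D * x.1 = r * (g 0).1 + det3 (g (i + 1)) (g 0) x * (g i).1 + t * (g (i + 1)).1 := by
        rw [hD, hr, ht]; simp only [det3]; ring
      have e2 : D * x.2 = r * (g 0).2 + det3 (g (i + 1)) (g 0) x * (g i).2 + t * (g (i + 1)).2 := by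
        rw [hD, hr, ht]; simp only [det3]; ring
      rw [hz] at e1 e2
      apply Prod.ext
      · simp only [Prod.fst_add, Prod.smul_fst, smul_eq_mul]
        rw [div_mul_eq_mul_div, div_mul_eq_mul_div, ← add_div, div_eq_iff hne]
        linarith
      · simp only [Prod.snd_add, Prod.smul_snd, smul_eq_mul]
        rw [div_mul_eq_mul_div, div_mul_eq_mul_div, ← add_div, div_eq_iff hne]
        linarith

/-! ### The three corners -/

/-- the corner number `i` is not flat -/
def NF {V : Type} (Q : V × V × V → Prop) (f : List V) (hf : 0 < f.length) (i : ℕ) : Prop :=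
  ¬ Q (gv f hf i, gv f hf (i + 1), gv f hf (i + 2))

theorem sorted {V : Type} {Q : V × V × V → Prop} {f : List V} (hf : 0 < f.length)
    (hn : f.Nodup) (h : ThreeCorners f Q) : ∃ a b c, a < b ∧ b < c ∧ c < f.length ∧
      ∀ i, NF Q f hf i ↔ (i % f.length = a ∨ i % f.length = b ∨ i % f.length = c) := by
  obtain ⟨A, B, C, hAB, hAC, hBC, hk⟩ := h
  have key : ∀ K : V × V × V, (K = A ∨ K = B ∨ K = C) → ∃ a, a < f.length ∧
      K = (gv f hf a, gv f hf (a + 1), gv f hf (a + 2)) := by
    intro K hK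
    obtain ⟨i, hi⟩ := (mem_cornersOf hf).1 ((hk K).2 hK).1
    refine ⟨i % f.length, Nat.mod_lt _ hf, ?_⟩
    rw [hi]
    rw [gv_congr f hf (i := i % f.length) (j := i) (Nat.mod_mod _ _),
      gv_congr f hf (i := i % f.length + 1) (j := i + 1) (Nat.mod_add_mod _ _ _),
      gv_congr f hf (i := i % f.length + 2) (j := i + 2) (Nat.mod_add_mod _ _ _)]
  obtain ⟨a, ha, hA⟩ := key A (Or.inl rfl)
  obtain ⟨b, hb, hB⟩ := key B (Or.inr (Or.inl rfl))
  obtain ⟨c, hc, hC⟩ := key C (Or.inr (Or.inr rfl))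
  have hNF : ∀ i, NF Q f hf i ↔ (i % f.length = a ∨ i % f.length = b ∨ i % f.length = c) := by
    intro i
    have hmem : (gv f hf i, gv f hf (i + 1), gv f hf (i + 2)) ∈ cornersOf f :=
      (mem_cornersOf hf).2 ⟨i, rfl⟩
    have h1 : NF Q f hf i ↔ ((gv f hf i, gv f hf (i + 1), gv f hf (i + 2)) = A ∨
        (gv f hf i, gv f hf (i + 1), gv f hf (i + 2)) = B ∨
        (gv f hf i, gv f hf (i + 1), gv f hf (i + 2)) = C) := by
      rw [← hk]
      exact ⟨fun h => ⟨hmem, h⟩, fun h => h.2⟩
    have h2 : ∀ (K : V × V × V) (a : ℕ), a < f.length →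
        K = (gv f hf a, gv f hf (a + 1), gv f hf (a + 2)) →
        ((gv f hf i, gv f hf (i + 1), gv f hf (i + 2)) = K ↔ i % f.length = a) := by
      intro K a ha hK
      constructor
      · intro h
        rw [hK] at h
        have h3 : gv f hf i = gv f hf a := congrArg Prod.fst h
        have h4 := gv_inj hf hn h3
        rwa [Nat.mod_eq_of_lt ha] at h4
      · intro h
        rw [hK, ← h]
        rw [gv_congr f hf (i := i % f.length) (j := i) (Nat.mod_mod _ _),
          gv_congr f hf (i := i % f.length + 1) (j := i + 1) (Nat.mod_add_mod _ _ _),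
          gv_congr f hf (i := i % f.length + 2) (j := i + 2) (Nat.mod_add_mod _ _ _)]
    rw [h1, h2 A a ha hA, h2 B b hb hB, h2 C c hc hC]
  have hab : a ≠ b := by
    intro h
    apply hAB
    rw [hA, hB, h]
  have hac : a ≠ c := by
    intro h
    apply hAC
    rw [hA, hC, h]
  have hbc : b ≠ c := by
    intro h
    apply hBC
    rw [hB, hC, h]
  rcases lt_or_gt_of_ne hab with h1 | h1
  · rcases lt_or_gt_of_ne hbc with h2 | h2
    · exact ⟨a, b, c, h1, h2, hc, hNF⟩
    · rcases lt_or_gt_of_ne hac with h3 | h3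
      · exact ⟨a, c, b, h3, h2, hb, fun i => by rw [hNF]; tauto⟩
      · exact ⟨c, a, b, h3, h1, hb, fun i => by rw [hNF]; tauto⟩
  · rcases lt_or_gt_of_ne hbc with h2 | h2
    · rcases lt_or_gt_of_ne hac with h3 | h3
      · exact ⟨b, a, c, h1, h3, hc, fun i => by rw [hNF]; tauto⟩
      · exact ⟨b, c, a, h2, h3, ha, fun i => by rw [hNF]; tauto⟩
    · exact ⟨c, b, a, h2, h1, ha, fun i => by rw [hNF]; tauto⟩

theorem gv_of_lt {V : Type} {f : List V} (hf : 0 < f.length) {i : ℕ} (h : i < f.length) :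
    gv f hf i = f[i] := by
  unfold gv
  congr 1
  exact Nat.mod_eq_of_lt h

theorem mem_fanTris {V : Type} {f : List V} (hf : 0 < f.length) {t : V × V × V} :
    t ∈ fanTris f ↔ ∃ i, 1 ≤ i ∧ i + 1 < f.length ∧
      t = (gv f hf 0, gv f hf i, gv f hf (i + 1)) := by
  cases f with
  | nil => simp at hf
  | cons z l =>
    rw [fanTris, List.mem_map]
    constructor
    · rintro ⟨e, he, rfl⟩
      obtain ⟨i, hi, rfl⟩ := List.mem_iff_getElem.mp he
      rw [List.length_zip, List.length_tail] at hi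
      refine ⟨i + 1, by omega, by rw [List.length_cons]; omega, ?_⟩
      rw [gv_of_lt hf hf, gv_of_lt hf (by rw [List.length_cons]; omega),
        gv_of_lt hf (by rw [List.length_cons]; omega)]
      simp
    · rintro ⟨i, h1, h2, rfl⟩
      obtain ⟨j, rfl⟩ : ∃ j, i = j + 1 := ⟨i - 1, by omega⟩
      rw [List.length_cons] at h2
      refine ⟨(l[j], l[j + 1]), ?_, ?_⟩
      · rw [List.mem_iff_getElem]
        refine ⟨j, by rw [List.length_zip, List.length_tail]; omega, ?_⟩
        simp
      · rw [gv_of_lt hf hf, gv_of_lt hf (by rw [List.length_cons]; omega),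
          gv_of_lt hf (by rw [List.length_cons]; omega)]
        simp

end TR

open TR FT

theorem tTri : TTri := by
  intro V p Q f hn h3c hQ hNQ hfan
  have h3 : 3 ≤ f.length := by
    cases f with
    | nil => exact absurd hfan (by simp [FanPos])
    | cons z l =>
      have := hfan.1
      rw [List.length_cons]; omega
  have hf : 0 < f.length := by omega
  obtain ⟨a, b, c, hab, hbc, hc, hNF⟩ := sorted hf hn h3c
  set n := f.length with hnn
  let g : ℕ → Plane := fun i => p (gv f hf i)
  have hper : ∀ i, g (i + n) = g i := fun i => congrArg p (gv_add f hf i)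
  have hflat : ∀ i, ¬ NF Q f hf i → g (i + 1) ∈ openSegment ℝ (g i) (g (i + 2)) := by
    intro i hi
    exact (hQ _ ((mem_cornersOf hf).2 ⟨i, rfl⟩) (not_not.mp hi)).1
  have hturn : ∀ i, NF Q f hf i → 0 < det3 (g i) (g (i + 1)) (g (i + 2)) := by
    intro i hi
    exact hNQ _ ((mem_cornersOf hf).2 ⟨i, rfl⟩) hi
  have hfl1 : ∀ i, a + 1 ≤ i → i + 1 < b + 1 → g (i + 1) ∈ openSegment ℝ (g i) (g (i + 2)) := by
    intro i h1 h2
    apply hflat
    rw [hNF, Nat.mod_eq_of_lt (by omega)]
    omega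
  have hfl2 : ∀ i, b + 1 ≤ i → i + 1 < c + 1 → g (i + 1) ∈ openSegment ℝ (g i) (g (i + 2)) := by
    intro i h1 h2
    apply hflat
    rw [hNF, Nat.mod_eq_of_lt (by omega)]
    omega
  have hfl3 : ∀ i, c + 1 ≤ i → i + 1 < a + 1 + n →
      g (i + 1) ∈ openSegment ℝ (g i) (g (i + 2)) := by
    intro i h1 h2
    apply hflat
    rw [hNF]
    by_cases hin : i < n
    · rw [Nat.mod_eq_of_lt hin]; omega
    · have : i % n = i - n := by
        rw [Nat.mod_eq_sub_mod (by omega), Nat.mod_eq_of_lt (by omega)]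
      rw [this]; omega
  let P : Fin 3 → Plane := ![g (a + 1), g (b + 1), g (c + 1)]
  have hh0 : ∀ x, hh P 0 x = det3 (g (a + 1)) (g (b + 1)) x := fun x => rfl
  have hh1 : ∀ x, hh P 1 x = det3 (g (b + 1)) (g (c + 1)) x := fun x => rfl
  have hh2 : ∀ x, hh P 2 x = det3 (g (c + 1)) (g (a + 1)) x := fun x => rfl
  have hdd : dd P = det3 (g (a + 1)) (g (b + 1)) (g (c + 1)) := rfl
  have hD : 0 < dd P := by
    obtain ⟨κ, hκ, h1⟩ := seg_dart g hfl1 (j := b) (by omega) (by omega)
    have h2 := hturn b ((hNF b).2 (by rw [Nat.mod_eq_of_lt (by omega)]; tauto))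
    rw [h1] at h2
    have h4 : 0 < det3 (g (a + 1)) (g (b + 1)) (g (b + 2)) := by
      by_contra hcon
      have := mul_nonpos_of_nonneg_of_nonpos hκ.le (not_lt.mp hcon)
      linarith
    obtain ⟨α, β, hα, hβ, hαβ, h5⟩ := seg_vert g hfl2 (j := b + 2) (by omega) (by omega)
    rw [← h5] at h4
    have h6 : det3 (g (a + 1)) (g (b + 1)) (α • g (b + 1) + β • g (c + 1)) = β * dd P := by
      rw [hdd]
      have : β = 1 - α := by linarith
      rw [this]
      simp only [det3, Prod.fst_add, Prod.snd_add, Prod.smul_fst, Prod.smul_snd, smul_eq_mul]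
      ring
    rw [h6] at h4
    by_contra hcon
    have := mul_nonpos_of_nonneg_of_nonpos hβ (not_lt.mp hcon)
    linarith
  have hPct : ∀ r, P r ∈ ct P := by
    intro r
    rw [← hull_eq P hD]
    apply subset_convexHull
    fin_cases r <;> simp
  have hshift : ∀ i, ∃ j, a + 1 ≤ j ∧ j < a + 1 + n ∧ g j = g i ∧ g (j + 1) = g (i + 1) := by
    intro i
    have hmod : (a + 1 + (i + (n - 1) * (a + 1)) % n) % n = i % n := by
      rw [Nat.add_mod_mod]
      have : a + 1 + (i + (n - 1) * (a + 1)) = i + n * (a + 1) := by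
        obtain ⟨m, hm⟩ : ∃ m, n = m + 1 := ⟨n - 1, by omega⟩
        rw [hm, Nat.add_sub_cancel]; ring
      rw [this, Nat.add_mul_mod_self_left]
    refine ⟨a + 1 + (i + (n - 1) * (a + 1)) % n, by omega, ?_, ?_, ?_⟩
    · have := Nat.mod_lt (i + (n - 1) * (a + 1)) hf
      omega
    · exact congrArg p (gv_congr f hf hmod)
    · refine congrArg p (gv_congr f hf ?_)
      change (a + 1 + (i + (n - 1) * (a + 1)) % n + 1) % n = (i + 1) % n
      rw [Nat.add_mod, hmod, ← Nat.add_mod]
  have hgA : g (a + 1 + n) = g (a + 1) := hper _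
  have hW : Wk P g n :=
    { pos := hD
      three := h3
      per := hper
      vert := by
        intro i
        obtain ⟨j, hj1, hj2, hj3, _⟩ := hshift i
        rw [← hj3]
        by_cases h1 : j ≤ b + 1
        · exact (convex_ct P).segment_subset (hPct 0) (hPct 1) (seg_vert g hfl1 hj1 h1)
        · by_cases h2 : j ≤ c + 1
          · exact (convex_ct P).segment_subset (hPct 1) (hPct 2)
              (seg_vert g hfl2 (by omega) h2)
          · have := seg_vert g hfl3 (j := j) (by omega) (by omega)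
            rw [hgA] at this
            exact (convex_ct P).segment_subset (hPct 2) (hPct 0) this
      dart := by
        intro i
        obtain ⟨j, hj1, hj2, hj3, hj4⟩ := hshift i
        rw [← hj3, ← hj4]
        by_cases h1 : j < b + 1
        · obtain ⟨κ, hκ, h⟩ := seg_dart g hfl1 hj1 h1
          exact ⟨κ, hκ, 0, fun x => by rw [h, hh0]⟩
        · by_cases h2 : j < c + 1
          · obtain ⟨κ, hκ, h⟩ := seg_dart g hfl2 (j := j) (by omega) h2
            exact ⟨κ, hκ, 1, fun x => by rw [h, hh1]⟩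
          · obtain ⟨κ, hκ, h⟩ := seg_dart g hfl3 (j := j) (by omega) hj2
            exact ⟨κ, hκ, 2, fun x => by rw [h, hh2, hgA]⟩
      fan := by
        intro i h1 h2
        cases f with
        | nil => exact absurd hfan (by simp [FanPos])
        | cons z l =>
          have hch := List.isChain_iff_getElem.mp hfan.2 (i - 1)
            (by rw [hnn, List.length_cons] at h2; omega)
          have e0 : g 0 = p z := congrArg p (gv_of_lt hf hf)
          have e1 : g i = p (l[i - 1]'(by rw [hnn, List.length_cons] at h2; omega)) := by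
            refine congrArg p ?_
            rw [gv_of_lt hf (by omega)]
            rw [List.getElem_cons, dif_neg (by omega)]
          have e2 : g (i + 1) = p (l[i - 1 + 1]'(by rw [hnn, List.length_cons] at h2; omega)) := by
            refine congrArg p ?_
            rw [gv_of_lt hf (by omega)]
            rw [List.getElem_cons, dif_neg (by omega)]
            congr 1
            omega
          rw [e0, e1, e2]
          exact hch }
  refine ⟨g (a + 1), g (b + 1), g (c + 1), hD, ?_⟩
  have hhull : interior (convexHull ℝ ({g (a + 1), g (b + 1), g (c + 1)} : Set Plane)) = ot P := by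
    have := hull_eq P hD
    have e : ({g (a + 1), g (b + 1), g (c + 1)} : Set Plane) = {P 0, P 1, P 2} := rfl
    rw [e, this, interior_ct P hD]
  rw [hhull]
  have hg0 : gv f hf n = gv f hf 0 := 
    gv_congr f hf (by rw [← hnn, Nat.mod_self, Nat.zero_mod])
  apply Set.Subset.antisymm
  · rintro x (⟨t, ht, hx⟩ | ⟨t, ht, d, hd, hdf, hx⟩)
    · obtain ⟨i, h1, h2, rfl⟩ := (mem_fanTris hf).1 ht
      exact hW.fan_sub h1 h2 hx
    · obtain ⟨i, h1, h2, rfl⟩ := (mem_fanTris hf).1 ht
      simp only [triDarts, List.mem_cons, List.not_mem_nil, or_false] at hd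
      rcases hd with rfl | rfl | rfl
      · by_cases hi : i = 1
        · exfalso
          apply hdf
          rw [mem_dartsOf hf]
          exact ⟨0, by rw [hi]⟩
        · exact hW.diag_sub (by omega) h2 hx
      · exfalso
        apply hdf
        rw [mem_dartsOf hf]
        exact ⟨i, rfl⟩
      · by_cases hi : i + 2 = n
        · exfalso
          apply hdf
          rw [mem_dartsOf hf]
          refine ⟨i + 1, ?_⟩
          rw [show i + 1 + 1 = n from hi, hg0]
        · refine hW.diag_sub (i := i + 1) (by omega) (by omega) ?_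
          rw [openSegment_symm]
          exact hx
  · intro x hx
    obtain ⟨i, h1, h2, h | ⟨h, h'⟩⟩ := hW.sup hx
    · exact Or.inl ⟨_, (mem_fanTris hf).2 ⟨i, h1, h2, rfl⟩, h⟩
    · refine Or.inr ⟨_, (mem_fanTris hf).2 ⟨i, h1, h2, rfl⟩, (gv f hf (i + 1), gv f hf 0), ?_, ?_,
        h'⟩
      · simp [triDarts]
      · rw [mem_dartsOf hf]
        rintro ⟨j, hj⟩
        simp only [Prod.mk.injEq] at hj
        have e1 := gv_inj hf hn hj.1
        have e2 := gv_inj hf hn hj.2
        rw [← hnn] at e1 e2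
        have e3 : (i + 1 + 1) % n = 0 := by
          rw [Nat.add_mod, e1, ← Nat.add_mod, ← e2, Nat.zero_mod]
        rw [Nat.mod_eq_of_lt (by omega)] at e3
        omega

end Pool.Agent.SLN
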