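import Pool.Agent.SLN.FaceTri

set_option autoImplicit false

/-!
# G-UNIQ: a vertex which is not a suspension is flat in at most one corner
-/

namespace Pool.Agent.SLN

open Pool.Agent.PAH (Plane det3 ccwAngle LiesLeft dartsOf cornersOf openTri closedTri)

namespace UQ

/-- cross product -/
def cp (x y : Plane) : ℝ := x.1 * y.2 - x.2 * y.1

/-- a half disc contains an initial piece of each ray which points to its side -/
theorem half_ray {R : Set Plane} {u v w e : Plane} (h : Half R u v w)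
    (hv : v ∈ openSegment ℝ u w) (he : 0 < cp (w - u) e) :
    ∀ᶠ t : ℝ in nhdsWithin 0 (Set.Ioi 0), v + t • e ∈ R := by
  obtain ⟨ε, hε, hb⟩ := h
  have hc : Filter.Tendsto (fun t : ℝ => v + t • e) (nhds 0) (nhds v) := by
    have : Continuous (fun t : ℝ => v + t • e) := by fun_prop
    have h2 := this.tendsto 0
    simpa using h2
  have h2 := (hc.eventually (Metric.ball_mem_nhds _ hε)).filter_mono
    (nhdsWithin_le_nhds (s := Set.Ioi (0 : ℝ)))
  filter_upwards [h2, self_mem_nhdsWithin] with t ht ht0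
  apply hb _ ht
  have h3 := FT.det3_openSegment hv
  have h4 : det3 u w (v + t • e) = t * cp (w - u) e - det3 u v w := by
    simp only [det3, cp, Prod.fst_add, Prod.snd_add, Prod.smul_fst, Prod.smul_snd, smul_eq_mul,
      Prod.fst_sub, Prod.snd_sub]
    ring
  rw [h4, h3, sub_zero]
  exact mul_pos ht0 he

/-- two open half planes without common directions are opposite -/
theorem opposite {a b : Plane} (ha : a ≠ 0) (hb : b ≠ 0)
    (h : ∀ e, ¬ (0 < cp a e ∧ 0 < cp b e)) (e : Plane) :
    (cp a e < 0 → 0 < cp b e) := by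
  intro he
  have ha' : 0 < a.1 ^ 2 + a.2 ^ 2 := by
    by_contra hcon
    apply ha
    have h1 : a.1 = 0 := by nlinarith [sq_nonneg a.1, sq_nonneg a.2]
    have h2 : a.2 = 0 := by nlinarith [sq_nonneg a.1, sq_nonneg a.2]
    exact Prod.ext h1 h2
  have hab : cp a b = 0 := by
    by_contra hcon
    apply h ((1 / cp a b) • (b - a))
    have h1 : cp a ((1 / cp a b) • (b - a)) = (1 / cp a b) * cp a b := by
      simp only [cp, Prod.smul_fst, Prod.smul_snd, smul_eq_mul, Prod.fst_sub, Prod.snd_sub]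
      ring
    have h2 : cp b ((1 / cp a b) • (b - a)) = (1 / cp a b) * cp a b := by
      simp only [cp, Prod.smul_fst, Prod.smul_snd, smul_eq_mul, Prod.fst_sub, Prod.snd_sub]
      ring
    rw [h1, h2, one_div, inv_mul_cancel₀ hcon]
    exact ⟨one_pos, one_pos⟩
  have hdot : a.1 * b.1 + a.2 * b.2 ≤ 0 := by
    by_contra hcon
    push Not at hcon
    apply h (-a.2, a.1)
    simp only [cp]
    constructor <;> nlinarith
  -- `b |a|² = (a·b) a`
  have k1 : b.1 * (a.1 ^ 2 + a.2 ^ 2) = (a.1 * b.1 + a.2 * b.2) * a.1 := by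
    simp only [cp] at hab
    linear_combination (-a.2) * hab
  have k2 : b.2 * (a.1 ^ 2 + a.2 ^ 2) = (a.1 * b.1 + a.2 * b.2) * a.2 := by
    simp only [cp] at hab
    linear_combination (a.1) * hab
  have hdot' : a.1 * b.1 + a.2 * b.2 < 0 := by
    rcases hdot.lt_or_eq with h1 | h1
    · exact h1
    · exfalso
      apply hb
      rw [h1, zero_mul] at k1 k2
      have h2 := (mul_eq_zero.1 k1).resolve_right ha'.ne'
      have h3 := (mul_eq_zero.1 k2).resolve_right ha'.ne'
      exact Prod.ext h2 h3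
  have k3 : (a.1 ^ 2 + a.2 ^ 2) * cp b e = (a.1 * b.1 + a.2 * b.2) * cp a e := by
    simp only [cp]
    linear_combination e.2 * k1 - e.1 * k2
  have k4 : 0 < (a.1 ^ 2 + a.2 ^ 2) * cp b e := by
    rw [k3]
    exact mul_pos_of_neg_of_neg hdot' he
  exact (pos_iff_pos_of_mul_pos k4).1 ha'

end UQ

open UQ FT in
/-- G-UNIQ -/
theorem tUniq : TUniq := by
  intro V G S hw hFT h3 f hf g hg k hk l hl hs1 hs2 hs3 hkQ hlQ hkl
  obtain ⟨i, rfl⟩ := List.get_of_mem hf
  obtain ⟨j, rfl⟩ := List.get_of_mem hg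
  have hposi : 0 < (G.inner.get i).length := by have := (hw _ hf).2; omega
  have hposj : 0 < (G.inner.get j).length := by have := (hw _ hg).2; omega
  obtain ⟨a, ha⟩ := (mem_cornersOf hposi).1 hk
  obtain ⟨b, hb⟩ := (mem_cornersOf hposj).1 hl
  by_cases hij : i = j
  · subst hij
    rw [ha, hb] at hkl
    have h4 := gv_inj hposi (hw _ hf).1 hkl
    have h5 : a % (G.inner.get i).length = b % (G.inner.get i).length :=
      Nat.ModEq.add_right_cancel' 1 h4
    have h6 : (a + 2) % (G.inner.get i).length = (b + 2) % (G.inner.get i).length :=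
      Nat.ModEq.add_right 2 h5
    rw [ha, hb, gv_congr _ hposi h4, gv_congr _ hposi h5, gv_congr _ hposi h6]
  exfalso
  obtain ⟨u, v, w⟩ := k
  obtain ⟨u', v', w'⟩ := l
  simp only at hkl hs1 hs2 hs3 hkQ hlQ
  subst hkl
  have hinner : ∀ g ∈ G.inner, ∀ d ∈ dartsOf g, d ∈ G.darts := by
    intro g hg d hd
    unfold PlaneMap.darts PlaneMap.walks
    exact List.mem_flatMap.2 ⟨_, List.mem_cons_of_mem _ hg, hd⟩
  have hdu : (v, u) ∈ G.darts := by
    apply S.symm (u, v)
    apply hinner _ hf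
    rw [Prod.mk.injEq, Prod.mk.injEq] at ha
    rw [ha.1, ha.2.1]
    exact (mem_dartsOf hposi).2 ⟨a, rfl⟩
  have hdw : (v, w) ∈ G.darts := by
    apply hinner _ hf
    rw [Prod.mk.injEq, Prod.mk.injEq] at ha
    rw [ha.2.1, ha.2.2]
    exact (mem_dartsOf hposi).2 ⟨a + 1, rfl⟩
  -- the half discs
  have half_i : S.pos u ≠ S.pos w ∧ Half (S.face i) (S.pos u) (S.pos v) (S.pos w) := by
    rcases (hFT i).1 _ hk with h1 | h1
    · simp only at h1
      rw [det3_openSegment hkQ] at h1
      exact absurd h1 (lt_irrefl _)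
    · exact h1.2
  have half_j : S.pos u' ≠ S.pos w' ∧ Half (S.face j) (S.pos u') (S.pos v) (S.pos w') := by
    rcases (hFT j).1 _ hl with h1 | h1
    · simp only at h1
      rw [det3_openSegment hlQ] at h1
      exact absurd h1 (lt_irrefl _)
    · exact h1.2
  -- the faces are disjoint
  have hdisj : ∀ z, ¬ (z ∈ S.face i ∧ z ∈ S.face j) := by
    rintro z ⟨hz1, hz2⟩
    obtain ⟨x, _, hx⟩ := (S.face_isFace i).component
    obtain ⟨y, _, hy⟩ := (S.face_isFace j).component
    apply hij
    apply S.face_inj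
    rw [hx] at hz1
    rw [hy] at hz2
    rw [hx, hy, connectedComponentIn_eq hz1, connectedComponentIn_eq hz2]
  have hfree : ∀ i, ∀ z ∈ S.face i, ∀ d ∈ G.darts, z ∉ segment ℝ (S.pos d.1) (S.pos d.2) := by
    intro i z hz d hd hzd
    obtain ⟨x, _, hx⟩ := (S.face_isFace i).component
    rw [hx] at hz
    exact connectedComponentIn_subset _ _ hz ⟨d, hd, hzd⟩
  have hopp : ∀ e, cp (S.pos w - S.pos u) e < 0 → 0 < cp (S.pos w' - S.pos u') e := by
    apply opposite
    · exact sub_ne_zero.2 half_i.1.symm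
    · exact sub_ne_zero.2 half_j.1.symm
    · rintro e ⟨h1, h2⟩
      obtain ⟨t, ht⟩ := ((half_ray half_i.2 hkQ h1).and (half_ray half_j.2 hlQ h2)).exists
      exact hdisj _ ht
  obtain ⟨x, hx, hxu, hxw⟩ := h3 v hs1 hs2 hs3 ⟨w, hdw⟩ u w
  set e : Plane := S.pos x - S.pos v with he
  have hxv : S.pos x ≠ S.pos v := by
    intro h
    exact S.loopless _ hx (S.inj (v, x) hx (x, v) (S.symm _ hx) h.symm)
  have he0 : e ≠ 0 := sub_ne_zero.2 hxv
  have hseg : ∀ᶠ t : ℝ in nhdsWithin 0 (Set.Ioi 0),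
      S.pos v + t • e ∈ segment ℝ (S.pos v) (S.pos x) ∧ 0 < t := by
    filter_upwards [Ioo_mem_nhdsGT (zero_lt_one' ℝ)] with t ht
    refine ⟨⟨1 - t, t, by linarith [ht.2], ht.1.le, by ring, ?_⟩, ht.1⟩
    rw [he, smul_sub, sub_smul, one_smul]
    abel
  -- a neighbour in the same direction
  have hover : ∀ z, (v, z) ∈ G.darts → x ≠ z →
      ¬ ∃ τ : ℝ, 0 < τ ∧ S.pos z - S.pos v = τ • e := by
    rintro z hz hxz ⟨τ, hτ, hz'⟩
    have h1 : ∀ᶠ t : ℝ in nhdsWithin 0 (Set.Ioi 0),
        S.pos v + t • e ∈ segment ℝ (S.pos v) (S.pos z) := by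
      filter_upwards [Ioo_mem_nhdsGT hτ] with t ht
      refine ⟨1 - t / τ, t / τ, ?_, (div_pos ht.1 hτ).le, by ring, ?_⟩
      · rw [sub_nonneg, div_le_one hτ]
        exact ht.2.le
      · have h2 : S.pos z = S.pos v + τ • e := by rw [← hz']; abel
        rw [h2, smul_add, smul_smul, div_mul_cancel₀ _ hτ.ne', sub_smul, one_smul]
        abel
    obtain ⟨t, ⟨ht1, ht0⟩, ht2⟩ := (hseg.and h1).exists
    obtain ⟨y, hy1, hy2, hy3⟩ := S.noncrossing (v, x) hx (v, z) hz
      (by
        intro h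
        exact hxz (congrArg Prod.snd h).symm)
      (by
        intro h
        exact S.loopless _ hx (congrArg Prod.fst h)) _ ht1 ht2
    have hyv : y = v := by
      rcases hy1 with h | h
      · exact h
      · rcases hy2 with h' | h'
        · exact h'
        · exact absurd (h.symm.trans h') hxz
    rw [hyv] at hy3
    have h4 : t • e = 0 := by simpa using hy3
    rcases smul_eq_zero.1 h4 with h5 | h5
    · exact ht0.ne' h5
    · exact he0 h5
  rcases lt_trichotomy (cp (S.pos w - S.pos u) e) 0 with h1 | h1 | h1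
  · obtain ⟨t, ht1, ht2, _⟩ := ((half_ray half_j.2 hlQ (hopp e h1)).and hseg).exists
    exact hfree j _ ht1 (v, x) hx ht2
  · -- on the line
    obtain ⟨r, s, hr, hs, hrs, hv⟩ := hkQ
    have ewv : S.pos w - S.pos v = r • (S.pos w - S.pos u) := by
      rw [← hv, show s = 1 - r by linarith]
      apply Prod.ext
      · simp only [Prod.fst_sub, Prod.fst_add, Prod.smul_fst, smul_eq_mul]; ring
      · simp only [Prod.snd_sub, Prod.snd_add, Prod.smul_snd, smul_eq_mul]; ring
    have euv : S.pos u - S.pos v = (-s) • (S.pos w - S.pos u) := by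
      rw [← hv, show r = 1 - s by linarith]
      apply Prod.ext
      · simp only [Prod.fst_sub, Prod.fst_add, Prod.smul_fst, smul_eq_mul]; ring
      · simp only [Prod.snd_sub, Prod.snd_add, Prod.smul_snd, smul_eq_mul]; ring
    set c : Plane := S.pos w - S.pos u with hc
    have he2 : 0 < e.1 ^ 2 + e.2 ^ 2 := by
      by_contra hcon
      apply he0
      have h4 : e.1 = 0 := by nlinarith [sq_nonneg e.1, sq_nonneg e.2]
      have h5 : e.2 = 0 := by nlinarith [sq_nonneg e.1, sq_nonneg e.2]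
      exact Prod.ext h4 h5
    have hce : c = ((c.1 * e.1 + c.2 * e.2) / (e.1 ^ 2 + e.2 ^ 2)) • e := by
      simp only [cp] at h1
      apply Prod.ext
      · simp only [Prod.smul_fst, smul_eq_mul]
        field_simp
        linear_combination e.2 * h1
      · simp only [Prod.smul_snd, smul_eq_mul]
        field_simp
        linear_combination (-e.1) * h1
    set τ : ℝ := (c.1 * e.1 + c.2 * e.2) / (e.1 ^ 2 + e.2 ^ 2) with hτ
    have hτ0 : τ ≠ 0 := by
      intro h
      rw [h, zero_smul] at hce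
      exact sub_ne_zero.2 half_i.1.symm hce
    rcases lt_or_gt_of_ne hτ0 with h4 | h4
    · apply hover u hdu hxu
      refine ⟨(-s) * τ, mul_pos_of_neg_of_neg (by linarith) h4, ?_⟩
      rw [euv, hce, smul_smul]
    · apply hover w hdw hxw
      refine ⟨r * τ, mul_pos hr h4, ?_⟩
      rw [ewv, hce, smul_smul]
  · obtain ⟨t, ht1, ht2, _⟩ := ((half_ray half_i.2 hkQ h1).and hseg).exists
    exact hfree i _ ht1 (v, x) hx ht2

end Pool.Agent.SLN
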