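import Pool.Agent.SLN.Lib

set_option autoImplicit false

/-!
# F-WALK and F-FANGRID
-/

namespace Pool.Agent.SLN

open Pool.Agent.PAH (Plane det3 ccwAngle LiesLeft dartsOf cornersOf ChainEq FanPos)

namespace WALK_

/-! ### Kinds of the vertices -/

theorem kind_hub (N i b c : ℕ) : (hub N i b c).2.2 = 0 ∨ (hub N i b c).2.2 = 1 ∨
    (hub N i b c).2.2 = i := by
  unfold hub
  split_ifs <;> simp [s1, s2]

theorem kind_pp (N b j : ℕ) : (pp N b j).2.2 = 0 ∨ (pp N b j).2.2 = 1 ∨
    (pp N b j).2.2 = 9 := by
  unfold pp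
  split_ifs <;> simp [s1, s2]

theorem kind_nd (r k i : ℕ) : (nd r k i).2.2 = 12 + i := rfl

theorem nd_inj {r k i j : ℕ} : nd r k i = nd r k j ↔ i = j := by
  unfold nd
  simp

theorem ne_nd {a : VX} (h : a.2.2 < 12) (r k j : ℕ) : a ≠ nd r k j := by
  intro e
  rw [e, kind_nd] at h
  omega

theorem nd_ne {a : VX} (h : a.2.2 < 12) (r k j : ℕ) : nd r k j ≠ a := (ne_nd h r k j).symm

theorem ne_of_kind {a b : VX} (h : a.2.2 ≠ b.2.2) : a ≠ b := fun e => h (by rw [e])

/-! ### Walks -/

/-- the corners of a tile -/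
structure TC (a b c d : VX) : Prop where
  ka : a.2.2 < 12
  kb : b.2.2 < 12
  kc : c.2.2 < 12
  kd : d.2.2 < 12
  ab : a ≠ b
  bc : b ≠ c
  cd : c ≠ d
  da : d ≠ a
  ac : a ≠ c

theorem prism_walk {s b t : VX} {r k i j l : ℕ} (ks : s.2.2 < 12) (kb : b.2.2 < 12)
    (kt : t.2.2 < 12) (sb : s ≠ b) (bt : b ≠ t) (hij : i ≠ j) (hil : i ≠ l) (hjl : j ≠ l) :
    ∀ f ∈ prism s b t (nd r k i) (nd r k j) (nd r k l), f.Nodup ∧ 3 ≤ f.length := by
  intro f hf
  simp only [prism, List.mem_cons, List.not_mem_nil, or_false] at hf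
  rcases hf with rfl | rfl | rfl
  · refine ⟨?_, by simp⟩
    simp [List.nodup_cons, nd_inj, ne_nd ks, ne_nd kb, sb, hij]
  · refine ⟨?_, by simp⟩
    simp [List.nodup_cons, nd_inj, ne_nd kb, ne_nd kt, nd_ne kb, nd_ne kt, bt, hil]
  · refine ⟨?_, by simp⟩
    simp [List.nodup_cons, nd_inj, hij.symm, hil, hjl]

theorem tile_walk {a b c d : VX} (h : TC a b c d) {r k i : ℕ} :
    ∀ f ∈ tile a b c d r k i, f.Nodup ∧ 3 ≤ f.length := by
  intro f hf
  unfold tile at hf
  rcases List.mem_append.mp hf with hf | hf
  · rcases List.mem_append.mp hf with hf | hf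
    · exact prism_walk h.ka h.kb h.kc h.ab h.bc (by omega) (by omega) (by omega) f hf
    · exact prism_walk h.kc h.kd h.ka h.cd h.da (by omega) (by omega) (by omega) f hf
  · simp only [List.mem_cons, List.not_mem_nil, or_false] at hf
    subst hf
    refine ⟨?_, by simp⟩
    simp [List.nodup_cons, nd_inj, ne_nd h.ka, ne_nd h.kc, nd_ne h.kc, h.ac]

theorem tcA (N r c : ℕ) : TC (uu r c) (hy N (r + 1) c) (xx r c) (hy N r c) := by
  have h1 := kind_hub N 6 (r + 1) c
  have h2 := kind_hub N 6 r c
  change (hy N (r + 1) c).2.2 = 0 ∨ (hy N (r + 1) c).2.2 = 1 ∨ (hy N (r + 1) c).2.2 = 6 at h1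
  change (hy N r c).2.2 = 0 ∨ (hy N r c).2.2 = 1 ∨ (hy N r c).2.2 = 6 at h2
  constructor
  · simp [uu]
  · omega
  · simp [xx]
  · omega
  · apply ne_of_kind; simp only [uu]; omega
  · apply ne_of_kind; simp only [xx]; omega
  · apply ne_of_kind; simp only [xx]; omega
  · apply ne_of_kind; simp only [uu]; omega
  · apply ne_of_kind; simp [uu, xx]

theorem tcB (N r c : ℕ) : TC (xx r c) (hc N (r + 1) c) (qq r c) (hd N r c) := by
  have h1 := kind_hub N 7 (r + 1) c
  have h2 := kind_hub N 8 r c
  change (hc N (r + 1) c).2.2 = 0 ∨ (hc N (r + 1) c).2.2 = 1 ∨ (hc N (r + 1) c).2.2 = 7 at h1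
  change (hd N r c).2.2 = 0 ∨ (hd N r c).2.2 = 1 ∨ (hd N r c).2.2 = 8 at h2
  constructor
  · simp [xx]
  · omega
  · simp [qq]
  · omega
  · apply ne_of_kind; simp only [xx]; omega
  · apply ne_of_kind; simp only [qq]; omega
  · apply ne_of_kind; simp only [qq]; omega
  · apply ne_of_kind; simp only [xx]; omega
  · apply ne_of_kind; simp [qq, xx]

theorem tcW (N r c : ℕ) : TC (qq r c) (pp N (r + 1) (c + 1)) (uu r (c + 1)) (pp N r (c + 1)) := by
  have h1 := kind_pp N (r + 1) (c + 1)
  have h2 := kind_pp N r (c + 1)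
  constructor
  · simp [qq]
  · omega
  · simp [uu]
  · omega
  · apply ne_of_kind; simp only [qq]; omega
  · apply ne_of_kind; simp only [uu]; omega
  · apply ne_of_kind; simp only [uu]; omega
  · apply ne_of_kind; simp only [qq]; omega
  · apply ne_of_kind; simp [qq, uu]

theorem tcV (N r : ℕ) : TC (uu r 0) s1 (uu (r + 1) 0) (hy N (r + 1) 0) := by
  have h2 := kind_hub N 6 (r + 1) 0
  change (hy N (r + 1) 0).2.2 = 0 ∨ (hy N (r + 1) 0).2.2 = 1 ∨ (hy N (r + 1) 0).2.2 = 6 at h2
  constructor
  · simp [uu]
  · simp [s1]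
  · simp [uu]
  · omega
  · apply ne_of_kind; simp [uu, s1]
  · apply ne_of_kind; simp [uu, s1]
  · apply ne_of_kind; simp only [uu]; omega
  · apply ne_of_kind; simp only [uu]; omega
  · simp [uu]

theorem thin_nodup {N : ℕ} (hN : 2 ≤ N) (r c : ℕ) :
    [qq r c, pp N (r + 1) (c + 1), uu r (c + 1), pp N r (c + 1)].Nodup := by
  have t := tcW N r c
  have hpp : pp N (r + 1) (c + 1) ≠ pp N r (c + 1) := by
    unfold pp
    rw [if_neg (by omega)]
    by_cases h1 : r + 1 = N
    · rw [if_pos h1]
      by_cases h2 : r = 0 ∨ c + 1 = 0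
      · omega
      · rw [if_neg h2, if_neg (by omega)]
        simp [s2]
    · rw [if_neg h1]
      by_cases h2 : r = 0 ∨ c + 1 = 0
      · rw [if_pos h2]
        simp [s1]
      · rw [if_neg h2]
        by_cases h3 : r = N
        · rw [if_pos h3]
          simp [s2]
        · rw [if_neg h3]
          simp
  simp [List.nodup_cons, t.ab, t.bc, t.da.symm, t.ac, t.cd, hpp]

theorem left_walk {N r c : ℕ} (hr : r + 1 < N) :
    ∀ f ∈ leftFaces N r c, f.Nodup ∧ 3 ≤ f.length := by
  intro f hf
  unfold leftFaces at hf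
  split_ifs at hf with h
  · exact tile_walk (tcV N r) f hf
  · rw [hy_of (by omega) hr] at hf
    have hk := kind_pp N (r + 1) c
    simp only [List.mem_cons, List.not_mem_nil, or_false] at hf
    have n1 : pp N (r + 1) c ≠ (r + 1, c, 6) := by
      apply ne_of_kind
      simp only
      omega
    have n2 : ∀ s, pp N (r + 1) c ≠ uu s c := by
      intro s
      apply ne_of_kind
      simp only [uu]
      omega
    rcases hf with rfl | rfl
    · refine ⟨?_, by simp⟩
      simp [List.nodup_cons, n1, n2]
      simp [uu]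
    · refine ⟨?_, by simp⟩
      simp [List.nodup_cons, n1, n2]
      simp [uu]

theorem mid_walk {N r c : ℕ} (hr : r + 1 < N) :
    ∀ f ∈ midFaces N r c, f.Nodup ∧ 3 ≤ f.length := by
  intro f hf
  unfold midFaces at hf
  rw [hy_of (by omega) hr, hc_of (by omega) hr, hd_of (by omega) hr, pp_of (by omega) hr] at hf
  simp only [List.mem_cons, List.not_mem_nil, or_false] at hf
  rcases hf with rfl | rfl | rfl | rfl | rfl | rfl <;>
    exact ⟨by simp [List.nodup_cons, xx, vv, ww, qq], by simp⟩

theorem dead_walk {N b c : ℕ} (hb : 1 ≤ b) (hb' : b < N) :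
    ∀ f ∈ deadFaces N b c, f.Nodup ∧ 3 ≤ f.length := by
  intro f hf
  unfold deadFaces at hf
  rcases List.mem_append.mp hf with hf | hf
  · rw [hy_of hb hb', hc_of hb hb', hd_of hb hb', pp_of hb hb'] at hf
    rcases List.mem_append.mp hf with hf | hf
    · rcases List.mem_append.mp hf with hf | hf
      · exact prism_walk (by simp) (by simp) (by simp [vv]) (by simp) (by simp [vv])
          (by omega) (by omega) (by omega) f hf
      · exact prism_walk (by simp [vv]) (by simp) (by simp [ww]) (by simp [vv]) (by simp [ww])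
          (by omega) (by omega) (by omega) f hf
    · exact prism_walk (by simp [ww]) (by simp) (by simp) (by simp [ww]) (by simp)
        (by omega) (by omega) (by omega) f hf
  · simp only [List.mem_cons, List.not_mem_nil, or_false] at hf
    subst hf
    unfold centre
    rw [pp_of hb hb']
    exact ⟨by simp [List.nodup_cons, vv, ww, nd], by simp⟩

theorem right_walk {N M r : ℕ} : ∀ f ∈ rightFaces N M r, f.Nodup ∧ 3 ≤ f.length := by
  intro f hf
  unfold rightFaces at hf
  have h1 := kind_pp N (r + 1) M
  have h2 := kind_pp N r M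
  have n1 : pp N (r + 1) M ≠ s3 := by
    apply ne_of_kind
    simp only [s3]
    omega
  have n2 : uu r M ≠ pp N (r + 1) M := by
    apply ne_of_kind
    simp only [uu]
    omega
  have n3 : pp N r M ≠ s3 := by
    apply ne_of_kind
    simp only [s3]
    omega
  have n4 : pp N r M ≠ uu r M := by
    apply ne_of_kind
    simp only [uu]
    omega
  have n5 : uu r M ≠ s3 := by
    simp [uu, s3]
  simp only [List.mem_cons, List.not_mem_nil, or_false] at hf
  rcases hf with rfl | rfl
  · exact ⟨by simp [List.nodup_cons, n1, n2, n5], by simp⟩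
  · exact ⟨by simp [List.nodup_cons, n3, n4, n5], by simp⟩

/-! ### Fans -/

/-- the conclusion of F-FANGRID for one walk -/
def Good (A : VX → Option (VX × VX)) (f : List VX) : Prop :=
  f.length = 3 ∨ ∃ k z l, f.rotate k = z :: l ∧
    ∀ c ∈ cornersOf (z :: l), c.1 = z ∨ c.2.2 = z → A c.2.1 ≠ some (c.1, c.2.2)

theorem good4 {A : VX → Option (VX × VX)} {z u v w : VX} {f : List VX}
    (hn : [z, u, v, w].Nodup) (h1 : A u ≠ some (z, v)) (h2 : A w ≠ some (v, z)) (k : ℕ)
    (hf : f.rotate k = [z, u, v, w]) : Good A f := by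
  refine Or.inr ⟨k, z, [u, v, w], hf, ?_⟩
  intro c hc h
  have e : cornersOf [z, u, v, w] = [(z, u, v), (u, v, w), (v, w, z), (w, z, u)] := rfl
  rw [e] at hc
  simp only [List.nodup_cons, List.mem_cons, List.not_mem_nil, or_false, not_or] at hn hc
  obtain ⟨⟨n1, n2, n3⟩, -⟩ := hn
  rcases hc with rfl | rfl | rfl | rfl
  · exact h1
  · rcases h with h | h
    · exact absurd h.symm n1
    · exact absurd h.symm n3
  · exact h2
  · rcases h with h | h
    · exact absurd h.symm n3
    · exact absurd h.symm n1

theorem good6 {A : VX → Option (VX × VX)} {z u v w x y : VX} {f : List VX}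
    (hn : [z, u, v, w, x, y].Nodup) (h1 : A u ≠ some (z, v)) (h2 : A y ≠ some (x, z)) (k : ℕ)
    (hf : f.rotate k = [z, u, v, w, x, y]) : Good A f := by
  refine Or.inr ⟨k, z, [u, v, w, x, y], hf, ?_⟩
  intro c hc h
  have e : cornersOf [z, u, v, w, x, y] =
    [(z, u, v), (u, v, w), (v, w, x), (w, x, y), (x, y, z), (y, z, u)] := rfl
  rw [e] at hc
  simp only [List.nodup_cons, List.mem_cons, List.not_mem_nil, or_false, not_or] at hn hc
  obtain ⟨⟨n1, n2, n3, n4, n5⟩, -⟩ := hn
  rcases hc with rfl | rfl | rfl | rfl | rfl | rfl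
  · exact h1
  · rcases h with h | h
    · exact absurd h.symm n1
    · exact absurd h.symm n3
  · rcases h with h | h
    · exact absurd h.symm n2
    · exact absurd h.symm n4
  · rcases h with h | h
    · exact absurd h.symm n3
    · exact absurd h.symm n5
  · exact h2
  · rcases h with h | h
    · exact absurd h.symm n5
    · exact absurd h.symm n1

theorem good9 {A : VX → Option (VX × VX)} {z a₁ a₂ a₃ a₄ a₅ a₆ a₇ a₈ : VX} {f : List VX}
    (hn : [z, a₁, a₂, a₃, a₄, a₅, a₆, a₇, a₈].Nodup) (h1 : A a₁ ≠ some (z, a₂))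
    (h2 : A a₈ ≠ some (a₇, z)) (k : ℕ)
    (hf : f.rotate k = [z, a₁, a₂, a₃, a₄, a₅, a₆, a₇, a₈]) : Good A f := by
  refine Or.inr ⟨k, z, [a₁, a₂, a₃, a₄, a₅, a₆, a₇, a₈], hf, ?_⟩
  intro c hc h
  have e : cornersOf [z, a₁, a₂, a₃, a₄, a₅, a₆, a₇, a₈] =
    [(z, a₁, a₂), (a₁, a₂, a₃), (a₂, a₃, a₄), (a₃, a₄, a₅), (a₄, a₅, a₆), (a₅, a₆, a₇),
      (a₆, a₇, a₈), (a₇, a₈, z), (a₈, z, a₁)] := rfl
  rw [e] at hc
  simp only [List.nodup_cons, List.mem_cons, List.not_mem_nil, or_false, not_or] at hn hc
  obtain ⟨⟨n1, n2, n3, n4, n5, n6, n7, n8⟩, -⟩ := hn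
  rcases hc with rfl | rfl | rfl | rfl | rfl | rfl | rfl | rfl | rfl
  · exact h1
  · rcases h with h | h
    · exact absurd h.symm n1
    · exact absurd h.symm n3
  · rcases h with h | h
    · exact absurd h.symm n2
    · exact absurd h.symm n4
  · rcases h with h | h
    · exact absurd h.symm n3
    · exact absurd h.symm n5
  · rcases h with h | h
    · exact absurd h.symm n4
    · exact absurd h.symm n6
  · rcases h with h | h
    · exact absurd h.symm n5
    · exact absurd h.symm n7
  · rcases h with h | h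
    · exact absurd h.symm n6
    · exact absurd h.symm n8
  · exact h2
  · rcases h with h | h
    · exact absurd h.symm n8
    · exact absurd h.symm n1

/-- what is needed to know about the flat corners of a tile -/
structure TF (A : VX → Option (VX × VX)) (a b c d : VX) (r k i : ℕ) : Prop where
  n0 : A (nd r k i) = some (b, nd r k (i + 1))
  n1 : A (nd r k (i + 1)) = some (a, nd r k (i + 2))
  n2 : A (nd r k (i + 2)) = some (c, nd r k i)
  n3 : A (nd r k (i + 3)) = some (c, nd r k (i + 4))
  n4 : A (nd r k (i + 4)) = some (a, nd r k (i + 5))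
  n5 : A (nd r k (i + 5)) = some (d, nd r k (i + 3))
  fb : A b ≠ some (a, nd r k i)
  fc : A c ≠ some (b, nd r k (i + 2))
  fd : A d ≠ some (c, nd r k (i + 5))
  fa : A a ≠ some (d, nd r k (i + 4))
  ac : A a ≠ some (nd r k (i + 4), nd r k (i + 1)) ∨ A c ≠ some (nd r k (i + 2), nd r k (i + 3))

theorem some_ne_left {x y x' y' : VX} (h : x ≠ x') : some (x, y) ≠ some (x', y') := by
  intro e
  rw [Option.some.injEq, Prod.mk.injEq] at e
  exact h e.1

theorem tile_good {A : VX → Option (VX × VX)} {a b c d : VX} {r k i : ℕ} (h : TC a b c d)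
    (g : TF A a b c d r k i) : ∀ f ∈ tile a b c d r k i, Good A f := by
  intro f hf
  unfold tile at hf
  rcases List.mem_append.mp hf with hf | hf
  · rcases List.mem_append.mp hf with hf | hf
    · simp only [prism, List.mem_cons, List.not_mem_nil, or_false] at hf
      rcases hf with rfl | rfl | rfl
      · refine good4 (z := nd r k i) (u := nd r k (i + 1)) (v := a) (w := b) ?_ ?_ g.fb 2 rfl
        · simp [List.nodup_cons, nd_inj, nd_ne h.ka, nd_ne h.kb, h.ab]
        · rw [g.n1]
          exact some_ne_left (ne_nd h.ka _ _ _)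
      · refine good4 (z := nd r k (i + 2)) (u := nd r k i) (v := b) (w := c) ?_ ?_ g.fc 3 rfl
        · simp [List.nodup_cons, nd_inj, nd_ne h.kc, nd_ne h.kb, h.bc]
        · rw [g.n0]
          exact some_ne_left (ne_nd h.kb _ _ _)
      · exact Or.inl rfl
    · simp only [prism, List.mem_cons, List.not_mem_nil, or_false] at hf
      rcases hf with rfl | rfl | rfl
      · refine good4 (z := nd r k (i + 5)) (u := nd r k (i + 3)) (v := c) (w := d) ?_ ?_ g.fd 2
          rfl
        · simp [List.nodup_cons, nd_inj, nd_ne h.kc, nd_ne h.kd, h.cd]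
        · rw [g.n3]
          exact some_ne_left (ne_nd h.kc _ _ _)
      · refine good4 (z := nd r k (i + 4)) (u := nd r k (i + 5)) (v := d) (w := a) ?_ ?_ g.fa 3
          rfl
        · simp [List.nodup_cons, nd_inj, nd_ne h.ka, nd_ne h.kd, h.da]
        · rw [g.n5]
          exact some_ne_left (ne_nd h.kd _ _ _)
      · exact Or.inl rfl
  · simp only [List.mem_cons, List.not_mem_nil, or_false] at hf
    subst hf
    rcases g.ac with g1 | g1
    · refine good6 (z := nd r k (i + 1)) (u := nd r k (i + 2)) (v := c) (w := nd r k (i + 3))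
        (x := nd r k (i + 4)) (y := a) ?_ ?_ g1 1 rfl
      · simp [List.nodup_cons, nd_inj, nd_ne h.ka, nd_ne h.kc, ne_nd h.kc, h.ac.symm]
      · rw [g.n2]
        exact some_ne_left (ne_nd h.kc _ _ _)
    · refine good6 (z := nd r k (i + 3)) (u := nd r k (i + 4)) (v := a) (w := nd r k (i + 1))
        (x := nd r k (i + 2)) (y := c) ?_ ?_ g1 4 rfl
      · simp [List.nodup_cons, nd_inj, nd_ne h.ka, nd_ne h.kc, ne_nd h.ka, h.ac]
      · rw [g.n4]
        exact some_ne_left (ne_nd h.ka _ _ _)

/-! ### Values of the assignment -/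

theorem asg_hub {N M : ℕ} {B : ℕ → ℕ → Bool} {R : ℕ → Bool} (i b c : ℕ) (h1 : 6 ≤ i)
    (h2 : i < 9) : asg N M B R (hub N i b c) = none := by
  unfold hub
  split_ifs
  · rfl
  · rfl
  · unfold asg
    simp only
    rw [if_neg (by omega), if_neg (by omega), if_neg (by omega), if_neg (by omega), if_pos h2]

theorem asg_s1 {N M : ℕ} {B : ℕ → ℕ → Bool} {R : ℕ → Bool} : asg N M B R s1 = none := rfl

theorem asg_pp {N M : ℕ} {B : ℕ → ℕ → Bool} {R : ℕ → Bool} (b j : ℕ) {x y : VX}
    (hx : x.2.2 ≠ 44) : asg N M B R (pp N b j) ≠ some (x, y) := by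
  unfold pp
  split_ifs
  · exact fun h => by simp [asg, s1] at h
  · exact fun h => by simp [asg, s2] at h
  · intro h
    simp only [asg, nd] at h
    norm_num at h
    apply hx
    rw [← h.1]

theorem asg_xx {N M : ℕ} {B : ℕ → ℕ → Bool} {R : ℕ → Bool} (r c : ℕ) :
    asg N M B R (xx r c) = if R r then some (nd r c 2, nd r c 3) else
      some (nd r c 10, nd r c 7) := rfl

theorem asg_qq {N M : ℕ} {B : ℕ → ℕ → Bool} {R : ℕ → Bool} (r c : ℕ) :
    asg N M B R (qq r c) = if R r then some (nd r c 8, nd r c 9)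
      else if B r c then some (nd r c 16, nd r c 13)
      else some (pp N r (c + 1), pp N (r + 1) (c + 1)) := rfl

theorem asg_uu {N M : ℕ} {B : ℕ → ℕ → Bool} {R : ℕ → Bool} (r j : ℕ) :
    asg N M B R (uu r j) = if R r then
      (if j = 0 then
        (if r % 2 = 0 then some (nd r 0 22, nd r 0 19)
          else some (nd (r - 1) 0 20, nd (r - 1) 0 21))
      else if B r (j - 1) then some (nd r (j - 1) 14, nd r (j - 1) 15)
      else some (pp N (r + 1) j, pp N r j))
    else if j = M then none else some (nd r j 4, nd r j 1) := rfl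

theorem ne_kind {x y x' y' : VX} (h : x.2.2 ≠ x'.2.2 ∨ y.2.2 ≠ y'.2.2) :
    some (x, y) ≠ some (x', y') := by
  intro e
  rw [Option.some.injEq, Prod.mk.injEq] at e
  rcases h with h | h
  · exact h (by rw [e.1])
  · exact h (by rw [e.2])

theorem uu_ne {N M : ℕ} {B : ℕ → ℕ → Bool} {R : ℕ → Bool} (r j : ℕ) {x y : VX}
    (h1 : ¬ (x.2.2 = 34 ∧ y.2.2 = 31)) (h2 : ¬ (x.2.2 = 32 ∧ y.2.2 = 33))
    (h3 : ¬ (x.2.2 = 26 ∧ y.2.2 = 27)) (h4 : ¬ (x.2.2 < 12 ∧ y.2.2 < 12))
    (h5 : ¬ (x.2.2 = 16 ∧ y.2.2 = 13)) : asg N M B R (uu r j) ≠ some (x, y) := by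
  rw [asg_uu]
  have k1 := kind_pp N (r + 1) j
  have k2 := kind_pp N r j
  split_ifs
  · apply ne_kind; simp only [kind_nd]; omega
  · apply ne_kind; simp only [kind_nd]; omega
  · apply ne_kind; simp only [kind_nd]; omega
  · apply ne_kind; omega
  · simp
  · apply ne_kind; simp only [kind_nd]; omega

/-- an assignment of the inner vertices of the first tile -/
theorem tfA {N M : ℕ} {B : ℕ → ℕ → Bool} {R : ℕ → Bool} (r c : ℕ) :
    TF (asg N M B R) (uu r c) (hy N (r + 1) c) (xx r c) (hy N r c) r c 0 := by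
  refine ⟨rfl, rfl, rfl, rfl, rfl, rfl, ?_, ?_, ?_, ?_, ?_⟩
  · unfold hy
    rw [asg_hub _ _ _ (by norm_num) (by norm_num)]
    simp
  · have h1 := kind_hub N 6 (r + 1) c
    unfold hy
    rw [asg_xx]
    split_ifs
    · apply ne_kind; simp only [kind_nd]; omega
    · apply ne_kind; simp only [kind_nd]; omega
  · unfold hy
    rw [asg_hub _ _ _ (by norm_num) (by norm_num)]
    simp
  · have h1 := kind_hub N 6 r c
    unfold hy
    apply uu_ne <;> simp only [kind_nd] <;> omega
  · cases h : R r
    · right
      rw [asg_xx, h]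
      apply ne_kind; simp only [kind_nd]; omega
    · left
      rw [asg_uu, h]
      have k1 := kind_pp N (r + 1) c
      have k2 := kind_pp N r c
      simp only [if_true]
      split_ifs
      · apply ne_kind; simp only [kind_nd]; omega
      · apply ne_kind; simp only [kind_nd]; omega
      · apply ne_kind; simp only [kind_nd]; omega
      · apply ne_kind; simp only [kind_nd]; omega

theorem tfB {N M : ℕ} {B : ℕ → ℕ → Bool} {R : ℕ → Bool} (r c : ℕ) :
    TF (asg N M B R) (xx r c) (hc N (r + 1) c) (qq r c) (hd N r c) r c 6 := by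
  refine ⟨rfl, rfl, rfl, rfl, rfl, rfl, ?_, ?_, ?_, ?_, ?_⟩
  · unfold hc
    rw [asg_hub _ _ _ (by norm_num) (by norm_num)]
    simp
  · have h1 := kind_hub N 7 (r + 1) c
    have k1 := kind_pp N (r + 1) (c + 1)
    have k2 := kind_pp N r (c + 1)
    unfold hc
    rw [asg_qq]
    split_ifs
    · apply ne_kind; simp only [kind_nd]; omega
    · apply ne_kind; simp only [kind_nd]; omega
    · apply ne_kind; simp only [kind_nd]; omega
  · unfold hd
    rw [asg_hub _ _ _ (by norm_num) (by norm_num)]
    simp
  · have h1 := kind_hub N 8 r c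
    unfold hd
    rw [asg_xx]
    split_ifs
    · apply ne_kind; simp only [kind_nd]; omega
    · apply ne_kind; simp only [kind_nd]; omega
  · cases h : R r
    · right
      rw [asg_qq, h]
      have k1 := kind_pp N (r + 1) (c + 1)
      have k2 := kind_pp N r (c + 1)
      simp only [Bool.false_eq_true, if_false]
      split_ifs
      · apply ne_kind; simp only [kind_nd]; omega
      · apply ne_kind; simp only [kind_nd]; omega
    · left
      rw [asg_xx, h]
      apply ne_kind; simp only [kind_nd]; omega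

theorem tfW {N M : ℕ} {B : ℕ → ℕ → Bool} {R : ℕ → Bool} {r c : ℕ} (hB : B r c = true) :
    TF (asg N M B R) (qq r c) (pp N (r + 1) (c + 1)) (uu r (c + 1)) (pp N r (c + 1)) r c
      12 := by
  refine ⟨rfl, rfl, rfl, rfl, rfl, rfl, ?_, ?_, ?_, ?_, ?_⟩
  · apply asg_pp
    simp [qq]
  · have k1 := kind_pp N (r + 1) (c + 1)
    apply uu_ne <;> simp only [kind_nd] <;> omega
  · apply asg_pp
    simp [uu]
  · have k2 := kind_pp N r (c + 1)
    rw [asg_qq, hB]
    simp only [if_true]
    split_ifs
    · apply ne_kind; simp only [kind_nd]; omega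
    · apply ne_kind; simp only [kind_nd]; omega
  · cases h : R r
    · right
      rw [asg_uu, h]
      simp only [Bool.false_eq_true, if_false]
      split_ifs
      · simp
      · apply ne_kind; simp only [kind_nd]; omega
    · left
      rw [asg_qq, h]
      apply ne_kind; simp only [kind_nd]; omega

theorem tfV {N M : ℕ} {B : ℕ → ℕ → Bool} {R : ℕ → Bool} {r : ℕ}
    (hR : R r = !R (r + 1)) (hM : 1 ≤ M) :
    TF (asg N M B R) (uu r 0) s1 (uu (r + 1) 0) (hy N (r + 1) 0) r 0 18 := by
  refine ⟨rfl, rfl, rfl, rfl, rfl, rfl, ?_, ?_, ?_, ?_, ?_⟩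
  · rw [asg_s1]
    simp
  · apply uu_ne <;> simp [kind_nd, s1]
  · unfold hy
    rw [asg_hub _ _ _ (by norm_num) (by norm_num)]
    simp
  · have h1 := kind_hub N 6 (r + 1) 0
    unfold hy
    apply uu_ne <;> simp only [kind_nd] <;> omega
  · cases h : R (r + 1)
    · right
      rw [asg_uu, h]
      simp only [Bool.false_eq_true, if_false]
      rw [if_neg (by omega)]
      apply ne_kind; simp only [kind_nd]; omega
    · left
      rw [h] at hR
      rw [asg_uu, hR]
      simp only [Bool.not_true, Bool.false_eq_true, if_false]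
      rw [if_neg (by omega)]
      apply ne_kind; simp only [kind_nd]; omega

theorem thin_good {N M : ℕ} {B : ℕ → ℕ → Bool} {R : ℕ → Bool} (hN : 2 ≤ N) (r c : ℕ) :
    Good (asg N M B R) [qq r c, pp N (r + 1) (c + 1), uu r (c + 1), pp N r (c + 1)] := by
  refine good4 (thin_nodup hN r c) ?_ ?_ 0 rfl
  · apply asg_pp
    simp [qq]
  · apply asg_pp
    simp [uu]

/-! ### The dead gadget -/

theorem dead_good {N M : ℕ} {B : ℕ → ℕ → Bool} {R : ℕ → Bool} {b c : ℕ} (hb : 1 ≤ b)
    (hb' : b < N) : ∀ f ∈ deadFaces N b c, Good (asg N M B R) f := by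
  intro f hf
  have ha : ∀ i, asg N M B R (nd b c (24 + i)) = deadAsg N b c i := by
    intro i
    unfold asg nd
    simp only
    rw [if_neg (by omega), if_neg (by omega), if_neg (by omega), if_neg (by omega),
      if_neg (by omega), if_neg (by omega), if_neg (by omega), if_neg (by omega),
      if_neg (by omega), if_neg (by omega), if_neg (by omega), if_neg (by omega)]
    congr 1
    omega
  have av : asg N M B R (vv b c) = some (nd b c 26, nd b c 28) := rfl
  have aw : asg N M B R (ww b c) = some (nd b c 29, nd b c 31) := rfl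
  have a24 : asg N M B R (nd b c 24) = some (hc N b c, nd b c 25) := ha 0
  have a25 : asg N M B R (nd b c 25) = some (pp N b (c + 1), nd b c 26) := ha 1
  have a26 : asg N M B R (nd b c 26) = some (vv b c, nd b c 24) := ha 2
  have a27 : asg N M B R (nd b c 27) = some (nd b c 29, hy N b c) := ha 3
  have a28 : asg N M B R (nd b c 28) = some (nd b c 27, vv b c) := ha 4
  have a29 : asg N M B R (nd b c 29) = some (nd b c 28, ww b c) := ha 5
  have a30 : asg N M B R (nd b c 30) = some (hd N b c, nd b c 31) := ha 6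
  have a31 : asg N M B R (nd b c 31) = some (ww b c, nd b c 32) := ha 7
  have a32 : asg N M B R (nd b c 32) = some (pp N b (c + 1), nd b c 30) := ha 8
  have yh : asg N M B R (hy N b c) = none := asg_hub 6 b c (by norm_num) (by norm_num)
  have ch : asg N M B R (hc N b c) = none := asg_hub 7 b c (by norm_num) (by norm_num)
  have dh : asg N M B R (hd N b c) = none := asg_hub 8 b c (by norm_num) (by norm_num)
  have ap : ∀ x y : VX, x.2.2 ≠ 44 → asg N M B R (pp N b (c + 1)) ≠ some (x, y) :=
    fun x y h => asg_pp b (c + 1) h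
  have ky : (hy N b c).2.2 = 6 := by rw [hy_of hb hb']
  have kc : (hc N b c).2.2 = 7 := by rw [hc_of hb hb']
  have kd : (hd N b c).2.2 = 8 := by rw [hd_of hb hb']
  have kp : (pp N b (c + 1)).2.2 = 9 := by rw [pp_of hb hb']
  have kv : (vv b c).2.2 = 10 := rfl
  have kw : (ww b c).2.2 = 11 := rfl
  unfold deadFaces at hf
  rcases List.mem_append.mp hf with hf | hf
  · rcases List.mem_append.mp hf with hf | hf
    · rcases List.mem_append.mp hf with hf | hf
      · simp only [prism, List.mem_cons, List.not_mem_nil, or_false] at hf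
        rcases hf with rfl | rfl | rfl
        · refine good4 (z := nd b c 24) (u := nd b c 25) (v := pp N b (c + 1))
            (w := hc N b c) ?_ ?_ ?_ 2 rfl
          · rw [pp_of hb hb', hc_of hb hb']
            simp [List.nodup_cons, nd]
          · rw [a25]
            apply ne_kind; simp only [kind_nd]; omega
          · rw [ch]
            simp
        · refine good4 (z := nd b c 26) (u := nd b c 24) (v := hc N b c)
            (w := vv b c) ?_ ?_ ?_ 3 rfl
          · rw [hc_of hb hb']
            simp [List.nodup_cons, nd, vv]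
          · rw [a24]
            apply ne_kind; simp only [kind_nd]; omega
          · rw [av]
            apply ne_kind; simp only [kind_nd]; omega
        · exact Or.inl rfl
      · simp only [prism, List.mem_cons, List.not_mem_nil, or_false] at hf
        rcases hf with rfl | rfl | rfl
        · refine good4 (z := nd b c 28) (u := vv b c) (v := hy N b c)
            (w := nd b c 27) ?_ ?_ ?_ 3 rfl
          · rw [hy_of hb hb']
            simp [List.nodup_cons, nd, vv]
          · rw [av]
            apply ne_kind; simp only [kind_nd]; omega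
          · rw [a27]
            apply ne_kind; simp only [kind_nd]; omega
        · refine good4 (z := nd b c 27) (u := hy N b c) (v := ww b c)
            (w := nd b c 29) ?_ ?_ ?_ 0 rfl
          · rw [hy_of hb hb']
            simp [List.nodup_cons, nd, ww]
          · rw [yh]
            simp
          · rw [a29]
            apply ne_kind; simp only [kind_nd]; omega
        · exact Or.inl rfl
    · simp only [prism, List.mem_cons, List.not_mem_nil, or_false] at hf
      rcases hf with rfl | rfl | rfl
      · refine good4 (z := nd b c 30) (u := nd b c 31) (v := ww b c)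
          (w := hd N b c) ?_ ?_ ?_ 2 rfl
        · rw [hd_of hb hb']
          simp [List.nodup_cons, nd, ww]
        · rw [a31]
          apply ne_kind; simp only [kind_nd]; omega
        · rw [dh]
          simp
      · refine good4 (z := nd b c 32) (u := nd b c 30) (v := hd N b c)
          (w := pp N b (c + 1)) ?_ ?_ ?_ 3 rfl
        · rw [hd_of hb hb', pp_of hb hb']
          simp [List.nodup_cons, nd]
        · rw [a30]
          apply ne_kind; simp only [kind_nd]; omega
        · apply ap
          omega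
      · exact Or.inl rfl
  · simp only [List.mem_cons, List.not_mem_nil, or_false] at hf
    subst hf
    unfold centre
    refine good9 (z := vv b c) (a₁ := nd b c 28) (a₂ := nd b c 29) (a₃ := ww b c)
      (a₄ := nd b c 31) (a₅ := nd b c 32) (a₆ := pp N b (c + 1)) (a₇ := nd b c 25)
      (a₈ := nd b c 26) ?_ ?_ ?_ 3 rfl
    · rw [pp_of hb hb']
      simp [List.nodup_cons, nd, vv, ww]
    · rw [a28]
      apply ne_kind; simp only [kind_nd]; omega
    · rw [a26]
      apply ne_kind; simp only [kind_nd]; omega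

end WALK_

open WALK_

/-- F-WALK -/
theorem tWalk : TWalk := by
  intro N M B hN _ f hf
  rw [mem_gridFaces] at hf
  rcases hf with rfl | ⟨c, _, r, _, hf⟩ | ⟨c, _, r, hr, hf⟩ | ⟨r, _, hf⟩
  · exact ⟨by simp [List.nodup_cons, s1, s2, uu], by simp⟩
  · unfold railFaces at hf
    rcases List.mem_append.mp hf with hf | hf
    · rcases List.mem_append.mp hf with hf | hf
      · exact tile_walk (tcA N r c) f hf
      · exact tile_walk (tcB N r c) f hf
    · split_ifs at hf
      · exact tile_walk (tcW N r c) f hf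
      · unfold thin at hf
        simp only [List.mem_cons, List.not_mem_nil, or_false] at hf
        subst hf
        exact ⟨thin_nodup hN r c, by simp⟩
  · unfold bandFaces at hf
    rcases List.mem_append.mp hf with hf | hf
    · rcases List.mem_append.mp hf with hf | hf
      · exact left_walk hr f hf
      · exact mid_walk hr f hf
    · exact dead_walk (by omega) hr f hf
  · exact right_walk f hf

/-- F-FANGRID -/
theorem tFanGrid : TFanGrid := by
  intro N M B R hN _ hM hP f hf
  change Good (asg N M B R) f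
  rw [mem_gridFaces] at hf
  rcases hf with rfl | ⟨c, _, r, _, hf⟩ | ⟨c, _, r, hr, hf⟩ | ⟨r, _, hf⟩
  · exact Or.inl rfl
  · unfold railFaces at hf
    rcases List.mem_append.mp hf with hf | hf
    · rcases List.mem_append.mp hf with hf | hf
      · exact tile_good (tcA N r c) (tfA r c) f hf
      · exact tile_good (tcB N r c) (tfB r c) f hf
    · split_ifs at hf with hB
      · exact tile_good (tcW N r c) (tfW hB) f hf
      · unfold thin at hf
        simp only [List.mem_cons, List.not_mem_nil, or_false] at hf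
        subst hf
        exact thin_good hN r c
  · unfold bandFaces at hf
    rcases List.mem_append.mp hf with hf | hf
    · rcases List.mem_append.mp hf with hf | hf
      · unfold leftFaces at hf
        split_ifs at hf with h
        · exact tile_good (tcV N r) (tfV (hP r h.2 hr) hM) f hf
        · simp only [List.mem_cons, List.not_mem_nil, or_false] at hf
          rcases hf with rfl | rfl <;> exact Or.inl rfl
      · unfold midFaces at hf
        simp only [List.mem_cons, List.not_mem_nil, or_false] at hf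
        rcases hf with rfl | rfl | rfl | rfl | rfl | rfl <;> exact Or.inl rfl
    · exact dead_good (by omega) hr f hf
  · unfold rightFaces at hf
    simp only [List.mem_cons, List.not_mem_nil, or_false] at hf
    rcases hf with rfl | rfl <;> exact Or.inl rfl

end Pool.Agent.SLN
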