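import Pool.Agent.SLN.Statement
import Pool.Agent.SLN.Asm
import Pool.Agent.SLN.Clause
import Pool.Agent.SLN.ChainG
import Pool.Agent.SLN.Conn
import Pool.Agent.SLN.Coord
import Pool.Agent.SLN.Draw
import Pool.Agent.SLN.Euler
import Pool.Agent.SLN.EulerTri
import Pool.Agent.SLN.FaceTri
import Pool.Agent.SLN.Faces1
import Pool.Agent.SLN.Faces2
import Pool.Agent.SLN.Facts
import Pool.Agent.SLN.Fan
import Pool.Agent.SLN.FlatsG
import Pool.Agent.SLN.Hubs
import Pool.Agent.SLN.Hull
import Pool.Agent.SLN.LocalG
import Pool.Agent.SLN.NoMain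
import Pool.Agent.SLN.One
import Pool.Agent.SLN.Relabel
import Pool.Agent.SLN.Right
import Pool.Agent.SLN.Rot
import Pool.Agent.SLN.SLTR
import Pool.Agent.SLN.Tri
import Pool.Agent.SLN.Uniq
import Pool.Agent.SLN.Walk

set_option autoImplicit false

/-!
# The main theorem
-/

namespace Pool.Agent.SLN

open Pool.Agent.PAH (DecisionProblem PolyReduces)

theorem allT : AllT where
  draw := tDraw
  rot := tRot
  euler := tEuler tEulerTri
  fan := tFan
  sltr := tSLTR tDraw tTri
  facts := tFacts tFaceTri tUniq tHull
  relabel := tRelabel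
  chain := tChain
  coord := tCoord
  walk := tWalk
  flats := tFlats tWalk
  fanGrid := tFanGrid
  arcs := tArcs
  right := tRight
  hubs := tHubs
  faces := tFaces
  one := tOne
  conn := tConn (tFlats tWalk) tArcs tHubs tFaces tWalk tCoord tChain tDraw
  no := tNo tLocal tClause

/-- **Main theorem.** -/
theorem main : PolyReduces cnfSat sltrRecognition := by
  refine ⟨fun φ => inst allT tRed tName φ, ?_, ?_⟩
  · exact tPrint cnfSat.enc sltrRecognition.enc _ (fun φ => φ) (fun _ => rfl)
      (fun φ => congrArg encMap (inst_graph allT tRed tName φ))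
  · intro φ
    exact inst_iff allT tRed tName φ

end Pool.Agent.SLN
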