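import Pool.Agent.SLN.Defs
import Pool.Agent.PAH.Targets

set_option autoImplicit false

/-!
# The grid graphs

`N` rails (numbered `0, …, N - 1` from top to bottom), `M` columns (numbered `0, …, M - 1` from left
to right), borders `0, …, M` (border `j` is the left border of column `j`), bands `0, …, N` (band
`b` is between the rails `b - 1` and `b`; band `0` is collapsed to the suspension `s1` and band `N`
to the suspension `s2`).  `B r c` tells whether the crossing of rail `r` with border `c + 1` is
thick.
-/

namespace Pool.Agent.SLN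

/-- vertices: row (rail or band), column (or border), kind -/
abbrev VX : Type := ℕ × ℕ × ℕ

def s1 : VX := (0, 0, 0)
def s2 : VX := (0, 0, 1)
def s3 : VX := (0, 0, 2)

/-- the vertex of rail `r` at border `j` -/
def uu (r j : ℕ) : VX := (r, j, 3)
/-- the middle vertex of rail `r` in column `c` -/
def xx (r c : ℕ) : VX := (r, c, 4)
/-- the exit of rail `r` in column `c` -/
def qq (r c : ℕ) : VX := (r, c, 5)
/-- dead vertices of the column-`c` part of band `b` -/
def vv (b c : ℕ) : VX := (b, c, 10)
def ww (b c : ℕ) : VX := (b, c, 11)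
/-- inner vertices of the prisms -/
def nd (r c i : ℕ) : VX := (r, c, 12 + i)

/-- hubs of band `b` -/
def hub (N i b c : ℕ) : VX := if b = 0 then s1 else if b = N then s2 else (b, c, i)
/-- left hub -/
def hy (N b c : ℕ) : VX := hub N 6 b c
/-- upper right hub -/
def hc (N b c : ℕ) : VX := hub N 7 b c
/-- lower right hub -/
def hd (N b c : ℕ) : VX := hub N 8 b c
/-- the vertex of band `b` at border `j` -/
def pp (N b j : ℕ) : VX := if b = 0 ∨ j = 0 then s1 else if b = N then s2 else (b, j, 9)

/-- the prism on the side `s, t` with outer vertex `b` -/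
def prism (s b t n4 n5 n6 : VX) : List (List VX) := [[s, b, n4, n5], [n4, b, t, n6], [n5, n4, n6]]

/-- the tile with corners `a, b, c, d` (counterclockwise) and inner vertices `nd r k i`, …,
`nd r k (i + 5)`; it takes `a` or `c` -/
def tile (a b c d : VX) (r k i : ℕ) : List (List VX) :=
  prism a b c (nd r k i) (nd r k (i + 1)) (nd r k (i + 2)) ++
  prism c d a (nd r k (i + 5)) (nd r k (i + 3)) (nd r k (i + 4)) ++
  [[a, nd r k (i + 1), nd r k (i + 2), c, nd r k (i + 3), nd r k (i + 4)]]

/-- first tile of rail `r` in column `c` -/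
def tileA (N r c : ℕ) : List (List VX) := tile (uu r c) (hy N (r + 1) c) (xx r c) (hy N r c) r c 0
/-- second tile -/
def tileB (N r c : ℕ) : List (List VX) := tile (xx r c) (hc N (r + 1) c) (qq r c) (hd N r c) r c 6
/-- crossing of rail `r` with border `c + 1`, thick -/
def tileW (N r c : ℕ) : List (List VX) :=
  tile (qq r c) (pp N (r + 1) (c + 1)) (uu r (c + 1)) (pp N r (c + 1)) r c 12
/-- crossing of rail `r` with border `c + 1`, thin -/
def thin (N r c : ℕ) : List (List VX) :=
  [[qq r c, pp N (r + 1) (c + 1), uu r (c + 1), pp N r (c + 1)]]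

/-- the faces of rail `r` in column `c` -/
def railFaces (N : ℕ) (B : ℕ → ℕ → Bool) (r c : ℕ) : List (List VX) :=
  tileA N r c ++ tileB N r c ++ (if B r c then tileW N r c else thin N r c)

/-- left end of band `r + 1` in column `c`: the variable tile or two triangles -/
def leftFaces (N r c : ℕ) : List (List VX) :=
  if c = 0 ∧ r % 2 = 0 then tile (uu r 0) s1 (uu (r + 1) 0) (hy N (r + 1) 0) r 0 18
  else [[pp N (r + 1) c, hy N (r + 1) c, uu r c], [pp N (r + 1) c, uu (r + 1) c, hy N (r + 1) c]]

/-- triangles of band `r + 1` in column `c` -/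
def midFaces (N r c : ℕ) : List (List VX) :=
  [[hy N (r + 1) c, hc N (r + 1) c, xx r c], [hy N (r + 1) c, xx (r + 1) c, hd N (r + 1) c],
   [hc N (r + 1) c, hy N (r + 1) c, vv (r + 1) c], [hy N (r + 1) c, hd N (r + 1) c, ww (r + 1) c],
   [qq r c, hc N (r + 1) c, pp N (r + 1) (c + 1)],
   [hd N (r + 1) c, qq (r + 1) c, pp N (r + 1) (c + 1)]]

/-- the centre of band `b` in column `c` -/
def centre (N b c : ℕ) : List VX :=
  [pp N b (c + 1), nd b c 25, nd b c 26, vv b c, nd b c 28, nd b c 29, ww b c, nd b c 31,
    nd b c 32]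

/-- the gadget which takes `pp N b (c + 1)`, `vv b c` and `ww b c` -/
def deadFaces (N b c : ℕ) : List (List VX) :=
  prism (pp N b (c + 1)) (hc N b c) (vv b c) (nd b c 24) (nd b c 25) (nd b c 26) ++
  prism (vv b c) (hy N b c) (ww b c) (nd b c 27) (nd b c 28) (nd b c 29) ++
  prism (ww b c) (hd N b c) (pp N b (c + 1)) (nd b c 30) (nd b c 31) (nd b c 32) ++
  [centre N b c]

/-- the faces of band `r + 1` in column `c` -/
def bandFaces (N r c : ℕ) : List (List VX) :=
  leftFaces N r c ++ midFaces N r c ++ deadFaces N (r + 1) c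

/-- the faces of column `c` -/
def colFaces (N : ℕ) (B : ℕ → ℕ → Bool) (c : ℕ) : List (List VX) :=
  (List.range N).flatMap (fun r => railFaces N B r c) ++
    (List.range (N - 1)).flatMap (fun r => bandFaces N r c)

/-- the faces at the right end of rail `r` -/
def rightFaces (N M r : ℕ) : List (List VX) :=
  [[uu r M, pp N (r + 1) M, s3], [pp N r M, uu r M, s3]]

/-- all bounded faces -/
def gridFaces (N M : ℕ) (B : ℕ → ℕ → Bool) : List (List VX) :=
  [s1, s2, uu (N - 1) 0] ::
    ((List.range M).flatMap (colFaces N B) ++ (List.range N).flatMap (rightFaces N M))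

/-- the grid graph -/
def grid (N M : ℕ) (B : ℕ → ℕ → Bool) : PlaneMap VX :=
  ⟨[s1, s3, s2], gridFaces N M B, s1, s2, s3⟩

end Pool.Agent.SLN
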