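import Pool.Agent.SLN.Final
import Pool.Agent.CookLevin.All

set_option autoImplicit false

/-!
# Recognition of straight-line triangle representations is NP-hard
-/

namespace Pool.Agent.SLN

open Pool.Agent.PAH (DecisionProblem PolyReduces)
open Pool.Agent.CookLevin (NPHard)
open Pool.Agent.PT (PolyF Core)

/-- The reduction as a polynomial time function on formulas. -/
theorem red_polyF : PolyF (fun φ : List (List Lit) => encMap (red φ)) := by
  have : Fact Core := ⟨Pool.Agent.PT.core⟩
  exact red_pt (φ := fun φ => φ) (by fun_prop)

/-- **Main theorem, NP-hardness form.** -/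
theorem hard : NPHard sltrRecognition := by
  let _ : Pool.Agent.PT.Dat sltrRecognition.Alphabet :=
    (inferInstance : Pool.Agent.PT.Dat SLN.Sym)
  exact CookLevin.hard sltrRecognition (fun φ => inst allT tRed tName φ)
    (fun φ => encMap (red φ)) red_polyF
    (fun φ => congrArg encMap (inst_graph allT tRed tName φ).symm)
    (fun φ => inst_iff allT tRed tName φ)

end Pool.Agent.SLN
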