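import Pool.Agent.SLN.Lib

set_option autoImplicit false

/-!
# N-MAIN: from a triangle representation of the grid to a satisfying state
-/

namespace Pool.Agent.SLN

open Pool.Agent.PAH (dartsOf cornersOf)

namespace NO_

theorem pp_kind (N b j : ℕ) : (pp N b j).2.2 = 0 ∨ (pp N b j).2.2 = 1 ∨ (pp N b j).2.2 = 9 := by
  unfold pp s1 s2
  split_ifs <;> simp

theorem nd_ne_pp (r c i N b j : ℕ) : nd r c i ≠ pp N b j := by
  intro h
  have h1 := congrArg (fun z : VX => z.2.2) h
  have h2 := pp_kind N b j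
  simp only [nd] at h1
  omega

theorem nd_ne_nd {r c i r' c' i' : ℕ} (h : i ≠ i') : nd r c i ≠ nd r' c' i' := by
  intro h'
  have h1 := congrArg (fun z : VX => z.2.2) h'
  simp only [nd] at h1
  omega

/-- corner `k` of an inner face -/
def IsC (N M : ℕ) (B : ℕ → ℕ → Bool) (k : VX × VX × VX) : Prop :=
  ∃ f ∈ gridFaces N M B, k ∈ cornersOf f

variable {N M : ℕ} {B : ℕ → ℕ → Bool} {r c : ℕ}

theorem rail_mem {f : List VX} (hr : r < N) (hc : c < M) (hf : f ∈ railFaces N B r c) :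
    f ∈ gridFaces N M B :=
  mem_gridFaces.2 (Or.inr (Or.inl ⟨c, hc, r, hr, hf⟩))

theorem band_mem {f : List VX} (hr : r + 1 < N) (hc : c < M) (hf : f ∈ bandFaces N r c) :
    f ∈ gridFaces N M B :=
  mem_gridFaces.2 (Or.inr (Or.inr (Or.inl ⟨c, hc, r, hr, hf⟩)))

theorem tile_mem (a b x d : VX) (r k i : ℕ) :
    [a, nd r k (i + 1), nd r k (i + 2), x, nd r k (i + 3), nd r k (i + 4)] ∈ tile a b x d r k i := by
  unfold tile
  exact List.mem_append_right _ (List.mem_singleton.2 rfl)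

theorem hex_c1 (a b x d e f : VX) : (f, a, b) ∈ cornersOf [a, b, x, d, e, f] := by
  have h : cornersOf [a, b, x, d, e, f] =
    [(a, b, x), (b, x, d), (x, d, e), (d, e, f), (e, f, a), (f, a, b)] := rfl
  rw [h]; simp

theorem hex_c2 (a b x d e f : VX) : (x, d, e) ∈ cornersOf [a, b, x, d, e, f] := by
  have h : cornersOf [a, b, x, d, e, f] =
    [(a, b, x), (b, x, d), (x, d, e), (d, e, f), (e, f, a), (f, a, b)] := rfl
  rw [h]; simp

theorem quad_c1 (a b x d : VX) : (d, a, b) ∈ cornersOf [a, b, x, d] := by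
  have h : cornersOf [a, b, x, d] = [(a, b, x), (b, x, d), (x, d, a), (d, a, b)] := rfl
  rw [h]; simp

theorem quad_c2 (a b x d : VX) : (b, x, d) ∈ cornersOf [a, b, x, d] := by
  have h : cornersOf [a, b, x, d] = [(a, b, x), (b, x, d), (x, d, a), (d, a, b)] := rfl
  rw [h]; simp

theorem cA1 (hr : r < N) (hc : c < M) : IsC N M B (nd r c 4, uu r c, nd r c 1) := by
  refine ⟨[uu r c, nd r c 1, nd r c 2, xx r c, nd r c 3, nd r c 4], rail_mem hr hc ?_,
    hex_c1 _ _ _ _ _ _⟩
  unfold railFaces tileA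
  exact List.mem_append_left _ (List.mem_append_left _ (tile_mem _ _ _ _ r c 0))

theorem cA2 (hr : r < N) (hc : c < M) : IsC N M B (nd r c 2, xx r c, nd r c 3) := by
  refine ⟨[uu r c, nd r c 1, nd r c 2, xx r c, nd r c 3, nd r c 4], rail_mem hr hc ?_,
    hex_c2 _ _ _ _ _ _⟩
  unfold railFaces tileA
  exact List.mem_append_left _ (List.mem_append_left _ (tile_mem _ _ _ _ r c 0))

theorem cB1 (hr : r < N) (hc : c < M) : IsC N M B (nd r c 10, xx r c, nd r c 7) := by
  refine ⟨[xx r c, nd r c 7, nd r c 8, qq r c, nd r c 9, nd r c 10], rail_mem hr hc ?_,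
    hex_c1 _ _ _ _ _ _⟩
  unfold railFaces tileB
  exact List.mem_append_left _ (List.mem_append_right _ (tile_mem _ _ _ _ r c 6))

theorem cB2 (hr : r < N) (hc : c < M) : IsC N M B (nd r c 8, qq r c, nd r c 9) := by
  refine ⟨[xx r c, nd r c 7, nd r c 8, qq r c, nd r c 9, nd r c 10], rail_mem hr hc ?_,
    hex_c2 _ _ _ _ _ _⟩
  unfold railFaces tileB
  exact List.mem_append_left _ (List.mem_append_right _ (tile_mem _ _ _ _ r c 6))

theorem cW1 (hr : r < N) (hc : c < M) (hB : B r c = true) :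
    IsC N M B (nd r c 16, qq r c, nd r c 13) := by
  refine ⟨[qq r c, nd r c 13, nd r c 14, uu r (c + 1), nd r c 15, nd r c 16], rail_mem hr hc ?_,
    hex_c1 _ _ _ _ _ _⟩
  unfold railFaces tileW
  rw [if_pos hB]
  exact List.mem_append_right _ (tile_mem _ _ _ _ r c 12)

theorem cW2 (hr : r < N) (hc : c < M) (hB : B r c = true) :
    IsC N M B (nd r c 14, uu r (c + 1), nd r c 15) := by
  refine ⟨[qq r c, nd r c 13, nd r c 14, uu r (c + 1), nd r c 15, nd r c 16], rail_mem hr hc ?_,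
    hex_c2 _ _ _ _ _ _⟩
  unfold railFaces tileW
  rw [if_pos hB]
  exact List.mem_append_right _ (tile_mem _ _ _ _ r c 12)

theorem cT1 (hr : r < N) (hc : c < M) (hB : B r c = false) :
    IsC N M B (pp N r (c + 1), qq r c, pp N (r + 1) (c + 1)) := by
  refine ⟨[qq r c, pp N (r + 1) (c + 1), uu r (c + 1), pp N r (c + 1)], rail_mem hr hc ?_,
    quad_c1 _ _ _ _⟩
  unfold railFaces thin
  rw [if_neg (by rw [hB]; exact Bool.false_ne_true)]
  exact List.mem_append_right _ (List.mem_singleton.2 rfl)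

theorem cT2 (hr : r < N) (hc : c < M) (hB : B r c = false) :
    IsC N M B (pp N (r + 1) (c + 1), uu r (c + 1), pp N r (c + 1)) := by
  refine ⟨[qq r c, pp N (r + 1) (c + 1), uu r (c + 1), pp N r (c + 1)], rail_mem hr hc ?_,
    quad_c2 _ _ _ _⟩
  unfold railFaces thin
  rw [if_neg (by rw [hB]; exact Bool.false_ne_true)]
  exact List.mem_append_right _ (List.mem_singleton.2 rfl)

theorem cV (hr : r + 1 < N) (h2 : r % 2 = 0) (hM : 1 ≤ M) :
    IsC N M B (nd r 0 22, uu r 0, nd r 0 19) ∧ IsC N M B (nd r 0 20, uu (r + 1) 0, nd r 0 21) := by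
  have h : [uu r 0, nd r 0 19, nd r 0 20, uu (r + 1) 0, nd r 0 21, nd r 0 22] ∈
      gridFaces N M B := by
    refine band_mem hr (by omega : 0 < M) ?_
    unfold bandFaces leftFaces
    rw [if_pos ⟨rfl, h2⟩]
    exact List.mem_append_left _ (List.mem_append_left _ (tile_mem _ _ _ _ r 0 18))
  exact ⟨⟨_, h, hex_c1 _ _ _ _ _ _⟩, ⟨_, h, hex_c2 _ _ _ _ _ _⟩⟩

/-- `uu r j` is flat on its left side -/
def Pressed (N : ℕ) (B : ℕ → ℕ → Bool) (Fl : VX × VX × VX → Prop) (r : ℕ) : ℕ → Prop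
  | 0 => if r % 2 = 0 then Fl (nd r 0 22, uu r 0, nd r 0 19)
      else Fl (nd (r - 1) 0 20, uu r 0, nd (r - 1) 0 21)
  | c + 1 => if B r c = true then Fl (nd r c 14, uu r (c + 1), nd r c 15)
      else Fl (pp N (r + 1) (c + 1), uu r (c + 1), pp N r (c + 1))

section
variable {Fl : VX × VX × VX → Prop}

theorem pressed_zero : Pressed N B Fl r 0 = if r % 2 = 0 then Fl (nd r 0 22, uu r 0, nd r 0 19)
    else Fl (nd (r - 1) 0 20, uu r 0, nd (r - 1) 0 21) := rfl

theorem pressed_succ : Pressed N B Fl r (c + 1) =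
    if B r c = true then Fl (nd r c 14, uu r (c + 1), nd r c 15)
      else Fl (pp N (r + 1) (c + 1), uu r (c + 1), pp N r (c + 1)) := rfl

/-- at most one corner at a vertex is flat -/
theorem uniq (hF : Facts (grid N M B) Fl) {k l : VX × VX × VX} (hk : IsC N M B k)
    (hl : IsC N M B l) (h : k.2.1 = l.2.1) (hne : k.1 ≠ l.1) (h1 : Fl k) : ¬ Fl l := by
  intro h2
  obtain ⟨f, hf, hkf⟩ := hk
  obtain ⟨g, hg, hlg⟩ := hl
  exact hne (congrArg Prod.fst (hF.uniq f hf g hg k hkf l hlg h1 h2 h))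

theorem pressed_x (hN : N % 2 = 0) (hF : Facts (grid N M B) Fl) (hL : Local N M B Fl)
    (hr : r < N) (hc : c < M) (h : Pressed N B Fl r c) : Fl (nd r c 2, xx r c, nd r c 3) := by
  refine (hL.tA r c hr hc).resolve_left fun h1 => ?_
  cases c with
  | zero =>
    rw [pressed_zero] at h
    by_cases h2 : r % 2 = 0
    · rw [if_pos h2] at h
      exact uniq hF (cA1 hr hc) (cV (by omega) h2 (by omega)).1 rfl
        (nd_ne_nd (by omega)) h1 h
    · rw [if_neg h2] at h
      obtain ⟨r', rfl⟩ : ∃ r', r = r' + 1 := ⟨r - 1, by omega⟩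
      rw [Nat.add_sub_cancel] at h
      exact uniq hF (cA1 hr hc) (cV (by omega) (by omega) (by omega)).2 rfl
        (nd_ne_nd (by omega)) h1 h
  | succ c =>
    rw [pressed_succ] at h
    by_cases h2 : B r c = true
    · rw [if_pos h2] at h
      exact uniq hF (cA1 hr hc) (cW2 hr (by omega) h2) rfl (nd_ne_nd (by omega)) h1 h
    · rw [if_neg h2] at h
      have h3 : B r c = false := by simpa using h2
      exact uniq hF (cA1 hr hc) (cT2 hr (by omega) h3) rfl
        (nd_ne_pp r (c + 1) 4 N (r + 1) (c + 1)) h1 h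

theorem x_q (hF : Facts (grid N M B) Fl) (hL : Local N M B Fl)
    (hr : r < N) (hc : c < M) (h : Fl (nd r c 2, xx r c, nd r c 3)) :
    Fl (nd r c 8, qq r c, nd r c 9) :=
  (hL.tB r c hr hc).resolve_left
    (uniq hF (cA2 hr hc) (cB1 hr hc) rfl (nd_ne_nd (by omega)) h)

theorem q_pressed (hF : Facts (grid N M B) Fl) (hL : Local N M B Fl)
    (hr : r < N) (hc : c < M) (h : Fl (nd r c 8, qq r c, nd r c 9)) :
    Pressed N B Fl r (c + 1) := by
  rw [pressed_succ]
  by_cases h2 : B r c = true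
  · rw [if_pos h2]
    exact (hL.tW r c hr hc h2).resolve_left
      (uniq hF (cB2 hr hc) (cW1 hr hc h2) rfl (nd_ne_nd (by omega)) h)
  · rw [if_neg h2]
    have h3 : B r c = false := by simpa using h2
    exact (hL.thin r c hr hc h3).resolve_left
      (uniq hF (cB2 hr hc) (cT1 hr hc h3) rfl (nd_ne_pp _ _ _ _ _ _) h)

theorem pressed_all (hN : N % 2 = 0) (hF : Facts (grid N M B) Fl) (hL : Local N M B Fl)
    (hr : r < N) (h : Pressed N B Fl r 0) : ∀ c, c ≤ M → Pressed N B Fl r c := by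
  intro c
  induction c with
  | zero => intro _; exact h
  | succ c ih =>
    intro hc
    exact q_pressed hF hL hr (by omega)
      (x_q hF hL hr (by omega) (pressed_x hN hF hL hr (by omega) (ih (by omega))))

end

end NO_

open NO_ in
/-- N-MAIN -/
theorem tNo (hL : TLocal) (hC : TClause) : TNo := by
  intro N M B Fl hN hN2 hM hF
  have hLoc := hL N M B Fl hN hN2 hM hF
  have hCl := hC N M B Fl hN hN2 hM hF hLoc.dead
  classical
  refine ⟨fun r => if r % 2 = 0 then decide (Pressed N B Fl r 0)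
    else !(decide (Pressed N B Fl (r - 1) 0)), ?_, ?_⟩
  · intro r hr _
    simp only
    rw [if_pos hr, if_neg (by omega), Nat.add_sub_cancel, Bool.not_not]
  · intro c hc
    obtain ⟨r, hr, hB, hq⟩ := hCl c hc
    refine ⟨r, hr, hB, ?_⟩
    have hnp : ¬ Pressed N B Fl r 0 := fun h =>
      hq (x_q hF hLoc hr hc (pressed_x hN2 hF hLoc hr hc (pressed_all hN2 hF hLoc hr h c hc.le)))
    simp only
    by_cases h2 : r % 2 = 0
    · rw [if_pos h2]
      exact decide_eq_false hnp
    · rw [if_neg h2]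
      obtain ⟨r', rfl⟩ : ∃ r', r = r' + 1 := ⟨r - 1, by omega⟩
      rw [Nat.add_sub_cancel]
      have h3 : Pressed N B Fl r' 0 := by
        rw [pressed_zero, if_neg h2, Nat.add_sub_cancel] at hnp
        rw [pressed_zero, if_pos (by omega)]
        exact (hLoc.tV r' (by omega) hr).resolve_right hnp
      rw [decide_eq_true h3]
      rfl

end Pool.Agent.SLN
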