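import Pool.Agent.SLN.Red

set_option autoImplicit false

/-!
# P-RED and P-NAME
-/

namespace Pool.Agent.SLN

/-! ### The list of the variables -/

theorem vars_aux (l : List (List Bool)) : ∀ s : List (List Bool), s.Nodup →
    (l.foldl (fun s x => if x ∈ s then s else s ++ [x]) s).Nodup ∧
    ∀ y, y ∈ l.foldl (fun s x => if x ∈ s then s else s ++ [x]) s ↔ y ∈ s ∨ y ∈ l := by
  induction l with
  | nil => intro s hs; exact ⟨hs, fun y => by simp⟩
  | cons x l ih =>
    intro s hs
    rw [List.foldl_cons]
    by_cases hx : x ∈ s
    · rw [if_pos hx]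
      obtain ⟨h1, h2⟩ := ih s hs
      refine ⟨h1, fun y => ?_⟩
      rw [h2, List.mem_cons]
      constructor
      · rintro (h | h)
        · exact Or.inl h
        · exact Or.inr (Or.inr h)
      · rintro (h | rfl | h)
        · exact Or.inl h
        · exact Or.inl hx
        · exact Or.inr h
    · rw [if_neg hx]
      obtain ⟨h1, h2⟩ := ih (s ++ [x]) (by
        rw [List.nodup_append]
        refine ⟨hs, by simp, fun a ha b hb => ?_⟩
        rw [List.mem_singleton] at hb
        rintro rfl
        exact hx (hb ▸ ha))
      refine ⟨h1, fun y => ?_⟩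
      rw [h2, List.mem_append, List.mem_singleton, List.mem_cons]
      tauto

theorem nodup_vars (φ : List (List Lit)) : (vars φ).Nodup := (vars_aux _ [] (by simp)).1

theorem mem_vars {φ : List (List Lit)} {y : List Bool} :
    y ∈ vars φ ↔ y = [] ∨ ∃ c ∈ φ, ∃ l ∈ c, l.2 = y := by
  unfold vars
  rw [(vars_aux _ [] (by simp)).2]
  simp

theorem vars_pos (φ : List (List Lit)) : 1 ≤ (vars φ).length := by
  have : [] ∈ vars φ := mem_vars.mpr (Or.inl rfl)
  exact List.length_pos_of_mem this

/-! ### The rails -/

theorem pairs_length (l : List (List Bool)) :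
    (l.flatMap fun x => [((true, x) : Lit), (false, x)]).length = 2 * l.length := by
  induction l with
  | nil => rfl
  | cons x l ih =>
    rw [List.flatMap_cons, List.length_append, ih]
    simp only [List.length_cons, List.length_nil]
    omega

theorem pairs_getD (l : List (List Bool)) : ∀ i : ℕ, i < l.length →
    (l.flatMap fun x => [((true, x) : Lit), (false, x)]).getD (2 * i) (true, []) =
      (true, l.getD i []) ∧
    (l.flatMap fun x => [((true, x) : Lit), (false, x)]).getD (2 * i + 1) (true, []) =
      (false, l.getD i []) := by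
  induction l with
  | nil => intro i hi; simp at hi
  | cons x l ih =>
    intro i hi
    rw [List.flatMap_cons]
    rcases i with _ | i
    · simp
    · have h := ih i (by simpa using hi)
      have e1 : 2 * (i + 1) = 2 * i + 1 + 1 := by ring
      rw [e1]
      simpa using h

theorem rails_length (φ : List (List Lit)) : (rails φ).length = 2 * (vars φ).length :=
  pairs_length _

theorem rails_even {φ : List (List Lit)} {i : ℕ} (hi : i < (vars φ).length) :
    (rails φ).getD (2 * i) (true, []) = (true, (vars φ).getD i []) := (pairs_getD _ i hi).1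

theorem rails_odd {φ : List (List Lit)} {i : ℕ} (hi : i < (vars φ).length) :
    (rails φ).getD (2 * i + 1) (true, []) = (false, (vars φ).getD i []) := (pairs_getD _ i hi).2

theorem mem_rails {φ : List (List Lit)} {l : Lit} : l ∈ rails φ ↔ l.2 ∈ vars φ := by
  unfold rails
  rw [List.mem_flatMap]
  obtain ⟨b, x⟩ := l
  constructor
  · rintro ⟨y, hy, h⟩
    simp only [List.mem_cons, Prod.mk.injEq, List.not_mem_nil, or_false] at h
    rcases h with ⟨-, rfl⟩ | ⟨-, rfl⟩ <;> exact hy
  · intro h
    refine ⟨x, h, ?_⟩
    cases b <;> simp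

theorem rail_getD_mem {φ : List (List Lit)} {r : ℕ} (hr : r < (rails φ).length) :
    (rails φ).getD r (true, []) ∈ rails φ := by
  rw [List.getD_eq_getElem _ _ hr]
  exact List.getElem_mem hr

theorem clause_succ {φ : List (List Lit)} {c : ℕ} (hc : c < φ.length) :
    (clauses φ).getD (c + 1) [] = φ[c] := by
  unfold clauses
  rw [List.getD_cons_succ, List.getD_eq_getElem _ _ hc]

theorem tRed : TRed := by
  intro φ
  have h1 := vars_pos φ
  have h2 := rails_length φ
  have h3 : (clauses φ).length = φ.length + 1 := rfl
  refine ⟨by omega, by omega, by omega, ?_, ?_⟩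
  · rintro ⟨τ, hτ⟩
    refine ⟨fun r => !decide (τ ((rails φ).getD r (true, [])).2 =
      ((rails φ).getD r (true, [])).1), ?_, ?_⟩
    · intro r hr hr'
      obtain ⟨i, rfl⟩ : ∃ i, r = 2 * i := ⟨r / 2, by omega⟩
      have hi : i < (vars φ).length := by omega
      show (!decide (τ ((rails φ).getD (2 * i) (true, [])).2 =
        ((rails φ).getD (2 * i) (true, [])).1)) = !!decide
        (τ ((rails φ).getD (2 * i + 1) (true, [])).2 = ((rails φ).getD (2 * i + 1) (true, [])).1)
      rw [rails_even hi, rails_odd hi]
      cases τ ((vars φ).getD i []) <;> rfl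
    · intro c hc
      rcases c with _ | c
      · have e0 := rails_even (φ := φ) (i := 0) h1
        have e1 := rails_odd (φ := φ) (i := 0) h1
        rw [Nat.mul_zero] at e0
        rw [Nat.mul_zero, Nat.zero_add] at e1
        have hth : ∀ r, r < (rails φ).length → thick φ r 0 = true := by
          intro r hr
          unfold thick clauses
          rw [List.getD_cons_zero]
          exact decide_eq_true (rail_getD_mem hr)
        cases hb : τ ((vars φ).getD 0 [])
        · refine ⟨1, by omega, hth 1 (by omega), ?_⟩
          show (!decide (τ ((rails φ).getD 1 (true, [])).2 =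
            ((rails φ).getD 1 (true, [])).1)) = false
          rw [e1, hb]
          rfl
        · refine ⟨0, by omega, hth 0 (by omega), ?_⟩
          show (!decide (τ ((rails φ).getD 0 (true, [])).2 =
            ((rails φ).getD 0 (true, [])).1)) = false
          rw [e0, hb]
          rfl
      · have hc' : c < φ.length := by omega
        obtain ⟨l, hl, hl'⟩ := hτ φ[c] (List.getElem_mem hc')
        have hm : l ∈ rails φ := mem_rails.mpr
          (mem_vars.mpr (Or.inr ⟨φ[c], List.getElem_mem hc', l, hl, rfl⟩))
        obtain ⟨r, hr, hr'⟩ := List.getElem_of_mem hm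
        have e : (rails φ).getD r (true, []) = l := by
          rw [List.getD_eq_getElem _ _ hr, hr']
        refine ⟨r, hr, ?_, ?_⟩
        · unfold thick
          rw [e, clause_succ hc']
          exact decide_eq_true hl
        · show (!decide (τ ((rails φ).getD r (true, [])).2 =
            ((rails φ).getD r (true, [])).1)) = false
          rw [e, hl']
          simp
  · rintro ⟨R, hR, hR'⟩
    refine ⟨fun x => !R (2 * (vars φ).idxOf x), ?_⟩
    intro c hc
    obtain ⟨k, hk, hk'⟩ := List.getElem_of_mem hc
    obtain ⟨r, hr, hth, hRr⟩ := hR' (k + 1) (by omega)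
    unfold thick at hth
    rw [clause_succ hk, hk', decide_eq_true_eq] at hth
    refine ⟨_, hth, ?_⟩
    have hidx : ∀ i, i < (vars φ).length → (vars φ).idxOf ((vars φ).getD i []) = i := by
      intro i hi
      rw [List.getD_eq_getElem _ _ hi]
      exact (nodup_vars φ).idxOf_getElem i hi
    rcases Nat.even_or_odd' r with ⟨i, rfl | rfl⟩
    · have hi : i < (vars φ).length := by omega
      rw [rails_even hi]
      show (!R (2 * (vars φ).idxOf ((vars φ).getD i []))) = true
      rw [hidx i hi, hRr]
      rfl
    · have hi : i < (vars φ).length := by omega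
      rw [rails_odd hi]
      show (!R (2 * (vars φ).idxOf ((vars φ).getD i []))) = false
      rw [hidx i hi, hR (2 * i) (by omega) (by omega), hRr]
      rfl

/-! ### The names -/

theorem sd_inj : ∀ {l l' r r' : List Bool}, sd l ++ r = sd l' ++ r' → l = l' ∧ r = r' := by
  intro l
  induction l with
  | nil =>
    intro l' r r' h
    rcases l' with _ | ⟨b, l'⟩
    · simpa [sd] using h
    · simp [sd] at h
  | cons a l ih =>
    intro l' r r' h
    rcases l' with _ | ⟨b, l'⟩
    · simp [sd] at h
    · have h' : a = b ∧ sd l ++ r = sd l' ++ r' := by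
        simpa [sd] using h
      obtain ⟨h1, h2⟩ := ih h'.2
      exact ⟨by rw [h'.1, h1], h2⟩

theorem bits_inj : ∀ {a b : ℕ}, a.bits = b.bits → a = b := by
  intro a b h
  rw [← Pool.Agent.PT.val_bits a, h, Pool.Agent.PT.val_bits b]

theorem tName : TName := by
  rintro ⟨a, b, c⟩ ⟨a', b', c'⟩ h
  unfold vname at h
  simp only [List.append_assoc] at h
  obtain ⟨h1, h2⟩ := sd_inj h
  obtain ⟨h3, h4⟩ := sd_inj h2
  rw [bits_inj h1, bits_inj h3, bits_inj h4]

end Pool.Agent.SLN
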