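import Pool.Agent.SLN.Cyc
import Pool.Agent.SLTR.StCut

set_option autoImplicit false
set_option linter.unusedSectionVars false

/-!
# The stretching theorem for plane maps given by facial walks
-/

namespace Pool.Agent.SLN

open Pool.Agent.PAH (Plane det3 ccwAngle LiesLeft dartsOf cornersOf DecisionProblem PolyReduces
  ChainEq FanPos)
open Pool.Agent.SLTR (PMap FAA CutCond Sol)

namespace Str

open Classical

noncomputable section

variable {V : Type}

/-- darts -/
abbrev DD (G : PlaneMap V) : Type := {d : V × V // d ∈ G.darts.toFinset}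
/-- vertices -/
abbrev VV (G : PlaneMap V) : Type := {v : V // v ∈ (G.darts.map Prod.fst).toFinset}
/-- faces -/
abbrev FF (G : PlaneMap V) : Type := Fin G.walks.length

variable {G : PlaneMap V}

theorem dmem (d : DD G) : d.1 ∈ G.darts := List.mem_toFinset.mp d.2

/-- make a dart -/
def mk (d : V × V) (h : d ∈ G.darts) : DD G := ⟨d, List.mem_toFinset.mpr h⟩

theorem mk_val (d : V × V) (h : d ∈ G.darts) : (mk d h).1 = d := rfl

/-- make a vertex -/
def mkv (v : V) (h : ∃ w, (v, w) ∈ G.darts) : VV G :=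
  ⟨v, by
    obtain ⟨w, hw⟩ := h
    exact List.mem_toFinset.mpr (List.mem_map.mpr ⟨(v, w), hw, rfl⟩)⟩

theorem vmem (v : VV G) : ∃ w, (v.1, w) ∈ G.darts := by
  obtain ⟨d, hd, hd'⟩ := List.mem_map.mp (List.mem_toFinset.mp v.2)
  exact ⟨d.2, by rw [← hd']; exact hd⟩

/-- face of a dart -/
def fc (d : DD G) : FF G := (mem_darts_iff.mp (dmem d)).choose

theorem fc_spec (d : DD G) : d.1 ∈ dartsOf (G.walks.get (fc d)) :=
  (mem_darts_iff.mp (dmem d)).choose_spec

theorem fc_eq (R : Reg G) (d : DD G) (i : FF G) (h : d.1 ∈ dartsOf (G.walks.get i)) : fc d = i :=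
  face_unique R.nodup (fc_spec d) h

theorem wk (R : Reg G) (i : FF G) : (G.walks.get i).Nodup := (R.walk _ (List.get_mem _ _)).1

theorem darts_of_walk {i : FF G} {d : V × V} (h : d ∈ dartsOf (G.walks.get i)) : d ∈ G.darts :=
  mem_darts_iff.mpr ⟨i, h⟩

theorem nx_aux (d : DD G) : ∃ x, (d.1.1, d.1.2, x) ∈ cornersOf (G.walks.get (fc d)) :=
  exists_corner_of_dart (fc_spec d)

/-- the next dart -/
def nx (d : DD G) : DD G :=
  mk (d.1.2, (nx_aux d).choose) (darts_of_walk (corner_darts (nx_aux d).choose_spec).2)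

theorem nx_fst (d : DD G) : (nx d).1.1 = d.1.2 := rfl

theorem nx_corner (d : DD G) :
    (d.1.1, (nx d).1.1, (nx d).1.2) ∈ cornersOf (G.walks.get (fc d)) := (nx_aux d).choose_spec

theorem fc_nx (R : Reg G) (d : DD G) : fc (nx d) = fc d :=
  fc_eq R _ _ (corner_darts (nx_corner d)).2

theorem nx_eq (R : Reg G) (d e : DD G) (i : FF G)
    (h : (d.1.1, d.1.2, e.1.2) ∈ cornersOf (G.walks.get i)) (he : e.1.1 = d.1.2) : nx d = e := by
  have h1 : fc d = i := fc_eq R _ _ (corner_darts h).1
  have h2 := nx_corner d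
  rw [h1] at h2
  have h3 := corner_unique (wk R i) h2 h rfl
  simp only [Prod.mk.injEq] at h3
  apply Subtype.ext
  apply Prod.ext
  · rw [he]; rfl
  · exact h3.2.2

theorem nx_inj (R : Reg G) : Function.Injective (nx (G := G)) := by
  intro d e h
  have hf : fc d = fc e := by rw [← fc_nx R d, ← fc_nx R e, h]
  have h1 : d.1.2 = e.1.2 := by rw [← nx_fst d, ← nx_fst e, h]
  have h2 := fc_spec d
  have h3 := fc_spec e
  rw [hf] at h2
  have h4 : (d.1.1, e.1.2) ∈ dartsOf (G.walks.get (fc e)) := by rw [← h1]; exact h2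
  apply Subtype.ext
  apply Prod.ext
  · exact dart_fst_unique (wk R _) h4 h3
  · exact h1

theorem out_aux (G : PlaneMap V) : 0 < G.walks.length := by
  unfold PlaneMap.walks
  simp

/-- the source of a dart -/
def sr (d : DD G) : VV G := mkv d.1.1 ⟨d.1.2, dmem d⟩

/-- the reversed dart -/
def rv (R : Reg G) (d : DD G) : DD G := mk d.1.swap (R.symm _ (dmem d))

theorem rv_fst (R : Reg G) (d : DD G) : (rv R d).1.1 = d.1.2 := rfl
theorem rv_snd (R : Reg G) (d : DD G) : (rv R d).1.2 = d.1.1 := rfl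

theorem sr_eq {d e : DD G} : sr d = sr e ↔ d.1.1 = e.1.1 := by
  constructor
  · intro h
    exact congrArg Subtype.val h
  · intro h
    exact Subtype.ext h

theorem vert_one_aux (R : Reg G) (v : VV G) (N : DD G → Prop) (d e : DD G) (hd : sr d = v)
    (he : sr e = v) (hN : N d) (hs : ∀ x, sr x = v → N x → N (nx (rv R x))) : N e := by
  have hdv : d.1.1 = v.1 := congrArg Subtype.val hd
  have hev : e.1.1 = v.1 := congrArg Subtype.val he
  have h1 : (v.1, d.1.2) ∈ G.darts := by rw [← hdv]; exact dmem d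
  have h2 : (v.1, e.1.2) ∈ G.darts := by rw [← hev]; exact dmem e
  have key := R.rot v.1 (fun a => ∃ x : DD G, x.1 = (v.1, a) ∧ N x) d.1.2 e.1.2 h1 h2
    ⟨d, by rw [← hdv], hN⟩ (by
      rintro f hf k hk hkv ⟨x, hx, hNx⟩
      obtain ⟨i, hi⟩ := List.mem_iff_get.mp hf
      subst hi
      have hsx : sr x = v := Subtype.ext (by change x.1.1 = v.1; rw [hx])
      have h3 := hs x hsx hNx
      have hkd : (v.1, k.2.2) ∈ G.darts := by
        rw [← hkv]; exact darts_of_walk (corner_darts hk).2
      have h4 : nx (rv R x) = mk (v.1, k.2.2) hkd := by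
        apply nx_eq R _ _ i
        · have e1 : (rv R x).1.1 = k.1 := by rw [rv_fst, hx]
          have e2 : (rv R x).1.2 = k.2.1 := by rw [rv_snd, hx, hkv]
          rw [e1, e2]
          exact hk
        · rw [rv_snd, hx]; rfl
      rw [h4] at h3
      exact ⟨_, rfl, h3⟩)
  obtain ⟨x, hx, hNx⟩ := key
  have : x = e := by
    apply Subtype.ext
    rw [hx, ← hev]
  rw [← this]
  exact hNx

/-- the combinatorial map -/
def pm (R : Reg G) : PMap (VV G) (DD G) (FF G) where
  src := sr
  rev := rv R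
  nxt := Equiv.ofBijective nx (Finite.injective_iff_bijective.mp (nx_inj R))
  face := fc
  out := ⟨0, out_aux G⟩
  rev_rev d := Subtype.ext (by
    change (d.1.swap).swap = d.1
    rw [Prod.swap_swap])
  src_nxt d := Subtype.ext rfl
  face_nxt d := fc_nx R d
  src_surj v := by
    obtain ⟨w, hw⟩ := vmem v
    exact ⟨mk (v.1, w) hw, Subtype.ext rfl⟩
  face_surj f := by
    have h := (R.walk _ (List.get_mem _ f)).2
    have h0 : 0 < (G.walks.get f).length := by omega
    have hd : ((G.walks.get f).get ⟨0, h0⟩, (G.walks.get f).get (cs ⟨0, h0⟩)) ∈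
        dartsOf (G.walks.get f) := mem_dartsOf_iff.mpr ⟨_, rfl⟩
    exact ⟨mk _ (darts_of_walk hd), fc_eq R _ _ hd⟩
  face_one f N d e hd he hN hs := by
    have h1 := fc_spec d
    have h2 := fc_spec e
    rw [hd] at h1
    rw [he] at h2
    obtain ⟨i, hi⟩ := mem_dartsOf_iff.mp h1
    obtain ⟨j, hj⟩ := mem_dartsOf_iff.mp h2
    have key := cyc_induction (w := G.walks.get f)
      (fun i => ∀ x : DD G, x.1 = ((G.walks.get f).get i, (G.walks.get f).get (cs i)) → N x) i j
      (by
        intro x hx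
        have : x = d := Subtype.ext (by rw [hx, hi])
        rw [this]; exact hN) (by
        intro k hk x hx
        have hd : ((G.walks.get f).get k, (G.walks.get f).get (cs k)) ∈
          dartsOf (G.walks.get f) := mem_dartsOf_iff.mpr ⟨_, rfl⟩
        have h3 := hk (mk _ (darts_of_walk hd)) rfl
        have h4 := hs _ (fc_eq R _ _ hd) h3
        have h5 : nx (mk _ (darts_of_walk hd)) = x := by
          apply nx_eq R _ _ f
          · rw [mk_val, hx]
            exact mem_cornersOf_iff.mpr ⟨k, rfl⟩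
          · rw [hx]; rfl
        have h6 : Equiv.ofBijective nx (Finite.injective_iff_bijective.mp (nx_inj R))
          (mk _ (darts_of_walk hd)) = x := h5
        rw [h6] at h4
        exact h4)
    exact key e hj
  vert_one v N d e hd he hN hs := vert_one_aux R v N d e hd he hN hs
  simple d e hf hs := by
    have h1 := fc_spec d
    have h2 := fc_spec e
    rw [hf] at h1
    have h3 : d.1.1 = e.1.1 := congrArg Subtype.val hs
    have h4 : (e.1.1, d.1.2) ∈ dartsOf (G.walks.get (fc e)) := by rw [← h3]; exact h1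
    apply Subtype.ext
    apply Prod.ext
    · exact h3
    · exact dart_snd_unique (wk R _) h4 h2
  conn N hN hr hx d := by
    obtain ⟨d0, hd0⟩ := hN
    have hall : ∀ v : VV G, ∀ a : DD G, sr a = v → N a → ∀ b : DD G, sr b = v → N b := by
      intro v a ha hNa b hb
      exact vert_one_aux R v N a b ha hb hNa (fun x _ h => hx _ (hr _ h))
    have key := R.conn (fun v => ∀ b : DD G, b.1.1 = v → N b)
      ⟨d0.1, dmem d0, fun b hb => hall _ d0 rfl hd0 b (Subtype.ext hb)⟩ (by
        intro a ha hQ b hb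
        have h1 := hQ (mk a ha) rfl
        have h2 := hr _ h1
        exact hall _ _ rfl h2 b (Subtype.ext (by
          change b.1.1 = a.2
          exact hb))) d.1 (dmem d)
    exact key d rfl

theorem pm_nxt (R : Reg G) (d : DD G) : (pm R).nxt d = nx d := rfl

theorem pm_euler (R : Reg G) : (pm R).Euler := by
  unfold PMap.Euler
  have h1 : Fintype.card (VV G) = (G.darts.map Prod.fst).toFinset.card := Fintype.card_coe _
  have h2 : Fintype.card (DD G) = G.darts.length := by
    rw [Fintype.card_coe, List.toFinset_card_of_nodup R.nodup]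
  have h3 : Fintype.card (FF G) = G.inner.length + 1 := by
    rw [Fintype.card_fin]; rfl
  rw [h1, h2, h3]
  exact R.euler _

/-! ## Flat angle assignments -/

section asg
variable (A : V → Option (V × V))

/-- flat darts -/
def fl (d : DD G) : Prop :=
  ∃ u, (u, d.1.1, d.1.2) ∈ cornersOf (G.walks.get (fc d)) ∧ A d.1.1 = some (u, d.1.2)

theorem outer_nodup (R : Reg G) : [G.s₁, G.s₃, G.s₂].Nodup := by
  rw [← R.outer_eq]
  exact (R.walk G.outer (List.mem_cons_self)).1

theorem three_outer (R : Reg G) (F : Flats G A) :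
    ThreeCorners G.outer fun k => A k.2.1 = some (k.1, k.2.2) := by
  have hn := outer_nodup R
  simp only [List.nodup_cons, List.mem_cons, List.not_mem_nil, or_false, not_or, not_false_eq_true,
    and_true, List.nodup_nil] at hn
  obtain ⟨⟨h13, h12⟩, h32⟩ := hn
  rw [R.outer_eq]
  refine ⟨(G.s₁, G.s₃, G.s₂), (G.s₃, G.s₂, G.s₁), (G.s₂, G.s₁, G.s₃), ?_, ?_, ?_, ?_⟩
  · intro h
    simp only [Prod.mk.injEq] at h
    exact h13 h.1
  · intro h
    simp only [Prod.mk.injEq] at h
    exact h12 h.1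
  · intro h
    simp only [Prod.mk.injEq] at h
    exact h32 h.1
  · intro k
    have hc : cornersOf [G.s₁, G.s₃, G.s₂] =
      [(G.s₁, G.s₃, G.s₂), (G.s₃, G.s₂, G.s₁), (G.s₂, G.s₁, G.s₃)] := rfl
    rw [hc]
    simp only [List.mem_cons, List.not_mem_nil, or_false]
    constructor
    · exact fun h => h.1
    · intro h
      refine ⟨h, ?_⟩
      rcases h with rfl | rfl | rfl
      · rw [F.susp.2.2]; exact Option.some_ne_none _ ∘ Eq.symm
      · rw [F.susp.2.1]; exact Option.some_ne_none _ ∘ Eq.symm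
      · rw [F.susp.1]; exact Option.some_ne_none _ ∘ Eq.symm

theorem three_all (R : Reg G) (F : Flats G A) (i : FF G) :
    ThreeCorners (G.walks.get i) fun k => A k.2.1 = some (k.1, k.2.2) := by
  have h : G.walks.get i ∈ G.outer :: G.inner := List.get_mem _ _
  rcases List.mem_cons.mp h with h | h
  · rw [h]; exact three_outer A R F
  · exact F.three _ h

theorem tri_fun {f : List V} {Q : V × V × V → Prop} (h : ThreeCorners f Q) :
    ∃ t : Fin 3 → V × V × V, Function.Injective t ∧ ∀ k, (k ∈ cornersOf f ∧ ¬ Q k) ↔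
      ∃ j, k = t j := by
  obtain ⟨a, b, c, hab, hac, hbc, hk⟩ := h
  refine ⟨![a, b, c], ?_, ?_⟩
  · intro i j hij
    fin_cases i <;> fin_cases j <;>
      simp_all
  · intro k
    rw [hk]
    constructor
    · rintro (h | h | h)
      · exact ⟨0, h⟩
      · exact ⟨1, h⟩
      · exact ⟨2, h⟩
    · rintro ⟨j, hj⟩
      fin_cases j
      · exact Or.inl hj
      · exact Or.inr (Or.inl hj)
      · exact Or.inr (Or.inr hj)

/-- corners of the walks -/
def tc (R : Reg G) (F : Flats G A) (i : FF G) : Fin 3 → V × V × V :=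
  (tri_fun (three_all A R F i)).choose

theorem tc_inj (R : Reg G) (F : Flats G A) (i : FF G) : Function.Injective (tc A R F i) :=
  (tri_fun (three_all A R F i)).choose_spec.1

theorem tc_iff (R : Reg G) (F : Flats G A) (i : FF G) (k : V × V × V) :
    (k ∈ cornersOf (G.walks.get i) ∧ ¬ A k.2.1 = some (k.1, k.2.2)) ↔ ∃ j, k = tc A R F i j :=
  (tri_fun (three_all A R F i)).choose_spec.2 k

theorem tc_mem (R : Reg G) (F : Flats G A) (i : FF G) (j : Fin 3) :
    tc A R F i j ∈ cornersOf (G.walks.get i) := ((tc_iff A R F i _).mpr ⟨j, rfl⟩).1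

theorem tc_not (R : Reg G) (F : Flats G A) (i : FF G) (j : Fin 3) :
    ¬ A (tc A R F i j).2.1 = some ((tc A R F i j).1, (tc A R F i j).2.2) :=
  ((tc_iff A R F i _).mpr ⟨j, rfl⟩).2

/-- corner darts -/
def cr (R : Reg G) (F : Flats G A) (i : FF G) (j : Fin 3) : DD G :=
  mk ((tc A R F i j).2.1, (tc A R F i j).2.2) (darts_of_walk (corner_darts (tc_mem A R F i j)).2)

theorem fc_cr (R : Reg G) (F : Flats G A) (i : FF G) (j : Fin 3) : fc (cr A R F i j) = i :=
  fc_eq R _ _ (corner_darts (tc_mem A R F i j)).2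

theorem cr_out (R : Reg G) (F : Flats G A) (v : V) (hv : v = G.s₁ ∨ v = G.s₂ ∨ v = G.s₃) :
    ∃ j, (cr A R F ⟨0, out_aux G⟩ j).1.1 = v := by
  have hA : A v = none := by
    rcases hv with rfl | rfl | rfl
    · exact F.susp.1
    · exact F.susp.2.1
    · exact F.susp.2.2
  have hvm : v ∈ G.outer := by
    rw [R.outer_eq]
    simp only [List.mem_cons, List.not_mem_nil, or_false]
    tauto
  obtain ⟨k, hk, hkv⟩ := exists_corner_at hvm
  obtain ⟨j, hj⟩ := (tc_iff A R F ⟨0, out_aux G⟩ k).mp ⟨hk, by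
    rw [hkv, hA]
    exact Option.some_ne_none _ ∘ Eq.symm⟩
  refine ⟨j, ?_⟩
  change (tc A R F _ j).2.1 = v
  rw [← hj, hkv]

theorem cr_out' (R : Reg G) (F : Flats G A) (j : Fin 3) :
    (cr A R F ⟨0, out_aux G⟩ j).1.1 = G.s₁ ∨ (cr A R F ⟨0, out_aux G⟩ j).1.1 = G.s₂ ∨
      (cr A R F ⟨0, out_aux G⟩ j).1.1 = G.s₃ := by
  have h1 := (dart_mem (corner_darts (tc_mem A R F ⟨0, out_aux G⟩ j)).2).1
  have h2 : (tc A R F ⟨0, out_aux G⟩ j).2.1 ∈ G.outer := h1
  rw [R.outer_eq] at h2
  simp only [List.mem_cons, List.not_mem_nil, or_false] at h2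
  change (tc A R F _ j).2.1 = _ ∨ (tc A R F _ j).2.1 = _ ∨ (tc A R F _ j).2.1 = _
  tauto

/-- the flat angle assignment -/
def faa (R : Reg G) (F : Flats G A) : FAA (pm R) where
  flat := fl A
  uniq d e hd he h := by
    have h1 : d.1.1 = e.1.1 := congrArg Subtype.val h
    obtain ⟨u, -, hu⟩ := hd
    obtain ⟨u', -, hu'⟩ := he
    rw [h1, hu'] at hu
    simp only [Option.some.injEq, Prod.mk.injEq] at hu
    exact Subtype.ext (Prod.ext h1 hu.2.symm)
  cor := cr A R F
  cor_inj i j j' h := by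
    apply tc_inj A R F i
    apply corner_unique (wk R i) (tc_mem A R F i j) (tc_mem A R F i j')
    exact congrArg (fun d : DD G => d.1.1) h
  cor_iff i d := by
    constructor
    · rintro ⟨h1, h2⟩
      have h1' : fc d = i := h1
      obtain ⟨u, hu⟩ := exists_corner_of_dart' (v := d.1.1) (x := d.1.2) (fc_spec d)
      have h3 : ¬ A d.1.1 = some (u, d.1.2) := fun h => h2 ⟨u, hu, h⟩
      rw [h1'] at hu
      obtain ⟨j, hj⟩ := (tc_iff A R F i (u, d.1.1, d.1.2)).mp ⟨hu, h3⟩
      refine ⟨j, ?_⟩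
      apply Subtype.ext
      change d.1 = ((tc A R F i j).2.1, (tc A R F i j).2.2)
      rw [← hj]
    · rintro ⟨j, rfl⟩
      refine ⟨fc_cr A R F i j, ?_⟩
      rintro ⟨u, hu, hu'⟩
      rw [fc_cr] at hu
      have h1 := corner_unique (wk R i) hu (tc_mem A R F i j) rfl
      apply tc_not A R F i j
      rw [← h1]
      exact hu'
  susp j d h := by
    rintro ⟨u, -, hu⟩
    have h1 : d.1.1 = (cr A R F ⟨0, out_aux G⟩ j).1.1 := congrArg Subtype.val h
    rcases cr_out' A R F j with h2 | h2 | h2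
    · rw [h1, h2, F.susp.1] at hu
      exact Option.some_ne_none _ hu.symm
    · rw [h1, h2, F.susp.2.1] at hu
      exact Option.some_ne_none _ hu.symm
    · rw [h1, h2, F.susp.2.2] at hu
      exact Option.some_ne_none _ hu.symm

/-- free vertices -/
theorem free_iff (R : Reg G) (F : Flats G A) (v : VV G) :
    (∀ i, v ≠ (faa A R F).s i) ↔ v.1 ≠ G.s₁ ∧ v.1 ≠ G.s₂ ∧ v.1 ≠ G.s₃ := by
  constructor
  · intro h
    refine ⟨?_, ?_, ?_⟩
    all_goals
      intro hv
      obtain ⟨j, hj⟩ := cr_out A R F v.1 (by tauto)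
      exact h j (Subtype.ext hj.symm)
  · rintro ⟨h1, h2, h3⟩ i hi
    have h4 : v.1 = (cr A R F ⟨0, out_aux G⟩ i).1.1 := congrArg Subtype.val hi
    rcases cr_out' A R F i with h5 | h5 | h5
    · exact h1 (h4.trans h5)
    · exact h2 (h4.trans h5)
    · exact h3 (h4.trans h5)

/-- all supports come from support darts -/
theorem sup_of (R : Reg G) (F : Flats G A) (v : VV G)
    (hv : v.1 ≠ G.s₁ ∧ v.1 ≠ G.s₂ ∧ v.1 ≠ G.s₃) (w : V) (h : Sup G A v.1 w) :
    ∃ d : DD G, sr d = v ∧ (faa A R F).sup d ∧ d.1.2 = w := by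
  have hfree := (free_iff A R F v).mpr hv
  unfold Sup at h
  match hA : A v.1, h with
  | none, h =>
    refine ⟨mk (v.1, w) h, Subtype.ext rfl, ⟨?_, Or.inl ?_⟩, rfl⟩
    · exact hfree
    · rintro e he ⟨u, -, hu⟩
      have h1 : e.1.1 = v.1 := congrArg Subtype.val he
      rw [h1, hA] at hu
      exact Option.some_ne_none _ hu.symm
  | some e, h =>
    obtain ⟨f, hf, hk⟩ := F.corner v.1 e (vmem v) hA
    obtain ⟨i, hi⟩ := List.mem_iff_get.mp (List.mem_cons_of_mem G.outer hf)
    have hk' : (e.1, v.1, e.2) ∈ cornersOf (G.walks.get i) := by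
      change (e.1, v.1, e.2) ∈ cornersOf ((G.outer :: G.inner).get i)
      rw [hi]; exact hk
    have hd2 := darts_of_walk (corner_darts hk').2
    have hd1 := darts_of_walk (corner_darts hk').1
    have hfl : fl A (mk (v.1, e.2) hd2) := by
      refine ⟨e.1, ?_, hA⟩
      rw [fc_eq R (mk (v.1, e.2) hd2) i (corner_darts hk').2]
      exact hk'
    rcases h with rfl | rfl
    · refine ⟨rv R (mk (e.1, v.1) hd1), Subtype.ext rfl, ⟨hfree, Or.inr (Or.inr ?_)⟩, rfl⟩
      have h1 : (pm R).rot (rv R (mk (e.1, v.1) hd1)) = mk (v.1, e.2) hd2 := by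
        rw [PMap.rot_apply]
        have h2 : (pm R).rev (rv R (mk (e.1, v.1) hd1)) = mk (e.1, v.1) hd1 := rfl
        rw [h2, pm_nxt]
        exact nx_eq R _ _ i hk' rfl
      rw [h1]
      exact hfl
    · exact ⟨mk (v.1, e.2) hd2, Subtype.ext rfl, ⟨hfree, Or.inr (Or.inl hfl)⟩, rfl⟩

theorem cutCond (R : Reg G) (F : Flats G A) (C : Cut G (Sup G A)) : CutCond (faa A R F) where
  one X hX hfree := by
    by_contra hc
    push Not at hc
    apply C.one {v | ∃ h : v ∈ (G.darts.map Prod.fst).toFinset, (⟨v, h⟩ : VV G) ∈ X}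
    · obtain ⟨v, hv⟩ := hX
      exact ⟨v.1, v.2, hv⟩
    · rintro v ⟨hv, -⟩
      exact vmem ⟨v, hv⟩
    · rintro v ⟨hv, hvX⟩
      exact (free_iff A R F ⟨v, hv⟩).mp (hfree _ hvX)
    · rintro v ⟨hv, hvX⟩ w hw
      obtain ⟨d, hd, hs, hdw⟩ := sup_of A R F ⟨v, hv⟩
        ((free_iff A R F ⟨v, hv⟩).mp (hfree _ hvX)) w hw
      have h1 := hc d (by
        have : (pm R).src d = ⟨v, hv⟩ := hd
        rw [this]; exact hvX) hs
      have h2 : ((pm R).tgt d).1 = w := hdw
      refine ⟨by rw [← h2]; exact ((pm R).tgt d).2, ?_⟩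
      have h3 : (⟨w, by rw [← h2]; exact ((pm R).tgt d).2⟩ : VV G) = (pm R).tgt d :=
        Subtype.ext h2.symm
      rw [h3]
      exact h1
  three f hf X hX a b h := by
    have hfi : G.walks.get f ∈ G.inner := by
      have h0 : f.1 ≠ 0 := fun h0 => hf (Fin.ext h0)
      have h1 : G.walks.get f ∈ G.outer :: G.inner := List.get_mem _ _
      obtain ⟨f, hfl⟩ := f
      cases f with
      | zero => exact absurd rfl h0
      | succ n => exact List.get_mem G.inner ⟨n, by
          unfold PlaneMap.walks at hfl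
          simpa using hfl⟩
    apply C.three _ hfi {v | ∃ h : v ∈ (G.darts.map Prod.fst).toFinset, (⟨v, h⟩ : VV G) ∈ X}
      a.1 b.1
    · intro v hv
      obtain ⟨x, hx⟩ := exists_dart_at hv
      have h1 := hX (mk (v, x) (darts_of_walk hx)) (fc_eq R _ _ hx)
      exact ⟨(sr (mk (v, x) (darts_of_walk hx))).2, h1⟩
    · constructor
      · rintro v ⟨hv, hvX⟩ hva hvb
        exact (free_iff A R F ⟨v, hv⟩).mp (h ⟨v, hv⟩ hvX (fun h => hva (congrArg Subtype.val h))
          (fun h => hvb (congrArg Subtype.val h))).1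
      · rintro v ⟨hv, hvX⟩ hva hvb w hw
        have h0 := h ⟨v, hv⟩ hvX (fun h => hva (congrArg Subtype.val h))
          (fun h => hvb (congrArg Subtype.val h))
        obtain ⟨d, hd, hs, hdw⟩ := sup_of A R F ⟨v, hv⟩ ((free_iff A R F ⟨v, hv⟩).mp h0.1) w hw
        have h1 := h0.2 d hd hs
        have h2 : ((pm R).tgt d).1 = w := hdw
        refine ⟨by rw [← h2]; exact ((pm R).tgt d).2, ?_⟩
        have h3 : (⟨w, by rw [← h2]; exact ((pm R).tgt d).2⟩ : VV G) = (pm R).tgt d :=
          Subtype.ext h2.symm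
        rw [h3]
        exact h1

end asg

/-! ## Positions -/

/-- positions of the vertices -/
def ps {R : Reg G} {A : V → Option (V × V)} {F : Flats G A} (S : Sol (faa A R F)) (v : V) :
    Plane :=
  if h : v ∈ (G.darts.map Prod.fst).toFinset then (S.x ⟨v, h⟩, S.y ⟨v, h⟩) else (0, 0)

theorem ps_src {R : Reg G} {A : V → Option (V × V)} {F : Flats G A} (S : Sol (faa A R F))
    (d : DD G) : ps S d.1.1 = (S.x (sr d), S.y (sr d)) := by
  unfold ps
  exact dif_pos (sr d).2

theorem ps_tgt {R : Reg G} {A : V → Option (V × V)} {F : Flats G A} (S : Sol (faa A R F))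
    (d : DD G) : ps S d.1.2 = (S.x ((pm R).tgt d), S.y ((pm R).tgt d)) := by
  have := ps_src S (rv R d)
  exact this

end

end Str

open Str in
/-- **Stretching.** -/
theorem tStretch : TStretch := by
  classical
  intro V G A R F C
  obtain ⟨S⟩ := Pool.Agent.SLTR.exists_sol _ (Pool.Agent.SLTR.cert_of_cut _ (cutCond A R F C))
  refine ⟨ps S, ?_, ?_, F.three⟩
  · -- flat corners
    intro f hf k hk hQ
    obtain ⟨u, v, w⟩ := k
    obtain ⟨i, hi⟩ := List.mem_iff_get.mp (List.mem_cons_of_mem G.outer hf)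
    have hk' : (u, v, w) ∈ cornersOf (G.walks.get i) := by
      change (u, v, w) ∈ cornersOf ((G.outer :: G.inner).get i)
      rw [hi]; exact hk
    have hd1 := darts_of_walk (corner_darts hk').1
    have hd2 := darts_of_walk (corner_darts hk').2
    have hfl : (faa A R F).flat (mk (v, w) hd2) := by
      refine ⟨u, ?_, hQ⟩
      rw [fc_eq R (mk (v, w) hd2) i (corner_darts hk').2]
      exact hk'
    have hnx : (pm R).nxt (mk (u, v) hd1) = mk (v, w) hd2 := nx_eq R _ _ i hk' rfl
    have hsy : (pm R).nxt.symm (mk (v, w) hd2) = mk (u, v) hd1 := by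
      rw [← hnx, Equiv.symm_apply_apply]
    obtain ⟨μ, hμ, hh⟩ := (faa A R F).flat_comb S.w S.adm _ hfl
    have hx := hh S.x S.hx
    have hy := hh S.y S.hy
    rw [hsy] at hx hy
    have hne := S.dl_ne (mk (u, v) hd1)
    have e1 := ps_src S (mk (u, v) hd1)
    have e2 := ps_tgt S (mk (u, v) hd1)
    have e3 := ps_src S (mk (v, w) hd2)
    have e4 := ps_tgt S (mk (v, w) hd2)
    have hsv : (pm R).tgt (mk (u, v) hd1) = (pm R).src (mk (v, w) hd2) := Subtype.ext rfl
    unfold Pool.Agent.SLTR.FAA.dl at hx hy hne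
    rw [hsv] at hx hy hne e2
    have f1 : ps S u = (S.x ((pm R).src (mk (u, v) hd1)), S.y ((pm R).src (mk (u, v) hd1))) := e1
    have f3 : ps S v = (S.x ((pm R).src (mk (v, w) hd2)), S.y ((pm R).src (mk (v, w) hd2))) := e3
    have f4 : ps S w = (S.x ((pm R).tgt (mk (v, w) hd2)), S.y ((pm R).tgt (mk (v, w) hd2))) := e4
    simp only
    rw [f1, f3, f4]
    set xu := S.x ((pm R).src (mk (u, v) hd1))
    set yu := S.y ((pm R).src (mk (u, v) hd1))
    set xv := S.x ((pm R).src (mk (v, w) hd2))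
    set yv := S.y ((pm R).src (mk (v, w) hd2))
    set xw := S.x ((pm R).tgt (mk (v, w) hd2))
    set yw := S.y ((pm R).tgt (mk (v, w) hd2))
    have hμ1 : (0 : ℝ) < 1 + μ := by linarith
    constructor
    · refine ⟨μ / (1 + μ), 1 / (1 + μ), div_pos hμ hμ1, div_pos one_pos hμ1, ?_, ?_⟩
      · field_simp; ring
      · apply Prod.ext
        · simp only [Prod.smul_mk, smul_eq_mul, Prod.mk_add_mk]
          field_simp
          linarith
        · simp only [Prod.smul_mk, smul_eq_mul, Prod.mk_add_mk]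
          field_simp
          linarith
    · intro he
      simp only [Prod.mk.injEq] at he
      apply hne
      obtain ⟨h1, h2⟩ := he
      constructor
      · have : (1 + μ) * (xv - xu) = 0 := by linear_combination (-1 : ℝ) * hx - (h1 : xu = xw)
        rcases mul_eq_zero.mp this with h | h
        · linarith
        · exact h
      · have : (1 + μ) * (yv - yu) = 0 := by linear_combination (-1 : ℝ) * hy - (h2 : yu = yw)
        rcases mul_eq_zero.mp this with h | h
        · linarith
        · exact h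
  · -- corners
    intro f hf k hk hQ
    obtain ⟨u, v, w⟩ := k
    obtain ⟨i, hi⟩ := List.mem_iff_get.mp (List.mem_cons_of_mem G.outer hf)
    have hk' : (u, v, w) ∈ cornersOf (G.walks.get i) := by
      change (u, v, w) ∈ cornersOf ((G.outer :: G.inner).get i)
      rw [hi]; exact hk
    have hd1 := darts_of_walk (corner_darts hk').1
    have hd2 := darts_of_walk (corner_darts hk').2
    have hfc : fc (mk (v, w) hd2) = i := fc_eq R (mk (v, w) hd2) i (corner_darts hk').2
    have hfl : ¬ (faa A R F).flat (mk (v, w) hd2) := by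
      rintro ⟨u', hu', hA⟩
      rw [hfc] at hu'
      have := corner_unique (wk R i) hu' hk' rfl
      simp only [Prod.mk.injEq] at this
      have hA' : A v = some (u', w) := hA
      rw [this.1] at hA'
      exact hQ hA'
    have hnx : (pm R).nxt (mk (u, v) hd1) = mk (v, w) hd2 := nx_eq R _ _ i hk' rfl
    have hsy : (pm R).nxt.symm (mk (v, w) hd2) = mk (u, v) hd1 := by
      rw [← hnx, Equiv.symm_apply_apply]
    obtain ⟨κ, hκ, hκ'⟩ := S.turn_corner _ hfl
    have hout : (pm R).face (mk (v, w) hd2) ≠ (pm R).out := by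
      intro h
      have h1 : i = ⟨0, out_aux G⟩ := hfc.symm.trans h
      -- then the dart is on the outer face and on the inner face
      subst h1
      have h2 : G.outer = f := hi
      -- the walks are pairwise disjoint, so an inner walk is not the outer walk
      obtain ⟨j, hj⟩ := List.mem_iff_get.mp hf
      have h3 : (v, w) ∈ dartsOf (G.walks.get j.succ) := by
        change (v, w) ∈ dartsOf (G.inner.get j)
        rw [hj, ← h2]
        exact (corner_darts hk').2
      have h4 := face_unique R.nodup (corner_darts hk').2 h3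
      exact absurd (congrArg Fin.val h4) (by simp)
    have hpos := S.ori_pos (pm_euler R) _ hout
    have ht : 0 < S.turn (mk (v, w) hd2) := by
      rw [hκ']; exact mul_pos hκ hpos
    unfold Pool.Agent.SLTR.Sol.turn at ht
    rw [hsy] at ht
    have e1 := ps_src S (mk (u, v) hd1)
    have e3 := ps_src S (mk (v, w) hd2)
    have e4 := ps_tgt S (mk (v, w) hd2)
    have hsv : (pm R).tgt (mk (u, v) hd1) = (pm R).src (mk (v, w) hd2) := Subtype.ext rfl
    unfold Pool.Agent.SLTR.FAA.dl at ht
    rw [hsv] at ht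
    have f1 : ps S u = (S.x ((pm R).src (mk (u, v) hd1)), S.y ((pm R).src (mk (u, v) hd1))) := e1
    have f3 : ps S v = (S.x ((pm R).src (mk (v, w) hd2)), S.y ((pm R).src (mk (v, w) hd2))) := e3
    have f4 : ps S w = (S.x ((pm R).tgt (mk (v, w) hd2)), S.y ((pm R).tgt (mk (v, w) hd2))) := e4
    simp only
    rw [f1, f3, f4]
    unfold det3
    simp only
    nlinarith

end Pool.Agent.SLN
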