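import Pool.Agent.SLN.Grid

set_option autoImplicit false

/-!
# Exact targets (see Blueprint.lean.txt for the proofs)
-/

namespace Pool.Agent.SLN

open Pool.Agent.PAH (Plane det3 ccwAngle LiesLeft dartsOf cornersOf DecisionProblem PolyReduces
  ChainEq FanPos)

/-! ## General notions -/

section general
variable {V : Type}

/-- exactly three corners of the closed walk `f` do not satisfy `Q` -/
def ThreeCorners (f : List V) (Q : V × V × V → Prop) : Prop :=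
  ∃ a b c : V × V × V, a ≠ b ∧ a ≠ c ∧ b ≠ c ∧
    ∀ k, (k ∈ cornersOf f ∧ ¬ Q k) ↔ (k = a ∨ k = b ∨ k = c)

/-- `p` is a straight-line drawing with positively oriented fans -/
structure Fanned (G : PlaneMap V) (p : V → Plane) : Prop where
  outer_eq : G.outer = [G.s₁, G.s₃, G.s₂]
  ne : G.inner ≠ []
  chain : ChainEq G.inner [G.s₁, G.s₂, G.s₃]
  fan : ∀ f ∈ G.inner, FanPos p f

/-- the combinatorial properties of a plane map with a triangular outer face -/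
structure Reg (G : PlaneMap V) : Prop where
  outer_eq : G.outer = [G.s₁, G.s₃, G.s₂]
  nodup : G.darts.Nodup
  symm : ∀ d ∈ G.darts, d.swap ∈ G.darts
  walk : ∀ f ∈ G.walks, f.Nodup ∧ 3 ≤ f.length
  /-- the corners at a vertex form one cycle -/
  rot : ∀ (v : V) (Q : V → Prop) (a b : V), (v, a) ∈ G.darts → (v, b) ∈ G.darts → Q a →
    (∀ f ∈ G.walks, ∀ k ∈ cornersOf f, k.2.1 = v → Q k.1 → Q k.2.2) → Q b
  conn : ∀ Q : V → Prop, (∃ d ∈ G.darts, Q d.1) → (∀ d ∈ G.darts, Q d.1 → Q d.2) →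
    ∀ d ∈ G.darts, Q d.1
  euler : ∀ _ : DecidableEq V, 2 * (G.darts.map Prod.fst).toFinset.card +
    2 * (G.inner.length + 1) = G.darts.length + 4

/-- arcs from a vertex to its supports, for an assignment `A` of flat corners: `A v = some (u, w)`
means that `v` is flat in the corner `(u, v, w)` -/
def Sup (G : PlaneMap V) (A : V → Option (V × V)) (v w : V) : Prop :=
  match A v with
  | none => (v, w) ∈ G.darts
  | some e => w = e.1 ∨ w = e.2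

/-- flat angle assignments -/
structure Flats (G : PlaneMap V) (A : V → Option (V × V)) : Prop where
  corner : ∀ v e, (∃ w, (v, w) ∈ G.darts) → A v = some e →
    ∃ f ∈ G.inner, (e.1, v, e.2) ∈ cornersOf f
  susp : A G.s₁ = none ∧ A G.s₂ = none ∧ A G.s₃ = none
  three : ∀ f ∈ G.inner, ThreeCorners f fun k => A k.2.1 = some (k.1, k.2.2)

/-- the vertices of `X` other than `e₁, e₂` are no suspensions and have all successors in `X` -/
structure Closed (G : PlaneMap V) (S : V → V → Prop) (X : Set V) (e₁ e₂ : V) : Prop where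
  susp : ∀ v ∈ X, v ≠ e₁ → v ≠ e₂ → v ≠ G.s₁ ∧ v ≠ G.s₂ ∧ v ≠ G.s₃
  step : ∀ v ∈ X, v ≠ e₁ → v ≠ e₂ → ∀ w, S v w → w ∈ X

/-- the cut condition -/
structure Cut (G : PlaneMap V) (S : V → V → Prop) : Prop where
  one : ∀ X : Set V, X.Nonempty → (∀ v ∈ X, ∃ w, (v, w) ∈ G.darts) →
    (∀ v ∈ X, v ≠ G.s₁ ∧ v ≠ G.s₂ ∧ v ≠ G.s₃) → (∀ v ∈ X, ∀ w, S v w → w ∈ X) → False
  three : ∀ f ∈ G.inner, ∀ (X : Set V) (e₁ e₂ : V), (∀ v ∈ f, v ∈ X) → ¬ Closed G S X e₁ e₂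

/-- positions such that each inner walk is the boundary of a triangle; `Q` are the flat corners -/
structure TriPos (G : PlaneMap V) (p : V → Plane) (Q : V × V × V → Prop) : Prop where
  flat : ∀ f ∈ G.inner, ∀ k ∈ cornersOf f, Q k →
    p k.2.1 ∈ openSegment ℝ (p k.1) (p k.2.2) ∧ p k.1 ≠ p k.2.2
  corner : ∀ f ∈ G.inner, ∀ k ∈ cornersOf f, ¬ Q k → 0 < det3 (p k.1) (p k.2.1) (p k.2.2)
  three : ∀ f ∈ G.inner, ThreeCorners f Q

/-- what is known about the set `Fl` of flat corners of a triangle representation -/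
structure Facts (G : PlaneMap V) (Fl : V × V × V → Prop) : Prop where
  three : ∀ f ∈ G.inner, ThreeCorners f Fl
  susp : ∀ f ∈ G.inner, ∀ k ∈ cornersOf f, Fl k → k.2.1 ≠ G.s₁ ∧ k.2.1 ≠ G.s₂ ∧ k.2.1 ≠ G.s₃
  uniq : ∀ f ∈ G.inner, ∀ g ∈ G.inner, ∀ k ∈ cornersOf f, ∀ l ∈ cornersOf g, Fl k → Fl l →
    k.2.1 = l.2.1 → k = l
  hull : ∀ f ∈ G.inner, ∀ (X : Set V) (e₁ e₂ : V), X.Finite → (∀ v ∈ f, v ∈ X) →
    ¬ ∀ v ∈ X, v ≠ e₁ → v ≠ e₂ → (v ≠ G.s₁ ∧ v ≠ G.s₂ ∧ v ≠ G.s₃) ∧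
      (∃ w, (v, w) ∈ G.darts) ∧
      ((∃ g ∈ G.inner, ∃ k ∈ cornersOf g, k.2.1 = v ∧ Fl k ∧ k.1 ∈ X ∧ k.2.2 ∈ X) ∨
        ∀ w, (v, w) ∈ G.darts → w ∈ X)

/-- escaping from `v` to `T` along arcs of `S`, inside `Z` -/
inductive Esc (S : V → V → Prop) (Z T : Set V) : V → Prop
  | done (v : V) : v ∈ Z → v ∈ T → Esc S Z T v
  | step (v w : V) : v ∈ Z → S v w → Esc S Z T w → Esc S Z T v

end general

/-! ## General targets -/

/-- G-DRAW -/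
def TDraw : Prop := ∀ {V : Type} (G : PlaneMap V) (p : V → Plane), Fanned G p →
  ∃ D : Drawing G, D.pos = p

/-- G-ROT -/
def TRot : Prop := ∀ {V : Type} (G : PlaneMap V), Drawing G → ∀ (v : V) (Q : V → Prop) (a b : V),
  (v, a) ∈ G.darts → (v, b) ∈ G.darts → Q a →
    (∀ f ∈ G.walks, ∀ k ∈ cornersOf f, k.2.1 = v → Q k.1 → Q k.2.2) → Q b

/-- G-EULER -/
def TEuler : Prop := ∀ {V : Type} (G : PlaneMap V) (p : V → Plane), Fanned G p →
  ∀ _ : DecidableEq V, 2 * (G.darts.map Prod.fst).toFinset.card +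
    2 * (G.inner.length + 1) = G.darts.length + 4

/-- G-STRETCH -/
def TStretch : Prop := ∀ {V : Type} (G : PlaneMap V) (A : V → Option (V × V)), Reg G → Flats G A →
  Cut G (Sup G A) → ∃ p : V → Plane, TriPos G p fun k => A k.2.1 = some (k.1, k.2.2)

/-- G-FAN: the walk starts with a flat vertex whose two neighbours on the walk are corners -/
def TFan : Prop := ∀ {V : Type} (p : V → Plane) (Q : V × V × V → Prop) (z : V) (l : List V),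
  (z :: l).Nodup → 3 ≤ (z :: l).length → ThreeCorners (z :: l) Q →
  (∀ k ∈ cornersOf (z :: l), Q k →
    p k.2.1 ∈ openSegment ℝ (p k.1) (p k.2.2) ∧ p k.1 ≠ p k.2.2) →
  (∀ k ∈ cornersOf (z :: l), ¬ Q k → 0 < det3 (p k.1) (p k.2.1) (p k.2.2)) →
  (∀ k ∈ cornersOf (z :: l), k.1 = z ∨ k.2.2 = z → ¬ Q k) → FanPos p (z :: l)

/-- G-SLTR -/
def TSLTR : Prop := ∀ {V : Type} (G : PlaneMap V) (p : V → Plane) (Q : V × V × V → Prop),
  G.outer = [G.s₁, G.s₃, G.s₂] → G.inner ≠ [] → ChainEq G.inner [G.s₁, G.s₂, G.s₃] →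
  (∀ f ∈ G.inner, f.Nodup) → TriPos G p Q → (∀ f ∈ G.inner, ∃ k, FanPos p (f.rotate k)) →
  Nonempty (SLTR G)

/-- G-FACTS -/
def TFacts : Prop := ∀ {V : Type} (G : PlaneMap V) (S : SLTR G),
  G.outer = [G.s₁, G.s₃, G.s₂] → (∀ f ∈ G.inner, f.Nodup ∧ 3 ≤ f.length) →
  (∀ v, v ≠ G.s₁ → v ≠ G.s₂ → v ≠ G.s₃ → (∃ w, (v, w) ∈ G.darts) →
    ∀ a b, ∃ w, (v, w) ∈ G.darts ∧ w ≠ a ∧ w ≠ b) →
  Facts G fun k => S.pos k.2.1 ∈ openSegment ℝ (S.pos k.1) (S.pos k.2.2)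

/-- G-RELABEL -/
def TRelabel : Prop := ∀ {V W : Type} (G : PlaneMap V) (g : V → W), Function.Injective g →
  (Nonempty (SLTR (G.map g)) ↔ Nonempty (SLTR G)) ∧
  (Nonempty (Drawing G) → Nonempty (Drawing (G.map g))) ∧
  (G.InternallyThreeConnected → (G.map g).InternallyThreeConnected)

/-! ## Parts of the general targets -/

/-- G-EULERTRI: Euler's formula for triangulations -/
def TEulerTri : Prop := ∀ {V : Type} (p : V → Plane) (T : List (V × V × V)) (a b c : V),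
  Pool.Agent.PAH.Nice p T a b c → Pool.Agent.PAH.Planar p T → ∀ _ : DecidableEq V,
    2 * ((T.flatMap Pool.Agent.PAH.triDarts).map Prod.fst).toFinset.card = T.length + 5

/-- G-TRI: the region of a triangular walk is a triangle -/
def TTri : Prop := ∀ {V : Type} (p : V → Plane) (Q : V × V × V → Prop) (f : List V), f.Nodup →
  ThreeCorners f Q →
  (∀ k ∈ cornersOf f, Q k → p k.2.1 ∈ openSegment ℝ (p k.1) (p k.2.2) ∧ p k.1 ≠ p k.2.2) →
  (∀ k ∈ cornersOf f, ¬ Q k → 0 < det3 (p k.1) (p k.2.1) (p k.2.2)) → FanPos p f →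
  ∃ A B C : Plane, 0 < det3 A B C ∧
    Pool.Agent.PAH.fanRegion p f = interior (convexHull ℝ {A, B, C})

/-- `R` contains the left half of a disc around the point `v` of the segment from `u` to `w` -/
def Half (R : Set Plane) (u v w : Plane) : Prop :=
  ∃ ε > 0, ∀ y ∈ Metric.ball v ε, 0 < det3 u w y → y ∈ R

/-- the corners of the bounded faces of a triangle representation -/
def FaceTri {V : Type} {G : PlaneMap V} (S : SLTR G) : Prop := ∀ i : Fin G.inner.length,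
  (∀ k ∈ cornersOf (G.inner.get i), 0 < det3 (S.pos k.1) (S.pos k.2.1) (S.pos k.2.2) ∨
    (S.pos k.2.1 ∈ openSegment ℝ (S.pos k.1) (S.pos k.2.2) ∧ S.pos k.1 ≠ S.pos k.2.2 ∧
      Half (S.face i) (S.pos k.1) (S.pos k.2.1) (S.pos k.2.2))) ∧
  ThreeCorners (G.inner.get i) fun k => S.pos k.2.1 ∈ openSegment ℝ (S.pos k.1) (S.pos k.2.2)

/-- G-FACETRI -/
def TFaceTri : Prop := ∀ {V : Type} (G : PlaneMap V) (S : SLTR G),
  (∀ f ∈ G.inner, f.Nodup ∧ 3 ≤ f.length) → FaceTri S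

/-- G-UNIQ -/
def TUniq : Prop := ∀ {V : Type} (G : PlaneMap V) (S : SLTR G),
  (∀ f ∈ G.inner, f.Nodup ∧ 3 ≤ f.length) → FaceTri S →
  (∀ v, v ≠ G.s₁ → v ≠ G.s₂ → v ≠ G.s₃ → (∃ w, (v, w) ∈ G.darts) →
    ∀ a b, ∃ w, (v, w) ∈ G.darts ∧ w ≠ a ∧ w ≠ b) →
  ∀ f ∈ G.inner, ∀ g ∈ G.inner, ∀ k ∈ cornersOf f, ∀ l ∈ cornersOf g,
    k.2.1 ≠ G.s₁ → k.2.1 ≠ G.s₂ → k.2.1 ≠ G.s₃ →
    S.pos k.2.1 ∈ openSegment ℝ (S.pos k.1) (S.pos k.2.2) →
    S.pos l.2.1 ∈ openSegment ℝ (S.pos l.1) (S.pos l.2.2) → k.2.1 = l.2.1 → k = l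

/-- G-HULL -/
def THull : Prop := ∀ {V : Type} (G : PlaneMap V) (S : SLTR G),
  G.outer = [G.s₁, G.s₃, G.s₂] → (∀ f ∈ G.inner, f.Nodup ∧ 3 ≤ f.length) → FaceTri S →
  ∀ f ∈ G.inner, ∀ (X : Set V) (e₁ e₂ : V), X.Finite → (∀ v ∈ f, v ∈ X) →
    ¬ ∀ v ∈ X, v ≠ e₁ → v ≠ e₂ → (v ≠ G.s₁ ∧ v ≠ G.s₂ ∧ v ≠ G.s₃) ∧
      (∃ w, (v, w) ∈ G.darts) ∧
      ((∃ g ∈ G.inner, ∃ k ∈ cornersOf g, k.2.1 = v ∧
          S.pos k.2.1 ∈ openSegment ℝ (S.pos k.1) (S.pos k.2.2) ∧ k.1 ∈ X ∧ k.2.2 ∈ X) ∨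
        ∀ w, (v, w) ∈ G.darts → w ∈ X)

/-! ## The grid: combinatorics -/

/-- F-CHAIN -/
def TChain : Prop := ∀ (N M : ℕ) (B : ℕ → ℕ → Bool), 2 ≤ N → 1 ≤ M →
  ChainEq (gridFaces N M B) [s1, s2, s3]

/-- F-COORD -/
def TCoord : Prop := ∀ (N M : ℕ) (B : ℕ → ℕ → Bool), 2 ≤ N → 1 ≤ M →
  ∃ p : VX → Plane, ∀ f ∈ gridFaces N M B, FanPos p f

/-- F-WALK -/
def TWalk : Prop := ∀ (N M : ℕ) (B : ℕ → ℕ → Bool), 2 ≤ N → 1 ≤ M →
  ∀ f ∈ gridFaces N M B, f.Nodup ∧ 3 ≤ f.length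

/-- flat corners of the inner vertices of a tile -/
def tileAsg (a b c d : VX) (r k i : ℕ) : ℕ → Option (VX × VX)
  | 0 => some (b, nd r k (i + 1))
  | 1 => some (a, nd r k (i + 2))
  | 2 => some (c, nd r k i)
  | 3 => some (c, nd r k (i + 4))
  | 4 => some (a, nd r k (i + 5))
  | 5 => some (d, nd r k (i + 3))
  | _ => none

/-- flat corners of the inner vertices of a dead gadget -/
def deadAsg (N b c : ℕ) : ℕ → Option (VX × VX)
  | 0 => some (hc N b c, nd b c 25)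
  | 1 => some (pp N b (c + 1), nd b c 26)
  | 2 => some (vv b c, nd b c 24)
  | 3 => some (nd b c 29, hy N b c)
  | 4 => some (nd b c 27, vv b c)
  | 5 => some (nd b c 28, ww b c)
  | 6 => some (hd N b c, nd b c 31)
  | 7 => some (ww b c, nd b c 32)
  | 8 => some (pp N b (c + 1), nd b c 30)
  | _ => none

/-- The flat angle assignment of the grid for the states `R` of the rails (`R r = true`: all pieces
of rail `r` take their right end, the rail is pressed). -/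
def asg (N M : ℕ) (B : ℕ → ℕ → Bool) (R : ℕ → Bool) (z : VX) : Option (VX × VX) :=
  if z.2.2 < 3 then none
  else if z.2.2 = 3 then
    (if R z.1 then
      (if z.2.1 = 0 then
        (if z.1 % 2 = 0 then some (nd z.1 0 22, nd z.1 0 19)
          else some (nd (z.1 - 1) 0 20, nd (z.1 - 1) 0 21))
      else if B z.1 (z.2.1 - 1) then some (nd z.1 (z.2.1 - 1) 14, nd z.1 (z.2.1 - 1) 15)
      else some (pp N (z.1 + 1) z.2.1, pp N z.1 z.2.1))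
    else if z.2.1 = M then none else some (nd z.1 z.2.1 4, nd z.1 z.2.1 1))
  else if z.2.2 = 4 then
    (if R z.1 then some (nd z.1 z.2.1 2, nd z.1 z.2.1 3)
      else some (nd z.1 z.2.1 10, nd z.1 z.2.1 7))
  else if z.2.2 = 5 then
    (if R z.1 then some (nd z.1 z.2.1 8, nd z.1 z.2.1 9)
      else if B z.1 z.2.1 then some (nd z.1 z.2.1 16, nd z.1 z.2.1 13)
      else some (pp N z.1 (z.2.1 + 1), pp N (z.1 + 1) (z.2.1 + 1)))
  else if z.2.2 < 9 then none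
  else if z.2.2 = 9 then some (nd z.1 (z.2.1 - 1) 32, nd z.1 (z.2.1 - 1) 25)
  else if z.2.2 = 10 then some (nd z.1 z.2.1 26, nd z.1 z.2.1 28)
  else if z.2.2 = 11 then some (nd z.1 z.2.1 29, nd z.1 z.2.1 31)
  else if z.2.2 < 18 then tileAsg (uu z.1 z.2.1) (hy N (z.1 + 1) z.2.1) (xx z.1 z.2.1)
    (hy N z.1 z.2.1) z.1 z.2.1 0 (z.2.2 - 12)
  else if z.2.2 < 24 then tileAsg (xx z.1 z.2.1) (hc N (z.1 + 1) z.2.1) (qq z.1 z.2.1)
    (hd N z.1 z.2.1) z.1 z.2.1 6 (z.2.2 - 18)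
  else if z.2.2 < 30 then tileAsg (qq z.1 z.2.1) (pp N (z.1 + 1) (z.2.1 + 1))
    (uu z.1 (z.2.1 + 1)) (pp N z.1 (z.2.1 + 1)) z.1 z.2.1 12 (z.2.2 - 24)
  else if z.2.2 < 36 then tileAsg (uu z.1 0) s1 (uu (z.1 + 1) 0) (hy N (z.1 + 1) 0) z.1 0 18
    (z.2.2 - 30)
  else deadAsg N z.1 z.2.1 (z.2.2 - 36)

/-- exactly one rail of each pair is pressed -/
def Paired (N : ℕ) (R : ℕ → Bool) : Prop := ∀ r, r % 2 = 0 → r + 1 < N → R r = !R (r + 1)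

/-- F-FLATS -/
def TFlats : Prop := ∀ (N M : ℕ) (B : ℕ → ℕ → Bool) (R : ℕ → Bool), 2 ≤ N → N % 2 = 0 → 1 ≤ M →
  Paired N R → Flats (grid N M B) (asg N M B R)

/-- F-FANGRID -/
def TFanGrid : Prop := ∀ (N M : ℕ) (B : ℕ → ℕ → Bool) (R : ℕ → Bool), 2 ≤ N → N % 2 = 0 → 1 ≤ M →
  Paired N R → ∀ f ∈ gridFaces N M B, f.length = 3 ∨
    ∃ k z l, f.rotate k = z :: l ∧
      ∀ c ∈ cornersOf (z :: l), c.1 = z ∨ c.2.2 = z → asg N M B R c.2.1 ≠ some (c.1, c.2.2)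

/-! ## The grid: escapes -/

/-- arcs inside a tile, with corners `a, b, c, d` -/
structure TileArcs (S : VX → VX → Prop) (a b c d : VX) (r k i : ℕ) : Prop where
  a0 : S (nd r k i) b
  a1 : S (nd r k i) (nd r k (i + 1))
  a2 : S (nd r k (i + 1)) a
  a3 : S (nd r k (i + 1)) (nd r k (i + 2))
  a4 : S (nd r k (i + 2)) c
  a5 : S (nd r k (i + 2)) (nd r k i)
  a6 : S (nd r k (i + 5)) d
  a7 : S (nd r k (i + 5)) (nd r k (i + 3))
  a8 : S (nd r k (i + 3)) c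
  a9 : S (nd r k (i + 3)) (nd r k (i + 4))
  a10 : S (nd r k (i + 4)) a
  a11 : S (nd r k (i + 4)) (nd r k (i + 5))

/-- all arcs used in the escapes -/
structure Arcs (N M : ℕ) (B : ℕ → ℕ → Bool) (R : ℕ → Bool) (S : VX → VX → Prop) : Prop where
  tA : ∀ r c, r < N → c < M →
    TileArcs S (uu r c) (hy N (r + 1) c) (xx r c) (hy N r c) r c 0
  tB : ∀ r c, r < N → c < M →
    TileArcs S (xx r c) (hc N (r + 1) c) (qq r c) (hd N r c) r c 6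
  tW : ∀ r c, r < N → c < M → B r c = true →
    TileArcs S (qq r c) (pp N (r + 1) (c + 1)) (uu r (c + 1)) (pp N r (c + 1)) r c 12
  tV : ∀ r, r % 2 = 0 → r + 1 < N →
    TileArcs S (uu r 0) s1 (uu (r + 1) 0) (hy N (r + 1) 0) r 0 18
  /-- dead gadgets -/
  d24 : ∀ b c, 1 ≤ b → b < N → c < M → S (nd b c 24) (hc N b c) ∧ S (nd b c 24) (nd b c 25)
  d25 : ∀ b c, 1 ≤ b → b < N → c < M → S (nd b c 25) (pp N b (c + 1)) ∧ S (nd b c 25) (nd b c 26)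
  d26 : ∀ b c, 1 ≤ b → b < N → c < M → S (nd b c 26) (vv b c) ∧ S (nd b c 26) (nd b c 24)
  d27 : ∀ b c, 1 ≤ b → b < N → c < M → S (nd b c 27) (hy N b c) ∧ S (nd b c 27) (nd b c 29)
  d28 : ∀ b c, 1 ≤ b → b < N → c < M → S (nd b c 28) (vv b c) ∧ S (nd b c 28) (nd b c 27)
  d29 : ∀ b c, 1 ≤ b → b < N → c < M → S (nd b c 29) (ww b c) ∧ S (nd b c 29) (nd b c 28)
  d30 : ∀ b c, 1 ≤ b → b < N → c < M → S (nd b c 30) (hd N b c) ∧ S (nd b c 30) (nd b c 31)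
  d31 : ∀ b c, 1 ≤ b → b < N → c < M → S (nd b c 31) (ww b c) ∧ S (nd b c 31) (nd b c 32)
  d32 : ∀ b c, 1 ≤ b → b < N → c < M → S (nd b c 32) (pp N b (c + 1)) ∧ S (nd b c 32) (nd b c 30)
  p : ∀ b c, 1 ≤ b → b < N → c < M →
    S (pp N b (c + 1)) (nd b c 32) ∧ S (pp N b (c + 1)) (nd b c 25)
  v : ∀ b c, 1 ≤ b → b < N → c < M → S (vv b c) (nd b c 26) ∧ S (vv b c) (nd b c 28)
  w : ∀ b c, 1 ≤ b → b < N → c < M → S (ww b c) (nd b c 29) ∧ S (ww b c) (nd b c 31)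
  /-- pressed rails -/
  xR : ∀ r c, r < N → c < M → R r = true → S (xx r c) (nd r c 2) ∧ S (xx r c) (nd r c 3)
  qR : ∀ r c, r < N → c < M → R r = true → S (qq r c) (nd r c 8) ∧ S (qq r c) (nd r c 9)
  uR : ∀ r c, r < N → c < M → R r = true → B r c = false →
    S (uu r (c + 1)) (pp N (r + 1) (c + 1)) ∧ S (uu r (c + 1)) (pp N r (c + 1))
  uRW : ∀ r c, r < N → c < M → R r = true → B r c = true →
    S (uu r (c + 1)) (nd r c 14) ∧ S (uu r (c + 1)) (nd r c 15)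
  u0e : ∀ r, r % 2 = 0 → r + 1 < N → R r = true →
    S (uu r 0) (nd r 0 22) ∧ S (uu r 0) (nd r 0 19)
  u0o : ∀ r, r % 2 = 0 → r + 1 < N → R (r + 1) = true →
    S (uu (r + 1) 0) (nd r 0 20) ∧ S (uu (r + 1) 0) (nd r 0 21)
  /-- unpressed rails -/
  uL : ∀ r c, r < N → c < M → R r = false → S (uu r c) (nd r c 4) ∧ S (uu r c) (nd r c 1)
  xL : ∀ r c, r < N → c < M → R r = false → S (xx r c) (nd r c 10) ∧ S (xx r c) (nd r c 7)
  qL : ∀ r c, r < N → c < M → R r = false → B r c = false →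
    S (qq r c) (pp N r (c + 1)) ∧ S (qq r c) (pp N (r + 1) (c + 1))
  qLW : ∀ r c, r < N → c < M → R r = false → B r c = true →
    S (qq r c) (nd r c 16) ∧ S (qq r c) (nd r c 13)
  uM : ∀ r, r < N → R r = false → S (uu r M) s3 ∧ S (uu r M) (pp N r M) ∧
    S (uu r M) (pp N (r + 1) M)
  /-- hubs -/
  y : ∀ b c, 1 ≤ b → b < N → c < M → S (hy N b c) (uu (b - 1) c) ∧ S (hy N b c) (uu b c) ∧
    S (hy N b c) (xx (b - 1) c) ∧ S (hy N b c) (xx b c) ∧ S (hy N b c) (hc N b c) ∧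
    S (hy N b c) (hd N b c)
  c : ∀ b c, 1 ≤ b → b < N → c < M → S (hc N b c) (hy N b c) ∧ S (hc N b c) (xx (b - 1) c) ∧
    S (hc N b c) (qq (b - 1) c) ∧ S (hc N b c) (pp N b (c + 1))
  d : ∀ b c, 1 ≤ b → b < N → c < M → S (hd N b c) (hy N b c) ∧ S (hd N b c) (xx b c) ∧
    S (hd N b c) (qq b c) ∧ S (hd N b c) (pp N b (c + 1))

/-- E-ARCS -/
def TArcs : Prop := ∀ (N M : ℕ) (B : ℕ → ℕ → Bool) (R : ℕ → Bool), 2 ≤ N → N % 2 = 0 → 1 ≤ M →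
  Paired N R → Arcs N M B R (Sup (grid N M B) (asg N M B R))

/-- the column of a vertex (the vertices `pp N b j` belong to column `j - 1`) -/
def col (z : VX) : ℕ := if z.2.2 = 9 then z.2.1 - 1 else z.2.1

/-- the left lane: `uu`, `hy`, the inner vertices of the first tiles, and `xx` on pressed rails -/
def LeftLane (R : ℕ → Bool) (z : VX) : Prop :=
  z.2.2 = 3 ∨ z.2.2 = 6 ∨ (z.2.2 = 4 ∧ R z.1 = true) ∨ (12 ≤ z.2.2 ∧ z.2.2 < 18)

/-- the right lane of column `c`, everything to the right of it, and `s3` -/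
def ZR (R : ℕ → Bool) (c : ℕ) : Set VX :=
  {z | z = s3 ∨ (3 ≤ z.2.2 ∧ (c < col z ∨ (col z = c ∧ ¬ LeftLane R z)))}

/-- escapes to the right -/
def RightEsc (N M : ℕ) (R : ℕ → Bool) (S : VX → VX → Prop) : Prop :=
  ∀ b c, 1 ≤ b → b < N → c < M →
    Esc S (ZR R c) {s3} (hc N b c) ∧ Esc S (ZR R c) {s3} (hd N b c)

/-- E-RIGHT: escapes to the right through the true literals -/
def TRight : Prop := ∀ (N M : ℕ) (B : ℕ → ℕ → Bool) (R : ℕ → Bool) (S : VX → VX → Prop),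
  2 ≤ N → N % 2 = 0 → 1 ≤ M → Arcs N M B R S →
  (∀ c, c < M → ∃ r, r < N ∧ B r c = true ∧ R r = false) → RightEsc N M R S

/-- E-HUBS: hubs are not in closed sets -/
def THubs : Prop := ∀ (N M : ℕ) (B : ℕ → ℕ → Bool) (R : ℕ → Bool) (S : VX → VX → Prop),
  2 ≤ N → N % 2 = 0 → 1 ≤ M → Paired N R → Arcs N M B R S → RightEsc N M R S →
  ∀ (X : Set VX) (e₁ e₂ : VX), Closed (grid N M B) S X e₁ e₂ → ∀ b c, 1 ≤ b → b < N → c < M →
    ∀ h, (h = hy N b c ∨ h = hc N b c ∨ h = hd N b c) → h ∈ X → h = e₁ ∨ h = e₂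

/-- E-FACES: no closed set contains an inner face -/
def TFaces : Prop := ∀ (N M : ℕ) (B : ℕ → ℕ → Bool) (R : ℕ → Bool) (S : VX → VX → Prop),
  2 ≤ N → N % 2 = 0 → 1 ≤ M → Paired N R → Arcs N M B R S →
  ∀ (X : Set VX) (e₁ e₂ : VX), Closed (grid N M B) S X e₁ e₂ →
    (∀ b c, 1 ≤ b → b < N → c < M →
      ∀ h, (h = hy N b c ∨ h = hc N b c ∨ h = hd N b c) → h ∈ X → h = e₁ ∨ h = e₂) →
    ∀ f ∈ gridFaces N M B, ¬ ∀ v ∈ f, v ∈ X

/-- E-ONE: a closed set without exits is empty -/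
def TOne : Prop := ∀ (N M : ℕ) (B : ℕ → ℕ → Bool) (R : ℕ → Bool) (S : VX → VX → Prop),
  2 ≤ N → N % 2 = 0 → 1 ≤ M → Paired N R → Arcs N M B R S →
  ∀ X : Set VX, (∀ v ∈ X, v ≠ s1 ∧ v ≠ s2 ∧ v ≠ s3) → (∀ v ∈ X, ∀ w, S v w → w ∈ X) →
    (∀ b c, 1 ≤ b → b < N → c < M → hy N b c ∉ X ∧ hc N b c ∉ X ∧ hd N b c ∉ X) →
    ∀ v ∈ X, ¬ ∃ w, (v, w) ∈ (grid N M B).darts

/-- E-CONN: the grid is internally 3-connected -/
def TConn : Prop := ∀ (N M : ℕ) (B : ℕ → ℕ → Bool), 2 ≤ N → N % 2 = 0 → 1 ≤ M →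
  (grid N M B).InternallyThreeConnected

/-! ## The grid: from representations to states -/

/-- N-LOCAL: the local consequences of the facts -/
structure Local (N M : ℕ) (B : ℕ → ℕ → Bool) (Fl : VX × VX × VX → Prop) : Prop where
  tA : ∀ r c, r < N → c < M →
    Fl (nd r c 4, uu r c, nd r c 1) ∨ Fl (nd r c 2, xx r c, nd r c 3)
  tB : ∀ r c, r < N → c < M →
    Fl (nd r c 10, xx r c, nd r c 7) ∨ Fl (nd r c 8, qq r c, nd r c 9)
  tW : ∀ r c, r < N → c < M → B r c = true →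
    Fl (nd r c 16, qq r c, nd r c 13) ∨ Fl (nd r c 14, uu r (c + 1), nd r c 15)
  thin : ∀ r c, r < N → c < M → B r c = false →
    Fl (pp N r (c + 1), qq r c, pp N (r + 1) (c + 1)) ∨
      Fl (pp N (r + 1) (c + 1), uu r (c + 1), pp N r (c + 1))
  tV : ∀ r, r % 2 = 0 → r + 1 < N →
    Fl (nd r 0 22, uu r 0, nd r 0 19) ∨ Fl (nd r 0 20, uu (r + 1) 0, nd r 0 21)
  dead : ∀ b c, 1 ≤ b → b < N → c < M → Fl (nd b c 32, pp N b (c + 1), nd b c 25)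

def TLocal : Prop := ∀ (N M : ℕ) (B : ℕ → ℕ → Bool) (Fl : VX × VX × VX → Prop), 2 ≤ N →
  N % 2 = 0 → 1 ≤ M → Facts (grid N M B) Fl → Local N M B Fl

/-- N-CLAUSE -/
def TClause : Prop := ∀ (N M : ℕ) (B : ℕ → ℕ → Bool) (Fl : VX × VX × VX → Prop), 2 ≤ N →
  N % 2 = 0 → 1 ≤ M → Facts (grid N M B) Fl →
  (∀ b c, 1 ≤ b → b < N → c < M → Fl (nd b c 32, pp N b (c + 1), nd b c 25)) →
  ∀ c, c < M → ∃ r, r < N ∧ B r c = true ∧ ¬ Fl (nd r c 8, qq r c, nd r c 9)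

/-- N-MAIN -/
def TNo : Prop := ∀ (N M : ℕ) (B : ℕ → ℕ → Bool) (Fl : VX × VX × VX → Prop), 2 ≤ N →
  N % 2 = 0 → 1 ≤ M → Facts (grid N M B) Fl →
  ∃ R : ℕ → Bool, Paired N R ∧ ∀ c, c < M → ∃ r, r < N ∧ B r c = true ∧ R r = false

end Pool.Agent.SLN
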